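import Pool.Agent.Helper55.ML.Basic

set_option autoImplicit false
open Finset Filter Topology

namespace Pool.Agent.Helper55.ML

private theorem a0_succ (k : ℕ) (μ : ℝ) : hp (k + 1) μ = hp k μ - phi k μ := by
  unfold hp
  rw [Finset.sum_range_succ]
  ring

private theorem a0_phi_deriv_zero (μ : ℝ) : HasDerivAt (phi 0) (-phi 0 μ) μ := by
  have h1 : phi 0 = fun x => Real.exp (-x) := by
    funext x; unfold phi; simp
  rw [h1]
  have h2 := (hasDerivAt_neg μ).exp
  simpa using h2

private theorem a0_phi_deriv (k : ℕ) (μ : ℝ) :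
    HasDerivAt (phi (k + 1)) (phi k μ - phi (k + 1) μ) μ := by
  have h1 : phi (k + 1) = fun x => Real.exp (-x) * (x ^ (k + 1) / (k + 1).factorial) := by
    funext x; unfold phi; rw [mul_div_assoc]
  have h2 := ((hasDerivAt_neg μ).exp).mul ((hasDerivAt_pow (k + 1) μ).div_const
    ((k + 1).factorial : ℝ))
  rw [h1]
  refine h2.congr_deriv ?_
  unfold phi
  have h3 : ((k + 1).factorial : ℝ) = (k + 1) * k.factorial := by
    rw [Nat.factorial_succ]; push_cast; ring
  have h4 : (k.factorial : ℝ) ≠ 0 := by positivity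
  have h5 : (k : ℝ) + 1 ≠ 0 := by positivity
  rw [h3]
  simp only [Nat.add_sub_cancel]
  push_cast
  field_simp
  ring

/-- A0: calculus of the Poisson functions. -/
theorem hp_hasDerivAt (k : ℕ) (hk : 1 ≤ k) (μ : ℝ) : HasDerivAt (hp k) (phi (k - 1) μ) μ := by
  induction k, hk using Nat.le_induction with
  | base =>
    have h1 : hp 1 = fun x => 1 - phi 0 x := by
      funext x; unfold hp; simp
    rw [h1]
    have h2 := (hasDerivAt_const μ (1 : ℝ)).sub (a0_phi_deriv_zero μ)
    refine h2.congr_deriv ?_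
    simp
  | succ k hk ih =>
    have h1 : hp (k + 1) = fun x => hp k x - phi k x := by
      funext x; exact a0_succ k x
    rw [h1]
    obtain ⟨j, rfl⟩ : ∃ j, k = j + 1 := ⟨k - 1, by omega⟩
    refine (ih.sub (a0_phi_deriv j μ)).congr_deriv ?_
    simp

theorem phi_nonneg (k : ℕ) {μ : ℝ} (h : 0 ≤ μ) : 0 ≤ phi k μ := by
  unfold phi; positivity

theorem hp_nonneg (k : ℕ) {μ : ℝ} (h : 0 ≤ μ) : 0 ≤ hp k μ := by
  unfold hp
  have h1 := Real.sum_le_exp_of_nonneg h k
  have h2 : ∑ i ∈ range k, phi i μ = Real.exp (-μ) * ∑ i ∈ range k, μ ^ i / i.factorial := by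
    rw [Finset.mul_sum]
    refine Finset.sum_congr rfl (fun i _ => ?_)
    unfold phi; rw [mul_div_assoc]
  rw [h2]
  have h3 : Real.exp (-μ) * Real.exp μ = 1 := by rw [← Real.exp_add]; simp
  have h4 := mul_le_mul_of_nonneg_left h1 (Real.exp_pos (-μ)).le
  linarith

theorem hp_le_one (k : ℕ) {μ : ℝ} (h : 0 ≤ μ) : hp k μ ≤ 1 := by
  unfold hp
  have := Finset.sum_nonneg (s := range k) (fun i _ => phi_nonneg i h)
  linarith

theorem hp_mono (k : ℕ) {a b : ℝ} (h : 0 ≤ a) (hab : a ≤ b) : hp k a ≤ hp k b := by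
  rcases Nat.eq_zero_or_pos k with hk | hk
  · subst hk; unfold hp; simp
  · have hmono : MonotoneOn (hp k) (Set.Ici 0) := by
      refine monotoneOn_of_deriv_nonneg (convex_Ici 0) ?_ ?_ ?_
      · exact fun x _ => (hp_hasDerivAt k hk x).continuousAt.continuousWithinAt
      · exact fun x _ => (hp_hasDerivAt k hk x).differentiableAt.differentiableWithinAt
      · intro x hx
        rw [interior_Ici] at hx
        rw [(hp_hasDerivAt k hk x).deriv]
        exact phi_nonneg _ (le_of_lt hx)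
    exact hmono h (h.trans hab) hab

theorem hp_zero (k : ℕ) (hk : 1 ≤ k) : hp k 0 = 0 := by
  induction k, hk using Nat.le_induction with
  | base => unfold hp phi; simp
  | succ k hk ih =>
    rw [a0_succ, ih]
    unfold phi
    rw [zero_pow (by omega)]
    simp

theorem hp_succ (k : ℕ) (μ : ℝ) : hp (k + 1) μ = hp k μ - phi k μ := a0_succ k μ

theorem phi_mul (k : ℕ) (hk : 1 ≤ k) (μ : ℝ) : μ * phi (k - 1) μ = k * phi k μ := by
  obtain ⟨j, rfl⟩ : ∃ j, k = j + 1 := ⟨k - 1, by omega⟩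
  unfold phi
  have h3 : ((j + 1).factorial : ℝ) = (j + 1) * j.factorial := by
    rw [Nat.factorial_succ]; push_cast; ring
  have h4 : (j.factorial : ℝ) ≠ 0 := by positivity
  have h5 : (j : ℝ) + 1 ≠ 0 := by positivity
  rw [h3]
  simp only [Nat.add_sub_cancel]
  push_cast
  field_simp
  ring

theorem phi_le_one (k : ℕ) {μ : ℝ} (h : 0 ≤ μ) : phi k μ ≤ 1 := by
  unfold phi
  have h1 := Real.pow_div_factorial_le_exp μ h k
  have h3 : Real.exp (-μ) * Real.exp μ = 1 := by rw [← Real.exp_add]; simp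
  have h4 := mul_le_mul_of_nonneg_left h1 (Real.exp_pos (-μ)).le
  rw [mul_div_assoc]
  linarith

theorem hp_lip (k : ℕ) {a b : ℝ} (ha : 0 ≤ a) (hb : 0 ≤ b) : |hp k a - hp k b| ≤ |a - b| := by
  rcases Nat.eq_zero_or_pos k with hk | hk
  · subst hk; unfold hp; simp
  · have h1 := (convex_Ici (0 : ℝ)).norm_image_sub_le_of_norm_hasDerivWithin_le
      (f := hp k) (f' := fun x => phi (k - 1) x) (C := 1) (x := b) (y := a)
      (fun x _ => (hp_hasDerivAt k hk x).hasDerivWithinAt)
      (fun x hx => by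
        rw [Real.norm_eq_abs, abs_of_nonneg (phi_nonneg _ hx)]
        exact phi_le_one _ hx) hb ha
    simpa [Real.norm_eq_abs] using h1

theorem phi_lip (k : ℕ) {a b : ℝ} (ha : 0 ≤ a) (hb : 0 ≤ b) :
    |phi k a - phi k b| ≤ 2 * |a - b| := by
  have h1 := hp_lip k ha hb
  have h2 := hp_lip (k + 1) ha hb
  have e1 : phi k a = hp k a - hp (k + 1) a := by rw [a0_succ]; ring
  have e2 : phi k b = hp k b - hp (k + 1) b := by rw [a0_succ]; ring
  rw [e1, e2]
  have h3 : hp k a - hp (k + 1) a - (hp k b - hp (k + 1) b) =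
      (hp k a - hp k b) - (hp (k + 1) a - hp (k + 1) b) := by ring
  rw [h3]
  refine (abs_sub _ _).trans ?_
  linarith

end Pool.Agent.Helper55.ML
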