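import Pool.Agent.Helper55.ML.Basic

set_option autoImplicit false
open Finset Filter Topology

namespace Pool.Agent.Helper55.ML

/-- Standing assumptions: `2 ≤ d`, `2 ≤ t`, `c > 0` and `δ > 0` such that a dependent `G(n,c/n)`
has whp a clique of the closure with at least `δ n` vertices. -/
structure Std {d t : ℕ} (R : Rig d t) (c δ : ℝ) : Prop where
  hd : 2 ≤ d
  ht : 2 ≤ t
  hc : 0 < c
  hδ : 0 < δ
  hT : Neg c (fun n G => R.Dep G ∧ ¬ (R.Y δ n G).Nonempty)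

/-- The edges from `A` to vertices outside `A ∪ Y(G - A)` are dependent over
`(G - A) ∪ Kb A Y(G - A)`. -/
def Rig.FIbad {d t : ℕ} (R : Rig d t) (δ : ℝ) (n : ℕ) (A : Finset ℕ) (G : Finset (Sym2 ℕ)) :
    Prop :=
  (R.Y δ n (del A G)).Nonempty ∧
    R.r (del A G ∪ Kb A (R.Y δ n (del A G)) ∪ outE A (R.Y δ n (del A G)) G) <
      R.r (del A G ∪ Kb A (R.Y δ n (del A G))) + (outE A (R.Y δ n (del A G)) G).card

/-- Failure of the direct sum property over `G` for the vertices of `A` outside `Y(G)`. -/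
def Rig.DS0bad {d t : ℕ} (R : Rig d t) (δ : ℝ) (n : ℕ) (A : Finset ℕ) (G : Finset (Sym2 ℕ)) :
    Prop :=
  (R.Y δ n G).Nonempty ∧ Disjoint A (R.Y δ n G) ∧
    R.r (G ∪ Kb A (R.Y δ n G)) < (∑ q ∈ A, (R.r (G ∪ star q (R.Y δ n G)) - R.r G)) + R.r G

/-- Failure of the direct sum property over `G - v` for the neighbours of `v` outside
`Y(G - v)`. -/
def Rig.DSbad {d t : ℕ} (R : Rig d t) (δ : ℝ) (n : ℕ) (v : ℕ) (G : Finset (Sym2 ℕ)) : Prop :=
  R.DS0bad δ n (nb n G v \ R.Y δ n (del {v} G)) (del {v} G)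

/-- The fixed point function of the rank count. -/
noncomputable def Dfun (d : ℕ) (c u : ℝ) : ℝ :=
  c / 2 * (hp d (c * u) ^ 2 + 2 * hp d (c * u) * phi (d - 1) (c * u)) - d * u

/-- `x` is a fixed point of `u ↦ P(Poi(cu) ≥ d)` at which dependence is possible. -/
def GoodX (d : ℕ) (c x : ℝ) : Prop :=
  0 < x ∧ x ≤ 1 ∧ hp d (c * x) = x ∧ d * hp (d + 1) (c * x) ≤ c * x ^ 2 / 2

/-- Iterates from 1. -/
noncomputable def xt (d : ℕ) (c : ℝ) (k : ℕ) : ℝ := (fun u => hp d (c * u))^[k] 1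

end Pool.Agent.Helper55.ML
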