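import Pool.Agent.Helper55.ML.A0
import Pool.Agent.Helper55.ML.S0

set_option autoImplicit false
open Finset Filter Topology

namespace Pool.Agent.Helper55.ML

/-! Auxiliary facts for A1. -/

private theorem a1_phi_deriv (k : ℕ) (hk : 1 ≤ k) (μ : ℝ) :
    HasDerivAt (phi k) (phi (k - 1) μ - phi k μ) μ := by
  have h1 : phi k = fun x => hp k x - hp (k + 1) x := by
    funext x
    rw [hp_succ]
    ring
  rw [h1]
  have h2 := (hp_hasDerivAt k hk μ).sub (hp_hasDerivAt (k + 1) (by omega) μ)
  refine h2.congr_deriv ?_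
  simp [hp_succ]

private theorem a1_phi_pos (k : ℕ) {μ : ℝ} (h : 0 < μ) : 0 < phi k μ := by
  unfold phi
  positivity

/-- strict quasi-concavity of the Poisson weights. -/
private theorem a1_quasi (k : ℕ) (hk : 1 ≤ k) {a b x : ℝ} (ha : 0 ≤ a) (hab : a < b) (hbx : b < x) :
    phi k a < phi k b ∨ phi k x < phi k b := by
  have hk0 : (0 : ℝ) < k := by exact_mod_cast hk
  have hcont : Continuous (phi k) := by
    unfold phi
    fun_prop
  rcases le_total b k with hb | hb
  · left
    have hmono : StrictMonoOn (phi k) (Set.Icc 0 (k : ℝ)) := by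
      refine strictMonoOn_of_deriv_pos (convex_Icc 0 (k : ℝ)) hcont.continuousOn ?_
      intro y hy
      rw [interior_Icc] at hy
      rw [(a1_phi_deriv k hk y).deriv]
      have h1 := phi_mul k hk y
      have h2 := a1_phi_pos k hy.1
      have h3 : y * phi k y < k * phi k y := mul_lt_mul_of_pos_right hy.2 h2
      rw [← h1] at h3
      have h4 := lt_of_mul_lt_mul_left h3 hy.1.le
      linarith
    exact hmono ⟨ha, (hab.le.trans hb)⟩ ⟨ha.trans hab.le, hb⟩ hab
  · right
    have hanti : StrictAntiOn (phi k) (Set.Ici (k : ℝ)) := by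
      refine strictAntiOn_of_deriv_neg (convex_Ici (k : ℝ)) hcont.continuousOn ?_
      intro y hy
      rw [interior_Ici] at hy
      have hy' : (k : ℝ) < y := hy
      have hy0 : 0 < y := hk0.trans hy'
      rw [(a1_phi_deriv k hk y).deriv]
      have h1 := phi_mul k hk y
      have h2 := a1_phi_pos k hy0
      have h3 : k * phi k y < y * phi k y := mul_lt_mul_of_pos_right hy' h2
      rw [← h1] at h3
      have h4 := lt_of_mul_lt_mul_left h3 hy0.le
      linarith
    exact hanti hb (hb.trans hbx.le) hbx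

private theorem a1_h_deriv {d : ℕ} (hd : 2 ≤ d) (c u : ℝ) :
    HasDerivAt (fun u => hp d (c * u)) (c * phi (d - 1) (c * u)) u := by
  have h1 : HasDerivAt (fun u : ℝ => c * u) c u := by
    simpa using (hasDerivAt_id u).const_mul c
  have h2 := (hp_hasDerivAt d (by omega) (c * u)).comp u h1
  refine h2.congr_deriv ?_
  ring

private theorem a1_k_deriv {d : ℕ} (hd : 2 ≤ d) (c u : ℝ) :
    HasDerivAt (fun u => hp d (c * u) - u) (c * phi (d - 1) (c * u) - 1) u :=
  (a1_h_deriv hd c u).sub (hasDerivAt_id u)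

/-- mean value theorem for `h(u) - u`. -/
private theorem a1_mvt {d : ℕ} (hd : 2 ≤ d) (c : ℝ) {a b : ℝ} (hab : a < b) :
    ∃ z ∈ Set.Ioo a b, (hp d (c * b) - b) - (hp d (c * a) - a) =
      (c * phi (d - 1) (c * z) - 1) * (b - a) := by
  have hcont : ContinuousOn (fun u => hp d (c * u) - u) (Set.Icc a b) :=
    fun u _ => (a1_k_deriv hd c u).continuousAt.continuousWithinAt
  obtain ⟨z, hz, hz'⟩ := exists_hasDerivAt_eq_slope (fun u => hp d (c * u) - u)
    (fun u => c * phi (d - 1) (c * u) - 1) hab hcont (fun u _ => a1_k_deriv hd c u)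
  refine ⟨z, hz, ?_⟩
  have hba : b - a ≠ 0 := by linarith
  rw [hz', div_mul_cancel₀ _ hba]

private theorem a1_G_deriv {d : ℕ} (hd : 2 ≤ d) {c : ℝ} (hc : 0 < c) (u : ℝ) :
    HasDerivAt (fun u => u ^ 2 / 2 - u * hp d (c * u) + d / c * hp (d + 1) (c * u))
      (u - hp d (c * u)) u := by
  have h1 : HasDerivAt (fun u : ℝ => c * u) c u := by
    simpa using (hasDerivAt_id u).const_mul c
  have h2 := (hp_hasDerivAt (d + 1) (by omega) (c * u)).comp u h1
  have h3 := ((hasDerivAt_pow 2 u).div_const 2).sub ((hasDerivAt_id u).mul (a1_h_deriv hd c u))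
  have h4 := h3.add (h2.const_mul (d / c))
  refine h4.congr_deriv ?_
  have h5 := phi_mul d (by omega) (c * u)
  have hc' : c ≠ 0 := hc.ne'
  simp only [Nat.add_sub_cancel, id]
  have h6 : (d : ℝ) / c * (phi d (c * u) * c) = d * phi d (c * u) := by
    field_simp
  rw [h6, ← h5]
  norm_num
  ring

/-- A1 (hint): `h(u) = hp d (c u)` is convex on `[0,(d-1)/c]` and concave afterwards, `h(0) = 0`,
`h'(0) = 0` (`d ≥ 2`). `G(u) = ∫_0^u (s - h(s)) ds = (c u^2/2 - c u h(u) + d hp (d+1) (c u))/c`, so
for a fixed point `G(x) = (d hp (d+1) (c x) - c x^2/2)/c ≤ 0`, hence `h(s) > s` for some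
`0 < s < x`; by convexity such an `s` exists in the concave region; so the slope of `h` at `x` is less
than one and `h(u) < u` for `u > x`. -/
theorem goodX_slope {d : ℕ} (hd : 2 ≤ d) {c x : ℝ} (hc : 0 < c) (hx : GoodX d c x) :
    c * phi (d - 1) (c * x) < 1 := by
  obtain ⟨hx0, _, hfix, hgood⟩ := hx
  by_contra hcon
  have hcon' : 1 ≤ c * phi (d - 1) (c * x) := not_lt.1 hcon
  -- `h(u) < u` on `(0, x)`
  have hneg : ∀ u, 0 < u → u < x → hp d (c * u) < u := by
    intro u hu0 hux
    by_contra hh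
    have hh' : u ≤ hp d (c * u) := not_lt.1 hh
    obtain ⟨a, ha, ha'⟩ := a1_mvt hd c hu0
    obtain ⟨b, hb, hb'⟩ := a1_mvt hd c hux
    rw [mul_zero, hp_zero d (by omega)] at ha'
    rw [hfix] at hb'
    have h1 : 1 ≤ c * phi (d - 1) (c * a) := by
      by_contra h
      have h' : c * phi (d - 1) (c * a) - 1 < 0 := by linarith [not_le.1 h]
      have := mul_neg_of_neg_of_pos h' (by linarith : 0 < u - 0)
      linarith
    have h2 : c * phi (d - 1) (c * b) ≤ 1 := by
      by_contra h
      have h' : 0 < c * phi (d - 1) (c * b) - 1 := by linarith [not_le.1 h]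
      have := mul_pos h' (by linarith : 0 < x - u)
      linarith
    rcases a1_quasi (d - 1) (by omega) (a := c * a) (b := c * b) (x := c * x)
      (mul_nonneg hc.le ha.1.le) (mul_lt_mul_of_pos_left (by linarith [ha.2, hb.1]) hc)
      (mul_lt_mul_of_pos_left hb.2 hc) with h | h
    · have := mul_lt_mul_of_pos_left h hc
      linarith
    · have := mul_lt_mul_of_pos_left h hc
      linarith
  -- `G` is strictly increasing on `[0, x]`
  have hG : StrictMonoOn (fun u => u ^ 2 / 2 - u * hp d (c * u) + d / c * hp (d + 1) (c * u))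
      (Set.Icc 0 x) := by
    refine strictMonoOn_of_deriv_pos (convex_Icc 0 x)
      (fun u _ => (a1_G_deriv hd hc u).continuousAt.continuousWithinAt) ?_
    intro u hu
    rw [interior_Icc] at hu
    rw [(a1_G_deriv hd hc u).deriv]
    linarith [hneg u hu.1 hu.2]
  have h1 := hG ⟨le_rfl, hx0.le⟩ ⟨hx0.le, le_rfl⟩ hx0
  simp only [mul_zero, hp_zero (d + 1) (by omega), hfix] at h1
  have h2 : (d : ℝ) / c * hp (d + 1) (c * x) ≤ x ^ 2 / 2 := by
    rw [div_mul_eq_mul_div, div_le_iff₀ hc]
    linarith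
  nlinarith

theorem goodX_above {d : ℕ} (hd : 2 ≤ d) {c x : ℝ} (hc : 0 < c) (hx : GoodX d c x) {u : ℝ}
    (hu : x < u) : hp d (c * u) < u := by
  have hslope := goodX_slope hd hc hx
  obtain ⟨hx0, _, hfix, _⟩ := hx
  by_contra hh
  have hh' : u ≤ hp d (c * u) := not_lt.1 hh
  obtain ⟨a, ha, ha'⟩ := a1_mvt hd c hx0
  obtain ⟨b, hb, hb'⟩ := a1_mvt hd c hu
  rw [mul_zero, hp_zero d (by omega), hfix] at ha'
  rw [hfix] at hb'
  have h1 : 1 ≤ c * phi (d - 1) (c * a) := by
    by_contra h
    have h' : c * phi (d - 1) (c * a) - 1 < 0 := by linarith [not_le.1 h]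
    have := mul_neg_of_neg_of_pos h' (by linarith : 0 < x - 0)
    linarith
  have h2 : 1 ≤ c * phi (d - 1) (c * b) := by
    by_contra h
    have h' : c * phi (d - 1) (c * b) - 1 < 0 := by linarith [not_le.1 h]
    have := mul_neg_of_neg_of_pos h' (by linarith : 0 < u - x)
    linarith
  rcases a1_quasi (d - 1) (by omega) (a := c * a) (b := c * x) (x := c * b)
    (mul_nonneg hc.le ha.1.le) (mul_lt_mul_of_pos_left ha.2 hc)
    (mul_lt_mul_of_pos_left hb.1 hc) with h | h
  · have := mul_lt_mul_of_pos_left h hc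
    linarith
  · have := mul_lt_mul_of_pos_left h hc
    linarith

theorem goodX_unique {d : ℕ} (hd : 2 ≤ d) {c x x' : ℝ} (hc : 0 < c) (hx : GoodX d c x)
    (hx' : GoodX d c x') : x = x' := by
  rcases lt_trichotomy x x' with h | h | h
  · have := goodX_above hd hc hx h
    have h2 := hx'.2.2.1
    linarith
  · exact h
  · have := goodX_above hd hc hx' h
    have h2 := hx.2.2.1
    linarith

theorem goodX_iter {d : ℕ} (hd : 2 ≤ d) {c x : ℝ} (hc : 0 < c) (hx : GoodX d c x) :
    Tendsto (fun k => xt d c k) atTop (𝓝 x) := by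
  have hsucc : ∀ k, xt d c (k + 1) = hp d (c * xt d c k) := by
    intro k
    unfold xt
    rw [Function.iterate_succ_apply']
  have hlow : ∀ k, x ≤ xt d c k := by
    intro k
    induction k with
    | zero => exact hx.2.1
    | succ k ih =>
      rw [hsucc]
      calc x = hp d (c * x) := hx.2.2.1.symm
        _ ≤ hp d (c * xt d c k) := hp_mono d (mul_nonneg hc.le hx.1.le)
            (mul_le_mul_of_nonneg_left ih hc.le)
  have hpos : ∀ k, 0 ≤ xt d c k := fun k => hx.1.le.trans (hlow k)
  have hanti : Antitone fun k => xt d c k := by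
    refine antitone_nat_of_succ_le fun k => ?_
    induction k with
    | zero =>
      rw [hsucc]
      exact hp_le_one d (mul_nonneg hc.le (hpos 0))
    | succ k ih =>
      rw [hsucc (k + 1), hsucc k]
      have h1 := mul_le_mul_of_nonneg_left ih hc.le
      rw [hsucc k] at h1
      have h2 : hp d (c * hp d (c * xt d c k)) ≤ hp d (c * xt d c k) := by
        refine hp_mono d ?_ ?_
        · exact mul_nonneg hc.le (hp_nonneg d (mul_nonneg hc.le (hpos k)))
        · exact h1
      exact h2
  have hbdd : BddBelow (Set.range fun k => xt d c k) := ⟨x, by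
    rintro _ ⟨k, rfl⟩
    exact hlow k⟩
  have hlim := tendsto_atTop_ciInf hanti hbdd
  set L := ⨅ k, xt d c k with hL
  have hxL : x ≤ L := le_ciInf hlow
  have hcont : Continuous fun u : ℝ => hp d (c * u) := by
    have : ∀ u, ContinuousAt (fun u : ℝ => hp d (c * u)) u :=
      fun u => (a1_h_deriv hd c u).continuousAt
    exact continuous_iff_continuousAt.2 this
  have h1 : Tendsto (fun k => xt d c (k + 1)) atTop (𝓝 (hp d (c * L))) := by
    simp_rw [hsucc]
    exact (hcont.tendsto L).comp hlim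
  have h2 : Tendsto (fun k => xt d c (k + 1)) atTop (𝓝 L) := hlim.comp (tendsto_add_atTop_nat 1)
  have h3 : hp d (c * L) = L := tendsto_nhds_unique h1 h2
  have h4 : L = x := by
    rcases hxL.lt_or_eq with h | h
    · have := goodX_above hd hc hx h
      linarith
    · exact h.symm
  rw [← h4]
  exact hlim

end Pool.Agent.Helper55.ML
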