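import Pool.Agent.Helper55.ML.Defs

/-!
# Project ML: basic API
-/

set_option autoImplicit false
open Finset Filter Topology

namespace Pool.Agent.Helper55.ML

/-! ## Indicators -/

theorem ind_true {P : Prop} (h : P) : ind P = 1 := by unfold ind; simp [h]
theorem ind_false {P : Prop} (h : ¬ P) : ind P = 0 := by unfold ind; simp [h]
theorem ind_nonneg (P : Prop) : 0 ≤ ind P := by unfold ind; split_ifs <;> norm_num
theorem ind_le_one (P : Prop) : ind P ≤ 1 := by unfold ind; split_ifs <;> norm_num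
theorem ind_mono {P Q : Prop} (h : P → Q) : ind P ≤ ind Q := by
  by_cases hP : P
  · rw [ind_true hP, ind_true (h hP)]
  · rw [ind_false hP]; exact ind_nonneg Q
theorem ind_congr {P Q : Prop} (h : P ↔ Q) : ind P = ind Q := by
  exact le_antisymm (ind_mono h.1) (ind_mono h.2)
theorem ind_not (P : Prop) : ind (¬ P) = 1 - ind P := by
  by_cases hP : P
  · rw [ind_true hP, ind_false (not_not.2 hP)]; ring
  · rw [ind_false hP, ind_true hP]; ring
theorem ind_and (P Q : Prop) : ind (P ∧ Q) = ind P * ind Q := by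
  by_cases hP : P <;> by_cases hQ : Q <;> simp [ind, hP, hQ]
theorem ind_or_le (P Q : Prop) : ind (P ∨ Q) ≤ ind P + ind Q := by
  by_cases hP : P <;> by_cases hQ : Q <;> simp [ind, hP, hQ]
theorem ind_sq (P : Prop) : ind P * ind P = ind P := by
  by_cases hP : P <;> simp [ind, hP]

/-! ## Expectations -/

section BE
variable {α : Type*} [DecidableEq α] {E : Finset α} {p : ℝ} {f g : Finset α → ℝ}

theorem BE_congr (h : ∀ S ⊆ E, f S = g S) : BE E p f = BE E p g := by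
  unfold BE
  exact Finset.sum_congr rfl (fun S hS => by rw [h S (Finset.mem_powerset.1 hS)])

theorem BE_const (a : ℝ) : BE E p (fun _ => a) = a := by
  unfold BE
  rw [← Finset.sum_mul]
  have h := Finset.sum_pow_mul_eq_add_pow p (1 - p) E
  have h2 : ∑ S ∈ E.powerset, p ^ S.card * (1 - p) ^ (E \ S).card = 1 := by
    calc ∑ S ∈ E.powerset, p ^ S.card * (1 - p) ^ (E \ S).card
        = ∑ S ∈ E.powerset, p ^ S.card * (1 - p) ^ (E.card - S.card) := by
          refine Finset.sum_congr rfl (fun S hS => ?_)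
          rw [Finset.card_sdiff_of_subset (Finset.mem_powerset.1 hS)]
      _ = (p + (1 - p)) ^ E.card := h
      _ = 1 := by simp
  rw [h2, one_mul]

theorem BE_add : BE E p (fun S => f S + g S) = BE E p f + BE E p g := by
  unfold BE
  rw [← Finset.sum_add_distrib]
  exact Finset.sum_congr rfl (fun S _ => by ring)

theorem BE_sub : BE E p (fun S => f S - g S) = BE E p f - BE E p g := by
  unfold BE
  rw [← Finset.sum_sub_distrib]
  exact Finset.sum_congr rfl (fun S _ => by ring)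

theorem BE_neg : BE E p (fun S => - f S) = - BE E p f := by
  unfold BE
  rw [← Finset.sum_neg_distrib]
  exact Finset.sum_congr rfl (fun S _ => by ring)

theorem BE_mul_left (a : ℝ) : BE E p (fun S => a * f S) = a * BE E p f := by
  unfold BE
  rw [Finset.mul_sum]
  exact Finset.sum_congr rfl (fun S _ => by ring)

theorem BE_mul_right (a : ℝ) : BE E p (fun S => f S * a) = BE E p f * a := by
  unfold BE
  rw [Finset.sum_mul]
  exact Finset.sum_congr rfl (fun S _ => by ring)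

theorem BE_sum {ι : Type*} (I : Finset ι) (F : ι → Finset α → ℝ) :
    BE E p (fun S => ∑ i ∈ I, F i S) = ∑ i ∈ I, BE E p (F i) := by
  unfold BE
  rw [Finset.sum_comm]
  exact Finset.sum_congr rfl (fun S _ => by rw [Finset.mul_sum])

theorem BE_mono (h0 : 0 ≤ p) (h1 : p ≤ 1) (h : ∀ S ⊆ E, f S ≤ g S) : BE E p f ≤ BE E p g := by
  unfold BE
  refine Finset.sum_le_sum (fun S hS => ?_)
  have : 0 ≤ p ^ S.card * (1 - p) ^ (E \ S).card :=
    mul_nonneg (pow_nonneg h0 _) (pow_nonneg (by linarith) _)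
  exact mul_le_mul_of_nonneg_left (h S (Finset.mem_powerset.1 hS)) this

theorem BE_nonneg (h0 : 0 ≤ p) (h1 : p ≤ 1) (h : ∀ S ⊆ E, 0 ≤ f S) : 0 ≤ BE E p f := by
  have := BE_mono (E := E) (f := fun _ => (0 : ℝ)) (g := f) h0 h1 h
  rwa [BE_const] at this

theorem abs_BE_le (h0 : 0 ≤ p) (h1 : p ≤ 1) : |BE E p f| ≤ BE E p (fun S => |f S|) := by
  rw [abs_le]
  constructor
  · rw [← BE_neg]; exact BE_mono h0 h1 (fun S _ => neg_abs_le (f S))
  · exact BE_mono h0 h1 (fun S _ => le_abs_self (f S))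

end BE

section Ex
variable {n : ℕ} {p : ℝ} {f g : Finset (Sym2 ℕ) → ℝ} {A B : Finset (Sym2 ℕ) → Prop}

theorem Ex_congr (h : ∀ S ⊆ En n, f S = g S) : Ex n p f = Ex n p g := BE_congr h
theorem Ex_const (a : ℝ) : Ex n p (fun _ => a) = a := BE_const a
theorem Ex_add : Ex n p (fun S => f S + g S) = Ex n p f + Ex n p g := BE_add
theorem Ex_sub : Ex n p (fun S => f S - g S) = Ex n p f - Ex n p g := BE_sub
theorem Ex_mul_left (a : ℝ) : Ex n p (fun S => a * f S) = a * Ex n p f := BE_mul_left a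
theorem Ex_mul_right (a : ℝ) : Ex n p (fun S => f S * a) = Ex n p f * a := BE_mul_right a
theorem Ex_sum {ι : Type*} (I : Finset ι) (F : ι → Finset (Sym2 ℕ) → ℝ) :
    Ex n p (fun S => ∑ i ∈ I, F i S) = ∑ i ∈ I, Ex n p (F i) := BE_sum I F
theorem Ex_mono (h0 : 0 ≤ p) (h1 : p ≤ 1) (h : ∀ S ⊆ En n, f S ≤ g S) :
    Ex n p f ≤ Ex n p g := BE_mono h0 h1 h
theorem Ex_nonneg (h0 : 0 ≤ p) (h1 : p ≤ 1) (h : ∀ S ⊆ En n, 0 ≤ f S) : 0 ≤ Ex n p f :=
  BE_nonneg h0 h1 h

theorem Pr_nonneg (h0 : 0 ≤ p) (h1 : p ≤ 1) : 0 ≤ Pr n p B :=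
  Ex_nonneg h0 h1 (fun _ _ => ind_nonneg _)
theorem Pr_le_one (h0 : 0 ≤ p) (h1 : p ≤ 1) : Pr n p B ≤ 1 := by
  have := Ex_mono (n := n) (f := fun G => ind (B G)) (g := fun _ => (1 : ℝ)) h0 h1
    (fun _ _ => ind_le_one _)
  rwa [Ex_const] at this
theorem Pr_mono (h0 : 0 ≤ p) (h1 : p ≤ 1) (h : ∀ G ⊆ En n, A G → B G) :
    Pr n p A ≤ Pr n p B := Ex_mono h0 h1 (fun G hG => ind_mono (h G hG))
theorem Pr_or_le (h0 : 0 ≤ p) (h1 : p ≤ 1) :
    Pr n p (fun G => A G ∨ B G) ≤ Pr n p A + Pr n p B := by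
  unfold Pr
  rw [← Ex_add]
  exact Ex_mono h0 h1 (fun G _ => ind_or_le _ _)
theorem Pr_compl : Pr n p (fun G => ¬ A G) = 1 - Pr n p A := by
  unfold Pr
  rw [show (fun G => ind (¬ A G)) = fun G => (1 : ℝ) - ind (A G) from
    funext (fun G => ind_not (A G))]
  rw [Ex_sub (f := fun _ => (1 : ℝ)) (g := fun G => ind (A G)), Ex_const]

/-- For `n ≥ 2 c` the value `c / n` is a probability at most `1/2` (with `c > 0`). -/
theorem cn_bounds {c : ℝ} (hc : 0 < c) {n : ℕ} (hn : 2 * c ≤ n) :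
    0 < c / n ∧ c / n ≤ 1 / 2 := by
  have hn0 : (0 : ℝ) < n := by linarith
  constructor
  · positivity
  · rw [div_le_iff₀ hn0]; linarith

theorem cn_eventually {c : ℝ} (hc : 0 < c) :
    ∀ᶠ n : ℕ in atTop, 0 < c / (n : ℝ) ∧ c / (n : ℝ) ≤ 1 / 2 := by
  obtain ⟨N, hN⟩ := exists_nat_ge (2 * c)
  filter_upwards [eventually_ge_atTop N] with n hn
  exact cn_bounds hc (le_trans hN (by exact_mod_cast hn))

end Ex

section Neg
variable {c : ℝ} {A B : ℕ → Finset (Sym2 ℕ) → Prop}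

/-- Squeeze for negligible events. -/
theorem Neg_of_le (hc : 0 < c) {a : ℕ → ℝ} (ha : Tendsto a atTop (𝓝 0))
    (h : ∀ᶠ n : ℕ in atTop, Pr n (c / n) (B n) ≤ a n) : Neg c B := by
  unfold Neg
  refine squeeze_zero' ?_ h ha
  filter_upwards [cn_eventually hc] with n hn
  exact Pr_nonneg hn.1.le (by linarith [hn.2])

theorem Neg_mono (hc : 0 < c) (hA : Neg c A)
    (h : ∀ᶠ n : ℕ in atTop, ∀ G ⊆ En n, B n G → A n G) : Neg c B := by
  refine Neg_of_le hc hA ?_
  filter_upwards [h, cn_eventually hc] with n h1 h2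
  exact Pr_mono h2.1.le (by linarith [h2.2]) h1

theorem Neg_or (hc : 0 < c) (hA : Neg c A) (hB : Neg c B) :
    Neg c (fun n G => A n G ∨ B n G) := by
  have h := hA.add hB
  rw [add_zero] at h
  refine Neg_of_le hc h ?_
  filter_upwards [cn_eventually hc] with n h2
  exact Pr_or_le h2.1.le (by linarith [h2.2])

/-- An event contained in two negligible events up to a case split. -/
theorem Neg_or_mono (hc : 0 < c) {C : ℕ → Finset (Sym2 ℕ) → Prop} (hA : Neg c A) (hB : Neg c B)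
    (h : ∀ᶠ n : ℕ in atTop, ∀ G ⊆ En n, C n G → A n G ∨ B n G) : Neg c C :=
  Neg_mono hc (Neg_or hc hA hB) h

/-- Epsilon characterisation of negligibility: it is enough to be eventually at most any `ε`. -/
theorem Neg_iff (hc : 0 < c) :
    Neg c B ↔ ∀ ε : ℝ, 0 < ε → ∀ᶠ n : ℕ in atTop, Pr n (c / n) (B n) ≤ ε := by
  constructor
  · intro h ε hε
    exact (h.eventually (gt_mem_nhds hε)).mono (fun n hn => hn.le)
  · intro h
    unfold Neg
    rw [Metric.tendsto_nhds]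
    intro ε hε
    filter_upwards [h (ε / 2) (by linarith), cn_eventually hc] with n h1 h2
    rw [Real.dist_eq, sub_zero, abs_of_nonneg (Pr_nonneg h2.1.le (by linarith [h2.2]))]
    linarith

end Neg

/-! ## Graph operations -/

theorem mem_En {n : ℕ} {e : Sym2 ℕ} : e ∈ En n ↔ (∀ x ∈ e, x < n) ∧ ¬ e.IsDiag := by
  unfold En
  rw [Finset.mem_filter, Finset.mem_sym2_iff]
  simp

theorem mk_mem_En {n a b : ℕ} : s(a, b) ∈ En n ↔ a < n ∧ b < n ∧ a ≠ b := by
  rw [mem_En]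
  simp [Sym2.mem_iff]
  tauto

theorem mem_del {A : Finset ℕ} {G : Finset (Sym2 ℕ)} {e : Sym2 ℕ} :
    e ∈ del A G ↔ e ∈ G ∧ ∀ x ∈ e, x ∉ A := by
  unfold del
  rw [Finset.mem_filter, Finset.disjoint_left]
  simp only [Sym2.mem_toFinset]

theorem mem_ins {A : Finset ℕ} {G : Finset (Sym2 ℕ)} {e : Sym2 ℕ} :
    e ∈ ins A G ↔ e ∈ G ∧ ∀ x ∈ e, x ∈ A := by
  unfold ins
  rw [Finset.mem_filter, Finset.subset_iff]
  simp only [Sym2.mem_toFinset]

theorem mem_nb {n : ℕ} {G : Finset (Sym2 ℕ)} {v u : ℕ} :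
    u ∈ nb n G v ↔ u < n ∧ s(v, u) ∈ G := by
  unfold nb
  rw [Finset.mem_filter, Finset.mem_range]

theorem mem_star {v : ℕ} {N : Finset ℕ} {e : Sym2 ℕ} :
    e ∈ star v N ↔ ∃ u ∈ N, s(v, u) = e := by
  unfold star
  rw [Finset.mem_image]

theorem mem_Kb {A B : Finset ℕ} {e : Sym2 ℕ} :
    e ∈ Kb A B ↔ ∃ a ∈ A, ∃ b ∈ B, s(a, b) = e := by
  unfold Kb
  simp only [Finset.mem_image, Finset.mem_product, Prod.exists]
  constructor
  · rintro ⟨a, b, ⟨ha, hb⟩, he⟩; exact ⟨a, ha, b, hb, he⟩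
  · rintro ⟨a, ha, b, hb, he⟩; exact ⟨a, b, ⟨ha, hb⟩, he⟩

theorem mem_Kp {A : Finset ℕ} {e : Sym2 ℕ} : e ∈ Kp A ↔ (∀ x ∈ e, x ∈ A) ∧ ¬ e.IsDiag := by
  unfold Kp
  rw [Finset.mem_filter, Finset.mem_sym2_iff]

theorem mk_mem_Kp {A : Finset ℕ} {a b : ℕ} : s(a, b) ∈ Kp A ↔ a ∈ A ∧ b ∈ A ∧ a ≠ b := by
  rw [mem_Kp]
  simp [Sym2.mem_iff]
  tauto

theorem mem_outE {A Y : Finset ℕ} {G : Finset (Sym2 ℕ)} {e : Sym2 ℕ} :
    e ∈ outE A Y G ↔ e ∈ G ∧ (∃ a ∈ A, a ∈ e) ∧ ∃ x ∈ e, x ∉ A ∧ x ∉ Y := by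
  unfold outE
  rw [Finset.mem_filter, Finset.subset_iff]
  simp only [Sym2.mem_toFinset, Finset.mem_union, not_forall, not_or, exists_prop]

theorem del_subset (A : Finset ℕ) (G : Finset (Sym2 ℕ)) : del A G ⊆ G := Finset.filter_subset _ _
theorem ins_subset (A : Finset ℕ) (G : Finset (Sym2 ℕ)) : ins A G ⊆ G := Finset.filter_subset _ _
theorem del_mono {A : Finset ℕ} {G H : Finset (Sym2 ℕ)} (h : G ⊆ H) : del A G ⊆ del A H :=
  Finset.filter_subset_filter _ h
theorem ins_mono {A : Finset ℕ} {G H : Finset (Sym2 ℕ)} (h : G ⊆ H) : ins A G ⊆ ins A H :=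
  Finset.filter_subset_filter _ h
theorem del_anti {A B : Finset ℕ} (h : A ⊆ B) (G : Finset (Sym2 ℕ)) : del B G ⊆ del A G := by
  intro e he
  rw [mem_del] at he ⊢
  exact ⟨he.1, fun x hx hA => he.2 x hx (h hA)⟩
theorem ins_mono_left {A B : Finset ℕ} (h : A ⊆ B) (G : Finset (Sym2 ℕ)) : ins A G ⊆ ins B G := by
  intro e he
  rw [mem_ins] at he ⊢
  exact ⟨he.1, fun x hx => h (he.2 x hx)⟩
theorem nb_mono {n : ℕ} {G H : Finset (Sym2 ℕ)} (h : G ⊆ H) (v : ℕ) : nb n G v ⊆ nb n H v := by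
  intro u hu
  rw [mem_nb] at hu ⊢
  exact ⟨hu.1, h hu.2⟩
theorem nb_subset (n : ℕ) (G : Finset (Sym2 ℕ)) (v : ℕ) : nb n G v ⊆ range n :=
  Finset.filter_subset _ _
theorem del_del (A B : Finset ℕ) (G : Finset (Sym2 ℕ)) : del A (del B G) = del (A ∪ B) G := by
  ext e
  rw [mem_del, mem_del, mem_del]
  constructor
  · rintro ⟨⟨h1, h2⟩, h3⟩
    refine ⟨h1, fun x hx h => ?_⟩
    rcases Finset.mem_union.1 h with h | h
    · exact h3 x hx h
    · exact h2 x hx h
  · rintro ⟨h1, h2⟩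
    exact ⟨⟨h1, fun x hx h => h2 x hx (Finset.mem_union_right _ h)⟩,
      fun x hx h => h2 x hx (Finset.mem_union_left _ h)⟩

theorem mem_core {d n v : ℕ} {G : Finset (Sym2 ℕ)} :
    v ∈ core d n G ↔ v < n ∧ ∃ A : Finset ℕ, A ⊆ range n ∧ v ∈ A ∧
      ∀ u ∈ A, d + 1 ≤ (nb n G u ∩ A).card := by
  unfold core
  rw [Finset.mem_filter, Finset.mem_range]

theorem core_subset (d n : ℕ) (G : Finset (Sym2 ℕ)) : core d n G ⊆ range n := by
  unfold core
  exact Finset.filter_subset _ _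

/-- Any set with internal degrees at least `d+1` lies in the core. -/
theorem subset_core {d n : ℕ} {G : Finset (Sym2 ℕ)} {A : Finset ℕ} (hA : A ⊆ range n)
    (h : ∀ u ∈ A, d + 1 ≤ (nb n G u ∩ A).card) : A ⊆ core d n G := by
  intro v hv
  rw [mem_core]
  exact ⟨Finset.mem_range.1 (hA hv), A, hA, hv, h⟩

/-- The core itself has internal degrees at least `d+1`. -/
theorem core_deg {d n v : ℕ} {G : Finset (Sym2 ℕ)} (hv : v ∈ core d n G) :
    d + 1 ≤ (nb n G v ∩ core d n G).card := by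
  obtain ⟨_, A, hA, hvA, h⟩ := mem_core.1 hv
  refine le_trans (h v hvA) (Finset.card_le_card ?_)
  exact Finset.inter_subset_inter_left (subset_core hA h)

theorem core_mono {d n : ℕ} {G H : Finset (Sym2 ℕ)} (h : G ⊆ H) : core d n G ⊆ core d n H := by
  refine subset_core (core_subset d n G) (fun u hu => ?_)
  exact le_trans (core_deg hu) (Finset.card_le_card
    (Finset.inter_subset_inter_right (nb_mono h u)))

theorem Pt_subset (d n t : ℕ) (G : Finset (Sym2 ℕ)) : Pt d n t G ⊆ range n := by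
  cases t with
  | zero => exact subset_rfl
  | succ t => exact Finset.filter_subset _ _

theorem mem_Pt_succ {d n t v : ℕ} {G : Finset (Sym2 ℕ)} :
    v ∈ Pt d n (t + 1) G ↔ v < n ∧ d ≤ (nb n G v ∩ Pt d n t (del {v} G)).card := by
  rw [Pt, Finset.mem_filter, Finset.mem_range]

theorem Pt_mono {d n : ℕ} (t : ℕ) : ∀ {G H : Finset (Sym2 ℕ)}, G ⊆ H →
    Pt d n t G ⊆ Pt d n t H := by
  induction t with
  | zero => intro G H _; exact subset_rfl
  | succ t ih =>
    intro G H h v hv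
    rw [mem_Pt_succ] at hv ⊢
    refine ⟨hv.1, le_trans hv.2 (Finset.card_le_card ?_)⟩
    exact Finset.inter_subset_inter (nb_mono h v) (ih (del_mono h))

/-! ## Closure -/

namespace Rig
variable {d t : ℕ} (R : Rig d t)

theorem Cl_def {S : Finset (Sym2 ℕ)} {e : Sym2 ℕ} : R.Cl S e ↔ R.r (insert e S) = R.r S := Iff.rfl

theorem Cl_of_mem {S : Finset (Sym2 ℕ)} {e : Sym2 ℕ} (h : e ∈ S) : R.Cl S e := by
  rw [Cl_def, Finset.insert_eq_of_mem h]

theorem not_Cl_iff {S : Finset (Sym2 ℕ)} {e : Sym2 ℕ} :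
    ¬ R.Cl S e ↔ R.r (insert e S) = R.r S + 1 := by
  have h1 := R.r_insert e S
  have h2 := R.r_mono (Finset.subset_insert e S)
  rw [Cl_def]
  omega

/-- `T` adds less to a bigger set. -/
theorem rel_mono {S S' : Finset (Sym2 ℕ)} (h : S ⊆ S') (T : Finset (Sym2 ℕ)) :
    R.r (S' ∪ T) + R.r S ≤ R.r (S ∪ T) + R.r S' := by
  have h1 := R.r_submod (S ∪ T) S'
  have h2 : S ∪ T ∪ S' = S' ∪ T := by
    ext x; simp only [Finset.mem_union]; constructor
    · rintro ((hx | hx) | hx)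
      · exact Or.inl (h hx)
      · exact Or.inr hx
      · exact Or.inl hx
    · rintro (hx | hx)
      · exact Or.inr hx
      · exact Or.inl (Or.inr hx)
  have h3 : R.r S ≤ R.r ((S ∪ T) ∩ S') :=
    R.r_mono (Finset.subset_inter Finset.subset_union_left h)
  rw [h2] at h1
  omega

theorem Cl_mono {S S' : Finset (Sym2 ℕ)} {e : Sym2 ℕ} (h : S ⊆ S') (he : R.Cl S e) :
    R.Cl S' e := by
  have h1 := R.rel_mono h {e}
  rw [Finset.union_comm S', Finset.union_comm S, ← Finset.insert_eq, ← Finset.insert_eq] at h1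
  have h2 := R.r_mono (Finset.subset_insert e S')
  rw [Cl_def] at he ⊢
  omega

/-- Adding a set of elements of the closure does not change the rank. -/
theorem r_union_of_Cl {S T : Finset (Sym2 ℕ)} (h : ∀ f ∈ T, R.Cl S f) : R.r (S ∪ T) = R.r S := by
  classical
  induction T using Finset.induction_on with
  | empty => rw [Finset.union_empty]
  | insert f T _ ih =>
    have ih' := ih (fun g hg => h g (Finset.mem_insert_of_mem hg))
    have hf := R.Cl_mono (Finset.subset_union_left (s₂ := T)) (h f (Finset.mem_insert_self f T))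
    rw [Cl_def] at hf
    rw [Finset.union_insert, hf, ih']

theorem Cl_trans {S T : Finset (Sym2 ℕ)} {e : Sym2 ℕ} (h : ∀ f ∈ T, R.Cl S f)
    (he : R.Cl (S ∪ T) e) : R.Cl S e := by
  have h1 := R.r_union_of_Cl h
  have h2 := R.r_mono (show insert e S ⊆ insert e (S ∪ T) from
    Finset.insert_subset_insert e Finset.subset_union_left)
  have h3 := R.r_mono (Finset.subset_insert e S)
  rw [Cl_def] at he ⊢
  omega

/-- Closure of `T` lies in the closure of `S` if `T` does. -/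
theorem Cl_trans' {S T : Finset (Sym2 ℕ)} {e : Sym2 ℕ} (h : ∀ f ∈ T, R.Cl S f)
    (he : R.Cl T e) : R.Cl S e :=
  R.Cl_trans h (R.Cl_mono Finset.subset_union_right he)

/-- Two sets spanning each other have the same rank. -/
theorem r_eq_of_Cl {S T : Finset (Sym2 ℕ)} (h : ∀ f ∈ T, R.Cl S f) (h' : ∀ f ∈ S, R.Cl T f) :
    R.r S = R.r T := by
  rw [← R.r_union_of_Cl h, Finset.union_comm, R.r_union_of_Cl h']

theorem exchange {S : Finset (Sym2 ℕ)} {e f : Sym2 ℕ} (h1 : R.Cl (insert f S) e)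
    (h2 : ¬ R.Cl S e) : R.Cl (insert e S) f := by
  rw [not_Cl_iff] at h2
  rw [Cl_def] at h1 ⊢
  have h3 : insert f (insert e S) = insert e (insert f S) := Finset.insert_comm f e S
  have h4 := R.r_insert f S
  have h5 := R.r_mono (Finset.subset_insert f (insert e S))
  rw [h3] at h5 ⊢
  omega

theorem r_le_card (S : Finset (Sym2 ℕ)) : R.r S ≤ S.card := by
  classical
  induction S using Finset.induction_on with
  | empty => rw [R.r_empty]; exact Nat.zero_le _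
  | insert e S he ih =>
    rw [Finset.card_insert_of_notMem he]
    have := R.r_insert e S
    omega

theorem r_union_le (S T : Finset (Sym2 ℕ)) : R.r (S ∪ T) ≤ R.r S + T.card := by
  have h1 := R.r_submod S T
  have h2 := R.r_le_card T
  omega

theorem Dep_mono {S T : Finset (Sym2 ℕ)} (h : S ⊆ T) (hS : R.Dep S) : R.Dep T := by
  unfold Dep at *
  have h1 := R.r_union_le S (T \ S)
  rw [Finset.union_sdiff_of_subset h, Finset.card_sdiff_of_subset h] at h1
  have h2 := Finset.card_le_card h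
  omega

theorem mem_cl {n : ℕ} {S : Finset (Sym2 ℕ)} {e : Sym2 ℕ} :
    e ∈ R.cl n S ↔ e ∈ En n ∧ R.Cl S e := by
  classical
  unfold cl
  rw [Finset.mem_filter]

theorem cl_mono {n : ℕ} {S T : Finset (Sym2 ℕ)} (h : S ⊆ T) : R.cl n S ⊆ R.cl n T := by
  intro e he
  rw [mem_cl] at he ⊢
  exact ⟨he.1, R.Cl_mono h he.2⟩

theorem Clq_mono {S T : Finset (Sym2 ℕ)} {C : Finset ℕ} (h : S ⊆ T) (hC : R.Clq S C) :
    R.Clq T C := fun a ha b hb hab => R.Cl_mono h (hC a ha b hb hab)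

theorem Clq_subset {S : Finset (Sym2 ℕ)} {C C' : Finset ℕ} (h : C' ⊆ C) (hC : R.Clq S C) :
    R.Clq S C' := fun a ha b hb hab => hC a (h ha) b (h hb) hab

theorem mem_Y {δ : ℝ} {n v : ℕ} {S : Finset (Sym2 ℕ)} :
    v ∈ R.Y δ n S ↔ v < n ∧ ∃ C : Finset ℕ, C ⊆ range n ∧ v ∈ C ∧ R.Clq S C ∧
      δ * n ≤ (C.card : ℝ) := by
  classical
  unfold Y
  rw [Finset.mem_filter, Finset.mem_range]

theorem Y_subset {δ : ℝ} {n : ℕ} {S : Finset (Sym2 ℕ)} : R.Y δ n S ⊆ range n := by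
  classical
  unfold Y
  exact Finset.filter_subset _ _

theorem Y_mono {δ : ℝ} {n : ℕ} {S T : Finset (Sym2 ℕ)} (h : S ⊆ T) :
    R.Y δ n S ⊆ R.Y δ n T := by
  intro v hv
  rw [mem_Y] at hv ⊢
  obtain ⟨h1, C, h2, h3, h4, h5⟩ := hv
  exact ⟨h1, C, h2, h3, R.Clq_mono h h4, h5⟩

/-- A nonempty `Y` has at least `δ n` elements. -/
theorem Y_card {δ : ℝ} {n : ℕ} {S : Finset (Sym2 ℕ)} (h : (R.Y δ n S).Nonempty) :
    δ * n ≤ ((R.Y δ n S).card : ℝ) := by
  obtain ⟨v, hv⟩ := h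
  obtain ⟨_, C, h2, _, h4, h5⟩ := R.mem_Y.1 hv
  refine le_trans h5 ?_
  have : C ⊆ R.Y δ n S := fun _ hu => R.mem_Y.2 ⟨Finset.mem_range.1 (h2 hu), C, h2, hu, h4, h5⟩
  exact_mod_cast Finset.card_le_card this

/-- Any clique of size at least `δ n` lies in `Y`. -/
theorem subset_Y {δ : ℝ} {n : ℕ} {S : Finset (Sym2 ℕ)} {C : Finset ℕ} (h2 : C ⊆ range n)
    (h4 : R.Clq S C) (h5 : δ * n ≤ (C.card : ℝ)) : C ⊆ R.Y δ n S :=
  fun _ hu => R.mem_Y.2 ⟨Finset.mem_range.1 (h2 hu), C, h2, hu, h4, h5⟩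

theorem y_nonneg {δ : ℝ} {n : ℕ} {S : Finset (Sym2 ℕ)} : 0 ≤ R.y δ n S := by
  unfold y; positivity

theorem y_le_one {δ : ℝ} {n : ℕ} {S : Finset (Sym2 ℕ)} : R.y δ n S ≤ 1 := by
  unfold y
  rcases Nat.eq_zero_or_pos n with h | h
  · subst h; simp
  · rw [div_le_one (by exact_mod_cast h)]
    have := Finset.card_le_card (R.Y_subset (δ := δ) (n := n) (S := S))
    rw [Finset.card_range] at this
    exact_mod_cast this

theorem y_mono {δ : ℝ} {n : ℕ} {S T : Finset (Sym2 ℕ)} (h : S ⊆ T) : R.y δ n S ≤ R.y δ n T := by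
  unfold y
  have := Finset.card_le_card (R.Y_mono (δ := δ) (n := n) h)
  gcongr

end Rig

end Pool.Agent.Helper55.ML
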