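import Pool.Agent.Helper55.ML.P4

set_option autoImplicit false
open Finset Filter Topology

namespace Pool.Agent.Helper55.ML

private theorem q10_phi_nonneg (k : ℕ) {μ : ℝ} (h : 0 ≤ μ) : 0 ≤ phi k μ := by
  unfold phi
  positivity

private theorem q10_phi_le_one (k : ℕ) {μ : ℝ} (h : 0 ≤ μ) : phi k μ ≤ 1 := by
  unfold phi
  have h1 := Real.pow_div_factorial_le_exp μ h k
  rw [mul_div_assoc]
  calc Real.exp (-μ) * (μ ^ k / k.factorial) ≤ Real.exp (-μ) * Real.exp μ :=
        mul_le_mul_of_nonneg_left h1 (Real.exp_pos _).le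
    _ = 1 := by rw [← Real.exp_add]; simp

/-- derivative of `phi` -/
private noncomputable def q10_d (k : ℕ) (μ : ℝ) : ℝ :=
  match k with
  | 0 => - phi 0 μ
  | k + 1 => phi k μ - phi (k + 1) μ

private theorem q10_hasDeriv (k : ℕ) (μ : ℝ) : HasDerivAt (phi k) (q10_d k μ) μ := by
  have he : HasDerivAt (fun x : ℝ => Real.exp (-x)) (-Real.exp (-μ)) μ := by
    have := (hasDerivAt_id μ).neg.exp
    simpa using this
  cases k with
  | zero =>
    have h1 : phi 0 = fun x : ℝ => Real.exp (-x) := by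
      funext x; simp [phi]
    have h2 : q10_d 0 μ = -Real.exp (-μ) := by simp [q10_d, phi]
    rw [h1, h2]; exact he
  | succ k =>
    have hf : ((k + 1).factorial : ℝ) = (k + 1) * k.factorial := by
      rw [Nat.factorial_succ]; push_cast; ring
    have hk : (k.factorial : ℝ) ≠ 0 := by positivity
    have hk1 : ((k : ℝ) + 1) ≠ 0 := by positivity
    have h1 := (he.mul (hasDerivAt_pow (k + 1) μ)).div_const ((k + 1).factorial : ℝ)
    refine (h1.congr_deriv ?_)
    simp only [q10_d, phi, hf, Nat.add_sub_cancel]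
    push_cast
    field_simp
    ring

private theorem q10_d_abs (k : ℕ) {μ : ℝ} (h : 0 ≤ μ) : |q10_d k μ| ≤ 1 := by
  cases k with
  | zero =>
    simp only [q10_d, abs_neg]
    rw [abs_of_nonneg (q10_phi_nonneg 0 h)]
    exact q10_phi_le_one 0 h
  | succ k =>
    simp only [q10_d]
    have h1 := q10_phi_nonneg k h
    have h2 := q10_phi_nonneg (k + 1) h
    have h3 := q10_phi_le_one k h
    have h4 := q10_phi_le_one (k + 1) h
    rw [abs_le]
    constructor <;> linarith

private noncomputable def q10_dd (k : ℕ) (μ : ℝ) : ℝ :=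
  match k with
  | 0 => - q10_d 0 μ
  | k + 1 => q10_d k μ - q10_d (k + 1) μ

private theorem q10_hasDeriv' (k : ℕ) (μ : ℝ) : HasDerivAt (q10_d k) (q10_dd k μ) μ := by
  cases k with
  | zero => exact (q10_hasDeriv 0 μ).neg
  | succ k => exact (q10_hasDeriv k μ).sub (q10_hasDeriv (k + 1) μ)

private theorem q10_dd_abs (k : ℕ) {μ : ℝ} (h : 0 ≤ μ) : |q10_dd k μ| ≤ 2 := by
  cases k with
  | zero =>
    simp only [q10_dd, abs_neg]
    have := q10_d_abs 0 h
    linarith
  | succ k =>
    simp only [q10_dd]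
    have h1 := q10_d_abs k h
    have h2 := q10_d_abs (k + 1) h
    calc |q10_d k μ - q10_d (k + 1) μ| ≤ |q10_d k μ| + |q10_d (k + 1) μ| := abs_sub _ _
      _ ≤ 2 := by linarith

private theorem q10_d_lip (k : ℕ) {x y : ℝ} (hx : 0 ≤ x) (hy : 0 ≤ y) :
    |q10_d k y - q10_d k x| ≤ 2 * |y - x| := by
  have := (convex_Ici (0 : ℝ)).norm_image_sub_le_of_norm_hasDerivWithin_le
    (f := q10_d k) (f' := q10_dd k) (C := 2) (x := x) (y := y)
    (fun z _ => (q10_hasDeriv' k z).hasDerivWithinAt)
    (fun z hz => by rw [Real.norm_eq_abs]; exact q10_dd_abs k hz) hx hy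
  simpa [Real.norm_eq_abs] using this

private theorem q10_taylor (k : ℕ) {μ p : ℝ} (hμ : 0 ≤ μ) (hp : 0 ≤ p) :
    |phi k (μ + p) - (phi k μ + p * q10_d k μ)| ≤ 2 * p ^ 2 := by
  have := (convex_Icc μ (μ + p)).norm_image_sub_le_of_norm_hasDerivWithin_le
    (f := fun x => phi k x - x * q10_d k μ) (f' := fun x => q10_d k x - q10_d k μ) (C := 2 * p)
    (x := μ) (y := μ + p)
    (fun z _ => by
      have h1 := (q10_hasDeriv k z).sub ((hasDerivAt_id z).mul_const (q10_d k μ))
      have h2 : q10_d k z - 1 * q10_d k μ = q10_d k z - q10_d k μ := by ring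
      rw [h2] at h1
      exact h1.hasDerivWithinAt)
    (fun z hz => by
      rw [Real.norm_eq_abs]
      refine (q10_d_lip k hμ (hμ.trans hz.1)).trans ?_
      rw [abs_of_nonneg (by linarith [hz.1])]
      linarith [hz.2])
    ⟨le_rfl, by linarith⟩ ⟨by linarith, le_rfl⟩
  rw [Real.norm_eq_abs, Real.norm_eq_abs] at this
  have h3 : μ + p - μ = p := by ring
  rw [h3, abs_of_nonneg hp] at this
  calc |phi k (μ + p) - (phi k μ + p * q10_d k μ)|
      = |phi k (μ + p) - (μ + p) * q10_d k μ - (phi k μ - μ * q10_d k μ)| := by congr 1; ring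
    _ ≤ 2 * p * p := this
    _ = 2 * p ^ 2 := by ring

private theorem q10_main {p : ℝ} (h0 : 0 ≤ p) (h1 : p ≤ 1) (M : Finset ℕ) :
    ∀ k : ℕ, |BE M p (fun N => ind (N.card = k)) - phi k (p * M.card)| ≤ 2 * p ^ 2 * M.card := by
  induction M using Finset.induction_on with
  | empty =>
    intro k
    have h2 : BE (∅ : Finset ℕ) p (fun N => ind (N.card = k)) = ind (0 = k) := by
      unfold BE; simp
    rw [h2]
    simp only [card_empty, Nat.cast_zero, mul_zero]
    cases k with
    | zero => simp [phi, ind_true]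
    | succ k => rw [ind_false (by omega)]; simp [phi]
  | insert e M he ih =>
    intro k
    rw [BE_insert he, card_insert_of_notMem he]
    have hcard : ∀ S ⊆ M, ∀ j : ℕ, ((insert e S).card = j + 1 ↔ S.card = j) := by
      intro S hS j
      rw [card_insert_of_notMem fun h => he (hS h)]
      omega
    have hμ : 0 ≤ p * (M.card : ℝ) := by positivity
    have hT := q10_taylor k hμ h0
    have hm : p * ((M.card + 1 : ℕ) : ℝ) = p * M.card + p := by push_cast; ring
    rw [hm]
    cases k with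
    | zero =>
      have h3 : BE M p (fun S => ind ((insert e S).card = 0)) = 0 := by
        rw [BE_congr (g := fun _ => 0) fun S hS => ind_false (by
          rw [card_insert_of_notMem fun h => he (hS h)]; omega)]
        exact BE_const 0
      rw [h3]
      have h4 := ih 0
      simp only [q10_d] at hT
      push_cast
      rw [abs_le] at hT h4 ⊢
      have h5 : 0 ≤ 1 - p := by linarith
      have h6 := mul_le_mul_of_nonneg_left h4.1 h5
      have h7 := mul_le_mul_of_nonneg_left h4.2 h5
      have h8 : 0 ≤ p * (2 * p ^ 2 * M.card) := by positivity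
      constructor
      · nlinarith
      · nlinarith
    | succ k =>
      have h3 : BE M p (fun S => ind ((insert e S).card = k + 1)) =
          BE M p (fun S => ind (S.card = k)) :=
        BE_congr fun S hS => ind_congr (hcard S hS k)
      rw [h3]
      have h4 := ih k
      have h4' := ih (k + 1)
      simp only [q10_d] at hT
      push_cast
      rw [abs_le] at hT h4 h4' ⊢
      have h5 : 0 ≤ 1 - p := by linarith
      have h6 := mul_le_mul_of_nonneg_left h4'.1 h5
      have h7 := mul_le_mul_of_nonneg_left h4'.2 h5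
      have h8 := mul_le_mul_of_nonneg_left h4.1 h0
      have h9 := mul_le_mul_of_nonneg_left h4.2 h0
      constructor
      · nlinarith
      · nlinarith

private theorem q10_small {c : ℝ} (hc : 0 < c) (K : ℝ) (hK : 0 ≤ K) (ε : ℝ) (hε : 0 < ε) :
    ∀ᶠ n : ℕ in atTop, 0 < (n : ℝ) ∧ c / n ≤ 1 ∧
      ∀ M : Finset ℕ, M.card ≤ n → K * (2 * (c / n) ^ 2 * M.card) ≤ ε := by
  have h1 : ∀ᶠ n : ℕ in atTop, (max c (K * (2 * c ^ 2) / ε) + 1 : ℝ) ≤ n :=
    (tendsto_natCast_atTop_atTop (R := ℝ)).eventually_ge_atTop _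
  filter_upwards [h1] with n hn
  have h2 : c ≤ n := by linarith [le_max_left c (K * (2 * c ^ 2) / ε)]
  have h3 : K * (2 * c ^ 2) / ε ≤ n := by linarith [le_max_right c (K * (2 * c ^ 2) / ε)]
  have hn0 : 0 < (n : ℝ) := hc.trans_le h2
  refine ⟨hn0, by rw [div_le_one hn0]; exact h2, fun M hM => ?_⟩
  have hM' : (M.card : ℝ) ≤ n := by exact_mod_cast hM
  calc K * (2 * (c / n) ^ 2 * M.card) ≤ K * (2 * (c / n) ^ 2 * n) := by gcongr
    _ = K * (2 * c ^ 2) / n := by field_simp
    _ ≤ ε := by
      rw [div_le_iff₀ hn0]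
      rw [div_le_iff₀ hε] at h3
      linarith

/-- Q10 (hint): uniform Poisson approximation of the binomial distribution `Bin(m, c/n)`,
`m ≤ n`: `P(Bin = k) = C(m,k) (c/n)^k (1-c/n)^{m-k}`. -/
theorem poisson_eq {c : ℝ} (hc : 0 < c) (k : ℕ) : ∀ ε : ℝ, 0 < ε → ∀ᶠ n : ℕ in atTop,
    ∀ M : Finset ℕ, M.card ≤ n →
      |BE M (c / n) (fun N => ind (N.card = k)) - phi k (c * M.card / n)| ≤ ε := by
  intro ε hε
  filter_upwards [q10_small hc 1 zero_le_one ε hε] with n hn M hM
  have h1 := q10_main (p := c / n) (div_nonneg hc.le hn.1.le) hn.2.1 M k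
  have h2 : c * (M.card : ℝ) / n = c / n * M.card := by ring
  rw [h2]
  have h3 := hn.2.2 M hM
  linarith

theorem poisson_ge {c : ℝ} (hc : 0 < c) (k : ℕ) : ∀ ε : ℝ, 0 < ε → ∀ᶠ n : ℕ in atTop,
    ∀ M : Finset ℕ, M.card ≤ n →
      |BE M (c / n) (fun N => ind (k ≤ N.card)) - hp k (c * M.card / n)| ≤ ε := by
  intro ε hε
  filter_upwards [q10_small hc k (Nat.cast_nonneg k) ε hε] with n hn M hM
  have h2 : c * (M.card : ℝ) / n = c / n * M.card := by ring
  rw [h2]
  have h3 : BE M (c / n) (fun N => ind (k ≤ N.card)) =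
      1 - ∑ i ∈ range k, BE M (c / n) (fun N => ind (N.card = i)) := by
    have h4 : ∀ S ⊆ M, ind (k ≤ S.card) = 1 - ∑ i ∈ range k, ind (S.card = i) := by
      intro S _
      by_cases h : k ≤ S.card
      · rw [ind_true h, sum_eq_zero, sub_zero]
        intro i hi
        rw [mem_range] at hi
        exact ind_false (by omega)
      · rw [ind_false h, sum_eq_single S.card, ind_true rfl, sub_self]
        · intro i _ hi
          exact ind_false fun h' => hi h'.symm
        · intro h'
          rw [mem_range] at h'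
          omega
    rw [BE_congr h4, BE_sub (f := fun _ => (1 : ℝ))
      (g := fun S => ∑ i ∈ range k, ind (S.card = i)), BE_const]
    congr 1
    unfold BE
    rw [sum_comm]
    refine sum_congr rfl fun S _ => ?_
    rw [mul_sum]
  rw [h3, hp]
  have h5 : ∀ i ∈ range k, |phi i (c / n * M.card) - BE M (c / n) (fun N => ind (N.card = i))| ≤
      2 * (c / n) ^ 2 * M.card := fun i _ => by
    rw [abs_sub_comm]
    exact q10_main (p := c / n) (div_nonneg hc.le hn.1.le) hn.2.1 M i
  have h6 : 1 - ∑ i ∈ range k, BE M (c / n) (fun N => ind (N.card = i)) -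
      (1 - ∑ i ∈ range k, phi i (c / n * M.card)) =
      ∑ i ∈ range k, (phi i (c / n * M.card) - BE M (c / n) (fun N => ind (N.card = i))) := by
    rw [sum_sub_distrib]; ring
  rw [h6]
  calc |∑ i ∈ range k, (phi i (c / n * M.card) - BE M (c / n) (fun N => ind (N.card = i)))|
      ≤ ∑ i ∈ range k, |phi i (c / n * M.card) - BE M (c / n) (fun N => ind (N.card = i))| :=
        abs_sum_le_sum_abs _ _
    _ ≤ ∑ _i ∈ range k, 2 * (c / n) ^ 2 * M.card := sum_le_sum h5
    _ = k * (2 * (c / n) ^ 2 * M.card) := by rw [sum_const, card_range, nsmul_eq_mul]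
    _ ≤ ε := hn.2.2 M hM

end Pool.Agent.Helper55.ML
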