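import Pool.Agent.Helper55.ML.Basic

set_option autoImplicit false
open Finset Filter Topology

namespace Pool.Agent.Helper55.ML

private theorem q3_inj (σ : Equiv.Perm ℕ) : Function.Injective (Sym2.map σ) :=
  Sym2.map.injective σ.injective

private theorem q3_mem_image (σ : Equiv.Perm ℕ) (A : Finset ℕ) (x : ℕ) :
    σ x ∈ A.image σ ↔ x ∈ A := by
  rw [Finset.mem_image]
  constructor
  · rintro ⟨y, hy, h⟩
    rwa [← σ.injective h]
  · exact fun h => ⟨x, h, rfl⟩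

private theorem q3_mem_imageE (σ : Equiv.Perm ℕ) (G : Finset (Sym2 ℕ)) (e : Sym2 ℕ) :
    Sym2.map σ e ∈ G.image (Sym2.map σ) ↔ e ∈ G := by
  rw [Finset.mem_image]
  constructor
  · rintro ⟨y, hy, h⟩
    rwa [← q3_inj σ h]
  · exact fun h => ⟨e, h, rfl⟩

private theorem q3_map_inv (σ : Equiv.Perm ℕ) (e : Sym2 ℕ) :
    Sym2.map σ (Sym2.map (σ⁻¹ : Equiv.Perm ℕ) e) = e := by
  rw [Sym2.map_map]
  have h : (σ ∘ (σ⁻¹ : Equiv.Perm ℕ) : ℕ → ℕ) = id := by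
    funext x; simp
  rw [h, Sym2.map_id]; rfl

private theorem q3_inv_map (σ : Equiv.Perm ℕ) (e : Sym2 ℕ) :
    Sym2.map (σ⁻¹ : Equiv.Perm ℕ) (Sym2.map σ e) = e := by
  have := q3_map_inv σ⁻¹ e
  rwa [inv_inv] at this

private theorem q3_image_image (σ : Equiv.Perm ℕ) (G : Finset (Sym2 ℕ)) :
    (G.image (Sym2.map σ)).image (Sym2.map (σ⁻¹ : Equiv.Perm ℕ)) = G := by
  rw [Finset.image_image]
  have h : (Sym2.map (σ⁻¹ : Equiv.Perm ℕ) ∘ Sym2.map σ : Sym2 ℕ → Sym2 ℕ) = id := by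
    funext e; exact q3_inv_map σ e
  rw [h, Finset.image_id]

private theorem q3_ok_inv {n : ℕ} {σ : Equiv.Perm ℕ} (hσ : ∀ i, σ i < n ↔ i < n) :
    ∀ i, (σ⁻¹ : Equiv.Perm ℕ) i < n ↔ i < n := by
  intro i
  rw [← hσ]
  simp

private theorem q3_trick {n : ℕ} (Φ : Finset (Sym2 ℕ) → Finset ℕ)
    (h : ∀ σ : Equiv.Perm ℕ, (∀ i, σ i < n ↔ i < n) → ∀ G,
      (Φ G).image σ ⊆ Φ (G.image (Sym2.map σ)))
    (σ : Equiv.Perm ℕ) (hσ : ∀ i, σ i < n ↔ i < n) (G : Finset (Sym2 ℕ)) :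
    Φ (G.image (Sym2.map σ)) = (Φ G).image σ := by
  refine Finset.Subset.antisymm ?_ (h σ hσ G)
  intro x hx
  have h1 : (σ⁻¹ : Equiv.Perm ℕ) x ∈ (Φ (G.image (Sym2.map σ))).image (σ⁻¹ : Equiv.Perm ℕ) :=
    Finset.mem_image_of_mem _ hx
  have h2 := h σ⁻¹ (q3_ok_inv hσ) (G.image (Sym2.map σ)) h1
  rw [q3_image_image] at h2
  rw [Finset.mem_image]
  exact ⟨_, h2, by simp⟩

/-- Q3: equivariance of all constructions under a vertex permutation `σ` preserving `{0..n-1}`. -/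
theorem del_perm (σ : Equiv.Perm ℕ) (A : Finset ℕ) (G : Finset (Sym2 ℕ)) :
    del (A.image σ) (G.image (Sym2.map σ)) = (del A G).image (Sym2.map σ) := by
  ext e
  obtain ⟨e, rfl⟩ : ∃ e', Sym2.map σ e' = e := ⟨_, q3_map_inv σ e⟩
  rw [q3_mem_imageE, mem_del, mem_del, q3_mem_imageE]
  refine and_congr_right fun _ => ?_
  constructor
  · intro h x hx hA
    exact h (σ x) (Sym2.mem_map.2 ⟨x, hx, rfl⟩) ((q3_mem_image σ A x).2 hA)
  · intro h y hy hA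
    obtain ⟨x, hx, rfl⟩ := Sym2.mem_map.1 hy
    exact h x hx ((q3_mem_image σ A x).1 hA)

theorem ins_perm (σ : Equiv.Perm ℕ) (A : Finset ℕ) (G : Finset (Sym2 ℕ)) :
    ins (A.image σ) (G.image (Sym2.map σ)) = (ins A G).image (Sym2.map σ) := by
  ext e
  obtain ⟨e, rfl⟩ : ∃ e', Sym2.map σ e' = e := ⟨_, q3_map_inv σ e⟩
  rw [q3_mem_imageE, mem_ins, mem_ins, q3_mem_imageE]
  refine and_congr_right fun _ => ?_
  constructor
  · intro h x hx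
    exact (q3_mem_image σ A x).1 (h (σ x) (Sym2.mem_map.2 ⟨x, hx, rfl⟩))
  · intro h y hy
    obtain ⟨x, hx, rfl⟩ := Sym2.mem_map.1 hy
    exact (q3_mem_image σ A x).2 (h x hx)

theorem nb_perm (n : ℕ) (σ : Equiv.Perm ℕ) (hσ : ∀ i, σ i < n ↔ i < n) (G : Finset (Sym2 ℕ))
    (v : ℕ) : nb n (G.image (Sym2.map σ)) (σ v) = (nb n G v).image σ := by
  ext u
  obtain ⟨u, rfl⟩ : ∃ u', σ u' = u := ⟨σ⁻¹ u, by simp⟩
  rw [q3_mem_image, mem_nb, mem_nb, hσ, ← Sym2.map_mk, q3_mem_imageE]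

theorem core_perm (d n : ℕ) (σ : Equiv.Perm ℕ) (hσ : ∀ i, σ i < n ↔ i < n)
    (G : Finset (Sym2 ℕ)) : core d n (G.image (Sym2.map σ)) = (core d n G).image σ := by
  refine q3_trick (core d n) ?_ σ hσ G
  clear hσ G σ
  intro σ hσ G
  refine subset_core ?_ ?_
  · intro x hx
    obtain ⟨y, hy, rfl⟩ := Finset.mem_image.1 hx
    rw [Finset.mem_range, hσ]
    exact Finset.mem_range.1 (core_subset d n G hy)
  · intro x hx
    obtain ⟨y, hy, rfl⟩ := Finset.mem_image.1 hx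
    rw [nb_perm n σ hσ, ← Finset.image_inter _ _ σ.injective,
      Finset.card_image_of_injective _ σ.injective]
    exact core_deg hy

theorem Pt_perm (d n t : ℕ) (σ : Equiv.Perm ℕ) (hσ : ∀ i, σ i < n ↔ i < n)
    (G : Finset (Sym2 ℕ)) : Pt d n t (G.image (Sym2.map σ)) = (Pt d n t G).image σ := by
  induction t generalizing σ G with
  | zero =>
    refine q3_trick (Pt d n 0) ?_ σ hσ G
    clear hσ G σ
    intro σ hσ G x hx
    obtain ⟨y, hy, rfl⟩ := Finset.mem_image.1 hx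
    rw [Pt] at hy ⊢
    rw [Finset.mem_range] at hy ⊢
    exact (hσ y).2 hy
  | succ t ih =>
    refine q3_trick (Pt d n (t + 1)) ?_ σ hσ G
    clear hσ G σ
    intro σ hσ G x hx
    obtain ⟨y, hy, rfl⟩ := Finset.mem_image.1 hx
    rw [mem_Pt_succ] at hy ⊢
    refine ⟨(hσ y).2 hy.1, ?_⟩
    have h1 : del {σ y} (G.image (Sym2.map σ)) = (del {y} G).image (Sym2.map σ) := by
      rw [← del_perm, Finset.image_singleton]
    rw [h1, ih σ hσ, nb_perm n σ hσ, ← Finset.image_inter _ _ σ.injective,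
      Finset.card_image_of_injective _ σ.injective]
    exact hy.2

theorem Rig.Cl_perm {d t : ℕ} (R : Rig d t) (σ : Equiv.Perm ℕ) (G : Finset (Sym2 ℕ))
    (e : Sym2 ℕ) : R.Cl (G.image (Sym2.map σ)) (Sym2.map σ e) ↔ R.Cl G e := by
  rw [Rig.Cl_def, Rig.Cl_def, ← Finset.image_insert, R.r_perm, R.r_perm]

private theorem q3_En {n : ℕ} {σ : Equiv.Perm ℕ} (hσ : ∀ i, σ i < n ↔ i < n) (e : Sym2 ℕ) :
    Sym2.map σ e ∈ En n ↔ e ∈ En n := by
  induction e using Sym2.ind with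
  | _ a b =>
    rw [Sym2.map_mk, mk_mem_En, mk_mem_En, hσ, hσ, σ.injective.ne_iff]

theorem Rig.cl_perm {d t : ℕ} (R : Rig d t) (n : ℕ) (σ : Equiv.Perm ℕ)
    (hσ : ∀ i, σ i < n ↔ i < n) (G : Finset (Sym2 ℕ)) :
    R.cl n (G.image (Sym2.map σ)) = (R.cl n G).image (Sym2.map σ) := by
  ext e
  obtain ⟨e, rfl⟩ : ∃ e', Sym2.map σ e' = e := ⟨_, q3_map_inv σ e⟩
  rw [q3_mem_imageE, Rig.mem_cl, Rig.mem_cl, R.Cl_perm, q3_En hσ]

private theorem q3_Clq {d t : ℕ} (R : Rig d t) (σ : Equiv.Perm ℕ) (G : Finset (Sym2 ℕ))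
    {C : Finset ℕ} (h : R.Clq G C) : R.Clq (G.image (Sym2.map σ)) (C.image σ) := by
  intro a ha b hb hab
  obtain ⟨a', ha', rfl⟩ := Finset.mem_image.1 ha
  obtain ⟨b', hb', rfl⟩ := Finset.mem_image.1 hb
  rw [← Sym2.map_mk, R.Cl_perm]
  exact h a' ha' b' hb' (fun he => hab (by rw [he]))

theorem Rig.Y_perm {d t : ℕ} (R : Rig d t) (δ : ℝ) (n : ℕ) (σ : Equiv.Perm ℕ)
    (hσ : ∀ i, σ i < n ↔ i < n) (G : Finset (Sym2 ℕ)) :
    R.Y δ n (G.image (Sym2.map σ)) = (R.Y δ n G).image σ := by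
  refine q3_trick (R.Y δ n) ?_ σ hσ G
  clear hσ G σ
  intro σ hσ G x hx
  obtain ⟨y, hy, rfl⟩ := Finset.mem_image.1 hx
  rw [Rig.mem_Y] at hy ⊢
  obtain ⟨h1, C, h2, h3, h4, h5⟩ := hy
  refine ⟨(hσ y).2 h1, C.image σ, ?_, (q3_mem_image σ C y).2 h3, q3_Clq R σ G h4, ?_⟩
  · intro z hz
    obtain ⟨w, hw, rfl⟩ := Finset.mem_image.1 hz
    rw [Finset.mem_range, hσ]
    exact Finset.mem_range.1 (h2 hw)
  · rw [Finset.card_image_of_injective _ σ.injective]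
    exact h5

theorem Rig.y_perm {d t : ℕ} (R : Rig d t) (δ : ℝ) (n : ℕ) (σ : Equiv.Perm ℕ)
    (hσ : ∀ i, σ i < n ↔ i < n) (G : Finset (Sym2 ℕ)) :
    R.y δ n (G.image (Sym2.map σ)) = R.y δ n G := by
  unfold Rig.y
  rw [R.Y_perm δ n σ hσ, Finset.card_image_of_injective _ σ.injective]

theorem Rig.Dep_perm {d t : ℕ} (R : Rig d t) (σ : Equiv.Perm ℕ) (G : Finset (Sym2 ℕ)) :
    R.Dep (G.image (Sym2.map σ)) ↔ R.Dep G := by
  unfold Rig.Dep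
  rw [R.r_perm, Finset.card_image_of_injective _ (q3_inj σ)]

end Pool.Agent.Helper55.ML
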