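import Pool.Agent.Helper55.ML.P1

set_option autoImplicit false
open Finset Filter Topology

namespace Pool.Agent.Helper55.ML

private theorem q5_card (n : ℕ) (A : Finset ℕ) :
    (En n \ del A (En n)).card ≤ A.card * n := by
  have hsub : En n \ del A (En n) ⊆ (A ×ˢ range n).image (fun q => s(q.1, q.2)) := by
    intro e he
    rw [Finset.mem_sdiff, mem_del, not_and, not_forall] at he
    obtain ⟨h1, h2⟩ := he
    obtain ⟨x, hx⟩ := h2 h1
    rw [Classical.not_imp, not_not] at hx
    obtain ⟨hxe, hxA⟩ := hx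
    obtain ⟨y, rfl⟩ := Sym2.mem_iff_exists.1 hxe
    rw [Finset.mem_image]
    refine ⟨(x, y), ?_, rfl⟩
    rw [Finset.mem_product, Finset.mem_range]
    exact ⟨hxA, (mk_mem_En.1 h1).2.1⟩
  refine (Finset.card_le_card hsub).trans (Finset.card_image_le.trans ?_)
  rw [Finset.card_product, Finset.card_range]

private theorem q5_del_union {n : ℕ} {A : Finset ℕ} {S T : Finset (Sym2 ℕ)}
    (hS : S ⊆ del A (En n)) (hT : T ⊆ En n \ del A (En n)) : del A (S ∪ T) = S := by
  ext e
  rw [mem_del, Finset.mem_union]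
  constructor
  · rintro ⟨h1 | h1, h2⟩
    · exact h1
    · have h3 := Finset.mem_sdiff.1 (hT h1)
      exact absurd (mem_del.2 ⟨h3.1, h2⟩) h3.2
  · intro h
    exact ⟨Or.inl h, (mem_del.1 (hS h)).2⟩

/-- Q5 (hint): restrict to the event that `G` has no edge at `A`; at most `|A| n` pairs meet `A`.
`BE_union` with `En n = del A (En n) ∪ (rest)`. -/
theorem Ex_del_le (n : ℕ) {p : ℝ} (h0 : 0 ≤ p) (h1 : p ≤ 1) (A : Finset ℕ)
    (f : Finset (Sym2 ℕ) → ℝ) (hf : ∀ G ⊆ En n, 0 ≤ f G) :
    (1 - p) ^ (A.card * n) * Ex n p (fun G => f (del A G)) ≤ Ex n p f := by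
  have hE : En n = del A (En n) ∪ (En n \ del A (En n)) := by
    rw [Finset.union_sdiff_of_subset (del_subset A _)]
  have hd : Disjoint (del A (En n)) (En n \ del A (En n)) := Finset.disjoint_sdiff
  have e1 : Ex n p (fun G => f (del A G)) = BE (del A (En n)) p f := by
    unfold Ex
    conv_lhs => rw [hE]
    rw [BE_union hd]
    refine BE_congr fun S hS => ?_
    rw [← BE_const (E := En n \ del A (En n)) (p := p) (f S)]
    refine BE_congr fun T hT => ?_
    rw [q5_del_union hS hT]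
  have e2 : Ex n p f = BE (del A (En n)) p
      (fun S => BE (En n \ del A (En n)) p (fun T => f (S ∪ T))) := by
    unfold Ex
    conv_lhs => rw [hE]
    rw [BE_union hd]
  rw [e1, e2, ← BE_mul_left]
  refine BE_mono h0 h1 fun S hS => ?_
  have hq0 : 0 ≤ 1 - p := by linarith
  have h2 : (1 - p) ^ (A.card * n) ≤ (1 - p) ^ (En n \ del A (En n)).card :=
    pow_le_pow_of_le_one hq0 (by linarith) (q5_card n A)
  have hS' : S ⊆ En n := hS.trans (del_subset A _)
  have h3 : (1 - p) ^ (En n \ del A (En n)).card * f S ≤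
      BE (En n \ del A (En n)) p (fun T => f (S ∪ T)) := by
    unfold BE
    have h4 := Finset.single_le_sum (s := (En n \ del A (En n)).powerset)
      (f := fun T => p ^ T.card * (1 - p) ^ ((En n \ del A (En n)) \ T).card * f (S ∪ T))
      (fun T hT => mul_nonneg (mul_nonneg (pow_nonneg h0 _) (pow_nonneg hq0 _))
        (hf _ (Finset.union_subset hS' ((Finset.mem_powerset.1 hT).trans Finset.sdiff_subset))))
      (Finset.empty_mem_powerset _)
    simpa using h4
  exact (mul_le_mul_of_nonneg_right h2 (hf S hS')).trans h3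

theorem one_sub_pow_lower {c : ℝ} (hc : 0 < c) (k : ℕ) :
    ∃ a : ℝ, 0 < a ∧ ∀ᶠ n : ℕ in atTop, a ≤ (1 - c / (n : ℝ)) ^ (k * n) := by
  have h1 := (Real.tendsto_one_add_div_pow_exp (-c)).pow k
  have h2 : (0 : ℝ) < Real.exp (-c) ^ k := pow_pos (Real.exp_pos _) _
  refine ⟨Real.exp (-c) ^ k / 2, by positivity, ?_⟩
  filter_upwards [h1.eventually (lt_mem_nhds (half_lt_self h2))] with n hn
  refine hn.le.trans (le_of_eq ?_)
  rw [← pow_mul, mul_comm n k]
  congr 1
  ring

theorem Van_del {c : ℝ} (hc : 0 < c) {f : ℕ → Finset (Sym2 ℕ) → ℝ} (hf0 : ∀ n G, 0 ≤ f n G)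
    (hf : Van c f) (A : Finset ℕ) : Van c (fun n G => f n (del A G)) := by
  obtain ⟨a, ha, hn⟩ := one_sub_pow_lower hc A.card
  unfold Van at hf ⊢
  have h1 : Tendsto (fun n : ℕ => a⁻¹ * Ex n (c / n) (f n)) atTop (𝓝 0) := by
    have := hf.const_mul a⁻¹
    rwa [mul_zero] at this
  refine squeeze_zero' ?_ ?_ h1
  · filter_upwards [cn_eventually hc] with n hn
    exact Ex_nonneg hn.1.le (by linarith [hn.2]) fun G _ => hf0 n _
  · filter_upwards [cn_eventually hc, hn] with n hn1 hn2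
    have h2 := Ex_del_le n hn1.1.le (by linarith [hn1.2]) A (f n) (fun G _ => hf0 n G)
    have h3 : 0 ≤ Ex n (c / n) (fun G => f n (del A G)) :=
      Ex_nonneg hn1.1.le (by linarith [hn1.2]) fun G _ => hf0 n _
    have h4 := (mul_le_mul_of_nonneg_right hn2 h3).trans h2
    rw [inv_mul_eq_div, le_div_iff₀ ha, mul_comm]
    exact h4

theorem Neg_del {c : ℝ} (hc : 0 < c) {B : ℕ → Finset (Sym2 ℕ) → Prop} (hB : Neg c B)
    (A : Finset ℕ) : Neg c (fun n G => B n (del A G)) :=
  Van_del hc (f := fun n G => ind (B n G)) (fun _ _ => ind_nonneg _) hB A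

end Pool.Agent.Helper55.ML
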