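import Pool.Agent.Helper55.ML.P1

set_option autoImplicit false
open Finset Filter Topology

namespace Pool.Agent.Helper55.ML

/-- Q1: number of pairs. -/
theorem card_En (n : ℕ) : ((En n).card : ℝ) = n * (n - 1) / 2 := by
  have h1 : En n = (range n).offDiag.image Sym2.mk.uncurry := by
    ext e
    induction e using Sym2.ind with
    | _ a b =>
      rw [mk_mem_En, mem_image]
      constructor
      · rintro ⟨ha, hb, hab⟩
        exact ⟨(a, b), mem_offDiag.2 ⟨mem_range.2 ha, mem_range.2 hb, hab⟩, rfl⟩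
      · rintro ⟨⟨x, y⟩, hxy, he⟩
        rw [mem_offDiag] at hxy
        obtain ⟨hx, hy, hne⟩ := hxy
        simp only [mem_range] at hx hy
        rcases Sym2.eq_iff.1 he with ⟨e1, e2⟩ | ⟨e1, e2⟩
        · subst e1; subst e2
          exact ⟨hx, hy, hne⟩
        · subst e1; subst e2
          exact ⟨hy, hx, hne.symm⟩
  rw [h1, Sym2.card_image_offDiag, card_range, Nat.cast_choose_two]

/-- Q1 (hint): functions of disjoint sets of pairs are independent. Use `BE_inter`, `BE_union`. -/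
theorem Ex_indep (n : ℕ) (p : ℝ) {E₁ E₂ : Finset (Sym2 ℕ)} (h1 : E₁ ⊆ En n) (h2 : E₂ ⊆ En n)
    (h : Disjoint E₁ E₂) (F : Finset (Sym2 ℕ) → Finset (Sym2 ℕ) → ℝ) :
    Ex n p (fun G => F (G ∩ E₁) (G ∩ E₂)) =
      Ex n p (fun G => BE E₂ p (fun T => F (G ∩ E₁) T)) := by
  unfold Ex
  have e1 : ∀ G : Finset (Sym2 ℕ), F (G ∩ E₁) (G ∩ E₂) =
      (fun S => F (S ∩ E₁) (S ∩ E₂)) (G ∩ (E₁ ∪ E₂)) := by
    intro G
    change _ = F (G ∩ (E₁ ∪ E₂) ∩ E₁) (G ∩ (E₁ ∪ E₂) ∩ E₂)
    rw [inter_assoc, inter_eq_right.2 (subset_union_left (s₁ := E₁) (s₂ := E₂)), inter_assoc,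
      inter_eq_right.2 (subset_union_right (s₁ := E₁) (s₂ := E₂))]
  rw [BE_congr (g := fun G => (fun S => F (S ∩ E₁) (S ∩ E₂)) (G ∩ (E₁ ∪ E₂))) fun G _ => e1 G,
    BE_inter (union_subset h1 h2) p (fun S => F (S ∩ E₁) (S ∩ E₂)), BE_union h,
    BE_inter h1 p (fun S => BE E₂ p (fun T => F S T))]
  refine BE_congr fun S hS => BE_congr fun T hT => ?_
  have a1 : (S ∪ T) ∩ E₁ = S := by
    rw [union_inter_distrib_right, inter_eq_left.2 hS,
      disjoint_iff_inter_eq_empty.1 (h.symm.mono_left hT), union_empty]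
  have a2 : (S ∪ T) ∩ E₂ = T := by
    rw [union_inter_distrib_right, inter_eq_left.2 hT,
      disjoint_iff_inter_eq_empty.1 (h.mono_left hS), empty_union]
  rw [a1, a2]

/-- The graph minus `A` is independent of the edges at `A`. For `G ⊆ En n`,
`del A G = G ∩ del A (En n)`. -/
theorem Ex_del_split (n : ℕ) (A : Finset ℕ) (p : ℝ)
    (F : Finset (Sym2 ℕ) → Finset (Sym2 ℕ) → ℝ) :
    Ex n p (fun G => F (del A G) (G \ del A G)) =
      Ex n p (fun G => BE (En n \ del A (En n)) p (fun T => F (del A G) T)) := by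
  have e1 : ∀ G ⊆ En n, del A G = G ∩ del A (En n) := by
    intro G hG
    ext e
    rw [mem_inter, mem_del, mem_del]
    constructor
    · rintro ⟨a, b⟩
      exact ⟨a, hG a, b⟩
    · rintro ⟨a, _, b⟩
      exact ⟨a, b⟩
  have e2 : ∀ G ⊆ En n, G \ del A G = G ∩ (En n \ del A (En n)) := by
    intro G hG
    rw [e1 G hG]
    ext e
    simp only [Finset.mem_sdiff, mem_inter, not_and]
    constructor
    · rintro ⟨a, b⟩
      exact ⟨a, hG a, b a⟩
    · rintro ⟨a, _, b⟩
      exact ⟨a, fun _ => b⟩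
  have h1 := Ex_indep n p (del_subset A (En n)) (sdiff_subset (s := En n) (t := del A (En n)))
    disjoint_sdiff F
  rw [Ex_congr (g := fun G => F (G ∩ del A (En n)) (G ∩ (En n \ del A (En n)))), h1]
  · refine Ex_congr fun G hG => ?_
    rw [e1 G hG]
  · intro G hG
    rw [e2 G hG, e1 G hG]

theorem q1_star_inj (v : ℕ) : Function.Injective (fun u : ℕ => s(v, u)) := by
  intro a b hab
  exact Sym2.congr_right.1 hab

theorem q1_mk_mem_star {v u : ℕ} {N : Finset ℕ} : s(v, u) ∈ star v N ↔ u ∈ N := by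
  rw [mem_star]
  constructor
  · rintro ⟨w, hw, he⟩
    rw [← q1_star_inj v he]
    exact hw
  · intro h
    exact ⟨u, h, rfl⟩

theorem nb_union_star {n v : ℕ} {H : Finset (Sym2 ℕ)} {N : Finset ℕ} (hH : ∀ e ∈ H, v ∉ e)
    (hN : N ⊆ range n) : nb n (H ∪ star v N) v = N := by
  ext u
  rw [mem_nb, mem_union, q1_mk_mem_star]
  constructor
  · rintro ⟨_, h | h⟩
    · exact absurd (Sym2.mem_mk_left v u) (hH _ h)
    · exact h
  · intro h
    exact ⟨mem_range.1 (hN h), Or.inr h⟩

/-- The graph minus `v` is independent of the neighbourhood of `v`, which is a random set. -/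
theorem Ex_vertex (n v : ℕ) (hv : v < n) (p : ℝ) (F : Finset (Sym2 ℕ) → Finset ℕ → ℝ) :
    Ex n p (fun G => F (del {v} G) (nb n G v)) =
      Ex n p (fun G => BE ((range n).erase v) p (fun N => F (del {v} G) N)) := by
  have e1 : ∀ G : Finset (Sym2 ℕ), nb n G v = nb n (G \ del {v} G) v := by
    intro G
    ext u
    rw [mem_nb, mem_nb, Finset.mem_sdiff, mem_del]
    constructor
    · rintro ⟨a, b⟩
      refine ⟨a, b, fun hc => hc.2 v (Sym2.mem_mk_left v u) (mem_singleton_self v)⟩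
    · rintro ⟨a, b, _⟩
      exact ⟨a, b⟩
  have e2 : En n \ del {v} (En n) = ((range n).erase v).image (fun u => s(v, u)) := by
    ext e
    rw [Finset.mem_sdiff, mem_del, mem_image]
    constructor
    · rintro ⟨a, b⟩
      have hve : v ∈ e := by
        by_contra hv'
        exact b ⟨a, fun x hx hxv => hv' (by rw [← mem_singleton.1 hxv]; exact hx)⟩
      obtain ⟨u, rfl⟩ := hve
      rw [mk_mem_En] at a
      exact ⟨u, mem_erase.2 ⟨a.2.2.symm, mem_range.2 a.2.1⟩, rfl⟩
    · rintro ⟨u, hu, rfl⟩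
      rw [mem_erase, mem_range] at hu
      exact ⟨mk_mem_En.2 ⟨hv, hu.2, hu.1.symm⟩,
        fun hc => hc.2 v (Sym2.mem_mk_left v u) (mem_singleton_self v)⟩
  have h1 := Ex_del_split n {v} p (fun H T => F H (nb n T v))
  have h2 : ∀ G : Finset (Sym2 ℕ), F (del {v} G) (nb n G v) =
      (fun H T => F H (nb n T v)) (del {v} G) (G \ del {v} G) := by
    intro G
    change _ = F (del {v} G) (nb n (G \ del {v} G) v)
    rw [← e1 G]
  simp only [h2]
  rw [h1, e2]
  refine Ex_congr fun G _ => ?_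
  rw [BE_image (q1_star_inj v)]
  refine BE_congr fun N hN => ?_
  have h3 : nb n (N.image fun u => s(v, u)) v = N := by
    have h4 := nb_union_star (n := n) (v := v) (H := ∅) (N := N) (by simp)
      (hN.trans (erase_subset _ _))
    rw [empty_union] at h4
    exact h4
  change F (del {v} G) (nb n (N.image fun u => s(v, u)) v) = F (del {v} G) N
  rw [h3]

theorem del_union_star {n v : ℕ} {G : Finset (Sym2 ℕ)} (hG : G ⊆ En n) :
    del {v} G ∪ star v (nb n G v) = G := by
  ext e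
  rw [mem_union, mem_del, mem_star]
  constructor
  · rintro (⟨h, _⟩ | ⟨u, hu, rfl⟩)
    · exact h
    · exact (mem_nb.1 hu).2
  · intro h
    by_cases hve : v ∈ e
    · right
      obtain ⟨u, rfl⟩ := hve
      exact ⟨u, mem_nb.2 ⟨(mk_mem_En.1 (hG h)).2.1, h⟩, rfl⟩
    · left
      exact ⟨h, fun x hx hxv => hve (by rw [← mem_singleton.1 hxv]; exact hx)⟩

theorem del_star {v : ℕ} {H : Finset (Sym2 ℕ)} {N : Finset ℕ} (hH : ∀ e ∈ H, v ∉ e) :
    del {v} (H ∪ star v N) = H := by
  ext e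
  rw [mem_del, mem_union, mem_star]
  constructor
  · rintro ⟨h | ⟨u, _, rfl⟩, h2⟩
    · exact h
    · exact absurd (mem_singleton_self v) (h2 v (Sym2.mem_mk_left v u))
  · intro h
    exact ⟨Or.inl h, fun x hx hxv => hH e h (by rw [← mem_singleton.1 hxv]; exact hx)⟩

end Pool.Agent.Helper55.ML
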