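import Pool.Agent.Helper55.ML.P1

set_option autoImplicit false
open Finset Filter Topology

namespace Pool.Agent.Helper55.ML

private theorem q2_image (n : ℕ) (σ : Equiv.Perm ℕ) (hσ : ∀ i, σ i < n ↔ i < n) :
    (En n).image (Sym2.map σ) = En n := by
  ext e
  induction e using Sym2.ind with
  | _ a b =>
    rw [Finset.mem_image, mk_mem_En]
    constructor
    · rintro ⟨e, he, h⟩
      induction e using Sym2.ind with
      | _ x y =>
        rw [mk_mem_En] at he
        rw [Sym2.map_mk, Sym2.eq_iff] at h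
        have h3 : σ x ≠ σ y := fun h' => he.2.2 (σ.injective h')
        rcases h with ⟨rfl, rfl⟩ | ⟨rfl, rfl⟩
        · exact ⟨(hσ x).2 he.1, (hσ y).2 he.2.1, h3⟩
        · exact ⟨(hσ y).2 he.2.1, (hσ x).2 he.1, h3.symm⟩
    · rintro ⟨h1, h2, h3⟩
      refine ⟨s(σ.symm a, σ.symm b), ?_, ?_⟩
      · rw [mk_mem_En]
        refine ⟨?_, ?_, fun h => h3 (σ.symm.injective h)⟩
        · rw [← hσ]; simpa using h1
        · rw [← hσ]; simpa using h2
      · rw [Sym2.map_mk]
        simp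

/-- Q2 (hint): invariance under permutations: `(En n).image (Sym2.map σ) = En n` and `BE_image`. -/
theorem Ex_perm (n : ℕ) (p : ℝ) (σ : Equiv.Perm ℕ) (hσ : ∀ i, σ i < n ↔ i < n)
    (f : Finset (Sym2 ℕ) → ℝ) :
    Ex n p (fun G => f (G.image (Sym2.map σ))) = Ex n p f := by
  unfold Ex
  rw [← BE_image (Sym2.map.injective σ.injective), q2_image n σ hσ]

/-- All vertices have the same expectation (swap `0` and `v`). -/
theorem Ex_vertex_eq (n : ℕ) (p : ℝ) (g : ℕ → Finset (Sym2 ℕ) → ℝ)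
    (hg : ∀ σ : Equiv.Perm ℕ, (∀ i, σ i < n ↔ i < n) →
      ∀ v G, g (σ v) (G.image (Sym2.map σ)) = g v G) {v : ℕ} (hv : v < n) :
    Ex n p (g v) = Ex n p (g 0) := by
  have hσ : ∀ i, Equiv.swap 0 v i < n ↔ i < n := by
    intro i
    rw [Equiv.swap_apply_def]
    split_ifs <;> omega
  rw [← Ex_perm n p (Equiv.swap 0 v) hσ (g v)]
  congr 1
  funext G
  have h := hg (Equiv.swap 0 v) hσ 0 G
  rwa [Equiv.swap_apply_left] at h

theorem Ex_vertex_sum (n : ℕ) (p : ℝ) (g : ℕ → Finset (Sym2 ℕ) → ℝ)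
    (hg : ∀ σ : Equiv.Perm ℕ, (∀ i, σ i < n ↔ i < n) →
      ∀ v G, g (σ v) (G.image (Sym2.map σ)) = g v G) :
    Ex n p (fun G => ∑ v ∈ range n, g v G) = n * Ex n p (g 0) := by
  rw [Ex_sum, Finset.sum_congr rfl fun v hv => Ex_vertex_eq n p g hg (mem_range.1 hv),
    Finset.sum_const, card_range, nsmul_eq_mul]

/-- All pairs have the same expectation. -/
theorem Ex_edge_eq (n : ℕ) (p : ℝ) (g : Sym2 ℕ → Finset (Sym2 ℕ) → ℝ)
    (hg : ∀ σ : Equiv.Perm ℕ, (∀ i, σ i < n ↔ i < n) →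
      ∀ e G, g (Sym2.map σ e) (G.image (Sym2.map σ)) = g e G) {e : Sym2 ℕ} (he : e ∈ En n) :
    Ex n p (g e) = Ex n p (g s(0, 1)) := by
  induction e using Sym2.ind with
  | _ a b =>
    rw [mk_mem_En] at he
    obtain ⟨h1, h2, h3⟩ := he
    have hs1 : ∀ i, Equiv.swap 0 a i < n ↔ i < n := by
      intro i
      rw [Equiv.swap_apply_def]
      split_ifs <;> omega
    have hc : Equiv.swap 0 a 1 < n := by
      rw [hs1]; omega
    have hca : Equiv.swap 0 a 1 ≠ a := by
      intro h4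
      have h5 : Equiv.swap 0 a 1 = Equiv.swap 0 a 0 := by
        rw [h4, Equiv.swap_apply_left]
      exact one_ne_zero ((Equiv.swap 0 a).injective h5)
    have hs2 : ∀ i, Equiv.swap (Equiv.swap 0 a 1) b i < n ↔ i < n := by
      intro i
      rw [Equiv.swap_apply_def (Equiv.swap 0 a 1) b i]
      split_ifs with h4 h5
      · rw [h4]; exact ⟨fun _ => hc, fun _ => h2⟩
      · rw [h5]; exact ⟨fun _ => h2, fun _ => hc⟩
      · exact Iff.rfl
    have hσ : ∀ i, (Equiv.swap 0 a).trans (Equiv.swap (Equiv.swap 0 a 1) b) i < n ↔ i < n := by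
      intro i
      rw [Equiv.trans_apply, hs2, hs1]
    rw [← Ex_perm n p _ hσ (g s(a, b))]
    congr 1
    funext G
    have h := hg _ hσ s(0, 1) G
    rw [Sym2.map_mk] at h
    have h0 : ((Equiv.swap 0 a).trans (Equiv.swap (Equiv.swap 0 a 1) b)) 0 = a := by
      rw [Equiv.trans_apply, Equiv.swap_apply_left, Equiv.swap_apply_of_ne_of_ne hca.symm h3]
    have h1' : ((Equiv.swap 0 a).trans (Equiv.swap (Equiv.swap 0 a 1) b)) 1 = b := by
      rw [Equiv.trans_apply, Equiv.swap_apply_left]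
    rw [h0, h1'] at h
    exact h

/-- All finite vertex sets of the same size have the same expectation. -/
theorem Ex_set_eq (n : ℕ) (p : ℝ) (g : Finset ℕ → Finset (Sym2 ℕ) → ℝ)
    (hg : ∀ σ : Equiv.Perm ℕ, (∀ i, σ i < n ↔ i < n) →
      ∀ A G, g (A.image σ) (G.image (Sym2.map σ)) = g A G) {A B : Finset ℕ}
    (hA : A ⊆ range n) (hB : B ⊆ range n) (h : A.card = B.card) :
    Ex n p (g A) = Ex n p (g B) := by
  classical
  have hfin : Finite {x : ℕ // x < n} := inferInstance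
  let e : ∀ C : Finset ℕ, C ⊆ range n → ({x : {x : ℕ // x < n} // x.1 ∈ C} ≃ C) := fun C hC =>
    { toFun := fun x => ⟨x.1.1, x.2⟩
      invFun := fun a => ⟨⟨a.1, mem_range.1 (hC a.2)⟩, a.2⟩
      left_inv := fun _ => rfl
      right_inv := fun _ => rfl }
  let E : {x : {x : ℕ // x < n} // x.1 ∈ A} ≃ {x : {x : ℕ // x < n} // x.1 ∈ B} :=
    (e A hA).trans ((Finset.equivOfCardEq h).trans (e B hB).symm)
  let σ : Equiv.Perm ℕ := Equiv.Perm.ofSubtype (p := fun x => x < n) E.extendSubtype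
  have hσ : ∀ i, σ i < n ↔ i < n := fun i =>
    Equiv.Perm.ofSubtype_apply_mem_iff_mem (p := fun x => x < n) E.extendSubtype i
  have himg : A.image σ = B := by
    apply Finset.eq_of_subset_of_card_le
    · intro y hy
      rw [Finset.mem_image] at hy
      obtain ⟨x, hx, rfl⟩ := hy
      have hxn := mem_range.1 (hA hx)
      have h1 : σ x = (E.extendSubtype ⟨x, hxn⟩).1 :=
        Equiv.Perm.ofSubtype_apply_of_mem (p := fun x => x < n) E.extendSubtype hxn
      rw [h1]
      exact E.extendSubtype_mem ⟨x, hxn⟩ hx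
    · rw [Finset.card_image_of_injective _ σ.injective, h]
  rw [← Ex_perm n p σ hσ (g B)]
  congr 1
  funext G
  rw [← himg]
  exact (hg σ hσ A G).symm

end Pool.Agent.Helper55.ML
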