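import Pool.Agent.Helper55.ML.P4
import Pool.Agent.Helper55.ML.Q1
import Pool.Agent.Helper55.ML.Q2
import Pool.Agent.Helper55.ML.Q3

set_option autoImplicit false
open Finset Filter Topology

namespace Pool.Agent.Helper55.ML

/-- Functions of the degree of the vertex `0` are functions of the size of a random set. -/
private theorem q8_deg (n : ℕ) (hn : 0 < n) (p : ℝ) (φ : ℕ → ℝ) :
    Ex n p (fun G => φ (nb n G 0).card) =
      BE ((range n).erase 0) p (fun N => φ N.card) := by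
  have h := Ex_vertex n 0 hn p (fun _ N => φ N.card)
  rw [h]
  exact Ex_const _

private theorem q8_card_erase (n : ℕ) (hn : 0 < n) : ((range n).erase 0).card = n - 1 := by
  rw [card_erase_of_mem (mem_range.2 hn), card_range]

/-- `E |S|^2 ≤ (p|E|)^2 + p|E|`. -/
private theorem q8_sq {α : Type*} [DecidableEq α] (E : Finset α) {p : ℝ} (h0 : 0 ≤ p)
    (h1 : p ≤ 1) :
    BE E p (fun S => (S.card : ℝ) ^ 2) ≤ p * E.card + (p * E.card) ^ 2 := by
  have h2 : BE E p (fun S => (S.card : ℝ) ^ 2) =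
      BE E p (fun S => ((S.card : ℝ) - p * E.card) ^ 2 +
        (2 * (p * E.card) * (S.card : ℝ) - (p * E.card) ^ 2)) :=
    BE_congr fun S _ => by ring
  rw [h2, BE_add, BE_card_sq, BE_sub (f := fun S => 2 * (p * E.card) * (S.card : ℝ))
    (g := fun _ => (p * E.card) ^ 2), BE_mul_left, BE_card, BE_const]
  have h3 : 0 ≤ p * p * (E.card : ℝ) := by positivity
  nlinarith [h3]

/-- Upper tail of the size of a random set. -/
private theorem q8_tail {α : Type*} [DecidableEq α] (E : Finset α) {p : ℝ} (h0 : 0 ≤ p)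
    (h1 : p ≤ 1) (k : ℕ) :
    BE E p (fun S => ind (k ≤ S.card)) ≤ (E.card.choose k : ℝ) * p ^ k := by
  have h2 : BE E p (fun S => ind (k ≤ S.card)) ≤
      BE E p (fun S => ∑ A ∈ E.powersetCard k, ind (A ⊆ S)) := by
    refine BE_mono h0 h1 fun S hS => ?_
    by_cases hk : k ≤ S.card
    · obtain ⟨A, hA, hAk⟩ := Finset.exists_subset_card_eq hk
      rw [ind_true hk]
      have h3 : ind (A ⊆ S) ≤ ∑ A ∈ E.powersetCard k, ind (A ⊆ S) :=
        Finset.single_le_sum (f := fun A => ind (A ⊆ S)) (fun _ _ => ind_nonneg _)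
          (Finset.mem_powersetCard.2 ⟨hA.trans hS, hAk⟩)
      rwa [ind_true hA] at h3
    · rw [ind_false hk]
      exact Finset.sum_nonneg fun _ _ => ind_nonneg _
  refine h2.trans (le_of_eq ?_)
  rw [BE_sum, Finset.sum_congr rfl (g := fun _ => p ^ k), Finset.sum_const,
    Finset.card_powersetCard, nsmul_eq_mul]
  intro A hA
  rw [Finset.mem_powersetCard] at hA
  rw [BE_subset hA.1, hA.2]

/-- Q8: tails of the degree of the vertex 0 and maximum degree. `|nb n G 0|` is Bin(n-1,c/n):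
`P(deg ≥ k) ≤ C(n,k)(c/n)^k ≤ c^k/k!`. -/
theorem deg_tail {c : ℝ} (hc : 0 < c) : ∀ ε : ℝ, 0 < ε → ∃ k0 : ℕ, ∀ᶠ n : ℕ in atTop,
    Ex n (c / n) (fun G => ((nb n G 0).card : ℝ) * ind (k0 < (nb n G 0).card)) ≤ ε := by
  intro ε hε
  obtain ⟨k0, hk0⟩ := exists_nat_ge ((c + c ^ 2) / ε)
  refine ⟨k0, ?_⟩
  filter_upwards [cn_eventually hc, eventually_ge_atTop 1] with n hn hn1
  have h0 : 0 ≤ c / (n : ℝ) := hn.1.le
  have h1 : c / (n : ℝ) ≤ 1 := by linarith [hn.2]
  have hk1 : (0 : ℝ) < (k0 : ℝ) + 1 := by positivity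
  have hn0 : (0 : ℝ) < n := by exact_mod_cast hn1
  have h2 := q8_deg n hn1 (c / n) (fun m => (m : ℝ) * ind (k0 < m))
  rw [h2]
  have h3 : BE ((range n).erase 0) (c / n) (fun N => (N.card : ℝ) * ind (k0 < N.card)) ≤
      BE ((range n).erase 0) (c / n) (fun N => (N.card : ℝ) ^ 2 * (1 / ((k0 : ℝ) + 1))) := by
    refine BE_mono h0 h1 fun S _ => ?_
    by_cases h : k0 < S.card
    · rw [ind_true h, mul_one, mul_one_div, le_div_iff₀ hk1, sq]
      have h4 : (k0 : ℝ) + 1 ≤ S.card := by exact_mod_cast h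
      exact mul_le_mul_of_nonneg_left h4 (by positivity)
    · rw [ind_false h, mul_zero]
      positivity
  refine h3.trans ?_
  rw [BE_mul_right]
  have h4 := q8_sq ((range n).erase 0) h0 h1
  have h5 : c / (n : ℝ) * (((range n).erase 0).card : ℝ) ≤ c := by
    rw [q8_card_erase n hn1, div_mul_eq_mul_div, div_le_iff₀ hn0]
    refine mul_le_mul_of_nonneg_left ?_ hc.le
    exact_mod_cast Nat.sub_le n 1
  have h6 : 0 ≤ c / (n : ℝ) * (((range n).erase 0).card : ℝ) := by positivity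
  have h7 : BE ((range n).erase 0) (c / n) (fun S => (S.card : ℝ) ^ 2) ≤ c + c ^ 2 := by
    nlinarith
  rw [mul_one_div, div_le_iff₀ hk1]
  rw [div_le_iff₀ hε] at hk0
  nlinarith

theorem deg_tail_pr {c : ℝ} (hc : 0 < c) : ∀ ε : ℝ, 0 < ε → ∃ k0 : ℕ, ∀ᶠ n : ℕ in atTop,
    Pr n (c / n) (fun G => k0 < (nb n G 0).card) ≤ ε := by
  intro ε hε
  obtain ⟨k0, hk0⟩ := deg_tail hc ε hε
  refine ⟨k0, ?_⟩
  filter_upwards [hk0, cn_eventually hc] with n h hn
  refine le_trans ?_ h
  refine Ex_mono hn.1.le (by linarith [hn.2]) fun G _ => ?_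
  by_cases hk : k0 < (nb n G 0).card
  · rw [ind_true hk, mul_one]
    exact_mod_cast Nat.one_le_of_lt hk
  · rw [ind_false hk, mul_zero]

theorem Neg_maxdeg {c : ℝ} (hc : 0 < c) :
    Neg c (fun n G => ∃ v < n, (Nat.log 2 n) ^ 2 < (nb n G v).card) := by
  have hlog : Tendsto (fun n : ℕ => (Nat.log 2 n) ^ 2 + 1) atTop atTop := by
    rw [tendsto_atTop]
    intro b
    filter_upwards [eventually_ge_atTop (2 ^ b)] with n hn
    have h1 : b ≤ Nat.log 2 n := by
      have := Nat.log_mono_right (b := 2) hn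
      rwa [Nat.log_pow (by norm_num)] at this
    nlinarith [Nat.le_self_pow (n := 2) (by norm_num) (Nat.log 2 n)]
  have hlim : Tendsto (fun n : ℕ => 2 * ((2 * c) ^ ((Nat.log 2 n) ^ 2 + 1) /
      (((Nat.log 2 n) ^ 2 + 1).factorial : ℝ))) atTop (𝓝 0) := by
    have h1 := (FloorSemiring.tendsto_pow_div_factorial_atTop (2 * c)).comp hlog
    have h2 := h1.const_mul 2
    rw [mul_zero] at h2
    exact h2
  refine Neg_of_le hc hlim ?_
  filter_upwards [cn_eventually hc, eventually_ge_atTop 1] with n hn hn1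
  have h0 : 0 ≤ c / (n : ℝ) := hn.1.le
  have h1 : c / (n : ℝ) ≤ 1 := by linarith [hn.2]
  have hn0 : (0 : ℝ) < n := by exact_mod_cast hn1
  set ℓ := Nat.log 2 n with hℓ
  set k := ℓ ^ 2 + 1 with hk
  have h2 : Pr n (c / n) (fun G => ∃ v < n, ℓ ^ 2 < (nb n G v).card) ≤
      Ex n (c / n) (fun G => ∑ v ∈ range n, ind (ℓ ^ 2 < (nb n G v).card)) := by
    refine Ex_mono h0 h1 fun G _ => ?_
    by_cases h : ∃ v < n, ℓ ^ 2 < (nb n G v).card
    · rw [ind_true h]
      obtain ⟨v, hv, hvd⟩ := h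
      have h3 : ind (ℓ ^ 2 < (nb n G v).card) ≤
          ∑ v ∈ range n, ind (ℓ ^ 2 < (nb n G v).card) :=
        Finset.single_le_sum (f := fun v => ind (ℓ ^ 2 < (nb n G v).card))
          (fun _ _ => ind_nonneg _) (mem_range.2 hv)
      rwa [ind_true hvd] at h3
    · rw [ind_false h]
      exact Finset.sum_nonneg fun _ _ => ind_nonneg _
  refine h2.trans ?_
  have h3 := Ex_vertex_sum n (c / n) (fun v G => ind (ℓ ^ 2 < (nb n G v).card)) (by
    intro σ hσ v G
    change ind (ℓ ^ 2 < (nb n (G.image (Sym2.map σ)) (σ v)).card) =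
      ind (ℓ ^ 2 < (nb n G v).card)
    rw [nb_perm n σ hσ, Finset.card_image_of_injective _ σ.injective])
  rw [h3]
  have h4 := q8_deg n hn1 (c / n) (fun m => ind (ℓ ^ 2 < m))
  have h5 : Ex n (c / n) (fun G => ind (ℓ ^ 2 < (nb n G 0).card)) ≤ c ^ k / k.factorial := by
    rw [h4]
    have h6 := q8_tail ((range n).erase 0) h0 h1 k
    have h7 : BE ((range n).erase 0) (c / n) (fun N => ind (ℓ ^ 2 < N.card)) =
        BE ((range n).erase 0) (c / n) (fun N => ind (k ≤ N.card)) :=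
      BE_congr fun S _ => ind_congr Nat.lt_iff_add_one_le
    rw [h7]
    refine h6.trans ?_
    have h8 : ((((range n).erase 0).card.choose k : ℕ) : ℝ) ≤ (n : ℝ) ^ k / k.factorial := by
      have h9 : (((range n).erase 0).card.choose k) ≤ n.choose k := by
        rw [q8_card_erase n hn1]
        exact Nat.choose_le_choose k (Nat.sub_le n 1)
      refine le_trans (by exact_mod_cast h9) (Nat.choose_le_pow_div k n)
    calc ((((range n).erase 0).card.choose k : ℕ) : ℝ) * (c / n) ^ k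
        ≤ (n : ℝ) ^ k / k.factorial * (c / n) ^ k :=
          mul_le_mul_of_nonneg_right h8 (pow_nonneg h0 _)
      _ = c ^ k / k.factorial := by
          rw [div_pow]
          field_simp
  have h6 : (n : ℝ) ≤ 2 * 2 ^ k := by
    have h7 : n < 2 ^ (ℓ + 1) := Nat.lt_pow_succ_log_self (by norm_num) n
    have h8 : 2 ^ (ℓ + 1) ≤ 2 * 2 ^ k := by
      rw [pow_succ, mul_comm]
      refine Nat.mul_le_mul_left 2 (Nat.pow_le_pow_right (by norm_num) ?_)
      nlinarith [Nat.le_self_pow (n := 2) (by norm_num) ℓ]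
    exact_mod_cast (h7.le.trans h8)
  have h9 : (0 : ℝ) ≤ c ^ k / k.factorial := by positivity
  calc (n : ℝ) * Ex n (c / n) (fun G => ind (ℓ ^ 2 < (nb n G 0).card))
      ≤ (2 * 2 ^ k) * (c ^ k / k.factorial) :=
        mul_le_mul h6 h5 (Ex_nonneg h0 h1 fun _ _ => ind_nonneg _) (by positivity)
    _ = 2 * ((2 * c) ^ k / k.factorial) := by
        rw [mul_pow]
        ring

end Pool.Agent.Helper55.ML
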