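import Pool.Agent.Helper55.ML.Q2
import Pool.Agent.Helper55.ML.Q3
import Pool.Agent.Helper55.ML.Q5
import Pool.Agent.Helper55.ML.Q8
import Pool.Agent.Helper55.ML.Q10
import Pool.Agent.Helper55.ML.A0
import Pool.Agent.Helper55.ML.S0

set_option autoImplicit false
open Finset Filter Topology

namespace Pool.Agent.Helper55.ML

private theorem d1_BE_inter_card {α : Type*} [DecidableEq α] (E X : Finset α) (p : ℝ) :
    BE E p (fun N => ((N ∩ X).card : ℝ)) = p * ((X ∩ E).card : ℝ) := by
  rw [← BE_card, ← BE_inter (Finset.inter_subset_right : X ∩ E ⊆ E)]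
  refine BE_congr fun N hN => ?_
  have h : N ∩ X = N ∩ (X ∩ E) := by
    ext x
    simp only [Finset.mem_inter]
    exact ⟨fun h => ⟨h.1, h.2, hN h.1⟩, fun h => ⟨h.1, h.2.1⟩⟩
  rw [h]

private theorem d1_pointwise (d n k : ℕ) (G : Finset (Sym2 ℕ)) :
    ((Pt d n (k + 1) G \ Pt d n (k + 1) (del {0} G)).card : ℝ) ≤ 1 + ((nb n G 0).card : ℝ) +
      ∑ v ∈ range n, ((nb n G v ∩
        (Pt d n k (del {v} G) \ Pt d n k (del {0} (del {v} G)))).card : ℝ) := by
  classical
  set X : ℕ → Finset ℕ := fun v => nb n G v ∩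
    (Pt d n k (del {v} G) \ Pt d n k (del {0} (del {v} G))) with hX
  have hsub : Pt d n (k + 1) G \ Pt d n (k + 1) (del {0} G) ⊆
      ({0} ∪ nb n G 0) ∪ (range n).filter (fun v => (X v).Nonempty) := by
    intro v hv
    rw [Finset.mem_sdiff, mem_Pt_succ, mem_Pt_succ] at hv
    obtain ⟨⟨hvn, h1⟩, h2⟩ := hv
    have h3 : (nb n (del {0} G) v ∩ Pt d n k (del {v} (del {0} G))).card < d := by
      by_contra hcon
      exact h2 ⟨hvn, not_lt.1 hcon⟩
    by_cases hv0 : v = 0
    · subst hv0
      simp
    by_cases hadj : s(v, 0) ∈ G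
    · apply Finset.mem_union_left
      apply Finset.mem_union_right
      rw [mem_nb, Sym2.eq_swap]
      exact ⟨hvn, hadj⟩
    apply Finset.mem_union_right
    rw [Finset.mem_filter, Finset.mem_range]
    refine ⟨hvn, ?_⟩
    by_contra hne
    rw [Finset.not_nonempty_iff_eq_empty] at hne
    have h4 : nb n G v ∩ Pt d n k (del {v} G) ⊆
        nb n (del {0} G) v ∩ Pt d n k (del {v} (del {0} G)) := by
      intro z hz
      rw [Finset.mem_inter] at hz ⊢
      obtain ⟨hz1, hz2⟩ := hz
      have hz0 : z ≠ 0 := by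
        rintro rfl
        exact hadj (mem_nb.1 hz1).2
      refine ⟨?_, ?_⟩
      · rw [mem_nb, mem_del]
        refine ⟨(mem_nb.1 hz1).1, (mem_nb.1 hz1).2, ?_⟩
        intro x hx hx0
        rw [Finset.mem_singleton] at hx0
        rw [Sym2.mem_iff] at hx
        rcases hx with hx | hx
        · exact hv0 (hx ▸ hx0)
        · exact hz0 (hx ▸ hx0)
      · rw [del_del, Finset.union_comm, ← del_del]
        by_contra hcon
        have hmem : z ∈ X v := by
          rw [hX]
          exact Finset.mem_inter.2 ⟨hz1, Finset.mem_sdiff.2 ⟨hz2, hcon⟩⟩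
        rw [hne] at hmem
        exact absurd hmem (Finset.notMem_empty z)
    have h5 := Finset.card_le_card h4
    omega
  have h6 : ((Pt d n (k + 1) G \ Pt d n (k + 1) (del {0} G)).card : ℝ) ≤
      ((({0} ∪ nb n G 0) ∪ (range n).filter (fun v => (X v).Nonempty)).card : ℝ) := by
    exact_mod_cast Finset.card_le_card hsub
  have h7 : ((({0} ∪ nb n G 0) ∪ (range n).filter (fun v => (X v).Nonempty)).card : ℝ) ≤
      1 + ((nb n G 0).card : ℝ) + (((range n).filter (fun v => (X v).Nonempty)).card : ℝ) := by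
    have h8 := Finset.card_union_le ({0} ∪ nb n G 0)
      ((range n).filter (fun v => (X v).Nonempty))
    have h9 := Finset.card_union_le {0} (nb n G 0)
    rw [Finset.card_singleton] at h9
    exact_mod_cast h8.trans (Nat.add_le_add_right h9 _)
  have h10 : (((range n).filter (fun v => (X v).Nonempty)).card : ℝ) ≤
      ∑ v ∈ range n, ((X v).card : ℝ) := by
    rw [Finset.card_filter]
    push_cast
    refine Finset.sum_le_sum fun v _ => ?_
    by_cases h : (X v).Nonempty
    · rw [if_pos h]
      exact_mod_cast Finset.card_pos.2 h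
    · rw [if_neg h]
      positivity
  linarith

/-- D1 (hint): `E|Pt t G \ Pt t (del {w} G)| ≤ C_t` (for large `n`), by induction on `t`:
if `v ∈ Pt (t+1) G \ Pt (t+1) (del {w} G)` then `v = w`, or `w ∈ nb v`, or some `z ∈ nb v` lies in
`Pt t (del {v} G) \ Pt t (del {w} (del {v} G))`. Use `Ex_vertex`, `Ex_del_le`. -/
theorem Pt_stable {d : ℕ} {c : ℝ} (hc : 0 < c) (k : ℕ) : ∃ K : ℝ, ∀ᶠ n : ℕ in atTop,
    Ex n (c / n) (fun G => ((Pt d n k G \ Pt d n k (del {0} G)).card : ℝ)) ≤ K := by
  classical
  obtain ⟨a, ha, hae⟩ := one_sub_pow_lower hc 1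
  induction k with
  | zero =>
    refine ⟨0, Eventually.of_forall fun n => ?_⟩
    have h : ∀ G ⊆ En n, ((Pt d n 0 G \ Pt d n 0 (del {0} G)).card : ℝ) = 0 := by
      intro G _
      simp [Pt]
    rw [Ex_congr h, Ex_const]
  | succ k ih =>
    obtain ⟨K, hK⟩ := ih
    refine ⟨1 + c + c * (a⁻¹ * K), ?_⟩
    filter_upwards [hK, hae, cn_eventually hc, eventually_gt_atTop 0] with n hn1 hn2 hn3 hn4
    have hp0 : 0 ≤ c / (n : ℝ) := hn3.1.le
    have hp1 : c / (n : ℝ) ≤ 1 := by linarith [hn3.2]
    have hnpos : (0 : ℝ) < n := by exact_mod_cast hn4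
    set p := c / (n : ℝ) with hp
    have hpn : p * n = c := by rw [hp]; field_simp
    set f : Finset (Sym2 ℕ) → ℝ := fun H => ((Pt d n k H \ Pt d n k (del {0} H)).card : ℝ) with hf
    have hdel : ∀ v, Ex n p (fun G => f (del {v} G)) ≤ a⁻¹ * K := by
      intro v
      have h1 := Ex_del_le n hp0 hp1 {v} f (fun G _ => Nat.cast_nonneg _)
      rw [Finset.card_singleton] at h1
      have h2 : 0 ≤ Ex n p (fun G => f (del {v} G)) :=
        Ex_nonneg hp0 hp1 (fun G _ => Nat.cast_nonneg _)
      have h3 := (mul_le_mul_of_nonneg_right hn2 h2).trans (h1.trans hn1)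
      rw [inv_mul_eq_div, le_div_iff₀ ha]
      linarith
    have hnbv : ∀ v ∈ range n, Ex n p (fun G => ((nb n G v ∩
        (Pt d n k (del {v} G) \ Pt d n k (del {0} (del {v} G)))).card : ℝ)) ≤
        p * (a⁻¹ * K) := by
      intro v hv
      rw [Finset.mem_range] at hv
      have h1 := Ex_vertex n v hv p (fun H N => ((N ∩
        (Pt d n k H \ Pt d n k (del {0} H))).card : ℝ))
      rw [h1]
      calc Ex n p (fun G => BE ((range n).erase v) p (fun N => ((N ∩
            (Pt d n k (del {v} G) \ Pt d n k (del {0} (del {v} G)))).card : ℝ)))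
          ≤ Ex n p (fun G => p * f (del {v} G)) := by
            refine Ex_mono hp0 hp1 fun G _ => ?_
            rw [d1_BE_inter_card]
            refine mul_le_mul_of_nonneg_left ?_ hp0
            simp only [hf]
            exact_mod_cast Finset.card_le_card Finset.inter_subset_left
        _ = p * Ex n p (fun G => f (del {v} G)) := Ex_mul_left p
        _ ≤ p * (a⁻¹ * K) := mul_le_mul_of_nonneg_left (hdel v) hp0
    have hnb0 : Ex n p (fun G => ((nb n G 0).card : ℝ)) ≤ c := by
      have h1 := Ex_vertex n 0 hn4 p (fun _ N => (N.card : ℝ))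
      rw [h1]
      calc Ex n p (fun _ => BE ((range n).erase 0) p (fun N => (N.card : ℝ)))
          = p * (((range n).erase 0).card : ℝ) := by rw [Ex_const, BE_card]
        _ ≤ p * n := by
            refine mul_le_mul_of_nonneg_left ?_ hp0
            have := Finset.card_le_card (Finset.erase_subset 0 (range n))
            rw [Finset.card_range] at this
            exact_mod_cast this
        _ = c := hpn
    calc Ex n p (fun G => ((Pt d n (k + 1) G \ Pt d n (k + 1) (del {0} G)).card : ℝ))
        ≤ Ex n p (fun G => (1 + ((nb n G 0).card : ℝ)) +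
            ∑ v ∈ range n, ((nb n G v ∩
              (Pt d n k (del {v} G) \ Pt d n k (del {0} (del {v} G)))).card : ℝ)) :=
          Ex_mono hp0 hp1 fun G _ => d1_pointwise d n k G
      _ = (1 + Ex n p (fun G => ((nb n G 0).card : ℝ))) +
            ∑ v ∈ range n, Ex n p (fun G => ((nb n G v ∩
              (Pt d n k (del {v} G) \ Pt d n k (del {0} (del {v} G)))).card : ℝ)) := by
          rw [Ex_add, Ex_add, Ex_const, Ex_sum]
      _ ≤ (1 + c) + ∑ v ∈ range n, p * (a⁻¹ * K) := by
          have := Finset.sum_le_sum hnbv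
          linarith
      _ = 1 + c + c * (a⁻¹ * K) := by
          rw [Finset.sum_const, Finset.card_range, nsmul_eq_mul]
          linear_combination (a⁻¹ * K) * hpn

end Pool.Agent.Helper55.ML
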