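import Pool.Agent.Helper55.ML.D1

set_option autoImplicit false
open Finset Filter Topology

namespace Pool.Agent.Helper55.ML

/-- the density of `Pt` -/
private noncomputable def d1b_z (d k n : ℕ) (G : Finset (Sym2 ℕ)) : ℝ :=
  ((Pt d n k G).card : ℝ) / n

private theorem d1b_z_nonneg (d k n : ℕ) (G : Finset (Sym2 ℕ)) : 0 ≤ d1b_z d k n G := by
  unfold d1b_z; positivity

private theorem d1b_z_le_one (d k n : ℕ) (G : Finset (Sym2 ℕ)) : d1b_z d k n G ≤ 1 := by
  unfold d1b_z
  rcases Nat.eq_zero_or_pos n with h | h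
  · subst h; simp
  · rw [div_le_one (by exact_mod_cast h)]
    have := Finset.card_le_card (Pt_subset d n k G)
    rw [Finset.card_range] at this
    exact_mod_cast this

private theorem d1b_xt (d : ℕ) {c : ℝ} (hc : 0 < c) (k : ℕ) : 0 ≤ xt d c k ∧ xt d c k ≤ 1 := by
  induction k with
  | zero => exact ⟨zero_le_one, le_rfl⟩
  | succ k ih =>
    have h : xt d c (k + 1) = hp d (c * xt d c k) := by
      unfold xt
      rw [Function.iterate_succ_apply']
    rw [h]
    exact ⟨hp_nonneg d (mul_nonneg hc.le ih.1), hp_le_one d (mul_nonneg hc.le ih.1)⟩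

private theorem d1b_xt_succ (d : ℕ) (c : ℝ) (k : ℕ) : xt d c (k + 1) = hp d (c * xt d c k) := by
  unfold xt
  rw [Function.iterate_succ_apply']

private theorem d1b_tendsto {S : ℕ → ℝ} (h0 : ∀ᶠ n : ℕ in atTop, 0 ≤ S n)
    (h : ∀ ε : ℝ, 0 < ε → ∀ᶠ n : ℕ in atTop, S n ≤ ε) : Tendsto S atTop (𝓝 0) := by
  rw [Metric.tendsto_nhds]
  intro ε hε
  filter_upwards [h0, h (ε / 2) (by linarith)] with n h1 h2
  rw [Real.dist_eq, sub_zero, abs_of_nonneg h1]
  linarith

/-- the difference of the densities of `G` and of `G` minus the vertex `0` -/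
private theorem d1b_diff (d k n : ℕ) (G : Finset (Sym2 ℕ)) :
    |d1b_z d k n G - d1b_z d k n (del {0} G)| =
      ((Pt d n k G \ Pt d n k (del {0} G)).card : ℝ) / n := by
  have h1 : Pt d n k (del {0} G) ⊆ Pt d n k G := Pt_mono k (del_subset {0} G)
  have h2 := Finset.card_le_card h1
  have h3 : ((Pt d n k G \ Pt d n k (del {0} G)).card : ℝ) =
      (Pt d n k G).card - (Pt d n k (del {0} G)).card := by
    rw [Finset.card_sdiff_of_subset h1, Nat.cast_sub h2]
  rw [h3, d1b_z, d1b_z, ← sub_div, abs_of_nonneg]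
  refine div_nonneg ?_ (Nat.cast_nonneg n)
  have : ((Pt d n k (del {0} G)).card : ℝ) ≤ (Pt d n k G).card := by exact_mod_cast h2
  linarith

/-- the probability that `0` enters at step `k + 1`, given the rest -/
private noncomputable def d1b_b (d k n : ℕ) (p : ℝ) (H : Finset (Sym2 ℕ)) : ℝ :=
  BE ((range n).erase 0) p (fun N => ind (d ≤ (N ∩ Pt d n k H).card))

private theorem d1b_b_eq (d k n : ℕ) (p : ℝ) (H : Finset (Sym2 ℕ)) :
    d1b_b d k n p H = BE ((Pt d n k H).erase 0) p (fun N => ind (d ≤ N.card)) := by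
  have h1 : (Pt d n k H).erase 0 ⊆ (range n).erase 0 :=
    Finset.erase_subset_erase 0 (Pt_subset d n k H)
  rw [← BE_inter h1 p (fun N => ind (d ≤ N.card))]
  unfold d1b_b
  refine BE_congr fun N hN => ?_
  have h2 : N ∩ Pt d n k H = N ∩ (Pt d n k H).erase 0 := by
    ext x
    rw [Finset.mem_inter, Finset.mem_inter, Finset.mem_erase]
    constructor
    · rintro ⟨h3, h4⟩
      exact ⟨h3, (Finset.mem_erase.1 (hN h3)).1, h4⟩
    · rintro ⟨h3, -, h4⟩
      exact ⟨h3, h4⟩
  rw [h2]

private theorem d1b_b_approx {d : ℕ} {c : ℝ} (hc : 0 < c) (k : ℕ) (ε : ℝ) (hε : 0 < ε) :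
    ∀ᶠ n : ℕ in atTop, ∀ H : Finset (Sym2 ℕ),
      |d1b_b d k n (c / n) H - hp d (c * d1b_z d k n H)| ≤ ε + c / n := by
  filter_upwards [poisson_ge hc d ε hε, eventually_ge_atTop 1] with n hn h1 H
  have h0 : (0 : ℝ) < n := by exact_mod_cast h1
  rw [d1b_b_eq]
  have hM : ((Pt d n k H).erase 0).card ≤ (Pt d n k H).card := Finset.card_erase_le
  have hM1 : (Pt d n k H).card ≤ ((Pt d n k H).erase 0).card + 1 := by
    have := Finset.pred_card_le_card_erase (s := Pt d n k H) (a := 0)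
    omega
  have hMn : ((Pt d n k H).erase 0).card ≤ n := by
    have := Finset.card_le_card (Pt_subset d n k H)
    rw [Finset.card_range] at this
    omega
  have h2 := hn ((Pt d n k H).erase 0) hMn
  have h3 : |hp d (c * (((Pt d n k H).erase 0).card : ℝ) / n) - hp d (c * d1b_z d k n H)| ≤
      c / n := by
    refine (hp_lip d (by positivity) (mul_nonneg hc.le (d1b_z_nonneg d k n H))).trans ?_
    unfold d1b_z
    have e1 : c * (((Pt d n k H).erase 0).card : ℝ) / n - c * (((Pt d n k H).card : ℝ) / n) =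
        -(c / n * (((Pt d n k H).card : ℝ) - (((Pt d n k H).erase 0).card : ℝ))) := by
      ring
    have h4 : (((Pt d n k H).erase 0).card : ℝ) ≤ (Pt d n k H).card := by exact_mod_cast hM
    have h5 : ((Pt d n k H).card : ℝ) ≤ (((Pt d n k H).erase 0).card : ℝ) + 1 := by
      exact_mod_cast hM1
    have h6 : 0 < c / n := by positivity
    rw [e1, abs_neg, abs_of_nonneg (mul_nonneg h6.le (by linarith))]
    calc c / n * (((Pt d n k H).card : ℝ) - (((Pt d n k H).erase 0).card : ℝ))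
        ≤ c / n * 1 := mul_le_mul_of_nonneg_left (by linarith) h6.le
      _ = c / n := mul_one _
  calc |BE ((Pt d n k H).erase 0) (c / n) (fun N => ind (d ≤ N.card)) -
        hp d (c * d1b_z d k n H)|
      ≤ |BE ((Pt d n k H).erase 0) (c / n) (fun N => ind (d ≤ N.card)) -
          hp d (c * (((Pt d n k H).erase 0).card : ℝ) / n)| +
        |hp d (c * (((Pt d n k H).erase 0).card : ℝ) / n) - hp d (c * d1b_z d k n H)| :=
        abs_sub_le _ _ _
    _ ≤ ε + c / n := add_le_add h2 h3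

/-- symmetry and exposure of the vertex `0` -/
private theorem d1b_expose (d k n : ℕ) (hn : 1 ≤ n) (p x : ℝ) :
    Ex n p (fun G => d1b_z d (k + 1) n G * (d1b_z d (k + 1) n G - x)) =
      Ex n p (fun G => ind (0 ∈ Pt d n (k + 1) G) * (d1b_z d (k + 1) n G - x)) := by
  have h0 : (0 : ℝ) < n := by exact_mod_cast hn
  have hs := Ex_vertex_sum n p
    (fun v G => ind (v ∈ Pt d n (k + 1) G) * (d1b_z d (k + 1) n G - x)) (by
      intro σ hσ v G
      have h1 : (σ v ∈ Pt d n (k + 1) (G.image (Sym2.map σ))) ↔ v ∈ Pt d n (k + 1) G := by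
        rw [Pt_perm d n (k + 1) σ hσ G, Finset.mem_image]
        constructor
        · rintro ⟨u, hu, h2⟩
          rwa [← σ.injective h2]
        · exact fun h => ⟨v, h, rfl⟩
      have h2 : d1b_z d (k + 1) n (G.image (Sym2.map σ)) = d1b_z d (k + 1) n G := by
        unfold d1b_z
        rw [Pt_perm d n (k + 1) σ hσ G, Finset.card_image_of_injective _ σ.injective]
      rw [ind_congr h1, h2])
  have h3 : Ex n p (fun G => ∑ v ∈ range n,
      ind (v ∈ Pt d n (k + 1) G) * (d1b_z d (k + 1) n G - x)) =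
      n * Ex n p (fun G => d1b_z d (k + 1) n G * (d1b_z d (k + 1) n G - x)) := by
    rw [← Ex_mul_left]
    refine Ex_congr fun G _ => ?_
    rw [← Finset.sum_mul]
    have h4 : (∑ v ∈ range n, ind (v ∈ Pt d n (k + 1) G)) = ((Pt d n (k + 1) G).card : ℝ) := by
      have h5 : ∀ v ∈ range n, ind (v ∈ Pt d n (k + 1) G) =
          if v ∈ Pt d n (k + 1) G then (1 : ℝ) else 0 := by
        intro v _
        by_cases h6 : v ∈ Pt d n (k + 1) G
        · rw [ind_true h6, if_pos h6]
        · rw [ind_false h6, if_neg h6]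
      rw [Finset.sum_congr rfl h5, Finset.sum_ite_mem, Finset.inter_eq_right.2 (Pt_subset d n _ G),
        Finset.sum_const, nsmul_eq_mul, mul_one]
    rw [h4]
    unfold d1b_z
    field_simp
  rw [h3] at hs
  exact mul_left_cancel₀ h0.ne' hs

/-- the exposure identity -/
private theorem d1b_expose2 (d k n : ℕ) (hn : 1 ≤ n) (p : ℝ) (g : Finset (Sym2 ℕ) → ℝ) :
    Ex n p (fun G => ind (0 ∈ Pt d n (k + 1) G) * g (del {0} G)) =
      Ex n p (fun G => d1b_b d k n p (del {0} G) * g (del {0} G)) := by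
  have h := Ex_vertex n 0 (by omega) p
    (fun H N => ind (d ≤ (N ∩ Pt d n k H).card) * g H)
  have h1 : Ex n p (fun G => ind (0 ∈ Pt d n (k + 1) G) * g (del {0} G)) =
      Ex n p (fun G => ind (d ≤ (nb n G 0 ∩ Pt d n k (del {0} G)).card) * g (del {0} G)) := by
    refine Ex_congr fun G _ => ?_
    have h2 : 0 ∈ Pt d n (k + 1) G ↔ d ≤ (nb n G 0 ∩ Pt d n k (del {0} G)).card := by
      rw [mem_Pt_succ]
      exact ⟨fun h => h.2, fun h => ⟨by omega, h⟩⟩
    rw [ind_congr h2]
  rw [h1]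
  refine h.trans (Ex_congr fun G _ => ?_)
  rw [BE_mul_right]
  rfl

private theorem d1b_step {d : ℕ} (hd : 1 ≤ d) {c : ℝ} (hc : 0 < c) (k : ℕ)
    (ih : Tendsto (fun n : ℕ => Ex n (c / n) (fun G => |d1b_z d k n G - xt d c k|)) atTop (𝓝 0)) :
    Tendsto (fun n : ℕ => Ex n (c / n)
      (fun G => (d1b_z d (k + 1) n G - xt d c (k + 1)) ^ 2)) atTop (𝓝 0) := by
  obtain ⟨K, hK⟩ := Pt_stable (d := d) hc k
  obtain ⟨K', hK'⟩ := Pt_stable (d := d) hc (k + 1)
  have hx := d1b_xt d hc (k + 1)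
  have hxk := d1b_xt d hc k
  have hcnE := cn_eventually hc
  refine d1b_tendsto ?_ ?_
  · filter_upwards [hcnE] with n h1
    exact Ex_nonneg h1.1.le (by linarith [h1.2]) fun _ _ => sq_nonneg _
  intro ε hε
  have hε3 : 0 < ε / 3 := by linarith
  -- the error terms tend to zero
  have herr : Tendsto (fun n : ℕ => c * Ex n (c / n) (fun G => |d1b_z d k n G - xt d c k|) +
      (c + (c * K + 2 * K')) * ((n : ℝ))⁻¹) atTop (𝓝 0) := by
    have h1 := ih.const_mul c
    have h2 := (tendsto_inv_atTop_nhds_zero_nat (𝕜 := ℝ)).const_mul (c + (c * K + 2 * K'))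
    have h3 := h1.add h2
    rwa [mul_zero, mul_zero, add_zero] at h3
  have herr' := herr.eventually (gt_mem_nhds hε3)
  filter_upwards [hcnE, hK, hK', d1b_b_approx (d := d) hc k (ε / 3) hε3, herr',
    eventually_ge_atTop 1] with n hpn hKn hKn' hb herrn hn
  have h0 : (0 : ℝ) < n := by exact_mod_cast hn
  have hp0 : 0 ≤ c / (n : ℝ) := hpn.1.le
  have hp1 : c / (n : ℝ) ≤ 1 := by linarith [hpn.2]
  set p : ℝ := c / n with hpdef
  set x : ℝ := xt d c (k + 1) with hxdef
  have habs : ∀ G : Finset (Sym2 ℕ), |d1b_z d (k + 1) n G - x| ≤ 1 := by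
    intro G
    have h1 := d1b_z_nonneg d (k + 1) n G
    have h2 := d1b_z_le_one d (k + 1) n G
    rw [abs_le]
    constructor <;> linarith [hx.1, hx.2]
  have hhp : ∀ G : Finset (Sym2 ℕ), |hp d (c * d1b_z d k n G)| ≤ 1 := by
    intro G
    have h1 := hp_nonneg d (mul_nonneg hc.le (d1b_z_nonneg d k n G))
    have h2 := hp_le_one d (mul_nonneg hc.le (d1b_z_nonneg d k n G))
    rw [abs_of_nonneg h1]
    exact h2
  -- expectations of the differences
  have hD : Ex n p (fun G => |d1b_z d k n G - d1b_z d k n (del {0} G)|) ≤ K * (n : ℝ)⁻¹ := by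
    have h1 : Ex n p (fun G => |d1b_z d k n G - d1b_z d k n (del {0} G)|) =
        Ex n p (fun G => ((Pt d n k G \ Pt d n k (del {0} G)).card : ℝ)) * (n : ℝ)⁻¹ := by
      rw [← Ex_mul_right]
      exact Ex_congr fun G _ => by rw [d1b_diff, div_eq_mul_inv]
    rw [h1]
    exact mul_le_mul_of_nonneg_right hKn (inv_nonneg.2 h0.le)
  have hD' : Ex n p (fun G => |d1b_z d (k + 1) n G - d1b_z d (k + 1) n (del {0} G)|) ≤
      K' * (n : ℝ)⁻¹ := by
    have h1 : Ex n p (fun G => |d1b_z d (k + 1) n G - d1b_z d (k + 1) n (del {0} G)|) =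
        Ex n p (fun G => ((Pt d n (k + 1) G \ Pt d n (k + 1) (del {0} G)).card : ℝ)) *
          (n : ℝ)⁻¹ := by
      rw [← Ex_mul_right]
      exact Ex_congr fun G _ => by rw [d1b_diff, div_eq_mul_inv]
    rw [h1]
    exact mul_le_mul_of_nonneg_right hKn' (inv_nonneg.2 h0.le)
  -- step 2
  have s2 : Ex n p (fun G => ind (0 ∈ Pt d n (k + 1) G) * (d1b_z d (k + 1) n G - x)) ≤
      Ex n p (fun G => ind (0 ∈ Pt d n (k + 1) G) * (d1b_z d (k + 1) n (del {0} G) - x)) +
        K' * (n : ℝ)⁻¹ := by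
    refine le_trans ?_ (add_le_add_right hD' _)
    rw [← Ex_add]
    refine Ex_mono hp0 hp1 fun G _ => ?_
    have h1 := ind_nonneg (0 ∈ Pt d n (k + 1) G)
    have h2 := ind_le_one (0 ∈ Pt d n (k + 1) G)
    have h3 := le_abs_self (d1b_z d (k + 1) n G - d1b_z d (k + 1) n (del {0} G))
    have h4 := abs_nonneg (d1b_z d (k + 1) n G - d1b_z d (k + 1) n (del {0} G))
    nlinarith
  -- step 5
  have s5 : Ex n p (fun G => d1b_b d k n p (del {0} G) * (d1b_z d (k + 1) n (del {0} G) - x)) ≤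
      Ex n p (fun G => hp d (c * d1b_z d k n (del {0} G)) *
        (d1b_z d (k + 1) n (del {0} G) - x)) + (ε / 3 + c / n) := by
    have h1 : Ex n p (fun G => hp d (c * d1b_z d k n (del {0} G)) *
        (d1b_z d (k + 1) n (del {0} G) - x)) + (ε / 3 + c / n) =
        Ex n p (fun G => hp d (c * d1b_z d k n (del {0} G)) *
        (d1b_z d (k + 1) n (del {0} G) - x) + (ε / 3 + c / n)) := by
      rw [Ex_add (g := fun _ => ε / 3 + c / (n : ℝ)), Ex_const]
    rw [h1]
    refine Ex_mono hp0 hp1 fun G _ => ?_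
    have h2 := hb (del {0} G)
    have h3 := habs (del {0} G)
    have h4 : (d1b_b d k n p (del {0} G) - hp d (c * d1b_z d k n (del {0} G))) *
        (d1b_z d (k + 1) n (del {0} G) - x) ≤ (ε / 3 + c / n) * 1 := by
      refine (le_abs_self _).trans ?_
      rw [abs_mul]
      exact mul_le_mul h2 h3 (abs_nonneg _) (by positivity)
    linarith
  -- step 6
  have s6 : Ex n p (fun G => hp d (c * d1b_z d k n (del {0} G)) *
      (d1b_z d (k + 1) n (del {0} G) - x)) ≤
      Ex n p (fun G => hp d (c * d1b_z d k n G) * (d1b_z d (k + 1) n G - x)) +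
        (c * (K * (n : ℝ)⁻¹) + K' * (n : ℝ)⁻¹) := by
    refine le_trans ?_ (add_le_add_right
      (add_le_add (mul_le_mul_of_nonneg_left hD hc.le) hD') _)
    rw [← Ex_mul_left, ← Ex_add, ← Ex_add]
    refine Ex_mono hp0 hp1 fun G _ => ?_
    have h1 := hp_lip d (mul_nonneg hc.le (d1b_z_nonneg d k n (del {0} G)))
      (mul_nonneg hc.le (d1b_z_nonneg d k n G))
    have h2 : |c * d1b_z d k n (del {0} G) - c * d1b_z d k n G| =
        c * |d1b_z d k n G - d1b_z d k n (del {0} G)| := by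
      rw [← mul_sub, abs_mul, abs_of_pos hc, abs_sub_comm]
    rw [h2] at h1
    have h3 := habs (del {0} G)
    have h4 := hhp G
    have h5 : (hp d (c * d1b_z d k n (del {0} G)) - hp d (c * d1b_z d k n G)) *
        (d1b_z d (k + 1) n (del {0} G) - x) ≤
        c * |d1b_z d k n G - d1b_z d k n (del {0} G)| * 1 := by
      refine (le_abs_self _).trans ?_
      rw [abs_mul]
      exact mul_le_mul h1 h3 (abs_nonneg _) (by positivity)
    have h6 : hp d (c * d1b_z d k n G) *
        (d1b_z d (k + 1) n (del {0} G) - d1b_z d (k + 1) n G) ≤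
        1 * |d1b_z d (k + 1) n G - d1b_z d (k + 1) n (del {0} G)| := by
      refine (le_abs_self _).trans ?_
      rw [abs_mul, abs_sub_comm (d1b_z d (k + 1) n (del {0} G))]
      exact mul_le_mul_of_nonneg_right h4 (abs_nonneg _)
    linarith
  -- step 7
  have s7 : Ex n p (fun G => hp d (c * d1b_z d k n G) * (d1b_z d (k + 1) n G - x)) -
      x * Ex n p (fun G => d1b_z d (k + 1) n G - x) ≤
      c * Ex n p (fun G => |d1b_z d k n G - xt d c k|) := by
    rw [← Ex_mul_left, ← Ex_mul_left, ← Ex_sub]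
    refine Ex_mono hp0 hp1 fun G _ => ?_
    have h1 := hp_lip d (mul_nonneg hc.le (d1b_z_nonneg d k n G)) (mul_nonneg hc.le hxk.1)
    have h2 : |c * d1b_z d k n G - c * xt d c k| = c * |d1b_z d k n G - xt d c k| := by
      rw [← mul_sub, abs_mul, abs_of_pos hc]
    rw [h2, ← d1b_xt_succ, ← hxdef] at h1
    have h3 : (hp d (c * d1b_z d k n G) - x) * (d1b_z d (k + 1) n G - x) ≤
        c * |d1b_z d k n G - xt d c k| * 1 := by
      refine (le_abs_self _).trans ?_
      rw [abs_mul]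
      exact mul_le_mul h1 (habs G) (abs_nonneg _) (by positivity)
    linarith
  have s0 : Ex n p (fun G => (d1b_z d (k + 1) n G - x) ^ 2) =
      Ex n p (fun G => d1b_z d (k + 1) n G * (d1b_z d (k + 1) n G - x)) -
        x * Ex n p (fun G => d1b_z d (k + 1) n G - x) := by
    rw [← Ex_mul_left, ← Ex_sub]
    exact Ex_congr fun G _ => by ring
  have s1 := d1b_expose d k n hn p x
  have s3 := d1b_expose2 d k n hn p (fun H => d1b_z d (k + 1) n H - x)
  have hcn : c / (n : ℝ) = c * (n : ℝ)⁻¹ := div_eq_mul_inv _ _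
  rw [s0, s1]
  rw [s3] at s2
  rw [hcn] at s5
  linarith

private theorem d1b_all {d : ℕ} (hd : 1 ≤ d) {c : ℝ} (hc : 0 < c) (k : ℕ) :
    Tendsto (fun n : ℕ => Ex n (c / n)
      (fun G => (d1b_z d k n G - xt d c k) ^ 2)) atTop (𝓝 0) := by
  induction k with
  | zero =>
    refine (tendsto_congr' ?_).2 tendsto_const_nhds
    filter_upwards [eventually_ge_atTop 1] with n hn
    have h0 : (0 : ℝ) < n := by exact_mod_cast hn
    have h1 : Ex n (c / n) (fun G => (d1b_z d 0 n G - xt d c 0) ^ 2) =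
        Ex n (c / n) (fun _ => (0 : ℝ)) := by
      refine Ex_congr fun G _ => ?_
      have h2 : d1b_z d 0 n G = 1 := by
        unfold d1b_z Pt
        rw [Finset.card_range]
        exact div_self h0.ne'
      have h3 : xt d c 0 = 1 := rfl
      rw [h2, h3]
      ring
    rw [h1, Ex_const]
  | succ k ih =>
    refine d1b_step hd hc k ?_
    have h1 := (Real.continuous_sqrt.tendsto 0).comp ih
    rw [Real.sqrt_zero] at h1
    refine squeeze_zero' ?_ ?_ h1
    · filter_upwards [cn_eventually hc] with n hn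
      exact Ex_nonneg hn.1.le (by linarith [hn.2]) fun _ _ => abs_nonneg _
    · filter_upwards [cn_eventually hc] with n hn
      rw [Function.comp_apply]
      refine Real.le_sqrt_of_sq_le ?_
      have h2 := BE_cauchy (En n) hn.1.le (by linarith [hn.2])
        (fun G => |d1b_z d k n G - xt d c k|) (fun _ => (1 : ℝ))
      have h3 : BE (En n) (c / n) (fun G => |d1b_z d k n G - xt d c k| * (1 : ℝ)) =
          Ex n (c / n) (fun G => |d1b_z d k n G - xt d c k|) :=
        BE_congr fun G _ => mul_one _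
      have h4 : BE (En n) (c / n) (fun _ : Finset (Sym2 ℕ) => (1 : ℝ) ^ 2) = 1 := by
        rw [BE_const]
        norm_num
      have h5 : BE (En n) (c / n) (fun G => |d1b_z d k n G - xt d c k| ^ 2) =
          Ex n (c / n) (fun G => (d1b_z d k n G - xt d c k) ^ 2) :=
        BE_congr fun G _ => sq_abs _
      rw [h3, h4, h5, mul_one] at h2
      exact h2

/-- (hint) with `z_k = |Pt k G|/n`: `E[z_{k+1} ψ(z_{k+1})] = E[hp d (c z_k) ψ(z_{k+1})] + o(1)` by
exposing the vertex `0` (as in C2); with `ψ(u) = u - xt (k+1)` and induction this gives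
`E (z_{k+1} - xt (k+1))^2 → 0`. -/
theorem Pt_conc {d : ℕ} (hd : 1 ≤ d) {c : ℝ} (hc : 0 < c) (k : ℕ) {η : ℝ} (hη : 0 < η) :
    Neg c (fun n G => η ≤ |((Pt d n k G).card : ℝ) / n - xt d c k|) := by
  have h1 := (d1b_all hd hc k).const_mul (1 / η ^ 2)
  rw [mul_zero] at h1
  refine Neg_of_le hc h1 ?_
  filter_upwards [cn_eventually hc] with n hn
  rw [← Ex_mul_left]
  refine Ex_mono hn.1.le (by linarith [hn.2]) fun G _ => ?_
  by_cases h2 : η ≤ |((Pt d n k G).card : ℝ) / n - xt d c k|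
  · rw [ind_true h2]
    have h3 : η ^ 2 ≤ (d1b_z d k n G - xt d c k) ^ 2 := by
      rw [← sq_abs (d1b_z d k n G - xt d c k)]
      exact pow_le_pow_left₀ hη.le h2 2
    have h4 : 0 < η ^ 2 := by positivity
    calc (1 : ℝ) = 1 / η ^ 2 * η ^ 2 := by field_simp
      _ ≤ 1 / η ^ 2 * (d1b_z d k n G - xt d c k) ^ 2 :=
        mul_le_mul_of_nonneg_left h3 (by positivity)
  · rw [ind_false h2]
    positivity

end Pool.Agent.Helper55.ML
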