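import Pool.Agent.Helper55.ML.F2
import Pool.Agent.Helper55.ML.D1

set_option autoImplicit false
open Finset Filter Topology

namespace Pool.Agent.Helper55.ML

private theorem d2_vertex (n : ℕ) (hn : 0 < n) {p : ℝ} (h0 : 0 ≤ p) (h1 : p ≤ 1)
    (M : Finset (Sym2 ℕ) → Finset ℕ) :
    Ex n p (fun G => ((nb n G 0 ∩ M (del {0} G)).card : ℝ)) ≤
      p * Ex n p (fun G => ((M (del {0} G)).card : ℝ)) := by
  have h := Ex_vertex n 0 hn p (fun H N => ((N ∩ M H).card : ℝ))
  rw [h, ← Ex_mul_left]
  refine Ex_mono h0 h1 fun G _ => ?_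
  have h2 : BE ((range n).erase 0) p (fun N => ((N ∩ M (del {0} G)).card : ℝ)) =
      p * (((range n).erase 0 ∩ M (del {0} G)).card : ℝ) := by
    rw [← BE_card, ← BE_inter (inter_subset_left (s₁ := (range n).erase 0)
      (s₂ := M (del {0} G))) p (fun S => (S.card : ℝ))]
    refine BE_congr fun N hN => ?_
    congr 2
    ext x
    simp only [mem_inter]
    constructor
    · rintro ⟨a, b⟩; exact ⟨a, hN a, b⟩
    · rintro ⟨a, _, b⟩; exact ⟨a, b⟩
  rw [h2]
  refine mul_le_mul_of_nonneg_left ?_ h0
  exact_mod_cast card_le_card inter_subset_right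

private theorem d2_count {d t : ℕ} (R : Rig d t) (δ : ℝ) (n k : ℕ) (p : ℝ) (hn : 0 < n) :
    Ex n p (fun G => ((R.Y δ n G \ Pt d n k G).card : ℝ) / n) =
      Ex n p (fun G => ind (0 ∈ R.Y δ n G \ Pt d n k G)) := by
  have hn' : (n : ℝ) ≠ 0 := by exact_mod_cast hn.ne'
  have hsum := Ex_vertex_sum n p (fun v G => ind (v ∈ R.Y δ n G \ Pt d n k G)) (by
    intro σ hσ v G
    refine ind_congr ?_
    rw [R.Y_perm δ n σ hσ G, Pt_perm d n k σ hσ G, ← image_sdiff _ _ σ.injective, mem_image]
    constructor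
    · rintro ⟨w, hw, he⟩
      rwa [← σ.injective he]
    · intro h; exact ⟨v, h, rfl⟩)
  have hcount : ∀ G : Finset (Sym2 ℕ), (∑ v ∈ range n, ind (v ∈ R.Y δ n G \ Pt d n k G)) =
      ((R.Y δ n G \ Pt d n k G).card : ℝ) := by
    intro G
    have hsub : R.Y δ n G \ Pt d n k G ⊆ range n := sdiff_subset.trans R.Y_subset
    rw [← sum_subset hsub (fun v _ hv => ind_false hv),
      sum_congr rfl (fun v hv => ind_true hv), sum_const, nsmul_eq_mul, mul_one]
  have e1 : Ex n p (fun G => ((R.Y δ n G \ Pt d n k G).card : ℝ)) =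
      n * Ex n p (fun G => ind (0 ∈ R.Y δ n G \ Pt d n k G)) := by
    rw [← hsum]
    exact Ex_congr fun G _ => (hcount G).symm
  have e2 : Ex n p (fun G => ((R.Y δ n G \ Pt d n k G).card : ℝ) / n) =
      Ex n p (fun G => ((R.Y δ n G \ Pt d n k G).card : ℝ)) * (n : ℝ)⁻¹ := by
    rw [← Ex_mul_right]
    exact Ex_congr fun G _ => by rw [div_eq_mul_inv]
  rw [e2, e1]
  field_simp

/-- D2 (hint): induction on `k`: `0 ∈ Y(G) \ Pt (k+1) G` implies (C1 whp) that `nb 0` meets
`Y(del {0} G) \ Pt k (del {0} G)`, probability at most `p E|Y(G') \ Pt k G'|`, `Ex_vertex`,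
`Van_del`. -/
theorem Rig.Y_sub_Pt {d t : ℕ} (R : Rig d t) {c δ : ℝ} (hS : Std R c δ) (k : ℕ) :
    Van c (fun n G => ((R.Y δ n G \ Pt d n k G).card : ℝ) / n) := by
  have hc := hS.hc
  induction k with
  | zero =>
    have h2 : (fun (n : ℕ) (G : Finset (Sym2 ℕ)) => ((R.Y δ n G \ Pt d n 0 G).card : ℝ) / n) =
        fun _ _ => (0 : ℝ) := by
      funext n G
      have : R.Y δ n G \ Pt d n 0 G = ∅ := by
        rw [sdiff_eq_empty_iff_subset]
        exact R.Y_subset
      rw [this]; simp
    rw [h2]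
    unfold Van
    have h3 : (fun n : ℕ => Ex n (c / n) (fun _ => (0 : ℝ))) = fun _ => 0 := by
      funext n
      exact Ex_const 0
    rw [h3]
    exact tendsto_const_nhds
  | succ k ih =>
    have hdel := Van_del hc (f := fun n G => ((R.Y δ n G \ Pt d n k G).card : ℝ) / n)
      (fun n G => by positivity) ih {0}
    have hC1 := R.C1 hS
    unfold Neg at hC1
    unfold Van at hdel ⊢
    have hlim := hC1.add (hdel.const_mul c)
    rw [mul_zero, add_zero] at hlim
    refine squeeze_zero' ?_ ?_ hlim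
    · filter_upwards [cn_eventually hc] with n hn
      exact Ex_nonneg hn.1.le (by linarith [hn.2]) (fun G _ => by positivity)
    · filter_upwards [cn_eventually hc, eventually_gt_atTop 0] with n hn hn0
      have hp0 := hn.1.le
      have hp1 : c / (n : ℝ) ≤ 1 := by linarith [hn.2]
      have hn' : (0 : ℝ) < n := by exact_mod_cast hn0
      rw [d2_count R δ n (k + 1) _ hn0]
      have hpt : ∀ G ⊆ En n, ind (0 ∈ R.Y δ n G \ Pt d n (k + 1) G) ≤
          ind (¬ (0 ∈ R.Y δ n G ↔ d ≤ (nb n G 0 ∩ R.Y δ n (del {0} G)).card)) +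
          ((nb n G 0 ∩ (fun H => R.Y δ n H \ Pt d n k H) (del {0} G)).card : ℝ) := by
        intro G _
        by_cases hbad : ¬ (0 ∈ R.Y δ n G ↔ d ≤ (nb n G 0 ∩ R.Y δ n (del {0} G)).card)
        · rw [ind_true hbad]
          have := ind_le_one (0 ∈ R.Y δ n G \ Pt d n (k + 1) G)
          have h3 : (0 : ℝ) ≤ ((nb n G 0 ∩ (fun H => R.Y δ n H \ Pt d n k H)
            (del {0} G)).card : ℝ) := Nat.cast_nonneg _
          linarith
        · rw [ind_false hbad, zero_add]
          by_cases hmem : 0 ∈ R.Y δ n G \ Pt d n (k + 1) G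
          · rw [ind_true hmem]
            rw [Finset.mem_sdiff, mem_Pt_succ] at hmem
            have h4 := (not_not.1 hbad).1 hmem.1
            have h5 : (nb n G 0 ∩ Pt d n k (del {0} G)).card < d := by
              by_contra hcon
              exact hmem.2 ⟨hn0, not_lt.1 hcon⟩
            have h6 : (nb n G 0 ∩ (R.Y δ n (del {0} G) \ Pt d n k (del {0} G))).Nonempty := by
              by_contra hcon
              rw [not_nonempty_iff_eq_empty] at hcon
              have h7 : nb n G 0 ∩ R.Y δ n (del {0} G) ⊆ nb n G 0 ∩ Pt d n k (del {0} G) := by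
                intro x hx
                rw [mem_inter] at hx ⊢
                refine ⟨hx.1, ?_⟩
                by_contra hx2
                have : x ∈ nb n G 0 ∩ (R.Y δ n (del {0} G) \ Pt d n k (del {0} G)) :=
                  mem_inter.2 ⟨hx.1, Finset.mem_sdiff.2 ⟨hx.2, hx2⟩⟩
                rw [hcon] at this
                exact absurd this (notMem_empty x)
              have h8 := card_le_card h7
              omega
            have h9 := card_pos.2 h6
            simp only
            exact_mod_cast h9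
          · rw [ind_false hmem]
            exact Nat.cast_nonneg _
      have h10 := Ex_mono hp0 hp1 hpt
      rw [Ex_add] at h10
      have h11 := d2_vertex n hn0 hp0 hp1 (fun H => R.Y δ n H \ Pt d n k H)
      have h12 : c / (n : ℝ) * Ex n (c / n) (fun G => (((fun H => R.Y δ n H \ Pt d n k H)
          (del {0} G)).card : ℝ)) = c * Ex n (c / n) (fun G =>
          ((R.Y δ n (del {0} G) \ Pt d n k (del {0} G)).card : ℝ) / n) := by
        rw [← Ex_mul_left, ← Ex_mul_left]
        refine Ex_congr fun G _ => ?_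
        simp only
        ring
      rw [h12] at h11
      unfold Pr
      linarith

end Pool.Agent.Helper55.ML
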