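import Mathlib

/-!
# Project ML (MP_29e8a2_co): definitions

`d` is the dimension of the rigidity matroid, vertices are natural numbers, a graph is a
finite set of unordered pairs.
-/

set_option autoImplicit false
open Finset Filter Topology

namespace Pool.Agent.Helper55.ML

/-! ## Random subsets of a finite set -/

/-- Expectation of `f` over the `p`-random subset of `E` (every element is taken independently
with probability `p`). -/
noncomputable def BE {α : Type*} [DecidableEq α] (E : Finset α) (p : ℝ) (f : Finset α → ℝ) : ℝ :=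
  ∑ S ∈ E.powerset, p ^ S.card * (1 - p) ^ (E \ S).card * f S

open Classical in
/-- Indicator of a proposition. -/
noncomputable def ind (P : Prop) : ℝ := if P then 1 else 0

/-- All pairs of distinct vertices below `n`. -/
def En (n : ℕ) : Finset (Sym2 ℕ) := (range n).sym2.filter (fun e => ¬ e.IsDiag)

/-- Expectation over the random graph `G(n,p)`. -/
noncomputable def Ex (n : ℕ) (p : ℝ) (f : Finset (Sym2 ℕ) → ℝ) : ℝ := BE (En n) p f

/-- Probability over the random graph `G(n,p)`. -/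
noncomputable def Pr (n : ℕ) (p : ℝ) (B : Finset (Sym2 ℕ) → Prop) : ℝ :=
  Ex n p (fun G => ind (B G))

/-- The event `B n` has probability tending to zero in `G(n,c/n)`. -/
def Neg (c : ℝ) (B : ℕ → Finset (Sym2 ℕ) → Prop) : Prop :=
  Tendsto (fun n : ℕ => Pr n (c / n) (B n)) atTop (𝓝 0)

/-- The expectation of `f n` in `G(n,c/n)` tends to zero. -/
def Van (c : ℝ) (f : ℕ → Finset (Sym2 ℕ) → ℝ) : Prop :=
  Tendsto (fun n : ℕ => Ex n (c / n) (f n)) atTop (𝓝 0)

/-- Invariance of an event under permutations of the vertices below `n`. -/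
def SymP (n : ℕ) (B : Finset (Sym2 ℕ) → Prop) : Prop :=
  ∀ σ : Equiv.Perm ℕ, (∀ i, σ i < n ↔ i < n) → ∀ G, B (G.image (Sym2.map σ)) ↔ B G

/-- Invariance of a function under permutations of the vertices below `n`. -/
def SymR (n : ℕ) (f : Finset (Sym2 ℕ) → ℝ) : Prop :=
  ∀ σ : Equiv.Perm ℕ, (∀ i, σ i < n ↔ i < n) → ∀ G, f (G.image (Sym2.map σ)) = f G

/-! ## Graph operations -/

/-- Delete all edges that meet the vertex set `A`. -/
def del (A : Finset ℕ) (G : Finset (Sym2 ℕ)) : Finset (Sym2 ℕ) :=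
  G.filter (fun e => Disjoint e.toFinset A)

/-- The edges inside the vertex set `A`. -/
def ins (A : Finset ℕ) (G : Finset (Sym2 ℕ)) : Finset (Sym2 ℕ) :=
  G.filter (fun e => e.toFinset ⊆ A)

/-- The neighbours below `n` of `v`. -/
def nb (n : ℕ) (G : Finset (Sym2 ℕ)) (v : ℕ) : Finset ℕ :=
  (range n).filter (fun u => s(v, u) ∈ G)

/-- All edges from `v` to `N`. -/
def star (v : ℕ) (N : Finset ℕ) : Finset (Sym2 ℕ) := N.image (fun u => s(v, u))

/-- All edges between `A` and `B`. -/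
def Kb (A B : Finset ℕ) : Finset (Sym2 ℕ) := (A ×ˢ B).image (fun q => s(q.1, q.2))

/-- The complete graph on `A`. -/
def Kp (A : Finset ℕ) : Finset (Sym2 ℕ) := A.sym2.filter (fun e => ¬ e.IsDiag)

/-- The edges of `G` from a vertex of `A` to a vertex outside `A ∪ Y`. -/
def outE (A Y : Finset ℕ) (G : Finset (Sym2 ℕ)) : Finset (Sym2 ℕ) :=
  G.filter (fun e => (∃ a ∈ A, a ∈ e) ∧ ¬ e.toFinset ⊆ A ∪ Y)

/-- `W` is nonempty and connected in `G` (every proper nonempty part of `W` has an edge of `G`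
to the rest of `W`). -/
def Conn (G : Finset (Sym2 ℕ)) (W : Finset ℕ) : Prop :=
  W.Nonempty ∧ ∀ A ⊆ W, A.Nonempty → A ≠ W → ∃ a ∈ A, ∃ b ∈ W \ A, s(a, b) ∈ G

/-- Excess: number of edges inside `W` minus number of vertices of `W`. -/
def exc (G : Finset (Sym2 ℕ)) (W : Finset ℕ) : ℤ := ((ins W G).card : ℤ) - (W.card : ℤ)

open Classical in
/-- The `(d+1)`-core: union of all vertex sets in which every vertex has at least `d+1`
neighbours. -/
noncomputable def core (d n : ℕ) (G : Finset (Sym2 ℕ)) : Finset ℕ :=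
  (range n).filter (fun v => ∃ A : Finset ℕ, A ⊆ range n ∧ v ∈ A ∧
    ∀ u ∈ A, d + 1 ≤ (nb n G u ∩ A).card)

/-- Vertices with a `d`-ary witness tree of depth `t`. -/
def Pt (d n : ℕ) : ℕ → Finset (Sym2 ℕ) → Finset ℕ
  | 0, _ => range n
  | t + 1, G => (range n).filter (fun v => d ≤ (nb n G v ∩ Pt d n t (del {v} G)).card)

/-! ## Poisson functions -/

/-- `P(Poi(μ) = k)`. -/
noncomputable def phi (k : ℕ) (μ : ℝ) : ℝ := Real.exp (-μ) * μ ^ k / k.factorial

/-- `P(Poi(μ) ≥ k)`. -/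
noncomputable def hp (k : ℕ) (μ : ℝ) : ℝ := 1 - ∑ i ∈ range k, phi i μ

/-! ## Abstract rigidity rank functions -/

/-- An abstract symmetric `d`-rigidity rank function on the pairs of natural numbers:
a matroid rank function, invariant under permutations, such that adding a new vertex by at most
`d` edges is free, a vertex joined (in the closure) to `d` vertices of a clique of the closure
is joined to all of it, and a `K_{t,t}` in the closure makes its vertex set a clique. -/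
structure Rig (d t : ℕ) where
  r : Finset (Sym2 ℕ) → ℕ
  r_empty : r ∅ = 0
  r_mono : ∀ {S T : Finset (Sym2 ℕ)}, S ⊆ T → r S ≤ r T
  r_insert : ∀ (e : Sym2 ℕ) (S : Finset (Sym2 ℕ)), r (insert e S) ≤ r S + 1
  r_submod : ∀ S T : Finset (Sym2 ℕ), r (S ∪ T) + r (S ∩ T) ≤ r S + r T
  r_perm : ∀ (σ : Equiv.Perm ℕ) (S : Finset (Sym2 ℕ)), r (S.image (Sym2.map σ)) = r S
  zero_ext : ∀ (S : Finset (Sym2 ℕ)) (v : ℕ) (N : Finset ℕ), (∀ e ∈ S, v ∉ e) → v ∉ N →
    N.card ≤ d → r (S ∪ star v N) = r S + N.card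
  clique_ext : ∀ (S : Finset (Sym2 ℕ)) (C N : Finset ℕ) (v : ℕ), v ∉ C → N ⊆ C → N.card = d →
    (∀ a ∈ C, ∀ b ∈ C, a ≠ b → r (insert s(a, b) S) = r S) →
    (∀ u ∈ N, r (insert s(v, u) S) = r S) → ∀ u ∈ C, r (insert s(v, u) S) = r S
  bip : ∀ (S : Finset (Sym2 ℕ)) (A B : Finset ℕ), Disjoint A B → A.card = t → B.card = t →
    (∀ a ∈ A, ∀ b ∈ B, r (insert s(a, b) S) = r S) →
    ∀ a ∈ A ∪ B, ∀ b ∈ A ∪ B, a ≠ b → r (insert s(a, b) S) = r S

variable {d t : ℕ}

/-- `e` lies in the closure of `S`. -/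
def Rig.Cl (R : Rig d t) (S : Finset (Sym2 ℕ)) (e : Sym2 ℕ) : Prop := R.r (insert e S) = R.r S

/-- `C` is a clique of the closure of `S`. -/
def Rig.Clq (R : Rig d t) (S : Finset (Sym2 ℕ)) (C : Finset ℕ) : Prop :=
  ∀ a ∈ C, ∀ b ∈ C, a ≠ b → R.Cl S s(a, b)

open Classical in
/-- The closure of `S` inside the pairs of vertices below `n`. -/
noncomputable def Rig.cl (R : Rig d t) (n : ℕ) (S : Finset (Sym2 ℕ)) : Finset (Sym2 ℕ) :=
  (En n).filter (fun e => R.Cl S e)

open Classical in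
/-- Vertices contained in a clique of the closure with at least `δ n` vertices. -/
noncomputable def Rig.Y (R : Rig d t) (δ : ℝ) (n : ℕ) (S : Finset (Sym2 ℕ)) : Finset ℕ :=
  (range n).filter (fun v => ∃ C : Finset ℕ, C ⊆ range n ∧ v ∈ C ∧ R.Clq S C ∧
    δ * n ≤ (C.card : ℝ))

/-- Density of `Y`. -/
noncomputable def Rig.y (R : Rig d t) (δ : ℝ) (n : ℕ) (S : Finset (Sym2 ℕ)) : ℝ :=
  ((R.Y δ n S).card : ℝ) / n

/-- `S` is dependent. -/
def Rig.Dep (R : Rig d t) (S : Finset (Sym2 ℕ)) : Prop := R.r S < S.card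

/-- There is a vertex set `A` such that `G[A]` has minimum degree at least `d+1` and stays rigid
on `A - v` after the deletion of any vertex `v` of `A`. -/
def Rig.GR (R : Rig d t) (n : ℕ) (G : Finset (Sym2 ℕ)) : Prop :=
  ∃ A : Finset ℕ, A ⊆ range n ∧ A.Nonempty ∧ (∀ v ∈ A, d + 1 ≤ (nb n G v ∩ A).card) ∧
    ∀ v ∈ A, R.Clq (ins (A.erase v) G) (A.erase v)

end Pool.Agent.Helper55.ML
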