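import Pool.Agent.Helper55.ML.P1

set_option autoImplicit false
open Finset Filter Topology

namespace Pool.Agent.Helper55.ML

private theorem p4_empty {α : Type*} [DecidableEq α] (p : ℝ) (f : Finset α → ℝ) :
    BE (∅ : Finset α) p f = f ∅ := by
  unfold BE
  simp

private theorem p4_card_insert {α : Type*} [DecidableEq α] {E S : Finset α} {e : α} (he : e ∉ E)
    (hS : S ⊆ E) : (((insert e S : Finset α).card : ℕ) : ℝ) = (S.card : ℝ) + 1 := by
  rw [card_insert_of_notMem (fun h => he (hS h))]
  push_cast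
  rfl

/-- P4: first two moments of the size, Cauchy-Schwarz, probability of containing `A` and avoiding
`F`. Induction with `BE_insert`, resp. `Finset.sum_mul_sq_le_sq_mul_sq`. -/
theorem BE_card {α : Type*} [DecidableEq α] (E : Finset α) (p : ℝ) :
    BE E p (fun S => (S.card : ℝ)) = p * E.card := by
  induction E using Finset.induction_on with
  | empty =>
    rw [p4_empty]
    simp
  | insert e E he ih =>
    rw [BE_insert he]
    have h1 : BE E p (fun S => ((insert e S : Finset α).card : ℝ)) =
        BE E p (fun S => (S.card : ℝ) + 1) :=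
      BE_congr fun S hS => p4_card_insert he hS
    rw [h1, BE_add, BE_const, ih, card_insert_of_notMem he]
    push_cast
    ring

private theorem p4_card_sq {α : Type*} [DecidableEq α] (E : Finset α) (p a : ℝ) :
    BE E p (fun S => ((S.card : ℝ) - a) ^ 2) = p * (1 - p) * E.card + (p * E.card - a) ^ 2 := by
  induction E using Finset.induction_on generalizing a with
  | empty =>
    rw [p4_empty]
    simp
  | insert e E he ih =>
    rw [BE_insert he]
    have h1 : BE E p (fun S => (((insert e S : Finset α).card : ℝ) - a) ^ 2) =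
        BE E p (fun S => ((S.card : ℝ) - (a - 1)) ^ 2) :=
      BE_congr fun S hS => by
        rw [p4_card_insert he hS]
        ring
    rw [h1, ih, ih, card_insert_of_notMem he]
    push_cast
    ring

theorem BE_card_sq {α : Type*} [DecidableEq α] (E : Finset α) (p : ℝ) :
    BE E p (fun S => ((S.card : ℝ) - p * E.card) ^ 2) = p * (1 - p) * E.card := by
  rw [p4_card_sq]
  ring

theorem BE_cauchy {α : Type*} [DecidableEq α] (E : Finset α) {p : ℝ} (h0 : 0 ≤ p) (h1 : p ≤ 1)
    (f g : Finset α → ℝ) :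
    (BE E p (fun S => f S * g S)) ^ 2 ≤
      BE E p (fun S => f S ^ 2) * BE E p (fun S => g S ^ 2) := by
  unfold BE
  have hw : ∀ S : Finset α, 0 ≤ p ^ S.card * (1 - p) ^ (E \ S).card := fun S =>
    mul_nonneg (pow_nonneg h0 _) (pow_nonneg (by linarith) _)
  have hs : ∀ S : Finset α, Real.sqrt (p ^ S.card * (1 - p) ^ (E \ S).card) *
      Real.sqrt (p ^ S.card * (1 - p) ^ (E \ S).card) = p ^ S.card * (1 - p) ^ (E \ S).card :=
    fun S => Real.mul_self_sqrt (hw S)
  have key := Finset.sum_mul_sq_le_sq_mul_sq E.powerset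
    (fun S => Real.sqrt (p ^ S.card * (1 - p) ^ (E \ S).card) * f S)
    (fun S => Real.sqrt (p ^ S.card * (1 - p) ^ (E \ S).card) * g S)
  have e1 : ∑ S ∈ E.powerset, (Real.sqrt (p ^ S.card * (1 - p) ^ (E \ S).card) * f S) *
      (Real.sqrt (p ^ S.card * (1 - p) ^ (E \ S).card) * g S) =
      ∑ S ∈ E.powerset, p ^ S.card * (1 - p) ^ (E \ S).card * (f S * g S) :=
    sum_congr rfl fun S _ => by
      rw [mul_mul_mul_comm, hs]
  have e2 : ∀ f : Finset α → ℝ,
      ∑ S ∈ E.powerset, (Real.sqrt (p ^ S.card * (1 - p) ^ (E \ S).card) * f S) ^ 2 =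
      ∑ S ∈ E.powerset, p ^ S.card * (1 - p) ^ (E \ S).card * f S ^ 2 := fun f =>
    sum_congr rfl fun S _ => by
      rw [mul_pow, sq (Real.sqrt _), hs]
  rw [e1, e2, e2] at key
  exact key

theorem BE_subset_disj {α : Type*} [DecidableEq α] {E A F : Finset α} (hA : A ⊆ E) (hF : F ⊆ E)
    (h : Disjoint A F) (p : ℝ) :
    BE E p (fun S => ind (A ⊆ S ∧ Disjoint S F)) = p ^ A.card * (1 - p) ^ F.card := by
  have h1 : BE E p (fun S => ind (A ⊆ S ∧ Disjoint S F)) =
      BE E p (fun S => (fun T => ind (A ⊆ T ∧ Disjoint T F)) (S ∩ (A ∪ F))) := by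
    refine BE_congr fun S _ => ind_congr ?_
    constructor
    · rintro ⟨h2, h3⟩
      exact ⟨subset_inter h2 subset_union_left, h3.mono_left inter_subset_left⟩
    · rintro ⟨h2, h3⟩
      refine ⟨h2.trans inter_subset_left, ?_⟩
      rw [disjoint_left] at h3 ⊢
      intro x hx hxF
      exact h3 (mem_inter.mpr ⟨hx, mem_union_right _ hxF⟩) hxF
  rw [h1, BE_inter (union_subset hA hF) p (fun T => ind (A ⊆ T ∧ Disjoint T F))]
  unfold BE
  rw [sum_eq_single A]
  · have h2 : (A ∪ F) \ A = F := by
      rw [union_sdiff_left]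
      exact sdiff_eq_self_of_disjoint h.symm
    have h3 : (fun T : Finset α => ind (A ⊆ T ∧ Disjoint T F)) A = 1 :=
      ind_true ⟨Subset.refl A, h⟩
    rw [h2, h3, mul_one]
  · intro S hS hSA
    refine mul_eq_zero_of_right _ (ind_false ?_)
    rintro ⟨h2, h3⟩
    apply hSA
    refine Subset.antisymm ?_ h2
    intro x hx
    rcases mem_union.mp (mem_powerset.mp hS hx) with h4 | h4
    · exact h4
    · exact absurd h4 (disjoint_left.mp h3 hx)
  · intro hA'
    exact absurd (mem_powerset.mpr subset_union_left) hA'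

theorem BE_subset {α : Type*} [DecidableEq α] {E A : Finset α} (hA : A ⊆ E) (p : ℝ) :
    BE E p (fun S => ind (A ⊆ S)) = p ^ A.card := by
  have h1 := BE_subset_disj hA (empty_subset E) (disjoint_empty_right A) p
  rw [card_empty, pow_zero, mul_one] at h1
  rw [← h1]
  refine BE_congr fun S _ => ind_congr ?_
  exact ⟨fun h2 => ⟨h2, disjoint_empty_right S⟩, fun h2 => h2.1⟩

end Pool.Agent.Helper55.ML
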