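import Pool.Agent.Helper55.ML.A0
import Pool.Agent.Helper55.ML.P4
import Pool.Agent.Helper55.ML.Q10
import Pool.Agent.Helper55.ML.S0

set_option autoImplicit false
open Finset Filter Topology

namespace Pool.Agent.Helper55.ML

/-- Weight of a vertex of internal degree `i`. -/
noncomputable def om (d : ℕ) (c x τ : ℝ) (i : ℕ) : ℝ :=
  if i ≤ 1 then τ else if i = 2 then phi (d - 1) (c * x) + τ else 1

/-- E3 (hint): weights. For `i ≤ 1` the event forces `N` to meet `B \ A` (at most `(η+ε) n` elements);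
for `i = 2` it forces that or `|N ∩ A| = d-1`, and `|A|/n` is within `η+ε` of `x`. `poisson_eq`,
`phi_lip`, `BE_inter`. -/
theorem weight_bound {d : ℕ} (hd : 2 ≤ d) {c x : ℝ} (hc : 0 < c) (hx0 : 0 < x) {τ : ℝ}
    (hτ : 0 < τ) : ∃ η0 : ℝ, 0 < η0 ∧ ∀ η ε : ℝ, 0 < η → η ≤ η0 → 0 < ε → ε ≤ η0 →
      ∀ᶠ n : ℕ in atTop, ∀ A B E : Finset ℕ, A ⊆ B → B ⊆ E → E ⊆ range n →
        (x - η) * n ≤ (A.card : ℝ) → (B.card : ℝ) ≤ (x + ε) * n → ∀ i : ℕ,
          BE E (c / n) (fun N => ind ((N ∩ A).card + 1 ≤ d ∧ d + 1 ≤ i + (N ∩ B).card)) ≤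
            om d c x τ i := by
  refine ⟨min (τ / (8 * c)) (x / 2), lt_min (by positivity) (by positivity), ?_⟩
  intro η ε hη hη1 hε hε1
  have hη2 : η ≤ τ / (8 * c) := hη1.trans (min_le_left _ _)
  have hη3 : η ≤ x / 2 := hη1.trans (min_le_right _ _)
  have hε2 : ε ≤ τ / (8 * c) := hε1.trans (min_le_left _ _)
  have hcη : c * η ≤ τ / 8 := by
    have := mul_le_mul_of_nonneg_left hη2 hc.le
    rwa [show c * (τ / (8 * c)) = τ / 8 by field_simp] at this
  have hcε : c * ε ≤ τ / 8 := by
    have := mul_le_mul_of_nonneg_left hε2 hc.le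
    rwa [show c * (τ / (8 * c)) = τ / 8 by field_simp] at this
  have hev : ∀ᶠ n : ℕ in atTop, max c 1 ≤ (n : ℝ) :=
    (tendsto_natCast_atTop_atTop (R := ℝ)).eventually_ge_atTop _
  filter_upwards [hev, poisson_eq hc (d - 1) (τ / 4) (by positivity)] with n hn hpoi
  intro A B E hAB hBE hE hA hB i
  have hn1 : (1 : ℝ) ≤ n := (le_max_right _ _).trans hn
  have hnc : c ≤ n := (le_max_left _ _).trans hn
  have hn0 : (0 : ℝ) < n := by linarith
  have hp0 : 0 ≤ c / n := by positivity
  have hp1 : c / n ≤ 1 := by rw [div_le_one hn0]; exact hnc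
  have hAE : A ⊆ E := hAB.trans hBE
  have hBA : B \ A ⊆ E := sdiff_subset.trans hBE
  have hAn : A.card ≤ n := by
    have := card_le_card (hAE.trans hE)
    rwa [card_range] at this
  -- the elements of `B \ A`
  have hdiff : BE E (c / n) (fun N => ind ((N ∩ (B \ A)).Nonempty)) ≤ τ / 4 := by
    have h1 : BE E (c / n) (fun N => ind ((N ∩ (B \ A)).Nonempty)) ≤
        BE E (c / n) (fun N => (fun S : Finset ℕ => (S.card : ℝ)) (N ∩ (B \ A))) := by
      refine BE_mono hp0 hp1 fun S _ => ?_
      by_cases h : (S ∩ (B \ A)).Nonempty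
      · rw [ind_true h]
        have := Finset.card_pos.2 h
        change (1 : ℝ) ≤ ((S ∩ (B \ A)).card : ℝ)
        exact_mod_cast this
      · rw [ind_false h]
        positivity
    have h1' : BE E (c / n) (fun N => (fun S : Finset ℕ => (S.card : ℝ)) (N ∩ (B \ A))) =
        c / n * ((B \ A).card : ℝ) := by
      rw [BE_inter hBA (c / n) (fun S : Finset ℕ => (S.card : ℝ)), BE_card]
    rw [h1'] at h1
    refine h1.trans ?_
    have h2 : ((B \ A).card : ℝ) = B.card - A.card := by
      rw [card_sdiff_of_subset hAB, Nat.cast_sub (card_le_card hAB)]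
    have h3 : ((B \ A).card : ℝ) ≤ (η + ε) * n := by
      rw [h2]
      linarith
    calc c / n * ((B \ A).card : ℝ) ≤ c / n * ((η + ε) * n) :=
          mul_le_mul_of_nonneg_left h3 hp0
      _ = c * η + c * ε := by field_simp
      _ ≤ τ / 4 := by linarith
  have hcard : ∀ N : Finset ℕ, (N ∩ B).card = (N ∩ A).card + (N ∩ (B \ A)).card := by
    intro N
    have hd2 : Disjoint (N ∩ A) (N ∩ (B \ A)) :=
      Disjoint.mono inter_subset_right inter_subset_right disjoint_sdiff
    rw [← card_union_of_disjoint hd2, ← inter_union_distrib_left, union_sdiff_of_subset hAB]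
  unfold om
  split_ifs with h1 h2
  · refine le_trans (BE_mono hp0 hp1 (g := fun N => ind ((N ∩ (B \ A)).Nonempty))
      fun S _ => ind_mono ?_) (hdiff.trans (by linarith))
    rintro ⟨h3, h4⟩
    rw [hcard S] at h4
    exact card_pos.1 (by omega)
  · refine le_trans (BE_mono hp0 hp1 (g := fun N => ind ((N ∩ A).card = d - 1) +
      ind ((N ∩ (B \ A)).Nonempty)) fun S _ => ?_) ?_
    · refine le_trans (ind_mono ?_) (ind_or_le _ _)
      rintro ⟨h3, h4⟩
      rw [hcard S] at h4
      by_cases h5 : (S ∩ (B \ A)).card = 0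
      · left
        omega
      · right
        exact card_pos.1 (Nat.pos_of_ne_zero h5)
    · rw [BE_add]
      have h3 : BE E (c / n) (fun N => ind ((N ∩ A).card = d - 1)) =
          BE A (c / n) (fun N => ind (N.card = d - 1)) :=
        BE_inter hAE (c / n) (fun N => ind (N.card = d - 1))
      rw [h3]
      have h4 := (abs_le.1 (hpoi A hAn)).2
      have hAx : |c * A.card / n - c * x| ≤ τ / 8 := by
        have h5 : c * (A.card : ℝ) / n - c * x = c * (A.card / n - x) := by ring
        rw [h5, abs_mul, abs_of_pos hc]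
        have h6 : (A.card : ℝ) / n ≤ x + ε := by
          rw [div_le_iff₀ hn0]
          refine le_trans ?_ hB
          exact_mod_cast card_le_card hAB
        have h7 : x - η ≤ (A.card : ℝ) / n := by
          rw [le_div_iff₀ hn0]
          exact hA
        have h8 : |(A.card : ℝ) / n - x| ≤ max η ε := by
          rw [abs_le]
          constructor
          · have := le_max_left η ε
            linarith
          · have := le_max_right η ε
            linarith
        calc c * |(A.card : ℝ) / n - x| ≤ c * max η ε := mul_le_mul_of_nonneg_left h8 hc.le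
          _ ≤ τ / 8 := by
            rcases max_choice η ε with h9 | h9 <;> rw [h9] <;> assumption
      have h9 := phi_lip (d - 1) (a := c * A.card / n) (b := c * x) (by positivity)
        (by positivity)
      have h10 := (abs_le.1 h9).2
      linarith
  · refine le_trans (BE_mono hp0 hp1 (g := fun _ => (1 : ℝ)) fun S _ => ind_le_one _) ?_
    rw [BE_const]

/-- (hint) choice of `z`, `τ`: `c g < z` where `g = τ + z(φ + τ) + z^2/(1-z)` bounds
`∑_a z^a om (a+1)`, `φ = phi (d-1) (c x)`, `c φ < 1`. -/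
theorem exists_z {d : ℕ} {c x : ℝ} (hc : 0 < c) (h : c * phi (d - 1) (c * x) < 1) :
    ∃ z τ g : ℝ, 0 < z ∧ z < 1 ∧ 0 < τ ∧ 0 < g ∧ c * g < z ∧
      ∀ k : ℕ, ∑ a ∈ range (k + 1), z ^ a * om d c x τ (a + 1) ≤ g := by
  obtain ⟨φ, hφdef⟩ : ∃ φ, φ = max (phi (d - 1) (c * x)) 0 := ⟨_, rfl⟩
  have hφ0 : 0 ≤ φ := by rw [hφdef]; exact le_max_right _ _
  have hφ1 : phi (d - 1) (c * x) ≤ φ := by rw [hφdef]; exact le_max_left _ _
  have hφ2 : c * φ < 1 := by
    rw [hφdef]
    rcases max_choice (phi (d - 1) (c * x)) 0 with h1 | h1 <;> rw [h1]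
    · exact h
    · rw [mul_zero]; exact one_pos
  obtain ⟨δ, hδdef⟩ : ∃ δ, δ = 1 - c * φ := ⟨_, rfl⟩
  have hδ : 0 < δ := by rw [hδdef]; linarith
  obtain ⟨z, hzdef⟩ : ∃ z, z = min (1 / 2) (δ / (8 * c)) := ⟨_, rfl⟩
  have hz0 : 0 < z := by rw [hzdef]; exact lt_min (by norm_num) (by positivity)
  have hz1 : z ≤ 1 / 2 := by rw [hzdef]; exact min_le_left _ _
  have hz2 : c * z ≤ δ / 8 := by
    have h1 : z ≤ δ / (8 * c) := by rw [hzdef]; exact min_le_right _ _
    have := mul_le_mul_of_nonneg_left h1 hc.le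
    rwa [show c * (δ / (8 * c)) = δ / 8 by field_simp] at this
  obtain ⟨τ, hτdef⟩ : ∃ τ, τ = z * δ / (4 * c) := ⟨_, rfl⟩
  have hτ0 : 0 < τ := by rw [hτdef]; positivity
  have hτ1 : c * τ = z * δ / 4 := by rw [hτdef]; field_simp
  refine ⟨z, τ, τ + z * (φ + τ) + 2 * z ^ 2, hz0, by linarith, hτ0, by positivity, ?_, ?_⟩
  · have h1 : c * (τ + z * (φ + τ) + 2 * z ^ 2) =
        c * τ + z * (c * φ) + z * (c * τ) + 2 * (z * (c * z)) := by ring
    rw [h1, hτ1]
    have h2 : c * φ = 1 - δ := by rw [hδdef]; ring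
    rw [h2]
    have h3 : z * (c * z) ≤ z * (δ / 8) := mul_le_mul_of_nonneg_left hz2 hz0.le
    have h4 : z * (z * δ / 4) ≤ z * δ / 8 := by
      have : z * (z * δ) ≤ 1 / 2 * (z * δ) := mul_le_mul_of_nonneg_right hz1 (by positivity)
      linarith
    have h5 : 0 < z * δ := by positivity
    nlinarith
  · -- the sum
    have hgeo : ∀ k : ℕ, ∑ a ∈ range k, z ^ a ≤ 2 := by
      intro k
      have h1 : (1 - z) * ∑ a ∈ range k, z ^ a = 1 - z ^ k := by
        have := mul_neg_geom_sum z k
        linarith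
      have h2 : 0 ≤ z ^ k := by positivity
      have h3 : 0 ≤ ∑ a ∈ range k, z ^ a := sum_nonneg fun a _ => by positivity
      nlinarith
    intro k
    have hsplit : ∀ k : ℕ, ∑ a ∈ range (k + 1), z ^ a * om d c x τ (a + 1) ≤
        τ + z * (φ + τ) + z ^ 2 * ∑ a ∈ range (k - 1), z ^ a := by
      intro k
      induction k with
      | zero =>
        simp only [zero_add, sum_range_one, pow_zero, one_mul]
        unfold om
        simp
        positivity
      | succ k ih =>
        rw [sum_range_succ]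
        rcases Nat.eq_zero_or_pos k with hk | hk
        · subst hk
          simp only [zero_add, sum_range_one, pow_zero, one_mul, pow_one]
          unfold om
          simp
          have := mul_le_mul_of_nonneg_left hφ1 hz0.le
          nlinarith
        · obtain ⟨l, rfl⟩ : ∃ l, k = l + 1 := ⟨k - 1, by omega⟩
          have h1 : om d c x τ (l + 1 + 1 + 1) = 1 := by
            unfold om
            rw [if_neg (by omega), if_neg (by omega)]
          rw [h1, mul_one]
          simp only [Nat.add_sub_cancel] at ih ⊢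
          have h3 : ∑ a ∈ range (l + 1), z ^ a = ∑ a ∈ range l, z ^ a + z ^ l :=
            sum_range_succ _ _
          have h2 : z ^ (l + 1 + 1) = z ^ 2 * z ^ l := by ring
          rw [h3, h2, mul_add]
          linarith
    refine (hsplit k).trans ?_
    have h1 := hgeo (k - 1)
    have h2 : z ^ 2 * ∑ a ∈ range (k - 1), z ^ a ≤ z ^ 2 * 2 :=
      mul_le_mul_of_nonneg_left h1 (by positivity)
    linarith

end Pool.Agent.Helper55.ML
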