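import Pool.Agent.Helper55.ML.E2
import Pool.Agent.Helper55.ML.E3

set_option autoImplicit false
open Finset Filter Topology

namespace Pool.Agent.Helper55.ML

/-- The structures counted by the first moment: `W` connected with `|W| ≤ (log n)^4`, `Z ⊆ W`, all
vertices of `W \ Z` tight with respect to `A (del W G) ⊆ B (del W G)`. -/
def Struct (d n : ℕ) (x η ε : ℝ) (A B : Finset (Sym2 ℕ) → Finset ℕ) (G : Finset (Sym2 ℕ))
    (W Z : Finset ℕ) : Prop :=
  W ⊆ range n ∧ Z ⊆ W ∧ Conn G W ∧ W.card ≤ (Nat.log 2 n) ^ 4 ∧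
    A (del W G) ⊆ B (del W G) ∧ B (del W G) ⊆ range n \ W ∧
    (x - η) * n ≤ ((A (del W G)).card : ℝ) ∧ ((B (del W G)).card : ℝ) ≤ (x + ε) * n ∧
    ∀ u ∈ W \ Z, (nb n G u ∩ A (del W G)).card + 1 ≤ d ∧
      d + 1 ≤ (nb n G u ∩ W).card + (nb n G u ∩ B (del W G)).card

/-- The tree edges of a parent map. -/
def treeE {k : ℕ} (f : Fin (k + 1) → Fin (k + 1)) : Finset (Sym2 (Fin (k + 1))) :=
  (Finset.univ.erase 0).image (fun j => s(f j, j))

/-- Patterns: enumeration of the vertices, parent map, extra edges, exceptional indices. -/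
abbrev Patt (k : ℕ) : Type :=
  (Fin (k + 1) → ℕ) × (Fin (k + 1) → Fin (k + 1)) × Finset (Sym2 (Fin (k + 1))) ×
    Finset (Fin (k + 1))

open Classical in
/-- Patterns with `m` extra edges and at most `s` exceptional indices. -/
noncomputable def pats (n k m s : ℕ) : Finset (Patt k) :=
  ((Fintype.piFinset (fun _ : Fin (k + 1) => range n)).filter (fun u => Function.Injective u)) ×ˢ
    ((Finset.univ : Finset (Fin (k + 1) → Fin (k + 1))).filter
      (fun f => Monotone f ∧ f 0 = 0 ∧ ∀ j, j ≠ 0 → f j < j)) ×ˢ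
    ((Finset.univ : Finset (Sym2 (Fin (k + 1)))).powersetCard m) ×ˢ
    ((Finset.univ : Finset (Finset (Fin (k + 1)))).filter (fun Z => Z.card ≤ s))

/-- The event of a pattern. -/
def PatEv (d n : ℕ) (x η ε : ℝ) (A B : Finset (Sym2 ℕ) → Finset ℕ) {k : ℕ} (q : Patt k)
    (G : Finset (Sym2 ℕ)) : Prop :=
  Disjoint q.2.2.1 (treeE q.2.1) ∧ (∀ e ∈ q.2.2.1, ¬ e.IsDiag) ∧
    ins (Finset.univ.image q.1) G = (treeE q.2.1 ∪ q.2.2.1).image (Sym2.map q.1) ∧
    Struct d n x η ε A B G (Finset.univ.image q.1) (q.2.2.2.image q.1)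

open Classical in
/-- The weight of the index `i` with `a` children in a pattern. -/
noncomputable def wt (d : ℕ) (c x τ : ℝ) {k : ℕ} (X : Finset (Sym2 (Fin (k + 1))))
    (Z : Finset (Fin (k + 1))) (i : Fin (k + 1)) (a : ℕ) : ℝ :=
  if i = 0 ∨ i ∈ Z ∨ (∃ e ∈ X, i ∈ e) then 1 else om d c x τ (a + 1)

end Pool.Agent.Helper55.ML
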