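import Pool.Agent.Helper55.ML.H1

set_option autoImplicit false
open Finset Filter Topology

namespace Pool.Agent.Helper55.ML

private structure E1State (G : Finset (Sym2 ℕ)) (W : Finset ℕ) (m : ℕ) (u f : ℕ → ℕ) : Prop where
  inj : ∀ i < m, ∀ j < m, u i = u j → i = j
  mem : ∀ i < m, u i ∈ W
  mono : ∀ i j, i ≤ j → j < m → f i ≤ f j
  zero : f 0 = 0
  par : ∀ j < m, j ≠ 0 → f j < j ∧ s(u (f j), u j) ∈ G
  closed : ∀ i < f (m - 1), ∀ b ∈ W, s(u i, b) ∈ G → ∃ j < m, u j = b

private theorem e1_step {G : Finset (Sym2 ℕ)} {W : Finset ℕ} (hW : Conn G W) {m : ℕ} (hm : 1 ≤ m)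
    (hmW : m < W.card) {u f : ℕ → ℕ} (h : E1State G W m u f) :
    ∃ u' f' : ℕ → ℕ, E1State G W (m + 1) u' f' := by
  classical
  set A := (range m).image u with hA
  have hAW : A ⊆ W := by
    intro x hx
    simp only [hA, mem_image, mem_range] at hx
    obtain ⟨i, hi, rfl⟩ := hx
    exact h.mem i hi
  have hAc : A.card = m := by
    rw [hA, Finset.card_image_of_injOn, card_range]
    intro i hi j hj hij
    simp only [coe_range, Set.mem_Iio] at hi hj
    exact h.inj i hi j hj hij
  have hAne : A.Nonempty := by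
    rw [← Finset.card_pos, hAc]; omega
  have hAneW : A ≠ W := by
    intro hAW'
    rw [hAW'] at hAc
    omega
  obtain ⟨a, ha, b, hb, hab⟩ := hW.2 A hAW hAne hAneW
  have hex : ∃ i, i < m ∧ ∃ b ∈ W \ A, s(u i, b) ∈ G := by
    simp only [hA, mem_image, mem_range] at ha
    obtain ⟨i, hi, rfl⟩ := ha
    exact ⟨i, hi, b, hb, hab⟩
  set i₀ := Nat.find hex with hi₀
  obtain ⟨hi₀m, b₀, hb₀, hib₀⟩ := Nat.find_spec hex
  have hmin : ∀ i < i₀, ∀ b ∈ W, s(u i, b) ∈ G → ∃ j < m, u j = b := by
    intro i hi b' hb' hib'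
    have h1 := Nat.find_min hex hi
    push Not at h1
    have him : i < m := lt_trans hi hi₀m
    by_contra hcon
    refine h1 him b' (mem_sdiff.2 ⟨hb', ?_⟩) hib'
    simp only [hA, mem_image, mem_range]
    intro ⟨j, hj, hjb⟩
    exact hcon ⟨j, hj, hjb⟩
  have hb₀A : ∀ j < m, u j ≠ b₀ := by
    intro j hj hjb
    exact (mem_sdiff.1 hb₀).2 (by rw [hA, ← hjb]; exact mem_image_of_mem u (mem_range.2 hj))
  have hpt : f (m - 1) ≤ i₀ := by
    by_contra hcon
    push Not at hcon
    obtain ⟨j, hj, hjb⟩ := h.closed i₀ hcon b₀ (mem_sdiff.1 hb₀).1 hib₀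
    exact hb₀A j hj hjb
  refine ⟨Function.update u m b₀, Function.update f m i₀, ?_, ?_, ?_, ?_, ?_, ?_⟩
  · intro i hi j hj hij
    rcases Nat.lt_succ_iff_lt_or_eq.1 hi with hi' | rfl
    · rcases Nat.lt_succ_iff_lt_or_eq.1 hj with hj' | rfl
      · rw [Function.update_of_ne hi'.ne, Function.update_of_ne hj'.ne] at hij
        exact h.inj i hi' j hj' hij
      · rw [Function.update_of_ne hi'.ne, Function.update_self] at hij
        exact absurd hij (hb₀A i hi')
    · rcases Nat.lt_succ_iff_lt_or_eq.1 hj with hj' | rfl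
      · rw [Function.update_of_ne hj'.ne, Function.update_self] at hij
        exact absurd hij.symm (hb₀A j hj')
      · rfl
  · intro i hi
    rcases Nat.lt_succ_iff_lt_or_eq.1 hi with hi' | rfl
    · rw [Function.update_of_ne hi'.ne]; exact h.mem i hi'
    · rw [Function.update_self]; exact (mem_sdiff.1 hb₀).1
  · intro i j hij hj
    rcases Nat.lt_succ_iff_lt_or_eq.1 hj with hj' | rfl
    · rw [Function.update_of_ne hj'.ne, Function.update_of_ne (lt_of_le_of_lt hij hj').ne]
      exact h.mono i j hij hj'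
    · rw [Function.update_self]
      rcases Nat.lt_or_eq_of_le hij with hij' | rfl
      · rw [Function.update_of_ne hij'.ne]
        exact (h.mono i (j - 1) (by omega) (by omega)).trans hpt
      · rw [Function.update_self]
  · rw [Function.update_of_ne (by omega)]; exact h.zero
  · intro j hj hj0
    rcases Nat.lt_succ_iff_lt_or_eq.1 hj with hj' | rfl
    · rw [Function.update_of_ne hj'.ne, Function.update_of_ne hj'.ne,
        Function.update_of_ne (lt_trans (h.par j hj' hj0).1 hj').ne]
      exact h.par j hj' hj0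
    · rw [Function.update_self, Function.update_self, Function.update_of_ne hi₀m.ne]
      exact ⟨hi₀m, hib₀⟩
  · intro i hi b' hb' hib'
    rw [Nat.add_sub_cancel, Function.update_self] at hi
    rw [Function.update_of_ne (lt_trans hi hi₀m).ne] at hib'
    obtain ⟨j, hj, hjb⟩ := hmin i hi b' hb' hib'
    exact ⟨j, by omega, by rw [Function.update_of_ne hj.ne]; exact hjb⟩

/-- E1 (hint): breadth first enumeration. Every connected set of `k+1` vertices has an enumeration
`u : Fin (k+1) → ℕ` with a monotone parent map `f` (`f j < j` for `j ≠ 0`), `s(u (f j), u j) ∈ G`.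
Build it by a queue: keep an injective list and a pointer `i`: all neighbours (in `W`) of the
vertices before the pointer are already listed; append the unlisted neighbours of the `i`-th vertex
(their parent is `i`), move the pointer. -/
theorem exists_bfs {G : Finset (Sym2 ℕ)} {W : Finset ℕ} {k : ℕ} (hW : Conn G W)
    (hk : W.card = k + 1) : ∃ (u : Fin (k + 1) → ℕ) (f : Fin (k + 1) → Fin (k + 1)),
      Function.Injective u ∧ Finset.univ.image u = W ∧ Monotone f ∧ f 0 = 0 ∧
        ∀ j : Fin (k + 1), j ≠ 0 → f j < j ∧ s(u (f j), u j) ∈ G := by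
  classical
  have key : ∀ m, 1 ≤ m → m ≤ k + 1 → ∃ u f : ℕ → ℕ, E1State G W m u f := by
    intro m hm
    induction m, hm using Nat.le_induction with
    | base =>
      intro _
      obtain ⟨v, hv⟩ := hW.1
      refine ⟨fun _ => v, fun _ => 0, ?_, ?_, ?_, ?_, ?_, ?_⟩
      · intro i hi j hj _; omega
      · intro i _; exact hv
      · intro i j _ _; exact le_rfl
      · rfl
      · intro j hj hj0; omega
      · intro i hi; exact absurd hi (Nat.not_lt_zero _)
    | succ m hm ih =>
      intro hmk
      obtain ⟨u, f, h⟩ := ih (by omega)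
      exact e1_step hW hm (by omega) h
  obtain ⟨u, f, h⟩ := key (k + 1) (by omega) le_rfl
  have hf : ∀ j : Fin (k + 1), f j < k + 1 := by
    intro j
    by_cases hj : (j : ℕ) = 0
    · rw [hj, h.zero]; omega
    · exact lt_trans (h.par j j.2 hj).1 j.2
  have hinj : Function.Injective fun j : Fin (k + 1) => u j := by
    intro i j hij
    exact Fin.ext (h.inj i i.2 j j.2 hij)
  refine ⟨fun j => u j, fun j => ⟨f j, hf j⟩, hinj, ?_, ?_, ?_, ?_⟩
  · refine Finset.eq_of_subset_of_card_le ?_ ?_
    · intro x hx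
      simp only [mem_image, mem_univ, true_and] at hx
      obtain ⟨j, rfl⟩ := hx
      exact h.mem j j.2
    · rw [Finset.card_image_of_injective _ hinj, card_univ, Fintype.card_fin, hk]
  · intro i j hij
    exact h.mono i j hij j.2
  · exact Fin.ext h.zero
  · intro j hj
    have hj0 : (j : ℕ) ≠ 0 := fun h0 => hj (Fin.ext h0)
    exact h.par j j.2 hj0

end Pool.Agent.Helper55.ML
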