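import Pool.Agent.Helper55.ML.Basic

set_option autoImplicit false
open Finset Filter Topology

namespace Pool.Agent.Helper55.ML

/-- Number of children of `i` for the parent map `f`. -/
def kids {k : ℕ} (f : Fin (k + 1) → Fin (k + 1)) (i : Fin (k + 1)) : ℕ :=
  (Finset.univ.filter (fun j => j ≠ 0 ∧ f j = i)).card

private theorem e2_cnt {k : ℕ} (f : Fin (k + 1) → Fin (k + 1)) (i : Fin (k + 1)) :
    (Finset.univ.filter (fun j => j ≠ 0 ∧ f j ≤ i)).card = ∑ i' ∈ Finset.Iic i, kids f i' := by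
  rw [Finset.card_eq_sum_card_fiberwise (f := f) (t := Finset.Iic i) (by
    intro x hx
    simp only [Finset.coe_filter, Finset.mem_univ, true_and, Set.mem_ofPred_eq] at hx
    simpa using hx.2)]
  refine Finset.sum_congr rfl (fun b hb => ?_)
  unfold kids
  congr 1
  ext j
  simp only [Finset.mem_filter, Finset.mem_univ, true_and, Finset.mem_Iic] at hb ⊢
  constructor
  · rintro ⟨⟨h1, _⟩, h3⟩; exact ⟨h1, h3⟩
  · rintro ⟨h1, h3⟩; exact ⟨⟨h1, h3 ▸ hb⟩, h3⟩

private theorem e2_le_iff {k : ℕ} {f : Fin (k + 1) → Fin (k + 1)} (hf : Monotone f)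
    {j : Fin (k + 1)} (hj : j ≠ 0) (i : Fin (k + 1)) :
    f j ≤ i ↔ (j : ℕ) ≤ (Finset.univ.filter (fun j => j ≠ 0 ∧ f j ≤ i)).card := by
  have hj0 : 0 < (j : ℕ) := Nat.pos_of_ne_zero (fun h => hj (Fin.ext h))
  constructor
  · intro h
    have hsub : Finset.Ioc (0 : Fin (k + 1)) j ⊆
        Finset.univ.filter (fun j => j ≠ 0 ∧ f j ≤ i) := by
      intro x hx
      rw [Finset.mem_Ioc] at hx
      simp only [Finset.mem_filter, Finset.mem_univ, true_and]
      exact ⟨hx.1.ne', (hf hx.2).trans h⟩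
    have := Finset.card_le_card hsub
    rw [Fin.card_Ioc] at this
    simpa using this
  · intro h
    by_contra hcon
    rw [not_le] at hcon
    have hsub : Finset.univ.filter (fun j => j ≠ 0 ∧ f j ≤ i) ⊆
        Finset.Ioo (0 : Fin (k + 1)) j := by
      intro x hx
      simp only [Finset.mem_filter, Finset.mem_univ, true_and] at hx
      rw [Finset.mem_Ioo]
      refine ⟨Fin.pos_iff_ne_zero.2 hx.1, ?_⟩
      by_contra h2
      rw [not_lt] at h2
      exact absurd (lt_of_lt_of_le hcon (hf h2)) (not_lt.2 hx.2)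
    have := Finset.card_le_card hsub
    rw [Fin.card_Ioo] at this
    simp only [Fin.val_zero] at this
    omega

private theorem e2_inj {k : ℕ} {f g : Fin (k + 1) → Fin (k + 1)} (hf : Monotone f)
    (hg : Monotone g) (f0 : f 0 = 0) (g0 : g 0 = 0) (h : kids f = kids g) : f = g := by
  funext j
  by_cases hj : j = 0
  · rw [hj, f0, g0]
  · have key : ∀ i, f j ≤ i ↔ g j ≤ i := by
      intro i
      rw [e2_le_iff hf hj i, e2_le_iff hg hj i, e2_cnt, e2_cnt, h]
    exact le_antisymm ((key (g j)).2 le_rfl) ((key (f j)).1 le_rfl)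

private theorem e2_sum {k : ℕ} (f : Fin (k + 1) → Fin (k + 1)) : ∑ i, kids f i = k := by
  have h1 : (Finset.univ.filter (fun j : Fin (k + 1) => j ≠ 0)).card = k := by
    rw [Finset.filter_ne' Finset.univ (0 : Fin (k + 1)), Finset.card_erase_of_mem
      (Finset.mem_univ _), Finset.card_univ, Fintype.card_fin]
    rfl
  refine Eq.trans ?_ h1
  rw [Finset.card_eq_sum_card_fiberwise (f := f) (t := Finset.univ) (by
    intro x _; simp)]
  refine Finset.sum_congr rfl (fun b _ => ?_)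
  unfold kids
  rw [Finset.filter_filter]

open Classical in
/-- E2 (hint): `f` monotone with `f 0 = 0` is determined by the numbers `kids f i`, whose sum is `k`;
so `∑_f ∏_i w_i (kids f i) ≤ z^{-k} ∏_i ∑_{a ≤ k} z^a w_i(a)` for `z > 0`, `w ≥ 0`. -/
theorem sum_kids_le (k : ℕ) {z : ℝ} (hz : 0 < z) (w : Fin (k + 1) → ℕ → ℝ)
    (hw : ∀ i a, 0 ≤ w i a) :
    ∑ f ∈ (Finset.univ : Finset (Fin (k + 1) → Fin (k + 1))).filter
        (fun f => Monotone f ∧ f 0 = 0), ∏ i, w i (kids f i) ≤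
      (z ^ k)⁻¹ * ∏ i : Fin (k + 1), ∑ a ∈ range (k + 1), z ^ a * w i a := by
  rw [Finset.prod_univ_sum]
  have hzk : 0 < z ^ k := pow_pos hz k
  rw [inv_mul_eq_div, le_div_iff₀ hzk, Finset.sum_mul]
  set F := (Finset.univ : Finset (Fin (k + 1) → Fin (k + 1))).filter
        (fun f => Monotone f ∧ f 0 = 0) with hF
  have h1 : ∀ f ∈ F, (∏ i, w i (kids f i)) * z ^ k =
      (fun a : Fin (k + 1) → ℕ => ∏ i, z ^ (a i) * w i (a i)) (kids f) := by
    intro f _
    simp only []
    rw [Finset.prod_mul_distrib, Finset.prod_pow_eq_pow_sum, e2_sum, mul_comm]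
  rw [Finset.sum_congr rfl h1]
  have hinj : Set.InjOn (fun f : Fin (k + 1) → Fin (k + 1) => kids f) F := by
    intro f hf g hg hfg
    rw [hF] at hf hg
    simp only [Finset.coe_filter, Finset.mem_univ, true_and, Set.mem_ofPred_eq] at hf hg
    exact e2_inj hf.1 hg.1 hf.2 hg.2 hfg
  rw [← Finset.sum_image (f := fun a : Fin (k + 1) → ℕ => ∏ i, z ^ (a i) * w i (a i)) hinj]
  refine Finset.sum_le_sum_of_subset_of_nonneg ?_ ?_
  · intro a ha
    rw [Finset.mem_image] at ha
    obtain ⟨f, _, rfl⟩ := ha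
    rw [Fintype.mem_piFinset]
    intro i
    rw [Finset.mem_range]
    have h2 : kids f i ≤ ∑ i, kids f i :=
      Finset.single_le_sum (fun _ _ => Nat.zero_le _) (Finset.mem_univ i)
    rw [e2_sum] at h2
    omega
  · intro a _ _
    exact Finset.prod_nonneg (fun i _ => mul_nonneg (pow_nonneg hz.le _) (hw i _))

end Pool.Agent.Helper55.ML
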