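import Pool.Agent.Helper55.ML.Q1
import Pool.Agent.Helper55.ML.E3

set_option autoImplicit false
open Finset Filter Topology

namespace Pool.Agent.Helper55.ML

theorem E4_nbR {u : ℕ} {R N : Finset ℕ} (hN : N ⊆ R) :
    R.filter (fun v => s(u, v) ∈ N.image (fun v => s(u, v))) = N := by
  ext v
  rw [mem_filter, mem_image]
  constructor
  · rintro ⟨_, w, hw, he⟩
    rwa [← q1_star_inj u he]
  · intro h
    exact ⟨hN h, v, h, rfl⟩

/-- Independence of the inner edges and of the stars. -/
theorem E4_prod {K : Finset (Sym2 ℕ)} {W R : Finset ℕ} (hK : ∀ e ∈ K, ∀ v ∈ e, v ∈ W)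
    (hWR : Disjoint W R) (p : ℝ) (f : Finset (Sym2 ℕ) → ℝ) (φ : ℕ → Finset ℕ → ℝ)
    (U : Finset ℕ) (hU : U ⊆ W) :
    BE (K ∪ U.biUnion (fun u => star u R)) p
      (fun T => f (T ∩ K) * ∏ u ∈ U, φ u (R.filter (fun v => s(u, v) ∈ T))) =
    BE K p f * ∏ u ∈ U, BE R p (φ u) := by
  induction U using Finset.induction_on with
  | empty =>
    rw [biUnion_empty, union_empty, prod_empty, mul_one]
    refine BE_congr fun S hS => ?_
    rw [prod_empty, mul_one, inter_eq_left.2 hS]
  | insert a U ha ih =>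
    have haW : a ∈ W := hU (mem_insert_self a U)
    have hUW : U ⊆ W := (subset_insert a U).trans hU
    have haR : a ∉ R := fun h => disjoint_left.1 hWR haW h
    have hd : Disjoint (K ∪ U.biUnion (fun u => star u R)) (star a R) := by
      rw [disjoint_left]
      intro e he he2
      rw [mem_star] at he2
      obtain ⟨v, hv, rfl⟩ := he2
      rw [mem_union, mem_biUnion] at he
      rcases he with h | ⟨u, hu, h⟩
      · exact disjoint_left.1 hWR (hK _ h v (Sym2.mem_mk_right a v)) hv
      · rw [mem_star] at h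
        obtain ⟨w, hw, he⟩ := h
        rcases Sym2.eq_iff.1 he with ⟨h1, _⟩ | ⟨h1, h2⟩
        · exact ha (h1 ▸ hu)
        · exact haR (h2 ▸ hw)
    have hE : K ∪ (insert a U).biUnion (fun u => star u R) =
        (K ∪ U.biUnion (fun u => star u R)) ∪ star a R := by
      rw [biUnion_insert, union_comm (star a R), union_assoc]
    rw [hE, BE_union hd]
    have h1 : ∀ S ⊆ K ∪ U.biUnion (fun u => star u R),
        BE (star a R) p (fun S' => f ((S ∪ S') ∩ K) *
          ∏ u ∈ insert a U, φ u (R.filter (fun v => s(u, v) ∈ S ∪ S'))) =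
        (f (S ∩ K) * ∏ u ∈ U, φ u (R.filter (fun v => s(u, v) ∈ S))) * BE R p (φ a) := by
      intro S hS
      have h2 : BE (star a R) p (fun S' => f ((S ∪ S') ∩ K) *
          ∏ u ∈ insert a U, φ u (R.filter (fun v => s(u, v) ∈ S ∪ S'))) =
          BE (star a R) p (fun S' => (f (S ∩ K) *
            ∏ u ∈ U, φ u (R.filter (fun v => s(u, v) ∈ S))) *
            φ a (R.filter (fun v => s(a, v) ∈ S'))) := by
        refine BE_congr fun S' hS' => ?_
        have e1 : (S ∪ S') ∩ K = S ∩ K := by
          rw [union_inter_distrib_right]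
          have : S' ∩ K = ∅ := by
            rw [← disjoint_iff_inter_eq_empty]
            exact (hd.symm.mono_left hS').mono_right subset_union_left
          rw [this, union_empty]
        have e2 : R.filter (fun v => s(a, v) ∈ S ∪ S') = R.filter (fun v => s(a, v) ∈ S') := by
          refine filter_congr fun v hv => ?_
          rw [mem_union]
          constructor
          · rintro (h | h)
            · exact absurd (mem_star.2 ⟨v, hv, rfl⟩) (disjoint_left.1 hd (hS h))
            · exact h
          · exact fun h => Or.inr h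
        have e3 : ∀ u ∈ U, R.filter (fun v => s(u, v) ∈ S ∪ S') =
            R.filter (fun v => s(u, v) ∈ S) := by
          intro u hu
          refine filter_congr fun v hv => ?_
          rw [mem_union]
          constructor
          · rintro (h | h)
            · exact h
            · exfalso
              have h3 := hS' h
              rw [mem_star] at h3
              obtain ⟨w, hw, he⟩ := h3
              rcases Sym2.eq_iff.1 he with ⟨h1, _⟩ | ⟨h1, _⟩
              · exact ha (h1 ▸ hu)
              · exact haR (h1 ▸ hv)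
          · exact fun h => Or.inl h
        rw [prod_insert ha, e1, e2, prod_congr rfl (fun u hu => by rw [e3 u hu])]
        ring
      rw [h2, BE_mul_left]
      congr 1
      unfold star
      rw [BE_image (q1_star_inj a)]
      exact BE_congr fun N hN => by rw [E4_nbR hN]
    rw [BE_congr h1, BE_mul_right, ih hUW, prod_insert ha]
    ring

theorem E4_ind_forall {S : Finset ℕ} {P : ℕ → Prop} :
    ind (∀ u ∈ S, P u) = ∏ u ∈ S, ind (P u) := by
  by_cases h : ∀ u ∈ S, P u
  · rw [ind_true h, prod_congr rfl (fun u hu => ind_true (h u hu)), prod_const_one]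
  · rw [ind_false h]
    push Not at h
    obtain ⟨u, hu, hP⟩ := h
    exact (prod_eq_zero hu (ind_false hP)).symm

theorem E4_split {n : ℕ} {W : Finset ℕ} (hW : W ⊆ range n) :
    En n \ del W (En n) = Kp W ∪ W.biUnion (fun u => star u (range n \ W)) := by
  ext e
  rw [Finset.mem_sdiff, mem_del, mem_union, mem_biUnion, mem_Kp]
  constructor
  · rintro ⟨h1, h2⟩
    induction e using Sym2.ind with
    | _ a b =>
      have h3 := mk_mem_En.1 h1
      by_cases ha : a ∈ W
      · by_cases hb : b ∈ W
        · left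
          refine ⟨fun x hx => ?_, (mem_En.1 h1).2⟩
          rcases Sym2.mem_iff.1 hx with rfl | rfl
          · exact ha
          · exact hb
        · right
          exact ⟨a, ha, mem_star.2 ⟨b, Finset.mem_sdiff.2 ⟨mem_range.2 h3.2.1, hb⟩, rfl⟩⟩
      · by_cases hb : b ∈ W
        · right
          exact ⟨b, hb, mem_star.2 ⟨a, Finset.mem_sdiff.2 ⟨mem_range.2 h3.1, ha⟩,
            Sym2.eq_swap⟩⟩
        · exfalso
          refine h2 ⟨h1, fun x hx => ?_⟩
          rcases Sym2.mem_iff.1 hx with rfl | rfl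
          · exact ha
          · exact hb
  · rintro (⟨h1, h2⟩ | ⟨u, hu, h1⟩)
    · refine ⟨mem_En.2 ⟨fun x hx => mem_range.1 (hW (h1 x hx)), h2⟩, fun h3 => ?_⟩
      induction e using Sym2.ind with
      | _ a b => exact h3.2 a (Sym2.mem_mk_left a b) (h1 a (Sym2.mem_mk_left a b))
    · rw [mem_star] at h1
      obtain ⟨v, hv, rfl⟩ := h1
      rw [Finset.mem_sdiff, mem_range] at hv
      refine ⟨mk_mem_En.2 ⟨mem_range.1 (hW hu), hv.1, fun h => hv.2 (h ▸ hu)⟩, fun h3 => ?_⟩
      exact h3.2 u (Sym2.mem_mk_left u v) hu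

open Classical in
/-- E4 (hint): a fixed pattern. `A`, `B` are functions of the graph without `W`; `F` is the graph
induced on `W`. Given `del W G`, the sets `nb n G u \ W`, `u ∈ W`, are independent of each other and
of `ins W G`: `Ex_del_split` and `BE_union` (split `En n \ del W (En n)` into `Kp W` and the stars
`star u (range n \ W)`). `w` is any weight function satisfying the bound of `weight_bound`. -/
theorem pattern_bound {d n : ℕ} {p : ℝ} (h0 : 0 ≤ p) (h1 : p ≤ 1) (w : ℕ → ℝ)
    (hw0 : ∀ i, 0 ≤ w i) {W : Finset ℕ}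
    (hW : W ⊆ range n) (F : Finset (Sym2 ℕ)) (hF : F ⊆ Kp W) (Z : Finset ℕ)
    (A B : Finset (Sym2 ℕ) → Finset ℕ) (Ok : Finset (Sym2 ℕ) → Prop)
    (hOk : ∀ H, Ok H → A H ⊆ B H ∧ B H ⊆ range n \ W)
    (hw : ∀ H, Ok H → ∀ i, BE (range n \ W) p (fun N => ind ((N ∩ A H).card + 1 ≤ d ∧
      d + 1 ≤ i + (N ∩ B H).card)) ≤ w i) :
    Pr n p (fun G => ins W G = F ∧ Ok (del W G) ∧ ∀ u ∈ W \ Z,
        (nb n G u ∩ A (del W G)).card + 1 ≤ d ∧
        d + 1 ≤ (nb n G u ∩ W).card + (nb n G u ∩ B (del W G)).card) ≤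
      p ^ F.card * ∏ u ∈ W \ Z, w ((nb n F u).card) := by
  set R : Finset ℕ := range n \ W with hR
  set ψ : Finset (Sym2 ℕ) → ℕ → Finset ℕ → ℝ := fun H u N => if u ∈ Z then 1 else
    ind ((N ∩ A H).card + 1 ≤ d ∧ d + 1 ≤ (nb n F u).card + (N ∩ B H).card) with hψ
  set Φ : Finset (Sym2 ℕ) → Finset (Sym2 ℕ) → ℝ := fun H T => ind (Ok H) *
    ((fun S => ind (S = F)) (T ∩ Kp W) * ∏ u ∈ W, ψ H u (R.filter (fun v => s(u, v) ∈ T))) with hΦ
  have hKW : ∀ e ∈ Kp W, ∀ v ∈ e, v ∈ W := fun e he => (mem_Kp.1 he).1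
  have hWR : Disjoint W R := disjoint_sdiff
  have key : ∀ G ⊆ En n, ind (ins W G = F ∧ Ok (del W G) ∧ ∀ u ∈ W \ Z,
        (nb n G u ∩ A (del W G)).card + 1 ≤ d ∧
        d + 1 ≤ (nb n G u ∩ W).card + (nb n G u ∩ B (del W G)).card) ≤
      Φ (del W G) (G \ del W G) := by
    intro G hG
    have hnn : 0 ≤ Φ (del W G) (G \ del W G) := by
      refine mul_nonneg (ind_nonneg _) (mul_nonneg (ind_nonneg _) (prod_nonneg fun u _ => ?_))
      simp only [hψ]
      split_ifs
      · exact zero_le_one
      · exact ind_nonneg _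
    by_cases hev : (ins W G = F ∧ Ok (del W G) ∧ ∀ u ∈ W \ Z,
        (nb n G u ∩ A (del W G)).card + 1 ≤ d ∧
        d + 1 ≤ (nb n G u ∩ W).card + (nb n G u ∩ B (del W G)).card)
    · obtain ⟨e1, e2, e3⟩ := hev
      have hab := hOk _ e2
      have hT : (G \ del W G) ∩ Kp W = F := by
        rw [← e1]
        ext e
        rw [mem_inter, Finset.mem_sdiff, mem_ins, mem_Kp, mem_del]
        constructor
        · rintro ⟨⟨a1, _⟩, a3, _⟩
          exact ⟨a1, a3⟩
        · rintro ⟨a1, a2⟩
          refine ⟨⟨a1, fun h => ?_⟩, a2, (mem_En.1 (hG a1)).2⟩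
          induction e using Sym2.ind with
          | _ a b => exact h.2 a (Sym2.mem_mk_left a b) (a2 a (Sym2.mem_mk_left a b))
      have hN : ∀ u ∈ W, ∀ C ⊆ R, R.filter (fun v => s(u, v) ∈ G \ del W G) ∩ C =
          nb n G u ∩ C := by
        intro u hu C hC
        ext v
        rw [mem_inter, mem_inter, mem_filter, mem_nb]
        constructor
        · rintro ⟨⟨a1, a2⟩, a3⟩
          exact ⟨⟨mem_range.1 (Finset.mem_sdiff.1 a1).1, (Finset.mem_sdiff.1 a2).1⟩, a3⟩
        · rintro ⟨⟨a1, a2⟩, a3⟩
          exact ⟨⟨hC a3, Finset.mem_sdiff.2 ⟨a2, fun h =>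
            (mem_del.1 h).2 u (Sym2.mem_mk_left u v) hu⟩⟩, a3⟩
      have hnF : ∀ u ∈ W, nb n F u = nb n G u ∩ W := by
        intro u hu
        ext v
        rw [mem_inter, mem_nb, mem_nb, ← e1, mem_ins]
        constructor
        · rintro ⟨a1, a2, a3⟩
          exact ⟨⟨a1, a2⟩, a3 v (Sym2.mem_mk_right u v)⟩
        · rintro ⟨⟨a1, a2⟩, a3⟩
          refine ⟨a1, a2, fun x hx => ?_⟩
          rcases Sym2.mem_iff.1 hx with rfl | rfl
          · exact hu
          · exact a3
      have hone : Φ (del W G) (G \ del W G) = 1 := by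
        simp only [hΦ, ind_true e2, hT, ind_true, one_mul]
        refine prod_eq_one fun u hu => ?_
        simp only [hψ]
        split_ifs with hz
        · rfl
        · rw [hN u hu _ (hab.1.trans hab.2), hN u hu _ hab.2, hnF u hu]
          exact ind_true (e3 u (Finset.mem_sdiff.2 ⟨hu, hz⟩))
      rw [hone]
      exact ind_le_one _
    · rw [ind_false hev]
      exact hnn
  have hB0 : 0 ≤ p ^ F.card * ∏ u ∈ W \ Z, w ((nb n F u).card) :=
    mul_nonneg (pow_nonneg h0 _) (prod_nonneg fun u _ => hw0 _)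
  unfold Pr
  refine (Ex_mono h0 h1 key).trans ?_
  rw [Ex_del_split n W p Φ]
  have hconst : Ex n p (fun _ => p ^ F.card * ∏ u ∈ W \ Z, w ((nb n F u).card)) =
      p ^ F.card * ∏ u ∈ W \ Z, w ((nb n F u).card) := Ex_const _
  rw [← hconst]
  refine Ex_mono h0 h1 fun G _ => ?_
  rw [E4_split hW]
  by_cases hok : Ok (del W G)
  · have h2 : BE (Kp W ∪ W.biUnion (fun u => star u R)) p (fun T => Φ (del W G) T) =
        BE (Kp W) p (fun S => ind (S = F)) * ∏ u ∈ W, BE R p (ψ (del W G) u) := by
      rw [← E4_prod hKW hWR p (fun S => ind (S = F)) (ψ (del W G)) W (Subset.refl W)]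
      refine BE_congr fun T _ => ?_
      simp only [hΦ, ind_true hok, one_mul]
    rw [h2]
    have h3 : BE (Kp W) p (fun S => ind (S = F)) ≤ p ^ F.card := by
      unfold BE
      rw [Finset.sum_eq_single_of_mem F (mem_powerset.2 hF)]
      · simp only [ind_true, mul_one]
        exact mul_le_of_le_one_right (pow_nonneg h0 _)
          (pow_le_one₀ (by linarith) (by linarith))
      · intro S _ hS
        simp only [ind_false hS, mul_zero]
    have h4 : ∏ u ∈ W, BE R p (ψ (del W G) u) ≤ ∏ u ∈ W \ Z, w ((nb n F u).card) := by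
      have h5 : ∏ u ∈ W \ Z, w ((nb n F u).card) =
          ∏ u ∈ W, (if u ∈ Z then 1 else w ((nb n F u).card)) := by
        rw [← Finset.prod_sdiff (Finset.inter_subset_left (s₁ := W) (s₂ := Z))]
        have h6 : ∏ u ∈ W ∩ Z, (if u ∈ Z then (1 : ℝ) else w ((nb n F u).card)) = 1 :=
          prod_eq_one fun u hu => if_pos (mem_inter.1 hu).2
        rw [h6, mul_one, Finset.sdiff_inter_self_left]
        exact prod_congr rfl fun u hu => (if_neg (Finset.mem_sdiff.1 hu).2).symm
      rw [h5]
      refine Finset.prod_le_prod (fun u _ => ?_) (fun u _ => ?_)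
      · refine BE_nonneg h0 h1 fun S _ => ?_
        simp only [hψ]
        split_ifs
        · exact zero_le_one
        · exact ind_nonneg _
      · simp only [hψ]
        by_cases hz : u ∈ Z
        · simp only [if_pos hz]
          exact (BE_const 1).le
        · simp only [if_neg hz]
          exact hw _ hok _
    exact mul_le_mul h3 h4 (prod_nonneg fun u _ => BE_nonneg h0 h1 fun S _ => by
      simp only [hψ]
      split_ifs
      · exact zero_le_one
      · exact ind_nonneg _) (pow_nonneg h0 _)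
  · have h2 : BE (Kp W ∪ W.biUnion (fun u => star u R)) p (fun T => Φ (del W G) T) = 0 := by
      have h3 : BE (Kp W ∪ W.biUnion (fun u => star u R)) p (fun T => Φ (del W G) T) =
          BE (Kp W ∪ W.biUnion (fun u => star u R)) p (fun _ => (0 : ℝ)) := by
        refine BE_congr fun T _ => ?_
        simp only [hΦ, ind_false hok, zero_mul]
      rw [h3, BE_const]
    rw [h2]
    exact hB0

end Pool.Agent.Helper55.ML
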