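import Pool.Agent.Helper55.ML.E0
import Pool.Agent.Helper55.ML.E4

set_option autoImplicit false
open Finset Filter Topology

namespace Pool.Agent.Helper55.ML

private theorem e5b_mem_tree {k : ℕ} {f : Fin (k + 1) → Fin (k + 1)} {e : Sym2 (Fin (k + 1))} :
    e ∈ treeE f ↔ ∃ j, j ≠ 0 ∧ s(f j, j) = e := by
  unfold treeE
  rw [Finset.mem_image]
  simp

private theorem e5b_tree_card {k : ℕ} {f : Fin (k + 1) → Fin (k + 1)}
    (hf : ∀ j, j ≠ 0 → f j < j) : (treeE f).card = k := by
  unfold treeE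
  rw [Finset.card_image_of_injOn]
  · rw [Finset.card_erase_of_mem (Finset.mem_univ _), Finset.card_univ, Fintype.card_fin]
    omega
  · intro a ha b hb hab
    have ha' : a ≠ 0 := by simpa using ha
    have hb' : b ≠ 0 := by simpa using hb
    simp only [Sym2.eq_iff] at hab
    rcases hab with ⟨_, h⟩ | ⟨h1, h2⟩
    · exact h
    · exfalso
      have h3 := hf a ha'
      have h4 := hf b hb'
      rw [h1] at h3
      rw [← h2] at h4
      exact lt_asymm h3 h4

/-- degree of an ordinary index -/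
private theorem e5b_deg {n k : ℕ} {u : Fin (k + 1) → ℕ} (hu : Function.Injective u)
    (hun : ∀ i, u i < n) {f : Fin (k + 1) → Fin (k + 1)} (hf : ∀ j, j ≠ 0 → f j < j)
    {X : Finset (Sym2 (Fin (k + 1)))} {i : Fin (k + 1)} (hi : i ≠ 0) (hX : ∀ e ∈ X, i ∉ e) :
    (nb n ((treeE f ∪ X).image (Sym2.map u)) (u i)).card = kids f i + 1 := by
  have h1 : nb n ((treeE f ∪ X).image (Sym2.map u)) (u i) =
      (insert (f i) (Finset.univ.filter (fun j => j ≠ 0 ∧ f j = i))).image u := by
    ext y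
    rw [mem_nb, Finset.mem_image, Finset.mem_image]
    constructor
    · rintro ⟨_, e, he, heq⟩
      rcases Finset.mem_union.1 he with he | he
      · obtain ⟨j, hj, rfl⟩ := e5b_mem_tree.1 he
        rw [Sym2.map_mk, Sym2.eq_iff] at heq
        rcases heq with ⟨h2, h3⟩ | ⟨h2, h3⟩
        · refine ⟨j, ?_, h3⟩
          rw [Finset.mem_insert, Finset.mem_filter]
          exact Or.inr ⟨Finset.mem_univ _, hj, hu h2⟩
        · have h4 := hu h3
          subst h4
          exact ⟨f j, Finset.mem_insert_self _ _, h2⟩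
      · exfalso
        induction e using Sym2.ind with
        | _ a b =>
          rw [Sym2.map_mk, Sym2.eq_iff] at heq
          rcases heq with ⟨h2, _⟩ | ⟨_, h3⟩
          · have h4 := hu h2
            subst h4
            exact hX _ he (Sym2.mem_mk_left a b)
          · have h4 := hu h3
            subst h4
            exact hX _ he (Sym2.mem_mk_right a b)
    · rintro ⟨j, hj, rfl⟩
      refine ⟨hun j, ?_⟩
      rw [Finset.mem_insert, Finset.mem_filter] at hj
      rcases hj with rfl | ⟨_, hj0, hj⟩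
      · refine ⟨s(f i, i), Finset.mem_union_left _ (e5b_mem_tree.2 ⟨i, hi, rfl⟩), ?_⟩
        rw [Sym2.map_mk]
        exact Sym2.eq_swap
      · refine ⟨s(f j, j), Finset.mem_union_left _ (e5b_mem_tree.2 ⟨j, hj0, rfl⟩), ?_⟩
        rw [Sym2.map_mk, hj]
  rw [h1, Finset.card_image_of_injective _ hu, Finset.card_insert_of_notMem, kids]
  rw [Finset.mem_filter]
  rintro ⟨_, h2, h3⟩
  have h4 := hf _ h2
  rw [h3] at h4
  exact lt_asymm h4 (hf i hi)

/-- E5b (hint): `pattern_bound` (E4) with `W = image of u`, `F = (treeE f ∪ X).image (Sym2.map u)`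
(`k + m` elements if `X` is disjoint from `treeE f`; otherwise the event is empty),
`Z = image of Z`, weight function `i ↦ min 1 (om d c x τ i)` (an expectation of an indicator is at most
one), `Ok H` = the four conditions on `A H`, `B H` in `Struct`. For an index `i` outside
`{0} ∪ Z ∪ V(X)` the degree of `u i` in `F` is `kids f i + 1`. -/
theorem pat_prob {d n : ℕ} {c x η ε τ : ℝ} {p : ℝ} (h0 : 0 ≤ p) (h1 : p ≤ 1)
    (hw : ∀ A B E : Finset ℕ, A ⊆ B → B ⊆ E → E ⊆ range n →
        (x - η) * n ≤ (A.card : ℝ) → (B.card : ℝ) ≤ (x + ε) * n → ∀ i : ℕ,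
          BE E p (fun N => ind ((N ∩ A).card + 1 ≤ d ∧ d + 1 ≤ i + (N ∩ B).card)) ≤
            om d c x τ i)
    (hom : ∀ i, 0 ≤ om d c x τ i)
    (A B : Finset (Sym2 ℕ) → Finset ℕ) {k m s : ℕ} {q : Patt k} (hq : q ∈ pats n k m s) :
    Pr n p (PatEv d n x η ε A B q) ≤
      p ^ (k + m) * ∏ i : Fin (k + 1), wt d c x τ q.2.2.1 q.2.2.2 i (kids q.2.1 i) := by
  classical
  obtain ⟨u, f, X, Z⟩ := q
  unfold pats at hq
  rw [Finset.mem_product, Finset.mem_product, Finset.mem_product, Finset.mem_filter,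
    Finset.mem_filter, Finset.mem_filter, Finset.mem_powersetCard] at hq
  simp only [Fintype.mem_piFinset, Finset.mem_range] at hq
  obtain ⟨⟨hun, hu⟩, ⟨_, _, _, hf⟩, ⟨_, hXm⟩, _, _⟩ := hq
  have hwt0 : ∀ i : Fin (k + 1), 0 ≤ wt d c x τ X Z i (kids f i) := by
    intro i
    unfold wt
    split_ifs
    · exact zero_le_one
    · exact hom _
  change Pr n p (PatEv d n x η ε A B (u, f, X, Z)) ≤
      p ^ (k + m) * ∏ i : Fin (k + 1), wt d c x τ X Z i (kids f i)
  by_cases hX : Disjoint X (treeE f) ∧ ∀ e ∈ X, ¬ e.IsDiag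
  swap
  · have h2 : Pr n p (PatEv d n x η ε A B (u, f, X, Z)) = 0 := by
      unfold Pr
      rw [← Ex_const (n := n) (p := p) (0 : ℝ)]
      refine Ex_congr (fun G _ => ind_false ?_)
      intro hG
      exact hX ⟨hG.1, hG.2.1⟩
    rw [h2]
    exact mul_nonneg (pow_nonneg h0 _) (Finset.prod_nonneg (fun i _ => hwt0 i))
  obtain ⟨hX1, hX2⟩ := hX
  set W : Finset ℕ := Finset.univ.image u with hW
  set F : Finset (Sym2 ℕ) := (treeE f ∪ X).image (Sym2.map u) with hF
  have hWn : W ⊆ range n := by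
    intro y hy
    rw [hW, Finset.mem_image] at hy
    obtain ⟨i, _, rfl⟩ := hy
    exact Finset.mem_range.2 (hun i)
  have hFcard : F.card = k + m := by
    rw [hF, Finset.card_image_of_injective _ (Sym2.map.injective hu),
      Finset.card_union_of_disjoint hX1.symm, e5b_tree_card hf, hXm]
  have hFW : F ⊆ Kp W := by
    intro e he
    rw [hF, Finset.mem_image] at he
    obtain ⟨e', he', rfl⟩ := he
    have hnd : ¬ e'.IsDiag := by
      rcases Finset.mem_union.1 he' with h2 | h2
      · obtain ⟨j, hj, rfl⟩ := e5b_mem_tree.1 h2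
        rw [Sym2.mk_isDiag_iff]
        exact ne_of_lt (hf j hj)
      · exact hX2 e' h2
    induction e' using Sym2.ind with
    | _ a b =>
      rw [Sym2.mk_isDiag_iff] at hnd
      rw [Sym2.map_mk, mk_mem_Kp]
      exact ⟨Finset.mem_image_of_mem u (Finset.mem_univ a),
        Finset.mem_image_of_mem u (Finset.mem_univ b), fun h => hnd (hu h)⟩
  set Ok : Finset (Sym2 ℕ) → Prop := fun H => A H ⊆ B H ∧ B H ⊆ range n \ W ∧
    (x - η) * n ≤ ((A H).card : ℝ) ∧ ((B H).card : ℝ) ≤ (x + ε) * n with hOk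
  have hmain := pattern_bound (d := d) (n := n) h0 h1 (fun i => min 1 (om d c x τ i))
    (fun i => le_min zero_le_one (hom i)) hWn F hFW (Z.image u) A B Ok
    (fun H hH => ⟨hH.1, hH.2.1⟩)
    (fun H hH i => le_min
      (by
        have h2 := BE_mono (E := range n \ W) (p := p)
          (f := fun N => ind ((N ∩ A H).card + 1 ≤ d ∧ d + 1 ≤ i + (N ∩ B H).card))
          (g := fun _ => (1 : ℝ)) h0 h1 (fun _ _ => ind_le_one _)
        rwa [BE_const] at h2)
      (hw (A H) (B H) (range n \ W) hH.1 hH.2.1 Finset.sdiff_subset hH.2.2.1 hH.2.2.2 i))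
  have hle : Pr n p (PatEv d n x η ε A B (u, f, X, Z)) ≤
      Pr n p (fun G => ins W G = F ∧ Ok (del W G) ∧ ∀ v ∈ W \ Z.image u,
        (nb n G v ∩ A (del W G)).card + 1 ≤ d ∧
        d + 1 ≤ (nb n G v ∩ W).card + (nb n G v ∩ B (del W G)).card) := by
    refine Pr_mono h0 h1 (fun G _ hG => ?_)
    obtain ⟨_, _, h3, h4⟩ := hG
    obtain ⟨_, _, _, _, g1, g2, g3, g4, g5⟩ := h4
    exact ⟨h3, ⟨g1, g2, g3, g4⟩, g5⟩
  refine hle.trans (hmain.trans ?_)
  rw [hFcard]
  refine mul_le_mul_of_nonneg_left ?_ (pow_nonneg h0 _)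
  have hsd : W \ Z.image u = (Finset.univ \ Z).image u := by
    rw [hW, Finset.image_sdiff _ _ hu]
  rw [hsd, Finset.prod_image (fun a _ b _ h => hu h)]
  have hext : ∏ i ∈ Finset.univ \ Z, min 1 (om d c x τ (nb n F (u i)).card) =
      ∏ i : Fin (k + 1), if i ∈ Z then 1 else min 1 (om d c x τ (nb n F (u i)).card) := by
    rw [← Finset.prod_sdiff (Finset.subset_univ Z)]
    rw [Finset.prod_congr (rfl : Z = Z) (g := fun _ => (1 : ℝ)) (fun i hi => by rw [if_pos hi]),
      Finset.prod_const_one, mul_one]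
    refine Finset.prod_congr rfl (fun i hi => ?_)
    rw [if_neg (Finset.mem_sdiff.1 hi).2]
  rw [hext]
  refine Finset.prod_le_prod (fun i _ => ?_) (fun i _ => ?_)
  · split_ifs
    · exact zero_le_one
    · exact le_min zero_le_one (hom _)
  · unfold wt
    by_cases hiZ : i ∈ Z
    · rw [if_pos hiZ, if_pos (Or.inr (Or.inl hiZ))]
    · rw [if_neg hiZ]
      by_cases hi : i = 0 ∨ i ∈ Z ∨ (∃ e ∈ X, i ∈ e)
      · rw [if_pos hi]
        exact min_le_left _ _
      · rw [if_neg hi]
        have hi0 : i ≠ 0 := fun h => hi (Or.inl h)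
        have hiX : ∀ e ∈ X, i ∉ e := fun e he h => hi (Or.inr (Or.inr ⟨e, he, h⟩))
        rw [hF, e5b_deg hu hun hf hi0 hiX]
        exact min_le_right _ _

end Pool.Agent.Helper55.ML
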