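import Pool.Agent.Helper55.ML.E5a
import Pool.Agent.Helper55.ML.E5b
import Pool.Agent.Helper55.ML.A1

set_option autoImplicit false
open Finset Filter Topology

namespace Pool.Agent.Helper55.ML

private theorem e5_phi_nonneg (k : ℕ) {μ : ℝ} (h : 0 ≤ μ) : 0 ≤ phi k μ := by
  unfold phi; positivity

private theorem e5_om_nonneg {d : ℕ} {c x τ : ℝ} (hcx : 0 ≤ c * x) (hτ : 0 < τ) (i : ℕ) :
    0 ≤ om d c x τ i := by
  unfold om
  split_ifs
  · exact hτ.le
  · have := e5_phi_nonneg (d - 1) hcx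
    linarith
  · norm_num

private theorem e5_wt_nonneg {d : ℕ} {c x τ : ℝ} (hcx : 0 ≤ c * x) (hτ : 0 < τ) {k : ℕ}
    (X : Finset (Sym2 (Fin (k + 1)))) (Z : Finset (Fin (k + 1))) (i : Fin (k + 1)) (a : ℕ) :
    0 ≤ wt d c x τ X Z i a := by
  unfold wt
  split_ifs
  · norm_num
  · exact e5_om_nonneg hcx hτ _

private theorem e5_geom {z : ℝ} (h0 : 0 < z) (h1 : z < 1) (k : ℕ) :
    ∑ a ∈ range (k + 1), z ^ a ≤ 1 / (1 - z) := by
  rw [le_div_iff₀ (by linarith)]
  have h := geom_sum_mul_neg z (k + 1)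
  have h2 : 0 < z ^ (k + 1) := pow_pos h0 _
  linarith

private theorem e5_toFinset_card {α : Type*} [DecidableEq α] (e : Sym2 α) :
    e.toFinset.card ≤ 2 := by
  induction e using Sym2.ind with
  | _ a b =>
    rw [Sym2.toFinset_mk_eq]
    exact Finset.card_le_two

open Classical in
private theorem e5_prod {d : ℕ} {c x τ z g K1 : ℝ} (hcx : 0 ≤ c * x) (hτ : 0 < τ) (hz0 : 0 < z)
    (hz1 : z < 1) (hg : 0 < g) (hK1 : 1 ≤ K1) (hTK : 1 / (1 - z) ≤ g * K1)
    (hsum : ∀ k : ℕ, ∑ a ∈ range (k + 1), z ^ a * om d c x τ (a + 1) ≤ g) {k m s : ℕ}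
    (X : Finset (Sym2 (Fin (k + 1)))) (hX : X.card = m) (Z : Finset (Fin (k + 1)))
    (hZ : Z.card ≤ s) :
    ∏ i : Fin (k + 1), ∑ a ∈ range (k + 1), z ^ a * wt d c x τ X Z i a ≤
      g ^ (k + 1) * K1 ^ (1 + s + 2 * m) := by
  set E : Finset (Fin (k + 1)) := {0} ∪ Z ∪ X.biUnion (fun e => e.toFinset) with hE
  have hmem : ∀ i, i ∈ E ↔ (i = 0 ∨ i ∈ Z ∨ ∃ e ∈ X, i ∈ e) := by
    intro i
    rw [hE]
    simp only [Finset.mem_union, Finset.mem_singleton, Finset.mem_biUnion, Sym2.mem_toFinset,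
      or_assoc]
  have hEc : E.card ≤ 1 + s + 2 * m := by
    have h1 : (X.biUnion (fun e => e.toFinset)).card ≤ 2 * m := by
      refine Finset.card_biUnion_le.trans ?_
      calc ∑ e ∈ X, e.toFinset.card ≤ ∑ _e ∈ X, 2 :=
            Finset.sum_le_sum (fun e _ => e5_toFinset_card e)
        _ = 2 * m := by rw [Finset.sum_const, hX, smul_eq_mul, mul_comm]
    have h2 := Finset.card_union_le ({0} ∪ Z) (X.biUnion (fun e => e.toFinset))
    have h3 := Finset.card_union_le ({0} : Finset (Fin (k + 1))) Z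
    rw [Finset.card_singleton] at h3
    rw [← hE] at h2
    omega
  have hpt : ∀ i : Fin (k + 1), ∑ a ∈ range (k + 1), z ^ a * wt d c x τ X Z i a ≤
      g * (if i ∈ E then K1 else 1) := by
    intro i
    by_cases hi : i ∈ E
    · rw [if_pos hi]
      have hi' := (hmem i).1 hi
      have : ∑ a ∈ range (k + 1), z ^ a * wt d c x τ X Z i a = ∑ a ∈ range (k + 1), z ^ a := by
        refine Finset.sum_congr rfl (fun a _ => ?_)
        unfold wt
        rw [if_pos hi', mul_one]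
      rw [this]
      exact (e5_geom hz0 hz1 k).trans hTK
    · rw [if_neg hi, mul_one]
      have hi' := fun h => hi ((hmem i).2 h)
      have : ∑ a ∈ range (k + 1), z ^ a * wt d c x τ X Z i a =
          ∑ a ∈ range (k + 1), z ^ a * om d c x τ (a + 1) := by
        refine Finset.sum_congr rfl (fun a _ => ?_)
        unfold wt
        rw [if_neg hi']
      rw [this]
      exact hsum k
  calc ∏ i : Fin (k + 1), ∑ a ∈ range (k + 1), z ^ a * wt d c x τ X Z i a
      ≤ ∏ i : Fin (k + 1), (g * (if i ∈ E then K1 else 1)) :=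
        Finset.prod_le_prod (fun i _ => Finset.sum_nonneg (fun a _ =>
          mul_nonneg (pow_nonneg hz0.le _) (e5_wt_nonneg hcx hτ X Z i a))) (fun i _ => hpt i)
    _ = g ^ (k + 1) * K1 ^ E.card := by
        rw [Finset.prod_mul_distrib, Finset.prod_const, Finset.card_univ, Fintype.card_fin,
          Finset.prod_ite_mem, Finset.univ_inter, Finset.prod_const]
    _ ≤ g ^ (k + 1) * K1 ^ (1 + s + 2 * m) :=
        mul_le_mul_of_nonneg_left (pow_le_pow_right₀ hK1 hEc) (pow_nonneg hg.le _)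

open Classical in
private theorem e5_inner {d : ℕ} {c x τ z g K1 : ℝ} (hcx : 0 ≤ c * x) (hτ : 0 < τ) (hz0 : 0 < z)
    (hz1 : z < 1) (hg : 0 < g) (hK1 : 1 ≤ K1) (hTK : 1 / (1 - z) ≤ g * K1)
    (hsum : ∀ k : ℕ, ∑ a ∈ range (k + 1), z ^ a * om d c x τ (a + 1) ≤ g) {k m s : ℕ}
    (X : Finset (Sym2 (Fin (k + 1)))) (hX : X.card = m) (Z : Finset (Fin (k + 1)))
    (hZ : Z.card ≤ s) :
    ∑ f ∈ (Finset.univ : Finset (Fin (k + 1) → Fin (k + 1))).filter
      (fun f => Monotone f ∧ f 0 = 0 ∧ ∀ j, j ≠ 0 → f j < j),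
        ∏ i, wt d c x τ X Z i (kids f i) ≤
      (z ^ k)⁻¹ * (g ^ (k + 1) * K1 ^ (1 + s + 2 * m)) := by
  refine le_trans ?_ (le_trans (sum_kids_le k hz0 (fun i a => wt d c x τ X Z i a)
    (fun i a => e5_wt_nonneg hcx hτ X Z i a)) ?_)
  · refine Finset.sum_le_sum_of_subset_of_nonneg ?_ ?_
    · intro f hf
      rw [Finset.mem_filter] at hf ⊢
      exact ⟨hf.1, hf.2.1, hf.2.2.1⟩
    · intro f _ _
      exact Finset.prod_nonneg (fun i _ => e5_wt_nonneg hcx hτ X Z i _)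
  · exact mul_le_mul_of_nonneg_left
      (e5_prod hcx hτ hz0 hz1 hg hK1 hTK hsum X hX Z hZ) (inv_nonneg.2 (pow_nonneg hz0.le _))

open Classical in
private theorem e5_cardZ (N s : ℕ) :
    ((Finset.univ : Finset (Finset (Fin N))).filter (fun Z => Z.card ≤ s)).card ≤ (N + 1) ^ s := by
  have h1 : ((Finset.univ : Finset (Finset (Fin N))).filter (fun Z => Z.card ≤ s)) ⊆
      (range (s + 1)).biUnion (fun j => (Finset.univ : Finset (Fin N)).powersetCard j) := by
    intro Z hZ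
    rw [Finset.mem_filter] at hZ
    rw [Finset.mem_biUnion]
    exact ⟨Z.card, Finset.mem_range.2 (Nat.lt_succ_of_le hZ.2),
      Finset.mem_powersetCard.2 ⟨Finset.subset_univ _, rfl⟩⟩
  calc ((Finset.univ : Finset (Finset (Fin N))).filter (fun Z => Z.card ≤ s)).card
      ≤ ((range (s + 1)).biUnion (fun j => (Finset.univ : Finset (Fin N)).powersetCard j)).card :=
        Finset.card_le_card h1
    _ ≤ ∑ j ∈ range (s + 1), ((Finset.univ : Finset (Fin N)).powersetCard j).card :=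
        Finset.card_biUnion_le
    _ ≤ ∑ j ∈ range (s + 1), N ^ j * 1 ^ (s - j) * s.choose j := by
        refine Finset.sum_le_sum (fun j hj => ?_)
        rw [Finset.card_powersetCard, Finset.card_univ, Fintype.card_fin, one_pow, mul_one]
        have h2 : N.choose j ≤ N ^ j := Nat.choose_le_pow N j
        have h3 : 1 ≤ s.choose j :=
          Nat.choose_pos (Nat.lt_succ_iff.1 (Finset.mem_range.1 hj))
        calc N.choose j ≤ N ^ j := h2
          _ = N ^ j * 1 := (mul_one _).symm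
          _ ≤ N ^ j * s.choose j := Nat.mul_le_mul_left _ h3
    _ = (N + 1) ^ s := (add_pow N 1 s).symm

private theorem e5_cardX (k m : ℕ) :
    ((Finset.univ : Finset (Sym2 (Fin (k + 1)))).powersetCard m).card ≤ (k + 2) ^ (2 * m) := by
  rw [Finset.card_powersetCard, Finset.card_univ, Sym2.card, Fintype.card_fin]
  refine (Nat.choose_le_pow _ _).trans ?_
  rw [pow_mul]
  refine Nat.pow_le_pow_left ?_ m
  have h : (k + 1 + 1).choose 2 ≤ (k + 2) ^ 2 := Nat.choose_le_pow _ _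
  exact h

private theorem e5_algebra {c z g K K1 : ℝ} (hc : 0 < c) (hz0 : 0 < z) (hg : 0 < g)
    (hK1 : 1 ≤ K1) (hKK1 : K1 ≤ K) (hKc : c ≤ K) (hKz : z / c ≤ K) {n : ℕ} (hn : 1 ≤ n)
    {k m s : ℕ} {e : ℤ} (he : -1 ≤ e) (hm : m = (e + 1).toNat) :
    (n : ℝ) ^ (k + 1) * ((c / n) ^ (k + m) * (((k : ℝ) + 2) ^ (2 * m) * (((k : ℝ) + 2) ^ s *
      ((z ^ k)⁻¹ * (g ^ (k + 1) * K1 ^ (1 + s + 2 * m)))))) ≤
      (n : ℝ) ^ (-e) * (c * g / z) ^ (k + 1) * (K * (k + 2)) ^ (5 * (s + 4 * (e.toNat + 2))) := by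
  have hn0 : (0 : ℝ) < n := by exact_mod_cast hn
  have hK1' : 1 ≤ K := hK1.trans hKK1
  set Q : ℝ := (k : ℝ) + 2 with hQ
  have hQ1 : 1 ≤ Q := by
    have : (0 : ℝ) ≤ k := Nat.cast_nonneg k
    linarith
  have hzp : (n : ℝ) ^ (-e) = n / (n : ℝ) ^ m := by
    have h1 : -e = (1 : ℤ) - (m : ℤ) := by omega
    rw [h1, zpow_sub₀ hn0.ne', zpow_one, zpow_natCast]
  have heq : (n : ℝ) ^ (k + 1) * ((c / n) ^ (k + m) * (Q ^ (2 * m) * (Q ^ s *
      ((z ^ k)⁻¹ * (g ^ (k + 1) * K1 ^ (1 + s + 2 * m)))))) =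
      (n : ℝ) ^ (-e) * (c * g / z) ^ (k + 1) *
        ((z / c) * c ^ m * K1 ^ (1 + s + 2 * m) * Q ^ (2 * m + s)) := by
    rw [hzp, div_pow, div_pow, mul_pow, pow_add (n : ℝ) k 1, pow_add c k m, pow_add (n : ℝ) k m,
      pow_add Q (2 * m) s, pow_add c k 1, pow_add z k 1, pow_one, pow_one, pow_one]
    field_simp
  rw [heq]
  refine mul_le_mul_of_nonneg_left ?_ (by positivity)
  have hN1 : 1 + m + (1 + s + 2 * m) ≤ 5 * (s + 4 * (e.toNat + 2)) := by omega
  have hN2 : 2 * m + s ≤ 5 * (s + 4 * (e.toNat + 2)) := by omega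
  calc (z / c) * c ^ m * K1 ^ (1 + s + 2 * m) * Q ^ (2 * m + s)
      ≤ (K * K ^ m * K ^ (1 + s + 2 * m)) * Q ^ (2 * m + s) := by
        refine mul_le_mul_of_nonneg_right ?_ (by positivity)
        refine mul_le_mul ?_ (pow_le_pow_left₀ (by linarith) hKK1 _) (by positivity) (by positivity)
        exact mul_le_mul hKz (pow_le_pow_left₀ hc.le hKc _) (by positivity) (by linarith)
    _ = K ^ (1 + m + (1 + s + 2 * m)) * Q ^ (2 * m + s) := by
        rw [pow_add K (1 + m), pow_add K 1 m, pow_one]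
    _ ≤ K ^ (5 * (s + 4 * (e.toNat + 2))) * Q ^ (5 * (s + 4 * (e.toNat + 2))) :=
        mul_le_mul (pow_le_pow_right₀ hK1' hN1) (pow_le_pow_right₀ hQ1 hN2) (by positivity)
          (by positivity)
    _ = (K * Q) ^ (5 * (s + 4 * (e.toNat + 2))) := (mul_pow _ _ _).symm

open Classical in
private theorem e5_sum {d : ℕ} {c x τ z g K1 p : ℝ} (hcx : 0 ≤ c * x) (hτ : 0 < τ) (hz0 : 0 < z)
    (hz1 : z < 1) (hg : 0 < g) (hK1 : 1 ≤ K1) (hTK : 1 / (1 - z) ≤ g * K1) (hp : 0 ≤ p)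
    (hsum : ∀ k : ℕ, ∑ a ∈ range (k + 1), z ^ a * om d c x τ (a + 1) ≤ g) (n k m s : ℕ) :
    ∑ q ∈ pats n k m s,
      p ^ (k + m) * ∏ i : Fin (k + 1), wt d c x τ q.2.2.1 q.2.2.2 i (kids q.2.1 i) ≤
    (n : ℝ) ^ (k + 1) * (p ^ (k + m) * (((k : ℝ) + 2) ^ (2 * m) * (((k : ℝ) + 2) ^ s *
      ((z ^ k)⁻¹ * (g ^ (k + 1) * K1 ^ (1 + s + 2 * m)))))) := by
  set I0 : ℝ := (z ^ k)⁻¹ * (g ^ (k + 1) * K1 ^ (1 + s + 2 * m)) with hI0
  have hI0' : 0 ≤ I0 := by positivity
  unfold pats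
  simp only [Finset.sum_product]
  have hin : ∑ f ∈ (Finset.univ : Finset (Fin (k + 1) → Fin (k + 1))).filter
      (fun f => Monotone f ∧ f 0 = 0 ∧ ∀ j, j ≠ 0 → f j < j),
      ∑ X ∈ (Finset.univ : Finset (Sym2 (Fin (k + 1)))).powersetCard m,
      ∑ Z ∈ (Finset.univ : Finset (Finset (Fin (k + 1)))).filter (fun Z => Z.card ≤ s),
        p ^ (k + m) * ∏ i : Fin (k + 1), wt d c x τ X Z i (kids f i) ≤
      p ^ (k + m) * (((k : ℝ) + 2) ^ (2 * m) * (((k : ℝ) + 2) ^ s * I0)) := by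
    rw [Finset.sum_comm]
    have hX : ∀ X ∈ (Finset.univ : Finset (Sym2 (Fin (k + 1)))).powersetCard m,
        ∑ f ∈ (Finset.univ : Finset (Fin (k + 1) → Fin (k + 1))).filter
          (fun f => Monotone f ∧ f 0 = 0 ∧ ∀ j, j ≠ 0 → f j < j),
        ∑ Z ∈ (Finset.univ : Finset (Finset (Fin (k + 1)))).filter (fun Z => Z.card ≤ s),
          p ^ (k + m) * ∏ i : Fin (k + 1), wt d c x τ X Z i (kids f i) ≤
        ((k : ℝ) + 2) ^ s * (p ^ (k + m) * I0) := by
      intro X hX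
      rw [Finset.sum_comm]
      have hZ : ∀ Z ∈ (Finset.univ : Finset (Finset (Fin (k + 1)))).filter (fun Z => Z.card ≤ s),
          ∑ f ∈ (Finset.univ : Finset (Fin (k + 1) → Fin (k + 1))).filter
            (fun f => Monotone f ∧ f 0 = 0 ∧ ∀ j, j ≠ 0 → f j < j),
            p ^ (k + m) * ∏ i : Fin (k + 1), wt d c x τ X Z i (kids f i) ≤ p ^ (k + m) * I0 := by
        intro Z hZ
        rw [← Finset.mul_sum]
        exact mul_le_mul_of_nonneg_left (e5_inner hcx hτ hz0 hz1 hg hK1 hTK hsum X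
          (Finset.mem_powersetCard.1 hX).2 Z (Finset.mem_filter.1 hZ).2) (pow_nonneg hp _)
      refine (Finset.sum_le_card_nsmul _ _ _ hZ).trans ?_
      rw [nsmul_eq_mul]
      refine mul_le_mul_of_nonneg_right ?_ (mul_nonneg (pow_nonneg hp _) hI0')
      have h := e5_cardZ (k + 1) s
      have h' : ((((Finset.univ : Finset (Finset (Fin (k + 1)))).filter
          (fun Z => Z.card ≤ s)).card : ℕ) : ℝ) ≤ (((k + 1 + 1) ^ s : ℕ) : ℝ) := by
        exact_mod_cast h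
      refine h'.trans (le_of_eq ?_)
      push_cast
      ring
    refine (Finset.sum_le_card_nsmul _ _ _ hX).trans ?_
    rw [nsmul_eq_mul]
    have h := e5_cardX k m
    have h' : ((((Finset.univ : Finset (Sym2 (Fin (k + 1)))).powersetCard m).card : ℕ) : ℝ) ≤
        ((k : ℝ) + 2) ^ (2 * m) := by
      exact_mod_cast h
    calc ((((Finset.univ : Finset (Sym2 (Fin (k + 1)))).powersetCard m).card : ℕ) : ℝ) *
          (((k : ℝ) + 2) ^ s * (p ^ (k + m) * I0))
        ≤ ((k : ℝ) + 2) ^ (2 * m) * (((k : ℝ) + 2) ^ s * (p ^ (k + m) * I0)) :=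
          mul_le_mul_of_nonneg_right h' (by positivity)
      _ = _ := by ring
  refine (Finset.sum_le_card_nsmul _ _ _ (fun u _ => hin)).trans ?_
  rw [nsmul_eq_mul]
  refine mul_le_mul_of_nonneg_right ?_ (by positivity)
  have hU : ((Fintype.piFinset (fun _ : Fin (k + 1) => range n)).filter
      (fun u => Function.Injective u)).card ≤ n ^ (k + 1) := by
    refine (Finset.card_filter_le _ _).trans (le_of_eq ?_)
    rw [Fintype.card_piFinset, Finset.prod_const, Finset.card_univ, Fintype.card_fin,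
      Finset.card_range]
  exact_mod_cast hU

open Classical in
/-- E5 (key first moment bound; hint). `struct_le_pats`, `pat_prob` with `weight_bound`, then the sum over
the patterns: at most `n^(k+1)` enumerations, `sum_kids_le` for the sum over `f` (drop the condition
`f j < j`), with `∑_a z^a wt(a) ≤ g` for ordinary indices (`exists_z`, needs `goodX_slope`) and
`≤ 1/(1-z)` for the at most `s + 2m + 1` exceptional ones (`m = e + 1`), at most
`((k+2)^2)^m` sets `X` and `(k+2)^s` sets `Z`. With `p = c/n`: total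
`n^(k+1) (c/n)^(k+1+e) z^(-k) g^(k+1) (1/(g(1-z)))^(s+2m+1) (k+2)^(2m+s)`,
`lam = c g / z`, `K` large (`K ≥ 1/(g(1-z)), c, 1/c, 1/z, 2`). -/
theorem first_moment {d : ℕ} (hd : 2 ≤ d) {c x : ℝ} (hc : 0 < c) (hx : GoodX d c x) :
    ∃ η0 lam K : ℝ, 0 < η0 ∧ 0 < lam ∧ lam < 1 ∧ 1 ≤ K ∧
      ∀ η ε : ℝ, 0 < η → η ≤ η0 → 0 < ε → ε ≤ η0 → ∀ᶠ n : ℕ in atTop,
      ∀ (A B : Finset (Sym2 ℕ) → Finset ℕ) (k s : ℕ) (e : ℤ), -1 ≤ e →
        Ex n (c / n) (fun G => (((((range n).powerset ×ˢ (range n).powerset).filter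
          (fun q => Struct d n x η ε A B G q.1 q.2 ∧ q.1.card = k + 1 ∧ exc G q.1 = e ∧
            q.2.card ≤ s)).card : ℕ) : ℝ)) ≤
          (n : ℝ) ^ (-e) * lam ^ (k + 1) * (K * (k + 2)) ^ (5 * (s + 4 * (e.toNat + 2))) := by
  have hslope := goodX_slope hd hc hx
  obtain ⟨z, τ, g, hz0, hz1, hτ, hg, hcg, hsum⟩ := exists_z hc hslope
  have hx0 : 0 < x := hx.1
  have hcx : 0 ≤ c * x := (mul_pos hc hx0).le
  obtain ⟨η0, hη0, hwb⟩ := weight_bound hd hc hx0 hτ
  set K1 : ℝ := max 1 (1 / (g * (1 - z))) with hK1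
  have hK1' : 1 ≤ K1 := le_max_left _ _
  have h1z : 0 < 1 - z := by linarith
  have hTK : 1 / (1 - z) ≤ g * K1 := by
    have h1 : 1 / (g * (1 - z)) ≤ K1 := le_max_right _ _
    calc 1 / (1 - z) = g * (1 / (g * (1 - z))) := by field_simp
      _ ≤ g * K1 := mul_le_mul_of_nonneg_left h1 hg.le
  set K : ℝ := max K1 (max c (z / c)) with hK
  have hKK1 : K1 ≤ K := le_max_left _ _
  have hKc : c ≤ K := (le_max_left _ _).trans (le_max_right _ _)
  have hKz : z / c ≤ K := (le_max_right _ _).trans (le_max_right _ _)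
  refine ⟨η0, c * g / z, K, hη0, by positivity, (div_lt_one hz0).2 hcg, hK1'.trans hKK1, ?_⟩
  intro η ε hη hηη hε hεη
  filter_upwards [hwb η ε hη hηη hε hεη, cn_eventually hc, eventually_ge_atTop 1] with n hw hp hn
    A B k s e he
  have h0 : 0 ≤ c / (n : ℝ) := hp.1.le
  have h1 : c / (n : ℝ) ≤ 1 := by linarith [hp.2]
  refine le_trans ?_ (e5_algebra hc hz0 hg hK1' hKK1 hKc hKz hn he rfl)
  refine le_trans ?_ (e5_sum hcx hτ hz0 hz1 hg hK1' hTK h0 hsum n k (e + 1).toNat s)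
  refine (Ex_mono h0 h1 (fun G hG => struct_le_pats A B k s e he hG)).trans ?_
  rw [Ex_sum]
  exact Finset.sum_le_sum (fun q hq => pat_prob h0 h1 hw (fun i => e5_om_nonneg hcx hτ i) A B hq)

end Pool.Agent.Helper55.ML
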