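import Pool.Agent.Helper55.ML.E0
import Pool.Agent.Helper55.ML.E1

set_option autoImplicit false
open Finset Filter Topology

namespace Pool.Agent.Helper55.ML

private theorem e5a_card_treeE {k : ℕ} {f : Fin (k + 1) → Fin (k + 1)}
    (hf : ∀ j, j ≠ 0 → f j < j) : (treeE f).card = k := by
  unfold treeE
  rw [Finset.card_image_of_injOn, Finset.card_erase_of_mem (Finset.mem_univ _), Finset.card_univ,
    Fintype.card_fin]
  · rfl
  · intro i hi j hj hij
    rw [Finset.mem_coe, Finset.mem_erase] at hi hj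
    have h1 := hf i hi.1
    have h2 := hf j hj.1
    have h3 : s(f i, i) = s(f j, j) := hij
    rw [Sym2.eq_iff] at h3
    rcases h3 with h | h
    · exact h.2
    · rw [h.1] at h1
      rw [← h.2] at h2
      exact absurd (h1.trans h2) (lt_irrefl _)

private theorem e5a_mem {n k s : ℕ} {d : ℕ} {x η ε : ℝ} (A B : Finset (Sym2 ℕ) → Finset ℕ)
    (e : ℤ) {G : Finset (Sym2 ℕ)} (hG : G ⊆ En n) {W Z : Finset ℕ}
    (hS : Struct d n x η ε A B G W Z) (hk : W.card = k + 1) (he' : exc G W = e)
    (hZ : Z.card ≤ s) :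
    ∃ q ∈ pats n k (e + 1).toNat s, PatEv d n x η ε A B q G ∧
      Finset.univ.image q.1 = W ∧ q.2.2.2.image q.1 = Z := by
  classical
  obtain ⟨u, f, hu, huW, hfm, hf0, hf⟩ := exists_bfs hS.2.2.1 hk
  have hWn := hS.1
  have hZW := hS.2.1
  have huW' : ∀ i, u i ∈ W := fun i => huW ▸ Finset.mem_image_of_mem u (Finset.mem_univ i)
  have hsurj : ∀ w ∈ W, ∃ i, u i = w := by
    intro w hw
    rw [← huW, Finset.mem_image] at hw
    obtain ⟨i, -, hi⟩ := hw
    exact ⟨i, hi⟩
  set P : Finset (Sym2 (Fin (k + 1))) := Finset.univ.filter (fun z => Sym2.map u z ∈ ins W G)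
    with hP
  have hinj : Function.Injective (Sym2.map u) := Sym2.map.injective hu
  have hPi : P.image (Sym2.map u) = ins W G := by
    ext z
    rw [Finset.mem_image]
    constructor
    · rintro ⟨y, hy, rfl⟩
      exact (Finset.mem_filter.1 hy).2
    · intro hz
      have h2 := (mem_ins.1 hz).2
      induction z using Sym2.ind with
      | _ a b =>
        obtain ⟨i, rfl⟩ := hsurj a (h2 a (Sym2.mem_mk_left a b))
        obtain ⟨j, rfl⟩ := hsurj b (h2 b (Sym2.mem_mk_right _ b))
        exact ⟨s(i, j), Finset.mem_filter.2 ⟨Finset.mem_univ _, by rw [Sym2.map_mk]; exact hz⟩,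
          Sym2.map_mk u i j⟩
  have hT : treeE f ⊆ P := by
    intro z hz
    unfold treeE at hz
    obtain ⟨j, hj, rfl⟩ := Finset.mem_image.1 hz
    refine Finset.mem_filter.2 ⟨Finset.mem_univ _, ?_⟩
    rw [Sym2.map_mk, mem_ins]
    refine ⟨(hf j (Finset.ne_of_mem_erase hj)).2, fun y hy => ?_⟩
    rcases Sym2.mem_iff.1 hy with rfl | rfl
    · exact huW' _
    · exact huW' _
  have hcP : P.card = (ins W G).card := by
    rw [← hPi, Finset.card_image_of_injective _ hinj]
  have hcX : (P \ treeE f).card = (e + 1).toNat := by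
    rw [Finset.card_sdiff_of_subset hT, e5a_card_treeE (fun j hj => (hf j hj).1), hcP]
    unfold exc at he'
    rw [hk] at he'
    push_cast at he'
    omega
  have hZi : (Finset.univ.filter (fun i => u i ∈ Z)).image u = Z := by
    ext z
    rw [Finset.mem_image]
    constructor
    · rintro ⟨i, hi, rfl⟩
      exact (Finset.mem_filter.1 hi).2
    · intro hz
      obtain ⟨i, rfl⟩ := hsurj z (hZW hz)
      exact ⟨i, Finset.mem_filter.2 ⟨Finset.mem_univ _, hz⟩, rfl⟩
  refine ⟨(u, f, P \ treeE f, Finset.univ.filter (fun i => u i ∈ Z)), ?_, ⟨?_, ?_, ?_, ?_⟩,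
    huW, hZi⟩
  · unfold pats
    simp only [Finset.mem_product]
    refine ⟨?_, ?_, ?_, ?_⟩
    · rw [Finset.mem_filter, Fintype.mem_piFinset]
      exact ⟨fun i => hWn (huW' i), hu⟩
    · rw [Finset.mem_filter]
      exact ⟨Finset.mem_univ _, hfm, hf0, fun j hj => (hf j hj).1⟩
    · rw [Finset.mem_powersetCard]
      exact ⟨Finset.subset_univ _, hcX⟩
    · rw [Finset.mem_filter]
      refine ⟨Finset.mem_univ _, ?_⟩
      rw [← Finset.card_image_of_injective _ hu, hZi]
      exact hZ
  · exact Finset.sdiff_disjoint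
  · intro z hz hd
    have h1 : Sym2.map u z ∈ ins W G := (Finset.mem_filter.1 (Finset.mem_sdiff.1 hz).1).2
    have h2 := (mem_En.1 (hG (mem_ins.1 h1).1)).2
    apply h2
    induction z using Sym2.ind with
    | _ a b =>
      rw [Sym2.mk_isDiag_iff] at hd
      rw [Sym2.map_mk, Sym2.mk_isDiag_iff, hd]
  · change ins (Finset.univ.image u) G = (treeE f ∪ (P \ treeE f)).image (Sym2.map u)
    rw [Finset.union_sdiff_of_subset hT, hPi, huW]
  · change Struct d n x η ε A B G (Finset.univ.image u)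
      ((Finset.univ.filter (fun i => u i ∈ Z)).image u)
    rw [huW, hZi]
    exact hS

open Classical in
/-- E5a (hint): every structure comes from a pattern: `exists_bfs` gives `u`, `f`; the `k` pairs
`s(u (f j), u j)`, `j ≠ 0`, are distinct (`f j < j`) elements of `ins W G`, which has `k + 1 + e` elements;
`X` = indices of the other `e + 1` elements; `Z` gives the index set. The map from the patterns with
`PatEv` to the structures, `q ↦ (image of u, image of Z)`, is onto
(`Finset.card_le_card_of_surjOn`), and `∑ ind = card of the filter`. -/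
theorem struct_le_pats {d n : ℕ} {x η ε : ℝ} (A B : Finset (Sym2 ℕ) → Finset ℕ) (k s : ℕ) (e : ℤ)
    (he : -1 ≤ e) {G : Finset (Sym2 ℕ)} (hG : G ⊆ En n) :
    (((((range n).powerset ×ˢ (range n).powerset).filter
          (fun q => Struct d n x η ε A B G q.1 q.2 ∧ q.1.card = k + 1 ∧ exc G q.1 = e ∧
            q.2.card ≤ s)).card : ℕ) : ℝ) ≤
      ∑ q ∈ pats n k (e + 1).toNat s, ind (PatEv d n x η ε A B q G) := by
  have h1 : ∑ q ∈ pats n k (e + 1).toNat s, ind (PatEv d n x η ε A B q G) =
      (((pats n k (e + 1).toNat s).filter (fun q => PatEv d n x η ε A B q G)).card : ℝ) := by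
    rw [Finset.card_filter]
    push_cast
    refine Finset.sum_congr rfl fun q _ => ?_
    unfold ind
    rfl
  rw [h1]
  refine Nat.cast_le.2 (Finset.card_le_card_of_surjOn
    (fun q => (Finset.univ.image q.1, q.2.2.2.image q.1)) ?_)
  rintro ⟨W, Z⟩ hWZ
  rw [Finset.mem_coe, Finset.mem_filter] at hWZ
  obtain ⟨-, hS, hk, he', hZ⟩ := hWZ
  obtain ⟨q, hq, hq1, hq2, hq3⟩ := e5a_mem A B e hG hS hk he' hZ
  refine ⟨q, ?_, ?_⟩
  · rw [Finset.mem_coe, Finset.mem_filter]
    exact ⟨hq, hq1⟩
  · exact Prod.ext hq2 hq3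

end Pool.Agent.Helper55.ML
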