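import Pool.Agent.Helper55.ML.E5

set_option autoImplicit false
open Finset Filter Topology

namespace Pool.Agent.Helper55.ML

private theorem e6_log_tendsto : Tendsto (fun n : ℕ => Nat.log 2 n) atTop atTop := by
  rw [tendsto_atTop]
  intro b
  filter_upwards [eventually_ge_atTop (2 ^ b)] with n hn
  exact Nat.le_log_of_pow_le (by norm_num) hn

private theorem e6_poly_tendsto (C : ℝ) (M : ℕ) :
    Tendsto (fun n : ℕ => C * ((Nat.log 2 n : ℕ) : ℝ) ^ M / 2 ^ (Nat.log 2 n)) atTop (𝓝 0) := by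
  have h1 := (tendsto_pow_const_div_const_pow_of_one_lt M (r := (2 : ℝ)) (by norm_num)).comp
    e6_log_tendsto
  have h2 := h1.const_mul C
  rw [mul_zero] at h2
  refine h2.congr fun n => ?_
  simp only [Function.comp_apply]
  ring

private theorem e6_exc_le (G : Finset (Sym2 ℕ)) (W : Finset ℕ) :
    exc G W ≤ (W.card : ℤ) ^ 2 := by
  have h1 : (ins W G).card ≤ W.card * W.card := by
    rw [← Finset.card_product]
    refine le_trans (Finset.card_le_card ?_)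
      (Finset.card_image_le (f := fun q : ℕ × ℕ => s(q.1, q.2)))
    intro e he
    rw [mem_ins] at he
    induction e with
    | _ a b =>
      rw [Finset.mem_image]
      exact ⟨(a, b), Finset.mem_product.2 ⟨he.2 a (by simp), he.2 b (by simp)⟩, rfl⟩
  have h2 : ((ins W G).card : ℤ) ≤ (W.card : ℤ) * W.card := by exact_mod_cast h1
  unfold exc
  nlinarith [Int.natCast_nonneg W.card]

/-- the bound for one term -/
private theorem e6_term {lam K : ℝ} (hlam0 : 0 < lam) (hlam1 : lam < 1) (hK : 1 ≤ K) {n m C0 D : ℕ}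
    (hm : lam ^ m ≤ 1 / 4) (hn : 1 ≤ n) (hD : D = 15 * (C0 + 4))
    (hP : (K * (((Nat.log 2 n : ℕ) : ℝ) ^ 4 + 1)) ^ D ≤ 2 ^ (Nat.log 2 n))
    {k : ℕ} (hk : k < (Nat.log 2 n) ^ 4) {e : ℤ} (he : -1 ≤ e)
    (hke : 1 ≤ e ∨ m * Nat.log 2 n < k + 1) :
    (n : ℝ) ^ (-e) * lam ^ (k + 1) *
      (K * (k + 2)) ^ (5 * ((C0 * (e + 2)).toNat + 4 * (e.toNat + 2))) ≤
      4 * (K * (((Nat.log 2 n : ℕ) : ℝ) ^ 4 + 1)) ^ D / n := by
  have hn0 : (0 : ℝ) < n := by exact_mod_cast hn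
  obtain ⟨P, hPdef⟩ : ∃ P : ℝ, P = K * (((Nat.log 2 n : ℕ) : ℝ) ^ 4 + 1) := ⟨_, rfl⟩
  rw [← hPdef] at hP ⊢
  have hkP : K * ((k : ℝ) + 2) ≤ P := by
    rw [hPdef]
    refine mul_le_mul_of_nonneg_left ?_ (by linarith)
    have : (k : ℝ) + 1 ≤ ((Nat.log 2 n : ℕ) : ℝ) ^ 4 := by exact_mod_cast hk
    linarith
  have hk0 : 1 ≤ K * ((k : ℝ) + 2) := by
    have : (0 : ℝ) ≤ k := Nat.cast_nonneg k
    nlinarith
  have hP1 : 1 ≤ P := hk0.trans hkP
  have hlog : (2 : ℝ) ^ (Nat.log 2 n) ≤ n := by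
    exact_mod_cast Nat.pow_log_le_self 2 (by omega : n ≠ 0)
  have hlog2 : (n : ℝ) < 2 * 2 ^ (Nat.log 2 n) := by
    have := Nat.lt_pow_succ_log_self (b := 2) (by norm_num) n
    have h2 : (n : ℝ) < (2 : ℝ) ^ (Nat.log 2 n + 1) := by exact_mod_cast this
    rw [pow_succ] at h2
    linarith
  have hPn : P ^ D / n ≤ 1 := by
    rw [div_le_one hn0]
    exact hP.trans hlog
  have hPD : 0 ≤ P ^ D / n := by positivity
  by_cases h1 : 1 ≤ e
  · obtain ⟨t, rfl⟩ : ∃ t : ℕ, e = t := ⟨e.toNat, by omega⟩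
    have ht : 1 ≤ t := by omega
    have e1 : ((C0 : ℤ) * ((t : ℤ) + 2)).toNat = C0 * (t + 2) := by
      rw [show (C0 : ℤ) * ((t : ℤ) + 2) = ((C0 * (t + 2) : ℕ) : ℤ) by push_cast; ring]
      exact Int.toNat_natCast _
    rw [e1, Int.toNat_natCast, zpow_neg, zpow_natCast]
    have h2 : (K * ((k : ℝ) + 2)) ^ (5 * (C0 * (t + 2) + 4 * (t + 2))) ≤ (P ^ D) ^ t := by
      rw [← pow_mul]
      refine (pow_le_pow_left₀ (by linarith) hkP _).trans (pow_le_pow_right₀ hP1 ?_)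
      rw [hD]
      nlinarith
    have h3 : lam ^ (k + 1) ≤ 1 := pow_le_one₀ hlam0.le hlam1.le
    calc ((n : ℝ) ^ t)⁻¹ * lam ^ (k + 1) * (K * ((k : ℝ) + 2)) ^ (5 * (C0 * (t + 2) + 4 * (t + 2)))
        ≤ ((n : ℝ) ^ t)⁻¹ * 1 * (P ^ D) ^ t := by gcongr
      _ = (P ^ D / n) ^ t := by rw [div_pow]; field_simp
      _ ≤ (P ^ D / n) ^ 1 := pow_le_pow_of_le_one hPD hPn ht
      _ ≤ 4 * P ^ D / n := by
        rw [pow_one, mul_div_assoc]
        linarith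
  · have h2 : m * Nat.log 2 n < k + 1 := by
      rcases hke with h | h
      · exact absurd h h1
      · exact h
    have h3 : lam ^ (k + 1) ≤ 4 / (n : ℝ) ^ 2 := by
      have h4 : lam ^ (k + 1) ≤ lam ^ (m * Nat.log 2 n) :=
        pow_le_pow_of_le_one hlam0.le hlam1.le h2.le
      have h5 : lam ^ (m * Nat.log 2 n) ≤ (1 / 4) ^ (Nat.log 2 n) := by
        rw [pow_mul]
        exact pow_le_pow_left₀ (by positivity) hm _
      refine h4.trans (h5.trans ?_)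
      rw [le_div_iff₀ (by positivity), one_div, inv_pow, show (4 : ℝ) = 2 * 2 by norm_num, mul_pow,
        inv_mul_le_iff₀ (by positivity)]
      nlinarith [pow_pos (show (0 : ℝ) < 2 by norm_num) (Nat.log 2 n)]
    have h4 : e.toNat = 0 := by omega
    have h5 : (C0 * (e + 2)).toNat ≤ C0 * 2 := by
      rcases (by omega : e = -1 ∨ e = 0) with rfl | rfl
      · norm_num
        omega
      · norm_num
    have h6 : (n : ℝ) ^ (-e) ≤ n := by
      have h7 : (n : ℝ) ^ (-e) ≤ (n : ℝ) ^ (1 : ℤ) :=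
        zpow_le_zpow_right₀ (by exact_mod_cast hn) (by omega)
      rwa [zpow_one] at h7
    have h7 : (K * ((k : ℝ) + 2)) ^ (5 * ((C0 * (e + 2)).toNat + 4 * (e.toNat + 2))) ≤ P ^ D := by
      refine (pow_le_pow_left₀ (by linarith) hkP _).trans (pow_le_pow_right₀ hP1 ?_)
      rw [hD, h4]
      omega
    calc (n : ℝ) ^ (-e) * lam ^ (k + 1) *
          (K * ((k : ℝ) + 2)) ^ (5 * ((C0 * (e + 2)).toNat + 4 * (e.toNat + 2)))
        ≤ n * (4 / (n : ℝ) ^ 2) * P ^ D := by gcongr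
      _ = 4 * P ^ D / n := by field_simp

open Classical in
/-- the counting variable -/
private noncomputable def e6_cnt (d n : ℕ) (x η ε : ℝ) (A B : Finset (Sym2 ℕ) → Finset ℕ)
    (k s : ℕ) (e : ℤ) (G : Finset (Sym2 ℕ)) : ℝ :=
  (((((range n).powerset ×ˢ (range n).powerset).filter
          (fun q => Struct d n x η ε A B G q.1 q.2 ∧ q.1.card = k + 1 ∧ exc G q.1 = e ∧
            q.2.card ≤ s)).card : ℕ) : ℝ)

private theorem e6_cnt_nonneg (d n : ℕ) (x η ε : ℝ) (A B : Finset (Sym2 ℕ) → Finset ℕ)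
    (k s : ℕ) (e : ℤ) (G : Finset (Sym2 ℕ)) : 0 ≤ e6_cnt d n x η ε A B k s e G :=
  Nat.cast_nonneg _

private theorem e6_cnt_pos {d n : ℕ} {x η ε : ℝ} {A B : Finset (Sym2 ℕ) → Finset ℕ}
    {k s : ℕ} {e : ℤ} {G : Finset (Sym2 ℕ)} {W Z : Finset ℕ}
    (h : Struct d n x η ε A B G W Z) (h1 : W.card = k + 1) (h2 : exc G W = e) (h3 : Z.card ≤ s) :
    1 ≤ e6_cnt d n x η ε A B k s e G := by
  classical
  unfold e6_cnt
  rw [Nat.one_le_cast, Nat.one_le_iff_ne_zero, ← Nat.pos_iff_ne_zero, Finset.card_pos]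
  refine ⟨(W, Z), ?_⟩
  rw [Finset.mem_filter, Finset.mem_product, Finset.mem_powerset, Finset.mem_powerset]
  exact ⟨⟨h.1, h.2.1.trans h.1⟩, h, h1, h2, h3⟩

/-- E6 (hint): sum `first_moment` over `k+1 ≤ (log n)^4`, `e ≥ 1` (resp. `k+1 > C3 log n`, `e ≥ -1`),
`s = C0 (e+2)`; `e ≤ |W|^2`. `e = -1` and `k+1 ≥ C3 log n`: `n λ^{C3 log n} polylog → 0` for large
`C3`. -/
theorem no_structures {d : ℕ} (hd : 2 ≤ d) {c x : ℝ} (hc : 0 < c) (hx : GoodX d c x) :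
    ∃ η0 : ℝ, 0 < η0 ∧ ∀ C0 : ℕ, ∃ C3 : ℕ, ∀ η ε : ℝ, 0 < η → η ≤ η0 → 0 < ε → ε ≤ η0 →
      ∀ A B : ℕ → Finset (Sym2 ℕ) → Finset ℕ,
        Neg c (fun n G => ∃ W Z : Finset ℕ, Struct d n x η ε (A n) (B n) G W Z ∧
          (Z.card : ℤ) ≤ C0 * (exc G W + 2) ∧ (1 ≤ exc G W ∨ C3 * Nat.log 2 n < W.card)) := by
  classical
  obtain ⟨η0, lam, K, hη0, hlam0, hlam1, hK, hF⟩ := first_moment hd hc hx
  refine ⟨η0, hη0, fun C0 => ?_⟩
  obtain ⟨m, hm⟩ := exists_pow_lt_of_lt_one (show (0 : ℝ) < 1 / 4 by norm_num) hlam1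
  refine ⟨m, fun η ε h1 h2 h3 h4 A B => ?_⟩
  obtain ⟨D, hD⟩ : ∃ D, D = 15 * (C0 + 4) := ⟨_, rfl⟩
  refine Neg_of_le hc (e6_poly_tendsto (12 * (2 * K) ^ D) (12 + 4 * D)) ?_
  have hP := (e6_poly_tendsto ((2 * K) ^ D) (4 * D)).eventually (gt_mem_nhds zero_lt_one)
  filter_upwards [hF η ε h1 h2 h3 h4, cn_eventually hc, e6_log_tendsto.eventually_ge_atTop 1, hP,
    eventually_ge_atTop 1] with n hFn hcn hl hPn hn1
  obtain ⟨l, hldef⟩ : ∃ l, l = Nat.log 2 n := ⟨_, rfl⟩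
  have hl1 : 1 ≤ (l : ℝ) := by rw [hldef]; exact_mod_cast hl
  have hPb : (K * (((Nat.log 2 n : ℕ) : ℝ) ^ 4 + 1)) ^ D ≤ (2 * K) ^ D * (l : ℝ) ^ (4 * D) := by
    rw [pow_mul, ← mul_pow, ← hldef]
    refine pow_le_pow_left₀ (by positivity) ?_ _
    have := one_le_pow₀ (n := 4) hl1
    nlinarith
  have hPc : (K * (((Nat.log 2 n : ℕ) : ℝ) ^ 4 + 1)) ^ D ≤ 2 ^ (Nat.log 2 n) := by
    rw [div_lt_one (by positivity)] at hPn
    rw [← hldef] at hPn ⊢
    rw [← hldef] at hPb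
    exact hPb.trans hPn.le
  -- the terms
  have hterm : ∀ k ∈ range (l ^ 4), ∀ e ∈ Finset.Icc (-1 : ℤ) ((l : ℤ) ^ 8),
      Ex n (c / n) (fun G => if (1 ≤ e ∨ m * Nat.log 2 n < k + 1) then
        e6_cnt d n x η ε (A n) (B n) k (C0 * (e + 2)).toNat e G else 0) ≤
        4 * (K * (((Nat.log 2 n : ℕ) : ℝ) ^ 4 + 1)) ^ D / n := by
    intro k hk e he
    rw [Finset.mem_Icc] at he
    by_cases hke : 1 ≤ e ∨ m * Nat.log 2 n < k + 1
    · simp only [if_pos hke]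
      refine (hFn (A n) (B n) k (C0 * (e + 2)).toNat e he.1).trans ?_
      exact e6_term hlam0 hlam1 hK hm.le hn1 hD hPc (by rw [← hldef]; exact Finset.mem_range.1 hk)
        he.1 hke
    · simp only [if_neg hke]
      rw [Ex_const]
      positivity
  -- Markov
  have hmain : Pr n (c / n) (fun G => ∃ W Z : Finset ℕ, Struct d n x η ε (A n) (B n) G W Z ∧
          (Z.card : ℤ) ≤ C0 * (exc G W + 2) ∧ (1 ≤ exc G W ∨ m * Nat.log 2 n < W.card)) ≤
      ∑ k ∈ range (l ^ 4), ∑ e ∈ Finset.Icc (-1 : ℤ) ((l : ℤ) ^ 8),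
        Ex n (c / n) (fun G => if (1 ≤ e ∨ m * Nat.log 2 n < k + 1) then
        e6_cnt d n x η ε (A n) (B n) k (C0 * (e + 2)).toNat e G else 0) := by
    have hsum : ∑ k ∈ range (l ^ 4), ∑ e ∈ Finset.Icc (-1 : ℤ) ((l : ℤ) ^ 8),
        Ex n (c / n) (fun G => if (1 ≤ e ∨ m * Nat.log 2 n < k + 1) then
        e6_cnt d n x η ε (A n) (B n) k (C0 * (e + 2)).toNat e G else 0) =
        Ex n (c / n) (fun G => ∑ k ∈ range (l ^ 4), ∑ e ∈ Finset.Icc (-1 : ℤ) ((l : ℤ) ^ 8),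
          if (1 ≤ e ∨ m * Nat.log 2 n < k + 1) then
        e6_cnt d n x η ε (A n) (B n) k (C0 * (e + 2)).toNat e G else 0) := by
      rw [Ex_sum]
      refine Finset.sum_congr rfl fun k _ => ?_
      rw [Ex_sum]
    rw [hsum]
    unfold Pr
    have hnn : ∀ G : Finset (Sym2 ℕ), ∀ k ∈ range (l ^ 4), ∀ e ∈ Finset.Icc (-1 : ℤ) ((l : ℤ) ^ 8),
        (0 : ℝ) ≤ if (1 ≤ e ∨ m * Nat.log 2 n < k + 1) then
        e6_cnt d n x η ε (A n) (B n) k (C0 * (e + 2)).toNat e G else 0 := by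
      intro G k _ e _
      split_ifs
      · exact e6_cnt_nonneg _ _ _ _ _ _ _ _ _ _ _
      · exact le_rfl
    refine Ex_mono hcn.1.le (by linarith [hcn.2]) fun G hG => ?_
    by_cases hB : ∃ W Z : Finset ℕ, Struct d n x η ε (A n) (B n) G W Z ∧
          (Z.card : ℤ) ≤ C0 * (exc G W + 2) ∧ (1 ≤ exc G W ∨ m * Nat.log 2 n < W.card)
    · rw [ind_true hB]
      obtain ⟨W, Z, hS, hZ, hor⟩ := hB
      have hWne : W.Nonempty := hS.2.2.1.1
      have hWc : W.card ≤ l ^ 4 := by rw [hldef]; exact hS.2.2.2.1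
      have hWpos : 1 ≤ W.card := hWne.card_pos
      obtain ⟨k, hk⟩ : ∃ k, W.card = k + 1 := ⟨W.card - 1, by omega⟩
      have hex1 : -1 ≤ exc G W := hS.2.2.1.exc_ge (fun e he => (mem_En.1 (hG he)).2)
      have hex2 : exc G W ≤ (l : ℤ) ^ 8 := by
        have h5 := e6_exc_le G W
        have h6 : (W.card : ℤ) ≤ (l : ℤ) ^ 4 := by exact_mod_cast hWc
        have h7 : (W.card : ℤ) ^ 2 ≤ ((l : ℤ) ^ 4) ^ 2 := pow_le_pow_left₀ (by positivity) h6 2
        rw [← pow_mul] at h7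
        exact h5.trans h7
      have hkm : k ∈ range (l ^ 4) := Finset.mem_range.2 (by omega)
      have hem : exc G W ∈ Finset.Icc (-1 : ℤ) ((l : ℤ) ^ 8) := Finset.mem_Icc.2 ⟨hex1, hex2⟩
      refine le_trans ?_ (Finset.single_le_sum (f := fun k => ∑ e ∈ Finset.Icc (-1 : ℤ) ((l : ℤ) ^ 8),
          if (1 ≤ e ∨ m * Nat.log 2 n < k + 1) then
          e6_cnt d n x η ε (A n) (B n) k (C0 * (e + 2)).toNat e G else 0)
        (fun k hk => Finset.sum_nonneg (hnn G k hk)) hkm)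
      refine le_trans ?_ (Finset.single_le_sum (f := fun e : ℤ =>
          if (1 ≤ e ∨ m * Nat.log 2 n < k + 1) then
          e6_cnt d n x η ε (A n) (B n) k (C0 * (e + 2)).toNat e G else 0) (hnn G k hkm) hem)
      rw [hk] at hor
      simp only [if_pos hor]
      refine e6_cnt_pos hS hk rfl ?_
      omega
    · rw [ind_false hB]
      exact Finset.sum_nonneg fun k hk => Finset.sum_nonneg (hnn G k hk)
  refine hmain.trans ?_
  refine (Finset.sum_le_sum fun k hk => Finset.sum_le_sum (hterm k hk)).trans ?_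
  rw [Finset.sum_const, Finset.sum_const, Finset.card_range, Int.card_Icc, nsmul_eq_mul, nsmul_eq_mul]
  have hcard : (((l : ℤ) ^ 8 + 1 - -1).toNat : ℝ) = (l : ℝ) ^ 8 + 2 := by
    have : ((l : ℤ) ^ 8 + 1 - -1).toNat = l ^ 8 + 2 := by
      rw [show (l : ℤ) ^ 8 + 1 - -1 = ((l ^ 8 + 2 : ℕ) : ℤ) by push_cast; ring]
      exact Int.toNat_natCast _
    rw [this]
    push_cast
    ring
  rw [hcard]
  push_cast
  have hn0 : (0 : ℝ) < n := by exact_mod_cast hn1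
  have hlog : (2 : ℝ) ^ l ≤ n := by
    rw [hldef]
    exact_mod_cast Nat.pow_log_le_self 2 (by omega : n ≠ 0)
  have h8 : (l : ℝ) ^ 8 + 2 ≤ 3 * (l : ℝ) ^ 8 := by
    have := one_le_pow₀ (n := 8) hl1
    linarith
  rw [← hldef] at hPb ⊢
  calc (l : ℝ) ^ 4 * (((l : ℝ) ^ 8 + 2) * (4 * (K * ((l : ℝ) ^ 4 + 1)) ^ D / n))
      ≤ (l : ℝ) ^ 4 * ((3 * (l : ℝ) ^ 8) * (4 * ((2 * K) ^ D * (l : ℝ) ^ (4 * D)) / 2 ^ l)) := by
        gcongr
    _ = 12 * (2 * K) ^ D * (l : ℝ) ^ (12 + 4 * D) / 2 ^ l := by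
        rw [pow_add]
        ring

open Classical in
/-- (hint) `e = 0`: `∑_k λ^{k+1} (K(k+2))^{5(s+8)} < ∞`. -/
theorem few_structures {d : ℕ} (hd : 2 ≤ d) {c x : ℝ} (hc : 0 < c) (hx : GoodX d c x) :
    ∃ η0 : ℝ, 0 < η0 ∧ ∀ s : ℕ, ∃ K : ℝ, ∀ η ε : ℝ, 0 < η → η ≤ η0 → 0 < ε → ε ≤ η0 →
      ∀ A B : ℕ → Finset (Sym2 ℕ) → Finset ℕ, ∀ᶠ n : ℕ in atTop,
        Ex n (c / n) (fun G => (((((range n).powerset ×ˢ (range n).powerset).filter
          (fun q => Struct d n x η ε (A n) (B n) G q.1 q.2 ∧ exc G q.1 = 0 ∧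
            q.2.card ≤ s)).card : ℕ) : ℝ)) ≤ K := by
  obtain ⟨η0, lam, K, hη0, hlam0, hlam1, hK, hF⟩ := first_moment hd hc hx
  refine ⟨η0, hη0, fun s => ?_⟩
  have hsum : Summable (fun k : ℕ => lam ^ (k + 1) * (K * ((k : ℝ) + 2)) ^ (5 * (s + 4 * (0 + 2)))) := by
    have h1 := summable_pow_mul_geometric_of_norm_lt_one (5 * (s + 4 * (0 + 2)))
      (r := lam) (by rw [Real.norm_eq_abs, abs_of_pos hlam0]; exact hlam1)
    have h2 := (summable_nat_add_iff 2).2 h1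
    refine (h2.mul_left (K ^ (5 * (s + 4 * (0 + 2))) / lam)).congr fun k => ?_
    rw [mul_pow]
    push_cast
    field_simp
    ring
  refine ⟨∑' k : ℕ, lam ^ (k + 1) * (K * ((k : ℝ) + 2)) ^ (5 * (s + 4 * (0 + 2))),
    fun η ε h1 h2 h3 h4 A B => ?_⟩
  filter_upwards [hF η ε h1 h2 h3 h4, cn_eventually hc] with n hFn hcn
  have hle : Ex n (c / n) (fun G => (((((range n).powerset ×ˢ (range n).powerset).filter
          (fun q => Struct d n x η ε (A n) (B n) G q.1 q.2 ∧ exc G q.1 = 0 ∧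
            q.2.card ≤ s)).card : ℕ) : ℝ)) ≤
      Ex n (c / n) (fun G => ∑ k ∈ range ((Nat.log 2 n) ^ 4),
        e6_cnt d n x η ε (A n) (B n) k s 0 G) := by
    refine Ex_mono hcn.1.le (by linarith [hcn.2]) fun G _ => ?_
    unfold e6_cnt
    rw [← Nat.cast_sum, Nat.cast_le]
    refine le_trans (Finset.card_le_card ?_) Finset.card_biUnion_le
    intro q hq
    rw [Finset.mem_filter] at hq
    obtain ⟨hq1, hq2, hq3, hq4⟩ := hq
    have hpos : 1 ≤ q.1.card := hq2.2.2.1.1.card_pos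
    have hub : q.1.card ≤ (Nat.log 2 n) ^ 4 := hq2.2.2.2.1
    rw [Finset.mem_biUnion]
    refine ⟨q.1.card - 1, Finset.mem_range.2 (by omega), ?_⟩
    rw [Finset.mem_filter]
    exact ⟨hq1, hq2, by omega, hq3, hq4⟩
  refine hle.trans ?_
  rw [Ex_sum]
  refine le_trans (Finset.sum_le_sum (g := fun k : ℕ =>
    lam ^ (k + 1) * (K * ((k : ℝ) + 2)) ^ (5 * (s + 4 * (0 + 2)))) fun k _ => ?_) ?_
  · have h5 := hFn (A n) (B n) k s 0 (by norm_num)
    simp only [neg_zero, zpow_zero, one_mul, Int.toNat_zero] at h5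
    exact h5
  · refine hsum.sum_le_tsum _ fun k _ => ?_
    positivity

end Pool.Agent.Helper55.ML
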