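import Pool.Agent.Helper55.ML.E1
import Pool.Agent.Helper55.ML.E2
import Pool.Agent.Helper55.ML.P4
import Pool.Agent.Helper55.ML.Q1

set_option autoImplicit false
open Finset Filter Topology

namespace Pool.Agent.Helper55.ML

/-- At most `4^(k+1)` monotone parent maps. -/
private theorem e7_count (k : ℕ) :
    (((Finset.univ : Finset (Fin (k + 1) → Fin (k + 1))).filter
      (fun f => Monotone f ∧ f 0 = 0 ∧ ∀ j, j ≠ 0 → f j < j)).card : ℝ) ≤ 4 ^ (k + 1) := by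
  classical
  have h := sum_kids_le k (z := 1 / 2) (by norm_num) (fun _ _ => 1) (fun _ _ => zero_le_one)
  have h1 : (((Finset.univ : Finset (Fin (k + 1) → Fin (k + 1))).filter
      (fun f => Monotone f ∧ f 0 = 0 ∧ ∀ j, j ≠ 0 → f j < j)).card : ℝ) ≤
      ∑ f ∈ (Finset.univ : Finset (Fin (k + 1) → Fin (k + 1))).filter
        (fun f => Monotone f ∧ f 0 = 0), ∏ i : Fin (k + 1), (fun _ _ => (1 : ℝ)) i (kids f i) := by
    simp only [Finset.prod_const_one, Finset.sum_const, nsmul_eq_mul, mul_one]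
    have : ((Finset.univ : Finset (Fin (k + 1) → Fin (k + 1))).filter
      (fun f => Monotone f ∧ f 0 = 0 ∧ ∀ j, j ≠ 0 → f j < j)).card ≤
      ((Finset.univ : Finset (Fin (k + 1) → Fin (k + 1))).filter
        (fun f => Monotone f ∧ f 0 = 0)).card := by
      apply Finset.card_le_card
      intro f hf
      rw [Finset.mem_filter] at hf ⊢
      exact ⟨hf.1, hf.2.1, hf.2.2.1⟩
    exact_mod_cast this
  refine le_trans h1 (le_trans h ?_)
  have h2 : ∑ a ∈ range (k + 1), (1 / 2 : ℝ) ^ a * 1 ≤ 2 := by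
    simp only [mul_one]
    have h3 : (1 / 2 : ℝ) ≠ 1 := by norm_num
    rw [geom_sum_eq h3]
    have h4 : (0 : ℝ) ≤ (1 / 2) ^ (k + 1) := by positivity
    rw [div_le_iff_of_neg (by norm_num)]
    linarith
  have h5 : ∏ i : Fin (k + 1), ∑ a ∈ range (k + 1), (1 / 2 : ℝ) ^ a * 1 ≤ 2 ^ (k + 1) := by
    rw [Finset.prod_const, Finset.card_univ, Fintype.card_fin]
    exact pow_le_pow_left₀ (Finset.sum_nonneg (fun a _ => by positivity)) h2 _
  calc ((1 / 2 : ℝ) ^ k)⁻¹ * ∏ i : Fin (k + 1), ∑ a ∈ range (k + 1), (1 / 2 : ℝ) ^ a * 1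
      ≤ ((1 / 2 : ℝ) ^ k)⁻¹ * 2 ^ (k + 1) := by
        apply mul_le_mul_of_nonneg_left h5; positivity
    _ = 2 ^ k * 2 ^ (k + 1) := by
        rw [one_div, inv_pow, inv_inv]
    _ ≤ 2 ^ (k + 1) * 2 ^ (k + 1) := by
        apply mul_le_mul_of_nonneg_right _ (by positivity)
        exact pow_le_pow_right₀ (by norm_num) (by omega)
    _ = 4 ^ (k + 1) := by
        rw [← mul_pow]; norm_num

private theorem e7_Pr_exists {ι : Type*} {n : ℕ} {p : ℝ} (h0 : 0 ≤ p) (h1 : p ≤ 1)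
    (I : Finset ι) (B : ι → Finset (Sym2 ℕ) → Prop) :
    Pr n p (fun G => ∃ i ∈ I, B i G) ≤ ∑ i ∈ I, Pr n p (B i) := by
  unfold Pr
  rw [← Ex_sum I (fun i G => ind (B i G))]
  refine Ex_mono h0 h1 (fun G _ => ?_)
  by_cases h : ∃ i ∈ I, B i G
  · rw [ind_true h]
    obtain ⟨i, hi, hB⟩ := h
    calc (1 : ℝ) = ind (B i G) := (ind_true hB).symm
      _ ≤ ∑ i ∈ I, ind (B i G) :=
        Finset.single_le_sum (f := fun i => ind (B i G)) (fun _ _ => ind_nonneg _) hi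
  · rw [ind_false h]
    exact Finset.sum_nonneg (fun _ _ => ind_nonneg _)

private theorem e7_Pr_subset {n : ℕ} {p : ℝ} (h0 : 0 ≤ p) (A : Finset (Sym2 ℕ)) :
    Pr n p (fun G => A ⊆ G) ≤ p ^ A.card := by
  by_cases h : A ⊆ En n
  · exact le_of_eq (BE_subset h p)
  · have : Pr n p (fun G => A ⊆ G) = 0 := by
      unfold Pr
      rw [Ex_congr (g := fun _ => (0 : ℝ)), Ex_const]
      intro G hG
      exact ind_false (fun h2 => h (h2.trans hG))
    rw [this]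
    positivity

/-- The tree edges of a parent map. -/
private def e7_tree {k : ℕ} (f : Fin (k + 1) → Fin (k + 1)) : Finset (Sym2 (Fin (k + 1))) :=
  (Finset.univ.erase 0).image (fun j => s(f j, j))

private theorem e7_tree_card {k : ℕ} {f : Fin (k + 1) → Fin (k + 1)}
    (hf : ∀ j, j ≠ 0 → f j < j) : (e7_tree f).card = k := by
  unfold e7_tree
  rw [Finset.card_image_of_injOn, Finset.card_erase_of_mem (Finset.mem_univ _), Finset.card_univ,
    Fintype.card_fin, Nat.add_sub_cancel]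
  intro i hi j hj hij
  have hi' : i ≠ 0 := by simpa using hi
  have hj' : j ≠ 0 := by simpa using hj
  have h1 := hf i hi'
  have h2 := hf j hj'
  rcases Sym2.eq_iff.1 hij with ⟨_, h⟩ | ⟨h3, h4⟩
  · exact h
  · rw [h3] at h1
    rw [← h4] at h2
    exact absurd h1 (not_lt.2 h2.le)

open Classical in
private noncomputable def e7_pats (n k m : ℕ) :
    Finset ((Fin (k + 1) → ℕ) × (Fin (k + 1) → Fin (k + 1)) × Finset (Sym2 (Fin (k + 1)))) :=
  (Fintype.piFinset (fun _ : Fin (k + 1) => range n)) ×ˢ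
    ((Finset.univ : Finset (Fin (k + 1) → Fin (k + 1))).filter
      (fun f => Monotone f ∧ f 0 = 0 ∧ ∀ j, j ≠ 0 → f j < j)) ×ˢ
    ((Finset.univ : Finset (Sym2 (Fin (k + 1)))).powersetCard m)

private theorem e7_pats_card (n k m : ℕ) :
    ((e7_pats n k m).card : ℝ) ≤ n ^ (k + 1) * 4 ^ (k + 1) * (((k : ℝ) + 1) ^ 2) ^ m := by
  classical
  unfold e7_pats
  rw [Finset.card_product, Finset.card_product, Fintype.card_piFinset, Finset.prod_const,
    Finset.card_univ, Fintype.card_fin, Finset.card_range, Finset.card_powersetCard]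
  push_cast
  have h1 : (((Finset.univ : Finset (Sym2 (Fin (k + 1)))).card.choose m : ℕ) : ℝ) ≤
      (((k : ℝ) + 1) ^ 2) ^ m := by
    have h2 : (Finset.univ : Finset (Sym2 (Fin (k + 1)))).card.choose m ≤
        (Finset.univ : Finset (Sym2 (Fin (k + 1)))).card ^ m := Nat.choose_le_pow _ _
    have h3 : (Finset.univ : Finset (Sym2 (Fin (k + 1)))).card ≤ (k + 1) ^ 2 := by
      rw [Finset.card_univ, Sym2.card, Fintype.card_fin, Nat.choose_two_right]
      apply Nat.div_le_of_le_mul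
      simp only [Nat.add_sub_cancel]
      nlinarith
    calc (((Finset.univ : Finset (Sym2 (Fin (k + 1)))).card.choose m : ℕ) : ℝ)
        ≤ (((Finset.univ : Finset (Sym2 (Fin (k + 1)))).card ^ m : ℕ) : ℝ) := by exact_mod_cast h2
      _ ≤ ((((k + 1) ^ 2) ^ m : ℕ) : ℝ) := by exact_mod_cast Nat.pow_le_pow_left h3 m
      _ = (((k : ℝ) + 1) ^ 2) ^ m := by push_cast; ring
  have h4 := e7_count k
  rw [mul_assoc]
  apply mul_le_mul_of_nonneg_left _ (by positivity)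
  exact mul_le_mul h4 h1 (by positivity) (by positivity)

private theorem e7_exists {n k e0 : ℕ} {G : Finset (Sym2 ℕ)} {W : Finset ℕ} (hWn : W ⊆ range n)
    (hW : Conn G W) (hk : W.card = k + 1) (he : (e0 : ℤ) ≤ exc G W) :
    ∃ q ∈ e7_pats n k (e0 + 1), Function.Injective q.1 ∧ Disjoint q.2.2 (e7_tree q.2.1) ∧
      (e7_tree q.2.1 ∪ q.2.2).image (Sym2.map q.1) ⊆ G := by
  classical
  obtain ⟨u, f, hu, huW, hf, hf0, hfj⟩ := exists_bfs hW hk
  set P : Finset (Sym2 (Fin (k + 1))) := Finset.univ.filter (fun e => Sym2.map u e ∈ G) with hP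
  have h1 : ins W G ⊆ P.image (Sym2.map u) := by
    intro e he
    rw [mem_ins] at he
    obtain ⟨he1, he2⟩ := he
    induction e using Sym2.ind with
    | _ a b =>
      have ha := he2 a (Sym2.mem_mk_left a b)
      have hb := he2 b (Sym2.mem_mk_right a b)
      rw [← huW, Finset.mem_image] at ha hb
      obtain ⟨i, _, rfl⟩ := ha
      obtain ⟨j, _, rfl⟩ := hb
      rw [Finset.mem_image]
      refine ⟨s(i, j), ?_, rfl⟩
      rw [hP, Finset.mem_filter]
      exact ⟨Finset.mem_univ _, he1⟩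
  have h2 : (ins W G).card ≤ P.card := (Finset.card_le_card h1).trans Finset.card_image_le
  have h3 : e7_tree f ⊆ P := by
    intro e he
    unfold e7_tree at he
    rw [Finset.mem_image] at he
    obtain ⟨j, hj, rfl⟩ := he
    rw [hP, Finset.mem_filter]
    exact ⟨Finset.mem_univ _, (hfj j (Finset.ne_of_mem_erase hj)).2⟩
  have h4 : e0 + 1 ≤ (P \ e7_tree f).card := by
    rw [Finset.card_sdiff_of_subset h3, e7_tree_card (fun j hj => (hfj j hj).1)]
    unfold exc at he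
    rw [hk] at he
    omega
  obtain ⟨X, hX1, hX2⟩ := Finset.exists_subset_card_eq h4
  refine ⟨(u, f, X), ?_, hu, ?_, ?_⟩
  · unfold e7_pats
    rw [Finset.mem_product, Finset.mem_product, Fintype.mem_piFinset, Finset.mem_filter,
      Finset.mem_powersetCard]
    refine ⟨fun i => hWn ?_, ⟨Finset.mem_univ _, hf, hf0, fun j hj => (hfj j hj).1⟩,
      Finset.subset_univ _, hX2⟩
    rw [← huW]
    exact Finset.mem_image_of_mem _ (Finset.mem_univ _)
  · exact Finset.disjoint_of_subset_left hX1 Finset.sdiff_disjoint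
  · intro e he
    rw [Finset.mem_image] at he
    obtain ⟨e', he', rfl⟩ := he
    have h5 : e' ∈ P := by
      rcases Finset.mem_union.1 he' with h | h
      · exact h3 h
      · exact (Finset.mem_sdiff.1 (hX1 h)).1
    rw [hP, Finset.mem_filter] at h5
    exact h5.2

private theorem e7_Pr_k {n k e0 : ℕ} {p : ℝ} (h0 : 0 ≤ p) (h1 : p ≤ 1) :
    Pr n p (fun G => ∃ W : Finset ℕ, W ⊆ range n ∧ Conn G W ∧ W.card = k + 1 ∧
      (e0 : ℤ) ≤ exc G W) ≤
      n ^ (k + 1) * 4 ^ (k + 1) * (((k : ℝ) + 1) ^ 2) ^ (e0 + 1) * p ^ (k + 1 + e0) := by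
  have h2 : Pr n p (fun G => ∃ W : Finset ℕ, W ⊆ range n ∧ Conn G W ∧ W.card = k + 1 ∧
      (e0 : ℤ) ≤ exc G W) ≤
      Pr n p (fun G => ∃ q ∈ e7_pats n k (e0 + 1), Function.Injective q.1 ∧
        Disjoint q.2.2 (e7_tree q.2.1) ∧
        (e7_tree q.2.1 ∪ q.2.2).image (Sym2.map q.1) ⊆ G) := by
    refine Pr_mono h0 h1 (fun G _ => ?_)
    rintro ⟨W, hW1, hW2, hW3, hW4⟩
    exact e7_exists hW1 hW2 hW3 hW4
  refine h2.trans ((e7_Pr_exists h0 h1 (e7_pats n k (e0 + 1)) _).trans ?_)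
  have h3 : ∀ q ∈ e7_pats n k (e0 + 1), Pr n p (fun G => Function.Injective q.1 ∧
        Disjoint q.2.2 (e7_tree q.2.1) ∧
        (e7_tree q.2.1 ∪ q.2.2).image (Sym2.map q.1) ⊆ G) ≤ p ^ (k + 1 + e0) := by
    intro q hq
    by_cases hq2 : Function.Injective q.1 ∧ Disjoint q.2.2 (e7_tree q.2.1)
    · refine (Pr_mono h0 h1 (B := fun G =>
        (e7_tree q.2.1 ∪ q.2.2).image (Sym2.map q.1) ⊆ G) (fun G _ h => h.2.2)).trans ?_
      refine (e7_Pr_subset h0 _).trans ?_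
      rw [Finset.card_image_of_injective _ (Sym2.map.injective hq2.1),
        Finset.card_union_of_disjoint hq2.2.symm]
      unfold e7_pats at hq
      rw [Finset.mem_product, Finset.mem_product, Finset.mem_filter,
        Finset.mem_powersetCard] at hq
      rw [e7_tree_card hq.2.1.2.2.2, hq.2.2.2]
      rw [show k + (e0 + 1) = k + 1 + e0 by ring]
    · have : Pr n p (fun G => Function.Injective q.1 ∧
        Disjoint q.2.2 (e7_tree q.2.1) ∧
        (e7_tree q.2.1 ∪ q.2.2).image (Sym2.map q.1) ⊆ G) = 0 := by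
        unfold Pr
        rw [Ex_congr (g := fun _ => (0 : ℝ)), Ex_const]
        intro G _
        exact ind_false (fun h => hq2 ⟨h.1, h.2.1⟩)
      rw [this]
      positivity
  refine (Finset.sum_le_sum h3).trans ?_
  rw [Finset.sum_const, nsmul_eq_mul]
  exact mul_le_mul_of_nonneg_right (e7_pats_card n k (e0 + 1)) (by positivity)

/-- Arithmetic of one term. -/
private theorem e7_term {n k e0 K L : ℕ} {c C : ℝ} (hc : 0 < c) (hC : c ≤ C) (hC1 : 1 ≤ C)
    (hn : 0 < n) (he : 1 ≤ e0) (hk : k + 1 ≤ K * e0) (hL : k + 1 ≤ L)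
    (hb : (4 * C) ^ (K + 1) * (L : ℝ) ^ 4 / n ≤ 1) :
    (n : ℝ) ^ (k + 1) * 4 ^ (k + 1) * (((k : ℝ) + 1) ^ 2) ^ (e0 + 1) * (c / n) ^ (k + 1 + e0) ≤
      (4 * C) ^ (K + 1) * (L : ℝ) ^ 4 / n := by
  have hn0 : (0 : ℝ) < n := by exact_mod_cast hn
  have h1 : (n : ℝ) ^ (k + 1) * 4 ^ (k + 1) * (((k : ℝ) + 1) ^ 2) ^ (e0 + 1) *
      (c / n) ^ (k + 1 + e0) =
      4 ^ (k + 1) * c ^ (k + 1 + e0) * ((k : ℝ) + 1) ^ (2 * (e0 + 1)) / n ^ e0 := by
    rw [div_pow, pow_add (n : ℝ) (k + 1) e0, ← pow_mul]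
    field_simp
  rw [h1]
  have h2 : (4 : ℝ) ^ (k + 1) * c ^ (k + 1 + e0) ≤ ((4 * C) ^ (K + 1)) ^ e0 := by
    calc (4 : ℝ) ^ (k + 1) * c ^ (k + 1 + e0) ≤ 4 ^ (k + 1 + e0) * C ^ (k + 1 + e0) := by
          apply mul_le_mul
          · exact pow_le_pow_right₀ (by norm_num) (by omega)
          · exact pow_le_pow_left₀ hc.le hC _
          · positivity
          · positivity
      _ = (4 * C) ^ (k + 1 + e0) := by rw [mul_pow]
      _ ≤ (4 * C) ^ ((K + 1) * e0) := by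
          apply pow_le_pow_right₀ (by linarith)
          linarith [hk]
      _ = ((4 * C) ^ (K + 1)) ^ e0 := by rw [pow_mul]
  have h3 : ((k : ℝ) + 1) ^ (2 * (e0 + 1)) ≤ ((L : ℝ) ^ 4) ^ e0 := by
    have hk1 : (1 : ℝ) ≤ (k : ℝ) + 1 := by
      have : (0 : ℝ) ≤ k := Nat.cast_nonneg k
      linarith
    calc ((k : ℝ) + 1) ^ (2 * (e0 + 1)) ≤ ((k : ℝ) + 1) ^ (4 * e0) :=
          pow_le_pow_right₀ hk1 (by omega)
      _ ≤ (L : ℝ) ^ (4 * e0) := by
          apply pow_le_pow_left₀ (by linarith)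
          exact_mod_cast hL
      _ = ((L : ℝ) ^ 4) ^ e0 := by rw [pow_mul]
  calc 4 ^ (k + 1) * c ^ (k + 1 + e0) * ((k : ℝ) + 1) ^ (2 * (e0 + 1)) / n ^ e0
      ≤ ((4 * C) ^ (K + 1)) ^ e0 * ((L : ℝ) ^ 4) ^ e0 / n ^ e0 := by
        apply div_le_div_of_nonneg_right _ (by positivity)
        apply mul_le_mul h2 h3 (by positivity)
        have : (0 : ℝ) ≤ 4 * C := by linarith
        positivity
    _ = ((4 * C) ^ (K + 1) * (L : ℝ) ^ 4 / n) ^ e0 := by
        rw [div_pow, mul_pow ((4 * C) ^ (K + 1))]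
    _ ≤ (4 * C) ^ (K + 1) * (L : ℝ) ^ 4 / n := by
        apply pow_le_of_le_one _ hb (by omega)
        have : (0 : ℝ) ≤ 4 * C := by linarith
        positivity

private theorem e7_tendsto (A : ℝ) (r : ℕ) :
    Tendsto (fun n : ℕ => A * ((Nat.log 2 n : ℕ) : ℝ) ^ r / n) atTop (𝓝 0) := by
  have h1 := (Real.isLittleO_pow_logb_id_atTop (b := 2) (n := r)).tendsto_div_nhds_zero
  have h2 := h1.comp tendsto_natCast_atTop_atTop
  have h3 : Tendsto (fun n : ℕ => |A| * (Real.logb 2 (n : ℝ) ^ r / n)) atTop (𝓝 0) := by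
    have := h2.const_mul |A|
    rw [mul_zero] at this
    exact this
  refine squeeze_zero_norm (fun n => ?_) h3
  rw [mul_div_assoc, norm_mul, Real.norm_eq_abs, Real.norm_eq_abs]
  apply mul_le_mul_of_nonneg_left _ (abs_nonneg A)
  rw [abs_of_nonneg (by positivity)]
  apply div_le_div_of_nonneg_right _ (Nat.cast_nonneg n)
  apply pow_le_pow_left₀ (Nat.cast_nonneg _)
  exact Real.natLog_le_logb n 2

/-- E7 (hint): connected sets with excess at least `θ |W|` (and at least one) do not exist whp: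
spanning tree and `e+1` further pairs: `n^k k! ...`: by `exists_bfs` at most
`n^(k+1) 4^(k+1) ((k+1)^2)^(e+1) (c/n)^(k+1+e)` in expectation (at most `4^(k+1)` monotone parent
maps); sum over `k+1 ≤ (log n)^4`, `e ≥ max(1, θ(k+1))`. -/
theorem no_dense_conn {c : ℝ} (hc : 0 < c) {θ : ℝ} (hθ : 0 < θ) :
    Neg c (fun n G => ∃ W : Finset ℕ, W ⊆ range n ∧ Conn G W ∧ W.card ≤ (Nat.log 2 n) ^ 4 ∧
      1 ≤ exc G W ∧ θ * (W.card : ℝ) ≤ (exc G W : ℝ)) := by
  obtain ⟨K, hK⟩ := exists_nat_ge (1 / θ)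
  set C : ℝ := max c 1 with hCdef
  have hcC : c ≤ C := le_max_left _ _
  have hC1 : 1 ≤ C := le_max_right _ _
  have hlim : Tendsto (fun n : ℕ => (4 * C) ^ (K + 1) * ((Nat.log 2 n : ℕ) : ℝ) ^ 20 / n) atTop
      (𝓝 0) := e7_tendsto _ _
  have hlim2 : Tendsto (fun n : ℕ => (4 * C) ^ (K + 1) * ((Nat.log 2 n : ℕ) : ℝ) ^ 16 / n) atTop
      (𝓝 0) := e7_tendsto _ _
  refine Neg_of_le hc hlim ?_
  filter_upwards [cn_eventually hc, eventually_ge_atTop 1,
    hlim2.eventually (gt_mem_nhds (show (0 : ℝ) < 1 by norm_num))] with n hp hn hb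
  set L : ℕ := (Nat.log 2 n) ^ 4 with hLdef
  have h0 : 0 ≤ c / (n : ℝ) := hp.1.le
  have h1 : c / (n : ℝ) ≤ 1 := by linarith [hp.2]
  have hL4 : ((L : ℕ) : ℝ) ^ 4 = ((Nat.log 2 n : ℕ) : ℝ) ^ 16 := by
    rw [hLdef]; push_cast; ring
  have hb' : (4 * C) ^ (K + 1) * (L : ℝ) ^ 4 / n ≤ 1 := by
    rw [hL4]; exact hb.le
  have h2 : Pr n (c / n) (fun G => ∃ W : Finset ℕ, W ⊆ range n ∧ Conn G W ∧ W.card ≤ L ∧
      1 ≤ exc G W ∧ θ * (W.card : ℝ) ≤ (exc G W : ℝ)) ≤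
      Pr n (c / n) (fun G => ∃ k ∈ range L, ∃ W : Finset ℕ, W ⊆ range n ∧ Conn G W ∧
        W.card = k + 1 ∧ ((max 1 ⌈θ * ((k + 1 : ℕ) : ℝ)⌉₊ : ℕ) : ℤ) ≤ exc G W) := by
    refine Pr_mono h0 h1 (fun G _ => ?_)
    rintro ⟨W, hW1, hW2, hW3, hW4, hW5⟩
    have hpos : 0 < W.card := Finset.card_pos.2 hW2.1
    refine ⟨W.card - 1, Finset.mem_range.2 (by omega), W, hW1, hW2, by omega, ?_⟩
    rw [show W.card - 1 + 1 = W.card by omega]
    have h3 : 0 ≤ exc G W := by omega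
    obtain ⟨m, hm⟩ := Int.eq_ofNat_of_zero_le h3
    rw [hm] at hW4 hW5 ⊢
    have h4 : ⌈θ * (W.card : ℝ)⌉₊ ≤ m := by
      rw [Nat.ceil_le]
      exact_mod_cast hW5
    have h5 : 1 ≤ m := by exact_mod_cast hW4
    exact_mod_cast max_le h5 h4
  refine h2.trans ((e7_Pr_exists h0 h1 (range L) _).trans ?_)
  have h3 : ∀ k ∈ range L, Pr n (c / n) (fun G => ∃ W : Finset ℕ, W ⊆ range n ∧ Conn G W ∧
        W.card = k + 1 ∧ ((max 1 ⌈θ * ((k + 1 : ℕ) : ℝ)⌉₊ : ℕ) : ℤ) ≤ exc G W) ≤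
        (4 * C) ^ (K + 1) * (L : ℝ) ^ 4 / n := by
    intro k hk
    refine (e7_Pr_k h0 h1).trans ?_
    refine e7_term hc hcC hC1 hn (le_max_left _ _) ?_ (by have := Finset.mem_range.1 hk; omega) hb'
    have h4 : θ * ((k + 1 : ℕ) : ℝ) ≤ (⌈θ * ((k + 1 : ℕ) : ℝ)⌉₊ : ℝ) := Nat.le_ceil _
    have h5 : ((k + 1 : ℕ) : ℝ) ≤ K * (⌈θ * ((k + 1 : ℕ) : ℝ)⌉₊ : ℝ) := by
      have h6 : 1 ≤ (K : ℝ) * θ := by
        rw [div_le_iff₀ hθ] at hK
        exact hK
      calc ((k + 1 : ℕ) : ℝ) = 1 * ((k + 1 : ℕ) : ℝ) := (one_mul _).symm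
        _ ≤ (K * θ) * ((k + 1 : ℕ) : ℝ) := by
          apply mul_le_mul_of_nonneg_right h6 (Nat.cast_nonneg _)
        _ = K * (θ * ((k + 1 : ℕ) : ℝ)) := by ring
        _ ≤ K * (⌈θ * ((k + 1 : ℕ) : ℝ)⌉₊ : ℝ) := by
          apply mul_le_mul_of_nonneg_left h4 (Nat.cast_nonneg _)
    have h7 : k + 1 ≤ K * ⌈θ * ((k + 1 : ℕ) : ℝ)⌉₊ := by exact_mod_cast h5
    exact h7.trans (Nat.mul_le_mul_left K (le_max_right _ _))
  refine (Finset.sum_le_sum h3).trans ?_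
  rw [Finset.sum_const, Finset.card_range, nsmul_eq_mul]
  apply le_of_eq
  rw [hLdef]
  push_cast
  ring

end Pool.Agent.Helper55.ML
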