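import Pool.Agent.Helper55.ML.Basic

set_option autoImplicit false
open Finset Filter Topology

namespace Pool.Agent.Helper55.ML

/-- M3: joining a vertex to a clique, union of cliques. -/
theorem Rig.Clq_insert {d t : ℕ} (R : Rig d t) {S : Finset (Sym2 ℕ)} {C N : Finset ℕ} {v : ℕ}
    (hC : R.Clq S C) (hN : N ⊆ C) (hd : d ≤ N.card) (h : ∀ u ∈ N, u ≠ v → R.Cl S s(v, u)) :
    R.Clq S (insert v C) := by
  by_cases hv : v ∈ C
  · rwa [Finset.insert_eq_of_mem hv]
  · obtain ⟨N', hN', hc⟩ := Finset.exists_subset_card_eq hd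
    have key : ∀ u ∈ C, R.Cl S s(v, u) := by
      refine R.clique_ext S C N' v hv (hN'.trans hN) hc ?_ ?_
      · intro a ha b hb hab
        exact hC a ha b hb hab
      · intro u hu
        exact h u (hN' hu) (fun h' => hv (h' ▸ hN (hN' hu)))
    intro a ha b hb hab
    rw [Finset.mem_insert] at ha hb
    rcases ha with rfl | ha
    · rcases hb with rfl | hb
      · exact absurd rfl hab
      · exact key b hb
    · rcases hb with rfl | hb
      · rw [Sym2.eq_swap]
        exact key a ha
      · exact hC a ha b hb hab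

theorem Rig.Clq_union {d t : ℕ} (R : Rig d t) {S : Finset (Sym2 ℕ)} {C₁ C₂ : Finset ℕ}
    (h1 : R.Clq S C₁) (h2 : R.Clq S C₂) (h : d ≤ (C₁ ∩ C₂).card) : R.Clq S (C₁ ∪ C₂) := by
  have key : ∀ a ∈ C₁, ∀ b ∈ C₂, a ≠ b → R.Cl S s(a, b) := by
    intro a ha b hb hab
    have h3 : R.Clq S (insert b C₁) := R.Clq_insert h1 Finset.inter_subset_left h
      (fun u hu hub => h2 b hb u (Finset.mem_inter.1 hu).2 (Ne.symm hub))
    exact h3 a (Finset.mem_insert_of_mem ha) b (Finset.mem_insert_self b C₁) hab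
  intro a ha b hb hab
  rw [Finset.mem_union] at ha hb
  rcases ha with ha | ha
  · rcases hb with hb | hb
    · exact h1 a ha b hb hab
    · exact key a ha b hb hab
  · rcases hb with hb | hb
    · rw [Sym2.eq_swap]
      exact key b hb a ha (Ne.symm hab)
    · exact h2 a ha b hb hab

/-- If `v` has `d` edges to a clique `C` then all pairs from `v` to `C` are in the closure. -/
theorem Rig.Cl_star {d t : ℕ} (R : Rig d t) {S : Finset (Sym2 ℕ)} {C J : Finset ℕ} {v u : ℕ}
    (hC : R.Clq S C) (hJ : J ⊆ C) (hd : d ≤ J.card) (hv : v ∉ C) (hu : u ∈ C) :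
    R.Cl (S ∪ star v J) s(v, u) := by
  have h1 : R.Clq (S ∪ star v J) (insert v C) := by
    refine R.Clq_insert (R.Clq_mono Finset.subset_union_left hC) hJ hd ?_
    intro w hw _
    exact R.Cl_of_mem (Finset.mem_union_right _ (mem_star.2 ⟨w, hw, rfl⟩))
  exact h1 v (Finset.mem_insert_self v C) u (Finset.mem_insert_of_mem hu)
    (fun h => hv (h ▸ hu))

/-- (hint) `d` of the pairs, `zero_ext`, the others are in the closure. -/
theorem Rig.r_star {d t : ℕ} (R : Rig d t) {S : Finset (Sym2 ℕ)} {C : Finset ℕ} {v : ℕ}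
    (hS : ∀ e ∈ S, v ∉ e) (hv : v ∉ C) (hC : R.Clq S C) (hd : d ≤ C.card) :
    R.r (S ∪ star v C) = R.r S + d := by
  obtain ⟨J, hJ, hc⟩ := Finset.exists_subset_card_eq hd
  have h1 := R.zero_ext S v J hS (fun h => hv (hJ h)) hc.le
  have h2 : R.r (S ∪ star v J ∪ star v C) = R.r (S ∪ star v J) := by
    refine R.r_union_of_Cl ?_
    intro f hf
    obtain ⟨u, hu, rfl⟩ := mem_star.1 hf
    exact R.Cl_star hC hJ hc.ge hv hu
  have h3 : S ∪ star v J ∪ star v C = S ∪ star v C := by
    have h4 : star v J ⊆ star v C := Finset.image_subset_image hJ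
    rw [Finset.union_assoc, Finset.union_eq_right.2 h4]
  rw [← h3, h2, h1, hc]

private theorem m3_Kb_insert (a : ℕ) (A C : Finset ℕ) : Kb (insert a A) C = Kb A C ∪ star a C := by
  ext e
  rw [Finset.mem_union, mem_Kb, mem_Kb, mem_star]
  constructor
  · rintro ⟨x, hx, b, hb, rfl⟩
    rcases Finset.mem_insert.1 hx with rfl | hx
    · exact Or.inr ⟨b, hb, rfl⟩
    · exact Or.inl ⟨x, hx, b, hb, rfl⟩
  · rintro (⟨x, hx, b, hb, rfl⟩ | ⟨b, hb, rfl⟩)
    · exact ⟨x, Finset.mem_insert_of_mem hx, b, hb, rfl⟩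
    · exact ⟨a, Finset.mem_insert_self a A, b, hb, rfl⟩

/-- Several new vertices, all joined to the same clique. Induction on `A`. -/
theorem Rig.r_Kb {d t : ℕ} (R : Rig d t) {S : Finset (Sym2 ℕ)} {A C : Finset ℕ}
    (hS : ∀ e ∈ S, ∀ a ∈ A, a ∉ e) (hA : Disjoint A C) (hC : R.Clq S C) (hd : d ≤ C.card) :
    R.r (S ∪ Kb A C) = R.r S + d * A.card := by
  induction A using Finset.induction_on with
  | empty => simp [Kb]
  | insert a A ha ih =>
    have hA' := Finset.disjoint_insert_left.1 hA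
    have ih' := ih (fun e he x hx => hS e he x (Finset.mem_insert_of_mem hx)) hA'.2
    have h1 : R.r (S ∪ Kb A C ∪ star a C) = R.r (S ∪ Kb A C) + d := by
      refine R.r_star ?_ hA'.1 (R.Clq_mono Finset.subset_union_left hC) hd
      intro e he hae
      rcases Finset.mem_union.1 he with he | he
      · exact hS e he a (Finset.mem_insert_self a A) hae
      · obtain ⟨x, hx, b, hb, rfl⟩ := mem_Kb.1 he
        rcases Sym2.mem_iff.1 hae with h | h
        · exact ha (h ▸ hx)
        · exact hA'.1 (h ▸ hb)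
    rw [m3_Kb_insert, ← Finset.union_assoc, h1, ih', Finset.card_insert_of_notMem ha]
    ring

/-- In `S ∪ Kb A C` (with `C` a clique) also all pairs inside `A ∪ C` are in the closure. -/
theorem Rig.Clq_Kb {d t : ℕ} (R : Rig d t) {S : Finset (Sym2 ℕ)} {A C : Finset ℕ}
    (hC : R.Clq S C) (hA : Disjoint A C) (hd : d ≤ C.card) : R.Clq (S ∪ Kb A C) (A ∪ C) := by
  have key : ∀ A' : Finset ℕ, A' ⊆ A → R.Clq (S ∪ Kb A C) (A' ∪ C) := by
    intro A'
    induction A' using Finset.induction_on with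
    | empty =>
      intro _
      rw [Finset.empty_union]
      exact R.Clq_mono Finset.subset_union_left hC
    | insert a A' _ ih =>
      intro h
      rw [Finset.insert_union]
      refine R.Clq_insert (ih ((Finset.subset_insert a A').trans h))
        (Finset.subset_union_right (s₂ := C)) hd ?_
      intro u hu _
      exact R.Cl_of_mem (Finset.mem_union_right _
        (mem_Kb.2 ⟨a, h (Finset.mem_insert_self a A'), u, hu, rfl⟩))
  exact key A Finset.Subset.rfl

end Pool.Agent.Helper55.ML
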