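import Pool.Agent.Helper55.ML.P1

set_option autoImplicit false
open Finset Filter Topology

namespace Pool.Agent.Helper55.ML

/-- Expectation of a function of `G.erase e`: integrate out the element `e`. -/
theorem Q4_erase {n : ℕ} (p : ℝ) {e : Sym2 ℕ} (he : e ∈ En n) (g : Finset (Sym2 ℕ) → ℝ) :
    Ex n p (fun G => g (G.erase e)) = BE ((En n).erase e) p g := by
  have h0 : e ∉ (En n).erase e := Finset.notMem_erase e _
  unfold Ex
  conv_lhs => rw [← Finset.insert_erase he]
  rw [BE_insert h0]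
  have h1 : BE ((En n).erase e) p (fun S => g ((insert e S).erase e)) =
      BE ((En n).erase e) p g := by
    refine BE_congr (fun S hS => ?_)
    have h2 : e ∉ S := fun h => h0 (hS h)
    simp only [Finset.erase_insert h2]
  have h2 : BE ((En n).erase e) p (fun S => g (S.erase e)) = BE ((En n).erase e) p g := by
    refine BE_congr (fun S hS => ?_)
    have h2 : e ∉ S := fun h => h0 (hS h)
    simp only [Finset.erase_eq_of_notMem h2]
  rw [h1, h2]
  ring

/-- Expectation on the event `e ∈ G`. -/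
theorem Q4_mem {n : ℕ} (p : ℝ) {e : Sym2 ℕ} (he : e ∈ En n) (g : Finset (Sym2 ℕ) → ℝ) :
    Ex n p (fun G => ind (e ∈ G) * g G) =
      p * BE ((En n).erase e) p (fun S => g (insert e S)) := by
  have h0 : e ∉ (En n).erase e := Finset.notMem_erase e _
  unfold Ex
  conv_lhs => rw [← Finset.insert_erase he]
  rw [BE_insert h0]
  have h1 : BE ((En n).erase e) p (fun S => ind (e ∈ insert e S) * g (insert e S)) =
      BE ((En n).erase e) p (fun S => g (insert e S)) := by
    refine BE_congr (fun S _ => ?_)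
    rw [ind_true (Finset.mem_insert_self e S), one_mul]
  have h2 : BE ((En n).erase e) p (fun S => ind (e ∈ S) * g S) =
      BE ((En n).erase e) p (fun _ => (0 : ℝ)) := by
    refine BE_congr (fun S hS => ?_)
    have h2 : e ∉ S := fun h => h0 (hS h)
    rw [ind_false h2, zero_mul]
  rw [h1, h2, BE_const]
  ring

/-- A sum over `G` as a sum over all pairs with indicators. -/
theorem Q4_sum {n : ℕ} (h : Sym2 ℕ → Finset (Sym2 ℕ) → ℝ) {G : Finset (Sym2 ℕ)}
    (hG : G ⊆ En n) : ∑ e ∈ G, h e G = ∑ e ∈ En n, ind (e ∈ G) * h e G := by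
  rw [← Finset.sum_subset hG]
  · refine Finset.sum_congr rfl (fun e he => ?_)
    rw [ind_true he, one_mul]
  · intro e _ he
    rw [ind_false he, zero_mul]

/-- Q4 (hint): `G.erase e` and `e ∈ G` are independent: `BE_insert` at `e`. -/
theorem Ex_mecke (n : ℕ) (p : ℝ) (g : Sym2 ℕ → Finset (Sym2 ℕ) → ℝ) :
    Ex n p (fun G => ∑ e ∈ G, g e (G.erase e)) =
      p * ∑ e ∈ En n, Ex n p (fun G => g e (G.erase e)) := by
  have h1 : Ex n p (fun G => ∑ e ∈ G, g e (G.erase e)) =
      Ex n p (fun G => ∑ e ∈ En n, ind (e ∈ G) * g e (G.erase e)) :=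
    Ex_congr (fun G hG => Q4_sum (fun e G => g e (G.erase e)) hG)
  rw [h1, Ex_sum, Finset.mul_sum]
  refine Finset.sum_congr rfl (fun e he => ?_)
  rw [Q4_mem p he (fun G => g e (G.erase e)), Q4_erase p he]
  congr 1
  refine BE_congr (fun S hS => ?_)
  have h2 : e ∉ S := fun h => Finset.notMem_erase e _ (hS h)
  simp only [Finset.erase_insert h2]

theorem Ex_mecke_insert (n : ℕ) (p : ℝ) (g : Sym2 ℕ → Finset (Sym2 ℕ) → ℝ) :
    Ex n p (fun G => ∑ e ∈ G, g e G) =
      p * ∑ e ∈ En n, Ex n p (fun G => g e (insert e G)) := by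
  have h1 : Ex n p (fun G => ∑ e ∈ G, g e G) =
      Ex n p (fun G => ∑ e ∈ G, (fun e H => g e (insert e H)) e (G.erase e)) := by
    refine Ex_congr (fun G _ => Finset.sum_congr rfl (fun e he => ?_))
    simp only [Finset.insert_erase he]
  rw [h1, Ex_mecke n p (fun e H => g e (insert e H))]
  congr 1
  refine Finset.sum_congr rfl (fun e _ => Ex_congr (fun G _ => ?_))
  have h3 : insert e (G.erase e) = insert e G := by
    ext x
    simp only [Finset.mem_insert, Finset.mem_erase]
    tauto
  simp only [h3]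

theorem Ex_mem_erase (n : ℕ) (p : ℝ) {e : Sym2 ℕ} (he : e ∈ En n)
    (g : Finset (Sym2 ℕ) → ℝ) :
    Ex n p (fun G => ind (e ∈ G) * g (G.erase e)) = p * Ex n p (fun G => g (G.erase e)) := by
  rw [Q4_mem p he (fun G => g (G.erase e)), Q4_erase p he]
  congr 1
  refine BE_congr (fun S hS => ?_)
  have h2 : e ∉ S := fun h => Finset.notMem_erase e _ (hS h)
  simp only [Finset.erase_insert h2]

theorem Ex_erase (n : ℕ) (p : ℝ) {e : Sym2 ℕ} (he : e ∈ En n) (g : Finset (Sym2 ℕ) → ℝ) :
    (1 - p) * Ex n p (fun G => g (G.erase e)) = Ex n p (fun G => ind (e ∉ G) * g G) := by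
  have h1 : Ex n p (fun G => ind (e ∉ G) * g G) =
      Ex n p (fun G => g (G.erase e) - ind (e ∈ G) * g (G.erase e)) := by
    refine Ex_congr (fun G _ => ?_)
    by_cases h : e ∈ G
    · rw [ind_false (not_not.2 h), ind_true h]
      ring
    · rw [ind_true h, ind_false h, Finset.erase_eq_of_notMem h]
      ring
  rw [h1, Ex_sub, Ex_mem_erase n p he]
  ring

end Pool.Agent.Helper55.ML
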