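import Pool.Agent.Helper55.ML.Q6a
import Pool.Agent.Helper55.ML.Q4
import Pool.Agent.Helper55.ML.Q5

set_option autoImplicit false
open Finset Filter Topology

namespace Pool.Agent.Helper55.ML

private theorem q6_sqrt (C : ℝ) : Tendsto (fun n : ℕ => C / Real.sqrt n) atTop (𝓝 0) := by
  refine Tendsto.div_atTop tendsto_const_nhds ?_
  exact Real.tendsto_sqrt_atTop.comp tendsto_natCast_atTop_atTop

/-- Q6: immediate from `edge_bound`. -/
theorem Van_edge {c : ℝ} (hc : 0 < c) {Φ : ℕ → Finset (Sym2 ℕ) → ℝ} (h0 : ∀ n G, 0 ≤ Φ n G)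
    (h1 : ∀ n G, Φ n G ≤ 1) (hm : ∀ n, ∀ G H : Finset (Sym2 ℕ), G ⊆ H → Φ n G ≤ Φ n H)
    (hs : ∀ n, SymR n (Φ n)) :
    Van c (fun n G => Φ n (insert s(0, 1) G) - Φ n (G.erase s(0, 1))) := by
  obtain ⟨C, hC, hev⟩ := edge_bound hc
  unfold Van
  refine squeeze_zero_norm' ?_ (q6_sqrt C)
  filter_upwards [hev] with n hn
  rw [Real.norm_eq_abs]
  exact hn (Φ n) (h0 n) (h1 n) (hs n)

private theorem q6_restrict {α : Type*} [DecidableEq α] {E F : Finset α} (h : F ⊆ E) {p : ℝ}
    (h0 : 0 ≤ p) (h1 : p ≤ 1) (f : Finset α → ℝ) (hf : ∀ S ⊆ E, 0 ≤ f S) :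
    (1 - p) ^ (E \ F).card * BE F p f ≤ BE E p f := by
  have e : BE E p f = BE F p (fun S => BE (E \ F) p (fun T => f (S ∪ T))) := by
    conv_lhs => rw [← Finset.union_sdiff_of_subset h]
    exact BE_union Finset.disjoint_sdiff p f
  rw [e, ← BE_mul_left]
  refine BE_mono h0 h1 (fun S hS => ?_)
  have hnn : ∀ T ∈ (E \ F).powerset,
      0 ≤ p ^ T.card * (1 - p) ^ ((E \ F) \ T).card * f (S ∪ T) := by
    intro T hT
    have hT' := Finset.mem_powerset.1 hT
    have : S ∪ T ⊆ E :=
      Finset.union_subset (hS.trans h) (hT'.trans Finset.sdiff_subset)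
    exact mul_nonneg (mul_nonneg (pow_nonneg h0 _) (pow_nonneg (by linarith) _)) (hf _ this)
  have := Finset.single_le_sum hnn (Finset.empty_mem_powerset (E \ F))
  simpa [BE] using this

private theorem q6_tele {α : Type*} [DecidableEq α] {E D : Finset α} (hD : D ⊆ E) {p : ℝ}
    (h0 : 0 ≤ p) (h1 : p < 1) (Φ : Finset α → ℝ)
    (hm : ∀ G H : Finset α, G ⊆ H → Φ G ≤ Φ H) :
    ∀ T : Finset α, T ⊆ E \ D → BE (D ∪ T) p Φ - BE D p Φ ≤
      ∑ e ∈ T, p * (((1 - p) ^ (E \ D).card)⁻¹ *
        BE E p (fun S => Φ (insert e S) - Φ (S.erase e))) := by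
  intro T
  induction T using Finset.induction_on with
  | empty => intro _; simp
  | insert e T he ih =>
    intro hT
    have heT : e ∈ E \ D := hT (Finset.mem_insert_self e T)
    have heD : e ∉ D := (Finset.mem_sdiff.1 heT).2
    have heU : e ∉ D ∪ T := by rw [Finset.mem_union]; tauto
    have hTs : T ⊆ E \ D := (Finset.subset_insert e T).trans hT
    have hU : D ∪ T ⊆ E := Finset.union_subset hD (hTs.trans Finset.sdiff_subset)
    have ih' := ih hTs
    rw [Finset.sum_insert he, Finset.union_insert, BE_insert heU]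
    have hp1 : 0 < 1 - p := by linarith
    have hgn : ∀ S : Finset α, 0 ≤ Φ (insert e S) - Φ (S.erase e) := by
      intro S
      have := hm (S.erase e) (insert e S)
        ((Finset.erase_subset e S).trans (Finset.subset_insert e S))
      linarith
    have hr := q6_restrict hU h0 h1.le (fun S => Φ (insert e S) - Φ (S.erase e))
      (fun S _ => hgn S)
    have hcongr : BE (D ∪ T) p (fun S => Φ (insert e S) - Φ (S.erase e)) =
        BE (D ∪ T) p (fun S => Φ (insert e S)) - BE (D ∪ T) p Φ := by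
      rw [← BE_sub]
      refine BE_congr (fun S hS => ?_)
      rw [Finset.erase_eq_of_notMem (fun h => heU (hS h))]
    have hnn : 0 ≤ BE (D ∪ T) p (fun S => Φ (insert e S) - Φ (S.erase e)) :=
      BE_nonneg h0 h1.le (fun S _ => hgn S)
    have hcard : (E \ (D ∪ T)).card ≤ (E \ D).card :=
      Finset.card_le_card (Finset.sdiff_subset_sdiff subset_rfl Finset.subset_union_left)
    have hpow : (1 - p) ^ (E \ D).card ≤ (1 - p) ^ (E \ (D ∪ T)).card :=
      pow_le_pow_of_le_one hp1.le (by linarith) hcard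
    have hpos : 0 < (1 - p) ^ (E \ D).card := pow_pos hp1 _
    have key : BE (D ∪ T) p (fun S => Φ (insert e S)) - BE (D ∪ T) p Φ ≤
        ((1 - p) ^ (E \ D).card)⁻¹ * BE E p (fun S => Φ (insert e S) - Φ (S.erase e)) := by
      rw [← hcongr]
      rw [inv_mul_eq_div, le_div_iff₀ hpos, mul_comm]
      refine le_trans ?_ hr
      exact mul_le_mul_of_nonneg_right hpow hnn
    have key2 := mul_le_mul_of_nonneg_left key h0
    nlinarith

private theorem q6_single {c : ℝ} (hc : 0 < c) {Φ : ℕ → Finset (Sym2 ℕ) → ℝ}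
    (h0 : ∀ n G, 0 ≤ Φ n G)
    (h1 : ∀ n G, Φ n G ≤ 1) (hm : ∀ n, ∀ G H : Finset (Sym2 ℕ), G ⊆ H → Φ n G ≤ Φ n H)
    (hs : ∀ n, SymR n (Φ n)) (v : ℕ) :
    Van c (fun n G => Φ n G - Φ n (del {v} G)) := by
  obtain ⟨C, hC, hev⟩ := edge_bound hc
  obtain ⟨a, ha, hae⟩ := one_sub_pow_lower hc 1
  unfold Van
  have hlim : Tendsto (fun n : ℕ => (c * a⁻¹ * C) / Real.sqrt n) atTop (𝓝 0) := q6_sqrt _
  refine squeeze_zero' ?_ ?_ hlim
  · filter_upwards [cn_eventually hc] with n hn
    refine Ex_nonneg hn.1.le (by linarith [hn.2]) (fun G _ => ?_)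
    have := hm n _ _ (del_subset {v} G)
    linarith
  · filter_upwards [hev, hae, cn_eventually hc, eventually_gt_atTop 0] with n hn1 hn2 hn3 hn4
    have hp0 : 0 ≤ c / (n : ℝ) := hn3.1.le
    have hp1 : c / (n : ℝ) < 1 := by linarith [hn3.2]
    have hnpos : (0 : ℝ) < n := by exact_mod_cast hn4
    set p := c / (n : ℝ) with hp
    have hDE : del {v} (En n) ⊆ En n := del_subset _ _
    have e1 : Ex n p (fun G => Φ n (del {v} G)) = BE (del {v} (En n)) p (Φ n) := by
      rw [← BE_inter hDE p (Φ n)]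
      refine Ex_congr (fun G hG => ?_)
      congr 1
      ext e
      rw [Finset.mem_inter, mem_del, mem_del]
      constructor
      · rintro ⟨h2, h3⟩; exact ⟨h2, hG h2, h3⟩
      · rintro ⟨h2, _, h3⟩; exact ⟨h2, h3⟩
    have e2 : Ex n p (fun G => Φ n G - Φ n (del {v} G)) =
        BE (En n) p (Φ n) - BE (del {v} (En n)) p (Φ n) := by
      rw [← e1]
      exact Ex_sub
    have h3 := q6_tele hDE hp0 hp1 (Φ n) (hm n) (En n \ del {v} (En n)) subset_rfl
    rw [Finset.union_sdiff_of_subset hDE] at h3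
    rw [e2]
    refine h3.trans ?_
    have hcard : (En n \ del {v} (En n)).card ≤ n := by
      have hsub : En n \ del {v} (En n) ⊆ star v (range n) := by
        intro e he
        rw [Finset.mem_sdiff, mem_del] at he
        have hve : v ∈ e := by
          by_contra hcon
          refine he.2 ⟨he.1, fun x hx hx' => ?_⟩
          rw [Finset.mem_singleton] at hx'
          exact hcon (hx' ▸ hx)
        obtain ⟨u, rfl⟩ := Sym2.mem_iff_exists.1 hve
        rw [mem_star]
        refine ⟨u, ?_, rfl⟩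
        rw [Finset.mem_range]
        exact (mk_mem_En.1 he.1).2.1
      calc (En n \ del {v} (En n)).card ≤ (star v (range n)).card := Finset.card_le_card hsub
        _ ≤ (range n).card := Finset.card_image_le
        _ = n := Finset.card_range n
    have hterm : ∀ e ∈ En n \ del {v} (En n),
        BE (En n) p (fun S => Φ n (insert e S) - Φ n (S.erase e)) ≤ C / Real.sqrt n := by
      intro e he
      have heE : e ∈ En n := (Finset.mem_sdiff.1 he).1
      have h4 := Ex_edge_eq n p (fun e G => Φ n (insert e G) - Φ n (G.erase e)) (by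
        intro σ hσ e G
        have hinj : Function.Injective (Sym2.map σ) := Sym2.map.injective σ.injective
        have q1 : insert (Sym2.map σ e) (G.image (Sym2.map σ)) =
            (insert e G).image (Sym2.map σ) := (Finset.image_insert _ _ _).symm
        have q2 : (G.image (Sym2.map σ)).erase (Sym2.map σ e) =
            (G.erase e).image (Sym2.map σ) := (Finset.image_erase hinj G e).symm
        simp only [q1, q2]
        rw [hs n σ hσ, hs n σ hσ]) heE
      have h5 := hn1 (Φ n) (h0 n) (h1 n) (hs n)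
      have h6 := (abs_le.1 h5).2
      rw [← h4] at h6
      exact h6
    have hK : ((1 - p) ^ (En n \ del {v} (En n)).card)⁻¹ ≤ a⁻¹ := by
      refine inv_anti₀ ha ?_
      rw [one_mul] at hn2
      refine hn2.trans ?_
      exact pow_le_pow_of_le_one (by linarith) (by linarith) hcard
    have hK0 : 0 ≤ ((1 - p) ^ (En n \ del {v} (En n)).card)⁻¹ :=
      inv_nonneg.2 (pow_nonneg (by linarith) _)
    have hCs : 0 ≤ C / Real.sqrt n := by positivity
    calc ∑ e ∈ En n \ del {v} (En n), p * (((1 - p) ^ (En n \ del {v} (En n)).card)⁻¹ *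
          BE (En n) p (fun S => Φ n (insert e S) - Φ n (S.erase e)))
        ≤ ∑ e ∈ En n \ del {v} (En n), p * (a⁻¹ * (C / Real.sqrt n)) := by
          refine Finset.sum_le_sum (fun e he => ?_)
          refine mul_le_mul_of_nonneg_left ?_ hp0
          exact (mul_le_mul_of_nonneg_left (hterm e he) hK0).trans
            (mul_le_mul_of_nonneg_right hK hCs)
      _ = (En n \ del {v} (En n)).card * (p * (a⁻¹ * (C / Real.sqrt n))) := by
          rw [Finset.sum_const, nsmul_eq_mul]
      _ ≤ n * (p * (a⁻¹ * (C / Real.sqrt n))) := by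
          refine mul_le_mul_of_nonneg_right (by exact_mod_cast hcard) ?_
          have : 0 ≤ a⁻¹ := inv_nonneg.2 ha.le
          positivity
      _ = (c * a⁻¹ * C) / Real.sqrt n := by
          rw [hp]
          field_simp

/-- (hint) Expose the edges of the vertex `v` one by one: `G^0 = del {v} G ⊆ G^1 ⊆ ... ⊆ G`, `G^i`
contains the edges of `G` from `v` to the vertices `< i`. `E[Φ(G^{i+1}) - Φ(G^i)] =
(c/n) E[Φ(insert s(v,i) G^i) - Φ(G^i)]`, and the law of `G^i` is the conditional law of `G` given that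
the other edges at `v` are absent, which has probability at least a constant `a`
(`one_sub_pow_lower`), so this is at most `(c/n)(1/a) C n^{-1/2}` by `edge_bound` and symmetry. Sum over
`i < n`. Then induction on `A` with `Van_del`. Only `v < n` matter. -/
theorem Van_vertex {c : ℝ} (hc : 0 < c) {Φ : ℕ → Finset (Sym2 ℕ) → ℝ} (h0 : ∀ n G, 0 ≤ Φ n G)
    (h1 : ∀ n G, Φ n G ≤ 1) (hm : ∀ n, ∀ G H : Finset (Sym2 ℕ), G ⊆ H → Φ n G ≤ Φ n H)
    (hs : ∀ n, SymR n (Φ n)) (A : Finset ℕ) :
    Van c (fun n G => Φ n G - Φ n (del A G)) := by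
  induction A using Finset.induction_on with
  | empty =>
    have h2 : (fun (n : ℕ) (G : Finset (Sym2 ℕ)) => Φ n G - Φ n (del ∅ G)) =
        fun _ _ => (0 : ℝ) := by
      funext n G
      have : del ∅ G = G := by
        ext e; rw [mem_del]; simp
      rw [this, sub_self]
    rw [h2]
    unfold Van
    have h3 : (fun n : ℕ => Ex n (c / n) (fun _ => (0 : ℝ))) = fun _ => 0 := by
      funext n
      exact Ex_const 0
    rw [h3]
    exact tendsto_const_nhds
  | insert v A hv ih =>
    have hsing := q6_single hc h0 h1 hm hs v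
    have hdel := Van_del hc (f := fun n G => Φ n G - Φ n (del {v} G))
      (fun n G => by
        have := hm n _ _ (del_subset {v} G)
        linarith) hsing A
    unfold Van at ih hdel ⊢
    have h4 := ih.add hdel
    rw [add_zero] at h4
    refine h4.congr (fun n => ?_)
    rw [← Ex_add]
    refine Ex_congr (fun G _ => ?_)
    simp only []
    rw [del_del, Finset.insert_eq]
    ring

end Pool.Agent.Helper55.ML
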