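import Pool.Agent.Helper55.ML.Q3
import Pool.Agent.Helper55.ML.Q6

set_option autoImplicit false
open Finset Filter Topology

namespace Pool.Agent.Helper55.ML

/-- T4: `Van_vertex`, `Van_edge` for `Φ = R.y δ n`. -/
theorem Rig.T4 {d t : ℕ} (R : Rig d t) {c : ℝ} (hc : 0 < c) (δ : ℝ) (A : Finset ℕ) :
    Van c (fun n G => R.y δ n G - R.y δ n (del A G)) :=
  Van_vertex hc (Φ := fun n G => R.y δ n G) (fun _ _ => R.y_nonneg) (fun _ _ => R.y_le_one)
    (fun _ _ _ h => R.y_mono h) (fun n σ hσ G => R.y_perm δ n σ hσ G) A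

theorem Rig.T4e {d t : ℕ} (R : Rig d t) {c : ℝ} (hc : 0 < c) (δ : ℝ) :
    Van c (fun n G => R.y δ n (insert s(0, 1) G) - R.y δ n (G.erase s(0, 1))) :=
  Van_edge hc (Φ := fun n G => R.y δ n G) (fun _ _ => R.y_nonneg) (fun _ _ => R.y_le_one)
    (fun _ _ _ h => R.y_mono h) (fun n σ hσ G => R.y_perm δ n σ hσ G)

end Pool.Agent.Helper55.ML
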