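import Pool.Agent.Helper55.ML.T3
import Pool.Agent.Helper55.ML.T4
import Pool.Agent.Helper55.ML.M3
import Pool.Agent.Helper55.ML.Q8

set_option autoImplicit false
open Finset Filter Topology

namespace Pool.Agent.Helper55.ML

/-! ### Probability that all vertices of `A` have at least `d` neighbours in `Y` -/

theorem f1_one {n d : ℕ} {c δ a : ℝ} (hc : 0 < c) (hδ : 0 < δ) (ha : 0 ≤ a)
    (hp1 : c / (n : ℝ) ≤ 1) (hn : 0 < n) (han : a ≤ (1 - c / (n : ℝ)) ^ (1 * n))
    (hdn : 2 * (d : ℝ) ≤ δ * n) {Y : Finset ℕ} (hY : Y ⊆ range n) (hYδ : δ * n ≤ (Y.card : ℝ)) :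
    (δ * c / 2) ^ d / (d.factorial : ℝ) * a ≤
      BE Y (c / n) (fun N => ind (d ≤ N.card)) := by
  have hn0 : (0 : ℝ) < n := by exact_mod_cast hn
  have hp0 : 0 ≤ c / (n : ℝ) := (div_pos hc hn0).le
  set p := c / (n : ℝ) with hp
  have h1 : BE Y p (fun N => ∑ J ∈ Y.powersetCard d, ind (J ⊆ N ∧ Disjoint N (Y \ J))) ≤
      BE Y p (fun N => ind (d ≤ N.card)) := by
    refine BE_mono hp0 hp1 fun N hN => ?_
    have key : ∀ J ∈ Y.powersetCard d, (J ⊆ N ∧ Disjoint N (Y \ J)) → J = N := by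
      intro J hJ h
      refine Finset.Subset.antisymm h.1 ?_
      intro x hx
      by_contra hxJ
      exact Finset.disjoint_left.1 h.2 hx (Finset.mem_sdiff.2 ⟨hN hx, hxJ⟩)
    by_cases hNd : N ∈ Y.powersetCard d
    · rw [Finset.sum_eq_single N]
      · have hcard := (Finset.mem_powersetCard.1 hNd).2
        rw [ind_true (P := d ≤ N.card) hcard.ge]
        exact ind_le_one _
      · intro J hJ hJN
        exact ind_false fun h => hJN (key J hJ h)
      · intro h
        exact absurd hNd h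
    · rw [Finset.sum_eq_zero]
      · exact ind_nonneg _
      · intro J hJ
        refine ind_false fun h => ?_
        rw [key J hJ h] at hJ
        exact hNd hJ
  refine le_trans ?_ h1
  rw [BE_sum]
  have h2 : ∀ J ∈ Y.powersetCard d, BE Y p (fun N => ind (J ⊆ N ∧ Disjoint N (Y \ J))) =
      p ^ d * (1 - p) ^ (Y.card - d) := by
    intro J hJ
    obtain ⟨hJ1, hJ2⟩ := Finset.mem_powersetCard.1 hJ
    rw [BE_subset_disj hJ1 Finset.sdiff_subset Finset.disjoint_sdiff, hJ2,
      Finset.card_sdiff_of_subset hJ1, hJ2]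
  rw [Finset.sum_congr rfl h2, Finset.sum_const, Finset.card_powersetCard, nsmul_eq_mul]
  have hm : (d : ℝ) ≤ (Y.card : ℝ) := by
    have : (0 : ℝ) ≤ d := Nat.cast_nonneg d
    linarith
  have hm' : d ≤ Y.card := by exact_mod_cast hm
  have h3 : (δ * n / 2) ^ d / (d.factorial : ℝ) ≤ (Y.card.choose d : ℝ) := by
    refine le_trans ?_ (Nat.pow_le_choose d Y.card)
    have h4 : δ * n / 2 ≤ ((Y.card + 1 - d : ℕ) : ℝ) := by
      rw [Nat.cast_sub (by omega)]
      push_cast
      linarith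
    gcongr
  have h5 : a ≤ (1 - p) ^ (Y.card - d) := by
    refine han.trans ?_
    refine pow_le_pow_of_le_one (by linarith) (by linarith) ?_
    have := Finset.card_le_card hY
    rw [Finset.card_range] at this
    omega
  calc (δ * c / 2) ^ d / (d.factorial : ℝ) * a
      = (δ * n / 2) ^ d / (d.factorial : ℝ) * (p ^ d * a) := by
        have : δ * c / 2 = δ * n / 2 * p := by
          rw [hp]; field_simp
        rw [this, mul_pow]
        ring
    _ ≤ (Y.card.choose d : ℝ) * (p ^ d * (1 - p) ^ (Y.card - d)) := by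
        gcongr

theorem f1_star_inj (v : ℕ) : Function.Injective (fun u : ℕ => s(v, u)) := by
  intro a b hab
  exact Sym2.congr_right.1 hab

theorem f1_Kb_insert (a : ℕ) (A Y : Finset ℕ) : Kb (insert a A) Y = star a Y ∪ Kb A Y := by
  ext e
  rw [Finset.mem_union, mem_Kb, mem_Kb, mem_star]
  constructor
  · rintro ⟨x, hx, y, hy, rfl⟩
    rcases Finset.mem_insert.1 hx with rfl | hx
    · exact Or.inl ⟨y, hy, rfl⟩
    · exact Or.inr ⟨x, hx, y, hy, rfl⟩
  · rintro (⟨y, hy, rfl⟩ | ⟨x, hx, y, hy, rfl⟩)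
    · exact ⟨a, Finset.mem_insert_self a A, y, hy, rfl⟩
    · exact ⟨x, Finset.mem_insert_of_mem hx, y, hy, rfl⟩

/-- Every vertex of `A` has at least `d` neighbours in `Y`. -/
def F1W (d : ℕ) (A Y : Finset ℕ) (S : Finset (Sym2 ℕ)) : Prop :=
  ∀ a ∈ A, d ≤ (Y.filter (fun u => s(a, u) ∈ S)).card

theorem F1W_mono {d : ℕ} {A Y : Finset ℕ} {S T : Finset (Sym2 ℕ)} (h : S ⊆ T)
    (hS : F1W d A Y S) : F1W d A Y T := by
  intro a ha
  refine (hS a ha).trans (Finset.card_le_card ?_)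
  intro u hu
  rw [Finset.mem_filter] at hu ⊢
  exact ⟨hu.1, h hu.2⟩

theorem f1_prod {d : ℕ} {p q : ℝ} (h0 : 0 ≤ p) (h1 : p ≤ 1) (hq : 0 ≤ q) {Y : Finset ℕ}
    (hqY : q ≤ BE Y p (fun N => ind (d ≤ N.card))) (A : Finset ℕ) : Disjoint A Y →
    q ^ A.card ≤ BE (Kb A Y) p (fun S => ind (F1W d A Y S)) := by
  classical
  induction A using Finset.induction_on with
  | empty =>
    intro _
    rw [Finset.card_empty, pow_zero]
    have : ∀ S : Finset (Sym2 ℕ), ind (F1W d ∅ Y S) = 1 := fun S =>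
      ind_true (fun a ha => absurd ha (Finset.notMem_empty a))
    simp only [this]
    rw [BE_const]
  | insert a A ha ih =>
    intro hAY
    have haY : a ∉ Y := Finset.disjoint_left.1 hAY (Finset.mem_insert_self a A)
    have hAY' : Disjoint A Y := Finset.disjoint_of_subset_left (Finset.subset_insert a A) hAY
    have ih' := ih hAY'
    have hd : Disjoint (star a Y) (Kb A Y) := by
      rw [Finset.disjoint_left]
      intro e he he'
      obtain ⟨u, hu, rfl⟩ := mem_star.1 he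
      obtain ⟨x, hx, y, hy, hxy⟩ := mem_Kb.1 he'
      rcases Sym2.eq_iff.1 hxy with ⟨h3, _⟩ | ⟨_, h4⟩
      · exact ha (h3 ▸ hx)
      · exact haY (h4 ▸ hy)
    rw [f1_Kb_insert, BE_union hd, Finset.card_insert_of_notMem ha, pow_succ, mul_comm]
    have h2 : BE (star a Y) p (fun S => ind (d ≤ (Y.filter (fun u => s(a, u) ∈ S)).card) *
        BE (Kb A Y) p (fun S => ind (F1W d A Y S))) ≤
        BE (star a Y) p (fun S => BE (Kb A Y) p (fun T => ind (F1W d (insert a A) Y (S ∪ T)))) := by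
      refine BE_mono h0 h1 fun S _ => ?_
      rw [← BE_mul_left]
      refine BE_mono h0 h1 fun T _ => ?_
      rw [← ind_and]
      refine ind_mono ?_
      rintro ⟨h3, h4⟩ b hb
      rcases Finset.mem_insert.1 hb with rfl | hb
      · refine h3.trans (Finset.card_le_card ?_)
        intro u hu
        rw [Finset.mem_filter] at hu ⊢
        exact ⟨hu.1, Finset.mem_union_left _ hu.2⟩
      · exact F1W_mono Finset.subset_union_right h4 b hb
    refine le_trans ?_ h2
    rw [BE_mul_right]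
    have h3 : BE (star a Y) p (fun S => ind (d ≤ (Y.filter (fun u => s(a, u) ∈ S)).card)) =
        BE Y p (fun N => ind (d ≤ N.card)) := by
      unfold star
      rw [BE_image (f1_star_inj a)]
      refine BE_congr fun N hN => ?_
      congr 3
      ext u
      rw [Finset.mem_filter, Finset.mem_image]
      constructor
      · rintro ⟨_, w, hw, hwu⟩
        rwa [← f1_star_inj a hwu]
      · intro hu
        exact ⟨hN hu, u, hu, rfl⟩
    rw [h3]
    have h4 : 0 ≤ q ^ A.card := pow_nonneg hq _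
    exact mul_le_mul hqY ih' h4 (le_trans hq hqY)

/-! ### Dependency gives a redundant edge -/

theorem Rig.f1_dep {d t : ℕ} (R : Rig d t) {S E : Finset (Sym2 ℕ)}
    (h : R.r (S ∪ E) < R.r S + E.card) : ∃ e ∈ E, R.Cl (S ∪ E.erase e) e := by
  classical
  by_contra hcon
  push Not at hcon
  have key : ∀ F : Finset (Sym2 ℕ), F ⊆ E → R.r (S ∪ F) = R.r S + F.card := by
    intro F
    induction F using Finset.induction_on with
    | empty => intro _; simp
    | insert e F he ih =>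
      intro hF
      have heE : e ∈ E := hF (Finset.mem_insert_self e F)
      have h1 := ih ((Finset.subset_insert e F).trans hF)
      have h2 : ¬ R.Cl (S ∪ F) e := by
        intro h3
        refine hcon e heE (R.Cl_mono (Finset.union_subset_union_right ?_) h3)
        intro f hf
        exact Finset.mem_erase.2 ⟨fun h4 => he (h4 ▸ hf), hF (Finset.mem_insert_of_mem hf)⟩
      rw [Rig.not_Cl_iff] at h2
      rw [Finset.union_insert, h2, h1, Finset.card_insert_of_notMem he]
      omega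
  have := key E (Finset.Subset.refl E)
  omega

theorem Rig.f1_det {d t : ℕ} (R : Rig d t) {A Y : Finset ℕ} {G : Finset (Sym2 ℕ)}
    (hAY : Disjoint A Y) (hclq : R.Clq (del A G) Y) (hW : F1W d A Y G)
    (hbad : R.r (del A G ∪ Kb A Y ∪ outE A Y G) < R.r (del A G ∪ Kb A Y) + (outE A Y G).card) :
    ∃ e ∈ outE A Y G, R.Cl (G.erase e) e := by
  classical
  obtain ⟨e, he, hcl⟩ := R.f1_dep hbad
  refine ⟨e, he, ?_⟩
  obtain ⟨heG, ⟨a0, ha0, ha0e⟩, x0, hx0, hx0A, hx0Y⟩ := mem_outE.1 he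
  refine R.Cl_trans' (T := del A G ∪ Kb A Y ∪ (outE A Y G).erase e) ?_ hcl
  have hdel : del A G ⊆ G.erase e := by
    intro f hf
    obtain ⟨hf1, hf2⟩ := mem_del.1 hf
    refine Finset.mem_erase.2 ⟨?_, hf1⟩
    rintro rfl
    exact hf2 a0 ha0e ha0
  intro f hf
  rw [Finset.mem_union, Finset.mem_union] at hf
  rcases hf with (hf | hf) | hf
  · exact R.Cl_of_mem (hdel hf)
  · obtain ⟨a, ha, y, hy, rfl⟩ := mem_Kb.1 hf
    have haY : a ∉ Y := Finset.disjoint_left.1 hAY ha
    have h1 := R.Cl_star (v := a) hclq (Finset.filter_subset (fun u => s(a, u) ∈ G) Y) (hW a ha)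
      haY hy
    refine R.Cl_mono ?_ h1
    refine Finset.union_subset hdel ?_
    intro g hg
    obtain ⟨u, hu, rfl⟩ := mem_star.1 hg
    obtain ⟨hu1, hu2⟩ := Finset.mem_filter.1 hu
    refine Finset.mem_erase.2 ⟨?_, hu2⟩
    rintro rfl
    rcases Sym2.mem_iff.1 hx0 with h2 | h2
    · exact hx0A (h2 ▸ ha)
    · exact hx0Y (h2 ▸ hu1)
  · refine R.Cl_of_mem ?_
    obtain ⟨hf1, hf2⟩ := Finset.mem_erase.1 hf
    exact Finset.mem_erase.2 ⟨hf1, (mem_outE.1 hf2).1⟩

/-! ### Conditioning -/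

theorem f1_outE_sdiff (A Y : Finset ℕ) (G : Finset (Sym2 ℕ)) :
    outE A Y (G \ del A G) = outE A Y G := by
  ext e
  rw [mem_outE, mem_outE, Finset.mem_sdiff, mem_del]
  constructor
  · rintro ⟨⟨h1, _⟩, h2, h3⟩
    exact ⟨h1, h2, h3⟩
  · rintro ⟨h1, ⟨a, ha, hae⟩, h3⟩
    exact ⟨⟨h1, fun h => h.2 a hae ha⟩, ⟨a, ha, hae⟩, h3⟩

theorem f1_outE_union {A Y : Finset ℕ} {S T : Finset (Sym2 ℕ)} (hT : T ⊆ Kb A Y) :
    outE A Y (S ∪ T) = outE A Y S := by
  ext e
  rw [mem_outE, mem_outE, Finset.mem_union]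
  constructor
  · rintro ⟨h1 | h1, h2, h3⟩
    · exact ⟨h1, h2, h3⟩
    · exfalso
      obtain ⟨x, hx, y, hy, rfl⟩ := mem_Kb.1 (hT h1)
      obtain ⟨z, hz, hzA, hzY⟩ := h3
      rcases Sym2.mem_iff.1 hz with h4 | h4
      · exact hzA (h4 ▸ hx)
      · exact hzY (h4 ▸ hy)
  · rintro ⟨h1, h2, h3⟩
    exact ⟨Or.inl h1, h2, h3⟩

theorem f1_cond {n d : ℕ} {p q : ℝ} (h0 : 0 ≤ p) (h1 : p ≤ 1) (hq : 0 ≤ q) {A Y : Finset ℕ}
    (hA : A ⊆ range n) (hY : Y ⊆ range n) (hAY : Disjoint A Y)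
    (hqY : q ≤ BE Y p (fun N => ind (d ≤ N.card))) (B : Finset (Sym2 ℕ) → Prop)
    (hB : ∀ S T : Finset (Sym2 ℕ), T ⊆ Kb A Y → (B (S ∪ T) ↔ B S)) :
    q ^ A.card * BE (En n \ del A (En n)) p (fun T => ind (B T)) ≤
      BE (En n \ del A (En n)) p (fun T => ind (B T ∧ F1W d A Y T)) := by
  classical
  have hK : Kb A Y ⊆ En n \ del A (En n) := by
    intro e he
    obtain ⟨x, hx, y, hy, rfl⟩ := mem_Kb.1 he
    rw [Finset.mem_sdiff, mk_mem_En, mem_del]
    refine ⟨⟨Finset.mem_range.1 (hA hx), Finset.mem_range.1 (hY hy), ?_⟩, ?_⟩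
    · rintro rfl
      exact Finset.disjoint_left.1 hAY hx hy
    · intro h
      exact h.2 x (Sym2.mem_mk_left x y) hx
  have hd : Disjoint ((En n \ del A (En n)) \ Kb A Y) (Kb A Y) := Finset.sdiff_disjoint
  rw [← Finset.sdiff_union_of_subset hK, BE_union hd, BE_union hd, ← BE_mul_left]
  refine BE_mono h0 h1 fun S _ => ?_
  have h2 : BE (Kb A Y) p (fun T => ind (B (S ∪ T))) = ind (B S) := by
    rw [← BE_const (E := Kb A Y) (p := p) (ind (B S))]
    exact BE_congr fun T hT => ind_congr (hB S T hT)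
  rw [h2]
  have h3 : BE (Kb A Y) p (fun T => ind (B S) * ind (F1W d A Y T)) ≤
      BE (Kb A Y) p (fun T => ind (B (S ∪ T) ∧ F1W d A Y (S ∪ T))) := by
    refine BE_mono h0 h1 fun T hT => ?_
    rw [← ind_and]
    refine ind_mono ?_
    rintro ⟨h4, h5⟩
    exact ⟨(hB S T hT).2 h4, F1W_mono Finset.subset_union_right h5⟩
  refine le_trans ?_ h3
  rw [BE_mul_left, mul_comm]
  exact mul_le_mul_of_nonneg_left (f1_prod h0 h1 hq hqY A hAY) (ind_nonneg _)

/-- The probability of `FIbad` is at most a constant times the probability of `FIbad` together with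
many neighbours in `Y(G - A)`. -/
theorem Rig.f1_exposure {d t : ℕ} (R : Rig d t) {n : ℕ} {p q δ : ℝ} (h0 : 0 ≤ p) (h1 : p ≤ 1)
    (hq : 0 ≤ q) {A : Finset ℕ} (hA : A ⊆ range n)
    (hAY : ∀ G, Disjoint A (R.Y δ n (del A G)))
    (hqY : ∀ Y : Finset ℕ, Y ⊆ range n → δ * n ≤ (Y.card : ℝ) →
      q ≤ BE Y p (fun N => ind (d ≤ N.card))) :
    q ^ A.card * Pr n p (fun G => R.FIbad δ n A G) ≤
      Pr n p (fun G => R.FIbad δ n A G ∧ F1W d A (R.Y δ n (del A G)) G) := by
  classical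
  -- the bad event as a function of the two parts
  set Bd : Finset (Sym2 ℕ) → Finset (Sym2 ℕ) → Prop := fun H T =>
    (R.Y δ n H).Nonempty ∧ R.r (H ∪ Kb A (R.Y δ n H) ∪ outE A (R.Y δ n H) T) <
      R.r (H ∪ Kb A (R.Y δ n H)) + (outE A (R.Y δ n H) T).card with hBd
  have e1 : ∀ G, R.FIbad δ n A G ↔ Bd (del A G) (G \ del A G) := by
    intro G
    rw [hBd]
    unfold Rig.FIbad
    simp only [f1_outE_sdiff]
  have e2 : ∀ G, F1W d A (R.Y δ n (del A G)) G ↔
      F1W d A (R.Y δ n (del A G)) (G \ del A G) := by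
    intro G
    unfold F1W
    refine forall₂_congr fun a ha => ?_
    have : (R.Y δ n (del A G)).filter (fun u => s(a, u) ∈ G) =
        (R.Y δ n (del A G)).filter (fun u => s(a, u) ∈ G \ del A G) := by
      refine Finset.filter_congr fun u _ => ?_
      rw [Finset.mem_sdiff, mem_del]
      constructor
      · intro h
        exact ⟨h, fun h' => h'.2 a (Sym2.mem_mk_left a u) ha⟩
      · exact fun h => h.1
    rw [this]
  have e3 : Pr n p (fun G => R.FIbad δ n A G) =
      Ex n p (fun G => BE (En n \ del A (En n)) p (fun T => ind (Bd (del A G) T))) := by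
    unfold Pr
    rw [← Ex_del_split n A p (fun H T => ind (Bd H T))]
    exact Ex_congr fun G _ => ind_congr (e1 G)
  have e4 : Pr n p (fun G => R.FIbad δ n A G ∧ F1W d A (R.Y δ n (del A G)) G) =
      Ex n p (fun G => BE (En n \ del A (En n)) p
        (fun T => ind (Bd (del A G) T ∧ F1W d A (R.Y δ n (del A G)) T))) := by
    unfold Pr
    rw [← Ex_del_split n A p (fun H T => ind (Bd H T ∧ F1W d A (R.Y δ n H) T))]
    refine Ex_congr fun G _ => ind_congr ?_
    exact and_congr (e1 G) (e2 G)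
  rw [e3, e4, ← Ex_mul_left]
  refine Ex_mono h0 h1 fun G _ => ?_
  by_cases hne : (R.Y δ n (del A G)).Nonempty
  · refine f1_cond h0 h1 hq hA (R.Y_subset) (hAY G) (hqY _ R.Y_subset (R.Y_card hne)) _ ?_
    intro S T hT
    rw [hBd]
    simp only [f1_outE_union hT]
  · have h3 : ∀ T, ind (Bd (del A G) T) = 0 := fun T => ind_false fun h => hne h.1
    simp only [h3]
    rw [BE_const, mul_zero]
    exact BE_nonneg h0 h1 fun S _ => ind_nonneg _

/-! ### The redundant edges are few -/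

/-- First kind of edges. -/
noncomputable def Rig.f1N {d t : ℕ} (R : Rig d t) (δ : ℝ) (n : ℕ) (v : ℕ)
    (G : Finset (Sym2 ℕ)) : ℝ :=
  ∑ e ∈ G, ind (v ∈ e ∧ R.Cl (G.erase e) e ∧ ¬ e.toFinset ⊆ R.Y δ n (G.erase e))

theorem Rig.f1N_perm {d t : ℕ} (R : Rig d t) (δ : ℝ) (n : ℕ) (σ : Equiv.Perm ℕ)
    (hσ : ∀ i, σ i < n ↔ i < n) (v : ℕ) (G : Finset (Sym2 ℕ)) :
    R.f1N δ n (σ v) (G.image (Sym2.map σ)) = R.f1N δ n v G := by
  classical
  have hinj : Function.Injective (Sym2.map σ) := Sym2.map.injective σ.injective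
  unfold Rig.f1N
  rw [Finset.sum_image (fun x _ y _ h => hinj h)]
  refine Finset.sum_congr rfl fun e _ => ind_congr ?_
  have h1 : (G.image (Sym2.map σ)).erase (Sym2.map σ e) = (G.erase e).image (Sym2.map σ) := by
    rw [Finset.image_erase hinj]
  rw [h1, R.Cl_perm, R.Y_perm δ n σ hσ]
  refine and_congr ?_ (and_congr Iff.rfl (not_congr ?_))
  · rw [Sym2.mem_map]
    constructor
    · rintro ⟨x, hx, h⟩
      rwa [← σ.injective h]
    · intro h
      exact ⟨v, h, rfl⟩
  · rw [Finset.subset_iff, Finset.subset_iff]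
    simp only [Sym2.mem_toFinset]
    constructor
    · intro h x hx
      have := h (Sym2.mem_map.2 ⟨x, hx, rfl⟩)
      obtain ⟨y, hy, hyx⟩ := Finset.mem_image.1 this
      rwa [← σ.injective hyx]
    · intro h x hx
      obtain ⟨y, hy, rfl⟩ := Sym2.mem_map.1 hx
      exact Finset.mem_image_of_mem _ (h hy)

open Classical in
theorem Rig.f1N_sum {d t : ℕ} (R : Rig d t) (δ : ℝ) (n : ℕ) {G : Finset (Sym2 ℕ)}
    (hG : G ⊆ En n) : ∑ v ∈ range n, R.f1N δ n v G =
      2 * ((G.filter (fun e => R.Cl (G.erase e) e ∧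
        ¬ e.toFinset ⊆ R.Y δ n (G.erase e))).card : ℝ) := by
  unfold Rig.f1N
  rw [Finset.sum_comm, Finset.card_filter, Nat.cast_sum, Finset.mul_sum]
  refine Finset.sum_congr rfl fun e he => ?_
  have he' := hG he
  induction e using Sym2.ind with
  | _ a b =>
    obtain ⟨ha, hb, hab⟩ := mk_mem_En.1 he'
    simp only [ind_and (_ ∈ s(a, b))]
    rw [← Finset.sum_mul]
    have h1 : ∑ v ∈ range n, ind (v ∈ s(a, b)) = 2 := by
      have h2 : ∀ v ∈ range n, ind (v ∈ s(a, b)) = (if v ∈ ({a, b} : Finset ℕ) then 1 else 0) := by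
        intro v _
        by_cases hv : v ∈ s(a, b)
        · rw [ind_true hv, if_pos]
          simpa [Sym2.mem_iff] using hv
        · rw [ind_false hv, if_neg]
          simpa [Sym2.mem_iff] using hv
      rw [Finset.sum_congr rfl h2, Finset.sum_ite_mem, Finset.sum_const, nsmul_eq_mul, mul_one]
      have h3 : range n ∩ {a, b} = {a, b} := by
        rw [Finset.inter_eq_right]
        intro x hx
        rcases Finset.mem_insert.1 hx with rfl | hx
        · exact Finset.mem_range.2 ha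
        · rw [Finset.mem_singleton.1 hx]
          exact Finset.mem_range.2 hb
      rw [h3, Finset.card_pair hab]
      norm_num
    rw [h1]
    congr 1
    by_cases h : R.Cl (G.erase s(a, b)) s(a, b) ∧ ¬ s(a, b).toFinset ⊆ R.Y δ n (G.erase s(a, b))
    · rw [ind_true h, if_pos h]; simp
    · rw [ind_false h, if_neg h]; simp

open Classical in
theorem Rig.f1N_van {d t : ℕ} (R : Rig d t) {c δ : ℝ} (hS : Std R c δ) (v : ℕ) :
    Van c (fun n G => R.f1N δ n v G) := by
  have h0 := R.R0 hS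
  unfold Van at h0 ⊢
  have h1 := h0.const_mul 2
  rw [mul_zero] at h1
  refine h1.congr' ?_
  filter_upwards [eventually_gt_atTop v] with n hn
  have hn0 : (0 : ℝ) < n := by exact_mod_cast (Nat.zero_le v).trans_lt hn
  have hg : ∀ σ : Equiv.Perm ℕ, (∀ i, σ i < n ↔ i < n) →
      ∀ v G, R.f1N δ n (σ v) (G.image (Sym2.map σ)) = R.f1N δ n v G := fun σ hσ v G =>
    R.f1N_perm δ n σ hσ v G
  have h2 := Ex_vertex_sum n (c / n) (R.f1N δ n) hg
  have h3 := Ex_vertex_eq n (c / n) (R.f1N δ n) hg hn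
  change _ = Ex n (c / n) (R.f1N δ n v)
  rw [h3]
  have h4 : Ex n (c / n) (fun G => ∑ v ∈ range n, R.f1N δ n v G) =
      n * (2 * Ex n (c / n) (fun G => ((G.filter (fun e => R.Cl (G.erase e) e ∧
      ¬ e.toFinset ⊆ R.Y δ n (G.erase e))).card : ℝ) / n)) := by
    rw [← Ex_mul_left, ← Ex_mul_left]
    refine Ex_congr fun G hG => ?_
    rw [R.f1N_sum δ n hG]
    field_simp
  rw [h4] at h2
  exact mul_left_cancel₀ hn0.ne' h2

/-- Second kind of edges. -/
noncomputable def Rig.f1g {d t : ℕ} (R : Rig d t) (δ : ℝ) (n : ℕ) (A : Finset ℕ) (e : Sym2 ℕ)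
    (H : Finset (Sym2 ℕ)) : ℝ :=
  ∑ a ∈ A, ind (∃ u, e = s(a, u) ∧ u ∈ R.Y δ n H ∧ u ∉ R.Y δ n (del A H))

theorem Rig.f1g_sum {d t : ℕ} (R : Rig d t) (δ : ℝ) {n : ℕ} (hn : 0 < n) (A : Finset ℕ)
    (G : Finset (Sym2 ℕ)) : ∑ e ∈ En n, R.f1g δ n A e G ≤
      A.card * (n * (R.y δ n G - R.y δ n (del A G))) := by
  classical
  have hn0 : (0 : ℝ) < n := by exact_mod_cast hn
  unfold Rig.f1g
  rw [Finset.sum_comm]
  have h1 : ∀ a ∈ A, ∑ e ∈ En n, ind (∃ u, e = s(a, u) ∧ u ∈ R.Y δ n G ∧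
      u ∉ R.Y δ n (del A G)) ≤ n * (R.y δ n G - R.y δ n (del A G)) := by
    intro a _
    have h2 : ∀ e ∈ En n, ind (∃ u, e = s(a, u) ∧ u ∈ R.Y δ n G ∧ u ∉ R.Y δ n (del A G)) ≤
        (if e ∈ (R.Y δ n G \ R.Y δ n (del A G)).image (fun u => s(a, u)) then 1 else 0) := by
      intro e _
      by_cases h : ∃ u, e = s(a, u) ∧ u ∈ R.Y δ n G ∧ u ∉ R.Y δ n (del A G)
      · rw [if_pos]
        · exact ind_le_one _
        · obtain ⟨u, rfl, h3, h4⟩ := h
          exact Finset.mem_image.2 ⟨u, Finset.mem_sdiff.2 ⟨h3, h4⟩, rfl⟩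
      · rw [ind_false h]
        split_ifs <;> norm_num
    refine (Finset.sum_le_sum h2).trans ?_
    rw [Finset.sum_ite_mem, Finset.sum_const, nsmul_eq_mul, mul_one]
    have h3 : (En n ∩ (R.Y δ n G \ R.Y δ n (del A G)).image (fun u => s(a, u))).card ≤
        (R.Y δ n G \ R.Y δ n (del A G)).card :=
      (Finset.card_le_card Finset.inter_subset_right).trans Finset.card_image_le
    have h4 : R.Y δ n (del A G) ⊆ R.Y δ n G := R.Y_mono (del_subset A G)
    have h5 : ((R.Y δ n G \ R.Y δ n (del A G)).card : ℝ) =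
        n * (R.y δ n G - R.y δ n (del A G)) := by
      rw [Finset.cast_card_sdiff h4]
      unfold Rig.y
      field_simp
    rw [← h5]
    exact_mod_cast h3
  refine (Finset.sum_le_sum h1).trans (le_of_eq ?_)
  rw [Finset.sum_const, nsmul_eq_mul]

theorem Rig.f1g_ex {d t : ℕ} (R : Rig d t) (δ : ℝ) {n : ℕ} (hn : 0 < n) (A : Finset ℕ) {p : ℝ}
    (hp0 : 0 ≤ p) (hp1 : p ≤ 1 / 2) :
    Ex n p (fun G => ∑ e ∈ G, R.f1g δ n A e (G.erase e)) ≤
      2 * (p * n) * A.card * Ex n p (fun G => R.y δ n G - R.y δ n (del A G)) := by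
  have hp1' : p ≤ 1 := by linarith
  have hnn : ∀ e H, 0 ≤ R.f1g δ n A e H := fun e H => Finset.sum_nonneg fun a _ => ind_nonneg _
  rw [Ex_mecke n p (R.f1g δ n A)]
  have hup : ∀ e ∈ En n, Ex n p (fun G => R.f1g δ n A e (G.erase e)) ≤
      2 * Ex n p (fun G => R.f1g δ n A e G) := by
    intro e he
    have h1 := Ex_erase n p he (R.f1g δ n A e)
    have h2 : Ex n p (fun G => ind (e ∉ G) * R.f1g δ n A e G) ≤
        Ex n p (fun G => R.f1g δ n A e G) := by
      refine Ex_mono hp0 hp1' fun G _ => ?_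
      have h3 := ind_le_one (e ∉ G)
      have h4 := hnn e G
      nlinarith
    have h5 : 0 ≤ Ex n p (fun G => R.f1g δ n A e (G.erase e)) :=
      Ex_nonneg hp0 hp1' fun G _ => hnn _ _
    nlinarith
  have h1 : ∑ e ∈ En n, Ex n p (fun G => R.f1g δ n A e (G.erase e)) ≤
      2 * (A.card * (n * Ex n p (fun G => R.y δ n G - R.y δ n (del A G)))) := by
    refine (Finset.sum_le_sum hup).trans ?_
    have h2 : ∑ e ∈ En n, Ex n p (fun G => R.f1g δ n A e G) ≤
        A.card * (n * Ex n p (fun G => R.y δ n G - R.y δ n (del A G))) := by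
      rw [← Ex_sum, ← Ex_mul_left, ← Ex_mul_left]
      exact Ex_mono hp0 hp1' fun G _ => R.f1g_sum δ hn A G
    rw [← Finset.mul_sum]
    linarith
  calc p * ∑ e ∈ En n, Ex n p (fun G => R.f1g δ n A e (G.erase e))
      ≤ p * (2 * (A.card * (n * Ex n p (fun G => R.y δ n G - R.y δ n (del A G))))) :=
        mul_le_mul_of_nonneg_left h1 hp0
    _ = _ := by ring

/-- FI (hint): see C5 of `/team-store/ML_proof.md`. Given `G' = del A G`, `Y' = Y(G')` nonempty and
the edges `outE A Y' G`, the numbers `|nb n G a ∩ Y'|`, `a ∈ A`, are independent of them and all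
at least `d` with probability at least `c₂ > 0` (`|Y'| ≥ δ n`; `Ex_del_split`, then split
`En n \ del A (En n)` into `Kb A Y'` and the rest). On that event and if `Y'` is a clique
(`Y_clq`, `Neg_del`), `FIbad` gives `e ∈ outE A Y' G` with `Cl (G.erase e) e` (`Cl_star`). So
`P(FIbad) ≤ o(1) + c₂⁻¹ E#{e ∈ outE A Y' G : Cl (G.erase e) e}`. Those with
`¬ e.toFinset ⊆ Y(G.erase e)`: R0 and symmetry (the number of such edges at `a` has expectation
`2/n` times R0's, `Ex_vertex_eq`). Those `e = s(a,u)` with `u ∈ Y(G.erase e) \ Y'`: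
`≤ ∑_{a,u} p P(u ∈ Y(G) \ Y(del A G)) = p |A| E|Y(G) \ Y(del A G)|`, T4. The edges of `outE`
have exactly one end in `A` (in fact at least one end outside `A ∪ Y'`). -/
theorem Rig.FI {d t : ℕ} (R : Rig d t) {c δ : ℝ} (hS : Std R c δ) (A : Finset ℕ) :
    Neg c (fun n G => R.FIbad δ n A G) := by
  classical
  have hc := hS.hc
  have hδ := hS.hδ
  obtain ⟨a, ha, han⟩ := one_sub_pow_lower hc 1
  set q : ℝ := (δ * c / 2) ^ d / (d.factorial : ℝ) * a with hq
  have hq0 : 0 < q := by positivity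
  -- limits
  have l1 : Neg c (fun n G => ¬ R.Clq (del A G) (R.Y δ n (del A G))) :=
    Neg_del hc (R.Y_clq hc hδ) A
  have l2 : Tendsto (fun n : ℕ => ∑ v ∈ A, Ex n (c / n) (fun G => R.f1N δ n v G)) atTop (𝓝 0) := by
    have : Tendsto (fun n : ℕ => ∑ v ∈ A, Ex n (c / n) (fun G => R.f1N δ n v G)) atTop
        (𝓝 (∑ v ∈ A, (0 : ℝ))) := tendsto_finsetSum _ fun v _ => R.f1N_van hS v
    simpa using this
  have l3 : Tendsto (fun n : ℕ => 2 * c * A.card * Ex n (c / n)
      (fun G => R.y δ n G - R.y δ n (del A G))) atTop (𝓝 0) := by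
    have := (R.T4 hc δ A).const_mul (2 * c * A.card)
    simpa using this
  have l4 : Tendsto (fun n : ℕ => (q ^ A.card)⁻¹ * (Pr n (c / n)
      (fun G => ¬ R.Clq (del A G) (R.Y δ n (del A G))) +
      (∑ v ∈ A, Ex n (c / n) (fun G => R.f1N δ n v G) + 2 * c * A.card * Ex n (c / n)
      (fun G => R.y δ n G - R.y δ n (del A G))))) atTop (𝓝 0) := by
    have := (l1.add (l2.add l3)).const_mul (q ^ A.card)⁻¹
    simpa using this
  refine Neg_of_le hc l4 ?_
  obtain ⟨K, hK⟩ := exists_nat_ge ((2 * (d : ℝ) + 2) / δ)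
  filter_upwards [han, cn_eventually hc, eventually_ge_atTop K, eventually_gt_atTop 0,
    eventually_gt_atTop (A.sup id)] with n h1 h2 h3 h4 h5
  have hp1 : c / (n : ℝ) ≤ 1 := by linarith [h2.2]
  have hn0 : (0 : ℝ) < n := by exact_mod_cast h4
  have hA : A ⊆ range n := by
    intro x hx
    have := Finset.le_sup (f := id) hx
    exact Finset.mem_range.2 (lt_of_le_of_lt this h5)
  have hδn : 2 * (d : ℝ) + 2 ≤ δ * n := by
    have h6 : (2 * (d : ℝ) + 2) / δ ≤ n := hK.trans (by exact_mod_cast h3)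
    rw [div_le_iff₀ hδ] at h6
    linarith
  have hd0 : (0 : ℝ) ≤ d := Nat.cast_nonneg d
  have hAY : ∀ G, Disjoint A (R.Y δ n (del A G)) := by
    intro G
    rw [Finset.disjoint_left]
    intro v hv hvY
    refine R.not_mem_Y_isolated (by have := hS.hd; omega) (by linarith) ?_ hvY
    intro e he hve
    exact (mem_del.1 he).2 v hve hv
  have hexp := R.f1_exposure (n := n) (p := c / n) (q := q) (δ := δ) h2.1.le hp1 hq0.le hA hAY
    (fun Y hY hYδ => f1_one hc hδ ha.le hp1 h4 h1 (by linarith) hY hYδ)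
  have hqA : 0 < q ^ A.card := by positivity
  rw [inv_mul_eq_div, le_div_iff₀ hqA, mul_comm]
  refine hexp.trans ?_
  -- the bad event is dominated
  have h6 : Pr n (c / n) (fun G => R.FIbad δ n A G ∧ F1W d A (R.Y δ n (del A G)) G) ≤
      Ex n (c / n) (fun G => ind (¬ R.Clq (del A G) (R.Y δ n (del A G))) +
        (∑ v ∈ A, R.f1N δ n v G + ∑ e ∈ G, R.f1g δ n A e (G.erase e))) := by
    refine Ex_mono h2.1.le hp1 fun G hG => ?_
    have i1 : 0 ≤ ∑ v ∈ A, R.f1N δ n v G :=
      Finset.sum_nonneg fun v _ => Finset.sum_nonneg fun e _ => ind_nonneg _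
    have i2 : 0 ≤ ∑ e ∈ G, R.f1g δ n A e (G.erase e) :=
      Finset.sum_nonneg fun e _ => Finset.sum_nonneg fun v _ => ind_nonneg _
    by_cases hev : R.FIbad δ n A G ∧ F1W d A (R.Y δ n (del A G)) G
    · rw [ind_true hev]
      by_cases hclq : R.Clq (del A G) (R.Y δ n (del A G))
      · rw [ind_false (not_not.2 hclq)]
        obtain ⟨e, he, hcl⟩ := R.f1_det (hAY G) hclq hev.2 hev.1.2
        obtain ⟨heG, ⟨b, hb, hbe⟩, x, hx, hxA, hxY⟩ := mem_outE.1 he
        by_cases hsub : e.toFinset ⊆ R.Y δ n (G.erase e)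
        · -- second kind
          have hex : e = s(b, x) := by
            have hbx : b ≠ x := fun h => hxA (h ▸ hb)
            exact ((Sym2.mem_and_mem_iff hbx).1 ⟨hbe, hx⟩)
          have hdel : del A (G.erase e) = del A G := by
            ext f
            rw [mem_del, mem_del, Finset.mem_erase]
            constructor
            · rintro ⟨⟨_, h⟩, h'⟩
              exact ⟨h, h'⟩
            · rintro ⟨h, h'⟩
              refine ⟨⟨?_, h⟩, h'⟩
              rintro rfl
              exact h' b hbe hb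
          have h7 : 1 ≤ R.f1g δ n A e (G.erase e) := by
            unfold Rig.f1g
            have h8 := Finset.single_le_sum (f := fun a => ind (∃ u, e = s(a, u) ∧
              u ∈ R.Y δ n (G.erase e) ∧ u ∉ R.Y δ n (del A (G.erase e))))
              (fun a _ => ind_nonneg _) hb
            rw [ind_true ⟨x, hex, hsub (Sym2.mem_toFinset.2 hx), by rw [hdel]; exact hxY⟩] at h8
            exact h8
          have h9 : R.f1g δ n A e (G.erase e) ≤ ∑ e ∈ G, R.f1g δ n A e (G.erase e) :=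
            Finset.single_le_sum (f := fun e => R.f1g δ n A e (G.erase e))
              (fun e _ => Finset.sum_nonneg fun v _ => ind_nonneg _) heG
          linarith
        · have h7 : 1 ≤ R.f1N δ n b G := by
            unfold Rig.f1N
            have h8 := Finset.single_le_sum (f := fun e => ind (b ∈ e ∧ R.Cl (G.erase e) e ∧
              ¬ e.toFinset ⊆ R.Y δ n (G.erase e))) (fun a _ => ind_nonneg _) heG
            rw [ind_true ⟨hbe, hcl, hsub⟩] at h8
            exact h8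
          have h9 : R.f1N δ n b G ≤ ∑ v ∈ A, R.f1N δ n v G :=
            Finset.single_le_sum (f := fun v => R.f1N δ n v G)
              (fun v _ => Finset.sum_nonneg fun e _ => ind_nonneg _) hb
          linarith
      · rw [ind_true hclq]
        linarith
    · rw [ind_false hev]
      have := ind_nonneg (¬ R.Clq (del A G) (R.Y δ n (del A G)))
      linarith
  refine h6.trans ?_
  rw [Ex_add, Ex_add, Ex_sum]
  have h7 := R.f1g_ex δ h4 A h2.1.le h2.2
  have h8 : c / (n : ℝ) * n = c := by field_simp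
  rw [h8] at h7
  unfold Pr
  linarith

end Pool.Agent.Helper55.ML
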