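import Pool.Agent.Helper55.ML.M3

set_option autoImplicit false
open Finset Filter Topology

namespace Pool.Agent.Helper55.ML

/-- M15 (hint): if all big cliques of `G` lie in one clique that is not too big, then for every
`H ⊆ G` any two big cliques of `H` share `d` vertices, so `Y` of `H` is a clique, and it is
maximal. -/
theorem Rig.Y_clique {d t : ℕ} (R : Rig d t) {a : ℝ} {n : ℕ} {G H : Finset (Sym2 ℕ)} (hHG : H ⊆ G)
    (h1 : ((R.Y a n G).card : ℝ) + d ≤ 2 * (a * n)) : R.Clq H (R.Y a n H) := by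
  intro x hx y hy hxy
  obtain ⟨_, C₁, hC₁n, hxC, hC₁, hc₁⟩ := R.mem_Y.1 hx
  obtain ⟨_, C₂, hC₂n, hyC, hC₂, hc₂⟩ := R.mem_Y.1 hy
  have hs : C₁ ∪ C₂ ⊆ R.Y a n G :=
    Finset.union_subset ((R.subset_Y hC₁n hC₁ hc₁).trans (R.Y_mono hHG))
      ((R.subset_Y hC₂n hC₂ hc₂).trans (R.Y_mono hHG))
  have h2 : (((C₁ ∪ C₂).card : ℕ) : ℝ) ≤ ((R.Y a n G).card : ℝ) := by
    exact_mod_cast Finset.card_le_card hs
  have h3 : (((C₁ ∪ C₂).card : ℕ) : ℝ) + ((C₁ ∩ C₂).card : ℝ) = (C₁.card : ℝ) + (C₂.card : ℝ) := by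
    exact_mod_cast Finset.card_union_add_card_inter C₁ C₂
  have h4 : (d : ℝ) ≤ ((C₁ ∩ C₂).card : ℝ) := by linarith
  have h5 : d ≤ (C₁ ∩ C₂).card := by exact_mod_cast h4
  exact R.Clq_union hC₁ hC₂ h5 x (Finset.mem_union_left _ hxC) y (Finset.mem_union_right _ hyC) hxy

/-- A vertex joined to `d` vertices of the clique `Y` is in `Y`. -/
theorem Rig.mem_Y_of_join {d t : ℕ} (R : Rig d t) {a : ℝ} {n : ℕ} {H : Finset (Sym2 ℕ)}
    (hY : R.Clq H (R.Y a n H)) (hne : (R.Y a n H).Nonempty) {v : ℕ} (hv : v < n) {N : Finset ℕ}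
    (hN : N ⊆ R.Y a n H) (hd : d ≤ N.card) (h : ∀ u ∈ N, u ≠ v → R.Cl H s(v, u)) :
    v ∈ R.Y a n H := by
  have h1 : R.Clq H (insert v (R.Y a n H)) := R.Clq_insert hY hN hd h
  have h2 := R.Y_card hne
  have h3 : ((R.Y a n H).card : ℝ) ≤ ((insert v (R.Y a n H)).card : ℝ) := by
    exact_mod_cast Finset.card_le_card (Finset.subset_insert v _)
  have h4 : insert v (R.Y a n H) ⊆ range n :=
    Finset.insert_subset (Finset.mem_range.2 hv) R.Y_subset
  exact R.subset_Y h4 h1 (h2.trans h3) (Finset.mem_insert_self v _)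

/-- The clique `Y` is maximal. -/
theorem Rig.Y_max {d t : ℕ} (R : Rig d t) {a : ℝ} {n : ℕ} {H : Finset (Sym2 ℕ)}
    (hne : (R.Y a n H).Nonempty) {x : ℕ} (hx : x < n)
    (hxY : x ∉ R.Y a n H) : ¬ R.Clq H (insert x (R.Y a n H)) := by
  intro h1
  have h2 := R.Y_card hne
  have h3 : ((R.Y a n H).card : ℝ) ≤ ((insert x (R.Y a n H)).card : ℝ) := by
    exact_mod_cast Finset.card_le_card (Finset.subset_insert x _)
  have h4 : insert x (R.Y a n H) ⊆ range n :=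
    Finset.insert_subset (Finset.mem_range.2 hx) R.Y_subset
  exact hxY (R.subset_Y h4 h1 (h2.trans h3) (Finset.mem_insert_self x _))

end Pool.Agent.Helper55.ML
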