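import Pool.Agent.Helper55.ML.M3

set_option autoImplicit false
open Finset Filter Topology

namespace Pool.Agent.Helper55.ML

private theorem m9_star_card (v : ℕ) (N : Finset ℕ) : (star v N).card ≤ N.card :=
  Finset.card_image_le

private theorem m9_add_star {d t : ℕ} (R : Rig d t) (S : Finset (Sym2 ℕ)) (v : ℕ)
    (N : Finset ℕ) : R.r (S ∪ star v N) ≤ R.r S + N.card := by
  have h1 := R.r_union_le S (star v N)
  have h2 := m9_star_card v N
  omega

private theorem m9_le {d t : ℕ} (R : Rig d t) {X T K : Finset (Sym2 ℕ)}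
    (hK : ∀ f ∈ K, R.Cl T f) (hX : X ⊆ T ∪ K) : R.r X ≤ R.r T := by
  rw [← R.r_union_of_Cl hK]
  exact R.r_mono hX

/-- M9 (alpha lemma; hint). Ranks: `r(H ∪ vJ ∪ vQ) ≤ r(H) + |J| + |Q|` and, as `vC` is in the
closure, `r(H ∪ vJ ∪ vQ) ≥ r(H ∪ vC ∪ vQ) = r(H) + d + |Q|`. -/
theorem Rig.alpha {d t : ℕ} (R : Rig d t) {H : Finset (Sym2 ℕ)} {C J Q : Finset ℕ} {v : ℕ}
    (hv : ∀ e ∈ H, v ∉ e) (hvC : v ∉ C) (hC : R.Clq H C) (hdC : d ≤ C.card)
    (hind : R.r (H ∪ star v C ∪ star v Q) = R.r (H ∪ star v C) + Q.card)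
    (hcl : ∀ y ∈ C, R.Cl (H ∪ star v J ∪ star v Q) s(v, y)) : d ≤ J.card := by
  have h1 : R.r (H ∪ star v C ∪ star v Q) ≤ R.r (H ∪ star v J ∪ star v Q) := by
    refine m9_le R (K := star v C) ?_ ?_
    · intro f hf
      obtain ⟨y, hy, rfl⟩ := mem_star.1 hf
      exact hcl y hy
    · intro f hf
      simp only [Finset.mem_union] at hf ⊢
      tauto
  have h2 := m9_add_star R (H ∪ star v J) v Q
  have h3 := m9_add_star R H v J
  have h4 := R.r_star hv hvC hC hdC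
  omega

private theorem m9_one {d t : ℕ} (R : Rig d t) {H : Finset (Sym2 ℕ)}
    {C Ju Qu Qv : Finset ℕ} {u v : ℕ} (hv : ∀ e ∈ H, v ∉ e) (hvC : v ∉ C)
    (hC : R.Clq H C) (hdC : d ≤ C.card) {X T : Finset (Sym2 ℕ)}
    (hX : R.r X = R.r H + d * 2 + Qu.card + Qv.card)
    (hXT : R.r X ≤ R.r (H ∪ star v C ∪ star v Qv ∪ star u Ju ∪ star u Qu ∪ T))
    (hT : T.card ≤ 1) : d ≤ Ju.card + 1 := by
  have h1 := R.r_union_le (H ∪ star v C ∪ star v Qv ∪ star u Ju ∪ star u Qu) T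
  have h2 := m9_add_star R (H ∪ star v C ∪ star v Qv ∪ star u Ju) u Qu
  have h3 := m9_add_star R (H ∪ star v C ∪ star v Qv) u Ju
  have h4 := m9_add_star R (H ∪ star v C) v Qv
  have h5 := R.r_star hv hvC hC hdC
  omega

/-- (hint) the same with two new adjacent vertices `u`, `v`: total rank gives the first bound;
for the other two use only one of the vertices (the outer edges of `v` are independent over
everything in the closure of `H ∪ Kb {u,v} C ∪ uQ_u`). -/
theorem Rig.alpha_two {d t : ℕ} (R : Rig d t) {H : Finset (Sym2 ℕ)} {C Ju Jv Qu Qv : Finset ℕ}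
    {u v : ℕ} (huv : u ≠ v) (hu : ∀ e ∈ H, u ∉ e) (hv : ∀ e ∈ H, v ∉ e) (huC : u ∉ C) (hvC : v ∉ C)
    (hQu : v ∉ Qu) (hQv : u ∉ Qv) (hJu : Ju ⊆ C) (hJv : Jv ⊆ C)
    (hC : R.Clq H C) (hdC : d ≤ C.card)
    (hind : R.r (H ∪ Kb {u, v} C ∪ star u Qu ∪ star v Qv) =
      R.r (H ∪ Kb {u, v} C) + Qu.card + Qv.card)
    (hcl : ∀ y ∈ C,
      R.Cl (H ∪ star u Ju ∪ star v Jv ∪ star u Qu ∪ star v Qv ∪ {s(u, v)}) s(u, y) ∧
      R.Cl (H ∪ star u Ju ∪ star v Jv ∪ star u Qu ∪ star v Qv ∪ {s(u, v)}) s(v, y)) :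
    2 * d ≤ Ju.card + Jv.card + 1 ∧ d ≤ Ju.card + 1 ∧ d ≤ Jv.card + 1 := by
  set S0 := H ∪ star u Ju ∪ star v Jv ∪ star u Qu ∪ star v Qv ∪ {s(u, v)} with hS0
  set X := H ∪ Kb {u, v} C ∪ star u Qu ∪ star v Qv with hX
  have hKcl : ∀ f ∈ Kb {u, v} C, R.Cl S0 f := by
    intro f hf
    obtain ⟨a, ha, b, hb, rfl⟩ := mem_Kb.1 hf
    rw [Finset.mem_insert, Finset.mem_singleton] at ha
    rcases ha with rfl | rfl
    · exact (hcl b hb).1
    · exact (hcl b hb).2
  have hKb : R.r (H ∪ Kb {u, v} C) = R.r H + d * 2 := by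
    have h := R.r_Kb (S := H) (A := {u, v}) (C := C) ?_ ?_ hC hdC
    · rwa [Finset.card_pair huv] at h
    · intro e he a ha
      rw [Finset.mem_insert, Finset.mem_singleton] at ha
      rcases ha with rfl | rfl
      · exact hu e he
      · exact hv e he
    · rw [Finset.disjoint_left]
      intro a ha
      rw [Finset.mem_insert, Finset.mem_singleton] at ha
      rcases ha with rfl | rfl
      · exact huC
      · exact hvC
  have hrX : R.r X = R.r H + d * 2 + Qu.card + Qv.card := by rw [hind, hKb]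
  have hsubK : ∀ (T : Finset (Sym2 ℕ)), H ⊆ T → star u Qu ⊆ T → star v Qv ⊆ T →
      X ⊆ T ∪ Kb {u, v} C := by
    intro T h1 h2 h3 f hf
    rw [hX] at hf
    simp only [Finset.mem_union] at hf ⊢
    rcases hf with ((hf | hf) | hf) | hf
    · exact Or.inl (h1 hf)
    · exact Or.inr hf
    · exact Or.inl (h2 hf)
    · exact Or.inl (h3 hf)
  refine ⟨?_, ?_, ?_⟩
  · have h0 : R.r X ≤ R.r S0 := by
      refine m9_le R hKcl (hsubK S0 ?_ ?_ ?_) <;> intro f hf <;> rw [hS0] <;>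
        simp only [Finset.mem_union] <;> tauto
    have h1 := R.r_union_le (H ∪ star u Ju ∪ star v Jv ∪ star u Qu ∪ star v Qv) {s(u, v)}
    rw [Finset.card_singleton, ← hS0] at h1
    have h2 := m9_add_star R (H ∪ star u Ju ∪ star v Jv ∪ star u Qu) v Qv
    have h3 := m9_add_star R (H ∪ star u Ju ∪ star v Jv) u Qu
    have h4 := m9_add_star R (H ∪ star u Ju) v Jv
    have h5 := m9_add_star R H u Ju
    omega
  · refine m9_one R (H := H) (C := C) (u := u) (v := v) (Qu := Qu) (Qv := Qv) (X := X)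
      (T := {s(u, v)}) hv hvC hC hdC hrX ?_ (by simp)
    have hsub : S0 ⊆ H ∪ star v C ∪ star v Qv ∪ star u Ju ∪ star u Qu ∪ {s(u, v)} := by
      intro f hf
      rw [hS0] at hf
      simp only [Finset.mem_union] at hf ⊢
      have hJ : f ∈ star v Jv → f ∈ star v C := by
        intro h
        obtain ⟨y, hy, rfl⟩ := mem_star.1 h
        exact mem_star.2 ⟨y, hJv hy, rfl⟩
      tauto
    refine m9_le R (fun f hf => R.Cl_mono hsub (hKcl f hf)) (hsubK _ ?_ ?_ ?_) <;>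
      intro f hf <;> simp only [Finset.mem_union] <;> tauto
  · refine m9_one R (H := H) (C := C) (u := v) (v := u) (Qu := Qv) (Qv := Qu) (X := X)
      (T := {s(u, v)}) hu huC hC hdC (by omega) ?_ (by simp)
    have hsub : S0 ⊆ H ∪ star u C ∪ star u Qu ∪ star v Jv ∪ star v Qv ∪ {s(u, v)} := by
      intro f hf
      rw [hS0] at hf
      simp only [Finset.mem_union] at hf ⊢
      have hJ : f ∈ star u Ju → f ∈ star u C := by
        intro h
        obtain ⟨y, hy, rfl⟩ := mem_star.1 h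
        exact mem_star.2 ⟨y, hJu hy, rfl⟩
      tauto
    refine m9_le R (fun f hf => R.Cl_mono hsub (hKcl f hf)) (hsubK _ ?_ ?_ ?_) <;>
      intro f hf <;> simp only [Finset.mem_union] <;> tauto

end Pool.Agent.Helper55.ML
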