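import Pool.Agent.Helper55.ML.F1
import Pool.Agent.Helper55.ML.M9
import Pool.Agent.Helper55.ML.M15

set_option autoImplicit false
open Finset Filter Topology

namespace Pool.Agent.Helper55.ML

private theorem f2_markov {c : ℝ} (hc : 0 < c) {f : ℕ → Finset (Sym2 ℕ) → ℝ}
    (hf0 : ∀ n G, 0 ≤ f n G) (hf : Van c f) {τ : ℝ} (hτ : 0 < τ) :
    Neg c (fun n G => τ ≤ f n G) := by
  have h1 : Tendsto (fun n : ℕ => τ⁻¹ * Ex n (c / n) (f n)) atTop (𝓝 0) := by
    have := hf.const_mul τ⁻¹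
    rwa [mul_zero] at this
  refine Neg_of_le hc h1 ?_
  filter_upwards [cn_eventually hc] with n hn
  rw [← Ex_mul_left]
  refine Ex_mono hn.1.le (by linarith [hn.2]) (fun G _ => ?_)
  by_cases h : τ ≤ f n G
  · rw [ind_true h]
    calc (1 : ℝ) = τ⁻¹ * τ := (inv_mul_cancel₀ hτ.ne').symm
      _ ≤ τ⁻¹ * f n G := mul_le_mul_of_nonneg_left h (inv_nonneg.2 hτ.le)
  · rw [ind_false h]
    exact mul_nonneg (inv_nonneg.2 hτ.le) (hf0 n G)

private theorem f2_Kb (v : ℕ) (C : Finset ℕ) : Kb {v} C = star v C := by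
  ext e
  rw [mem_Kb, mem_star]
  simp

private theorem f2_outE {n : ℕ} {G : Finset (Sym2 ℕ)} (hG : G ⊆ En n) (Y : Finset ℕ) :
    outE {0} Y G = star 0 (nb n G 0 \ Y) := by
  ext e
  rw [mem_outE, mem_star]
  constructor
  · rintro ⟨he, ⟨a, ha, hae⟩, x, hx, hx0, hxY⟩
    rw [Finset.mem_singleton] at ha
    subst ha
    rw [Finset.mem_singleton] at hx0
    obtain ⟨u, rfl⟩ := Sym2.mem_iff_exists.1 hae
    rcases Sym2.mem_iff.1 hx with h | h
    · exact absurd h hx0
    · subst h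
      refine ⟨x, ?_, rfl⟩
      rw [Finset.mem_sdiff, mem_nb]
      exact ⟨⟨(mk_mem_En.1 (hG he)).2.1, he⟩, hxY⟩
  · rintro ⟨u, hu, rfl⟩
    rw [Finset.mem_sdiff, mem_nb] at hu
    refine ⟨hu.1.2, ⟨0, Finset.mem_singleton_self 0, Sym2.mem_mk_left 0 u⟩, u,
      Sym2.mem_mk_right 0 u, ?_, hu.2⟩
    rw [Finset.mem_singleton]
    exact fun h => (mk_mem_En.1 (hG hu.1.2)).2.2 h.symm

private theorem f2_card_star (v : ℕ) (Q : Finset ℕ) : (star v Q).card = Q.card := by
  unfold star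
  exact Finset.card_image_of_injective _ (fun a b h => Sym2.congr_right.1 h)

private theorem f2_notMem {d t : ℕ} (R : Rig d t) {δ : ℝ} {n : ℕ} (hd : 2 ≤ d)
    (hdn : (d : ℝ) ≤ δ * n) (G : Finset (Sym2 ℕ)) : 0 ∉ R.Y δ n (del {0} G) := by
  intro h
  obtain ⟨_, C, _, h0C, hC, hcard⟩ := R.mem_Y.1 h
  have h2 : 2 ≤ C.card := by
    have h3 : (d : ℝ) ≤ (C.card : ℝ) := hdn.trans hcard
    have h4 : d ≤ C.card := by exact_mod_cast h3
    omega
  obtain ⟨u, hu, hu0⟩ : ∃ u ∈ C, u ≠ 0 := by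
    by_contra hcon
    push Not at hcon
    have h3 : C ⊆ {0} := fun x hx => Finset.mem_singleton.2 (hcon x hx)
    have h4 := Finset.card_le_card h3
    rw [Finset.card_singleton] at h4
    omega
  have h5 := hC 0 h0C u hu (Ne.symm hu0)
  have h6 := R.zero_ext (del {0} G) 0 {u} ?_ ?_ ?_
  · have h7 : del {0} G ∪ star 0 {u} = insert s(0, u) (del {0} G) := by
      unfold star
      rw [Finset.image_singleton, Finset.union_comm, ← Finset.insert_eq]
    rw [h7, Finset.card_singleton] at h6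
    rw [R.Cl_def] at h5
    omega
  · intro e he h0e
    exact (mem_del.1 he).2 0 h0e (Finset.mem_singleton_self 0)
  · rw [Finset.mem_singleton]
    exact Ne.symm hu0
  · rw [Finset.card_singleton]
    omega

/-- C1 (hint): if `Y' = Y(del {0} G)` is empty and `0 ∈ Y(G)` then `y(G) - y(G') ≥ δ`: T4. If
`Y'` is nonempty, `¬ FIbad {0}`, `Y(G)` and `Y'` cliques (of the closures of `G`, `G'`):
`alpha` with `H = G'`, `C = Y'`, `J = nb ∩ Y'`, `Q = nb \ Y'`. Converse: `mem_Y_of_join`. -/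
theorem Rig.C1 {d t : ℕ} (R : Rig d t) {c δ : ℝ} (hS : Std R c δ) :
    Neg c (fun n G => ¬ (0 ∈ R.Y δ n G ↔
      d ≤ (nb n G 0 ∩ R.Y δ n (del {0} G)).card)) := by
  have hc := hS.hc
  have hδ := hS.hδ
  have hd := hS.hd
  have h1 := R.FI hS {0}
  have h2 := R.Y_clq hc hδ
  have h3 := Neg_del hc h2 {0}
  have h4 := f2_markov hc (f := fun n G => R.y δ n G - R.y δ n (del {0} G))
    (fun n G => sub_nonneg.2 (R.y_mono (del_subset {0} G))) (R.T4 hc δ {0}) hδ
  refine Neg_mono hc (Neg_or hc (Neg_or hc h1 h2) (Neg_or hc h3 h4)) ?_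
  obtain ⟨N, hN⟩ := exists_nat_ge ((d : ℝ) / δ)
  filter_upwards [eventually_ge_atTop N, eventually_gt_atTop 0] with n hn hn0 G hG hbad
  have hn0' : (0 : ℝ) < n := by exact_mod_cast hn0
  have hdn : (d : ℝ) ≤ δ * n := by
    have h5 : (d : ℝ) / δ ≤ n := hN.trans (by exact_mod_cast hn)
    rw [div_le_iff₀ hδ] at h5
    linarith
  by_contra hno
  simp only [not_or] at hno
  obtain ⟨⟨hFI, hclq⟩, hclq', hy⟩ := hno
  rw [not_not] at hclq hclq'
  apply hbad
  constructor
  · intro h0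
    have hne : (R.Y δ n (del {0} G)).Nonempty := by
      by_contra hemp
      rw [Finset.not_nonempty_iff_eq_empty] at hemp
      apply hy
      have h5 := R.Y_card ⟨0, h0⟩
      have h6 : R.y δ n (del {0} G) = 0 := by
        unfold Rig.y
        rw [hemp]
        simp
      have h7 : δ ≤ R.y δ n G := by
        unfold Rig.y
        rw [le_div_iff₀ hn0']
        exact h5
      rw [h6]
      linarith
    have hcard : d ≤ (R.Y δ n (del {0} G)).card := by
      have h5 : (d : ℝ) ≤ ((R.Y δ n (del {0} G)).card : ℝ) := hdn.trans (R.Y_card hne)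
      exact_mod_cast h5
    refine R.alpha (H := del {0} G) (C := R.Y δ n (del {0} G))
      (Q := nb n G 0 \ R.Y δ n (del {0} G)) (v := 0) ?_ (f2_notMem R hd hdn G) hclq' hcard ?_ ?_
    · intro e he h0e
      exact (mem_del.1 he).2 0 h0e (Finset.mem_singleton_self 0)
    · unfold Rig.FIbad at hFI
      rw [not_and, not_lt, f2_Kb, f2_outE hG, f2_card_star] at hFI
      have h5 := hFI hne
      have h6 := R.r_union_le (del {0} G ∪ star 0 (R.Y δ n (del {0} G)))
        (star 0 (nb n G 0 \ R.Y δ n (del {0} G)))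
      rw [f2_card_star] at h6
      omega
    · intro y hyY
      have h5 : del {0} G ∪ star 0 (nb n G 0 ∩ R.Y δ n (del {0} G)) ∪
          star 0 (nb n G 0 \ R.Y δ n (del {0} G)) = G := by
        have h6 : star 0 (nb n G 0 ∩ R.Y δ n (del {0} G)) ∪
            star 0 (nb n G 0 \ R.Y δ n (del {0} G)) = star 0 (nb n G 0) := by
          unfold star
          rw [← Finset.image_union]
          congr 1
          ext x
          simp only [Finset.mem_union, Finset.mem_inter, Finset.mem_sdiff]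
          tauto
        rw [Finset.union_assoc, h6, del_union_star hG]
      rw [h5]
      refine hclq 0 h0 y (R.Y_mono (del_subset {0} G) hyY) ?_
      intro h6
      exact f2_notMem R hd hdn G (h6 ▸ hyY)
  · intro hcard
    have hsub : nb n G 0 ∩ R.Y δ n (del {0} G) ⊆ R.Y δ n G :=
      Finset.inter_subset_right.trans (R.Y_mono (del_subset {0} G))
    have hne : (R.Y δ n G).Nonempty := by
      have h5 : 0 < (nb n G 0 ∩ R.Y δ n (del {0} G)).card := by omega
      obtain ⟨x, hx⟩ := Finset.card_pos.1 h5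
      exact ⟨x, hsub hx⟩
    refine R.mem_Y_of_join hclq hne hn0 hsub hcard ?_
    intro u hu _
    exact R.Cl_of_mem (mem_nb.1 (Finset.mem_inter.1 hu).1).2

end Pool.Agent.Helper55.ML
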