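import Pool.Agent.Helper55.ML.F2
import Pool.Agent.Helper55.ML.Q10
import Pool.Agent.Helper55.ML.A0
import Pool.Agent.Helper55.ML.Q1
import Pool.Agent.Helper55.ML.Q2
import Pool.Agent.Helper55.ML.Q3
import Pool.Agent.Helper55.ML.T4

set_option autoImplicit false
open Finset Filter Topology

namespace Pool.Agent.Helper55.ML

private theorem f3_van_iff {c : ℝ} {f : ℕ → Finset (Sym2 ℕ) → ℝ} :
    Van c f ↔ ∀ ε : ℝ, 0 < ε → ∀ᶠ n : ℕ in atTop, |Ex n (c / n) (f n)| ≤ ε := by
  unfold Van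
  rw [Metric.tendsto_nhds]
  constructor
  · intro h ε hε
    filter_upwards [h ε hε] with n hn
    rw [Real.dist_eq, sub_zero] at hn
    exact hn.le
  · intro h ε hε
    filter_upwards [h (ε / 2) (by linarith)] with n hn
    rw [Real.dist_eq, sub_zero]
    linarith

private theorem f3_sum_ind {n : ℕ} {Y : Finset ℕ} (hY : Y ⊆ range n) :
    ∑ v ∈ range n, ind (v ∈ Y) = (Y.card : ℝ) := by
  rw [← Finset.sum_subset hY (fun v _ hv => ind_false hv),
    Finset.sum_congr rfl (fun v hv => ind_true hv)]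
  simp

/-- symmetry: `E[y ψ(y)] = E[1_{0 ∈ Y} ψ(y)]` -/
private theorem f3_sym {d t : ℕ} (R : Rig d t) (δ : ℝ) (n : ℕ) (hn : 1 ≤ n) (p : ℝ) (ψ : ℝ → ℝ) :
    Ex n p (fun G => R.y δ n G * ψ (R.y δ n G)) =
      Ex n p (fun G => ind (0 ∈ R.Y δ n G) * ψ (R.y δ n G)) := by
  have hn0 : (0 : ℝ) < n := by exact_mod_cast hn
  have h := Ex_vertex_sum n p (fun v G => ind (v ∈ R.Y δ n G) * ψ (R.y δ n G)) (by
    intro σ hσ v G
    rw [R.Y_perm δ n σ hσ, R.y_perm δ n σ hσ]
    congr 1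
    refine ind_congr ?_
    rw [Finset.mem_image]
    constructor
    · rintro ⟨a, ha, he⟩
      rwa [← σ.injective he]
    · intro hv
      exact ⟨v, hv, rfl⟩)
  have h2 : Ex n p (fun G => ∑ v ∈ range n, ind (v ∈ R.Y δ n G) * ψ (R.y δ n G)) =
      n * Ex n p (fun G => R.y δ n G * ψ (R.y δ n G)) := by
    rw [← Ex_mul_left]
    refine Ex_congr (fun G _ => ?_)
    rw [← Finset.sum_mul, f3_sum_ind R.Y_subset]
    have hy : (n : ℝ) * R.y δ n G = ((R.Y δ n G).card : ℝ) := by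
      unfold Rig.y
      rw [mul_div_cancel₀ _ hn0.ne']
    rw [← hy, mul_assoc]
  rw [h2] at h
  exact mul_left_cancel₀ hn0.ne' h

private theorem f3_main {d t : ℕ} (R : Rig d t) {c δ : ℝ} (hc : 0 < c) {ψ : ℝ → ℝ} {L M : ℝ}
    (hL : ∀ a b, |ψ a - ψ b| ≤ L * |a - b|) (hM : ∀ a, |ψ a| ≤ M) {n : ℕ} (hn : 1 ≤ n)
    (hp0 : 0 ≤ c / (n : ℝ)) (hp1 : c / (n : ℝ) ≤ 1) {ε : ℝ}
    (hpo : ∀ A : Finset ℕ, A.card ≤ n →
      |BE A (c / n) (fun N => ind (d ≤ N.card)) - hp d (c * A.card / n)| ≤ ε) :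
    |Ex n (c / n) (fun G => (R.y δ n G - hp d (c * R.y δ n G)) * ψ (R.y δ n G))| ≤
      M * Pr n (c / n) (fun G => ¬ (0 ∈ R.Y δ n G ↔
        d ≤ (nb n G 0 ∩ R.Y δ n (del {0} G)).card)) +
      (2 * L + M * c) * Ex n (c / n) (fun G => R.y δ n G - R.y δ n (del {0} G)) +
      (ε + c / n) * M := by
  have hn0 : (0 : ℝ) < n := by exact_mod_cast hn
  have hM0 : 0 ≤ M := (abs_nonneg _).trans (hM 0)
  have hy0 : ∀ G, 0 ≤ R.y δ n G := fun G => R.y_nonneg
  have hcy : ∀ G, 0 ≤ c * R.y δ n G := fun G => mul_nonneg hc.le (hy0 G)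
  have hmono : ∀ G : Finset (Sym2 ℕ), R.y δ n (del {0} G) ≤ R.y δ n G :=
    fun G => R.y_mono (del_subset _ _)
  set p : ℝ := c / n with hp
  -- the four expectations
  set EA : ℝ := Ex n p (fun G => ind (0 ∈ R.Y δ n G) * ψ (R.y δ n G)) with hEA
  set EB : ℝ := Ex n p (fun G => ind (d ≤ (nb n G 0 ∩ R.Y δ n (del {0} G)).card) *
    ψ (R.y δ n (del {0} G))) with hEB
  set EC : ℝ := Ex n p (fun G => ML.hp d (c * R.y δ n (del {0} G)) * ψ (R.y δ n (del {0} G)))
    with hEC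
  set ED : ℝ := Ex n p (fun G => ML.hp d (c * R.y δ n G) * ψ (R.y δ n G)) with hED
  set P : ℝ := Pr n p (fun G => ¬ (0 ∈ R.Y δ n G ↔
        d ≤ (nb n G 0 ∩ R.Y δ n (del {0} G)).card)) with hP
  set Δ : ℝ := Ex n p (fun G => R.y δ n G - R.y δ n (del {0} G)) with hΔ
  have h0 : Ex n p (fun G => (R.y δ n G - ML.hp d (c * R.y δ n G)) * ψ (R.y δ n G)) =
      EA - ED := by
    rw [hEA, ← f3_sym R δ n hn p ψ, hED, ← Ex_sub]
    exact Ex_congr (fun G _ => by ring)
  have h1 : |EA - EB| ≤ M * P + L * Δ := by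
    rw [hEA, hEB, ← Ex_sub]
    refine (abs_BE_le hp0 hp1).trans ?_
    rw [hP, hΔ, ← Ex_mul_left, Pr, ← Ex_mul_left, ← Ex_add]
    refine Ex_mono hp0 hp1 (fun G _ => ?_)
    have hd : |ψ (R.y δ n G) - ψ (R.y δ n (del {0} G))| ≤
        L * (R.y δ n G - R.y δ n (del {0} G)) := by
      have := hL (R.y δ n G) (R.y δ n (del {0} G))
      rwa [abs_of_nonneg (sub_nonneg.2 (hmono G))] at this
    have hd0 : 0 ≤ L * (R.y δ n G - R.y δ n (del {0} G)) := (abs_nonneg _).trans hd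
    by_cases hiff : (0 ∈ R.Y δ n G ↔ d ≤ (nb n G 0 ∩ R.Y δ n (del {0} G)).card)
    · rw [ind_false (not_not.2 hiff), ind_congr hiff, ← mul_sub, abs_mul,
        abs_of_nonneg (ind_nonneg _), mul_zero, zero_add]
      refine (mul_le_mul_of_nonneg_right (ind_le_one _) (abs_nonneg _)).trans ?_
      rw [one_mul]
      exact hd
    · rw [ind_true hiff, mul_one]
      by_cases h0Y : 0 ∈ R.Y δ n G
      · have hB : ¬ d ≤ (nb n G 0 ∩ R.Y δ n (del {0} G)).card := fun h =>
          hiff ⟨fun _ => h, fun _ => h0Y⟩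
        rw [ind_true h0Y, ind_false hB, one_mul, zero_mul, sub_zero]
        have := hM (R.y δ n G)
        linarith
      · have hB : d ≤ (nb n G 0 ∩ R.Y δ n (del {0} G)).card := by
          by_contra h
          exact hiff ⟨fun h' => absurd h' h0Y, fun h' => absurd h' h⟩
        rw [ind_false h0Y, ind_true hB, one_mul, zero_mul, zero_sub, abs_neg]
        have := hM (R.y δ n (del {0} G))
        linarith
  have h2 : |EB - EC| ≤ (ε + c / n) * M := by
    have hv : EB = Ex n p (fun G => BE ((range n).erase 0) p (fun N =>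
        ind (d ≤ (N ∩ R.Y δ n (del {0} G)).card) * ψ (R.y δ n (del {0} G)))) :=
      Ex_vertex n 0 hn p (fun H N => ind (d ≤ (N ∩ R.Y δ n H).card) * ψ (R.y δ n H))
    rw [hv, hEC, ← Ex_sub]
    refine (abs_BE_le hp0 hp1).trans ?_
    have hconst : (ε + c / n) * M = Ex n p (fun _ => (ε + c / n) * M) := (Ex_const _).symm
    rw [hconst]
    refine Ex_mono hp0 hp1 (fun G _ => ?_)
    set H := del {0} G with hH
    rw [BE_mul_right, ← sub_mul, abs_mul]
    have hY : BE ((range n).erase 0) p (fun N => ind (d ≤ (N ∩ R.Y δ n H).card)) =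
        BE ((R.Y δ n H).erase 0) p (fun N => ind (d ≤ N.card)) := by
      rw [← BE_inter (Finset.erase_subset_erase 0 (R.Y_subset (δ := δ) (n := n) (S := H))) p]
      refine BE_congr (fun S hS => ?_)
      have : S ∩ R.Y δ n H = S ∩ (R.Y δ n H).erase 0 := by
        ext a
        rw [Finset.mem_inter, Finset.mem_inter, Finset.mem_erase]
        constructor
        · rintro ⟨h1, h2⟩
          exact ⟨h1, Finset.ne_of_mem_erase (hS h1), h2⟩
        · rintro ⟨h1, _, h2⟩
          exact ⟨h1, h2⟩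
      rw [this]
    have hcard : ((R.Y δ n H).erase 0).card ≤ n := by
      have := Finset.card_le_card ((Finset.erase_subset 0 (R.Y δ n H)).trans R.Y_subset)
      rwa [Finset.card_range] at this
    have hb := hpo ((R.Y δ n H).erase 0) hcard
    have hlip : |ML.hp d (c * (((R.Y δ n H).erase 0).card : ℝ) / n) -
        ML.hp d (c * R.y δ n H)| ≤ c / n := by
      refine (hp_lip d (by positivity) (hcy H)).trans ?_
      have e1 : c * (((R.Y δ n H).erase 0).card : ℝ) / n - c * R.y δ n H =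
          c / n * ((((R.Y δ n H).erase 0).card : ℝ) - ((R.Y δ n H).card : ℝ)) := by
        unfold Rig.y
        field_simp
      rw [e1, abs_mul, abs_of_nonneg hp0]
      have e2 : |(((R.Y δ n H).erase 0).card : ℝ) - ((R.Y δ n H).card : ℝ)| ≤ 1 := by
        have h3 := Finset.card_erase_le (s := R.Y δ n H) (a := 0)
        have h4 := Finset.pred_card_le_card_erase (s := R.Y δ n H) (a := 0)
        have h5 : (((R.Y δ n H).erase 0).card : ℝ) ≤ ((R.Y δ n H).card : ℝ) := by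
          exact_mod_cast h3
        have h6 : ((R.Y δ n H).card : ℝ) ≤ (((R.Y δ n H).erase 0).card : ℝ) + 1 := by
          exact_mod_cast (by omega :
            (R.Y δ n H).card ≤ ((R.Y δ n H).erase 0).card + 1)
        rw [abs_le]
        constructor <;> linarith
      calc c / n * |(((R.Y δ n H).erase 0).card : ℝ) - ((R.Y δ n H).card : ℝ)|
          ≤ c / n * 1 := mul_le_mul_of_nonneg_left e2 hp0
        _ = c / n := mul_one _
    have htri : |BE ((range n).erase 0) p (fun N => ind (d ≤ (N ∩ R.Y δ n H).card)) -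
        ML.hp d (c * R.y δ n H)| ≤ ε + c / n := by
      rw [hY]
      have := abs_sub_le (BE ((R.Y δ n H).erase 0) p (fun N => ind (d ≤ N.card)))
        (ML.hp d (c * (((R.Y δ n H).erase 0).card : ℝ) / n)) (ML.hp d (c * R.y δ n H))
      linarith
    exact mul_le_mul htri (hM _) (abs_nonneg _) ((abs_nonneg _).trans htri)
  have h3 : |EC - ED| ≤ (M * c + L) * Δ := by
    rw [hEC, hED, hΔ, ← Ex_sub, ← Ex_mul_left]
    refine (abs_BE_le hp0 hp1).trans (Ex_mono hp0 hp1 (fun G _ => ?_))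
    set y := R.y δ n G with hy
    set y' := R.y δ n (del {0} G) with hy'
    have hyy : y' ≤ y := hmono G
    have e1 : ML.hp d (c * y') * ψ y' - ML.hp d (c * y) * ψ y =
        (ML.hp d (c * y') - ML.hp d (c * y)) * ψ y' + ML.hp d (c * y) * (ψ y' - ψ y) := by ring
    rw [e1]
    refine (abs_add_le _ _).trans ?_
    rw [abs_mul, abs_mul]
    have e2 : |ML.hp d (c * y') - ML.hp d (c * y)| ≤ c * (y - y') := by
      refine (hp_lip d (hcy _) (hcy _)).trans ?_
      rw [← mul_sub, abs_mul, abs_of_pos hc, abs_sub_comm, abs_of_nonneg (sub_nonneg.2 hyy)]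
    have e3 : |ψ y' - ψ y| ≤ L * (y - y') := by
      have := hL y' y
      rwa [abs_sub_comm y' y, abs_of_nonneg (sub_nonneg.2 hyy)] at this
    have e4 : |ML.hp d (c * y)| ≤ 1 := by
      rw [abs_of_nonneg (hp_nonneg d (hcy G))]
      exact hp_le_one d (hcy G)
    have e5 : |ML.hp d (c * y') - ML.hp d (c * y)| * |ψ y'| ≤ c * (y - y') * M :=
      mul_le_mul e2 (hM _) (abs_nonneg _) ((abs_nonneg _).trans e2)
    have e6 : |ML.hp d (c * y)| * |ψ y' - ψ y| ≤ 1 * (L * (y - y')) :=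
      mul_le_mul e4 e3 (abs_nonneg _) zero_le_one
    calc |ML.hp d (c * y') - ML.hp d (c * y)| * |ψ y'| + |ML.hp d (c * y)| * |ψ y' - ψ y|
        ≤ c * (y - y') * M + 1 * (L * (y - y')) := add_le_add e5 e6
      _ = (M * c + L) * (y - y') := by ring
  rw [h0]
  have htri : |EA - ED| ≤ |EA - EB| + |EB - EC| + |EC - ED| := by
    have := abs_sub_le EA EB ED
    have := abs_sub_le EB EC ED
    linarith
  refine htri.trans ?_
  have : (2 * L + M * c) * Δ = L * Δ + (M * c + L) * Δ := by ring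
  linarith

/-- C2 (hint): by symmetry (`Ex_vertex_sum`) `E[y ψ(y)] = E[1_{0 ∈ Y} ψ(y)]`; by C1 and T4 this is
`E[1_{|nb 0 ∩ Y(G')| ≥ d} ψ(y(G'))] + o(1)`, `G' = del {0} G`; by `Ex_vertex` and `poisson_ge` this is
`E[hp d (c y(G')) ψ(y(G'))] + o(1)`, and T4 again. -/
theorem Rig.C2 {d t : ℕ} (R : Rig d t) {c δ : ℝ} (hS : Std R c δ) {ψ : ℝ → ℝ} {L M : ℝ}
    (hL : ∀ a b, |ψ a - ψ b| ≤ L * |a - b|) (hM : ∀ a, |ψ a| ≤ M) :
    Van c (fun n G => (R.y δ n G - hp d (c * R.y δ n G)) * ψ (R.y δ n G)) := by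
  have hc := hS.hc
  rw [f3_van_iff]
  intro η hη
  have hM0 : 0 ≤ M := (abs_nonneg _).trans (hM 0)
  have hC1 := R.C1 hS
  have hT4 := R.T4 hc δ {0}
  have e1 : Tendsto (fun n : ℕ => M * Pr n (c / n) (fun G => ¬ (0 ∈ R.Y δ n G ↔
      d ≤ (nb n G 0 ∩ R.Y δ n (del {0} G)).card))) atTop (𝓝 (M * 0)) := hC1.const_mul M
  have e2 : Tendsto (fun n : ℕ => (2 * L + M * c) *
      Ex n (c / n) (fun G => R.y δ n G - R.y δ n (del {0} G))) atTop
      (𝓝 ((2 * L + M * c) * 0)) := hT4.const_mul _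
  have e3 : Tendsto (fun n : ℕ => (η / (4 * (M + 1)) + c / (n : ℝ)) * M) atTop
      (𝓝 ((η / (4 * (M + 1)) + 0) * M)) :=
    (tendsto_const_nhds.add (tendsto_const_div_atTop_nhds_zero_nat c)).mul_const M
  have e4 := (e1.add e2).add e3
  have hlim : M * 0 + (2 * L + M * c) * 0 + (η / (4 * (M + 1)) + 0) * M < η := by
    have h1 : η / (4 * (M + 1)) * M ≤ η / 4 := by
      rw [div_mul_eq_mul_div, div_le_div_iff₀ (by positivity) (by norm_num)]
      nlinarith
    linarith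
  have hpo := poisson_ge hc d (η / (4 * (M + 1))) (by positivity)
  filter_upwards [e4.eventually (gt_mem_nhds hlim), hpo, cn_eventually hc,
    eventually_ge_atTop 1] with n hn1 hn2 hn3 hn4
  refine (f3_main R hc hL hM hn4 hn3.1.le (by linarith [hn3.2]) hn2).trans ?_
  exact hn1.le

/-- (hint) `ψ(u) = v - hp d (c v)`, `v = min 1 (max 0 u)`; Markov. -/
theorem Rig.C2n {d t : ℕ} (R : Rig d t) {c δ : ℝ} (hS : Std R c δ) {τ : ℝ} (hτ : 0 < τ) :
    Neg c (fun n G => τ ≤ |R.y δ n G - hp d (c * R.y δ n G)|) := by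
  have hc := hS.hc
  set v : ℝ → ℝ := fun u => min 1 (max 0 u) with hv
  have hv0 : ∀ u, 0 ≤ v u := fun u => le_min zero_le_one (le_max_left _ _)
  have hv1 : ∀ u, v u ≤ 1 := fun u => min_le_left _ _
  have hvl : ∀ a b, |v a - v b| ≤ |a - b| := by
    intro a b
    refine (abs_min_sub_min_le_max _ _ _ _).trans ?_
    rw [sub_self, abs_zero]
    refine max_le (abs_nonneg _) ?_
    refine (abs_max_sub_max_le_max _ _ _ _).trans ?_
    rw [sub_self, abs_zero]
    exact max_le (abs_nonneg _) le_rfl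
  set ψ : ℝ → ℝ := fun u => v u - hp d (c * v u) with hψ
  have hcv : ∀ u, 0 ≤ c * v u := fun u => mul_nonneg hc.le (hv0 u)
  have hL : ∀ a b, |ψ a - ψ b| ≤ (1 + c) * |a - b| := by
    intro a b
    have e1 : ψ a - ψ b = (v a - v b) - (hp d (c * v a) - hp d (c * v b)) := by
      rw [hψ]
      ring
    rw [e1]
    refine (abs_sub _ _).trans ?_
    have e2 : |hp d (c * v a) - hp d (c * v b)| ≤ c * |a - b| := by
      refine (hp_lip d (hcv a) (hcv b)).trans ?_
      rw [← mul_sub, abs_mul, abs_of_pos hc]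
      exact mul_le_mul_of_nonneg_left (hvl a b) hc.le
    have e3 := hvl a b
    linarith
  have hM : ∀ a, |ψ a| ≤ 1 := by
    intro a
    have h1 := hp_nonneg d (hcv a)
    have h2 := hp_le_one d (hcv a)
    have h3 := hv0 a
    have h4 := hv1 a
    rw [abs_le]
    constructor
    · change -1 ≤ v a - hp d (c * v a)
      linarith
    · change v a - hp d (c * v a) ≤ 1
      linarith
  have hC2 := R.C2 hS hL hM
  have hlim : Tendsto (fun n : ℕ => 1 / τ ^ 2 * Ex n (c / n) (fun G =>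
      (R.y δ n G - hp d (c * R.y δ n G)) * ψ (R.y δ n G))) atTop (𝓝 0) := by
    have := hC2.const_mul (1 / τ ^ 2)
    rwa [mul_zero] at this
  refine Neg_of_le hc hlim ?_
  filter_upwards [cn_eventually hc] with n hn
  rw [Pr, ← Ex_mul_left]
  refine Ex_mono hn.1.le (by linarith [hn.2]) (fun G _ => ?_)
  have hvy : v (R.y δ n G) = R.y δ n G := by
    rw [hv]
    change min 1 (max 0 (R.y δ n G)) = R.y δ n G
    rw [max_eq_right R.y_nonneg, min_eq_right R.y_le_one]
  have hψy : ψ (R.y δ n G) = R.y δ n G - hp d (c * R.y δ n G) := by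
    change v (R.y δ n G) - hp d (c * v (R.y δ n G)) = _
    rw [hvy]
  rw [hψy]
  set x := R.y δ n G - hp d (c * R.y δ n G) with hx
  by_cases h : τ ≤ |x|
  · rw [ind_true h]
    have h1 : τ ^ 2 ≤ x * x := by
      have := mul_self_le_mul_self hτ.le h
      rw [abs_mul_abs_self] at this
      rw [sq]
      exact this
    rw [one_div, ← div_eq_inv_mul, le_div_iff₀ (by positivity), one_mul]
    exact h1
  · rw [ind_false h]
    exact mul_nonneg (by positivity) (mul_self_nonneg x)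

end Pool.Agent.Helper55.ML
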