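import Pool.Agent.Helper55.ML.F1
import Pool.Agent.Helper55.ML.M9
import Pool.Agent.Helper55.ML.M15
import Pool.Agent.Helper55.ML.Q10
import Pool.Agent.Helper55.ML.A0

set_option autoImplicit false
open Finset Filter Topology

namespace Pool.Agent.Helper55.ML

theorem f4_toFinset_map (σ : Equiv.Perm ℕ) (e : Sym2 ℕ) :
    (Sym2.map σ e).toFinset = e.toFinset.image σ := by
  ext x
  rw [Sym2.mem_toFinset, Sym2.mem_map, Finset.mem_image]
  simp only [Sym2.mem_toFinset]

theorem f4_card_ins (A : Finset ℕ) (G : Finset (Sym2 ℕ)) :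
    ((ins A G).card : ℝ) = ∑ e ∈ G, ind (e.toFinset ⊆ A) := by
  unfold ins
  rw [Finset.card_filter]
  push_cast
  refine Finset.sum_congr rfl (fun e _ => ?_)
  unfold ind
  split_ifs <;> rfl

theorem f4_lhs {d t : ℕ} (R : Rig d t) {c δ : ℝ} (hc : 0 < c) {n : ℕ} (hn : 2 ≤ n)
    (hcn : c / n ≤ 1) {ψ : ℝ → ℝ} (h0 : ∀ a, 0 ≤ ψ a) :
    Ex n (c / n) (fun G => ((ins (R.Y δ n G) G).card : ℝ) / n * ψ (R.y δ n G)) ≤
      c / 2 * Ex n (c / n) (fun G => ind ((s(0, 1) : Sym2 ℕ).toFinset ⊆ R.Y δ n (insert s(0, 1) G)) *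
        ψ (R.y δ n (insert s(0, 1) G))) := by
  have hn0 : (0 : ℝ) < n := by
    have : (2 : ℝ) ≤ n := by exact_mod_cast hn
    linarith
  set g : Sym2 ℕ → Finset (Sym2 ℕ) → ℝ := fun e G =>
    ind (e.toFinset ⊆ R.Y δ n G) / n * ψ (R.y δ n G) with hg
  have e1 : Ex n (c / n) (fun G => ((ins (R.Y δ n G) G).card : ℝ) / n * ψ (R.y δ n G)) =
      Ex n (c / n) (fun G => ∑ e ∈ G, g e G) := by
    refine Ex_congr (fun G _ => ?_)
    rw [f4_card_ins, hg, Finset.sum_div, Finset.sum_mul]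
  rw [e1, Ex_mecke_insert]
  have e2 : ∀ e ∈ En n, Ex n (c / n) (fun G => g e (insert e G)) =
      Ex n (c / n) (fun G => g s(0, 1) (insert s(0, 1) G)) := by
    intro e he
    refine Ex_edge_eq n (c / n) (fun e G => g e (insert e G)) ?_ he
    intro σ hσ e G
    simp only [hg]
    rw [← Finset.image_insert, R.Y_perm δ n σ hσ, R.y_perm δ n σ hσ, f4_toFinset_map]
    congr 2
    exact ind_congr (Finset.image_subset_image_iff σ.injective)
  rw [Finset.sum_congr rfl e2, Finset.sum_const, nsmul_eq_mul, card_En]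
  have e3 : Ex n (c / n) (fun G => g s(0, 1) (insert s(0, 1) G)) =
      (1 / n) * Ex n (c / n) (fun G =>
        ind ((s(0, 1) : Sym2 ℕ).toFinset ⊆ R.Y δ n (insert s(0, 1) G)) *
        ψ (R.y δ n (insert s(0, 1) G))) := by
    rw [← Ex_mul_left]
    refine Ex_congr (fun G _ => ?_)
    simp only [hg]
    ring
  rw [e3]
  have hX : 0 ≤ Ex n (c / n) (fun G =>
        ind ((s(0, 1) : Sym2 ℕ).toFinset ⊆ R.Y δ n (insert s(0, 1) G)) *
        ψ (R.y δ n (insert s(0, 1) G))) :=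
    Ex_nonneg (by positivity) hcn (fun G _ => mul_nonneg (ind_nonneg _) (h0 _))
  set X := Ex n (c / n) (fun G =>
        ind ((s(0, 1) : Sym2 ℕ).toFinset ⊆ R.Y δ n (insert s(0, 1) G)) *
        ψ (R.y δ n (insert s(0, 1) G)))
  have e4 : c / (n : ℝ) * ((n : ℝ) * ((n : ℝ) - 1) / 2 * (1 / (n : ℝ) * X)) =
      c / 2 * (((n : ℝ) - 1) / n) * X := by
    field_simp
  rw [e4]
  have e5 : ((n : ℝ) - 1) / n ≤ 1 := by
    rw [div_le_one hn0]; linarith
  calc c / 2 * (((n : ℝ) - 1) / n) * X ≤ c / 2 * 1 * X := by gcongr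
    _ = c / 2 * X := by ring

/-- the event on the numbers of neighbours -/
def F4good (d a b : ℕ) : Prop := (d ≤ a ∧ d ≤ b) ∨ (d ≤ a ∧ b = d - 1) ∨ (a = d - 1 ∧ d ≤ b)

theorem f4_good {d t : ℕ} (R : Rig d t) (hd : 2 ≤ d) {δ : ℝ} {n : ℕ} (hδ : 2 ≤ δ * n)
    (hδd : (d : ℝ) ≤ δ * n) {G : Finset (Sym2 ℕ)} (hG : G ⊆ En n)
    (h01 : (s(0, 1) : Sym2 ℕ).toFinset ⊆ R.Y δ n (insert s(0, 1) G))
    (hne : (R.Y δ n (del {0, 1} G)).Nonempty) (hFI : ¬ R.FIbad δ n {0, 1} G)
    (hc1 : R.Clq (insert s(0, 1) G) (R.Y δ n (insert s(0, 1) G)))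
    (hc2 : R.Clq (del {0, 1} G) (R.Y δ n (del {0, 1} G))) :
    F4good d (nb n G 0 ∩ R.Y δ n (del {0, 1} G)).card
      (nb n G 1 ∩ R.Y δ n (del {0, 1} G)).card := by
  set H := del {0, 1} G with hH
  set C := R.Y δ n H with hC
  have hH0 : ∀ e ∈ H, (0 : ℕ) ∉ e := by
    intro e he h
    rw [hH, mem_del] at he
    exact he.2 0 h (by simp)
  have hH1 : ∀ e ∈ H, (1 : ℕ) ∉ e := by
    intro e he h
    rw [hH, mem_del] at he
    exact he.2 1 h (by simp)
  have h0C : (0 : ℕ) ∉ C := R.not_mem_Y_isolated (by omega) hδ hH0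
  have h1C : (1 : ℕ) ∉ C := R.not_mem_Y_isolated (by omega) hδ hH1
  have hdC : d ≤ C.card := by
    have := R.Y_card hne
    have h2 : (d : ℝ) ≤ (C.card : ℝ) := hδd.trans this
    exact_mod_cast h2
  set Q0 := (nb n G 0 \ C) \ {0, 1} with hQ0
  set Q1 := (nb n G 1 \ C) \ {0, 1} with hQ1
  set J0 := nb n G 0 ∩ C with hJ0
  set J1 := nb n G 1 ∩ C with hJ1
  -- outE
  have hout : outE {0, 1} C G = star 0 Q0 ∪ star 1 Q1 := by
    ext e
    rw [mem_outE, Finset.mem_union, mem_star, mem_star]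
    constructor
    · rintro ⟨heG, ⟨a, ha, hae⟩, x, hxe, hxA, hxC⟩
      have hax : a ≠ x := fun h => hxA (h ▸ ha)
      have he : e = s(a, x) := by
        exact ((Sym2.mem_and_mem_iff hax).1 ⟨hae, hxe⟩)
      rw [he] at heG
      have hxn : x < n := (mk_mem_En.1 (hG heG)).2.1
      rw [Finset.mem_insert, Finset.mem_singleton] at ha
      rcases ha with rfl | rfl
      · left
        refine ⟨x, ?_, he.symm⟩
        rw [hQ0, Finset.mem_sdiff, Finset.mem_sdiff, mem_nb]
        exact ⟨⟨⟨hxn, heG⟩, hxC⟩, hxA⟩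
      · right
        refine ⟨x, ?_, he.symm⟩
        rw [hQ1, Finset.mem_sdiff, Finset.mem_sdiff, mem_nb]
        exact ⟨⟨⟨hxn, heG⟩, hxC⟩, hxA⟩
    · rintro (⟨x, hx, rfl⟩ | ⟨x, hx, rfl⟩)
      · rw [hQ0, Finset.mem_sdiff, Finset.mem_sdiff, mem_nb] at hx
        exact ⟨hx.1.1.2, ⟨0, by simp, by simp⟩, x, by simp, hx.2, hx.1.2⟩
      · rw [hQ1, Finset.mem_sdiff, Finset.mem_sdiff, mem_nb] at hx
        exact ⟨hx.1.1.2, ⟨1, by simp, by simp⟩, x, by simp, hx.2, hx.1.2⟩
  have hcard : (outE {0, 1} C G).card = Q0.card + Q1.card := by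
    rw [hout, Finset.card_union_of_disjoint, star, star, Finset.card_image_of_injective,
      Finset.card_image_of_injective]
    · intro a b h
      exact Sym2.congr_right.1 h
    · intro a b h
      exact Sym2.congr_right.1 h
    · rw [Finset.disjoint_left]
      intro e h1 h2
      rw [mem_star] at h1 h2
      obtain ⟨x, hx, rfl⟩ := h1
      obtain ⟨y, hy, hxy⟩ := h2
      rw [Sym2.eq_iff] at hxy
      rw [hQ0, Finset.mem_sdiff] at hx
      rw [hQ1, Finset.mem_sdiff] at hy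
      rcases hxy with ⟨h, _⟩ | ⟨h, _⟩
      · exact absurd h (by norm_num)
      · apply hx.2
        rw [← h]
        simp
  have hind : R.r (H ∪ Kb {0, 1} C ∪ star 0 Q0 ∪ star 1 Q1) =
      R.r (H ∪ Kb {0, 1} C) + Q0.card + Q1.card := by
    have h1 : ¬ (R.r (H ∪ Kb {0, 1} C ∪ outE {0, 1} C G) <
        R.r (H ∪ Kb {0, 1} C) + (outE {0, 1} C G).card) := by
      intro h
      exact hFI ⟨hne, h⟩
    have h2 := R.r_union_le (H ∪ Kb {0, 1} C) (outE {0, 1} C G)
    rw [Finset.union_assoc _ (star 0 Q0), ← hout]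
    omega
  have hall : H ∪ star 0 J0 ∪ star 1 J1 ∪ star 0 Q0 ∪ star 1 Q1 ∪ {s(0, 1)} =
      insert s(0, 1) G := by
    ext e
    simp only [Finset.mem_union, Finset.mem_singleton, Finset.mem_insert, mem_star]
    constructor
    · rintro (((((h | ⟨x, hx, rfl⟩) | ⟨x, hx, rfl⟩) | ⟨x, hx, rfl⟩) | ⟨x, hx, rfl⟩) | h)
      · right; rw [hH, mem_del] at h; exact h.1
      · right; rw [hJ0, Finset.mem_inter, mem_nb] at hx; exact hx.1.2
      · right; rw [hJ1, Finset.mem_inter, mem_nb] at hx; exact hx.1.2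
      · right; rw [hQ0, Finset.mem_sdiff, Finset.mem_sdiff, mem_nb] at hx; exact hx.1.1.2
      · right; rw [hQ1, Finset.mem_sdiff, Finset.mem_sdiff, mem_nb] at hx; exact hx.1.1.2
      · left; exact h
    · rintro (h | h)
      · right; exact h
      · by_cases hd0 : e ∈ H
        · left; left; left; left; left; exact hd0
        · have hx : ∃ a ∈ ({0, 1} : Finset ℕ), a ∈ e := by
            by_contra hcon
            push Not at hcon
            apply hd0
            rw [hH, mem_del]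
            exact ⟨h, fun x hx hxA => hcon x hxA hx⟩
          obtain ⟨a, ha, hae⟩ := hx
          obtain ⟨x, rfl⟩ := hae
          have hE := mk_mem_En.1 (hG h)
          rw [Finset.mem_insert, Finset.mem_singleton] at ha
          by_cases hx01 : x ∈ ({0, 1} : Finset ℕ)
          · right
            rw [Finset.mem_insert, Finset.mem_singleton] at hx01
            rcases ha with rfl | rfl <;> rcases hx01 with rfl | rfl
            · exact absurd rfl hE.2.2
            · rfl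
            · exact Sym2.eq_swap
            · exact absurd rfl hE.2.2
          · left
            rcases ha with rfl | rfl
            · by_cases hxC : x ∈ C
              · left; left; left; right
                exact ⟨x, by rw [hJ0, Finset.mem_inter, mem_nb]; exact ⟨⟨hE.2.1, h⟩, hxC⟩, rfl⟩
              · left; right
                exact ⟨x, by
                  rw [hQ0, Finset.mem_sdiff, Finset.mem_sdiff, mem_nb]
                  exact ⟨⟨⟨hE.2.1, h⟩, hxC⟩, hx01⟩, rfl⟩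
            · by_cases hxC : x ∈ C
              · left; left; right
                exact ⟨x, by rw [hJ1, Finset.mem_inter, mem_nb]; exact ⟨⟨hE.2.1, h⟩, hxC⟩, rfl⟩
              · right
                exact ⟨x, by
                  rw [hQ1, Finset.mem_sdiff, Finset.mem_sdiff, mem_nb]
                  exact ⟨⟨⟨hE.2.1, h⟩, hxC⟩, hx01⟩, rfl⟩
  have hCY : C ⊆ R.Y δ n (insert s(0, 1) G) :=
    R.Y_mono ((del_subset _ _).trans (Finset.subset_insert _ _))
  have h0Y : (0 : ℕ) ∈ R.Y δ n (insert s(0, 1) G) := h01 (by simp)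
  have h1Y : (1 : ℕ) ∈ R.Y δ n (insert s(0, 1) G) := h01 (by simp)
  have hcl : ∀ y ∈ C,
      R.Cl (H ∪ star 0 J0 ∪ star 1 J1 ∪ star 0 Q0 ∪ star 1 Q1 ∪ {s(0, 1)}) s(0, y) ∧
      R.Cl (H ∪ star 0 J0 ∪ star 1 J1 ∪ star 0 Q0 ∪ star 1 Q1 ∪ {s(0, 1)}) s(1, y) := by
    intro y hy
    rw [hall]
    constructor
    · exact hc1 0 h0Y y (hCY hy) (fun h => h0C (h ▸ hy))
    · exact hc1 1 h1Y y (hCY hy) (fun h => h1C (h ▸ hy))
  have key := R.alpha_two (H := H) (C := C) (Ju := J0) (Jv := J1) (Qu := Q0) (Qv := Q1)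
    (u := 0) (v := 1) (by norm_num) hH0 hH1 h0C h1C
    (by rw [hQ0, Finset.mem_sdiff]; simp) (by rw [hQ1, Finset.mem_sdiff]; simp)
    Finset.inter_subset_right Finset.inter_subset_right hc2 hdC hind hcl
  unfold F4good
  omega

theorem f4_star_image (v : ℕ) (N : Finset ℕ) : star v N = N.image (fun u => s(v, u)) := rfl

theorem f4_bin {n : ℕ} (hn : 2 ≤ n) (p : ℝ) {C : Finset ℕ} (hC : C ⊆ range n) (h0 : 0 ∉ C)
    (h1 : 1 ∉ C) (F F' : ℕ → ℝ) :
    BE (En n \ del {0, 1} (En n)) p (fun T => F (nb n T 0 ∩ C).card * F' (nb n T 1 ∩ C).card) =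
      BE C p (fun N => F N.card) * BE C p (fun N => F' N.card) := by
  have hsub : star 0 C ∪ star 1 C ⊆ En n \ del {0, 1} (En n) := by
    intro e he
    rw [Finset.mem_union, mem_star, mem_star] at he
    rw [Finset.mem_sdiff, mem_del]
    rcases he with ⟨x, hx, rfl⟩ | ⟨x, hx, rfl⟩
    · have hxn := Finset.mem_range.1 (hC hx)
      refine ⟨mk_mem_En.2 ⟨by omega, hxn, fun h => h0 (h ▸ hx)⟩, ?_⟩
      rintro ⟨_, h⟩
      exact h 0 (by simp) (by simp)
    · have hxn := Finset.mem_range.1 (hC hx)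
      refine ⟨mk_mem_En.2 ⟨by omega, hxn, fun h => h1 (h ▸ hx)⟩, ?_⟩
      rintro ⟨_, h⟩
      exact h 1 (by simp) (by simp)
  have hdisj : Disjoint (star 0 C) (star 1 C) := by
    rw [Finset.disjoint_left]
    intro e he1 he2
    rw [mem_star] at he1 he2
    obtain ⟨x, hx, rfl⟩ := he1
    obtain ⟨y, hy, hxy⟩ := he2
    rw [Sym2.eq_iff] at hxy
    rcases hxy with ⟨h, _⟩ | ⟨h, _⟩
    · exact absurd h (by norm_num)
    · exact h1 (h ▸ hx)
  have e1 : BE (En n \ del {0, 1} (En n)) p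
      (fun T => F (nb n T 0 ∩ C).card * F' (nb n T 1 ∩ C).card) =
      BE (En n \ del {0, 1} (En n)) p (fun T => (fun T' : Finset (Sym2 ℕ) =>
        F (nb n T' 0 ∩ C).card * F' (nb n T' 1 ∩ C).card) (T ∩ (star 0 C ∪ star 1 C))) := by
    refine BE_congr (fun T _ => ?_)
    have h2 : nb n (T ∩ (star 0 C ∪ star 1 C)) 0 ∩ C = nb n T 0 ∩ C := by
      ext x
      simp only [Finset.mem_inter, mem_nb, Finset.mem_union, mem_star]
      constructor
      · rintro ⟨⟨h1, h2, h3⟩, h4⟩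
        exact ⟨⟨h1, h2⟩, h4⟩
      · rintro ⟨⟨h1, h2⟩, h4⟩
        exact ⟨⟨h1, h2, Or.inl ⟨x, h4, rfl⟩⟩, h4⟩
    have h3 : nb n (T ∩ (star 0 C ∪ star 1 C)) 1 ∩ C = nb n T 1 ∩ C := by
      ext x
      simp only [Finset.mem_inter, mem_nb, Finset.mem_union, mem_star]
      constructor
      · rintro ⟨⟨h1, h2, h3⟩, h4⟩
        exact ⟨⟨h1, h2⟩, h4⟩
      · rintro ⟨⟨h1, h2⟩, h4⟩
        exact ⟨⟨h1, h2, Or.inr ⟨x, h4, rfl⟩⟩, h4⟩
    simp only [h2, h3]
  rw [e1, BE_inter hsub p (fun T' : Finset (Sym2 ℕ) =>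
        F (nb n T' 0 ∩ C).card * F' (nb n T' 1 ∩ C).card), BE_union hdisj]
  rw [f4_star_image 0 C, f4_star_image 1 C]
  rw [BE_image (fun a b h => Sym2.congr_right.1 h)]
  have e2 : ∀ N0 ⊆ C, BE (C.image (fun u => s(1, u))) p (fun T =>
      F (nb n (N0.image (fun u => s(0, u)) ∪ T) 0 ∩ C).card *
      F' (nb n (N0.image (fun u => s(0, u)) ∪ T) 1 ∩ C).card) =
      F N0.card * BE C p (fun N => F' N.card) := by
    intro N0 hN0
    rw [BE_image (fun a b h => Sym2.congr_right.1 h), ← BE_mul_left]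
    refine BE_congr (fun N1 hN1 => ?_)
    have h2 : nb n (N0.image (fun u => s(0, u)) ∪ N1.image (fun u => s(1, u))) 0 ∩ C = N0 := by
      ext x
      simp only [Finset.mem_inter, mem_nb, Finset.mem_union, Finset.mem_image]
      constructor
      · rintro ⟨⟨_, ⟨a, ha, hax⟩ | ⟨a, ha, hax⟩⟩, _⟩
        · rw [Sym2.congr_right] at hax
          exact hax ▸ ha
        · rw [Sym2.eq_iff] at hax
          rcases hax with ⟨h, _⟩ | ⟨_, h⟩
          · exact absurd h (by norm_num)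
          · exact absurd (hN1 ha) (h ▸ h0)
      · intro hx
        exact ⟨⟨Finset.mem_range.1 (hC (hN0 hx)), Or.inl ⟨x, hx, rfl⟩⟩, hN0 hx⟩
    have h3 : nb n (N0.image (fun u => s(0, u)) ∪ N1.image (fun u => s(1, u))) 1 ∩ C = N1 := by
      ext x
      simp only [Finset.mem_inter, mem_nb, Finset.mem_union, Finset.mem_image]
      constructor
      · rintro ⟨⟨_, ⟨a, ha, hax⟩ | ⟨a, ha, hax⟩⟩, _⟩
        · rw [Sym2.eq_iff] at hax
          rcases hax with ⟨h, _⟩ | ⟨_, h⟩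
          · exact absurd h (by norm_num)
          · exact absurd (hN0 ha) (h ▸ h1)
        · rw [Sym2.congr_right] at hax
          exact hax ▸ ha
      · intro hx
        exact ⟨⟨Finset.mem_range.1 (hC (hN1 hx)), Or.inr ⟨x, hx, rfl⟩⟩, hN1 hx⟩
    rw [h2, h3]
  rw [BE_congr e2, ← BE_mul_right]

theorem f4_Clq_perm {d t : ℕ} (R : Rig d t) (σ : Equiv.Perm ℕ) (G : Finset (Sym2 ℕ))
    (C : Finset ℕ) : R.Clq (G.image (Sym2.map σ)) (C.image σ) ↔ R.Clq G C := by
  unfold Rig.Clq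
  constructor
  · intro h a ha b hb hab
    have := h (σ a) (Finset.mem_image_of_mem _ ha) (σ b) (Finset.mem_image_of_mem _ hb)
      (fun h => hab (σ.injective h))
    rw [← R.Cl_perm σ G]
    exact this
  · intro h a' ha b' hb hab
    obtain ⟨a, ha2, rfl⟩ := Finset.mem_image.1 ha
    obtain ⟨b, hb2, rfl⟩ := Finset.mem_image.1 hb
    have := h a ha2 b hb2 (fun h => hab (h ▸ rfl))
    rw [← R.Cl_perm σ G] at this
    exact this

theorem f4_ind_good (d a b : ℕ) (hd : 2 ≤ d) : ind (F4good d a b) =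
    ind (d ≤ a) * ind (d ≤ b) + ind (d ≤ a) * ind (b = d - 1) + ind (a = d - 1) * ind (d ≤ b) := by
  unfold F4good
  by_cases h1 : d ≤ a <;> by_cases h2 : d ≤ b <;> by_cases h3 : b = d - 1 <;>
    by_cases h4 : a = d - 1 <;> first | (exfalso; omega) | skip
  all_goals
    have h5 : ¬ d ≤ d - 1 := by omega
    simp [ind, h1, h2, h3, h4, h5]

/-- the function compared with -/
noncomputable def f4T (d : ℕ) (c : ℝ) (u : ℝ) : ℝ :=
  hp d (c * u) ^ 2 + 2 * hp d (c * u) * phi (d - 1) (c * u)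

theorem f4T_bd (d : ℕ) {c u : ℝ} (hc : 0 < c) (hu : 0 ≤ u) : 0 ≤ f4T d c u ∧ f4T d c u ≤ 3 := by
  have hcu : 0 ≤ c * u := by positivity
  have h1 := hp_nonneg d hcu
  have h2 := hp_le_one d hcu
  have h3 := phi_nonneg (d - 1) hcu
  have h4 := phi_le_one (d - 1) hcu
  unfold f4T
  constructor
  · positivity
  · nlinarith [mul_le_mul h2 h4 h3 (by norm_num : (0:ℝ) ≤ 1)]

theorem f4T_lip (d : ℕ) {c u v : ℝ} (hc : 0 < c) (hu : 0 ≤ u) (hv : 0 ≤ v) :
    |f4T d c u - f4T d c v| ≤ 8 * c * |u - v| := by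
  have hcu : 0 ≤ c * u := by positivity
  have hcv : 0 ≤ c * v := by positivity
  have h1 := hp_nonneg d hcu
  have h2 := hp_le_one d hcu
  have h3 := phi_nonneg (d - 1) hcu
  have h4 := phi_le_one (d - 1) hcu
  have h1' := hp_nonneg d hcv
  have h2' := hp_le_one d hcv
  have h3' := phi_nonneg (d - 1) hcv
  have h4' := phi_le_one (d - 1) hcv
  have a1 := hp_lip d hcu hcv
  have a2 := phi_lip (d - 1) hcu hcv
  have a3 : |c * u - c * v| = c * |u - v| := by
    rw [← mul_sub, abs_mul, abs_of_pos hc]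
  rw [a3] at a1 a2
  unfold f4T
  have e : hp d (c * u) ^ 2 + 2 * hp d (c * u) * phi (d - 1) (c * u) -
      (hp d (c * v) ^ 2 + 2 * hp d (c * v) * phi (d - 1) (c * v)) =
      (hp d (c * u) - hp d (c * v)) * (hp d (c * u) + hp d (c * v) + 2 * phi (d - 1) (c * u)) +
      2 * hp d (c * v) * (phi (d - 1) (c * u) - phi (d - 1) (c * v)) := by ring
  rw [e]
  have b1 : |(hp d (c * u) - hp d (c * v)) *
      (hp d (c * u) + hp d (c * v) + 2 * phi (d - 1) (c * u))| ≤ c * |u - v| * 4 := by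
    rw [abs_mul, abs_of_nonneg (by positivity : 0 ≤ hp d (c * u) + hp d (c * v) +
      2 * phi (d - 1) (c * u))]
    exact mul_le_mul a1 (by linarith) (by positivity) (by positivity)
  have b2 : |2 * hp d (c * v) * (phi (d - 1) (c * u) - phi (d - 1) (c * v))| ≤
      2 * (2 * (c * |u - v|)) := by
    rw [abs_mul, abs_of_nonneg (by positivity : 0 ≤ 2 * hp d (c * v))]
    exact mul_le_mul (by linarith) a2 (abs_nonneg _) (by norm_num)
  calc _ ≤ |(hp d (c * u) - hp d (c * v)) *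
      (hp d (c * u) + hp d (c * v) + 2 * phi (d - 1) (c * u))| +
      |2 * hp d (c * v) * (phi (d - 1) (c * u) - phi (d - 1) (c * v))| := abs_add_le _ _
    _ ≤ c * |u - v| * 4 + 2 * (2 * (c * |u - v|)) := add_le_add b1 b2
    _ = 8 * c * |u - v| := by ring

/-- the expectation of the good event, given the rest -/
theorem f4_goodE {d t : ℕ} (R : Rig d t) (hd : 2 ≤ d) {c δ : ℝ} (hc : 0 < c) {n : ℕ} (hn : 2 ≤ n)
    (hδ : 2 ≤ δ * n) (hcn : c / n ≤ 1) {ψ : ℝ → ℝ} {M : ℝ} (hM : ∀ a, ψ a ≤ M)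
    (h0 : ∀ a, 0 ≤ ψ a) {η : ℝ} (hη : 0 ≤ η)
    (hge : ∀ M : Finset ℕ, M.card ≤ n →
      |BE M (c / n) (fun N => ind (d ≤ N.card)) - hp d (c * M.card / n)| ≤ η)
    (heq : ∀ M : Finset ℕ, M.card ≤ n →
      |BE M (c / n) (fun N => ind (N.card = d - 1)) - phi (d - 1) (c * M.card / n)| ≤ η) :
    Ex n (c / n) (fun G => ind (F4good d (nb n G 0 ∩ R.Y δ n (del {0, 1} G)).card
      (nb n G 1 ∩ R.Y δ n (del {0, 1} G)).card) * ψ (R.y δ n (del {0, 1} G))) ≤
    Ex n (c / n) (fun G => f4T d c (R.y δ n (del {0, 1} G)) * ψ (R.y δ n (del {0, 1} G))) +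
      6 * η * M := by
  have hcn0 : 0 ≤ c / n := by positivity
  -- reduce to the split form
  have e1 : Ex n (c / n) (fun G => ind (F4good d (nb n G 0 ∩ R.Y δ n (del {0, 1} G)).card
      (nb n G 1 ∩ R.Y δ n (del {0, 1} G)).card) * ψ (R.y δ n (del {0, 1} G))) =
      Ex n (c / n) (fun G => (fun (H T : Finset (Sym2 ℕ)) =>
        ind (F4good d (nb n T 0 ∩ R.Y δ n H).card (nb n T 1 ∩ R.Y δ n H).card) *
          ψ (R.y δ n H)) (del {0, 1} G) (G \ del {0, 1} G)) := by
    refine Ex_congr (fun G _ => ?_)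
    have h2 : ∀ a ∈ ({0, 1} : Finset ℕ), nb n (G \ del {0, 1} G) a = nb n G a := by
      intro a ha
      ext x
      rw [mem_nb, mem_nb, Finset.mem_sdiff, mem_del]
      constructor
      · rintro ⟨h1, h2, _⟩
        exact ⟨h1, h2⟩
      · rintro ⟨h1, h2⟩
        exact ⟨h1, h2, fun h => h.2 a (by simp) ha⟩
    simp only [h2 0 (by simp), h2 1 (by simp)]
  rw [e1, Ex_del_split n {0, 1} (c / n) (fun (H T : Finset (Sym2 ℕ)) =>
        ind (F4good d (nb n T 0 ∩ R.Y δ n H).card (nb n T 1 ∩ R.Y δ n H).card) *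
          ψ (R.y δ n H))]
  have hc6 : (6 * η * M : ℝ) = Ex n (c / n) (fun _ => 6 * η * M) := (Ex_const _).symm
  rw [hc6, ← Ex_add]
  refine Ex_mono hcn0 hcn (fun G _ => ?_)
  set H := del {0, 1} G with hH
  set C := R.Y δ n H with hC
  have hH0 : ∀ e ∈ H, (0 : ℕ) ∉ e := by
    intro e he h
    rw [hH, mem_del] at he
    exact he.2 0 h (by simp)
  have hH1 : ∀ e ∈ H, (1 : ℕ) ∉ e := by
    intro e he h
    rw [hH, mem_del] at he
    exact he.2 1 h (by simp)
  have h0C : (0 : ℕ) ∉ C := R.not_mem_Y_isolated (by omega) hδ hH0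
  have h1C : (1 : ℕ) ∉ C := R.not_mem_Y_isolated (by omega) hδ hH1
  have hCn : C ⊆ range n := R.Y_subset
  have hCc : C.card ≤ n := by
    have := Finset.card_le_card hCn
    rwa [Finset.card_range] at this
  have hB := fun F F' => f4_bin hn (c / n) hCn h0C h1C F F'
  have hy : R.y δ n H = (C.card : ℝ) / n := rfl
  have hy0 : 0 ≤ R.y δ n H := R.y_nonneg
  have hψ0 := h0 (R.y δ n H)
  have hψM := hM (R.y δ n H)
  set a := BE C (c / n) (fun N => ind (d ≤ N.card)) with ha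
  set b := BE C (c / n) (fun N => ind (N.card = d - 1)) with hb
  have e2 : BE (En n \ del {0, 1} (En n)) (c / n) (fun T =>
      ind (F4good d (nb n T 0 ∩ C).card (nb n T 1 ∩ C).card) * ψ (R.y δ n H)) =
      (a * a + a * b + b * a) * ψ (R.y δ n H) := by
    rw [BE_mul_right]
    congr 1
    have : ∀ T ⊆ En n \ del {0, 1} (En n), ind (F4good d (nb n T 0 ∩ C).card
        (nb n T 1 ∩ C).card) =
        ((fun k => ind (d ≤ k)) (nb n T 0 ∩ C).card * (fun k => ind (d ≤ k)) (nb n T 1 ∩ C).card +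
        (fun k => ind (d ≤ k)) (nb n T 0 ∩ C).card *
          (fun k => ind (k = d - 1)) (nb n T 1 ∩ C).card) +
        (fun k => ind (k = d - 1)) (nb n T 0 ∩ C).card *
          (fun k => ind (d ≤ k)) (nb n T 1 ∩ C).card :=
      fun T _ => f4_ind_good d _ _ hd
    rw [BE_congr this, BE_add, BE_add]
    exact congrArg₂ (· + ·) (congrArg₂ (· + ·)
      (hB (fun k => ind (d ≤ k)) (fun k => ind (d ≤ k)))
      (hB (fun k => ind (d ≤ k)) (fun k => ind (k = d - 1))))
      (hB (fun k => ind (k = d - 1)) (fun k => ind (d ≤ k)))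
  rw [e2]
  have hcy : c * R.y δ n H = c * C.card / n := by rw [hy]; ring
  have hcy0 : 0 ≤ c * R.y δ n H := by positivity
  have g1 := hge C hCc
  have g2 := heq C hCc
  rw [← hcy] at g1 g2
  have k1 := hp_nonneg d hcy0
  have k2 := hp_le_one d hcy0
  have k3 := phi_nonneg (d - 1) hcy0
  have k4 := phi_le_one (d - 1) hcy0
  have ha0 : 0 ≤ a := BE_nonneg hcn0 hcn (fun _ _ => ind_nonneg _)
  have hb0 : 0 ≤ b := BE_nonneg hcn0 hcn (fun _ _ => ind_nonneg _)
  have ha1 : a ≤ 1 := by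
    have := BE_mono (E := C) (f := fun N => ind (d ≤ N.card)) (g := fun _ => (1 : ℝ)) hcn0 hcn
      (fun _ _ => ind_le_one _)
    rwa [BE_const] at this
  have hb1 : b ≤ 1 := by
    have := BE_mono (E := C) (f := fun N => ind (N.card = d - 1)) (g := fun _ => (1 : ℝ)) hcn0 hcn
      (fun _ _ => ind_le_one _)
    rwa [BE_const] at this
  rw [abs_le] at g1 g2
  have hmain : a * a + a * b + b * a ≤ f4T d c (R.y δ n H) + 6 * η := by
    unfold f4T
    set h := hp d (c * R.y δ n H)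
    set f := phi (d - 1) (c * R.y δ n H)
    have i1 : a * a ≤ h ^ 2 + 2 * η := by nlinarith [g1.2]
    have i2 : a * b ≤ h * f + 2 * η := by
      have : a * b ≤ h * b + η := by nlinarith [g1.2]
      have : h * b ≤ h * f + η := by nlinarith [g2.2]
      linarith
    nlinarith
  have hη6 : 6 * η * ψ (R.y δ n H) ≤ 6 * η * M := by
    exact mul_le_mul_of_nonneg_left hψM (by positivity)
  calc (a * a + a * b + b * a) * ψ (R.y δ n H) ≤
      (f4T d c (R.y δ n H) + 6 * η) * ψ (R.y δ n H) := mul_le_mul_of_nonneg_right hmain hψ0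
    _ = f4T d c (R.y δ n H) * ψ (R.y δ n H) + 6 * η * ψ (R.y δ n H) := by ring
    _ ≤ _ := by linarith

/-- the bad event -/
def F4bad {d t : ℕ} (R : Rig d t) (δ : ℝ) (n : ℕ) (G : Finset (Sym2 ℕ)) : Prop :=
  (δ ≤ R.y δ n (insert s(0, 1) G) - R.y δ n (del {0, 1} G)) ∨ R.FIbad δ n {0, 1} G ∨
    ¬ R.Clq (insert s(0, 1) G) (R.Y δ n (insert s(0, 1) G)) ∨
    ¬ R.Clq (del {0, 1} G) (R.Y δ n (del {0, 1} G))

theorem f4_diff {d t : ℕ} (R : Rig d t) {c : ℝ} (hc : 0 < c) (δ : ℝ) :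
    Van c (fun n G => R.y δ n (insert s(0, 1) G) - R.y δ n (del {0, 1} G)) := by
  have h1 := R.T4 hc δ {0, 1}
  have h2 := R.T4e hc δ
  unfold Van at *
  have h3 := h1.add h2
  rw [add_zero] at h3
  refine squeeze_zero' ?_ ?_ h3
  · filter_upwards [cn_eventually hc] with n hn
    exact Ex_nonneg hn.1.le (by linarith [hn.2]) (fun G _ => by
      have := R.y_mono (δ := δ) (n := n) ((del_subset {0, 1} G).trans
        (Finset.subset_insert s(0, 1) G))
      linarith)
  · filter_upwards [cn_eventually hc] with n hn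
    rw [← Ex_add]
    exact Ex_mono hn.1.le (by linarith [hn.2]) (fun G _ => by
      have := R.y_mono (δ := δ) (n := n) (Finset.erase_subset s(0, 1) G)
      linarith)

theorem f4_bad {d t : ℕ} (R : Rig d t) {c δ : ℝ} (hS : Std R c δ) :
    Neg c (fun n G => F4bad R δ n G) := by
  have hc := hS.hc
  have h1 : Neg c (fun n G => δ ≤ R.y δ n (insert s(0, 1) G) - R.y δ n (del {0, 1} G)) := by
    have h := (f4_diff R hc δ).div_const δ
    rw [zero_div] at h
    refine Neg_of_le hc h ?_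
    filter_upwards [cn_eventually hc] with n hn
    unfold Pr
    have hdiv : Ex n (c / n) (fun G => R.y δ n (insert s(0, 1) G) - R.y δ n (del {0, 1} G)) / δ =
        Ex n (c / n) (fun G =>
          (R.y δ n (insert s(0, 1) G) - R.y δ n (del {0, 1} G)) * (1 / δ)) := by
      rw [Ex_mul_right, mul_one_div]
    show _ ≤ Ex n (c / n) (fun G => R.y δ n (insert s(0, 1) G) - R.y δ n (del {0, 1} G)) / δ
    rw [hdiv]
    refine Ex_mono hn.1.le (by linarith [hn.2]) (fun G _ => ?_)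
    have h0 : 0 ≤ R.y δ n (insert s(0, 1) G) - R.y δ n (del {0, 1} G) := by
      have := R.y_mono (δ := δ) (n := n) ((del_subset {0, 1} G).trans
        (Finset.subset_insert s(0, 1) G))
      linarith
    by_cases hP : δ ≤ R.y δ n (insert s(0, 1) G) - R.y δ n (del {0, 1} G)
    · rw [ind_true hP, mul_one_div, le_div_iff₀ hS.hδ, one_mul]
      exact hP
    · rw [ind_false hP]
      exact mul_nonneg h0 (by have := hS.hδ; positivity)
  have h2 := R.FI hS {0, 1}
  have h3 : Neg c (fun n G => ¬ R.Clq (insert s(0, 1) G) (R.Y δ n (insert s(0, 1) G))) := by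
    refine Neg_insert hc (B := fun n G => ¬ R.Clq G (R.Y δ n G)) (R.Y_clq hc hS.hδ) ?_
    intro n σ hσ G
    show (¬ R.Clq (G.image (Sym2.map σ)) (R.Y δ n (G.image (Sym2.map σ)))) ↔ _
    rw [R.Y_perm δ n σ hσ, f4_Clq_perm]
  have h4 : Neg c (fun n G => ¬ R.Clq (del {0, 1} G) (R.Y δ n (del {0, 1} G))) :=
    Neg_del hc (B := fun n G => ¬ R.Clq G (R.Y δ n G)) (R.Y_clq hc hS.hδ) {0, 1}
  exact Neg_or hc h1 (Neg_or hc h2 (Neg_or hc h3 h4))

/-- C3 (hint): `Ex_mecke_insert`, `Ex_edge_eq`: the left side equals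
`(c/2)(1-1/n) E[1_{0,1 ∈ Y(G+01)} ψ(y(G+01))]`. With `G'' = del {0,1} G`, `Y'' = Y(G'')`: whp
`y(G+01) - y(G'') ` is small (T4, T4e), `¬ FIbad {0,1}`, and `Y(G+01)`, `Y''` are cliques
(`Neg_insert`, `Neg_del`, `Y_clq`). If `0,1 ∈ Y(G+01)` and `Y''` nonempty then by `alpha_two` the
numbers `j_a = |nb n G a ∩ Y''|` satisfy: both at least `d`, or one at least `d` and the other `d-1`.
Given `G''` they are independent binomials: `poisson_ge`, `poisson_eq`. Here
`outE {0,1} Y'' G = star 0 Q_0 ∪ star 1 Q_1`. -/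
theorem Rig.C3 {d t : ℕ} (R : Rig d t) {c δ : ℝ} (hS : Std R c δ) {ψ : ℝ → ℝ} {L M : ℝ}
    (hL : ∀ a b, |ψ a - ψ b| ≤ L * |a - b|) (hM : ∀ a, ψ a ≤ M) (h0 : ∀ a, 0 ≤ ψ a) {ε : ℝ}
    (hε : 0 < ε) : ∀ᶠ n : ℕ in atTop,
      Ex n (c / n) (fun G => ((ins (R.Y δ n G) G).card : ℝ) / n * ψ (R.y δ n G)) ≤
      Ex n (c / n) (fun G => c / 2 * (hp d (c * R.y δ n G) ^ 2 +
        2 * hp d (c * R.y δ n G) * phi (d - 1) (c * R.y δ n G)) * ψ (R.y δ n G)) + ε := by
  have hc := hS.hc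
  have hd := hS.hd
  have hδ := hS.hδ
  have hM0 : 0 ≤ M := (h0 0).trans (hM 0)
  have hL0 : 0 ≤ L := by
    have := (abs_nonneg _).trans (hL 0 1)
    simpa using this
  -- the small quantities
  have hdiff := f4_diff R hc δ
  have hdiff2 := R.T4 hc δ {0, 1}
  have hbad := f4_bad R hS
  unfold Van at hdiff hdiff2
  unfold Neg at hbad
  set η : ℝ := ε / (c / 2 * (12 * (M + 1))) with hη
  have hη0 : 0 < η := by positivity
  have hlim : Tendsto (fun n : ℕ => c / 2 * (M * Pr n (c / n) (F4bad R δ n) +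
      L * Ex n (c / n) (fun G => R.y δ n (insert s(0, 1) G) - R.y δ n (del {0, 1} G)) +
      (8 * c * M + 3 * L) * Ex n (c / n) (fun G => R.y δ n G - R.y δ n (del {0, 1} G))))
      atTop (𝓝 (c / 2 * (M * 0 + L * 0 + (8 * c * M + 3 * L) * 0))) :=
    (((hbad.const_mul M).add (hdiff.const_mul L)).add
      (hdiff2.const_mul (8 * c * M + 3 * L))).const_mul (c / 2)
  have hzero : c / 2 * (M * 0 + L * 0 + (8 * c * M + 3 * L) * 0) = 0 := by ring
  rw [hzero] at hlim
  have hsmall := hlim.eventually (gt_mem_nhds (show (0 : ℝ) < ε / 2 by positivity))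
  obtain ⟨N1, hN1⟩ := exists_nat_ge (2 / δ)
  obtain ⟨N2, hN2⟩ := exists_nat_ge ((d : ℝ) / δ)
  filter_upwards [hsmall, cn_eventually hc, poisson_ge hc d η hη0, poisson_eq hc (d - 1) η hη0,
    eventually_ge_atTop N1, eventually_ge_atTop N2, eventually_ge_atTop 2]
    with n hsm hcn hge heq hn1 hn2 hn
  have hcn1 : c / n ≤ 1 := by linarith [hcn.2]
  have hδn : 2 ≤ δ * n := by
    have : 2 / δ ≤ (n : ℝ) := hN1.trans (by exact_mod_cast hn1)
    rw [div_le_iff₀ hδ] at this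
    linarith
  have hδd : (d : ℝ) ≤ δ * n := by
    have : (d : ℝ) / δ ≤ (n : ℝ) := hN2.trans (by exact_mod_cast hn2)
    rw [div_le_iff₀ hδ] at this
    linarith
  -- pointwise bound
  have hpt : ∀ G ⊆ En n, ind ((s(0, 1) : Sym2 ℕ).toFinset ⊆ R.Y δ n (insert s(0, 1) G)) *
        ψ (R.y δ n (insert s(0, 1) G)) ≤
      (M * ind (F4bad R δ n G) +
      L * (R.y δ n (insert s(0, 1) G) - R.y δ n (del {0, 1} G))) +
      ind (F4good d (nb n G 0 ∩ R.Y δ n (del {0, 1} G)).card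
        (nb n G 1 ∩ R.Y δ n (del {0, 1} G)).card) * ψ (R.y δ n (del {0, 1} G)) := by
    intro G hG
    have hdm : 0 ≤ R.y δ n (insert s(0, 1) G) - R.y δ n (del {0, 1} G) := by
      have := R.y_mono (δ := δ) (n := n) ((del_subset {0, 1} G).trans
        (Finset.subset_insert s(0, 1) G))
      linarith
    have hb1 := ind_nonneg (F4bad R δ n G)
    have hg1 := ind_nonneg (F4good d (nb n G 0 ∩ R.Y δ n (del {0, 1} G)).card
        (nb n G 1 ∩ R.Y δ n (del {0, 1} G)).card)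
    have hψ1 := h0 (R.y δ n (del {0, 1} G))
    by_cases h01 : (s(0, 1) : Sym2 ℕ).toFinset ⊆ R.Y δ n (insert s(0, 1) G)
    · rw [ind_true h01, one_mul]
      by_cases hB : F4bad R δ n G
      · rw [ind_true hB]
        have := hM (R.y δ n (insert s(0, 1) G))
        have h5 := mul_nonneg hL0 hdm
        have h6 := mul_nonneg hg1 hψ1
        linarith
      · have hB' := hB
        unfold F4bad at hB'
        push Not at hB'
        obtain ⟨b1, b2, b3, b4⟩ := hB'
        have hne : (R.Y δ n (del {0, 1} G)).Nonempty := by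
          by_contra hcon
          rw [Finset.not_nonempty_iff_eq_empty] at hcon
          have hy0 : R.y δ n (del {0, 1} G) = 0 := by
            unfold Rig.y
            rw [hcon]
            simp
          have hY1 : (R.Y δ n (insert s(0, 1) G)).Nonempty := ⟨0, h01 (by simp)⟩
          have h7 := R.Y_card hY1
          have hnpos : (0 : ℝ) < n := by
            have : (2 : ℝ) ≤ n := by exact_mod_cast hn
            linarith
          have h8 : δ ≤ R.y δ n (insert s(0, 1) G) := by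
            unfold Rig.y
            rw [le_div_iff₀ hnpos]
            exact h7
          rw [hy0] at b1
          linarith
        have hgood := f4_good R hd hδn hδd hG h01 hne b2 b3 b4
        rw [ind_true hgood, one_mul]
        have h5 := hL (R.y δ n (insert s(0, 1) G)) (R.y δ n (del {0, 1} G))
        rw [abs_of_nonneg hdm] at h5
        have h6 := le_of_abs_le h5
        have h7 := mul_nonneg hM0 hb1
        linarith
    · rw [ind_false h01, zero_mul]
      have h5 := mul_nonneg hL0 hdm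
      have h6 := mul_nonneg hg1 hψ1
      have h7 := mul_nonneg hM0 hb1
      linarith
  have s1 := f4_lhs R (δ := δ) hc hn hcn1 h0
  have s2 := Ex_mono hcn.1.le hcn1 hpt
  rw [Ex_add, Ex_add, Ex_mul_left, Ex_mul_left] at s2
  have s3 := f4_goodE R hd (δ := δ) hc hn hδn hcn1 hM h0 hη0.le hge heq
  have s4 : Ex n (c / n) (fun G => f4T d c (R.y δ n (del {0, 1} G)) *
      ψ (R.y δ n (del {0, 1} G))) ≤
      Ex n (c / n) (fun G => f4T d c (R.y δ n G) * ψ (R.y δ n G)) +
      (8 * c * M + 3 * L) * Ex n (c / n) (fun G => R.y δ n G - R.y δ n (del {0, 1} G)) := by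
    rw [← Ex_mul_left, ← Ex_add]
    refine Ex_mono hcn.1.le hcn1 (fun G _ => ?_)
    set u := R.y δ n (del {0, 1} G)
    set v := R.y δ n G
    have huv : u ≤ v := R.y_mono (del_subset _ _)
    have hu0 : 0 ≤ u := R.y_nonneg
    have hv0 : 0 ≤ v := R.y_nonneg
    have t1 := le_of_abs_le (f4T_lip d hc hu0 hv0)
    have t2 := le_of_abs_le (hL u v)
    have t3 := f4T_bd d hc hu0
    have t4 := f4T_bd d hc hv0
    have habs : |u - v| = v - u := by rw [abs_sub_comm, abs_of_nonneg (by linarith)]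
    rw [habs] at t1 t2
    have huv0 : 0 ≤ v - u := by linarith
    have k1 : (f4T d c u - f4T d c v) * ψ u ≤ 8 * c * (v - u) * M := by
      calc (f4T d c u - f4T d c v) * ψ u ≤ (8 * c * (v - u)) * ψ u :=
            mul_le_mul_of_nonneg_right t1 (h0 u)
        _ ≤ (8 * c * (v - u)) * M := mul_le_mul_of_nonneg_left (hM u) (by positivity)
    have k2 : f4T d c v * (ψ u - ψ v) ≤ 3 * (L * (v - u)) := by
      calc f4T d c v * (ψ u - ψ v) ≤ f4T d c v * (L * (v - u)) :=
            mul_le_mul_of_nonneg_left t2 t4.1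
        _ ≤ 3 * (L * (v - u)) := mul_le_mul_of_nonneg_right t4.2 (by positivity)
    nlinarith
  have s5 : Ex n (c / n) (fun G => c / 2 * (hp d (c * R.y δ n G) ^ 2 +
        2 * hp d (c * R.y δ n G) * phi (d - 1) (c * R.y δ n G)) * ψ (R.y δ n G)) =
      c / 2 * Ex n (c / n) (fun G => f4T d c (R.y δ n G) * ψ (R.y δ n G)) := by
    rw [← Ex_mul_left]
    refine Ex_congr (fun G _ => ?_)
    unfold f4T
    ring
  rw [s5]
  have hηM : c / 2 * (6 * η * M) ≤ ε / 2 := by
    rw [hη]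
    have : c / 2 * (6 * (ε / (c / 2 * (12 * (M + 1)))) * M) = ε / 2 * (M / (M + 1)) := by
      field_simp
      ring
    rw [this]
    have h9 : M / (M + 1) ≤ 1 := by
      rw [div_le_one (by linarith)]
      linarith
    have : ε / 2 * (M / (M + 1)) ≤ ε / 2 * 1 := mul_le_mul_of_nonneg_left h9 (by linarith)
    linarith
  unfold Pr at hsm
  set X1 := Ex n (c / n) (fun G => ind (F4bad R δ n G))
  set X2 := Ex n (c / n) (fun G => R.y δ n (insert s(0, 1) G) - R.y δ n (del {0, 1} G))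
  set X3 := Ex n (c / n) (fun G => R.y δ n G - R.y δ n (del {0, 1} G))
  set X4 := Ex n (c / n) (fun G => f4T d c (R.y δ n G) * ψ (R.y δ n G))
  have hc2 : 0 ≤ c / 2 := by positivity
  have s6 : Ex n (c / n) (fun G => ind ((s(0, 1) : Sym2 ℕ).toFinset ⊆
      R.Y δ n (insert s(0, 1) G)) * ψ (R.y δ n (insert s(0, 1) G))) ≤
      (M * X1 + L * X2 + (8 * c * M + 3 * L) * X3) + X4 + 6 * η * M := by
    linarith
  have s7 := mul_le_mul_of_nonneg_left s6 hc2
  have s8 : c / 2 * ((M * X1 + L * X2 + (8 * c * M + 3 * L) * X3) + X4 + 6 * η * M) =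
      c / 2 * (M * X1 + L * X2 + (8 * c * M + 3 * L) * X3) + c / 2 * X4 +
        c / 2 * (6 * η * M) := by ring
  linarith

end Pool.Agent.Helper55.ML
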