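import Pool.Agent.Helper55.ML.M3

set_option autoImplicit false
open Finset Filter Topology

namespace Pool.Agent.Helper55.ML

/-- M10 (direct sums; hint). `G = H ∪ ⋃ star q (J q) ∪ ⋃ star q (U q)`. By `hind` and `r_Kb`,
`r(H ∪ Kb Q C ∪ ⋃ star q (U q)) = r(H) + d|Q| + ∑|U q|`, and `r(G) ≤ r(H) + ∑|J q| + ∑|U q|`, so
`r(G ∪ Kb Q C') - r(G) ≥ ∑ (d - |J q|)`; for a single `q` the closure of `G` contains `C'` as a
clique and `J q ⊆ C'` is already joined, so `r(G ∪ star q C') - r(G) ≤ d - |J q|`. -/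
theorem Rig.direct_sum {d t : ℕ} (R : Rig d t) {H : Finset (Sym2 ℕ)} {Q C C' : Finset ℕ}
    {J U : ℕ → Finset ℕ} (hQ : ∀ e ∈ H, ∀ q ∈ Q, q ∉ e) (hQC : Disjoint Q C)
    (hQC' : Disjoint Q C') (hCC' : C ⊆ C') (hC : R.Clq H C) (hdC : d ≤ C.card)
    (hJ : ∀ q ∈ Q, J q ⊆ C) (hJd : ∀ q ∈ Q, (J q).card ≤ d)
    (hC' : R.Clq (H ∪ Q.biUnion (fun q => star q (J q)) ∪ Q.biUnion (fun q => star q (U q))) C')
    (hind : R.r (H ∪ Kb Q C ∪ Q.biUnion (fun q => star q (U q))) =
      R.r (H ∪ Kb Q C) + ∑ q ∈ Q, (U q).card) :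
    (∑ q ∈ Q, (R.r (H ∪ Q.biUnion (fun q => star q (J q)) ∪ Q.biUnion (fun q => star q (U q)) ∪
        star q C') - R.r (H ∪ Q.biUnion (fun q => star q (J q)) ∪
          Q.biUnion (fun q => star q (U q))))) +
      R.r (H ∪ Q.biUnion (fun q => star q (J q)) ∪ Q.biUnion (fun q => star q (U q))) ≤
    R.r (H ∪ Q.biUnion (fun q => star q (J q)) ∪ Q.biUnion (fun q => star q (U q)) ∪ Kb Q C') := by
  classical
  set G : Finset (Sym2 ℕ) :=
    H ∪ Q.biUnion (fun q => star q (J q)) ∪ Q.biUnion (fun q => star q (U q)) with hG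
  have hJG : ∀ q ∈ Q, star q (J q) ⊆ G := by
    intro q hq e he
    rw [hG]
    exact Finset.mem_union_left _ (Finset.mem_union_right _ (Finset.mem_biUnion.2 ⟨q, hq, he⟩))
  -- step 3
  have h3 : ∀ q ∈ Q, R.r (G ∪ star q C') - R.r G ≤ d - (J q).card := by
    intro q hq
    obtain ⟨N, hJN, hNC, hN⟩ := Finset.exists_subsuperset_card_eq (hJ q hq) (hJd q hq) hdC
    have hqC' : q ∉ C' := Finset.disjoint_left.1 hQC' hq
    have h1 : R.r (G ∪ star q N ∪ star q C') = R.r (G ∪ star q N) := by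
      apply R.r_union_of_Cl
      intro f hf
      obtain ⟨u, hu, rfl⟩ := mem_star.1 hf
      exact R.Cl_star hC' (hNC.trans hCC') hN.ge hqC' hu
    have h2 : R.r (G ∪ star q C') ≤ R.r (G ∪ star q N ∪ star q C') := by
      apply R.r_mono
      intro e he
      rcases Finset.mem_union.1 he with he | he
      · exact Finset.mem_union_left _ (Finset.mem_union_left _ he)
      · exact Finset.mem_union_right _ he
    have h4 : G ∪ star q N ⊆ G ∪ star q (N \ J q) := by
      intro e he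
      rcases Finset.mem_union.1 he with he | he
      · exact Finset.mem_union_left _ he
      · obtain ⟨u, hu, rfl⟩ := mem_star.1 he
        by_cases huJ : u ∈ J q
        · exact Finset.mem_union_left _ (hJG q hq (mem_star.2 ⟨u, huJ, rfl⟩))
        · exact Finset.mem_union_right _ (mem_star.2 ⟨u, Finset.mem_sdiff.2 ⟨hu, huJ⟩, rfl⟩)
    have h5 : R.r (G ∪ star q (N \ J q)) ≤ R.r G + (N \ J q).card :=
      (R.r_union_le _ _).trans (Nat.add_le_add_left Finset.card_image_le _)
    have h6 := R.r_mono h4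
    rw [Finset.card_sdiff_of_subset hJN, hN] at h5
    omega
  have h3s := Finset.sum_le_sum h3
  -- step 1
  have hcard : ∀ V : ℕ → Finset ℕ, (Q.biUnion (fun q => star q (V q))).card ≤ ∑ q ∈ Q, (V q).card :=
    fun V => Finset.card_biUnion_le.trans (Finset.sum_le_sum fun q _ => Finset.card_image_le)
  have h1 : R.r G ≤ R.r H + ∑ q ∈ Q, (J q).card + ∑ q ∈ Q, (U q).card := by
    have a := R.r_union_le (H ∪ Q.biUnion (fun q => star q (J q))) (Q.biUnion (fun q => star q (U q)))
    have b := R.r_union_le H (Q.biUnion (fun q => star q (J q)))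
    have c1 := hcard J
    have c2 := hcard U
    rw [hG]
    omega
  -- step 2
  have h2 : R.r H + d * Q.card + ∑ q ∈ Q, (U q).card ≤ R.r (G ∪ Kb Q C') := by
    rw [← R.r_Kb hQ hQC hC hdC, ← hind]
    apply R.r_mono
    intro e he
    rcases Finset.mem_union.1 he with he | he
    · rcases Finset.mem_union.1 he with he | he
      · exact Finset.mem_union_left _ (Finset.mem_union_left _ (Finset.mem_union_left _ he))
      · obtain ⟨a, ha, b, hb, rfl⟩ := mem_Kb.1 he
        exact Finset.mem_union_right _ (mem_Kb.2 ⟨a, ha, b, hCC' hb, rfl⟩)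
    · exact Finset.mem_union_left _ (Finset.mem_union_right _ he)
  have h7 : ∑ q ∈ Q, (d - (J q).card) + ∑ q ∈ Q, (J q).card = d * Q.card := by
    rw [← Finset.sum_add_distrib, Finset.sum_congr rfl (fun q hq => Nat.sub_add_cancel (hJd q hq)),
      Finset.sum_const, smul_eq_mul, mul_comm]
  omega

end Pool.Agent.Helper55.ML
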