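import Pool.Agent.Helper55.ML.F1
import Pool.Agent.Helper55.ML.M10
import Pool.Agent.Helper55.ML.M15

set_option autoImplicit false
open Finset Filter Topology

namespace Pool.Agent.Helper55.ML

private theorem f5_markov {c : ℝ} (hc : 0 < c) {f : ℕ → Finset (Sym2 ℕ) → ℝ}
    (hf0 : ∀ n G, 0 ≤ f n G) (hf : Van c f) {τ : ℝ} (hτ : 0 < τ) :
    Neg c (fun n G => τ ≤ f n G) := by
  unfold Van at hf
  have h1 : Tendsto (fun n : ℕ => Ex n (c / n) (f n) * τ⁻¹) atTop (𝓝 0) := by
    have := hf.mul_const τ⁻¹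
    rwa [zero_mul] at this
  refine Neg_of_le hc h1 ?_
  filter_upwards [cn_eventually hc] with n hn
  unfold Pr
  rw [← Ex_mul_right]
  refine Ex_mono hn.1.le (by linarith [hn.2]) (fun G _ => ?_)
  by_cases h : τ ≤ f n G
  · rw [ind_true h, ← div_eq_mul_inv, le_div_iff₀ hτ, one_mul]
    exact h
  · rw [ind_false h]
    exact mul_nonneg (hf0 n G) (inv_nonneg.2 hτ.le)

private theorem f5_edge {c : ℝ} (hc : 0 < c) (A : Finset ℕ) :
    Neg c (fun _ G => ∃ e ∈ G, e.toFinset ⊆ A) := by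
  classical
  have h1 : Tendsto (fun n : ℕ => (A.sym2.card : ℝ) * (c / n)) atTop (𝓝 0) := by
    have h2 : Tendsto (fun n : ℕ => c / (n : ℝ)) atTop (𝓝 0) :=
      tendsto_const_div_atTop_nhds_zero_nat c
    have := h2.const_mul (A.sym2.card : ℝ)
    rwa [mul_zero] at this
  refine Neg_of_le hc h1 ?_
  filter_upwards [cn_eventually hc] with n hn
  obtain ⟨F, hF⟩ : ∃ F : Finset (Sym2 ℕ), F = A.sym2.filter (fun e => e ∈ En n) := ⟨_, rfl⟩
  have h2 : Pr n (c / n) (fun G => ∃ e ∈ G, e.toFinset ⊆ A) ≤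
      Ex n (c / n) (fun G => ∑ e ∈ F, ind ({e} ⊆ G)) := by
    refine Ex_mono hn.1.le (by linarith [hn.2]) (fun G hG => ?_)
    have hnn : ∀ e ∈ F, 0 ≤ ind ({e} ⊆ G) := fun _ _ => ind_nonneg _
    by_cases h : ∃ e ∈ G, e.toFinset ⊆ A
    · obtain ⟨e, he, heA⟩ := h
      have heF : e ∈ F := by
        rw [hF, Finset.mem_filter, Finset.mem_sym2_iff]
        refine ⟨fun x hx => heA ?_, hG he⟩
        rw [Sym2.mem_toFinset]
        exact hx
      rw [ind_true ⟨e, he, heA⟩]
      have h3 := Finset.single_le_sum hnn heF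
      rw [ind_true (Finset.singleton_subset_iff.2 he)] at h3
      exact h3
    · rw [ind_false h]
      exact Finset.sum_nonneg hnn
  refine h2.trans ?_
  rw [Ex_sum]
  have h3 : ∀ e ∈ F, Ex n (c / n) (fun G => ind ({e} ⊆ G)) = c / n := by
    intro e he
    have heE : e ∈ En n := by
      rw [hF] at he
      exact (Finset.mem_filter.1 he).2
    have := BE_subset (Finset.singleton_subset_iff.2 heE) (c / n)
    rw [Finset.card_singleton, pow_one] at this
    exact this
  rw [Finset.sum_congr rfl h3, Finset.sum_const, nsmul_eq_mul]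
  have h4 : (F.card : ℝ) ≤ A.sym2.card := by
    rw [hF]
    exact_mod_cast Finset.card_filter_le _ _
  exact mul_le_mul_of_nonneg_right h4 hn.1.le

private theorem f5_det {d t : ℕ} (R : Rig d t) {δ : ℝ} {n : ℕ} {A : Finset ℕ}
    {G : Finset (Sym2 ℕ)} (hG : G ⊆ En n) (hAn : A ⊆ range n) (hdn : (d : ℝ) ≤ δ * n)
    (h1 : ¬ ∃ e ∈ G, e.toFinset ⊆ A) (h2 : ¬ R.FIbad δ n A G)
    (h3 : (R.Y δ n (del A G)).Nonempty)
    (h4 : R.Clq G (R.Y δ n G)) (h5 : R.Clq (del A G) (R.Y δ n (del A G))) :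
    ¬ R.DS0bad δ n A G := by
  classical
  rintro ⟨hne, hdisj, hlt⟩
  obtain ⟨C, hCdef⟩ : ∃ C, C = R.Y δ n (del A G) := ⟨_, rfl⟩
  obtain ⟨C', hC'def⟩ : ∃ C', C' = R.Y δ n G := ⟨_, rfl⟩
  have hCC' : C ⊆ C' := by
    rw [hCdef, hC'def]
    exact R.Y_mono (del_subset A G)
  rw [← hC'def] at hdisj
  have hQC : Disjoint A C := Finset.disjoint_of_subset_right hCC' hdisj
  obtain ⟨J, hJdef⟩ : ∃ J : ℕ → Finset ℕ, J = fun q => nb n G q ∩ C := ⟨_, rfl⟩
  obtain ⟨U, hUdef⟩ : ∃ U : ℕ → Finset ℕ, U = fun q => nb n G q \ C := ⟨_, rfl⟩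
  have hout : ∀ a u, a ∈ A → s(a, u) ∈ G → u ∉ A := by
    intro a u ha hau huA
    refine h1 ⟨s(a, u), hau, fun x hx => ?_⟩
    rw [Sym2.mem_toFinset, Sym2.mem_iff] at hx
    rcases hx with rfl | rfl
    · exact ha
    · exact huA
  -- the edges at `A` outside `A ∪ C`
  have hE : outE A C G = A.biUnion (fun q => star q (U q)) := by
    ext e
    rw [mem_outE, Finset.mem_biUnion]
    constructor
    · rintro ⟨heG, ⟨a, haA, hae⟩, x, hxe, hxA, hxC⟩
      obtain ⟨u, rfl⟩ := Sym2.mem_iff_exists.1 hae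
      have hxu : x = u := by
        rcases Sym2.mem_iff.1 hxe with h | h
        · exact absurd (h ▸ haA) hxA
        · exact h
      subst hxu
      refine ⟨a, haA, mem_star.2 ⟨x, ?_, rfl⟩⟩
      rw [hUdef]
      exact Finset.mem_sdiff.2 ⟨mem_nb.2 ⟨(mk_mem_En.1 (hG heG)).2.1, heG⟩, hxC⟩
    · rintro ⟨a, haA, he⟩
      obtain ⟨u, hu, rfl⟩ := mem_star.1 he
      rw [hUdef] at hu
      obtain ⟨hu1, hu2⟩ := Finset.mem_sdiff.1 hu
      have heG := (mem_nb.1 hu1).2
      exact ⟨heG, ⟨a, haA, by simp⟩, u, by simp, hout a u haA heG, hu2⟩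
  have hEcard : (outE A C G).card = ∑ q ∈ A, (U q).card := by
    rw [hE, Finset.card_biUnion]
    · refine Finset.sum_congr rfl (fun q _ => ?_)
      unfold star
      refine Finset.card_image_of_injective _ (fun a b hab => ?_)
      have h : a = b ∨ q = b ∧ a = q := by simpa using hab
      rcases h with h | ⟨h1, h2⟩
      · exact h
      · exact h2.trans h1
    · intro q hq q' hq' hqq'
      change Disjoint (star q (U q)) (star q' (U q'))
      rw [Finset.disjoint_left]
      intro e he he'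
      obtain ⟨u, hu, rfl⟩ := mem_star.1 he
      obtain ⟨u', hu', he''⟩ := mem_star.1 he'
      rw [hUdef] at hu hu'
      have hu1 := (mem_nb.1 (Finset.mem_sdiff.1 hu).1).2
      rcases Sym2.eq_iff.1 he'' with ⟨h, _⟩ | ⟨h, h'⟩
      · exact hqq' h.symm
      · exact hout q u hq hu1 (h ▸ hq')
  have hGeq : G = del A G ∪ A.biUnion (fun q => star q (J q)) ∪
      A.biUnion (fun q => star q (U q)) := by
    ext e
    rw [Finset.mem_union, Finset.mem_union, mem_del, Finset.mem_biUnion, Finset.mem_biUnion]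
    constructor
    · intro he
      by_cases hA : ∃ a ∈ A, a ∈ e
      · obtain ⟨a, haA, hae⟩ := hA
        obtain ⟨u, rfl⟩ := Sym2.mem_iff_exists.1 hae
        have hu : u ∈ nb n G a := mem_nb.2 ⟨(mk_mem_En.1 (hG he)).2.1, he⟩
        by_cases huC : u ∈ C
        · refine Or.inl (Or.inr ⟨a, haA, mem_star.2 ⟨u, ?_, rfl⟩⟩)
          rw [hJdef]
          exact Finset.mem_inter.2 ⟨hu, huC⟩
        · refine Or.inr ⟨a, haA, mem_star.2 ⟨u, ?_, rfl⟩⟩
          rw [hUdef]
          exact Finset.mem_sdiff.2 ⟨hu, huC⟩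
      · refine Or.inl (Or.inl ⟨he, fun x hx hxA => hA ⟨x, hxA, hx⟩⟩)
    · rintro ((h | ⟨a, _, h⟩) | ⟨a, _, h⟩)
      · exact h.1
      · obtain ⟨u, hu, rfl⟩ := mem_star.1 h
        rw [hJdef] at hu
        exact (mem_nb.1 (Finset.mem_inter.1 hu).1).2
      · obtain ⟨u, hu, rfl⟩ := mem_star.1 h
        rw [hUdef] at hu
        exact (mem_nb.1 (Finset.mem_sdiff.1 hu).1).2
  have hdC : d ≤ C.card := by
    have h6 := R.Y_card h3
    rw [← hCdef] at h6
    have h7 : (d : ℝ) ≤ (C.card : ℝ) := hdn.trans h6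
    exact_mod_cast h7
  have hJd : ∀ q ∈ A, (J q).card ≤ d := by
    intro q hq
    by_contra hcon
    push Not at hcon
    have hqY : q ∈ R.Y δ n G := by
      refine R.mem_Y_of_join h4 hne (Finset.mem_range.1 (hAn hq)) (N := J q) ?_ hcon.le ?_
      · rw [← hC'def]
        refine subset_trans ?_ hCC'
        rw [hJdef]
        exact Finset.inter_subset_right
      · intro u hu _
        rw [hJdef] at hu
        exact R.Cl_of_mem (mem_nb.1 (Finset.mem_inter.1 hu).1).2
    rw [← hC'def] at hqY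
    exact Finset.disjoint_left.1 hdisj hq hqY
  have hind : R.r (del A G ∪ Kb A C ∪ A.biUnion (fun q => star q (U q))) =
      R.r (del A G ∪ Kb A C) + ∑ q ∈ A, (U q).card := by
    rw [← hE, ← hEcard]
    refine le_antisymm (R.r_union_le _ _) ?_
    by_contra hcon
    push Not at hcon
    refine h2 ⟨h3, ?_⟩
    rw [← hCdef]
    exact hcon
  have key := R.direct_sum (H := del A G) (Q := A) (C := C) (C' := C') (J := J) (U := U)
    (fun e he q hq hqe => (mem_del.1 he).2 q hqe hq) hQC hdisj hCC'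
    (by rw [hCdef]; exact h5) hdC
    (by intro q _; rw [hJdef]; exact Finset.inter_subset_right) hJd
    (by rw [← hGeq, hC'def]; exact h4) hind
  rw [← hGeq] at key
  rw [← hC'def] at hlt
  omega

/-- DS0 (hint): see C6 (DS) of `/team-store/ML_proof.md`. `A` fixed; `G° = del A G`. Exclude (all
negligible): an edge of `G` inside `A`; `FIbad A`; `Y(G°)` empty but `Y(G)` not (T4); `Y(G)`,
`Y(G°)` not cliques. Vertices of `A` outside `Y(G)` have at most `d-1` neighbours in `Y(G°)`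
(`mem_Y_of_join`). Then `direct_sum` with `H = G°`, `C = Y(G°)`, `C' = Y(G)`. -/
theorem Rig.DS0 {d t : ℕ} (R : Rig d t) {c δ : ℝ} (hS : Std R c δ) (A : Finset ℕ) :
    Neg c (fun n G => R.DS0bad δ n A G) := by
  have hc := hS.hc
  have hδ := hS.hδ
  have n1 := f5_edge hc A
  have n2 := R.FI hS A
  have n3 : Neg c (fun n G => δ ≤ R.y δ n G - R.y δ n (del A G)) := by
    refine f5_markov hc (fun n G => ?_) (R.T4 hc δ A) hδ
    have := R.y_mono (δ := δ) (n := n) (del_subset A G)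
    linarith
  have n4 := R.Y_clq hc hδ
  have n5 := Neg_del hc n4 A
  have hev1 : ∀ᶠ n : ℕ in atTop, A ⊆ range n := by
    obtain ⟨N, hN⟩ := A.exists_nat_subset_range
    filter_upwards [eventually_ge_atTop N] with n hn
    exact hN.trans (Finset.range_mono hn)
  have hev2 : ∀ᶠ n : ℕ in atTop, (d : ℝ) ≤ δ * n := by
    have h := (tendsto_natCast_atTop_atTop (R := ℝ)).const_mul_atTop hδ
    exact h.eventually_ge_atTop (d : ℝ)
  refine Neg_mono hc (Neg_or hc n1 (Neg_or hc n2 (Neg_or hc n3 (Neg_or hc n4 n5)))) ?_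
  filter_upwards [hev1, hev2, eventually_gt_atTop 0] with n hn1 hn2 hn3 G hG hbad
  by_contra hcon
  rw [not_or, not_or, not_or, not_or, not_not, not_not] at hcon
  obtain ⟨a1, a2, a3, a4, a5⟩ := hcon
  have hne := hbad.1
  have h3 : (R.Y δ n (del A G)).Nonempty := by
    rw [Finset.nonempty_iff_ne_empty]
    intro hem
    refine a3 ?_
    have h4 : R.y δ n (del A G) = 0 := by
      unfold Rig.y
      rw [hem]
      simp
    rw [h4, sub_zero]
    have h5 := R.Y_card hne
    unfold Rig.y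
    rw [le_div_iff₀ (by exact_mod_cast hn3)]
    exact h5
  exact f5_det R hG hn1 hn2 a1 a2 h3 a4 a5 hbad

end Pool.Agent.Helper55.ML
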