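import Pool.Agent.Helper55.ML.F5
import Pool.Agent.Helper55.ML.Q1
import Pool.Agent.Helper55.ML.Q2
import Pool.Agent.Helper55.ML.Q3
import Pool.Agent.Helper55.ML.Q5
import Pool.Agent.Helper55.ML.Q8
import Pool.Agent.Helper55.ML.P4

set_option autoImplicit false
open Finset Filter Topology

namespace Pool.Agent.Helper55.ML

private theorem f6_star_perm (σ : Equiv.Perm ℕ) (v : ℕ) (N : Finset ℕ) :
    star (σ v) (N.image σ) = (star v N).image (Sym2.map σ) := by
  unfold star
  rw [image_image, image_image]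
  rfl

private theorem f6_Kb_perm (σ : Equiv.Perm ℕ) (A B : Finset ℕ) :
    Kb (A.image σ) (B.image σ) = (Kb A B).image (Sym2.map σ) := by
  ext e
  rw [mem_Kb, mem_image]
  constructor
  · rintro ⟨a, ha, b, hb, rfl⟩
    obtain ⟨a', ha', rfl⟩ := mem_image.1 ha
    obtain ⟨b', hb', rfl⟩ := mem_image.1 hb
    exact ⟨s(a', b'), mem_Kb.2 ⟨a', ha', b', hb', rfl⟩, rfl⟩
  · rintro ⟨e', he', rfl⟩
    obtain ⟨a', ha', b', hb', rfl⟩ := mem_Kb.1 he'
    exact ⟨σ a', mem_image_of_mem _ ha', σ b', mem_image_of_mem _ hb', rfl⟩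

private theorem f6_DS0bad_perm {d t : ℕ} (R : Rig d t) (δ : ℝ) (n : ℕ) (σ : Equiv.Perm ℕ)
    (hσ : ∀ i, σ i < n ↔ i < n) (A : Finset ℕ) (G : Finset (Sym2 ℕ)) :
    R.DS0bad δ n (A.image σ) (G.image (Sym2.map σ)) ↔ R.DS0bad δ n A G := by
  unfold Rig.DS0bad
  rw [R.Y_perm δ n σ hσ G, f6_Kb_perm, ← image_union, R.r_perm, R.r_perm,
    sum_image fun x _ y _ h => σ.injective h]
  have h1 : ∀ q, R.r (G.image (Sym2.map σ) ∪ star (σ q) ((R.Y δ n G).image σ)) =
      R.r (G ∪ star q (R.Y δ n G)) := by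
    intro q
    rw [f6_star_perm, ← image_union, R.r_perm]
  simp only [h1, image_nonempty, disjoint_image σ.injective]

/-- DS (hint): `P(DSbad, |nb 0| ≤ k0) ≤ ∑_{k ≤ k0} ∑_{Q, |Q| = k} p^k P(DS0bad Q (del {0} G))`;
by symmetry (`Ex_set_eq`) and `Ex_del_le` each probability is at most a constant times
`P(DS0bad (range k) G)`; the number of `Q` is at most `n^k`. `deg_tail_pr`. -/
theorem Rig.DS {d t : ℕ} (R : Rig d t) {c δ : ℝ} (hS : Std R c δ) :
    Neg c (fun n G => R.DSbad δ n 0 G) := by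
  have hc := hS.hc
  rw [Neg_iff hc]
  intro ε hε
  obtain ⟨k0, hk0⟩ := deg_tail_pr hc (ε / 2) (by linarith)
  obtain ⟨β, hβ, hβn⟩ := one_sub_pow_lower hc 1
  have hlim : Tendsto (fun n : ℕ => ∑ k ∈ range (k0 + 1),
      c ^ k * (β⁻¹ * Pr n (c / n) (fun G => R.DS0bad δ n (range k) G))) atTop (𝓝 0) := by
    have : Tendsto (fun n : ℕ => ∑ k ∈ range (k0 + 1),
        c ^ k * (β⁻¹ * Pr n (c / n) (fun G => R.DS0bad δ n (range k) G))) atTop
        (𝓝 (∑ k ∈ range (k0 + 1), c ^ k * (β⁻¹ * 0))) :=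
      tendsto_finsetSum _ fun k _ => ((R.DS0 hS (range k)).const_mul β⁻¹).const_mul (c ^ k)
    simpa using this
  filter_upwards [hk0, hβn, cn_eventually hc, eventually_gt_atTop k0,
    hlim.eventually (gt_mem_nhds (half_pos hε))] with n h1 h2 h3 h4 h5
  have hn0 : 0 < n := Nat.lt_of_le_of_lt (Nat.zero_le _) h4
  have hnR : (0 : ℝ) < n := by exact_mod_cast hn0
  have hp0 : 0 ≤ c / (n : ℝ) := h3.1.le
  have hp1 : c / (n : ℝ) ≤ 1 := by linarith [h3.2]
  set p : ℝ := c / n with hp
  -- each probability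
  have hQ : ∀ k ∈ range (k0 + 1), ∀ Q ∈ powersetCard k ((range n).erase 0),
      Ex n p (fun G => ind (R.DS0bad δ n Q (del {0} G))) ≤
        β⁻¹ * Pr n p (fun G => R.DS0bad δ n (range k) G) := by
    intro k hk Q hQ
    rw [mem_powersetCard] at hQ
    rw [mem_range] at hk
    have e1 := Ex_del_le n hp0 hp1 {0} (fun G => ind (R.DS0bad δ n Q G))
      (fun G _ => ind_nonneg _)
    rw [card_singleton] at e1
    have e2 : Ex n p (fun G => ind (R.DS0bad δ n Q G)) =
        Ex n p (fun G => ind (R.DS0bad δ n (range k) G)) := by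
      refine Ex_set_eq n p (fun A G => ind (R.DS0bad δ n A G)) (fun σ hσ A G =>
        ind_congr (f6_DS0bad_perm R δ n σ hσ A G)) (hQ.1.trans (erase_subset _ _)) ?_ ?_
      · intro x hx
        rw [mem_range] at hx ⊢
        omega
      · rw [hQ.2, card_range]
    rw [e2] at e1
    have e3 : β * Ex n p (fun G => ind (R.DS0bad δ n Q (del {0} G))) ≤
        Pr n p (fun G => R.DS0bad δ n (range k) G) := by
      refine le_trans ?_ e1
      exact mul_le_mul_of_nonneg_right h2 (Ex_nonneg hp0 hp1 fun G _ => ind_nonneg _)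
    rw [inv_mul_eq_div, le_div_iff₀ hβ, mul_comm]
    exact e3
  -- the truncated event
  have hT : Ex n p (fun G => ind ((nb n G 0).card ≤ k0 ∧ R.DSbad δ n 0 G)) ≤
      ∑ k ∈ range (k0 + 1),
        c ^ k * (β⁻¹ * Pr n p (fun G => R.DS0bad δ n (range k) G)) := by
    have e1 := Ex_vertex n 0 hn0 p (fun H N => ind (N.card ≤ k0 ∧
      R.DS0bad δ n (N \ R.Y δ n H) H))
    have e2 : Ex n p (fun G => ind ((nb n G 0).card ≤ k0 ∧ R.DSbad δ n 0 G)) =
        Ex n p (fun G => BE ((range n).erase 0) p (fun N => ind (N.card ≤ k0 ∧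
          R.DS0bad δ n (N \ R.Y δ n (del {0} G)) (del {0} G)))) := e1
    rw [e2]
    have e3 : ∀ G ⊆ En n, BE ((range n).erase 0) p (fun N => ind (N.card ≤ k0 ∧
          R.DS0bad δ n (N \ R.Y δ n (del {0} G)) (del {0} G))) ≤
        ∑ k ∈ range (k0 + 1), ∑ Q ∈ powersetCard k ((range n).erase 0),
          p ^ k * ind (R.DS0bad δ n Q (del {0} G)) := by
      intro G _
      have e4 : BE ((range n).erase 0) p (fun N => ind (N.card ≤ k0 ∧
          R.DS0bad δ n (N \ R.Y δ n (del {0} G)) (del {0} G))) ≤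
        BE ((range n).erase 0) p (fun N => ∑ k ∈ range (k0 + 1),
          ∑ Q ∈ powersetCard k ((range n).erase 0),
            ind (Q ⊆ N) * ind (R.DS0bad δ n Q (del {0} G))) := by
        refine BE_mono hp0 hp1 fun N hN => ?_
        by_cases hb : N.card ≤ k0 ∧ R.DS0bad δ n (N \ R.Y δ n (del {0} G)) (del {0} G)
        · have hcard : (N \ R.Y δ n (del {0} G)).card ≤ k0 :=
            (card_le_card sdiff_subset).trans hb.1
          have hnn : ∀ k ∈ range (k0 + 1), 0 ≤ ∑ Q ∈ powersetCard k ((range n).erase 0),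
              ind (Q ⊆ N) * ind (R.DS0bad δ n Q (del {0} G)) := fun k _ =>
            sum_nonneg fun Q _ => mul_nonneg (ind_nonneg _) (ind_nonneg _)
          have hmem : (N \ R.Y δ n (del {0} G)).card ∈ range (k0 + 1) :=
            mem_range.2 (Nat.lt_succ_of_le hcard)
          refine le_trans ?_ (single_le_sum hnn hmem)
          have hmem2 : N \ R.Y δ n (del {0} G) ∈
              powersetCard (N \ R.Y δ n (del {0} G)).card ((range n).erase 0) :=
            mem_powersetCard.2 ⟨sdiff_subset.trans hN, rfl⟩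
          refine le_trans ?_ (single_le_sum (f := fun Q => ind (Q ⊆ N) *
            ind (R.DS0bad δ n Q (del {0} G)))
            (fun Q _ => mul_nonneg (ind_nonneg _) (ind_nonneg _)) hmem2)
          show ind _ ≤ ind (N \ R.Y δ n (del {0} G) ⊆ N) *
            ind (R.DS0bad δ n (N \ R.Y δ n (del {0} G)) (del {0} G))
          rw [ind_true hb, ind_true sdiff_subset, ind_true hb.2, one_mul]
        · rw [ind_false hb]
          exact sum_nonneg fun k _ => sum_nonneg fun Q _ =>
            mul_nonneg (ind_nonneg _) (ind_nonneg _)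
      refine e4.trans (le_of_eq ?_)
      rw [BE_sum]
      refine sum_congr rfl fun k _ => ?_
      rw [BE_sum]
      refine sum_congr rfl fun Q hQ => ?_
      rw [mem_powersetCard] at hQ
      rw [BE_mul_right (f := fun N => ind (Q ⊆ N)), BE_subset hQ.1, hQ.2]
    refine (Ex_mono hp0 hp1 e3).trans ?_
    rw [Ex_sum]
    refine sum_le_sum fun k hk => ?_
    rw [Ex_sum]
    have e5 : ∀ Q ∈ powersetCard k ((range n).erase 0),
        Ex n p (fun G => p ^ k * ind (R.DS0bad δ n Q (del {0} G))) ≤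
          p ^ k * (β⁻¹ * Pr n p (fun G => R.DS0bad δ n (range k) G)) := by
      intro Q hQ'
      rw [Ex_mul_left]
      exact mul_le_mul_of_nonneg_left (hQ k hk Q hQ') (pow_nonneg hp0 k)
    refine (sum_le_sum e5).trans ?_
    rw [sum_const, nsmul_eq_mul, card_powersetCard, ← mul_assoc]
    have hPr : 0 ≤ β⁻¹ * Pr n p (fun G => R.DS0bad δ n (range k) G) :=
      mul_nonneg (inv_nonneg.2 hβ.le) (Pr_nonneg hp0 hp1)
    refine mul_le_mul_of_nonneg_right ?_ hPr
    have e6 : ((((range n).erase 0).card.choose k : ℕ) : ℝ) ≤ (n : ℝ) ^ k := by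
      have e7 : ((range n).erase 0).card.choose k ≤ n ^ k := by
        refine (Nat.choose_le_pow _ _).trans ?_
        refine Nat.pow_le_pow_left ?_ k
        exact (card_le_card (erase_subset _ _)).trans (card_range n).le
      exact_mod_cast e7
    calc ((((range n).erase 0).card.choose k : ℕ) : ℝ) * p ^ k ≤ (n : ℝ) ^ k * p ^ k :=
          mul_le_mul_of_nonneg_right e6 (pow_nonneg hp0 k)
      _ = c ^ k := by
        rw [← mul_pow, hp, mul_div_cancel₀ c hnR.ne']
  have hfin : Pr n p (fun G => R.DSbad δ n 0 G) ≤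
      Pr n p (fun G => k0 < (nb n G 0).card) +
        Ex n p (fun G => ind ((nb n G 0).card ≤ k0 ∧ R.DSbad δ n 0 G)) := by
    have e1 : Pr n p (fun G => R.DSbad δ n 0 G) ≤
        Pr n p (fun G => k0 < (nb n G 0).card ∨
          ((nb n G 0).card ≤ k0 ∧ R.DSbad δ n 0 G)) := by
      refine Pr_mono hp0 hp1 fun G _ h => ?_
      rcases lt_or_ge k0 (nb n G 0).card with h' | h'
      · exact Or.inl h'
      · exact Or.inr ⟨h', h⟩
    exact e1.trans (Pr_or_le hp0 hp1)
  calc Pr n p (fun G => R.DSbad δ n 0 G) ≤ ε / 2 + ε / 2 :=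
        hfin.trans (add_le_add h1 (hT.trans h5.le))
    _ = ε := by ring

end Pool.Agent.Helper55.ML
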