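import Pool.Agent.Helper55.ML.M5

set_option autoImplicit false
open Finset Filter Topology

namespace Pool.Agent.Helper55.ML

/-- modular pairs and closures. -/
private theorem m11_modular {d t : ℕ} (R : Rig d t) {N0 P P' Z F : Finset (Sym2 ℕ)} {e : Sym2 ℕ}
    (h1 : N0 ⊆ P) (h2 : N0 ⊆ P') (hr : R.r P + R.r P' ≤ R.r (P ∪ P') + R.r N0)
    (hZ : ∀ f ∈ Z, R.Cl P f) (he : R.Cl P e) (hF : ∀ f ∈ F, R.Cl P' f)
    (h : R.Cl (N0 ∪ Z ∪ F) e) : R.Cl (N0 ∪ Z) e := by
  by_contra hcon
  rw [Rig.not_Cl_iff] at hcon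
  set Zb : Finset (Sym2 ℕ) := N0 ∪ Z with hZb
  set P'' : Finset (Sym2 ℕ) := P' ∪ Z ∪ F with hP''
  -- the rank of `P''`
  have hP''1 : R.r P'' = R.r (P' ∪ Z) := by
    rw [hP'']
    exact R.r_union_of_Cl fun f hf => R.Cl_mono Finset.subset_union_left (hF f hf)
  have hP''2 : R.r (P' ∪ Z) + R.r N0 ≤ R.r P' + R.r Zb := by
    have h3 := R.rel_mono h2 Z
    rw [← hZb] at h3
    omega
  have heP'' : R.r (insert e P'') = R.r P'' := by
    have h3 : N0 ∪ Z ∪ F ⊆ P'' := by
      rw [hP'']
      exact Finset.union_subset_union (Finset.union_subset_union h2 subset_rfl) subset_rfl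
    exact R.Cl_mono h3 h
  -- the rank of `P` with the extra elements
  have hPe : R.r (P ∪ insert e Zb) = R.r P := by
    apply R.r_union_of_Cl
    intro f hf
    rw [Finset.mem_insert, hZb, Finset.mem_union] at hf
    rcases hf with rfl | hf | hf
    · exact he
    · exact R.Cl_of_mem (h1 hf)
    · exact hZ f hf
  have hsub := R.r_submod (P ∪ insert e Zb) (insert e P'')
  have h4 : R.r (insert e Zb) ≤ R.r ((P ∪ insert e Zb) ∩ insert e P'') := by
    apply R.r_mono
    apply Finset.subset_inter Finset.subset_union_right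
    apply Finset.insert_subset_insert
    rw [hZb, hP'']
    exact (Finset.union_subset_union h2 subset_rfl).trans Finset.subset_union_left
  have h5 : R.r (P ∪ P') ≤ R.r ((P ∪ insert e Zb) ∪ insert e P'') := by
    apply R.r_mono
    apply Finset.union_subset_union Finset.subset_union_left
    rw [hP'', Finset.union_assoc]
    exact Finset.subset_union_left.trans (Finset.subset_insert _ _)
  omega

private theorem m11_Kb_insert {A C : Finset ℕ} {a : ℕ} : Kb (insert a A) C = star a C ∪ Kb A C := by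
  ext e
  rw [mem_Kb, Finset.mem_union, mem_star, mem_Kb]
  constructor
  · rintro ⟨x, hx, b, hb, rfl⟩
    rw [Finset.mem_insert] at hx
    rcases hx with rfl | hx
    · exact Or.inl ⟨b, hb, rfl⟩
    · exact Or.inr ⟨x, hx, b, hb, rfl⟩
  · rintro (⟨b, hb, rfl⟩ | ⟨x, hx, b, hb, rfl⟩)
    · exact ⟨a, Finset.mem_insert_self _ _, b, hb, rfl⟩
    · exact ⟨x, Finset.mem_insert_of_mem hx, b, hb, rfl⟩

private theorem m11_subadd {d t : ℕ} (R : Rig d t) (N0 : Finset (Sym2 ℕ)) (C T : Finset ℕ) :
    R.r (N0 ∪ Kb T C) ≤ R.r N0 + ∑ q ∈ T, (R.r (N0 ∪ star q C) - R.r N0) := by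
  classical
  induction T using Finset.induction_on with
  | empty =>
    have : Kb ∅ C = ∅ := by unfold Kb; simp
    rw [this]; simp
  | insert a T ha ih =>
    rw [m11_Kb_insert, Finset.sum_insert ha]
    have h1 := R.r_submod (N0 ∪ star a C) (N0 ∪ Kb T C)
    have h2 : R.r N0 ≤ R.r ((N0 ∪ star a C) ∩ (N0 ∪ Kb T C)) :=
      R.r_mono (Finset.subset_inter Finset.subset_union_left Finset.subset_union_left)
    have h3 : (N0 ∪ star a C) ∪ (N0 ∪ Kb T C) = N0 ∪ (star a C ∪ Kb T C) := by
      ext x; simp only [Finset.mem_union]; tauto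
    rw [h3] at h1
    have h4 := R.r_mono (show N0 ⊆ N0 ∪ star a C from Finset.subset_union_left)
    omega

private theorem m11_Cl_map {d t : ℕ} (R : Rig d t) (σ : Equiv.Perm ℕ) {S : Finset (Sym2 ℕ)}
    {f : Sym2 ℕ} (h : R.Cl S f) : R.Cl (S.image (Sym2.map σ)) (Sym2.map σ f) := by
  rw [Rig.Cl_def] at h ⊢
  rw [← Finset.image_insert, R.r_perm, R.r_perm, h]

/-- M11 (Case I; hint). See B10 of `/team-store/ML_proof.md`. `G = H ∪ vJ ∪ vQ`, `e = s(v,i)`.
Suppose `e` is not in the closure of `G - e`. Then there is a pair `f` inside `Y \ {v}` in the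
closure of `G` but not of `G - e` (else the clique `Y` is in the closure of `G - e`, using
`|J| ≥ d`, `J ⊆ C`, `i ∉ C`). Let `v'` be a new vertex, `N0 = H ∪ vC ∪ v'C`, `E = vQ`, `E' = v'Q`.
`f ∈ cl(N0 ∪ E)`, by the transposition `v v'` also `f ∈ cl(N0 ∪ E')`; `f ∉ cl(N0 ∪ (E - vi))`
(`Cl_Kb_avoid`). Over `N0` the sets `{vq, v'q}`, `q ∈ Q`, are in direct sum (they are spanned by
`star q C`, hypothesis `hds`, `r_Kb`). With `F1 = (E - vi) ∪ (E' - v'i)`: `f ∉ cl(N0 ∪ F1)`, so
`vi ∈ cl(N0 ∪ F1 ∪ {v'i})`, so by the direct sum `v'i ∈ cl(N0 ∪ {vi})`; by the clone lemma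
(`v'` new, clique `C ∪ {v}` of `cl(H ∪ vC ∪ {vi})`) `i` is joined to `C`, hence to `Y`:
contradiction with `hi`. -/
theorem Rig.caseI {d t : ℕ} (R : Rig d t) (hd : 1 ≤ d) {H : Finset (Sym2 ℕ)}
    (hH : ∀ e ∈ H, ¬ e.IsDiag) {C J Q Y : Finset ℕ} {v i : ℕ} (hv : ∀ e ∈ H, v ∉ e)
    (hvC : v ∉ C) (hC : R.Clq H C) (hJ : J ⊆ C) (hdJ : d ≤ J.card) (hQC : Disjoint Q C)
    (hvQ : v ∉ Q)
    (hds : (∑ q ∈ Q, (R.r (H ∪ star q C) - R.r H)) + R.r H ≤ R.r (H ∪ Kb Q C))
    (hi : i ∈ Q) (hCY : insert v C ⊆ Y) (hY : R.Clq (H ∪ star v J ∪ star v Q) Y)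
    (hiY : ¬ R.Clq (H ∪ star v J ∪ star v Q) (insert i Y))
    (hcl : R.Cl ((H ∪ star v J ∪ star v Q).erase s(v, i) ∪ Kp Y) s(v, i)) :
    R.Cl ((H ∪ star v J ∪ star v Q).erase s(v, i)) s(v, i) := by
  classical
  by_contra hcon
  set G : Finset (Sym2 ℕ) := H ∪ star v J ∪ star v Q with hG
  have hdC : d ≤ C.card := hdJ.trans (Finset.card_le_card hJ)
  have hiC : i ∉ C := Finset.disjoint_left.1 hQC hi
  have hvi : v ≠ i := fun h => hvQ (h ▸ hi)
  have hvY : v ∈ Y := hCY (Finset.mem_insert_self _ _)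
  have hCY' : C ⊆ Y := (Finset.subset_insert _ _).trans hCY
  -- `H` and `star v J` avoid `e`
  have hHG : H ⊆ G.erase s(v, i) := by
    intro e he
    rw [Finset.mem_erase]
    refine ⟨?_, by rw [hG]; exact Finset.mem_union_left _ (Finset.mem_union_left _ he)⟩
    rintro rfl
    exact hv _ he (Sym2.mem_mk_left _ _)
  have hJG : star v J ⊆ G.erase s(v, i) := by
    intro e he
    rw [Finset.mem_erase]
    refine ⟨?_, by rw [hG]; exact Finset.mem_union_left _ (Finset.mem_union_right _ he)⟩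
    rintro rfl
    rw [mem_star] at he
    obtain ⟨u, hu, he⟩ := he
    rw [Sym2.congr_right] at he
    exact hiC (he ▸ hJ hu)
  -- `star v C` is in the closure of `H ∪ star v J`
  have hstarC : ∀ f ∈ star v C, R.Cl (H ∪ star v J) f := by
    intro f hf
    rw [mem_star] at hf
    obtain ⟨u, hu, rfl⟩ := hf
    exact R.Cl_star hC hJ hdJ hvC hu
  have hHJ : H ∪ star v J ⊆ G.erase s(v, i) := Finset.union_subset hHG hJG
  have hstarC' : ∀ f ∈ star v C, R.Cl (G.erase s(v, i)) f := fun f hf =>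
    R.Cl_mono hHJ (hstarC f hf)
  -- Step 1: a pair `f`
  obtain ⟨f, hvf, hfY, hfG, hfn⟩ : ∃ f : Sym2 ℕ, v ∉ f ∧ (∀ x ∈ f, x ∈ Y) ∧ R.Cl G f ∧
      ¬ R.Cl (G.erase s(v, i)) f := by
    by_contra hall
    push Not at hall
    apply hcon
    have h1 : R.Clq (G.erase s(v, i)) (Y.erase v) := by
      intro a ha b hb hab
      rw [Finset.mem_erase] at ha hb
      apply hall
      · rw [Sym2.mem_iff]
        rintro (h | h)
        · exact ha.1 h.symm
        · exact hb.1 h.symm
      · intro x hx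
        rw [Sym2.mem_iff] at hx
        rcases hx with rfl | rfl
        · exact ha.2
        · exact hb.2
      · exact hY a ha.2 b hb.2 hab
    have h2 : R.Clq (G.erase s(v, i)) (insert v (Y.erase v)) := by
      apply R.Clq_insert h1 (N := J) _ hdJ
      · intro u hu _
        exact R.Cl_of_mem (hJG (mem_star.2 ⟨u, hu, rfl⟩))
      · intro u hu
        rw [Finset.mem_erase]
        exact ⟨fun h => hvC (h ▸ hJ hu), hCY' (hJ hu)⟩
    rw [Finset.insert_erase hvY] at h2
    refine R.Cl_trans (T := Kp Y) ?_ hcl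
    intro g hg
    induction g using Sym2.ind with
    | _ a b =>
      rw [mk_mem_Kp] at hg
      exact h2 a hg.1 b hg.2.1 hg.2.2
  -- Step 2: the clone
  obtain ⟨v', hv'⟩ := Infinite.exists_notMem_finset
    (H.biUnion Sym2.toFinset ∪ C ∪ Q ∪ Y ∪ {v})
  simp only [Finset.mem_union, Finset.mem_biUnion, Sym2.mem_toFinset, Finset.mem_singleton,
    not_or, not_exists, not_and] at hv'
  obtain ⟨⟨⟨⟨hv'H, hv'C⟩, hv'Q⟩, hv'Y⟩, hv'v⟩ := hv'
  have hv'i : v' ≠ i := fun h => hv'Q (h ▸ hi)
  set N0 : Finset (Sym2 ℕ) := H ∪ Kb {v, v'} C with hN0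
  have hcardA : ({v, v'} : Finset ℕ).card = 2 := Finset.card_pair (Ne.symm hv'v)
  have hdisjA : Disjoint ({v, v'} : Finset ℕ) C := by
    rw [Finset.disjoint_left]
    intro x hx
    rw [Finset.mem_insert, Finset.mem_singleton] at hx
    rcases hx with rfl | rfl
    · exact hvC
    · exact hv'C
  have hHN0 : H ⊆ N0 := Finset.subset_union_left
  have hvN0 : star v C ⊆ N0 := by
    intro e he
    rw [mem_star] at he
    obtain ⟨u, hu, rfl⟩ := he
    rw [hN0, Finset.mem_union, mem_Kb]
    exact Or.inr ⟨v, by simp, u, hu, rfl⟩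
  have hv'N0 : star v' C ⊆ N0 := by
    intro e he
    rw [mem_star] at he
    obtain ⟨u, hu, rfl⟩ := he
    rw [hN0, Finset.mem_union, mem_Kb]
    exact Or.inr ⟨v', by simp, u, hu, rfl⟩
  have hN0eq : N0 = H ∪ star v C ∪ Kb {v'} C := by
    rw [hN0, m11_Kb_insert, Finset.union_assoc]
  -- ranks over `N0`
  have hrank : ∀ T : Finset ℕ, T ⊆ Q → R.r (N0 ∪ Kb T C) = R.r (H ∪ Kb T C) + d * 2 := by
    intro T hT
    have h1 := R.r_Kb (S := H ∪ Kb T C) (A := {v, v'}) (C := C) (by
      intro e he a ha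
      rw [Finset.mem_union] at he
      rw [Finset.mem_insert, Finset.mem_singleton] at ha
      rcases he with he | he
      · rcases ha with rfl | rfl
        · exact hv e he
        · exact hv'H e he
      · rw [mem_Kb] at he
        obtain ⟨x, hx, y, hy, rfl⟩ := he
        rw [Sym2.mem_iff]
        rcases ha with rfl | rfl
        · rintro (h | h)
          · exact hvQ (h ▸ hT hx)
          · exact hvC (h ▸ hy)
        · rintro (h | h)
          · exact hv'Q (h ▸ hT hx)
          · exact hv'C (h ▸ hy)) hdisjA (R.Clq_mono Finset.subset_union_left hC) hdC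
    rw [hcardA] at h1
    rw [← h1, hN0]
    congr 1
    ext x
    simp only [Finset.mem_union]
    tauto
  have hKb1 : ∀ q, Kb {q} C = star q C := by
    intro q
    ext e
    rw [mem_Kb, mem_star]
    simp
  have hKb0 : Kb ∅ C = ∅ := by unfold Kb; simp
  have hr0 : R.r N0 = R.r H + d * 2 := by
    have := hrank ∅ (Finset.empty_subset _)
    rwa [hKb0, Finset.union_empty, Finset.union_empty] at this
  have hr1 : ∀ q ∈ Q, R.r (N0 ∪ star q C) = R.r (H ∪ star q C) + d * 2 := by
    intro q hq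
    have := hrank {q} (Finset.singleton_subset_iff.2 hq)
    rwa [hKb1] at this
  have hrQ := hrank Q subset_rfl
  have hds0 : (∑ q ∈ Q, (R.r (N0 ∪ star q C) - R.r N0)) + R.r N0 ≤ R.r (N0 ∪ Kb Q C) := by
    have h1 : ∑ q ∈ Q, (R.r (N0 ∪ star q C) - R.r N0) =
        ∑ q ∈ Q, (R.r (H ∪ star q C) - R.r H) := by
      refine Finset.sum_congr rfl fun q hq => ?_
      rw [hr1 q hq, hr0]
      omega
    rw [h1, hr0, hrQ]
    omega
  -- the modular pair
  set P : Finset (Sym2 ℕ) := N0 ∪ star i C with hP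
  set P' : Finset (Sym2 ℕ) := N0 ∪ Kb (Q.erase i) C with hP'
  have hPP' : P ∪ P' = N0 ∪ Kb Q C := by
    have h1 : Kb Q C = star i C ∪ Kb (Q.erase i) C := by
      rw [← m11_Kb_insert, Finset.insert_erase hi]
    rw [hP, hP', h1]
    ext x
    simp only [Finset.mem_union]
    tauto
  have hmod : R.r P + R.r P' ≤ R.r (P ∪ P') + R.r N0 := by
    rw [hPP']
    have h1 := m11_subadd R N0 C (Q.erase i)
    rw [← hP'] at h1
    have h2 := Finset.add_sum_erase Q (fun q => R.r (N0 ∪ star q C) - R.r N0) hi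
    have h3 := R.r_mono (show N0 ⊆ N0 ∪ star i C from Finset.subset_union_left)
    rw [← hP] at h2 h3
    omega
  have hclqN0 : R.Clq N0 ({v, v'} ∪ C) := R.Clq_Kb hC hdisjA hdC
  -- pairs from a clone to `q` lie in the closure of `N0 ∪ star q C`
  have hpair : ∀ (S : Finset (Sym2 ℕ)) (q : ℕ), q ∈ Q → N0 ∪ star q C ⊆ S →
      ∀ w ∈ ({v, v'} : Finset ℕ), R.Cl S s(w, q) := by
    intro S q hq hS w hw
    have h1 : R.Clq S (insert q ({v, v'} ∪ C)) := by
      apply R.Clq_insert (R.Clq_mono (Finset.subset_union_left.trans hS) hclqN0) (N := C)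
        Finset.subset_union_right hdC
      intro u hu _
      exact R.Cl_of_mem (hS (Finset.mem_union_right _ (mem_star.2 ⟨u, hu, rfl⟩)))
    apply h1 w (Finset.mem_insert_of_mem (Finset.mem_union_left _ hw)) q
      (Finset.mem_insert_self _ _)
    rw [Finset.mem_insert, Finset.mem_singleton] at hw
    rcases hw with rfl | rfl
    · exact fun h => hvQ (h ▸ hq)
    · exact fun h => hv'Q (h ▸ hq)
  set F1 : Finset (Sym2 ℕ) := star v (Q.erase i) ∪ star v' (Q.erase i) with hF1
  have hF1P' : ∀ g ∈ F1, R.Cl P' g := by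
    intro g hg
    rw [hF1, Finset.mem_union, mem_star, mem_star] at hg
    have key : ∀ w ∈ ({v, v'} : Finset ℕ), ∀ q ∈ Q.erase i, R.Cl P' s(w, q) := by
      intro w hw q hq
      refine hpair P' q (Finset.mem_of_mem_erase hq) ?_ w hw
      rw [hP']
      apply Finset.union_subset_union subset_rfl
      intro x hx
      rw [mem_star] at hx
      obtain ⟨u, hu, rfl⟩ := hx
      exact mem_Kb.2 ⟨q, hq, u, hu, rfl⟩
    rcases hg with ⟨q, hq, rfl⟩ | ⟨q, hq, rfl⟩
    · exact key v (by simp) q hq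
    · exact key v' (by simp) q hq
  have heP : R.Cl P s(v, i) := hpair P i hi subset_rfl v (by simp)
  have he'P : R.Cl P s(v', i) := hpair P i hi subset_rfl v' (by simp)
  have hN0P : N0 ⊆ P := Finset.subset_union_left
  have hN0P' : N0 ⊆ P' := Finset.subset_union_left
  -- the closure of `G`
  have hGN : G ⊆ N0 ∪ star v Q := by
    intro x hx
    rw [hG, Finset.mem_union, Finset.mem_union] at hx
    rw [Finset.mem_union]
    rcases hx with (hx | hx) | hx
    · exact Or.inl (hHN0 hx)
    · left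
      apply hvN0
      rw [mem_star] at hx ⊢
      obtain ⟨u, hu, rfl⟩ := hx
      exact ⟨u, hJ hu, rfl⟩
    · exact Or.inr hx
  have hfE : R.Cl (N0 ∪ star v Q) f := R.Cl_mono hGN hfG
  have hv'f : v' ∉ f := fun h => hv'Y (hfY _ h)
  -- by symmetry
  have hfE' : R.Cl (N0 ∪ star v' Q) f := by
    have h1 := m11_Cl_map R (Equiv.swap v v') hfE
    have hfix : ∀ g : Sym2 ℕ, v ∉ g → v' ∉ g → Sym2.map (Equiv.swap v v') g = g := by
      intro g
      induction g using Sym2.ind with
      | _ a b =>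
        intro h2 h3
        rw [Sym2.mem_iff, not_or] at h2 h3
        rw [Sym2.map_mk, Equiv.swap_apply_of_ne_of_ne (Ne.symm h2.1) (Ne.symm h3.1),
          Equiv.swap_apply_of_ne_of_ne (Ne.symm h2.2) (Ne.symm h3.2)]
    rw [hfix f hvf hv'f] at h1
    refine R.Cl_mono ?_ h1
    intro x hx
    rw [Finset.mem_image] at hx
    obtain ⟨g, hg, rfl⟩ := hx
    rw [Finset.mem_union, hN0, Finset.mem_union, mem_Kb, mem_star] at hg
    rw [Finset.mem_union]
    rcases hg with (hg | ⟨w, hw, u, hu, rfl⟩) | ⟨q, hq, rfl⟩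
    · rw [hfix g (hv g hg) (hv'H g hg)]
      exact Or.inl (hHN0 hg)
    · left
      have hu1 : u ≠ v := fun h => hvC (h ▸ hu)
      have hu2 : u ≠ v' := fun h => hv'C (h ▸ hu)
      rw [Sym2.map_mk, Equiv.swap_apply_of_ne_of_ne hu1 hu2]
      rw [Finset.mem_insert, Finset.mem_singleton] at hw
      rcases hw with rfl | rfl
      · rw [Equiv.swap_apply_left]
        exact hv'N0 (mem_star.2 ⟨u, hu, rfl⟩)
      · rw [Equiv.swap_apply_right]
        exact hvN0 (mem_star.2 ⟨u, hu, rfl⟩)
    · right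
      have hu1 : q ≠ v := fun h => hvQ (h ▸ hq)
      have hu2 : q ≠ v' := fun h => hv'Q (h ▸ hq)
      rw [Sym2.map_mk, Equiv.swap_apply_of_ne_of_ne hu1 hu2, Equiv.swap_apply_left]
      exact mem_star.2 ⟨q, hq, rfl⟩
  -- `f` is not in the closure of `N0 ∪ (E - e)`
  have hE1 : star v Q = insert s(v, i) (star v (Q.erase i)) := by
    ext x
    rw [Finset.mem_insert, mem_star, mem_star]
    constructor
    · rintro ⟨q, hq, rfl⟩
      by_cases hqi : q = i
      · left; rw [hqi]
      · exact Or.inr ⟨q, Finset.mem_erase.2 ⟨hqi, hq⟩, rfl⟩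
    · rintro (rfl | ⟨q, hq, rfl⟩)
      · exact ⟨i, hi, rfl⟩
      · exact ⟨q, Finset.mem_of_mem_erase hq, rfl⟩
  have hE1' : star v' Q = insert s(v', i) (star v' (Q.erase i)) := by
    ext x
    rw [Finset.mem_insert, mem_star, mem_star]
    constructor
    · rintro ⟨q, hq, rfl⟩
      by_cases hqi : q = i
      · left; rw [hqi]
      · exact Or.inr ⟨q, Finset.mem_erase.2 ⟨hqi, hq⟩, rfl⟩
    · rintro (rfl | ⟨q, hq, rfl⟩)
      · exact ⟨i, hi, rfl⟩
      · exact ⟨q, Finset.mem_of_mem_erase hq, rfl⟩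
  have hstarG : star v (Q.erase i) ⊆ G.erase s(v, i) := by
    intro x hx
    rw [mem_star] at hx
    obtain ⟨q, hq, rfl⟩ := hx
    rw [Finset.mem_erase] at hq
    rw [Finset.mem_erase]
    refine ⟨?_, ?_⟩
    · intro h
      rw [Sym2.congr_right] at h
      exact hq.1 h
    · rw [hG, Finset.mem_union, mem_star]
      exact Or.inr ⟨q, hq.2, rfl⟩
  -- everything over `N0 ∪ X` without `v'` is in the closure of `G - e`
  have havoid : ∀ (X : Finset ℕ), X ⊆ Q.erase i → ∀ g : Sym2 ℕ, v' ∉ g →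
      R.Cl (N0 ∪ star v X) g → R.Cl (G.erase s(v, i)) g := by
    intro X hX g hg h1
    have h2 : N0 ∪ star v X = (H ∪ star v C ∪ star v X) ∪ Kb {v'} C := by
      rw [hN0eq]
      ext x
      simp only [Finset.mem_union]
      tauto
    rw [h2] at h1
    have h3 : R.Cl (H ∪ star v C ∪ star v X) g := by
      refine R.Cl_Kb_avoid ?_ ?_ ?_ ?_ hdC ?_ h1
      · intro x hx
        rw [Finset.mem_union, Finset.mem_union, mem_star, mem_star] at hx
        rcases hx with (hx | ⟨u, hu, rfl⟩) | ⟨q, hq, rfl⟩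
        · exact hH x hx
        · rw [Sym2.mk_isDiag_iff]
          exact fun h => hvC (h ▸ hu)
        · rw [Sym2.mk_isDiag_iff]
          exact fun h => hvQ (h ▸ Finset.mem_of_mem_erase (hX hq))
      · intro x hx a ha
        rw [Finset.mem_singleton] at ha
        subst ha
        rw [Finset.mem_union, Finset.mem_union, mem_star, mem_star] at hx
        rcases hx with (hx | ⟨u, hu, rfl⟩) | ⟨q, hq, rfl⟩
        · exact hv'H x hx
        · rw [Sym2.mem_iff]
          rintro (h | h)
          · exact hv'v h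
          · exact hv'C (h ▸ hu)
        · rw [Sym2.mem_iff]
          rintro (h | h)
          · exact hv'v h
          · exact hv'Q (h ▸ Finset.mem_of_mem_erase (hX hq))
      · rw [Finset.disjoint_singleton_left]
        exact hv'C
      · exact R.Clq_mono (Finset.subset_union_left.trans Finset.subset_union_left) hC
      · intro a ha
        rw [Finset.mem_singleton] at ha
        rw [ha]
        exact hg
    refine R.Cl_trans' ?_ h3
    intro x hx
    rw [Finset.mem_union, Finset.mem_union] at hx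
    rcases hx with (hx | hx) | hx
    · exact R.Cl_of_mem (hHG hx)
    · exact hstarC' x hx
    · apply R.Cl_of_mem
      apply hstarG
      rw [mem_star] at hx ⊢
      obtain ⟨q, hq, rfl⟩ := hx
      exact ⟨q, hX hq, rfl⟩
  have hf1 : ¬ R.Cl (N0 ∪ star v (Q.erase i)) f := fun h =>
    hfn (havoid _ subset_rfl f hv'f h)
  -- exchange
  have hex : R.Cl (insert f (N0 ∪ star v (Q.erase i))) s(v, i) := by
    apply R.exchange _ hf1
    rw [← Finset.union_insert, ← hE1]
    exact hfE
  -- `e` is in the closure of `N0 ∪ {e'} ∪ F1`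
  have he1 : R.Cl (N0 ∪ {s(v', i)} ∪ F1) s(v, i) := by
    refine R.Cl_trans' ?_ hex
    intro x hx
    rw [Finset.mem_insert, Finset.mem_union] at hx
    rcases hx with rfl | hx | hx
    · refine R.Cl_mono ?_ hfE'
      rw [hE1']
      intro y hy
      rw [Finset.mem_union, Finset.mem_insert] at hy
      rcases hy with hy | hy | hy
      · exact Finset.mem_union_left _ (Finset.mem_union_left _ hy)
      · exact Finset.mem_union_left _ (Finset.mem_union_right _ (Finset.mem_singleton.2 hy))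
      · exact Finset.mem_union_right _ (Finset.mem_union_right _ hy)
    · exact R.Cl_of_mem (Finset.mem_union_left _ (Finset.mem_union_left _ hx))
    · exact R.Cl_of_mem (Finset.mem_union_right _ (Finset.mem_union_left _ hx))
  have he2 : R.Cl (N0 ∪ {s(v', i)}) s(v, i) := by
    refine m11_modular R hN0P hN0P' hmod ?_ heP hF1P' he1
    intro g hg
    rw [Finset.mem_singleton] at hg
    rw [hg]
    exact he'P
  -- `e` is not in the closure of `N0`
  have he3 : ¬ R.Cl N0 s(v, i) := by
    intro h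
    apply hcon
    apply havoid ∅ (Finset.empty_subset _)
    · rw [Sym2.mem_iff]
      rintro (h2 | h2)
      · exact hv'v h2
      · exact hv'i h2
    · exact R.Cl_mono Finset.subset_union_left h
  have he4 : R.Cl (insert s(v, i) N0) s(v', i) := by
    apply R.exchange _ he3
    rw [Finset.insert_eq, Finset.union_comm]
    exact he2
  -- the clone lemma
  set S : Finset (Sym2 ℕ) := insert s(v, i) (H ∪ star v C) with hS
  have hclqS : R.Clq S (insert v C) := by
    apply R.Clq_insert (R.Clq_mono (Finset.subset_union_left.trans (Finset.subset_insert _ _)) hC)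
      subset_rfl hdC
    intro u hu _
    apply R.Cl_of_mem
    exact Finset.mem_insert_of_mem (Finset.mem_union_right _ (mem_star.2 ⟨u, hu, rfl⟩))
  have hclone := R.clone hd (S := S) (C := insert v C) (v := v') (q := i) (by
      intro x hx
      rw [hS, Finset.mem_insert, Finset.mem_union, mem_star] at hx
      rcases hx with rfl | hx | ⟨u, hu, rfl⟩
      · rw [Sym2.mk_isDiag_iff]; exact hvi
      · exact hH x hx
      · rw [Sym2.mk_isDiag_iff]
        exact fun h => hvC (h ▸ hu)) (by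
      intro x hx
      rw [hS, Finset.mem_insert, Finset.mem_union, mem_star] at hx
      rcases hx with rfl | hx | ⟨u, hu, rfl⟩
      · rw [Sym2.mem_iff]
        rintro (h | h)
        · exact hv'v h
        · exact hv'i h
      · exact hv'H x hx
      · rw [Sym2.mem_iff]
        rintro (h | h)
        · exact hv'v h
        · exact hv'C (h ▸ hu)) (by
      rw [Finset.mem_insert, not_or]
      exact ⟨hv'v, hv'C⟩) (by
      rw [Finset.mem_insert, not_or]
      exact ⟨Ne.symm hvi, hiC⟩) hv'i hclqS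
      (hdC.trans (Finset.card_le_card (Finset.subset_insert _ _))) (by
      refine R.Cl_mono ?_ he4
      intro x hx
      rw [Finset.mem_insert, hN0, Finset.mem_union, mem_Kb] at hx
      rw [Finset.mem_union, hS, Finset.mem_insert, Finset.mem_union, mem_star, mem_star]
      rcases hx with rfl | hx | ⟨w, hw, u, hu, rfl⟩
      · exact Or.inl (Or.inl rfl)
      · exact Or.inl (Or.inr (Or.inl hx))
      · rw [Finset.mem_insert, Finset.mem_singleton] at hw
        rcases hw with rfl | rfl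
        · exact Or.inl (Or.inr (Or.inr ⟨u, hu, rfl⟩))
        · exact Or.inr ⟨u, Finset.mem_insert_of_mem hu, rfl⟩)
  -- `i` is joined to `Y`
  apply hiY
  apply R.Clq_insert hY hCY' hdC
  intro u hu _
  refine R.Cl_trans' ?_ (hclone u (Finset.mem_insert_of_mem hu))
  intro x hx
  rw [hS, Finset.mem_insert, Finset.mem_union] at hx
  have hHJ' : H ∪ star v J ⊆ G := Finset.subset_union_left
  rcases hx with rfl | hx | hx
  · apply R.Cl_of_mem
    rw [hG, Finset.mem_union, mem_star]
    exact Or.inr ⟨i, hi, rfl⟩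
  · exact R.Cl_of_mem (hHJ' (Finset.mem_union_left _ hx))
  · exact R.Cl_mono hHJ' (hstarC x hx)

end Pool.Agent.Helper55.ML
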