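import Pool.Agent.Helper55.ML.M3

set_option autoImplicit false
open Finset Filter Topology

namespace Pool.Agent.Helper55.ML

theorem m4_Kp_insert {C : Finset ℕ} {v : ℕ} (hv : v ∉ C) :
    Kp (insert v C) = Kp C ∪ star v C := by
  ext e
  induction e using Sym2.ind with
  | _ a b =>
    rw [mem_union, mk_mem_Kp, mk_mem_Kp, mem_star, mem_insert, mem_insert]
    constructor
    · rintro ⟨rfl | ha, rfl | hb, hab⟩
      · exact absurd rfl hab
      · exact Or.inr ⟨b, hb, rfl⟩
      · exact Or.inr ⟨a, ha, Sym2.eq_swap⟩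
      · exact Or.inl ⟨ha, hb, hab⟩
    · rintro (⟨ha, hb, hab⟩ | ⟨u, hu, he⟩)
      · exact ⟨Or.inr ha, Or.inr hb, hab⟩
      · have hne : v ≠ u := fun h => hv (h ▸ hu)
        rcases Sym2.eq_iff.1 he with ⟨rfl, rfl⟩ | ⟨rfl, rfl⟩
        · exact ⟨Or.inl rfl, Or.inr hu, hne⟩
        · exact ⟨Or.inr hu, Or.inl rfl, hne.symm⟩

theorem m4_not_mem_Kp {C : Finset ℕ} {v : ℕ} (hv : v ∉ C) : ∀ e ∈ Kp C, v ∉ e := by
  intro e he hve
  exact hv ((mem_Kp.1 he).1 v hve)

theorem m4_Clq_Kp {d t : ℕ} (R : Rig d t) (C : Finset ℕ) : R.Clq (Kp C) C := fun a ha b hb hab =>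
  R.Cl_of_mem (mk_mem_Kp.2 ⟨ha, hb, hab⟩)

/-- one more vertex -/
theorem m4_step_small {d t : ℕ} (R : Rig d t) {C : Finset ℕ} {v : ℕ} (hv : v ∉ C)
    (hd : C.card ≤ d) : R.r (Kp (insert v C)) = R.r (Kp C) + C.card := by
  rw [m4_Kp_insert hv]
  exact R.zero_ext (Kp C) v C (m4_not_mem_Kp hv) hv hd

theorem m4_step_big {d t : ℕ} (R : Rig d t) {C : Finset ℕ} {v : ℕ} (hv : v ∉ C)
    (hd : d ≤ C.card) : R.r (Kp (insert v C)) = R.r (Kp C) + d := by
  rw [m4_Kp_insert hv]
  exact R.r_star (m4_not_mem_Kp hv) hv (m4_Clq_Kp R C) hd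

theorem m4_small {d t : ℕ} (R : Rig d t) (C : Finset ℕ) (hd : C.card ≤ d) :
    2 * R.r (Kp C) + C.card = C.card * C.card := by
  induction C using Finset.induction_on with
  | empty =>
    have h0 : Kp (∅ : Finset ℕ) = ∅ := by
      ext e
      induction e using Sym2.ind with
      | _ a b =>
        rw [mk_mem_Kp]
        simp
    rw [h0, R.r_empty]
    simp
  | insert v C hv ih =>
    rw [card_insert_of_notMem hv] at hd ⊢
    have h1 := ih (by omega)
    rw [m4_step_small R hv (by omega)]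
    nlinarith

/-- M4 (hint): rank of a clique: order the vertices, the `j`-th one is joined by `min(j,d)` free
edges. -/
theorem Rig.r_Kp {d t : ℕ} (R : Rig d t) {C : Finset ℕ} (hd : d ≤ C.card) :
    R.r (Kp C) + d * (d + 1) / 2 = d * C.card := by
  have key : ∀ C : Finset ℕ, d ≤ C.card → 2 * R.r (Kp C) + d * (d + 1) = 2 * (d * C.card) := by
    intro C
    induction C using Finset.induction_on with
    | empty =>
      intro h
      have h1 : d = 0 := by simpa using h
      have h2 := m4_small R (∅ : Finset ℕ) (by simp)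
      subst h1
      simp at h2 ⊢
      omega
    | insert v C hv ih =>
      intro h
      rw [card_insert_of_notMem hv] at h ⊢
      rcases Nat.lt_or_ge C.card d with h1 | h1
      · have h2 : C.card + 1 = d := by omega
        have h3 := m4_small R (insert v C) (by rw [card_insert_of_notMem hv]; omega)
        rw [card_insert_of_notMem hv, h2] at h3
        rw [h2]
        nlinarith
      · have h2 := ih h1
        rw [m4_step_big R hv h1]
        nlinarith
  have h1 := key C hd
  have h2 : 2 ∣ d * (d + 1) := (Nat.even_mul_succ_self d).two_dvd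
  omega

/-- A clique of the closure has at least the rank of the complete graph. -/
theorem Rig.r_ge_of_Clq {d t : ℕ} (R : Rig d t) {S : Finset (Sym2 ℕ)} {C : Finset ℕ}
    (hC : R.Clq S C) : R.r (Kp C) ≤ R.r S := by
  have h1 : R.r (S ∪ Kp C) = R.r S := by
    refine R.r_union_of_Cl fun f hf => ?_
    induction f using Sym2.ind with
    | _ a b =>
      rw [mk_mem_Kp] at hf
      exact hC a hf.1 b hf.2.1 hf.2.2
  rw [← h1]
  exact R.r_mono subset_union_right

/-- adjoining several vertices, each joined to the same `d` vertices of the clique -/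
theorem m4_Clq_many {d t : ℕ} (R : Rig d t) {S : Finset (Sym2 ℕ)} {C N : Finset ℕ}
    (hC : R.Clq S C) (hN : N ⊆ C) (hd : d ≤ N.card) (D : Finset ℕ)
    (h : ∀ v ∈ D, ∀ u ∈ N, u ≠ v → R.Cl S s(v, u)) : R.Clq S (D ∪ C) := by
  induction D using Finset.induction_on with
  | empty =>
    rw [empty_union]
    exact hC
  | insert v D hv ih =>
    rw [insert_union]
    refine R.Clq_insert (ih fun w hw => h w (mem_insert_of_mem hw))
      (hN.trans subset_union_right) hd fun u hu huv => ?_
    exact h v (mem_insert_self _ _) u hu huv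

/-- Merging two cliques costs at most `d^2` (join `d` vertices of `C₂` to `d` vertices of `C₁`). -/
theorem Rig.r_join {d t : ℕ} (R : Rig d t) {S : Finset (Sym2 ℕ)} {C₁ C₂ : Finset ℕ}
    (h1 : R.Clq S C₁) (h2 : R.Clq S C₂) (hd1 : d ≤ C₁.card) (hd2 : d ≤ C₂.card) :
    R.r (S ∪ Kp (C₁ ∪ C₂)) ≤ R.r S + d * d := by
  obtain ⟨D₁, hD1, hc1⟩ := exists_subset_card_eq hd1
  obtain ⟨D₂, hD2, hc2⟩ := exists_subset_card_eq hd2
  set S' := S ∪ Kb D₂ D₁ with hS'
  have hSS : S ⊆ S' := subset_union_left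
  have hcard : (Kb D₂ D₁).card ≤ d * d := by
    unfold Kb
    refine card_image_le.trans ?_
    rw [card_product, hc1, hc2]
  have hr : R.r S' ≤ R.r S + d * d := (R.r_union_le S (Kb D₂ D₁)).trans (by omega)
  have hA : R.Clq S' (D₂ ∪ C₁) := by
    refine m4_Clq_many R (R.Clq_mono hSS h1) hD1 hc1.ge D₂ fun v hv u hu _ => ?_
    refine R.Cl_of_mem (mem_union_right _ ?_)
    exact mem_Kb.2 ⟨v, hv, u, hu, rfl⟩
  have hB : R.Clq S' ((D₂ ∪ C₁) ∪ C₂) := by
    refine R.Clq_union hA (R.Clq_mono hSS h2) ?_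
    rw [← hc2]
    exact card_le_card (subset_inter subset_union_left hD2)
  have hC : R.Clq S' (C₁ ∪ C₂) := R.Clq_subset (by
    intro x hx
    rcases mem_union.1 hx with h | h
    · exact mem_union_left _ (mem_union_right _ h)
    · exact mem_union_right _ h) hB
  have h3 : R.r (S' ∪ Kp (C₁ ∪ C₂)) = R.r S' := by
    refine R.r_union_of_Cl fun f hf => ?_
    induction f using Sym2.ind with
    | _ a b =>
      rw [mk_mem_Kp] at hf
      exact hC a hf.1 b hf.2.1 hf.2.2
  have h4 : R.r (S ∪ Kp (C₁ ∪ C₂)) ≤ R.r (S' ∪ Kp (C₁ ∪ C₂)) :=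
    R.r_mono (union_subset_union_left hSS)
  omega

/-- (hint) edges on a vertex set disjoint from `C` are independent of the clique on `C`
(build the clique by free extensions on top of `F`). -/
theorem Rig.r_disjoint_clique {d t : ℕ} (R : Rig d t) {C : Finset ℕ} {F : Finset (Sym2 ℕ)}
    (hF : ∀ e ∈ F, ∀ x ∈ C, x ∉ e) : R.r (Kp C ∪ F) = R.r (Kp C) + R.r F := by
  induction C using Finset.induction_on with
  | empty =>
    have h0 : Kp (∅ : Finset ℕ) = ∅ := by
      ext e
      induction e using Sym2.ind with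
      | _ a b =>
        rw [mk_mem_Kp]
        simp
    rw [h0, R.r_empty, empty_union, zero_add]
  | insert v C hv ih =>
    have h1 := ih fun e he x hx => hF e he x (mem_insert_of_mem hx)
    have h2 : Kp (insert v C) ∪ F = (Kp C ∪ F) ∪ star v C := by
      rw [m4_Kp_insert hv, union_assoc, union_assoc, union_comm F]
    have h3 : ∀ e ∈ Kp C ∪ F, v ∉ e := by
      intro e he
      rcases mem_union.1 he with h | h
      · exact m4_not_mem_Kp hv e h
      · exact hF e h v (mem_insert_self _ _)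
    rcases Nat.lt_or_ge C.card d with h4 | h4
    · rw [h2, R.zero_ext (Kp C ∪ F) v C h3 hv h4.le, m4_step_small R hv h4.le, h1]
      omega
    · rw [h2, R.r_star h3 hv (R.Clq_mono subset_union_left (m4_Clq_Kp R C)) h4,
        m4_step_big R hv h4, h1]
      omega

open Classical in
/-- (hint) two unmerged cliques of sizes at least `m`: at most `d-1` vertices of `C₂` are joined
to all of `C₁`, every other vertex of `C₂` is joined to at most `d-1` vertices of `C₁`. -/
theorem Rig.card_unmerged {d t : ℕ} (R : Rig d t) {S : Finset (Sym2 ℕ)} {C₁ C₂ : Finset ℕ}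
    (h1 : R.Clq S C₁) (h2 : R.Clq S C₂) (hn : ¬ R.Clq S (C₁ ∪ C₂)) {m : ℕ} (hm1 : m ≤ C₁.card)
    (hm2 : m ≤ C₂.card) :
    (m - d) ^ 2 ≤ ((Kp (C₁ ∪ C₂)).filter (fun e => ¬ R.Cl S e)).card := by
  set J : ℕ → Finset ℕ := fun v => C₁.filter (fun u => u = v ∨ R.Cl S s(v, u)) with hJ
  set B := C₂.filter (fun v => d ≤ (J v).card ∨ v ∈ C₁) with hB
  -- vertices of `B` are joined to all of `C₁`
  have hBc : ∀ v ∈ B, R.Clq S (insert v C₁) := by
    intro v hv
    rcases (mem_filter.1 hv).2 with h | h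
    · refine R.Clq_insert h1 (filter_subset _ _) h fun u hu huv => ?_
      rcases (mem_filter.1 hu).2 with h' | h'
      · exact absurd h' huv
      · exact h'
    · rw [insert_eq_of_mem h]
      exact h1
  have hBcard : B.card < d := by
    by_contra hcon
    push Not at hcon
    refine hn ?_
    have h3 : R.Clq S (B ∪ C₁) := by
      intro a ha b hb hab
      by_cases haC : a ∈ C₁
      · by_cases hbC : b ∈ C₁
        · exact h1 a haC b hbC hab
        · have hbB : b ∈ B := (mem_union.1 hb).resolve_right hbC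
          exact hBc b hbB a (mem_insert_of_mem haC) b (mem_insert_self _ _) hab
      · have haB : a ∈ B := (mem_union.1 ha).resolve_right haC
        by_cases hbC : b ∈ C₁
        · exact hBc a haB a (mem_insert_self _ _) b (mem_insert_of_mem hbC) hab
        · have hbB : b ∈ B := (mem_union.1 hb).resolve_right hbC
          exact h2 a (mem_filter.1 haB).1 b (mem_filter.1 hbB).1 hab
    have h4 : R.Clq S ((B ∪ C₁) ∪ C₂) := by
      refine R.Clq_union h3 h2 (hcon.trans (card_le_card ?_))
      exact subset_inter subset_union_left (filter_subset _ _)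
    exact R.Clq_subset (by
      intro x hx
      rcases mem_union.1 hx with h | h
      · exact mem_union_left _ (mem_union_right _ h)
      · exact mem_union_right _ h) h4
  -- the pairs
  have hmap : ((C₂ \ B).sigma fun v => C₁ \ J v).card ≤
      ((Kp (C₁ ∪ C₂)).filter (fun e => ¬ R.Cl S e)).card := by
    refine card_le_card_of_injOn (fun q : (Σ _ : ℕ, ℕ) => s(q.1, q.2)) ?_ ?_
    · rintro ⟨v, u⟩ hq
      rw [mem_coe, mem_sigma] at hq
      obtain ⟨hv, hu⟩ := hq
      simp only [Finset.mem_sdiff] at hv hu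
      have hu2 : ¬ (u = v ∨ R.Cl S s(v, u)) := fun h => hu.2 (mem_filter.2 ⟨hu.1, h⟩)
      rw [not_or] at hu2
      rw [mem_coe, mem_filter]
      exact ⟨mk_mem_Kp.2 ⟨mem_union_right _ hv.1, mem_union_left _ hu.1, fun h => hu2.1 h.symm⟩,
        hu2.2⟩
    · rintro ⟨v, u⟩ hq ⟨v', u'⟩ hq' he
      rw [mem_coe, mem_sigma] at hq hq'
      simp only [Finset.mem_sdiff] at hq hq'
      have hv : v ∉ C₁ := fun h => hq.1.2 (mem_filter.2 ⟨hq.1.1, Or.inr h⟩)
      change s(v, u) = s(v', u') at he
      rcases Sym2.eq_iff.1 he with ⟨e1, e2⟩ | ⟨e1, e2⟩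
      · subst e1; subst e2; rfl
      · exact absurd (e1 ▸ hq'.2.1) hv
  refine le_trans ?_ hmap
  rw [card_sigma]
  have h5 : m - d ≤ (C₂ \ B).card := by
    have h6 := le_card_sdiff B C₂
    omega
  have h7 : ∀ v ∈ C₂ \ B, m - d ≤ (C₁ \ J v).card := by
    intro v hv
    rw [Finset.mem_sdiff] at hv
    have h8 : (J v).card < d := by
      by_contra hcon
      push Not at hcon
      exact hv.2 (mem_filter.2 ⟨hv.1, Or.inl hcon⟩)
    have h6 := le_card_sdiff (J v) C₁
    omega
  calc (m - d) ^ 2 = (m - d) * (m - d) := sq _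
    _ ≤ (C₂ \ B).card * (m - d) := Nat.mul_le_mul_right _ h5
    _ = ∑ _v ∈ C₂ \ B, (m - d) := by rw [sum_const, smul_eq_mul]
    _ ≤ ∑ v ∈ C₂ \ B, (C₁ \ J v).card := sum_le_sum h7

end Pool.Agent.Helper55.ML
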