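import Pool.Agent.Helper55.ML.M2
import Pool.Agent.Helper55.ML.M4

set_option autoImplicit false
open Finset Filter Topology

namespace Pool.Agent.Helper55.ML

/-- adding coloops one after the other -/
private theorem m12_aux {d t : ℕ} (R : Rig d t) {S U : Finset (Sym2 ℕ)} (T : Finset (Sym2 ℕ))
    (h : ∀ e ∈ T, ¬ R.Cl (U.erase e) e) (hS : S ⊆ U) (hT : T ⊆ U) (hd : ∀ e ∈ T, e ∉ S) :
    R.r (S ∪ T) = R.r S + T.card := by
  classical
  induction T using Finset.induction_on with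
  | empty => rw [Finset.union_empty, Finset.card_empty, Nat.add_zero]
  | insert e T he ih =>
    have ih' := ih (fun f hf => h f (Finset.mem_insert_of_mem hf))
      (fun f hf => hT (Finset.mem_insert_of_mem hf)) (fun f hf => hd f (Finset.mem_insert_of_mem hf))
    have h1 : S ∪ T ⊆ U.erase e := by
      intro f hf
      rw [Finset.mem_erase]
      rcases Finset.mem_union.1 hf with hf | hf
      · refine ⟨fun hfe => hd e (Finset.mem_insert_self e T) (hfe ▸ hf), hS hf⟩
      · exact ⟨fun hfe => he (hfe ▸ hf), hT (Finset.mem_insert_of_mem hf)⟩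
    have h2 : ¬ R.Cl (S ∪ T) e := fun hc =>
      h e (Finset.mem_insert_self e T) (R.Cl_mono h1 hc)
    rw [R.not_Cl_iff] at h2
    rw [Finset.union_insert, h2, ih', Finset.card_insert_of_notMem he]
    omega

open Classical in
/-- M12 (hint): nullity bound. `I`, `B`, `O` = edges of `G` inside `Y0`, with exactly one end in
`Y0`, with no end in `Y0`; `B'` = the edges of `B` that are coloops over `Kp Y0`, i.e. with
`¬ R.Cl (G.erase e ∪ Kp Y0) e`. `Y0` is a clique of the closure, so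
`r(G) = r(G ∪ Kp Y0) ≥ r(Kp Y0 ∪ O ∪ B') = r(Kp Y0 ∪ O) + |B'| = r(Kp Y0) + r(O) + |B'|`
(`r_disjoint_clique`), while `r(G) ≤ |I| + |B| + r(O)`. -/
theorem Rig.nullity_bound {d t : ℕ} (R : Rig d t) {n : ℕ} {G : Finset (Sym2 ℕ)} (hG : G ⊆ En n)
    {Y0 : Finset ℕ} (hY0 : Y0 ⊆ range n) (hY : R.Clq G Y0) :
    R.r (Kp Y0) ≤ (ins Y0 G).card +
      (G.filter (fun e => (∃ x ∈ e, x ∈ Y0) ∧ (∃ x ∈ e, x ∉ Y0) ∧
        R.Cl (G.erase e ∪ Kp Y0) e)).card := by
  obtain ⟨O, hO⟩ : ∃ O, O = G.filter (fun e => ∀ x ∈ e, x ∉ Y0) := ⟨_, rfl⟩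
  obtain ⟨B, hB⟩ : ∃ B, B = G.filter (fun e => (∃ x ∈ e, x ∈ Y0) ∧ (∃ x ∈ e, x ∉ Y0)) := ⟨_, rfl⟩
  obtain ⟨Bc, hBc⟩ : ∃ Bc, Bc = G.filter (fun e => (∃ x ∈ e, x ∈ Y0) ∧ (∃ x ∈ e, x ∉ Y0) ∧
        R.Cl (G.erase e ∪ Kp Y0) e) := ⟨_, rfl⟩
  rw [← hBc]
  have hsub : Bc ⊆ B := by
    intro e he
    rw [hBc, Finset.mem_filter] at he
    rw [hB, Finset.mem_filter]
    exact ⟨he.1, he.2.1, he.2.2.1⟩
  have hcard : (B \ Bc).card + Bc.card = B.card := Finset.card_sdiff_add_card_eq_card hsub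
  -- upper bound
  have h1 : R.r G ≤ R.r O + ((ins Y0 G).card + B.card) := by
    have h2 : G ⊆ O ∪ (ins Y0 G ∪ B) := by
      intro e he
      rw [Finset.mem_union, Finset.mem_union]
      by_cases ha : ∀ x ∈ e, x ∉ Y0
      · exact Or.inl (by rw [hO, Finset.mem_filter]; exact ⟨he, ha⟩)
      · by_cases hb : ∀ x ∈ e, x ∈ Y0
        · exact Or.inr (Or.inl (mem_ins.2 ⟨he, hb⟩))
        · refine Or.inr (Or.inr ?_)
          push Not at ha hb
          rw [hB, Finset.mem_filter]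
          exact ⟨he, ha, hb⟩
    refine (R.r_mono h2).trans ((R.r_union_le _ _).trans ?_)
    exact Nat.add_le_add_left (Finset.card_union_le _ _) _
  -- lower bound
  have h3 : R.r (G ∪ Kp Y0) = R.r G := by
    refine R.r_union_of_Cl fun f hf => ?_
    induction f using Sym2.ind with
    | _ a b =>
      rw [mk_mem_Kp] at hf
      exact hY a hf.1 b hf.2.1 hf.2.2
  have h4 : R.r ((Kp Y0 ∪ O) ∪ (B \ Bc)) = R.r (Kp Y0 ∪ O) + (B \ Bc).card := by
    have hBmem : ∀ e ∈ B, e ∈ G ∧ (∃ x ∈ e, x ∈ Y0) ∧ ∃ x ∈ e, x ∉ Y0 := by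
      intro e he
      rw [hB, Finset.mem_filter] at he
      exact he
    have hBK : ∀ e ∈ B, e ∉ Kp Y0 := by
      intro e he hk
      obtain ⟨_, _, x, hx, hxY⟩ := hBmem e he
      exact hxY ((mem_Kp.1 hk).1 x hx)
    refine m12_aux R (U := G ∪ Kp Y0) (B \ Bc) ?_ ?_ ?_ ?_
    · intro e he hc
      rw [Finset.mem_sdiff] at he
      apply he.2
      have hb := hBmem e he.1
      rw [hBc, Finset.mem_filter]
      refine ⟨hb.1, hb.2.1, hb.2.2, ?_⟩
      refine R.Cl_mono ?_ hc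
      rw [Finset.erase_union_distrib]
      exact Finset.union_subset_union_right (Finset.erase_subset _ _)
    · refine Finset.union_subset Finset.subset_union_right ?_
      intro e he
      rw [hO, Finset.mem_filter] at he
      exact Finset.mem_union_left _ he.1
    · intro e he
      exact Finset.mem_union_left _ (hBmem e (Finset.mem_sdiff.1 he).1).1
    · intro e he hc
      have hb := hBmem e (Finset.mem_sdiff.1 he).1
      rcases Finset.mem_union.1 hc with hc | hc
      · exact hBK e (Finset.mem_sdiff.1 he).1 hc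
      · rw [hO, Finset.mem_filter] at hc
        obtain ⟨x, hx, hxY⟩ := hb.2.1
        exact hc.2 x hx hxY
  have h5 : R.r (Kp Y0 ∪ O) = R.r (Kp Y0) + R.r O := by
    refine R.r_disjoint_clique fun e he x hx hxe => ?_
    rw [hO, Finset.mem_filter] at he
    exact he.2 x hxe hx
  have h6 : R.r ((Kp Y0 ∪ O) ∪ (B \ Bc)) ≤ R.r (G ∪ Kp Y0) := by
    refine R.r_mono ?_
    refine Finset.union_subset (Finset.union_subset Finset.subset_union_right ?_) ?_
    · intro e he
      rw [hO, Finset.mem_filter] at he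
      exact Finset.mem_union_left _ he.1
    · intro e he
      rw [Finset.mem_sdiff, hB, Finset.mem_filter] at he
      exact Finset.mem_union_left _ he.1.1
  omega

end Pool.Agent.Helper55.ML
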