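import Pool.Agent.Helper55.ML.F2
import Pool.Agent.Helper55.ML.F6
import Pool.Agent.Helper55.ML.M11
import Pool.Agent.Helper55.ML.M12
import Pool.Agent.Helper55.ML.Q8

set_option autoImplicit false
open Finset Filter Topology

namespace Pool.Agent.Helper55.ML

private theorem f7_markov {c : ℝ} (hc : 0 < c) {f : ℕ → Finset (Sym2 ℕ) → ℝ}
    (h0 : ∀ n G, 0 ≤ f n G) (hf : Van c f) {τ : ℝ} (hτ : 0 < τ) :
    Neg c (fun n G => τ ≤ f n G) := by
  unfold Van at hf
  have h1 := hf.const_mul τ⁻¹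
  rw [mul_zero] at h1
  refine Neg_of_le hc h1 ?_
  filter_upwards [cn_eventually hc] with n hn
  unfold Pr
  rw [← Ex_mul_left]
  refine Ex_mono hn.1.le (by linarith [hn.2]) (fun G _ => ?_)
  by_cases h : τ ≤ f n G
  · rw [ind_true h, inv_mul_eq_div, le_div_iff₀ hτ, one_mul]; exact h
  · rw [ind_false h]; exact mul_nonneg (inv_nonneg.2 hτ.le) (h0 n G)

/-! Equivariance. -/

private theorem f7_star_perm (σ : Equiv.Perm ℕ) (v : ℕ) (N : Finset ℕ) :
    star (σ v) (N.image σ) = (star v N).image (Sym2.map σ) := by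
  unfold star
  rw [Finset.image_image, Finset.image_image]
  rfl

private theorem f7_Kb_perm (σ : Equiv.Perm ℕ) (A B : Finset ℕ) :
    Kb (A.image σ) (B.image σ) = (Kb A B).image (Sym2.map σ) := by
  ext e
  rw [mem_Kb, Finset.mem_image]
  constructor
  · rintro ⟨a, ha, b, hb, rfl⟩
    obtain ⟨a', ha', rfl⟩ := Finset.mem_image.1 ha
    obtain ⟨b', hb', rfl⟩ := Finset.mem_image.1 hb
    exact ⟨s(a', b'), mem_Kb.2 ⟨a', ha', b', hb', rfl⟩, rfl⟩
  · rintro ⟨f, hf, rfl⟩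
    obtain ⟨a, ha, b, hb, rfl⟩ := mem_Kb.1 hf
    exact ⟨σ a, Finset.mem_image_of_mem σ ha, σ b, Finset.mem_image_of_mem σ hb, rfl⟩

private theorem f7_Clq_perm {d t : ℕ} (R : Rig d t) (σ : Equiv.Perm ℕ) (G : Finset (Sym2 ℕ))
    (C : Finset ℕ) : R.Clq (G.image (Sym2.map σ)) (C.image σ) ↔ R.Clq G C := by
  constructor
  · intro h a ha b hb hab
    have := h (σ a) (Finset.mem_image_of_mem σ ha) (σ b) (Finset.mem_image_of_mem σ hb)
      (fun h' => hab (σ.injective h'))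
    exact (R.Cl_perm σ G s(a, b)).1 this
  · intro h a ha b hb hab
    obtain ⟨a', ha', rfl⟩ := Finset.mem_image.1 ha
    obtain ⟨b', hb', rfl⟩ := Finset.mem_image.1 hb
    exact (R.Cl_perm σ G s(a', b')).2 (h a' ha' b' hb' (fun h' => hab (h' ▸ rfl)))

private theorem f7_DS0_perm {d t : ℕ} (R : Rig d t) (δ : ℝ) (n : ℕ) (σ : Equiv.Perm ℕ)
    (hσ : ∀ i, σ i < n ↔ i < n) (A : Finset ℕ) (G : Finset (Sym2 ℕ)) :
    R.DS0bad δ n (A.image σ) (G.image (Sym2.map σ)) ↔ R.DS0bad δ n A G := by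
  unfold Rig.DS0bad
  rw [R.Y_perm δ n σ hσ, Finset.image_nonempty, Finset.disjoint_image σ.injective, f7_Kb_perm,
    ← Finset.image_union, R.r_perm, R.r_perm, Finset.sum_image (fun a _ b _ h => σ.injective h)]
  have h1 : ∀ q ∈ A, R.r (G.image (Sym2.map σ) ∪ star (σ q) ((R.Y δ n G).image σ)) - R.r G =
      R.r (G ∪ star q (R.Y δ n G)) - R.r G := by
    intro q _
    rw [f7_star_perm, ← Finset.image_union, R.r_perm]
  rw [Finset.sum_congr rfl h1]

/-- The exceptional vertices. -/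
private def f7_Exc {d t : ℕ} (R : Rig d t) (δ : ℝ) (n v : ℕ) (G : Finset (Sym2 ℕ)) : Prop :=
  (¬ (v ∈ R.Y δ n G ↔ d ≤ (nb n G v ∩ R.Y δ n (del {v} G)).card)) ∨ R.DSbad δ n v G ∨
    ¬ R.Clq (del {v} G) (R.Y δ n (del {v} G))

private theorem f7_Exc_perm {d t : ℕ} (R : Rig d t) (δ : ℝ) (n : ℕ) (σ : Equiv.Perm ℕ)
    (hσ : ∀ i, σ i < n ↔ i < n) (v : ℕ) (G : Finset (Sym2 ℕ)) :
    f7_Exc R δ n (σ v) (G.image (Sym2.map σ)) ↔ f7_Exc R δ n v G := by
  have e1 : del {σ v} (G.image (Sym2.map σ)) = (del {v} G).image (Sym2.map σ) := by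
    rw [← del_perm, Finset.image_singleton]
  unfold f7_Exc Rig.DSbad
  rw [e1, R.Y_perm δ n σ hσ, R.Y_perm δ n σ hσ, nb_perm n σ hσ, f7_Clq_perm,
    ← Finset.image_sdiff _ _ σ.injective, f7_DS0_perm R δ n σ hσ,
    ← Finset.image_inter _ _ σ.injective, Finset.card_image_of_injective _ σ.injective]
  have e2 : σ v ∈ (R.Y δ n G).image σ ↔ v ∈ R.Y δ n G := by
    rw [Finset.mem_image]
    constructor
    · rintro ⟨a, ha, he⟩
      rwa [← σ.injective he]
    · intro h; exact ⟨v, h, rfl⟩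
  rw [e2]

private theorem f7_Exc_neg {d t : ℕ} (R : Rig d t) {c δ : ℝ} (hS : Std R c δ) :
    Neg c (fun n G => f7_Exc R δ n 0 G) := by
  have h3 := Neg_del hS.hc (R.Y_clq hS.hc hS.hδ) {0}
  exact Neg_or hS.hc (R.C1 hS) (Neg_or hS.hc (R.DS hS) h3)

private theorem f7_van {d t : ℕ} (R : Rig d t) {c δ : ℝ} (hS : Std R c δ) :
    Van c (fun n G => (∑ v ∈ range n, ((nb n G v).card : ℝ) * ind (f7_Exc R δ n v G)) / n) := by
  unfold Van
  have hE := f7_Exc_neg R hS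
  unfold Neg at hE
  rw [Metric.tendsto_nhds]
  intro ε hε
  obtain ⟨k0, hk0⟩ := deg_tail hS.hc (ε / 4) (by linarith)
  have h1 : ∀ᶠ n : ℕ in atTop, (k0 : ℝ) * Pr n (c / n) (fun G => f7_Exc R δ n 0 G) < ε / 4 := by
    have := hE.const_mul (k0 : ℝ)
    rw [mul_zero] at this
    exact this.eventually (gt_mem_nhds (by linarith))
  filter_upwards [hk0, h1, cn_eventually hS.hc, eventually_gt_atTop 0] with n h2 h3 h4 h5
  have hp0 := h4.1.le
  have hp1 : c / (n : ℝ) ≤ 1 := by linarith [h4.2]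
  have hn0 : (0 : ℝ) < n := by exact_mod_cast h5
  have h6 : Ex n (c / n) (fun G =>
      (∑ v ∈ range n, ((nb n G v).card : ℝ) * ind (f7_Exc R δ n v G)) / n) =
      Ex n (c / n) (fun G => ((nb n G 0).card : ℝ) * ind (f7_Exc R δ n 0 G)) := by
    have h7 := Ex_vertex_sum n (c / n)
      (fun v G => ((nb n G v).card : ℝ) * ind (f7_Exc R δ n v G)) (by
        intro σ hσ v G
        rw [nb_perm n σ hσ, Finset.card_image_of_injective _ σ.injective]
        congr 1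
        exact ind_congr (f7_Exc_perm R δ n σ hσ v G))
    have e1 : (fun G : Finset (Sym2 ℕ) =>
        (∑ v ∈ range n, ((nb n G v).card : ℝ) * ind (f7_Exc R δ n v G)) / n) =
        fun G => (∑ v ∈ range n, ((nb n G v).card : ℝ) * ind (f7_Exc R δ n v G)) * (n : ℝ)⁻¹ := by
      funext G
      rw [div_eq_mul_inv]
    rw [e1, Ex_mul_right, h7, mul_comm (n : ℝ), mul_assoc, mul_inv_cancel₀ hn0.ne', mul_one]
  rw [h6, Real.dist_eq, sub_zero]
  have h8 : Ex n (c / n) (fun G => ((nb n G 0).card : ℝ) * ind (f7_Exc R δ n 0 G)) ≤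
      Ex n (c / n) (fun G => (k0 : ℝ) * ind (f7_Exc R δ n 0 G) +
        ((nb n G 0).card : ℝ) * ind (k0 < (nb n G 0).card)) := by
    refine Ex_mono hp0 hp1 (fun G _ => ?_)
    by_cases hk : k0 < (nb n G 0).card
    · rw [ind_true hk, mul_one]
      have a1 := ind_le_one (f7_Exc R δ n 0 G)
      have a2 := ind_nonneg (f7_Exc R δ n 0 G)
      have a3 : (0 : ℝ) ≤ k0 := Nat.cast_nonneg _
      have a4 : (0 : ℝ) ≤ (nb n G 0).card := Nat.cast_nonneg _
      nlinarith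
    · rw [ind_false hk, mul_zero, add_zero]
      have a1 : ((nb n G 0).card : ℝ) ≤ k0 := by exact_mod_cast not_lt.1 hk
      exact mul_le_mul_of_nonneg_right a1 (ind_nonneg _)
  have h9 : 0 ≤ Ex n (c / n) (fun G => ((nb n G 0).card : ℝ) * ind (f7_Exc R δ n 0 G)) :=
    Ex_nonneg hp0 hp1 (fun G _ => mul_nonneg (Nat.cast_nonneg _) (ind_nonneg _))
  rw [abs_of_nonneg h9]
  rw [Ex_add (f := fun G => (k0 : ℝ) * ind (f7_Exc R δ n 0 G)), Ex_mul_left] at h8
  unfold Pr at h3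
  linarith

/-! Deterministic part. -/

private theorem f7_notmem {d t : ℕ} (R : Rig d t) (hd : 1 ≤ d) {δ : ℝ} {n : ℕ}
    (hn : 2 ≤ δ * n) {H : Finset (Sym2 ℕ)} {v : ℕ} (hv : ∀ e ∈ H, v ∉ e) :
    v ∉ R.Y δ n H := by
  intro hY
  obtain ⟨_, C, _, hvC, hC, hcard⟩ := R.mem_Y.1 hY
  have h1 : 1 < C.card := by
    have : (2 : ℝ) ≤ C.card := hn.trans hcard
    exact_mod_cast this
  obtain ⟨u, hu, huv⟩ := Finset.exists_mem_ne h1 v
  have h2 := hC v hvC u hu (Ne.symm huv)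
  rw [Rig.Cl_def] at h2
  have h3 := R.zero_ext H v {u} hv (by rw [Finset.mem_singleton]; exact Ne.symm huv)
    (by rw [Finset.card_singleton]; exact hd)
  have h4 : H ∪ star v {u} = insert s(v, u) H := by
    unfold star
    rw [Finset.image_singleton, Finset.union_comm, ← Finset.insert_eq]
  rw [h4, h2, Finset.card_singleton] at h3
  omega

private theorem f7_key {d t : ℕ} (R : Rig d t) (hd : 2 ≤ d) {δ : ℝ} {n : ℕ}
    (hn : 2 ≤ δ * n) {G : Finset (Sym2 ℕ)} (hG : G ⊆ En n) (hYc : R.Clq G (R.Y δ n G))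
    {x y : ℕ} (he : s(x, y) ∈ G) (hx : x ∈ R.Y δ n G) (hy : y ∉ R.Y δ n G)
    (hcl : R.Cl (G.erase s(x, y) ∪ Kp (R.Y δ n G)) s(x, y))
    (hnot : ¬ R.Cl (G.erase s(x, y)) s(x, y)) : f7_Exc R δ n x G := by
  by_contra hcon
  unfold f7_Exc at hcon
  rw [not_or, not_or, not_not, not_not] at hcon
  obtain ⟨hC1, hDS, hC⟩ := hcon
  have hxy := mk_mem_En.1 (hG he)
  have hdJ := hC1.1 hx
  have hv : ∀ e ∈ del {x} G, x ∉ e := by
    intro e he' hxe
    exact (mem_del.1 he').2 x hxe (Finset.mem_singleton_self x)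
  have hvC : x ∉ R.Y δ n (del {x} G) := f7_notmem R (by omega) hn hv
  have hsub : R.Y δ n (del {x} G) ⊆ R.Y δ n G := R.Y_mono (del_subset _ _)
  have hyC : y ∉ R.Y δ n (del {x} G) := fun h => hy (hsub h)
  have hGeq : del {x} G ∪ star x (nb n G x ∩ R.Y δ n (del {x} G)) ∪
      star x (nb n G x \ R.Y δ n (del {x} G)) = G := by
    conv_rhs => rw [← del_union_star (v := x) hG]
    rw [Finset.union_assoc]
    congr 1
    unfold star
    rw [← Finset.image_union]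
    congr 1
    ext z
    simp only [Finset.mem_union, Finset.mem_inter, Finset.mem_sdiff]
    tauto
  have hCne : (R.Y δ n (del {x} G)).Nonempty := by
    have h1 : 0 < (nb n G x ∩ R.Y δ n (del {x} G)).card := by omega
    obtain ⟨z, hz⟩ := Finset.card_pos.1 h1
    exact ⟨z, (Finset.mem_inter.1 hz).2⟩
  have hds : (∑ q ∈ nb n G x \ R.Y δ n (del {x} G),
      (R.r (del {x} G ∪ star q (R.Y δ n (del {x} G))) - R.r (del {x} G))) + R.r (del {x} G) ≤
      R.r (del {x} G ∪ Kb (nb n G x \ R.Y δ n (del {x} G)) (R.Y δ n (del {x} G))) := by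
    by_contra h2
    rw [not_le] at h2
    exact hDS ⟨hCne, Finset.sdiff_disjoint, h2⟩
  have hloop : ∀ e ∈ del {x} G, ¬ e.IsDiag := fun e he' =>
    (mem_En.1 (hG (del_subset _ _ he'))).2
  have hxnb : x ∉ nb n G x \ R.Y δ n (del {x} G) := by
    intro h
    have := mk_mem_En.1 (hG (mem_nb.1 (Finset.mem_sdiff.1 h).1).2)
    exact this.2.2 rfl
  have hynb : y ∈ nb n G x \ R.Y δ n (del {x} G) :=
    Finset.mem_sdiff.2 ⟨mem_nb.2 ⟨hxy.2.1, he⟩, hyC⟩
  have hfin := R.caseI (H := del {x} G) (C := R.Y δ n (del {x} G))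
    (J := nb n G x ∩ R.Y δ n (del {x} G)) (Q := nb n G x \ R.Y δ n (del {x} G))
    (Y := R.Y δ n G) (v := x) (i := y) (by omega) hloop hv hvC hC Finset.inter_subset_right hdJ
    Finset.sdiff_disjoint hxnb hds hynb (Finset.insert_subset hx hsub)
    (by rw [hGeq]; exact hYc)
    (by rw [hGeq]; exact R.Y_max ⟨x, hx⟩ hxy.2.1 hy)
    (by rw [hGeq]; exact hcl)
  rw [hGeq] at hfin
  exact hnot hfin

open Classical in
private theorem f7_count {d t : ℕ} (R : Rig d t) (hd : 2 ≤ d) {δ : ℝ} {n : ℕ}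
    (hn : 2 ≤ δ * n) {G : Finset (Sym2 ℕ)} (hG : G ⊆ En n) (hYc : R.Clq G (R.Y δ n G)) :
    ((G.filter (fun e => (∃ x ∈ e, x ∈ R.Y δ n G) ∧ (∃ x ∈ e, x ∉ R.Y δ n G) ∧
        R.Cl (G.erase e ∪ Kp (R.Y δ n G)) e)).card : ℝ) ≤
      ((G.filter (fun e => R.Cl (G.erase e) e ∧
        ¬ e.toFinset ⊆ R.Y δ n (G.erase e))).card : ℝ) +
      ∑ v ∈ range n, ((nb n G v).card : ℝ) * ind (f7_Exc R δ n v G) := by
  set X := (range n).filter (fun v => f7_Exc R δ n v G) with hX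
  have hsub : G.filter (fun e => (∃ x ∈ e, x ∈ R.Y δ n G) ∧ (∃ x ∈ e, x ∉ R.Y δ n G) ∧
        R.Cl (G.erase e ∪ Kp (R.Y δ n G)) e) ⊆
      G.filter (fun e => R.Cl (G.erase e) e ∧ ¬ e.toFinset ⊆ R.Y δ n (G.erase e)) ∪
        X.biUnion (fun v => star v (nb n G v)) := by
    intro e he
    rw [Finset.mem_filter] at he
    obtain ⟨heG, ⟨x, hxe, hxY⟩, ⟨y, hye, hyY⟩, hcl⟩ := he
    rw [Finset.mem_union]
    by_cases h1 : R.Cl (G.erase e) e
    · left
      rw [Finset.mem_filter]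
      refine ⟨heG, h1, fun h2 => hyY ?_⟩
      exact R.Y_mono (Finset.erase_subset _ _) (h2 (Sym2.mem_toFinset.2 hye))
    · right
      have hxy : x ≠ y := fun h => hyY (h ▸ hxY)
      have hes : e = s(x, y) := ((Sym2.mem_and_mem_iff hxy).1 ⟨hxe, hye⟩)
      subst hes
      have hb := mk_mem_En.1 (hG heG)
      have hexc := f7_key R hd hn hG hYc heG hxY hyY hcl h1
      rw [Finset.mem_biUnion]
      refine ⟨x, ?_, ?_⟩
      · rw [hX, Finset.mem_filter, Finset.mem_range]; exact ⟨hb.1, hexc⟩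
      · rw [mem_star]; exact ⟨y, mem_nb.2 ⟨hb.2.1, heG⟩, rfl⟩
  have h2 := (Finset.card_le_card hsub).trans (Finset.card_union_le _ _)
  have h3 : (X.biUnion (fun v => star v (nb n G v))).card ≤ ∑ v ∈ X, (nb n G v).card := by
    refine Finset.card_biUnion_le.trans (Finset.sum_le_sum (fun v _ => ?_))
    exact Finset.card_image_le
  have h4 : ((∑ v ∈ X, (nb n G v).card : ℕ) : ℝ) =
      ∑ v ∈ range n, ((nb n G v).card : ℝ) * ind (f7_Exc R δ n v G) := by
    push_cast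
    rw [hX, Finset.sum_filter]
    refine Finset.sum_congr rfl (fun v _ => ?_)
    by_cases h5 : f7_Exc R δ n v G
    · rw [if_pos h5, ind_true h5, mul_one]
    · rw [if_neg h5, ind_false h5, mul_zero]
  rw [← h4]
  have h6 := h2.trans (Nat.add_le_add_left h3 _)
  exact_mod_cast h6

/-- III (hint): if `Y = Y(G)` is empty the left side is `0 > -ε n`. Otherwise
`d|Y| - d(d+1)/2 = r(Kp Y) ≤ |ins Y G| + #B` (`nullity_bound`, `r_Kp`), where
`B` = boundary edges redundant over `Kp Y`. For `e = s(v,i)` in `B`, `v ∈ Y`, `i ∉ Y`: either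
`Cl (G.erase e) e`, counted in R0; or, by `caseI` (with `H = del {v} G`, `C = Y(H)`,
`J = nb v ∩ C`, `Q = nb v \ C`), the vertex `v` is exceptional: C1 fails, DSbad, or `Y(H)` is not a
clique. The expected number of edges at exceptional vertices is `o(n)`
(`Ex_vertex_sum`, `deg_tail`). -/
theorem Rig.III {d t : ℕ} (R : Rig d t) {c δ : ℝ} (hS : Std R c δ) {ε : ℝ} (hε : 0 < ε) :
    Neg c (fun n G => ((ins (R.Y δ n G) G).card : ℝ) ≤ d * ((R.Y δ n G).card : ℝ) - ε * n) := by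
  classical
  have hc := hS.hc
  have hR0 := R.R0 hS
  have hN2 : Neg c (fun n G => ε / 8 ≤ ((G.filter (fun e => R.Cl (G.erase e) e ∧
      ¬ e.toFinset ⊆ R.Y δ n (G.erase e))).card : ℝ) / n) := by
    refine f7_markov hc (fun n G => by positivity) ?_ (by linarith)
    convert hR0
  have hN3 := f7_markov hc (fun n G => div_nonneg (Finset.sum_nonneg
    (fun v _ => mul_nonneg (Nat.cast_nonneg _) (ind_nonneg _))) (Nat.cast_nonneg n))
    (f7_van R hS) (show 0 < ε / 8 by linarith)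
  refine Neg_mono hc (Neg_or hc (R.Y_clq hc hS.hδ) (Neg_or hc hN2 hN3)) ?_
  obtain ⟨N1, hN1⟩ := exists_nat_ge ((d + 2 : ℝ) / δ)
  obtain ⟨N4, hN4⟩ := exists_nat_ge ((2 * (d * (d + 1) / 2 : ℕ) : ℝ) / ε)
  filter_upwards [eventually_gt_atTop 0, eventually_ge_atTop N1, eventually_gt_atTop N4]
    with n hn0 hn1 hn4 G hG hev
  have hnpos : (0 : ℝ) < n := by exact_mod_cast hn0
  have hδn : (d : ℝ) + 2 ≤ δ * n := by
    have h1 : (d + 2 : ℝ) / δ ≤ n := hN1.trans (by exact_mod_cast hn1)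
    rw [div_le_iff₀ hS.hδ] at h1
    linarith
  have hK : (2 * (d * (d + 1) / 2 : ℕ) : ℝ) < ε * n := by
    have h1 : (2 * (d * (d + 1) / 2 : ℕ) : ℝ) / ε < n :=
      lt_of_le_of_lt hN4 (by exact_mod_cast hn4)
    rw [div_lt_iff₀ hε] at h1
    linarith
  have hd0 : (0 : ℝ) ≤ d := Nat.cast_nonneg d
  by_cases hclq : R.Clq G (R.Y δ n G)
  swap
  · exact Or.inl hclq
  right
  by_contra hcon
  rw [not_or, not_le, not_le, div_lt_iff₀ hnpos, div_lt_iff₀ hnpos] at hcon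
  have hne : (R.Y δ n G).Nonempty := by
    by_contra h1
    rw [Finset.not_nonempty_iff_eq_empty] at h1
    rw [h1] at hev
    simp only [Finset.card_empty, Nat.cast_zero, mul_zero, zero_sub] at hev
    have h2 : (0 : ℝ) ≤ ((ins ∅ G).card : ℝ) := Nat.cast_nonneg _
    have h3 : 0 < ε * n := by positivity
    linarith
  have hYd : d ≤ (R.Y δ n G).card := by
    have h1 := R.Y_card hne
    have h2 : (d : ℝ) ≤ ((R.Y δ n G).card : ℝ) := by linarith
    exact_mod_cast h2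
  have h5 := R.r_Kp hYd
  have h6 := R.nullity_bound hG R.Y_subset hclq
  have h7 := f7_count R hS.hd (by linarith : 2 ≤ δ * n) hG hclq
  have h8 : (d : ℝ) * ((R.Y δ n G).card : ℝ) ≤ ((ins (R.Y δ n G) G).card : ℝ) +
      ((G.filter (fun e => (∃ x ∈ e, x ∈ R.Y δ n G) ∧ (∃ x ∈ e, x ∉ R.Y δ n G) ∧
        R.Cl (G.erase e ∪ Kp (R.Y δ n G)) e)).card : ℝ) + ((d * (d + 1) / 2 : ℕ) : ℝ) := by
    have h9 : d * (R.Y δ n G).card ≤ (ins (R.Y δ n G) G).card +
      (G.filter (fun e => (∃ x ∈ e, x ∈ R.Y δ n G) ∧ (∃ x ∈ e, x ∉ R.Y δ n G) ∧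
        R.Cl (G.erase e ∪ Kp (R.Y δ n G)) e)).card + d * (d + 1) / 2 := by
      rw [← h5]
      exact Nat.add_le_add_right h6 _
    exact_mod_cast h9
  have h10 := hcon.1
  have h11 := hcon.2
  have h12 : 0 < ε * n := by positivity
  linarith

end Pool.Agent.Helper55.ML
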