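import Pool.Agent.Helper55.ML.S0

set_option autoImplicit false
open Finset Filter Topology

namespace Pool.Agent.Helper55.ML

/-- The good event: `Y` (threshold `x-η`) is a clique of the closure, `Y ∪ Pt k` is not much
bigger than `x n`, and after the deletion of any set of `(log n)^4` vertices there is still a clique
of the closure with at least `(x-η) n` vertices, and at least `d+2` of them are in the core of the
remaining graph. -/
def Rig.Gd {d t : ℕ} (R : Rig d t) (x η ε : ℝ) (k n : ℕ) (G : Finset (Sym2 ℕ)) : Prop :=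
  R.Clq G (R.Y (x - η) n G) ∧ ((R.Y (x - η) n G ∪ Pt d n k G).card : ℝ) ≤ (x + ε) * n ∧
    ∀ Q : Finset ℕ, Q ⊆ range n → Q.card ≤ (Nat.log 2 n) ^ 4 →
      ∃ C : Finset ℕ, C ⊆ range n ∧ C.Nonempty ∧ R.Clq (del Q G) C ∧
        (x - η) * n ≤ (C.card : ℝ) ∧ d + 2 ≤ (C ∩ core d n (del Q G)).card

/-- `(W,Z)` is a pre-structure: `W` connected, all vertices of `W \ Z` are in the core and have at
most `d-1` neighbours in `Y(G - W)`. -/
def Rig.Pre {d t : ℕ} (R : Rig d t) (x η : ℝ) (n : ℕ) (G : Finset (Sym2 ℕ)) (W Z : Finset ℕ) :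
    Prop :=
  W ⊆ range n ∧ Z ⊆ W ∧ Conn G W ∧
    ∀ u ∈ W \ Z, u ∈ core d n G ∧ (nb n G u ∩ R.Y (x - η) n (del W G)).card + 1 ≤ d

/-- All pre-structures with few exceptional vertices are trees or unicyclic and small. -/
def Rig.K1 {d t : ℕ} (R : Rig d t) (x η : ℝ) (C0 C3 n : ℕ) (G : Finset (Sym2 ℕ)) : Prop :=
  ∀ W Z : Finset ℕ, R.Pre x η n G W Z → W.card ≤ (Nat.log 2 n) ^ 3 →
    (Z.card : ℤ) ≤ C0 * (exc G W + 2) → exc G W ≤ 0 ∧ W.card ≤ C3 * Nat.log 2 n

open Classical in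
/-- The unicyclic pre-structures with at most `C0` exceptional vertices. -/
noncomputable def Rig.pairs {d t : ℕ} (R : Rig d t) (x η : ℝ) (C0 n : ℕ) (G : Finset (Sym2 ℕ)) :
    Finset (Finset ℕ × Finset ℕ) :=
  ((range n).powerset ×ˢ (range n).powerset).filter (fun q => R.Pre x η n G q.1 q.2 ∧
    exc G q.1 = 0 ∧ q.2.card ≤ C0 ∧ q.1.card ≤ (Nat.log 2 n) ^ 3)

/-- Weak set: nonempty subset of the core, all internal degrees at least 2, all vertices except at
most one of core degree exactly `d+1`. -/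
def Weak (d n : ℕ) (G : Finset (Sym2 ℕ)) (S : Finset ℕ) : Prop :=
  S ⊆ core d n G ∧ S.Nonempty ∧ (∀ u ∈ S, 2 ≤ (nb n G u ∩ S).card) ∧
    ∃ b, ∀ u ∈ S, u ≠ b → (nb n G u ∩ core d n G).card = d + 1

end Pool.Agent.Helper55.ML
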