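import Pool.Agent.Helper55.ML.M3

set_option autoImplicit false
open Finset Filter Topology

namespace Pool.Agent.Helper55.ML

open Classical in
/-- sum over the vertices of `D ⊆ C0` of the number of missing closure partners -/
private theorem m7_count {d t : ℕ} (R : Rig d t) (S : Finset (Sym2 ℕ)) {C0 D : Finset ℕ}
    (hD : D ⊆ C0) :
    ∑ v ∈ D, (C0.filter (fun u => u ≠ v ∧ ¬ R.Cl S s(v, u))).card ≤
      2 * ((Kp C0).filter (fun e => ¬ R.Cl S e)).card := by
  rw [← Finset.card_sigma]
  set P := D.sigma (fun v => C0.filter (fun u => u ≠ v ∧ ¬ R.Cl S s(v, u))) with hP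
  have h1 : P.card ≤ 2 * (P.image (fun x : (_ : ℕ) × ℕ => s(x.1, x.2))).card := by
    apply Finset.card_le_mul_card_image
    intro e _
    induction e using Sym2.ind with
    | _ a b =>
      refine le_trans (Finset.card_le_card (t := {⟨a, b⟩, ⟨b, a⟩}) ?_) Finset.card_le_two
      intro x hx
      rw [Finset.mem_filter] at hx
      have h2 := hx.2
      rw [Sym2.eq_iff] at h2
      obtain ⟨x1, x2⟩ := x
      simp only at h2
      rcases h2 with ⟨h3, h4⟩ | ⟨h3, h4⟩
      · subst h3; subst h4; simp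
      · subst h3; subst h4; simp
  refine h1.trans (Nat.mul_le_mul_left 2 (Finset.card_le_card ?_))
  intro e he
  rw [Finset.mem_image] at he
  obtain ⟨⟨v, u⟩, hx, rfl⟩ := he
  rw [hP, Finset.mem_sigma] at hx
  simp only [Finset.mem_filter] at hx
  rw [Finset.mem_filter, mk_mem_Kp]
  exact ⟨⟨hD hx.1, hx.2.1, fun h => hx.2.2.1 h.symm⟩, hx.2.2.2⟩

open Classical in
/-- M7 (hint): almost complete closure. Let `W` be the set of `v ∈ C0` with at most `κ n`
partners `u ∈ C0` with `s(v,u)` not in the closure; `|C0 \ W| ≤ 2 κ n`. Choose `t` vertices of `W`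
(set `A`); their common closure neighbours `U` in `W \ A` number at least
`|W| - t - t κ n ≥ κ n + t + d`; `A ∪ U` is a clique by `R.bip`; every other `w ∈ W` has at least
`d` closure neighbours in `U`, so joins (`Clq_insert`). So `W` is a clique. -/
theorem Rig.almost_clique {d t : ℕ} (R : Rig d t) (ht : 2 ≤ t) {κ : ℝ} (hκ : 0 < κ) {n : ℕ}
    {S : Finset (Sym2 ℕ)} {C0 : Finset ℕ} (hC0 : C0 ⊆ range n)
    (h : (((Kp C0).filter (fun e => ¬ R.Cl S e)).card : ℝ) ≤ κ ^ 2 * (n : ℝ) ^ 2)
    (hbig : (t + 3) * (κ * n) + 2 * t + d + 1 ≤ (C0.card : ℝ)) :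
    ∃ C : Finset ℕ, C ⊆ C0 ∧ R.Clq S C ∧ (C0.card : ℝ) - 2 * (κ * n) ≤ (C.card : ℝ) := by
  have hn : 0 < n := by
    rcases Nat.eq_zero_or_pos n with h0 | h0
    · subst h0
      rw [Finset.range_zero, Finset.subset_empty] at hC0
      subst hC0
      simp only [Finset.card_empty, Nat.cast_zero, mul_zero, zero_add] at hbig
      have h1 : (0 : ℝ) ≤ t := Nat.cast_nonneg t
      have h2 : (0 : ℝ) ≤ d := Nat.cast_nonneg d
      linarith
    · exact h0
  have hnpos : (0 : ℝ) < n := by exact_mod_cast hn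
  have hκn : 0 < κ * n := by positivity
  set bad : ℕ → Finset ℕ := fun v => C0.filter (fun u => u ≠ v ∧ ¬ R.Cl S s(v, u)) with hbad
  set W : Finset ℕ := C0.filter (fun v => ((bad v).card : ℝ) ≤ κ * n) with hW
  have hWC : W ⊆ C0 := Finset.filter_subset _ _
  have hWbad : ∀ v ∈ W, ((bad v).card : ℝ) ≤ κ * n := fun v hv => (Finset.mem_filter.1 hv).2
  -- size of `W`
  have hD : ((C0 \ W).card : ℝ) ≤ 2 * (κ * n) := by
    have h1 := m7_count R S (C0 := C0) (D := C0 \ W) Finset.sdiff_subset
    have h2 : ((C0 \ W).card : ℝ) * (κ * n) ≤ ((∑ v ∈ C0 \ W, (bad v).card : ℕ) : ℝ) := by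
      push_cast
      rw [← nsmul_eq_mul, ← Finset.sum_const]
      refine Finset.sum_le_sum (fun v hv => ?_)
      rw [Finset.mem_sdiff] at hv
      by_contra h3
      rw [not_le] at h3
      exact hv.2 (Finset.mem_filter.2 ⟨hv.1, h3.le⟩)
    have h3 : ((∑ v ∈ C0 \ W, (bad v).card : ℕ) : ℝ) ≤
        2 * ((((Kp C0).filter (fun e => ¬ R.Cl S e)).card : ℕ) : ℝ) := by
      exact_mod_cast h1
    have h4 : ((C0 \ W).card : ℝ) * (κ * n) ≤ (2 * (κ * n)) * (κ * n) := by
      refine h2.trans (h3.trans ?_)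
      nlinarith
    exact le_of_mul_le_mul_right h4 hκn
  have hWcard : (C0.card : ℝ) - 2 * (κ * n) ≤ (W.card : ℝ) := by
    have h1 := Finset.card_sdiff_add_card_eq_card hWC
    have h2 : ((C0 \ W).card : ℝ) + (W.card : ℝ) = (C0.card : ℝ) := by exact_mod_cast h1
    linarith
  refine ⟨W, hWC, ?_, hWcard⟩
  have ht0 : (0 : ℝ) ≤ t := Nat.cast_nonneg t
  have hd0 : (0 : ℝ) ≤ d := Nat.cast_nonneg d
  have hWbig : (t + 1) * (κ * n) + 2 * t + d + 1 ≤ (W.card : ℝ) := by nlinarith
  -- choose `A`
  have htW : t ≤ W.card := by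
    have : (t : ℝ) ≤ (W.card : ℝ) := by nlinarith
    exact_mod_cast this
  obtain ⟨A, hAW, hAt⟩ := Finset.exists_subset_card_eq htW
  set U : Finset ℕ := (W \ A).filter (fun u => ∀ a ∈ A, R.Cl S s(a, u)) with hU
  have hUW : U ⊆ W := (Finset.filter_subset _ _).trans Finset.sdiff_subset
  have hAU : Disjoint A U := by
    rw [Finset.disjoint_left]
    intro a ha hu
    exact (Finset.mem_sdiff.1 (Finset.mem_filter.1 hu).1).2 ha
  have hUcard : κ * n + t + d + 1 ≤ (U.card : ℝ) := by
    have h1 : W ⊆ A ∪ U ∪ A.biUnion bad := by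
      intro w hw
      by_cases hwA : w ∈ A
      · exact Finset.mem_union_left _ (Finset.mem_union_left _ hwA)
      · by_cases hwU : ∀ a ∈ A, R.Cl S s(a, w)
        · refine Finset.mem_union_left _ (Finset.mem_union_right _ ?_)
          exact Finset.mem_filter.2 ⟨Finset.mem_sdiff.2 ⟨hw, hwA⟩, hwU⟩
        · refine Finset.mem_union_right _ ?_
          push Not at hwU
          obtain ⟨a, ha, hcl⟩ := hwU
          rw [Finset.mem_biUnion]
          refine ⟨a, ha, Finset.mem_filter.2 ⟨hWC hw, ?_, hcl⟩⟩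
          rintro rfl
          exact hwA ha
    have h2 : W.card ≤ A.card + U.card + ∑ a ∈ A, (bad a).card := by
      refine (Finset.card_le_card h1).trans ?_
      refine (Finset.card_union_le _ _).trans ?_
      exact Nat.add_le_add (Finset.card_union_le _ _) Finset.card_biUnion_le
    have h3 : ((∑ a ∈ A, (bad a).card : ℕ) : ℝ) ≤ t * (κ * n) := by
      push_cast
      rw [← hAt, ← nsmul_eq_mul, ← Finset.sum_const]
      exact Finset.sum_le_sum (fun a ha => hWbad a (hAW ha))
    have h4 : (W.card : ℝ) ≤ A.card + U.card + ((∑ a ∈ A, (bad a).card : ℕ) : ℝ) := by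
      exact_mod_cast h2
    rw [hAt] at h4
    nlinarith
  have htU : t ≤ U.card := by
    have : (t : ℝ) ≤ (U.card : ℝ) := by linarith
    exact_mod_cast this
  -- `A ∪ U` is a clique
  have hclq : R.Clq S (A ∪ U) := by
    intro x hx y hy hxy
    have hs : (({x, y} : Finset ℕ) ∩ U).card ≤ t :=
      (Finset.card_le_card Finset.inter_subset_left).trans (Finset.card_le_two.trans ht)
    obtain ⟨B, hB1, hB2, hB3⟩ :=
      Finset.exists_subsuperset_card_eq (Finset.inter_subset_right (s₁ := {x, y}) (s₂ := U)) hs htU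
    have hbip := R.bip S A B (Disjoint.mono_right hB2 hAU) hAt hB3
      (fun a ha b hb => (Finset.mem_filter.1 (hB2 hb)).2 a ha)
    have key : ∀ z ∈ A ∪ U, z ∈ ({x, y} : Finset ℕ) → z ∈ A ∪ B := by
      intro z hz hz2
      rcases Finset.mem_union.1 hz with h1 | h1
      · exact Finset.mem_union_left _ h1
      · exact Finset.mem_union_right _ (hB1 (Finset.mem_inter.2 ⟨hz2, h1⟩))
    exact hbip x (key x hx (by simp)) y (key y hy (by simp)) hxy
  -- add the other vertices
  have hadd : ∀ W' : Finset ℕ, W' ⊆ W → R.Clq S (A ∪ U ∪ W') := by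
    intro W'
    induction W' using Finset.induction_on with
    | empty => intro _; rwa [Finset.union_empty]
    | insert w W' _ ih =>
      intro hsub
      have hw : w ∈ W := hsub (Finset.mem_insert_self w W')
      have ih' := ih (fun x hx => hsub (Finset.mem_insert_of_mem hx))
      rw [Finset.union_insert]
      refine R.Clq_insert ih' (N := U \ bad w) ?_ ?_ ?_
      · intro u hu
        exact Finset.mem_union_left _ (Finset.mem_union_right _ (Finset.mem_sdiff.1 hu).1)
      · have h1 : U.card ≤ (U \ bad w).card + (bad w).card :=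
          Nat.sub_le_iff_le_add.1 (Finset.le_card_sdiff _ _)
        have h2 := hWbad w hw
        have h3 : (U.card : ℝ) ≤ ((U \ bad w).card : ℝ) + ((bad w).card : ℝ) := by
          exact_mod_cast h1
        have h4 : (d : ℝ) ≤ ((U \ bad w).card : ℝ) := by linarith
        exact_mod_cast h4
      · intro u hu huw
        rw [Finset.mem_sdiff] at hu
        by_contra hcl
        exact hu.2 (Finset.mem_filter.2 ⟨hWC (hUW hu.1), huw, hcl⟩)
  exact R.Clq_subset Finset.subset_union_right (hadd W subset_rfl)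

end Pool.Agent.Helper55.ML
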