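import Pool.Agent.Helper55.ML.Q9

set_option autoImplicit false
open Finset Filter Topology

namespace Pool.Agent.Helper55.ML

/-- `sN n * n^2 = n^{1/4}`. -/
private theorem q9b_sN {n : ℕ} (hn : 0 < n) : sN n * (n : ℝ) ^ 2 = (n : ℝ) ^ ((1 : ℝ) / 4) := by
  have h0 : (0 : ℝ) < n := by exact_mod_cast hn
  unfold sN
  rw [← Real.rpow_natCast, ← Real.rpow_add h0]
  norm_num

private theorem q9b_log {n : ℕ} (hn : 1 ≤ n) : (Nat.log 2 n : ℝ) ≤ 2 * Real.log n := by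
  have h0 : (0 : ℝ) < n := by exact_mod_cast hn
  have h1 : ((2 : ℝ)) ^ (Nat.log 2 n) ≤ n := by
    exact_mod_cast Nat.pow_log_le_self 2 (by omega)
  have h2 : (Nat.log 2 n : ℝ) * Real.log 2 ≤ Real.log n := by
    rw [← Real.log_pow]
    exact Real.log_le_log (by positivity) h1
  have h3 : (1 : ℝ) / 2 < Real.log 2 := by
    have := Real.log_two_gt_d9
    linarith
  have h4 : (0 : ℝ) ≤ Nat.log 2 n := Nat.cast_nonneg _
  nlinarith

/-- `sN n * n^2 → ∞` like `n^{1/4}`, so it beats every power of the logarithm. -/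
theorem sprinkle_many (k : ℕ) (κ : ℝ) (hκ : 0 < κ) :
    Tendsto (fun n : ℕ => (n : ℝ) ^ ((Nat.log 2 n) ^ k) * (1 + sN n * (n : ℝ) ^ 2) ^
      ((Nat.log 2 n) ^ k) * (1 - sN n) ^ (⌈κ * (n : ℝ) ^ 2⌉₊)) atTop (𝓝 0) := by
  have hcast : Tendsto (fun n : ℕ => (n : ℝ)) atTop atTop := tendsto_natCast_atTop_atTop
  -- the quarter power beats powers of the logarithm
  have hlo : ∀ᶠ n : ℕ in atTop,
      3 * 2 ^ k * Real.log (n : ℝ) ^ (k + 1) ≤ κ / 2 * (n : ℝ) ^ ((1 : ℝ) / 4) := by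
    have h := (isLittleO_log_rpow_rpow_atTop ((k : ℝ) + 1) (show (0 : ℝ) < 1 / 4 by norm_num)).comp_tendsto hcast
    have hc : (0 : ℝ) < κ / 2 / (3 * 2 ^ k) := by positivity
    have h2 := h.bound hc
    filter_upwards [h2, eventually_ge_atTop 1] with n hn h1
    have h1' : (1 : ℝ) ≤ n := by exact_mod_cast h1
    have hl : 0 ≤ Real.log (n : ℝ) := Real.log_nonneg h1'
    simp only [Function.comp_apply] at hn
    rw [Real.norm_of_nonneg (Real.rpow_nonneg hl _),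
      Real.norm_of_nonneg (Real.rpow_nonneg (by linarith) _)] at hn
    have he : Real.log (n : ℝ) ^ ((k : ℝ) + 1) = Real.log (n : ℝ) ^ (k + 1) := by
      rw [← Real.rpow_natCast]
      norm_num
    rw [he] at hn
    have hp : (0 : ℝ) < 3 * 2 ^ k := by positivity
    calc 3 * 2 ^ k * Real.log (n : ℝ) ^ (k + 1)
        ≤ 3 * 2 ^ k * (κ / 2 / (3 * 2 ^ k) * (n : ℝ) ^ ((1 : ℝ) / 4)) :=
          mul_le_mul_of_nonneg_left hn hp.le
      _ = κ / 2 * (n : ℝ) ^ ((1 : ℝ) / 4) := by field_simp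
  have hs1 : ∀ᶠ n : ℕ in atTop, sN n ≤ 1 := by
    filter_upwards [eventually_ge_atTop 1] with n hn
    have h1' : (1 : ℝ) ≤ n := by exact_mod_cast hn
    unfold sN
    exact Real.rpow_le_one_of_one_le_of_nonpos h1' (by norm_num)
  -- the comparison function
  have hexp : Tendsto (fun n : ℕ => Real.exp (-(κ / 2 * (n : ℝ) ^ ((1 : ℝ) / 4)))) atTop (𝓝 0) := by
    apply Real.tendsto_exp_neg_atTop_nhds_zero.comp
    exact Tendsto.const_mul_atTop (by positivity)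
      ((tendsto_rpow_atTop (by norm_num : (0 : ℝ) < 1 / 4)).comp hcast)
  refine tendsto_of_tendsto_of_tendsto_of_le_of_le' tendsto_const_nhds hexp ?_ ?_
  · filter_upwards [hs1] with n hn
    have : 0 ≤ sN n := Real.rpow_nonneg (Nat.cast_nonneg n) _
    apply mul_nonneg
    · positivity
    · exact pow_nonneg (by linarith) _
  · filter_upwards [hs1, hlo, eventually_ge_atTop 2] with n hs hl hn
    have hs0 : 0 ≤ sN n := Real.rpow_nonneg (Nat.cast_nonneg n) _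
    have h2 : (2 : ℝ) ≤ n := by exact_mod_cast hn
    have hn0 : (0 : ℝ) < n := by linarith
    have hlog : 0 ≤ Real.log (n : ℝ) := Real.log_nonneg (by linarith)
    have hquart : (n : ℝ) ^ ((1 : ℝ) / 4) ≤ n := by
      have := Real.rpow_le_rpow_of_exponent_le (show (1 : ℝ) ≤ n by linarith)
        (show (1 : ℝ) / 4 ≤ 1 by norm_num)
      rwa [Real.rpow_one] at this
    have hA : (n : ℝ) ^ ((Nat.log 2 n) ^ k) * (1 + sN n * (n : ℝ) ^ 2) ^ ((Nat.log 2 n) ^ k)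
        ≤ Real.exp (3 * 2 ^ k * Real.log (n : ℝ) ^ (k + 1)) := by
      rw [← mul_pow, q9b_sN (by omega)]
      have h3 : (n : ℝ) * (1 + (n : ℝ) ^ ((1 : ℝ) / 4)) ≤ (n : ℝ) ^ 3 := by
        have : 1 + (n : ℝ) ^ ((1 : ℝ) / 4) ≤ (n : ℝ) ^ 2 := by nlinarith
        calc (n : ℝ) * (1 + (n : ℝ) ^ ((1 : ℝ) / 4)) ≤ n * (n : ℝ) ^ 2 :=
              mul_le_mul_of_nonneg_left this hn0.le
          _ = (n : ℝ) ^ 3 := by ring
      have h4 : (n : ℝ) ^ 3 = Real.exp (3 * Real.log n) := by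
        have : (3 : ℝ) * Real.log n = Real.log ((n : ℝ) ^ 3) := by
          rw [Real.log_pow]; norm_num
        rw [this, Real.exp_log (by positivity)]
      have h5 : ((n : ℝ) * (1 + (n : ℝ) ^ ((1 : ℝ) / 4))) ^ ((Nat.log 2 n) ^ k)
          ≤ (Real.exp (3 * Real.log n)) ^ ((Nat.log 2 n) ^ k) := by
        apply pow_le_pow_left₀ (by positivity)
        rw [← h4]; exact h3
      refine h5.trans ?_
      rw [← Real.exp_nat_mul]
      apply Real.exp_le_exp.2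
      push_cast
      have h6 : (Nat.log 2 n : ℝ) ^ k ≤ (2 * Real.log n) ^ k :=
        pow_le_pow_left₀ (Nat.cast_nonneg _) (q9b_log (by omega)) k
      calc (Nat.log 2 n : ℝ) ^ k * (3 * Real.log n)
          ≤ (2 * Real.log n) ^ k * (3 * Real.log n) :=
            mul_le_mul_of_nonneg_right h6 (by positivity)
        _ = 3 * 2 ^ k * Real.log (n : ℝ) ^ (k + 1) := by rw [mul_pow]; ring
    have hB : (1 - sN n) ^ (⌈κ * (n : ℝ) ^ 2⌉₊) ≤ Real.exp (-(κ * (n : ℝ) ^ ((1 : ℝ) / 4))) := by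
      have h1 : 1 - sN n ≤ Real.exp (-(sN n)) := by
        have := Real.add_one_le_exp (-(sN n))
        linarith
      calc (1 - sN n) ^ (⌈κ * (n : ℝ) ^ 2⌉₊) ≤ (Real.exp (-(sN n))) ^ (⌈κ * (n : ℝ) ^ 2⌉₊) :=
            pow_le_pow_left₀ (by linarith) h1 _
        _ = Real.exp ((⌈κ * (n : ℝ) ^ 2⌉₊ : ℝ) * (-(sN n))) := by rw [← Real.exp_nat_mul]
        _ ≤ Real.exp (-(κ * (n : ℝ) ^ ((1 : ℝ) / 4))) := by
            apply Real.exp_le_exp.2
            have h7 : κ * (n : ℝ) ^ 2 ≤ (⌈κ * (n : ℝ) ^ 2⌉₊ : ℝ) := Nat.le_ceil _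
            have h8 := q9b_sN (n := n) (by omega)
            rw [← h8]
            nlinarith [mul_le_mul_of_nonneg_right h7 hs0]
    calc _ ≤ Real.exp (3 * 2 ^ k * Real.log (n : ℝ) ^ (k + 1)) *
          Real.exp (-(κ * (n : ℝ) ^ ((1 : ℝ) / 4))) :=
          mul_le_mul hA hB (pow_nonneg (by linarith) _) (Real.exp_pos _).le
      _ = Real.exp (3 * 2 ^ k * Real.log (n : ℝ) ^ (k + 1) -
          κ * (n : ℝ) ^ ((1 : ℝ) / 4)) := by rw [← Real.exp_add]; congr 1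
      _ ≤ Real.exp (-(κ / 2 * (n : ℝ) ^ ((1 : ℝ) / 4))) := by
          apply Real.exp_le_exp.2
          linarith

end Pool.Agent.Helper55.ML
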