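import Pool.Agent.Helper55.ML.Basic
import Pool.Agent.Helper55.ML.P4

set_option autoImplicit false
open Finset Filter Topology

namespace Pool.Agent.Helper55.ML

/-- a basis of `T` over `H` -/
theorem sp_basis {d t : ℕ} (R : Rig d t) (H T : Finset (Sym2 ℕ)) :
    ∃ B ⊆ T, R.r (H ∪ B) = R.r (H ∪ T) ∧ R.r (H ∪ B) = R.r H + B.card := by
  induction T using Finset.induction_on with
  | empty => exact ⟨∅, subset_rfl, rfl, by simp⟩
  | insert e T he ih =>
    obtain ⟨B, hB, h1, h2⟩ := ih
    by_cases hc : R.Cl (H ∪ T) e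
    · refine ⟨B, hB.trans (subset_insert _ _), ?_, h2⟩
      rw [h1, union_insert]
      exact (R.Cl_def.1 hc).symm
    · have hc' : ¬ R.Cl (H ∪ B) e := fun h => hc (R.Cl_mono (union_subset_union_right hB) h)
      rw [R.not_Cl_iff] at hc hc'
      have heB : e ∉ B := fun h => he (hB h)
      refine ⟨insert e B, insert_subset_insert e hB, ?_, ?_⟩
      · rw [union_insert, union_insert, hc, hc', h1]
      · rw [union_insert, hc', h2, card_insert_of_notMem heB, add_assoc]

/-- the weighted number of small subsets -/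
theorem sp_sum (X : Finset (Sym2 ℕ)) {s : ℝ} (h0 : 0 ≤ s) (K : ℕ) :
    ∑ B ∈ X.powerset, (if B.card ≤ K then s ^ B.card else 0) ≤ (1 + s * X.card) ^ K := by
  rw [Finset.sum_powerset_apply_card (fun j => if j ≤ K then s ^ j else (0 : ℝ))]
  have h1 : ∑ j ∈ range (X.card + 1), X.card.choose j • (if j ≤ K then s ^ j else (0 : ℝ)) ≤
      ∑ j ∈ range (K + 1), (K.choose j : ℝ) * (s * X.card) ^ j := by
    have h2 : ∀ j ∈ range (X.card + 1), X.card.choose j • (if j ≤ K then s ^ j else (0 : ℝ)) =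
        if j ∈ range (K + 1) then (X.card.choose j : ℝ) * s ^ j else 0 := by
      intro j _
      by_cases hj : j ≤ K
      · rw [if_pos hj, if_pos (mem_range.2 (Nat.lt_succ_of_le hj)), nsmul_eq_mul]
      · rw [if_neg hj, if_neg (fun h => hj (Nat.lt_succ_iff.1 (mem_range.1 h))), smul_zero]
    rw [sum_congr rfl h2, ← sum_filter]
    refine (sum_le_sum_of_subset_of_nonneg (t := range (K + 1)) ?_ ?_).trans
      (sum_le_sum fun j hj => ?_)
    · intro j hj
      exact (mem_filter.1 hj).2
    · intro j _ _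
      positivity
    · have h3 : (X.card.choose j : ℝ) ≤ (X.card : ℝ) ^ j := by
        exact_mod_cast Nat.choose_le_pow _ _
      have h4 : (1 : ℝ) ≤ (K.choose j : ℝ) := by
        exact_mod_cast Nat.choose_pos (Nat.lt_succ_iff.1 (mem_range.1 hj))
      have h5 : (0 : ℝ) ≤ (X.card : ℝ) ^ j * s ^ j := by positivity
      calc (X.card.choose j : ℝ) * s ^ j ≤ (X.card : ℝ) ^ j * s ^ j :=
            mul_le_mul_of_nonneg_right h3 (by positivity)
        _ ≤ (K.choose j : ℝ) * ((X.card : ℝ) ^ j * s ^ j) := le_mul_of_one_le_left h5 h4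
        _ = (K.choose j : ℝ) * (s * X.card) ^ j := by rw [mul_pow, mul_comm (s ^ j)]
  refine h1.trans (le_of_eq ?_)
  rw [add_comm (1 : ℝ), add_pow]
  refine sum_congr rfl fun j _ => ?_
  rw [one_pow, mul_one, mul_comm]

open Classical in
/-- SP (sprinkling lemma; hint). If the event holds for `T`, choose `B ⊆ T ∩ X`, `|B| ≤ K`,
with the same closure over `H` as `T ∩ X`; then `T` avoids `F_B = {e ∈ X : ¬ Cl (H ∪ B) e}`,
which has at least `m` elements. Union bound over `B`: `∑_{B ⊆ X, |B| ≤ K} s^|B| (1-s)^m` and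
`∑_{B ⊆ X, |B| ≤ K} s^|B| ≤ (1 + s|X|)^K`. -/
theorem Rig.sprinkle_span {d t : ℕ} (R : Rig d t) (n : ℕ) {s : ℝ} (h0 : 0 ≤ s) (h1 : s ≤ 1)
    {H X : Finset (Sym2 ℕ)} (hX : X ⊆ En n) {K : ℕ} (hK : R.r (H ∪ X) ≤ R.r H + K) (m : ℕ) :
    Pr n s (fun T => m ≤ (X.filter (fun e => ¬ R.Cl (H ∪ T) e)).card) ≤
      (1 + s * X.card) ^ K * (1 - s) ^ m := by
  set F : Finset (Sym2 ℕ) → Finset (Sym2 ℕ) := fun B => X.filter (fun e => ¬ R.Cl (H ∪ B) e)
    with hF
  -- the union bound
  have hub : ∀ T ⊆ En n, ind (m ≤ (X.filter (fun e => ¬ R.Cl (H ∪ T) e)).card) ≤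
      ∑ B ∈ X.powerset, (if B.card ≤ K ∧ m ≤ (F B).card then
        ind (B ⊆ T ∧ Disjoint T (F B)) else 0) := by
    intro T _
    by_cases hm : m ≤ (X.filter (fun e => ¬ R.Cl (H ∪ T) e)).card
    · rw [ind_true hm]
      obtain ⟨B, hB, hr1, hr2⟩ := sp_basis R H (T ∩ X)
      have hBX : B ⊆ X := hB.trans inter_subset_right
      have hBT : B ⊆ T := hB.trans inter_subset_left
      have hBK : B.card ≤ K := by
        have h3 : R.r (H ∪ B) ≤ R.r (H ∪ X) := R.r_mono (union_subset_union_right hBX)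
        omega
      have hcl : ∀ f ∈ T ∩ X, R.Cl (H ∪ B) f := by
        intro f hf
        rw [R.Cl_def]
        refine le_antisymm ?_ (R.r_mono (subset_insert _ _))
        rw [hr1]
        refine R.r_mono (insert_subset (mem_union_right _ hf) ?_)
        rw [← hr1] at *
        exact union_subset_union_right hB
      have hdis : Disjoint T (F B) := by
        rw [disjoint_left]
        intro f hfT hfF
        rw [hF, mem_filter] at hfF
        exact hfF.2 (hcl f (mem_inter.2 ⟨hfT, hfF.1⟩))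
      have hmB : m ≤ (F B).card := by
        refine hm.trans (card_le_card ?_)
        intro f hf
        rw [mem_filter] at hf
        rw [hF, mem_filter]
        exact ⟨hf.1, fun h => hf.2 (R.Cl_mono (union_subset_union_right hBT) h)⟩
      have hterm : (1 : ℝ) = (if B.card ≤ K ∧ m ≤ (F B).card then
          ind (B ⊆ T ∧ Disjoint T (F B)) else 0) := by
        rw [if_pos ⟨hBK, hmB⟩, ind_true ⟨hBT, hdis⟩]
      rw [hterm]
      refine single_le_sum (f := fun B => (if B.card ≤ K ∧ m ≤ (F B).card then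
        ind (B ⊆ T ∧ Disjoint T (F B)) else 0)) (fun B _ => ?_) (mem_powerset.2 hBX)
      change (0 : ℝ) ≤ if B.card ≤ K ∧ m ≤ (F B).card then
        ind (B ⊆ T ∧ Disjoint T (F B)) else 0
      split_ifs
      · exact ind_nonneg _
      · exact le_rfl
    · rw [ind_false hm]
      refine sum_nonneg fun B _ => ?_
      split_ifs
      · exact ind_nonneg _
      · exact le_rfl
  unfold Pr
  refine (Ex_mono h0 h1 hub).trans ?_
  rw [Ex_sum]
  have hE : ∀ B ∈ X.powerset, Ex n s (fun T => if B.card ≤ K ∧ m ≤ (F B).card then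
      ind (B ⊆ T ∧ Disjoint T (F B)) else 0) ≤
      (if B.card ≤ K then s ^ B.card else 0) * (1 - s) ^ m := by
    intro B hB
    rw [mem_powerset] at hB
    by_cases hc : B.card ≤ K ∧ m ≤ (F B).card
    · rw [if_pos hc.1]
      have h3 : Ex n s (fun T => if B.card ≤ K ∧ m ≤ (F B).card then
          ind (B ⊆ T ∧ Disjoint T (F B)) else 0) = s ^ B.card * (1 - s) ^ (F B).card := by
        rw [← BE_subset_disj (E := En n) (hB.trans hX)
          ((filter_subset _ _).trans hX : F B ⊆ En n) ?_ s]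
        · refine Ex_congr fun T _ => ?_
          rw [if_pos hc]
        · rw [disjoint_left]
          intro f hfB hfF
          exact (mem_filter.1 hfF).2 (R.Cl_of_mem (mem_union_right _ hfB))
      rw [h3]
      refine mul_le_mul_of_nonneg_left ?_ (pow_nonneg h0 _)
      exact pow_le_pow_of_le_one (by linarith) (by linarith) hc.2
    · have h3 : Ex n s (fun T => if B.card ≤ K ∧ m ≤ (F B).card then
          ind (B ⊆ T ∧ Disjoint T (F B)) else 0) = 0 := by
        rw [Ex_congr (g := fun _ => (0 : ℝ)) fun T _ => if_neg hc, Ex_const]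
      rw [h3]
      refine mul_nonneg ?_ (pow_nonneg (by linarith) _)
      split_ifs
      · exact pow_nonneg h0 _
      · exact le_rfl
  refine (sum_le_sum hE).trans ?_
  rw [← sum_mul]
  exact mul_le_mul_of_nonneg_right (sp_sum X h0 K) (pow_nonneg (by linarith) _)

end Pool.Agent.Helper55.ML
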