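import Pool.Agent.Helper55.ML.SP
import Pool.Agent.Helper55.ML.M4
import Pool.Agent.Helper55.ML.Q9b

set_option autoImplicit false
open Finset Filter Topology

namespace Pool.Agent.Helper55.ML

open Classical in
/-- the graph part of T2: after adding `T` either many pairs of `Kp (C₁ ∪ C₂)` are not in the
closure or the closure has grown by many pairs -/
theorem t2_aux {d t : ℕ} (R : Rig d t) {n : ℕ} {G T : Finset (Sym2 ℕ)} {C₁ C₂ : Finset ℕ}
    (hC1 : C₁ ⊆ range n) (hC2 : C₂ ⊆ range n) (h1 : R.Clq G C₁) (h2 : R.Clq G C₂)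
    (hn : ¬ R.Clq G (C₁ ∪ C₂)) {k m : ℕ} (hk1 : k ≤ C₁.card) (hk2 : k ≤ C₂.card)
    (hm : m ≤ (k - d) ^ 2)
    (hT : ¬ m ≤ ((Kp (C₁ ∪ C₂)).filter (fun e => ¬ R.Cl (G ∪ T) e)).card) :
    (R.cl n G).card + m ≤ (R.cl n (G ∪ T)).card := by
  have hq : R.Clq (G ∪ T) (C₁ ∪ C₂) := by
    by_contra hcon
    exact hT (hm.trans (R.card_unmerged (R.Clq_mono subset_union_left h1)
      (R.Clq_mono subset_union_left h2) hcon hk1 hk2))
  have hbig := hm.trans (R.card_unmerged h1 h2 hn hk1 hk2)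
  have hdisj : Disjoint (R.cl n G) ((Kp (C₁ ∪ C₂)).filter (fun e => ¬ R.Cl G e)) := by
    rw [Finset.disjoint_left]
    intro e he he'
    exact (mem_filter.1 he').2 (R.mem_cl.1 he).2
  refine (Nat.add_le_add_left hbig _).trans ?_
  rw [← Finset.card_union_of_disjoint hdisj]
  refine Finset.card_le_card ?_
  intro e he
  rcases mem_union.1 he with he | he
  · exact R.cl_mono subset_union_left he
  · have he1 := (mem_filter.1 he).1
    induction e using Sym2.ind with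
    | _ a b =>
      rw [mk_mem_Kp] at he1
      have hr : ∀ x ∈ C₁ ∪ C₂, x < n := fun x hx => by
        rcases mem_union.1 hx with h | h
        · exact mem_range.1 (hC1 h)
        · exact mem_range.1 (hC2 h)
      exact R.mem_cl.2 ⟨mk_mem_En.2 ⟨hr a he1.1, hr b he1.2.1, he1.2.2⟩,
        hq a he1.1 b he1.2.1 he1.2.2⟩

/-- T2 (hint): two unmerged cliques of size at least `δ n` in the closure of `G`. `X = Kp (C₁ ∪ C₂)`
has rank deficiency at most `d*d` over `G` (`r_join`). By `sprinkle_span` with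
`m = ⌈(δ n - d)^2⌉`-ish (`card_unmerged` for the closure of `G ∪ T`) the sprinkled `T` merges them with
probability tending to one; then `|R.cl n (G ∪ T)| ≥ |R.cl n G| + (δ n - d - 1)^2`
(`card_unmerged` for `G`). But `E|cl(G ∪ T)| - E|cl(G)| = o(n^2)` (`sprinkle_pp`, `sprinkle_tv` with
`f = |cl| / n^2`). For `d ≤ δ n`. -/
theorem Rig.T2 {d t : ℕ} (R : Rig d t) {c : ℝ} (hc : 0 < c) {δ : ℝ} (hδ : 0 < δ) :
    Neg c (fun n G => ∃ C₁ C₂ : Finset ℕ, C₁ ⊆ range n ∧ C₂ ⊆ range n ∧ R.Clq G C₁ ∧ R.Clq G C₂ ∧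
      δ * n ≤ (C₁.card : ℝ) ∧ δ * n ≤ (C₂.card : ℝ) ∧ ¬ R.Clq G (C₁ ∪ C₂)) := by
  classical
  set κ : ℝ := δ ^ 2 / 4 with hκdef
  have hκ : 0 < κ := by positivity
  obtain ⟨e, he0, he⟩ := sprinkle_tv hc
  have hb := sprinkle_many 1 κ hκ
  have hlog : ∀ᶠ n : ℕ in atTop, d * d ≤ Nat.log 2 n := by
    filter_upwards [eventually_ge_atTop (2 ^ (d * d))] with n hn
    exact Nat.le_log_of_pow_le (by norm_num) hn
  obtain ⟨N, hN⟩ := exists_nat_ge (2 * d / δ)
  refine Neg_of_le hc (a := fun n => e n * (2 / κ)) (by simpa using he0.mul_const (2 / κ)) ?_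
  filter_upwards [he, hb.eventually (gt_mem_nhds (show (0 : ℝ) < 1 / 2 by norm_num)),
    sprinkle_bounds hc, cn_eventually hc, eventually_ge_atTop N, hlog, eventually_ge_atTop 1]
    with n hen hbn hs hcn hNn hlogn hn1
  obtain ⟨s0, s1, -, -, -, -, -, -⟩ := hs
  have hn0 : (0 : ℝ) < n := by exact_mod_cast hn1
  have hn1' : (1 : ℝ) ≤ n := by exact_mod_cast hn1
  set s : ℝ := sN n with hsdef
  set k : ℕ := ⌈δ * n⌉₊ with hk
  set m : ℕ := ⌈κ * (n : ℝ) ^ 2⌉₊ with hmdef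
  have hkn : δ * n ≤ (k : ℝ) := Nat.le_ceil _
  have hNd : (d : ℝ) ≤ δ * n / 2 := by
    have h1 : 2 * d / δ ≤ n := hN.trans (by exact_mod_cast hNn)
    rw [div_le_iff₀ hδ] at h1
    linarith
  have hdk : d ≤ k := by
    have : (d : ℝ) ≤ k := by
      have : 0 ≤ δ * n := by positivity
      linarith
    exact_mod_cast this
  have hmk : m ≤ (k - d) ^ 2 := by
    rw [hmdef, Nat.ceil_le]
    push_cast [Nat.cast_sub hdk]
    have h1 : δ * n / 2 ≤ (k : ℝ) - d := by linarith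
    have h2 : 0 ≤ δ * n / 2 := by positivity
    calc κ * (n : ℝ) ^ 2 = (δ * n / 2) ^ 2 := by rw [hκdef]; ring
      _ ≤ ((k : ℝ) - d) ^ 2 := pow_le_pow_left₀ h2 h1 2
  set f : Finset (Sym2 ℕ) → ℝ := fun G => ((R.cl n G).card : ℝ) / (n : ℝ) ^ 2 with hf
  have hf0 : ∀ G, 0 ≤ f G := fun G => by rw [hf]; positivity
  have hf1 : ∀ G, f G ≤ 1 := by
    intro G
    rw [hf]
    simp only
    rw [div_le_one (by positivity)]
    have h1 : ((R.cl n G).card : ℝ) ≤ ((En n).card : ℝ) := by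
      exact_mod_cast Finset.card_le_card (fun e he => (R.mem_cl.1 he).1)
    rw [card_En] at h1
    nlinarith only [hcn, hn1', h1]
  have hfm : ∀ G T, f G ≤ f (G ∪ T) := by
    intro G T
    rw [hf]
    simp only
    have : (R.cl n G).card ≤ (R.cl n (G ∪ T)).card :=
      Finset.card_le_card (R.cl_mono subset_union_left)
    gcongr
  have hmain : ∀ G ⊆ En n, ind (∃ C₁ C₂ : Finset ℕ, C₁ ⊆ range n ∧ C₂ ⊆ range n ∧
      R.Clq G C₁ ∧ R.Clq G C₂ ∧ δ * n ≤ (C₁.card : ℝ) ∧ δ * n ≤ (C₂.card : ℝ) ∧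
      ¬ R.Clq G (C₁ ∪ C₂)) * (κ / 2) ≤ Ex n s (fun T => f (G ∪ T)) - f G := by
    intro G _
    have hsub : Ex n s (fun T => f (G ∪ T)) - f G = Ex n s (fun T => f (G ∪ T) - f G) := by
      rw [Ex_sub (f := fun T => f (G ∪ T)) (g := fun _ => f G), Ex_const]
    rw [hsub]
    by_cases hB : ∃ C₁ C₂ : Finset ℕ, C₁ ⊆ range n ∧ C₂ ⊆ range n ∧
      R.Clq G C₁ ∧ R.Clq G C₂ ∧ δ * n ≤ (C₁.card : ℝ) ∧ δ * n ≤ (C₂.card : ℝ) ∧
      ¬ R.Clq G (C₁ ∪ C₂)
    · rw [ind_true hB, one_mul]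
      obtain ⟨C₁, C₂, hC1, hC2, h1, h2, hc1, hc2, hn⟩ := hB
      have hk1 : k ≤ C₁.card := Nat.ceil_le.2 hc1
      have hk2 : k ≤ C₂.card := Nat.ceil_le.2 hc2
      have hX : Kp (C₁ ∪ C₂) ⊆ En n := by
        intro e he
        rw [mem_Kp] at he
        rw [mem_En]
        refine ⟨fun x hx => ?_, he.2⟩
        rcases mem_union.1 (he.1 x hx) with h | h
        · exact mem_range.1 (hC1 h)
        · exact mem_range.1 (hC2 h)
      have hsp := R.sprinkle_span n s0.le (by linarith) hX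
        (R.r_join h1 h2 (hdk.trans hk1) (hdk.trans hk2)) m
      have hXc : ((Kp (C₁ ∪ C₂)).card : ℝ) ≤ (n : ℝ) ^ 2 := by
        have h3 : ((Kp (C₁ ∪ C₂)).card : ℝ) ≤ ((En n).card : ℝ) := by
          exact_mod_cast Finset.card_le_card hX
        rw [card_En] at h3
        nlinarith only [hcn, hn1', h3]
      have hle : (1 + s * ((Kp (C₁ ∪ C₂)).card : ℝ)) ^ (d * d) * (1 - s) ^ m ≤ 1 / 2 := by
        refine le_trans ?_ hbn.le
        have a1 : (1 + s * ((Kp (C₁ ∪ C₂)).card : ℝ)) ^ (d * d) ≤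
            (1 + s * (n : ℝ) ^ 2) ^ (Nat.log 2 n) ^ 1 := by
          have b1 : 1 + s * ((Kp (C₁ ∪ C₂)).card : ℝ) ≤ 1 + s * (n : ℝ) ^ 2 := by
            have := mul_le_mul_of_nonneg_left hXc s0.le
            linarith
          have b2 : 0 ≤ 1 + s * ((Kp (C₁ ∪ C₂)).card : ℝ) := by (clear * - s0; positivity)
          have b3 : (1 : ℝ) ≤ 1 + s * (n : ℝ) ^ 2 := by
            have : 0 ≤ s * (n : ℝ) ^ 2 := by positivity
            linarith
          rw [pow_one]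
          exact (pow_le_pow_left₀ b2 b1 _).trans (pow_le_pow_right₀ b3 hlogn)
        have a2 : (1 : ℝ) ≤ (n : ℝ) ^ (Nat.log 2 n) ^ 1 := one_le_pow₀ hn1'
        have a3 : 0 ≤ (1 - s) ^ m := pow_nonneg (by linarith) _
        have a4 : 0 ≤ (1 + s * (n : ℝ) ^ 2) ^ (Nat.log 2 n) ^ 1 := by positivity
        refine mul_le_mul_of_nonneg_right ?_ a3
        refine a1.trans ?_
        nlinarith only [hcn, a2, a4]
      have hlow : Ex n s (fun T => κ * ind (¬ m ≤
          ((Kp (C₁ ∪ C₂)).filter (fun e => ¬ R.Cl (G ∪ T) e)).card)) ≤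
          Ex n s (fun T => f (G ∪ T) - f G) := by
        refine Ex_mono s0.le (by linarith) fun T _ => ?_
        by_cases hT : m ≤ ((Kp (C₁ ∪ C₂)).filter (fun e => ¬ R.Cl (G ∪ T) e)).card
        · rw [ind_false (not_not.2 hT), mul_zero]
          linarith [hfm G T]
        · rw [ind_true hT, mul_one]
          have h4 := t2_aux R hC1 hC2 h1 h2 hn hk1 hk2 hmk hT
          have h5 : ((R.cl n G).card : ℝ) + m ≤ ((R.cl n (G ∪ T)).card : ℝ) := by
            exact_mod_cast h4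
          have h6 : κ * (n : ℝ) ^ 2 ≤ m := Nat.le_ceil _
          rw [hf]
          simp only
          rw [← sub_div, le_div_iff₀ (by positivity)]
          linarith
      refine le_trans ?_ hlow
      rw [Ex_mul_left]
      have hcompl := Pr_compl (n := n) (p := s) (A := fun T => m ≤
          ((Kp (C₁ ∪ C₂)).filter (fun e => ¬ R.Cl (G ∪ T) e)).card)
      unfold Pr at hcompl hsp
      rw [hcompl]
      nlinarith only [hsp, hle, hκdef]
    · rw [ind_false hB, zero_mul]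
      exact Ex_nonneg s0.le (by linarith) fun T _ => sub_nonneg.2 (hfm G T)
  -- conclusion
  have hfin := Ex_mono (n := n) (p := c / n) hcn.1.le (by linarith [hcn.2]) hmain
  rw [Ex_mul_right, Ex_sub (f := fun G => Ex n s (fun T => f (G ∪ T))) (g := f),
    ← sprinkle_pp c n f] at hfin
  have h7 := (hen f (fun G _ => by rw [abs_of_nonneg (hf0 G)]; exact hf1 G)).1
  have h8 := (le_abs_self _).trans h7
  have h9 := hfin.trans h8
  change Ex n (c / n) _ ≤ e n * (2 / κ)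
  rw [← le_div_iff₀ (by positivity)] at h9
  refine h9.trans (le_of_eq ?_)
  field_simp

theorem Rig.Y_clq {d t : ℕ} (R : Rig d t) {c : ℝ} (hc : 0 < c) {δ : ℝ} (hδ : 0 < δ) :
    Neg c (fun n G => ¬ R.Clq G (R.Y δ n G)) := by
  refine Neg_mono hc (R.T2 hc hδ) (Filter.Eventually.of_forall fun n G _ hY => ?_)
  by_contra hcon
  push Not at hcon
  refine hY fun a ha b hb hab => ?_
  obtain ⟨_, C₁, h1, h2, h3, h4⟩ := R.mem_Y.1 ha
  obtain ⟨_, C₂, g1, g2, g3, g4⟩ := R.mem_Y.1 hb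
  exact hcon C₁ C₂ h1 g1 h3 g3 h4 g4 a (mem_union_left _ h2) b (mem_union_right _ g2) hab

end Pool.Agent.Helper55.ML
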