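import Pool.Agent.Helper55.ML.S0
import Pool.Agent.Helper55.ML.SP
import Pool.Agent.Helper55.ML.M7
import Pool.Agent.Helper55.ML.M15
import Pool.Agent.Helper55.ML.T2
import Pool.Agent.Helper55.ML.Q8
import Pool.Agent.Helper55.ML.Q9b

set_option autoImplicit false
open Finset Filter Topology

namespace Pool.Agent.Helper55.ML

/-- Weighted number of the small subsets of a set. -/
theorem g1b_sum_pow {α : Type*} (X : Finset α) (K : ℕ) {s : ℝ} (hs : 0 ≤ s) :
    ∑ B ∈ X.powerset.filter (fun B => B.card ≤ K), s ^ B.card ≤ (1 + s * X.card) ^ K := by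
  classical
  have h1 : ∑ B ∈ X.powerset.filter (fun B => B.card ≤ K), s ^ B.card =
      ∑ m ∈ range (X.card + 1), (X.card.choose m) • (if m ≤ K then s ^ m else 0) := by
    rw [← Finset.sum_powerset_apply_card (fun m => if m ≤ K then s ^ m else 0),
      Finset.sum_filter]
  rw [h1]
  have h2 : (1 + s * X.card) ^ K = ∑ m ∈ range (K + 1), (s * X.card) ^ m * (K.choose m : ℝ) := by
    rw [add_comm, add_pow]
    refine Finset.sum_congr rfl (fun m _ => ?_)
    rw [one_pow, mul_one]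
  rw [h2]
  calc ∑ m ∈ range (X.card + 1), (X.card.choose m) • (if m ≤ K then s ^ m else 0)
      = ∑ m ∈ (range (X.card + 1)).filter (fun m => m ≤ K), (X.card.choose m : ℝ) * s ^ m := by
        rw [Finset.sum_filter]
        refine Finset.sum_congr rfl (fun m _ => ?_)
        split_ifs
        · rw [nsmul_eq_mul]
        · rw [smul_zero]
    _ ≤ ∑ m ∈ (range (X.card + 1)).filter (fun m => m ≤ K),
          (s * X.card) ^ m * (K.choose m : ℝ) := by
        refine Finset.sum_le_sum (fun m hm => ?_)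
        rw [Finset.mem_filter] at hm
        have h3 : (X.card.choose m : ℝ) ≤ (X.card : ℝ) ^ m := by
          exact_mod_cast Nat.choose_le_pow X.card m
        have h4 : (1 : ℝ) ≤ (K.choose m : ℝ) := by
          exact_mod_cast Nat.choose_pos hm.2
        have h5 : 0 ≤ s ^ m := pow_nonneg hs m
        have h6 : 0 ≤ (X.card : ℝ) ^ m := by positivity
        rw [mul_pow]
        calc (X.card.choose m : ℝ) * s ^ m ≤ (X.card : ℝ) ^ m * s ^ m :=
              mul_le_mul_of_nonneg_right h3 h5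
          _ = s ^ m * (X.card : ℝ) ^ m * 1 := by ring
          _ ≤ s ^ m * (X.card : ℝ) ^ m * (K.choose m : ℝ) :=
              mul_le_mul_of_nonneg_left h4 (mul_nonneg h5 h6)
    _ ≤ ∑ m ∈ range (K + 1), (s * X.card) ^ m * (K.choose m : ℝ) := by
        refine Finset.sum_le_sum_of_subset_of_nonneg ?_ (fun m _ _ => by positivity)
        intro m hm
        rw [Finset.mem_filter] at hm
        exact Finset.mem_range.2 (Nat.lt_succ_of_le hm.2)

/-- A basis of `T` over `H`. -/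
theorem Rig.g1b_basis {d t : ℕ} (R : Rig d t) (H T : Finset (Sym2 ℕ)) :
    ∃ B : Finset (Sym2 ℕ), B ⊆ T ∧ (∀ e ∈ T, R.Cl (H ∪ B) e) ∧
      R.r (H ∪ B) = R.r H + B.card := by
  classical
  induction T using Finset.induction_on with
  | empty => exact ⟨∅, Finset.Subset.refl _, by simp, by simp⟩
  | insert f T hf ih =>
    obtain ⟨B, hB, h1, h2⟩ := ih
    by_cases h3 : R.Cl (H ∪ B) f
    · refine ⟨B, hB.trans (Finset.subset_insert f T), ?_, h2⟩
      intro e he
      rw [Finset.mem_insert] at he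
      rcases he with rfl | he
      · exact h3
      · exact h1 e he
    · refine ⟨insert f B, Finset.insert_subset_insert f hB, ?_, ?_⟩
      · intro e he
        rw [Finset.mem_insert] at he
        rcases he with rfl | he
        · exact R.Cl_of_mem (Finset.mem_union_right _ (Finset.mem_insert_self _ _))
        · exact R.Cl_mono (Finset.union_subset_union_right (Finset.subset_insert f B)) (h1 e he)
      · have h4 : f ∉ B := fun h => hf (hB h)
        rw [R.not_Cl_iff] at h3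
        rw [Finset.union_insert, h3, h2, Finset.card_insert_of_notMem h4]
        omega

open Classical in
/-- Sprinkling lemma for the sprinkled edges in `X` only. -/
theorem Rig.g1b_span {d t : ℕ} (R : Rig d t) (n : ℕ) {s : ℝ} (h0 : 0 ≤ s) (h1 : s ≤ 1)
    {H X : Finset (Sym2 ℕ)} (hX : X ⊆ En n) {K : ℕ} (hK : R.r (H ∪ X) ≤ R.r H + K) (m : ℕ) :
    Pr n s (fun T => m ≤ (X.filter (fun e => ¬ R.Cl (H ∪ (T ∩ X)) e)).card) ≤
      (1 + s * X.card) ^ K * (1 - s) ^ m := by
  set F : Finset (Sym2 ℕ) → Finset (Sym2 ℕ) := fun B => X.filter (fun e => ¬ R.Cl (H ∪ B) e)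
    with hF
  have hFX : ∀ B, F B ⊆ X := fun B => Finset.filter_subset _ _
  have hpt : ∀ T ⊆ En n, ind (m ≤ (X.filter (fun e => ¬ R.Cl (H ∪ (T ∩ X)) e)).card) ≤
      ∑ B ∈ X.powerset.filter (fun B => B.card ≤ K),
        ind (m ≤ (F B).card ∧ (B ⊆ T ∧ Disjoint T (F B))) := by
    intro T _
    by_cases hm : m ≤ (X.filter (fun e => ¬ R.Cl (H ∪ (T ∩ X)) e)).card
    · obtain ⟨B, hB, hB1, hB2⟩ := R.g1b_basis H (T ∩ X)
      have hBX : B ⊆ X := hB.trans Finset.inter_subset_right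
      have hBT : B ⊆ T := hB.trans Finset.inter_subset_left
      have hBK : B.card ≤ K := by
        have h2 := R.r_mono (Finset.union_subset_union_right (s := H) hBX)
        omega
      have hmem : B ∈ X.powerset.filter (fun B => B.card ≤ K) :=
        Finset.mem_filter.2 ⟨Finset.mem_powerset.2 hBX, hBK⟩
      have hle : X.filter (fun e => ¬ R.Cl (H ∪ (T ∩ X)) e) ⊆ F B := by
        intro e he
        rw [Finset.mem_filter] at he
        refine Finset.mem_filter.2 ⟨he.1, fun h2 => he.2 ?_⟩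
        exact R.Cl_mono (Finset.union_subset_union_right hB) h2
      have hdis : Disjoint T (F B) := by
        rw [Finset.disjoint_left]
        intro e heT heF
        rw [hF] at heF
        rw [Finset.mem_filter] at heF
        exact heF.2 (hB1 e (Finset.mem_inter.2 ⟨heT, heF.1⟩))
      rw [ind_true hm]
      have h3 : ind (m ≤ (F B).card ∧ (B ⊆ T ∧ Disjoint T (F B))) = 1 :=
        ind_true ⟨hm.trans (Finset.card_le_card hle), hBT, hdis⟩
      rw [← h3]
      exact Finset.single_le_sum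
        (f := fun B => ind (m ≤ (F B).card ∧ (B ⊆ T ∧ Disjoint T (F B))))
        (fun B _ => ind_nonneg _) hmem
    · rw [ind_false hm]
      exact Finset.sum_nonneg (fun B _ => ind_nonneg _)
  have h2 : Pr n s (fun T => m ≤ (X.filter (fun e => ¬ R.Cl (H ∪ (T ∩ X)) e)).card) ≤
      ∑ B ∈ X.powerset.filter (fun B => B.card ≤ K),
        Ex n s (fun T => ind (m ≤ (F B).card ∧ (B ⊆ T ∧ Disjoint T (F B)))) := by
    rw [← Ex_sum]
    exact Ex_mono h0 h1 hpt
  refine h2.trans ?_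
  have h3 : ∀ B ∈ X.powerset.filter (fun B => B.card ≤ K),
      Ex n s (fun T => ind (m ≤ (F B).card ∧ (B ⊆ T ∧ Disjoint T (F B)))) ≤
        s ^ B.card * (1 - s) ^ m := by
    intro B hB
    rw [Finset.mem_filter, Finset.mem_powerset] at hB
    have hs1 : 0 ≤ 1 - s := by linarith
    by_cases hm : m ≤ (F B).card
    · have h4 : Ex n s (fun T => ind (m ≤ (F B).card ∧ (B ⊆ T ∧ Disjoint T (F B)))) =
          Ex n s (fun T => ind (B ⊆ T ∧ Disjoint T (F B))) :=
        Ex_congr (fun T _ => ind_congr ⟨fun h => h.2, fun h => ⟨hm, h⟩⟩)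
      have hdis : Disjoint B (F B) := by
        rw [Finset.disjoint_left]
        intro e he heF
        rw [hF, Finset.mem_filter] at heF
        exact heF.2 (R.Cl_of_mem (Finset.mem_union_right _ he))
      have h5 : Ex n s (fun T => ind (B ⊆ T ∧ Disjoint T (F B))) =
          s ^ B.card * (1 - s) ^ (F B).card :=
        BE_subset_disj (hB.1.trans hX) ((hFX B).trans hX) hdis s
      rw [h4, h5]
      exact mul_le_mul_of_nonneg_left (pow_le_pow_of_le_one hs1 (by linarith) hm)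
        (pow_nonneg h0 _)
    · have h4 : Ex n s (fun T => ind (m ≤ (F B).card ∧ (B ⊆ T ∧ Disjoint T (F B)))) =
          Ex n s (fun _ => 0) := Ex_congr (fun T _ => ind_false (fun h => hm h.1))
      rw [h4, Ex_const]
      exact mul_nonneg (pow_nonneg h0 _) (pow_nonneg hs1 _)
  refine (Finset.sum_le_sum h3).trans ?_
  rw [← Finset.sum_mul]
  exact mul_le_mul_of_nonneg_right (g1b_sum_pow X K h0) (pow_nonneg (by linarith) _)

/-- The edges at `Q` are few if the degrees are small. -/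
theorem g1b_deg {n D : ℕ} {G : Finset (Sym2 ℕ)} (hG : G ⊆ En n) {Q : Finset ℕ}
    (hQ : Q ⊆ range n) (hD : ∀ v < n, (nb n G v).card ≤ D) :
    (G \ del Q G).card ≤ Q.card * D := by
  have h1 : G \ del Q G ⊆ Q.biUnion (fun v => star v (nb n G v)) := by
    intro e he
    rw [Finset.mem_sdiff, mem_del] at he
    obtain ⟨heG, he2⟩ := he
    have he3 := mem_En.1 (hG heG)
    induction e using Sym2.ind with
    | _ a b =>
      rw [Finset.mem_biUnion]
      by_contra hcon
      push Not at hcon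
      apply he2
      refine ⟨heG, ?_⟩
      have ha : a < n := he3.1 a (Sym2.mem_mk_left a b)
      have hb : b < n := he3.1 b (Sym2.mem_mk_right a b)
      intro x hx hxQ
      rw [Sym2.mem_iff] at hx
      refine hcon x hxQ ?_
      rw [mem_star]
      rcases hx with rfl | rfl
      · exact ⟨b, mem_nb.2 ⟨hb, heG⟩, rfl⟩
      · exact ⟨a, mem_nb.2 ⟨ha, by rwa [Sym2.eq_swap]⟩, Sym2.eq_swap⟩
  refine (Finset.card_le_card h1).trans (Finset.card_biUnion_le.trans ?_)
  rw [← smul_eq_mul, ← Finset.sum_const]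
  refine Finset.sum_le_sum (fun v hv => ?_)
  exact Finset.card_image_le.trans (hD v (Finset.mem_range.1 (hQ hv)))

open Classical in
/-- The failure event of the third kind for a fixed good `G₁`. -/
theorem Rig.g1b_union {d t : ℕ} (R : Rig d t) {δ : ℝ} {n : ℕ} {s : ℝ} (h0 : 0 ≤ s) (h1 : s ≤ 1)
    {G : Finset (Sym2 ℕ)} (hG : G ⊆ En n) (hY : R.Clq G (R.Y δ n G)) {q D m : ℕ}
    (hD : ∀ v < n, (nb n G v).card ≤ D) :
    Ex n s (fun T => ind (∃ Q : Finset ℕ, Q ⊆ range n ∧ Q.card ≤ q ∧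
      m ≤ ((Kp (R.Y δ n G \ Q)).filter
        (fun e => ¬ R.Cl (del Q G ∪ (T ∩ Kp (R.Y δ n G \ Q))) e)).card)) ≤
      (1 + (n : ℝ)) ^ q * ((1 + s * (n : ℝ) ^ 2) ^ (q * D) * (1 - s) ^ m) := by
  set Y := R.Y δ n G with hYdef
  have hYn : Y ⊆ range n := R.Y_subset
  set W : Finset ℕ → Finset (Sym2 ℕ) → Prop := fun Q T =>
    m ≤ ((Kp (Y \ Q)).filter (fun e => ¬ R.Cl (del Q G ∪ (T ∩ Kp (Y \ Q))) e)).card with hW
  have hKp : ∀ Q, Kp (Y \ Q) ⊆ En n := by
    intro Q e he
    rw [mem_Kp] at he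
    rw [mem_En]
    exact ⟨fun x hx => Finset.mem_range.1 (hYn (Finset.mem_sdiff.1 (he.1 x hx)).1), he.2⟩
  have hEn : ((En n).card : ℝ) ≤ (n : ℝ) ^ 2 := by
    rw [card_En]
    nlinarith [sq_nonneg (n : ℝ), (Nat.cast_nonneg n : (0 : ℝ) ≤ n)]
  have hs1 : 0 ≤ 1 - s := by linarith
  have hpt : ∀ T ⊆ En n, ind (∃ Q : Finset ℕ, Q ⊆ range n ∧ Q.card ≤ q ∧ W Q T) ≤
      ∑ Q ∈ (range n).powerset.filter (fun Q => Q.card ≤ q), ind (W Q T) := by
    intro T _
    by_cases h : ∃ Q : Finset ℕ, Q ⊆ range n ∧ Q.card ≤ q ∧ W Q T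
    · rw [ind_true h]
      obtain ⟨Q, hQ, hq, hw⟩ := h
      rw [← ind_true hw]
      exact Finset.single_le_sum (f := fun Q => ind (W Q T)) (fun Q _ => ind_nonneg _)
        (Finset.mem_filter.2 ⟨Finset.mem_powerset.2 hQ, hq⟩)
    · rw [ind_false h]
      exact Finset.sum_nonneg (fun Q _ => ind_nonneg _)
  refine (Ex_mono h0 h1 hpt).trans ?_
  rw [Ex_sum]
  have hone : ∀ Q ∈ (range n).powerset.filter (fun Q => Q.card ≤ q),
      Ex n s (fun T => ind (W Q T)) ≤ (1 + s * (n : ℝ) ^ 2) ^ (q * D) * (1 - s) ^ m := by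
    intro Q hQ
    rw [Finset.mem_filter, Finset.mem_powerset] at hQ
    have hr : R.r (del Q G ∪ Kp (Y \ Q)) ≤ R.r (del Q G) + q * D := by
      have a1 : R.r (del Q G ∪ Kp (Y \ Q)) ≤ R.r (G ∪ Kp (Y \ Q)) :=
        R.r_mono (Finset.union_subset_union_left (del_subset Q G))
      have a2 : R.r (G ∪ Kp (Y \ Q)) = R.r G := by
        refine R.r_union_of_Cl (fun e he => ?_)
        induction e using Sym2.ind with
        | _ a b =>
          rw [mk_mem_Kp] at he
          exact hY a (Finset.mem_sdiff.1 he.1).1 b (Finset.mem_sdiff.1 he.2.1).1 he.2.2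
      have a3 : R.r G ≤ R.r (del Q G) + (G \ del Q G).card := by
        have := R.r_union_le (del Q G) (G \ del Q G)
        rwa [Finset.union_sdiff_of_subset (del_subset Q G)] at this
      have a4 := g1b_deg hG hQ.1 hD
      have a5 : Q.card * D ≤ q * D := Nat.mul_le_mul_right D hQ.2
      omega
    have h2 := R.g1b_span n h0 h1 (hKp Q) hr m
    refine h2.trans ?_
    refine mul_le_mul_of_nonneg_right ?_ (pow_nonneg hs1 _)
    refine pow_le_pow_left₀ (by positivity) ?_ _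
    have h3 : ((Kp (Y \ Q)).card : ℝ) ≤ (n : ℝ) ^ 2 :=
      le_trans (by exact_mod_cast Finset.card_le_card (hKp Q)) hEn
    have h4 := mul_le_mul_of_nonneg_left h3 h0
    linarith
  refine (Finset.sum_le_sum hone).trans ?_
  rw [Finset.sum_const, nsmul_eq_mul]
  refine mul_le_mul_of_nonneg_right ?_
    (mul_nonneg (pow_nonneg (by positivity) _) (pow_nonneg hs1 _))
  have h5 := g1b_sum_pow (range n) q (s := 1) zero_le_one
  simp only [one_pow, Finset.sum_const, nsmul_eq_mul, mul_one, one_mul, Finset.card_range] at h5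
  exact h5

/-- The deterministic part: if the conclusion fails for `Q` then many pairs are not spanned. -/
theorem Rig.g1b_det {d t : ℕ} (R : Rig d t) (ht : 2 ≤ t) {δ x η κ : ℝ} (hκ : 0 < κ)
    (hκ1 : κ ≤ η / 4) {n q : ℕ} {G T : Finset (Sym2 ℕ)} {Q : Finset ℕ} (hq : Q.card ≤ q)
    (hy : (x - η / 4) * n ≤ ((R.Y δ n G).card : ℝ)) (hq2 : (q : ℝ) ≤ η / 4 * n)
    (hbig : (t + 3) * (κ * n) + 2 * t + d + 1 ≤ (x - η / 2) * n)
    (hno : ¬ ∃ C : Finset ℕ, C ⊆ range n ∧ R.Clq (del Q (G ∪ T)) C ∧ (x - η) * n ≤ (C.card : ℝ)) :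
    open Classical in
    ⌈κ ^ 2 * (n : ℝ) ^ 2⌉₊ ≤ ((Kp (R.Y δ n G \ Q)).filter
        (fun e => ¬ R.Cl (del Q G ∪ (T ∩ Kp (R.Y δ n G \ Q))) e)).card := by
  classical
  set Y := R.Y δ n G with hYdef
  have hYn : Y ⊆ range n := R.Y_subset
  by_contra hlt
  rw [not_le] at hlt
  apply hno
  set S := del Q G ∪ (T ∩ Kp (Y \ Q)) with hS
  have hsub : S ⊆ del Q (G ∪ T) := by
    intro e he
    rw [hS, Finset.mem_union] at he
    rcases he with he | he
    · exact del_mono Finset.subset_union_left he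
    · rw [Finset.mem_inter, mem_Kp] at he
      rw [mem_del]
      refine ⟨Finset.mem_union_right _ he.1, fun x hx hxQ => ?_⟩
      exact (Finset.mem_sdiff.1 (he.2.1 x hx)).2 hxQ
  have hcard : (Y.card : ℝ) - q ≤ ((Y \ Q).card : ℝ) := by
    have h1 := Finset.card_le_card_sdiff_add_card (s := Y) (t := Q)
    have h2 : (Y.card : ℝ) ≤ ((Y \ Q).card : ℝ) + (Q.card : ℝ) := by exact_mod_cast h1
    have h3 : (Q.card : ℝ) ≤ (q : ℝ) := by exact_mod_cast hq
    linarith
  have hn0 : (0 : ℝ) ≤ n := Nat.cast_nonneg n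
  have hC0 : (x - η / 2) * n ≤ ((Y \ Q).card : ℝ) := by nlinarith
  obtain ⟨C, hC1, hC2, hC3⟩ := R.almost_clique ht hκ (n := n) (S := S) (C0 := Y \ Q)
    (Finset.sdiff_subset.trans hYn) (Nat.lt_ceil.1 hlt).le (hbig.trans hC0)
  refine ⟨C, hC1.trans (Finset.sdiff_subset.trans hYn), R.Clq_mono hsub hC2, ?_⟩
  have h4 : κ * n ≤ η / 4 * n := mul_le_mul_of_nonneg_right hκ1 hn0
  nlinarith

/-- Powers of the logarithm are small. -/
theorem g1b_log {a : ℝ} (ha : 0 < a) : ∀ᶠ n : ℕ in atTop,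
    (((Nat.log 2 n) ^ 4 : ℕ) : ℝ) ≤ a * n := by
  have h1 : Tendsto (fun n : ℕ => (Real.log n) ^ 4 / (n : ℝ)) atTop (𝓝 0) := by
    have := (isLittleO_log_rpow_atTop (r := 1 / 4) (by norm_num))
    have h2 : Tendsto (fun x : ℝ => Real.log x / x ^ (1 / 4 : ℝ)) atTop (𝓝 0) :=
      this.tendsto_div_nhds_zero
    have h3 := (h2.pow 4).comp tendsto_natCast_atTop_atTop
    rw [zero_pow (by norm_num)] at h3
    refine h3.congr' ?_
    filter_upwards [eventually_ge_atTop 1] with n hn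
    simp only [Function.comp_apply]
    rw [div_pow, ← Real.rpow_natCast ((n : ℝ) ^ (1 / 4 : ℝ)), ← Real.rpow_mul (by positivity)]
    norm_num
  have h4 : (0 : ℝ) < a / 16 := by positivity
  filter_upwards [h1.eventually (gt_mem_nhds h4), eventually_ge_atTop 1] with n hn hn1
  have hn0 : (0 : ℝ) < n := by exact_mod_cast hn1
  rw [div_lt_iff₀ hn0] at hn
  have h5 : ((Nat.log 2 n : ℕ) : ℝ) ≤ 2 * Real.log n := by
    have h6 : ((Nat.log 2 n : ℕ) : ℝ) ≤ Real.logb 2 n := by
      have := Real.natLog_le_logb n 2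
      exact_mod_cast this
    have h7 : Real.logb 2 n ≤ 2 * Real.log n := by
      rw [Real.logb, div_le_iff₀ (Real.log_pos (by norm_num))]
      have h8 : (1 : ℝ) / 2 ≤ Real.log 2 := by linarith [Real.log_two_gt_d9]
      have h9 : 0 ≤ Real.log n := Real.log_nonneg (by exact_mod_cast hn1)
      nlinarith
    exact h6.trans h7
  push_cast
  calc ((Nat.log 2 n : ℕ) : ℝ) ^ 4 ≤ (2 * Real.log n) ^ 4 :=
        pow_le_pow_left₀ (Nat.cast_nonneg _) h5 4
    _ = 16 * (Real.log n) ^ 4 := by ring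
    _ ≤ 16 * (a / 16 * n) := by linarith
    _ = a * n := by ring

/-- G1b (hint): `G = G₁ ∪ T`, `G₁` of density `pm c n`, `T` of density `sN n` (`sprinkle_pm`); `G₁` is
dependent whp if `G` is (`sprinkle_tv`), then `Y₁ = Y_δ(G₁)` is a clique (`Y_clq`) with
`|Y₁| ≥ (x - η/4) n` whp (`hconc`, both transported by `sprinkle_tv`). For `Q`, `X = Kp (Y₁ \ Q)` has rank
deficiency over `del Q G₁` at most the number of edges of `G₁` at `Q` (`r(del Q G₁ ∪ X) ≤
r(G₁ ∪ X) = r(G₁)`), which is at most `(log n)^4 (log n)^2` whp (`Neg_maxdeg`). Union bound over `Q` of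
`sprinkle_span` with `H = del Q G₁` and `T` (the closure of `del Q G₁ ∪ T` restricted to `Y₁ \ Q`;
only the pairs of `T` inside `Y₁ \ Q` matter, so state it with `T ∩ X`, which is contained in
`del Q T`), `m = ⌈κ^2 n^2⌉`, `sprinkle_many`; then `almost_clique` for `C0 = Y₁ \ Q` with `κ` small
against `η` and `x`. The number of `Q` is at most `n^((log n)^4) + 1`. -/
theorem Rig.Gd_clique {d t : ℕ} (R : Rig d t) {c δ : ℝ} (hS : Std R c δ) {x : ℝ} (hx : GoodX d c x)
    (hconc : ∀ η : ℝ, 0 < η → Neg c (fun n G => R.Dep G ∧ η ≤ |R.y δ n G - x|))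
    {η : ℝ} (hη : 0 < η) (hδx : δ ≤ x - η) :
    Neg c (fun n G => R.Dep G ∧ ¬ ∀ Q : Finset ℕ, Q ⊆ range n → Q.card ≤ (Nat.log 2 n) ^ 4 →
      ∃ C : Finset ℕ, C ⊆ range n ∧ R.Clq (del Q G) C ∧ (x - η) * n ≤ (C.card : ℝ)) := by
  classical
  have hc := hS.hc
  have hδ := hS.hδ
  obtain ⟨hx0, hx1, _, _⟩ := hx
  set κ : ℝ := min (η / 4) (δ / (2 * ((t : ℝ) + 3))) with hκ
  have htt : (0 : ℝ) < 2 * ((t : ℝ) + 3) := by positivity
  have hκ0 : 0 < κ := lt_min (by linarith) (div_pos hδ htt)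
  have hκ1 : κ ≤ η / 4 := min_le_left _ _
  have hκ2 : ((t : ℝ) + 3) * κ ≤ δ / 2 := by
    have h1 : κ ≤ δ / (2 * ((t : ℝ) + 3)) := min_le_right _ _
    rw [le_div_iff₀ htt] at h1
    linarith
  obtain ⟨e, he0, he⟩ := sprinkle_tv hc
  set A : ℕ → Finset (Sym2 ℕ) → Prop := fun n G => (R.Dep G ∧ η / 4 ≤ |R.y δ n G - x|) ∨
    (¬ R.Clq G (R.Y δ n G) ∨ ∃ v < n, (Nat.log 2 n) ^ 2 < (nb n G v).card) with hAdef
  have hA : Neg c A :=
    Neg_or hc (hconc (η / 4) (by linarith)) (Neg_or hc (R.Y_clq hc hδ) (Neg_maxdeg hc))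
  have hmany := sprinkle_many 6 (κ ^ 2) (by positivity)
  have hlim : Tendsto (fun n : ℕ => e n + (Pr n (c / n) (A n) + e n) +
      (n : ℝ) ^ ((Nat.log 2 n) ^ 6) * (1 + sN n * (n : ℝ) ^ 2) ^
      ((Nat.log 2 n) ^ 6) * (1 - sN n) ^ (⌈κ ^ 2 * (n : ℝ) ^ 2⌉₊)) atTop (𝓝 0) := by
    have h1 := (he0.add (Tendsto.add hA he0)).add hmany
    simpa using h1
  refine Neg_of_le hc hlim ?_
  obtain ⟨N1, hN1⟩ := exists_nat_ge ((2 * (t : ℝ) + d + 1) / (δ / 2))
  filter_upwards [sprinkle_bounds hc, he, g1b_log (show 0 < η / 4 by linarith),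
    eventually_ge_atTop N1, eventually_ge_atTop 4, cn_eventually hc] with n hb hen hlog hnN hn4 hcn
  obtain ⟨b1, b2, b3, b4, b5, b6, b7, b8⟩ := hb
  set L := Nat.log 2 n with hL
  have hn0 : (0 : ℝ) < n := by
    have : (4 : ℝ) ≤ n := by exact_mod_cast hn4
    linarith
  have hpm0 : 0 ≤ pm c n := le_trans (by positivity) b3
  have hpm1 : pm c n ≤ 1 := by linarith [hcn.2]
  have hs0 : 0 ≤ sN n := b1.le
  have hs1 : sN n ≤ 1 := by linarith
  have hL2 : 2 ≤ L := by
    rw [hL]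
    exact Nat.le_log_of_pow_le (by norm_num) (by simpa using hn4)
  -- numeric condition
  have hbig : ((t : ℝ) + 3) * (κ * n) + 2 * t + d + 1 ≤ (x - η / 2) * n := by
    have h1 : (2 * (t : ℝ) + d + 1) / (δ / 2) ≤ n := hN1.trans (by exact_mod_cast hnN)
    rw [div_le_iff₀ (by positivity)] at h1
    have h2 : ((t : ℝ) + 3) * κ * n ≤ δ / 2 * n := mul_le_mul_of_nonneg_right hκ2 hn0.le
    have h3 : δ * n ≤ (x - η / 2) * n := mul_le_mul_of_nonneg_right (by linarith) hn0.le
    nlinarith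
  -- the third event
  set W : Finset (Sym2 ℕ) → Finset (Sym2 ℕ) → Prop := fun G T =>
    ∃ Q : Finset ℕ, Q ⊆ range n ∧ Q.card ≤ L ^ 4 ∧
      ⌈κ ^ 2 * (n : ℝ) ^ 2⌉₊ ≤ ((Kp (R.Y δ n G \ Q)).filter
        (fun e => ¬ R.Cl (del Q G ∪ (T ∩ Kp (R.Y δ n G \ Q))) e)).card with hW
  set E3 : ℝ := (n : ℝ) ^ (L ^ 6) * (1 + sN n * (n : ℝ) ^ 2) ^ (L ^ 6) *
    (1 - sN n) ^ (⌈κ ^ 2 * (n : ℝ) ^ 2⌉₊) with hE3
  have hs1' : 0 ≤ 1 - sN n := by linarith
  have hE30 : 0 ≤ E3 := by positivity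
  have hW3 : ∀ G ⊆ En n, Ex n (sN n) (fun T => ind ((R.Dep G ∧ ¬ A n G) ∧ W G T)) ≤ E3 := by
    intro G hG
    by_cases hg : R.Dep G ∧ ¬ A n G
    · have h1 : Ex n (sN n) (fun T => ind ((R.Dep G ∧ ¬ A n G) ∧ W G T)) =
          Ex n (sN n) (fun T => ind (W G T)) :=
        Ex_congr (fun T _ => ind_congr ⟨fun h => h.2, fun h => ⟨hg, h⟩⟩)
      rw [h1]
      have h2 := hg.2
      rw [hAdef] at h2
      simp only [not_or, not_not, not_exists, not_and, not_lt] at h2
      have h3 := R.g1b_union hs0 hs1 hG h2.2.1 (q := L ^ 4) (D := L ^ 2)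
        (m := ⌈κ ^ 2 * (n : ℝ) ^ 2⌉₊) h2.2.2
      refine h3.trans ?_
      rw [hE3, ← pow_add, mul_assoc]
      refine mul_le_mul_of_nonneg_right ?_ (by positivity)
      have h4 : 1 + (n : ℝ) ≤ (n : ℝ) ^ 2 := by
        have : (4 : ℝ) ≤ n := by exact_mod_cast hn4
        nlinarith
      calc (1 + (n : ℝ)) ^ (L ^ 4) ≤ ((n : ℝ) ^ 2) ^ (L ^ 4) :=
            pow_le_pow_left₀ (by positivity) h4 _
        _ = (n : ℝ) ^ (2 * L ^ 4) := by rw [← pow_mul]
        _ ≤ (n : ℝ) ^ (L ^ 6) := by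
            refine pow_le_pow_right₀ ?_ ?_
            · have : (4 : ℝ) ≤ n := by exact_mod_cast hn4
              linarith
            · have h5 : 2 ≤ L ^ 2 := by nlinarith
              calc 2 * L ^ 4 ≤ L ^ 2 * L ^ 4 := Nat.mul_le_mul_right _ h5
                _ = L ^ 6 := by ring
    · have h1 : Ex n (sN n) (fun T => ind ((R.Dep G ∧ ¬ A n G) ∧ W G T)) =
          Ex n (sN n) (fun _ => 0) := Ex_congr (fun T _ => ind_false (fun h => hg h.1))
      rw [h1, Ex_const]
      exact hE30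
  -- pointwise bound
  set Bd : Finset (Sym2 ℕ) → Prop := fun G => R.Dep G ∧ ¬ ∀ Q : Finset ℕ, Q ⊆ range n →
    Q.card ≤ L ^ 4 → ∃ C : Finset ℕ, C ⊆ range n ∧ R.Clq (del Q G) C ∧
      (x - η) * n ≤ (C.card : ℝ) with hBd
  have hpt : ∀ G T : Finset (Sym2 ℕ), ind (Bd (G ∪ T)) ≤
      ((ind (R.Dep (G ∪ T)) - ind (R.Dep G)) + ind (A n G)) +
        ind ((R.Dep G ∧ ¬ A n G) ∧ W G T) := by
    intro G T
    have hmono : ind (R.Dep G) ≤ ind (R.Dep (G ∪ T)) :=
      ind_mono (R.Dep_mono Finset.subset_union_left)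
    have n1 := ind_nonneg (A n G)
    have n2 := ind_nonneg ((R.Dep G ∧ ¬ A n G) ∧ W G T)
    by_cases hB : Bd (G ∪ T)
    · rw [ind_true hB]
      by_cases hD : R.Dep G
      · by_cases hAG : A n G
        · rw [ind_true hAG]
          linarith
        · have hWt : W G T := by
            have hB2 := hB.2
            push Not at hB2
            obtain ⟨Q, hQ, hq, hno⟩ := hB2
            refine ⟨Q, hQ, hq, ?_⟩
            have h2 := hAG
            rw [hAdef] at h2
            simp only [not_or, not_not, not_exists, not_and, not_lt] at h2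
            have hy := h2.1 hD
            rw [not_le, abs_lt] at hy
            have hy2 : (x - η / 4) * n ≤ ((R.Y δ n G).card : ℝ) := by
              have h3 : x - η / 4 ≤ ((R.Y δ n G).card : ℝ) / n := by
                have := hy.1
                unfold Rig.y at this
                linarith
              rwa [le_div_iff₀ hn0] at h3
            refine R.g1b_det hS.ht hκ0 hκ1 hq hy2 hlog hbig ?_
            rintro ⟨C, hC1, hC2, hC3⟩
            exact absurd hC3 (not_le.2 (hno C hC1 hC2))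
          rw [ind_true (show (R.Dep G ∧ ¬ A n G) ∧ W G T from ⟨⟨hD, hAG⟩, hWt⟩)]
          linarith
      · rw [ind_true hB.1, ind_false hD]
        linarith
    · rw [ind_false hB]
      linarith
  -- integrate
  have hmain : Pr n (c / n) Bd ≤ e n + (Pr n (c / n) (A n) + e n) + E3 := by
    unfold Pr
    rw [sprinkle_pm b2 (fun G => ind (Bd G))]
    have h1 : Ex n (pm c n) (fun G => Ex n (sN n) (fun T => ind (Bd (G ∪ T)))) ≤
        Ex n (pm c n) (fun G => ((Ex n (sN n) (fun T => ind (R.Dep (G ∪ T))) - ind (R.Dep G)) +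
          ind (A n G)) + E3) := by
      refine Ex_mono hpm0 hpm1 (fun G hG => ?_)
      have h2 : Ex n (sN n) (fun T => ind (Bd (G ∪ T))) ≤
          Ex n (sN n) (fun T => ((ind (R.Dep (G ∪ T)) - ind (R.Dep G)) + ind (A n G)) +
            ind ((R.Dep G ∧ ¬ A n G) ∧ W G T)) := Ex_mono hs0 hs1 (fun T _ => hpt G T)
      rw [Ex_add (f := fun T => (ind (R.Dep (G ∪ T)) - ind (R.Dep G)) + ind (A n G))
          (g := fun T => ind ((R.Dep G ∧ ¬ A n G) ∧ W G T)),
        Ex_add (f := fun T => ind (R.Dep (G ∪ T)) - ind (R.Dep G)) (g := fun _ => ind (A n G)),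
        Ex_sub (f := fun T => ind (R.Dep (G ∪ T))) (g := fun _ => ind (R.Dep G)),
        Ex_const, Ex_const] at h2
      linarith [hW3 G hG]
    refine h1.trans ?_
    rw [Ex_add (f := fun G => (Ex n (sN n) (fun T => ind (R.Dep (G ∪ T))) - ind (R.Dep G)) +
          ind (A n G)) (g := fun _ => E3),
      Ex_add (f := fun G => Ex n (sN n) (fun T => ind (R.Dep (G ∪ T))) - ind (R.Dep G))
        (g := fun G => ind (A n G)),
      Ex_sub (f := fun G => Ex n (sN n) (fun T => ind (R.Dep (G ∪ T))))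
        (g := fun G => ind (R.Dep G)), Ex_const,
      ← sprinkle_pm b2 (fun G => ind (R.Dep G))]
    have h3 := (hen (fun G => ind (R.Dep G))
      (fun G _ => by rw [abs_of_nonneg (ind_nonneg _)]; exact ind_le_one _)).2
    have h4 := (hen (fun G => ind (A n G))
      (fun G _ => by rw [abs_of_nonneg (ind_nonneg _)]; exact ind_le_one _)).2
    rw [abs_le] at h3 h4
    linarith [h3.1, h4.2]
  exact hmain

end Pool.Agent.Helper55.ML
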