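import Pool.Agent.Helper55.ML.M1

set_option autoImplicit false
open Finset Filter Topology

namespace Pool.Agent.Helper55.ML

/-- M2 (hint): a minimal dependent subset is a circuit; by `coloop` its degrees are at least
`d+1`. -/
theorem Rig.exists_circuit {d t : ℕ} (R : Rig d t) {S : Finset (Sym2 ℕ)}
    (hS : ∀ e ∈ S, ¬ e.IsDiag) (h : R.Dep S) : ∃ C ⊆ S, C.Nonempty ∧
      (∀ e ∈ C, R.Cl (C.erase e) e) ∧
      ∀ v, (∃ e ∈ C, v ∈ e) → d + 1 ≤ (C.filter (fun e => v ∈ e)).card := by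
  classical
  have hne : (S.powerset.filter fun T => R.Dep T).Nonempty :=
    ⟨S, Finset.mem_filter.2 ⟨Finset.mem_powerset.2 subset_rfl, h⟩⟩
  obtain ⟨C, hC, hmin⟩ := Finset.exists_min_image _ (fun T : Finset (Sym2 ℕ) => T.card) hne
  rw [Finset.mem_filter, Finset.mem_powerset] at hC
  obtain ⟨hCS, hCd⟩ := hC
  have hcl : ∀ e ∈ C, R.Cl (C.erase e) e := by
    intro e he
    have h1 : ¬ R.Dep (C.erase e) := by
      intro hd
      have := hmin (C.erase e) (Finset.mem_filter.2
        ⟨Finset.mem_powerset.2 ((Finset.erase_subset e C).trans hCS), hd⟩)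
      have h2 := Finset.card_erase_lt_of_mem he
      omega
    have h3 := R.r_mono (Finset.erase_subset e C)
    have h4 := Finset.card_erase_add_one he
    rw [Rig.Cl_def, Finset.insert_erase he]
    unfold Rig.Dep at h1 hCd
    omega
  refine ⟨C, hCS, ?_, hcl, ?_⟩
  · rw [Finset.nonempty_iff_ne_empty]
    rintro rfl
    unfold Rig.Dep at hCd
    simp at hCd
  · rintro v ⟨e, he, hv⟩
    by_contra hlt
    exact R.coloop (fun f hf => hS f (hCS hf)) (by omega) he hv (hcl e he)

/-- (hint) take `T ⊆ S` minimal with `R.Cl T e`; then `insert e T` is a circuit. -/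
theorem Rig.exists_circuit_through {d t : ℕ} (R : Rig d t) {S : Finset (Sym2 ℕ)}
    (hS : ∀ e ∈ S, ¬ e.IsDiag) {e : Sym2 ℕ} (he : ¬ e.IsDiag) (heS : e ∉ S) (h : R.Cl S e) :
    ∃ C ⊆ insert e S, e ∈ C ∧ (∀ f ∈ C, R.Cl (C.erase f) f) ∧
      ∀ v, (∃ f ∈ C, v ∈ f) → d + 1 ≤ (C.filter (fun f => v ∈ f)).card := by
  classical
  have hne : (S.powerset.filter fun T => R.Cl T e).Nonempty :=
    ⟨S, Finset.mem_filter.2 ⟨Finset.mem_powerset.2 subset_rfl, h⟩⟩
  obtain ⟨T, hT, hmin⟩ := Finset.exists_min_image _ (fun T : Finset (Sym2 ℕ) => T.card) hne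
  rw [Finset.mem_filter, Finset.mem_powerset] at hT
  obtain ⟨hTS, hTe⟩ := hT
  have heT : e ∉ T := fun h' => heS (hTS h')
  have hcl : ∀ f ∈ insert e T, R.Cl ((insert e T).erase f) f := by
    intro f hf
    rcases Finset.mem_insert.1 hf with rfl | hfT
    · rw [Finset.erase_insert heT]
      exact hTe
    · have hfe : e ≠ f := fun h' => heT (h' ▸ hfT)
      rw [Finset.erase_insert_of_ne hfe]
      apply R.exchange
      · rw [Finset.insert_erase hfT]
        exact hTe
      · intro h'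
        have := hmin (T.erase f) (Finset.mem_filter.2
          ⟨Finset.mem_powerset.2 ((Finset.erase_subset f T).trans hTS), h'⟩)
        have h2 := Finset.card_erase_lt_of_mem hfT
        omega
  refine ⟨insert e T, Finset.insert_subset_insert e hTS, Finset.mem_insert_self e T, hcl, ?_⟩
  rintro v ⟨f, hf, hv⟩
  by_contra hlt
  refine R.coloop (fun g hg => ?_) (by omega) hf hv (hcl f hf)
  rcases Finset.mem_insert.1 hg with rfl | hg
  · exact he
  · exact hS g (hTS hg)

/-- A dependent graph on the vertices below `n` contains a redundant set with large degrees: the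
form used in the probabilistic part. `V` is the vertex set of the circuit. -/
theorem Rig.exists_circuit_vertices {d t : ℕ} (R : Rig d t) {n : ℕ} {S : Finset (Sym2 ℕ)}
    (hS : S ⊆ En n) (h : R.Dep S) : ∃ C ⊆ S, ∃ V : Finset ℕ, V ⊆ range n ∧ V.Nonempty ∧
      (∀ e ∈ C, ∀ x ∈ e, x ∈ V) ∧ (∀ e ∈ C, R.Cl (C.erase e) e) ∧ (d + 1) * V.card ≤ 2 * C.card := by
  classical
  have hd : ∀ e ∈ S, ¬ e.IsDiag := fun e he => (mem_En.1 (hS he)).2
  obtain ⟨C, hCS, hne, hcl, hdeg⟩ := R.exists_circuit hd h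
  refine ⟨C, hCS, C.biUnion fun e => e.toFinset, ?_, ?_, ?_, hcl, ?_⟩
  · intro x hx
    rw [Finset.mem_biUnion] at hx
    obtain ⟨e, he, hxe⟩ := hx
    rw [Sym2.mem_toFinset] at hxe
    exact Finset.mem_range.2 ((mem_En.1 (hS (hCS he))).1 x hxe)
  · obtain ⟨e, he⟩ := hne
    have h2 : e.toFinset.card = 2 := Sym2.card_toFinset_of_not_isDiag e (hd e (hCS he))
    have h3 : e.toFinset.Nonempty := by
      rw [← Finset.card_pos, h2]
      norm_num
    obtain ⟨x, hx⟩ := h3
    exact ⟨x, Finset.mem_biUnion.2 ⟨e, he, hx⟩⟩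
  · intro e he x hx
    exact Finset.mem_biUnion.2 ⟨e, he, Sym2.mem_toFinset.2 hx⟩
  · set V := C.biUnion fun e => e.toFinset with hV
    have h1 : (d + 1) * V.card ≤ ∑ v ∈ V, (C.filter (fun e => v ∈ e)).card := by
      rw [mul_comm, ← smul_eq_mul]
      refine Finset.card_nsmul_le_sum _ _ _ ?_
      intro v hv
      rw [hV, Finset.mem_biUnion] at hv
      obtain ⟨e, he, hxe⟩ := hv
      exact hdeg v ⟨e, he, Sym2.mem_toFinset.1 hxe⟩
    have h2 : ∑ v ∈ V, (C.filter (fun e => v ∈ e)).card =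
        ∑ e ∈ C, (V.filter (fun v => v ∈ e)).card := by
      simp only [Finset.card_filter]
      exact Finset.sum_comm
    have h3 : ∀ e ∈ C, (V.filter (fun v => v ∈ e)).card ≤ 2 := by
      intro e he
      have h4 : e.toFinset.card = 2 := Sym2.card_toFinset_of_not_isDiag e (hd e (hCS he))
      rw [← h4]
      apply Finset.card_le_card
      intro v hv
      rw [Finset.mem_filter] at hv
      exact Sym2.mem_toFinset.2 hv.2
    calc (d + 1) * V.card ≤ ∑ v ∈ V, (C.filter (fun e => v ∈ e)).card := h1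
      _ = ∑ e ∈ C, (V.filter (fun v => v ∈ e)).card := h2
      _ ≤ ∑ _e ∈ C, 2 := Finset.sum_le_sum h3
      _ = 2 * C.card := by rw [Finset.sum_const, smul_eq_mul, mul_comm]

end Pool.Agent.Helper55.ML
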