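import Pool.Agent.Helper55.ML.P4
import Pool.Agent.Helper55.ML.Q1

set_option autoImplicit false
open Finset Filter Topology

namespace Pool.Agent.Helper55.ML

private lemma q11_card_Kp (S : Finset ℕ) : (Kp S).card = S.card.choose 2 := by
  have h : Kp S = S.offDiag.image (Function.uncurry Sym2.mk) := by
    ext e
    induction e using Sym2.inductionOn with
    | hf a b =>
      rw [mk_mem_Kp, Finset.mem_image]
      constructor
      · rintro ⟨ha, hb, hab⟩
        exact ⟨(a, b), by simp [Finset.mem_offDiag, ha, hb, hab], rfl⟩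
      · rintro ⟨⟨x, y⟩, hxy, he⟩
        rw [Finset.mem_offDiag] at hxy
        simp only [Function.uncurry] at he
        rw [Sym2.eq_iff] at he
        rcases he with ⟨h1, h2⟩ | ⟨h1, h2⟩
        · subst h1; subst h2; exact hxy
        · subst h1; subst h2; exact ⟨hxy.2.1, hxy.1, fun h => hxy.2.2 h.symm⟩
  rw [h, Sym2.card_image_offDiag]

private lemma q11_Kp_sub {n : ℕ} {S : Finset ℕ} (hS : S ⊆ range n) : Kp S ⊆ En n := by
  intro e he
  rw [mem_Kp] at he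
  rw [mem_En]
  exact ⟨fun x hx => Finset.mem_range.1 (hS (he.1 x hx)), he.2⟩

private lemma q11_ins_sub {n : ℕ} {G : Finset (Sym2 ℕ)} (hG : G ⊆ En n) (S : Finset ℕ) :
    ins S G ⊆ Kp S := by
  intro e he
  rw [mem_ins] at he
  rw [mem_Kp]
  exact ⟨he.2, (mem_En.1 (hG he.1)).2⟩

private lemma q11_point {n : ℕ} {G : Finset (Sym2 ℕ)} (hG : G ⊆ En n) {S : Finset ℕ}
    (hne : S.Nonempty) (hd : 3 * S.card ≤ 2 * (ins S G).card) :
    4 ≤ S.card ∧ ∃ A ∈ (Kp S).powersetCard ((3 * S.card + 1) / 2), A ⊆ G := by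
  have h1 : (ins S G).card ≤ S.card.choose 2 := by
    rw [← q11_card_Kp]
    exact Finset.card_le_card (q11_ins_sub hG S)
  have h0 : 1 ≤ S.card := Finset.card_pos.2 hne
  refine ⟨?_, ?_⟩
  · by_contra hlt
    have h3 : S.card = 1 ∨ S.card = 2 ∨ S.card = 3 := by omega
    have c1 : Nat.choose 1 2 = 0 := by decide
    have c2 : Nat.choose 2 2 = 1 := by decide
    have c3 : Nat.choose 3 2 = 3 := by decide
    rcases h3 with h | h | h <;> rw [h] at h1 hd
    · rw [c1] at h1; omega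
    · rw [c2] at h1; omega
    · rw [c3] at h1; omega
  · obtain ⟨A, hA, hc⟩ := Finset.exists_subset_card_eq
      (show (3 * S.card + 1) / 2 ≤ (ins S G).card by omega)
    exact ⟨A, Finset.mem_powersetCard.2 ⟨hA.trans (q11_ins_sub hG S), hc⟩,
      hA.trans (ins_subset S G)⟩

private lemma q11_choose (m k : ℕ) :
    (m.choose k : ℝ) * ((k : ℝ) / 3) ^ k ≤ (m : ℝ) ^ k := by
  have h1 : (m.choose k : ℝ) ≤ (m : ℝ) ^ k / k.factorial := Nat.choose_le_pow_div k m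
  have h2 := Real.pow_div_factorial_le_exp (k : ℝ) (Nat.cast_nonneg k) k
  have hf : (0 : ℝ) < k.factorial := by exact_mod_cast Nat.factorial_pos k
  have h3 : Real.exp k ≤ 3 ^ k := by
    rw [← Real.exp_one_pow]
    exact pow_le_pow_left₀ (Real.exp_pos 1).le (by linarith [Real.exp_one_lt_d9]) k
  have h4 : (k : ℝ) ^ k ≤ 3 ^ k * k.factorial := by
    rw [div_le_iff₀ hf] at h2
    exact h2.trans (mul_le_mul_of_nonneg_right h3 hf.le)
  have h5 : ((k : ℝ) / 3) ^ k ≤ k.factorial := by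
    rw [div_pow, div_le_iff₀ (by positivity)]
    linarith
  rw [le_div_iff₀ hf] at h1
  exact (mul_le_mul_of_nonneg_left h5 (Nat.cast_nonneg _)).trans h1

private lemma q11_choose1 (n s : ℕ) (hs : 0 < s) :
    (n.choose s : ℝ) ≤ (3 * n / s) ^ s := by
  have h := q11_choose n s
  have hs' : (0 : ℝ) < s := by exact_mod_cast hs
  have h1 : (0 : ℝ) < ((s : ℝ) / 3) ^ s := by positivity
  have h2 : (3 * n / s : ℝ) ^ s * ((s : ℝ) / 3) ^ s = (n : ℝ) ^ s := by
    rw [← mul_pow]; congr 1; field_simp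
  rw [← h2] at h
  exact le_of_mul_le_mul_right h h1

private lemma q11_choose2 (s k : ℕ) (hs : 0 < s) (hk : 3 * s ≤ 2 * k) :
    ((s.choose 2).choose k : ℝ) ≤ (s : ℝ) ^ k := by
  have h := q11_choose (s.choose 2) k
  have hs' : (0 : ℝ) < s := by exact_mod_cast hs
  have hk' : (3 : ℝ) * s ≤ 2 * k := by exact_mod_cast hk
  have hkp : (0 : ℝ) < k := by linarith
  have h1 : (0 : ℝ) < ((k : ℝ) / 3) ^ k := by positivity
  have h2 : ((s.choose 2 : ℕ) : ℝ) ≤ s * ((k : ℝ) / 3) := by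
    rw [Nat.cast_choose_two]
    nlinarith
  have h3 : ((s.choose 2 : ℕ) : ℝ) ^ k ≤ (s : ℝ) ^ k * ((k : ℝ) / 3) ^ k := by
    rw [← mul_pow]
    exact pow_le_pow_left₀ (Nat.cast_nonneg _) h2 k
  exact le_of_mul_le_mul_right (h.trans h3) h1

private lemma q11_term {c : ℝ} (hc : 0 < c) (n s k : ℕ) (hn : 0 < n) (hs : 4 ≤ s)
    (hk : 3 * s ≤ 2 * k) (hy : c * s / n ≤ 1) (hx : 9 * c ^ 2 * (c * s / n) ≤ 1 / 16) :
    (n.choose s : ℝ) * ((s.choose 2).choose k : ℝ) * (c / n) ^ k ≤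
      20736 * c ^ 6 / (n : ℝ) ^ 2 := by
  have hn' : (0 : ℝ) < n := by exact_mod_cast hn
  have hs' : (0 : ℝ) < s := by exact_mod_cast (show 0 < s by omega)
  set y : ℝ := c * s / n with hydef
  have hy0 : 0 < y := by positivity
  set x : ℝ := 9 * c ^ 2 * y with hxdef
  have hx0 : 0 < x := by positivity
  have h1 := q11_choose1 n s (by omega)
  have h2 := q11_choose2 s k (by omega) hk
  have h3 : (n.choose s : ℝ) * ((s.choose 2).choose k : ℝ) * (c / n) ^ k ≤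
      (3 * n / s) ^ s * y ^ k := by
    have : (s : ℝ) ^ k * (c / n) ^ k = y ^ k := by
      rw [← mul_pow]; congr 1; rw [hydef]; ring
    calc (n.choose s : ℝ) * ((s.choose 2).choose k : ℝ) * (c / n) ^ k
        ≤ (3 * n / s) ^ s * (s : ℝ) ^ k * (c / n) ^ k := by gcongr
      _ = (3 * n / s) ^ s * y ^ k := by rw [mul_assoc, this]
  refine h3.trans ?_
  have h4 : ((3 * n / s : ℝ) ^ s * y ^ k) ^ 2 ≤ x ^ s := by
    have e1 : ((3 * n / s : ℝ) ^ s * y ^ k) ^ 2 = ((3 * n / s : ℝ) ^ 2) ^ s * y ^ (2 * k) := by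
      rw [mul_pow, ← pow_mul, ← pow_mul, ← pow_mul]
      congr 2 <;> ring
    have e2 : y ^ (2 * k) ≤ y ^ (3 * s) := pow_le_pow_of_le_one hy0.le hy hk
    rw [e1]
    calc ((3 * n / s : ℝ) ^ 2) ^ s * y ^ (2 * k)
        ≤ ((3 * n / s : ℝ) ^ 2) ^ s * y ^ (3 * s) := by gcongr
      _ = x ^ s := by
        rw [pow_mul, ← mul_pow]
        congr 1
        rw [hxdef, hydef]
        field_simp
        ring
  have h5 : x ^ s ≤ (x ^ 2 * (1 / 4) ^ (s - 4)) ^ 2 := by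
    obtain ⟨t, rfl⟩ : ∃ t, s = t + 4 := ⟨s - 4, by omega⟩
    rw [Nat.add_sub_cancel]
    calc x ^ (t + 4) = x ^ 4 * x ^ t := by ring
      _ ≤ x ^ 4 * (1 / 16) ^ t := by gcongr
      _ = (x ^ 2 * (1 / 4) ^ t) ^ 2 := by
        have e : (1 / 16 : ℝ) ^ t = ((1 / 4) ^ t) ^ 2 := by
          rw [← pow_mul, mul_comm t 2, pow_mul (1 / 4 : ℝ) 2 t]
          norm_num
        rw [e]; ring
  have h6 : (3 * n / s : ℝ) ^ s * y ^ k ≤ x ^ 2 * (1 / 4) ^ (s - 4) := by
    have hA : 0 ≤ (3 * n / s : ℝ) ^ s * y ^ k := by positivity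
    have hB : 0 ≤ x ^ 2 * (1 / 4 : ℝ) ^ (s - 4) := by positivity
    exact le_of_sq_le_sq (h4.trans h5) hB
  refine h6.trans ?_
  have h7 : (s : ℝ) ^ 2 * (1 / 4) ^ (s - 4) ≤ 256 := by
    have e3 : (s : ℝ) ≤ 2 ^ s := by exact_mod_cast (Nat.lt_two_pow_self).le
    have e4 : (s : ℝ) ^ 2 ≤ 4 ^ s := by
      calc (s : ℝ) ^ 2 ≤ (2 ^ s) ^ 2 := by gcongr
        _ = 4 ^ s := by rw [← pow_mul, mul_comm, pow_mul]; norm_num
    have e5 : (4 : ℝ) ^ s = 256 * 4 ^ (s - 4) := by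
      obtain ⟨t, rfl⟩ : ∃ t, s = t + 4 := ⟨s - 4, by omega⟩
      rw [Nat.add_sub_cancel]; ring
    calc (s : ℝ) ^ 2 * (1 / 4) ^ (s - 4) ≤ 4 ^ s * (1 / 4) ^ (s - 4) := by gcongr
      _ = 256 * (4 ^ (s - 4) * (1 / 4) ^ (s - 4)) := by rw [e5]; ring
      _ = 256 := by rw [← mul_pow]; norm_num
  calc x ^ 2 * (1 / 4) ^ (s - 4)
      = 81 * c ^ 6 / (n : ℝ) ^ 2 * ((s : ℝ) ^ 2 * (1 / 4) ^ (s - 4)) := by
        rw [hxdef, hydef]; field_simp; ring
    _ ≤ 81 * c ^ 6 / (n : ℝ) ^ 2 * 256 := by gcongr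
    _ = 20736 * c ^ 6 / (n : ℝ) ^ 2 := by ring

/-- Q11 (hint): first moment. A set of `s` vertices with at least `3s/2` internal edges:
`C(n,s) C(s^2/2, ⌈3s/2⌉) (c/n)^{⌈3s/2⌉} ≤ (C (s/n)^{1/2})^s` for `s ≤ β n`, and sets with at most
two vertices never qualify; the sum over `3 ≤ s ≤ β n` tends to zero. -/
theorem Neg_dense_small {c : ℝ} (hc : 0 < c) : ∃ β : ℝ, 0 < β ∧
    Neg c (fun n G => ∃ S : Finset ℕ, S ⊆ range n ∧ S.Nonempty ∧ (S.card : ℝ) ≤ β * n ∧
      3 * S.card ≤ 2 * (ins S G).card) := by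
  set β : ℝ := min (1 / c) (1 / (144 * c ^ 3)) with hβ
  have hβ0 : 0 < β := lt_min (by positivity) (by positivity)
  refine ⟨β, hβ0, ?_⟩
  have hlim : Tendsto (fun n : ℕ => 20736 * c ^ 6 * ((n : ℝ))⁻¹) atTop (𝓝 0) := by
    have := (tendsto_inv_atTop_nhds_zero_nat (𝕜 := ℝ)).const_mul (20736 * c ^ 6)
    simpa using this
  refine Neg_of_le hc hlim ?_
  filter_upwards [cn_eventually hc, eventually_gt_atTop 0] with n hcn hn
  have hn' : (0 : ℝ) < n := by exact_mod_cast hn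
  have hp0 : 0 ≤ c / (n : ℝ) := hcn.1.le
  have hp1 : c / (n : ℝ) ≤ 1 := by linarith [hcn.2]
  set I : Finset ℕ := (Finset.Icc 4 n).filter (fun s => (s : ℝ) ≤ β * n) with hI
  have hstep : Pr n (c / n) (fun G => ∃ S : Finset ℕ, S ⊆ range n ∧ S.Nonempty ∧
      (S.card : ℝ) ≤ β * n ∧ 3 * S.card ≤ 2 * (ins S G).card) ≤
      Ex n (c / n) (fun G => ∑ s ∈ I, ∑ S ∈ (range n).powersetCard s,
        ∑ A ∈ (Kp S).powersetCard ((3 * s + 1) / 2), ind (A ⊆ G)) := by
    refine Ex_mono hp0 hp1 (fun G hG => ?_)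
    have hnn : 0 ≤ ∑ s ∈ I, ∑ S ∈ (range n).powersetCard s,
        ∑ A ∈ (Kp S).powersetCard ((3 * s + 1) / 2), ind (A ⊆ G) :=
      Finset.sum_nonneg (fun _ _ => Finset.sum_nonneg (fun _ _ =>
        Finset.sum_nonneg (fun _ _ => ind_nonneg _)))
    by_cases hB : ∃ S : Finset ℕ, S ⊆ range n ∧ S.Nonempty ∧
      (S.card : ℝ) ≤ β * n ∧ 3 * S.card ≤ 2 * (ins S G).card
    · rw [ind_true hB]
      obtain ⟨S, hS, hne, hsm, hd⟩ := hB
      obtain ⟨h4, A, hA, hAG⟩ := q11_point hG hne hd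
      have hsI : S.card ∈ I := by
        rw [hI, Finset.mem_filter, Finset.mem_Icc]
        refine ⟨⟨h4, ?_⟩, hsm⟩
        have := Finset.card_le_card hS
        rwa [Finset.card_range] at this
      calc (1 : ℝ) = ind (A ⊆ G) := (ind_true hAG).symm
        _ ≤ ∑ A ∈ (Kp S).powersetCard ((3 * S.card + 1) / 2), ind (A ⊆ G) :=
          Finset.single_le_sum (f := fun A => ind (A ⊆ G)) (fun _ _ => ind_nonneg _) hA
        _ ≤ ∑ S' ∈ (range n).powersetCard S.card,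
            ∑ A ∈ (Kp S').powersetCard ((3 * S.card + 1) / 2), ind (A ⊆ G) :=
          Finset.single_le_sum (f := fun S' : Finset ℕ =>
            ∑ A ∈ (Kp S').powersetCard ((3 * S.card + 1) / 2), ind (A ⊆ G))
            (fun _ _ => Finset.sum_nonneg (fun _ _ => ind_nonneg _))
            (Finset.mem_powersetCard.2 ⟨hS, rfl⟩)
        _ ≤ _ := Finset.single_le_sum (f := fun s : ℕ => ∑ S' ∈ (range n).powersetCard s,
            ∑ A ∈ (Kp S').powersetCard ((3 * s + 1) / 2), ind (A ⊆ G))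
            (fun _ _ => Finset.sum_nonneg (fun _ _ =>
              Finset.sum_nonneg (fun _ _ => ind_nonneg _))) hsI
    · rw [ind_false hB]; exact hnn
  refine hstep.trans ?_
  rw [Ex_sum]
  have hterm : ∀ s ∈ I, Ex n (c / n) (fun G => ∑ S ∈ (range n).powersetCard s,
        ∑ A ∈ (Kp S).powersetCard ((3 * s + 1) / 2), ind (A ⊆ G)) ≤
      20736 * c ^ 6 / (n : ℝ) ^ 2 := by
    intro s hs
    rw [hI, Finset.mem_filter, Finset.mem_Icc] at hs
    rw [Ex_sum]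
    have h1 : ∀ S ∈ (range n).powersetCard s, Ex n (c / n) (fun G =>
        ∑ A ∈ (Kp S).powersetCard ((3 * s + 1) / 2), ind (A ⊆ G)) =
        ((s.choose 2).choose ((3 * s + 1) / 2) : ℝ) * (c / n) ^ ((3 * s + 1) / 2) := by
      intro S hS
      rw [Finset.mem_powersetCard] at hS
      rw [Ex_sum]
      have h2 : ∀ A ∈ (Kp S).powersetCard ((3 * s + 1) / 2),
          Ex n (c / n) (fun G => ind (A ⊆ G)) = (c / n) ^ ((3 * s + 1) / 2) := by
        intro A hA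
        rw [Finset.mem_powersetCard] at hA
        unfold Ex
        rw [BE_subset (hA.1.trans (q11_Kp_sub hS.1)), hA.2]
      rw [Finset.sum_congr rfl h2, Finset.sum_const, Finset.card_powersetCard, q11_card_Kp,
        hS.2, nsmul_eq_mul]
    rw [Finset.sum_congr rfl h1, Finset.sum_const, Finset.card_powersetCard,
      Finset.card_range, nsmul_eq_mul, ← mul_assoc]
    refine q11_term hc n s _ hn hs.1.1 (by omega) ?_ ?_
    · rw [div_le_one hn']
      have h3 : (s : ℝ) ≤ 1 / c * n := hs.2.trans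
        (mul_le_mul_of_nonneg_right (min_le_left _ _) hn'.le)
      calc c * s ≤ c * (1 / c * n) := by gcongr
        _ = n := by field_simp
    · have h3 : (s : ℝ) ≤ 1 / (144 * c ^ 3) * n := hs.2.trans
        (mul_le_mul_of_nonneg_right (min_le_right _ _) hn'.le)
      calc 9 * c ^ 2 * (c * s / n) ≤ 9 * c ^ 2 * (c * (1 / (144 * c ^ 3) * n) / n) := by gcongr
        _ = 1 / 16 := by field_simp; norm_num
  refine (Finset.sum_le_sum hterm).trans ?_
  rw [Finset.sum_const, nsmul_eq_mul]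
  have hcard : (I.card : ℝ) ≤ n := by
    have h1 : I.card ≤ (Finset.Icc 4 n).card := Finset.card_filter_le _ _
    rw [Nat.card_Icc] at h1
    exact_mod_cast (show I.card ≤ n by omega)
  calc (I.card : ℝ) * (20736 * c ^ 6 / (n : ℝ) ^ 2) ≤ n * (20736 * c ^ 6 / (n : ℝ) ^ 2) := by
        gcongr
    _ = 20736 * c ^ 6 * ((n : ℝ))⁻¹ := by field_simp

end Pool.Agent.Helper55.ML
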