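import Pool.Agent.Helper55.ML.T1
import Pool.Agent.Helper55.ML.T2

set_option autoImplicit false
open Finset Filter Topology

namespace Pool.Agent.Helper55.ML

/-- T3 (hint): by `dense_clique` with `Y0 = Y` there is `δ2` and a clique `C`, `|C| ≥ δ2 n`,
`¬ C ⊆ Y`. If `Y` is nonempty: `Y` (a clique, `Y_clq`, with at least `δ n` elements) and `C` are
two cliques of size at least `min(δ,δ2) n`; by T2 the union is a clique with at least `δ n`
elements, so `C ⊆ Y`, contradiction. If `Y` is empty then `G` is independent (`hS.hT`) and T0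
applies. -/
theorem Rig.T3 {d t : ℕ} (R : Rig d t) {c δ : ℝ} (hS : Std R c δ) {ε : ℝ} (hε : 0 < ε) :
    Neg c (fun n G => ε * (n : ℝ) ^ 2 ≤ ((R.cl n G \ Kp (R.Y δ n G)).card : ℝ)) := by
  obtain ⟨δ2, hδ2, n0, hdc⟩ := R.dense_clique hS.ht hε
  have hm : 0 < min δ δ2 := lt_min hS.hδ hδ2
  have hA1 := R.T2 hS.hc hm
  have hA2 := R.Y_clq hS.hc hS.hδ
  have hA3 := hS.hT
  have hA4 := R.T0 hS.hc hε
  refine Neg_mono hS.hc (Neg_or hS.hc (Neg_or hS.hc hA1 hA2) (Neg_or hS.hc hA3 hA4)) ?_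
  filter_upwards [eventually_ge_atTop n0] with n hn G hG hB
  by_contra hcon
  rw [not_or, not_or, not_or, not_not, not_and, not_not, not_and] at hcon
  obtain ⟨⟨h1, h2⟩, h3, h4⟩ := hcon
  obtain ⟨C, hCn, hC, hCc, hCY⟩ := hdc n hn G (R.Y δ n G) hB
  have hn0 : (0 : ℝ) ≤ n := Nat.cast_nonneg n
  by_cases hne : (R.Y δ n G).Nonempty
  · have hYc := R.Y_card hne
    have h5 : R.Clq G (R.Y δ n G ∪ C) := by
      by_contra h6
      refine h1 ⟨R.Y δ n G, C, R.Y_subset, hCn, h2, hC, ?_, ?_, h6⟩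
      · exact (mul_le_mul_of_nonneg_right (min_le_left _ _) hn0).trans hYc
      · exact (mul_le_mul_of_nonneg_right (min_le_right _ _) hn0).trans hCc
    have h7 : ((R.Y δ n G).card : ℝ) ≤ ((R.Y δ n G ∪ C).card : ℝ) := by
      exact_mod_cast Finset.card_le_card Finset.subset_union_left
    have h8 : R.Y δ n G ∪ C ⊆ R.Y δ n G :=
      R.subset_Y (Finset.union_subset R.Y_subset hCn) h5 (hYc.trans h7)
    exact hCY (Finset.subset_union_right.trans h8)
  · have h5 : ¬ R.Dep G := fun hD => hne (h3 hD)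
    refine h4 h5 (hB.trans ?_)
    exact_mod_cast Finset.card_le_card Finset.sdiff_subset

/-- the expectation of the relative number of pairs of the closure outside `Y` -/
private theorem t3_van {d t : ℕ} (R : Rig d t) {c δ : ℝ} (hS : Std R c δ) :
    Van c (fun n G => ((R.cl n G \ Kp (R.Y δ n G)).card : ℝ) / (n : ℝ) ^ 2) := by
  unfold Van
  rw [Metric.tendsto_nhds]
  intro ε hε
  have h1 := (Neg_iff hS.hc).1 (R.T3 hS (show 0 < ε / 4 by linarith)) (ε / 4) (by linarith)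
  filter_upwards [h1, cn_eventually hS.hc, eventually_gt_atTop 0] with n h1 h2 hn
  have hp1 : c / (n : ℝ) ≤ 1 := by linarith [h2.2]
  have hn' : (0 : ℝ) < (n : ℝ) ^ 2 := by positivity
  have h3 : 0 ≤ Ex n (c / n) (fun G => ((R.cl n G \ Kp (R.Y δ n G)).card : ℝ) / (n : ℝ) ^ 2) :=
    Ex_nonneg h2.1.le hp1 fun G _ => by positivity
  rw [Real.dist_eq, sub_zero, abs_of_nonneg h3]
  have h4 : Ex n (c / n) (fun G => ((R.cl n G \ Kp (R.Y δ n G)).card : ℝ) / (n : ℝ) ^ 2) ≤
      Ex n (c / n) (fun G => ε / 4 +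
        ind (ε / 4 * (n : ℝ) ^ 2 ≤ ((R.cl n G \ Kp (R.Y δ n G)).card : ℝ))) := by
    refine Ex_mono h2.1.le hp1 fun G _ => ?_
    by_cases h5 : ε / 4 * (n : ℝ) ^ 2 ≤ ((R.cl n G \ Kp (R.Y δ n G)).card : ℝ)
    · rw [ind_true h5]
      have h6 : ((R.cl n G \ Kp (R.Y δ n G)).card : ℝ) ≤ ((En n).card : ℝ) := by
        have : R.cl n G \ Kp (R.Y δ n G) ⊆ En n :=
          Finset.sdiff_subset.trans (fun e he => (R.mem_cl.1 he).1)
        exact_mod_cast Finset.card_le_card this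
      rw [card_En] at h6
      have h7 : ((R.cl n G \ Kp (R.Y δ n G)).card : ℝ) / (n : ℝ) ^ 2 ≤ 1 := by
        rw [div_le_one hn']
        have hn0 : (0 : ℝ) ≤ n := Nat.cast_nonneg n
        nlinarith
      linarith
    · rw [ind_false h5, add_zero]
      rw [div_le_iff₀ hn']
      exact (not_le.1 h5).le
  rw [Ex_add (f := fun _ => ε / 4), Ex_const] at h4
  unfold Pr at h1
  linarith

open Classical in
/-- R0 (hint): `Ex_mecke` and `Ex_erase`: the expectation is at most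
`p/(1-p) E|cl(G) \ Kp Y| / n`, then T3. -/
theorem Rig.R0 {d t : ℕ} (R : Rig d t) {c δ : ℝ} (hS : Std R c δ) :
    Van c (fun n G => ((G.filter (fun e => R.Cl (G.erase e) e ∧
      ¬ e.toFinset ⊆ R.Y δ n (G.erase e))).card : ℝ) / n) := by
  have hc := hS.hc
  have hlim : Tendsto (fun n : ℕ => (2 * c) * Ex n (c / n)
      (fun G => ((R.cl n G \ Kp (R.Y δ n G)).card : ℝ) / (n : ℝ) ^ 2)) atTop (𝓝 0) := by
    have h := (t3_van R hS).const_mul (2 * c)
    rw [mul_zero] at h
    exact h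
  unfold Van
  refine squeeze_zero' ?_ ?_ hlim
  · filter_upwards [cn_eventually hc] with n h2
    refine Ex_nonneg h2.1.le (by linarith [h2.2]) fun G _ => by positivity
  filter_upwards [cn_eventually hc, eventually_gt_atTop 0] with n h2 hn
  have hp1 : c / (n : ℝ) ≤ 1 := by linarith [h2.2]
  have hn' : (0 : ℝ) < (n : ℝ) := by exact_mod_cast hn
  set g : Sym2 ℕ → Finset (Sym2 ℕ) → ℝ := fun e H =>
    ind (R.Cl H e ∧ ¬ e.toFinset ⊆ R.Y δ n H) with hg
  have e1 : Ex n (c / n) (fun G => ((G.filter (fun e => R.Cl (G.erase e) e ∧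
      ¬ e.toFinset ⊆ R.Y δ n (G.erase e))).card : ℝ) / n) =
      Ex n (c / n) (fun G => ∑ e ∈ G, g e (G.erase e)) * (1 / n) := by
    rw [← Ex_mul_right]
    refine Ex_congr fun G _ => ?_
    rw [mul_one_div]
    congr 1
    rw [Finset.card_filter]
    push_cast
    refine Finset.sum_congr rfl fun e _ => ?_
    rw [hg]
    by_cases h3 : R.Cl (G.erase e) e ∧ ¬ e.toFinset ⊆ R.Y δ n (G.erase e)
    · rw [if_pos h3]
      exact (ind_true h3).symm
    · rw [if_neg h3]
      exact (ind_false h3).symm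
  rw [e1, Ex_mecke]
  have e2 : ∑ e ∈ En n, Ex n (c / n) (fun G => g e (G.erase e)) ≤
      2 * Ex n (c / n) (fun G => ((R.cl n G \ Kp (R.Y δ n G)).card : ℝ)) := by
    have e3 : ∀ e ∈ En n, Ex n (c / n) (fun G => g e (G.erase e)) ≤
        2 * Ex n (c / n) (fun G => g e G) := by
      intro e he
      have h3 := Ex_erase n (c / n) he (g e)
      have h4 : 0 ≤ Ex n (c / n) (fun G => g e (G.erase e)) :=
        Ex_nonneg h2.1.le hp1 fun G _ => ind_nonneg _
      have h5 : Ex n (c / n) (fun G => ind (e ∉ G) * g e G) ≤ Ex n (c / n) (fun G => g e G) := by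
        refine Ex_mono h2.1.le hp1 fun G _ => ?_
        exact mul_le_of_le_one_left (ind_nonneg _) (ind_le_one _)
      have h6 : Ex n (c / n) (fun G => g e (G.erase e)) / 2 ≤
          (1 - c / n) * Ex n (c / n) (fun G => g e (G.erase e)) := by
        have : (1 : ℝ) / 2 ≤ 1 - c / n := by linarith [h2.2]
        nlinarith
      linarith
    refine (Finset.sum_le_sum e3).trans ?_
    rw [← Finset.mul_sum]
    refine mul_le_mul_of_nonneg_left ?_ (by norm_num)
    have e4 : ∑ e ∈ En n, Ex n (c / n) (fun G => g e G) =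
        Ex n (c / n) (fun G => ∑ e ∈ En n, g e G) := (Ex_sum (En n) g).symm
    rw [e4]
    refine Ex_mono h2.1.le hp1 fun G _ => ?_
    have e5 : ∑ e ∈ En n, g e G =
        (((En n).filter (fun e => R.Cl G e ∧ ¬ e.toFinset ⊆ R.Y δ n G)).card : ℝ) := by
      rw [Finset.card_filter]
      push_cast
      refine Finset.sum_congr rfl fun e _ => ?_
      by_cases h3 : R.Cl G e ∧ ¬ e.toFinset ⊆ R.Y δ n G
      · rw [if_pos h3]
        exact ind_true h3
      · rw [if_neg h3]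
        exact ind_false h3
    rw [e5]
    have e6 : (En n).filter (fun e => R.Cl G e ∧ ¬ e.toFinset ⊆ R.Y δ n G) ⊆
        R.cl n G \ Kp (R.Y δ n G) := by
      intro e he
      rw [Finset.mem_filter] at he
      rw [Finset.mem_sdiff]
      refine ⟨R.mem_cl.2 ⟨he.1, he.2.1⟩, fun hK => he.2.2 ?_⟩
      intro x hx
      exact (mem_Kp.1 hK).1 x (Sym2.mem_toFinset.1 hx)
    exact_mod_cast Finset.card_le_card e6
  have e7 : Ex n (c / n) (fun G => ((R.cl n G \ Kp (R.Y δ n G)).card : ℝ) / (n : ℝ) ^ 2) =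
      Ex n (c / n) (fun G => ((R.cl n G \ Kp (R.Y δ n G)).card : ℝ)) * (1 / (n : ℝ) ^ 2) := by
    rw [← Ex_mul_right]
    refine Ex_congr fun G _ => ?_
    rw [mul_one_div]
  rw [e7]
  calc (c / n * ∑ e ∈ En n, Ex n (c / n) (fun G => g e (G.erase e))) * (1 / n)
      ≤ c / n * (2 * Ex n (c / n) (fun G => ((R.cl n G \ Kp (R.Y δ n G)).card : ℝ))) * (1 / n) :=
        mul_le_mul_of_nonneg_right (mul_le_mul_of_nonneg_left e2 h2.1.le) (by positivity)
    _ = 2 * c * (Ex n (c / n) (fun G => ((R.cl n G \ Kp (R.Y δ n G)).card : ℝ)) *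
        (1 / (n : ℝ) ^ 2)) := by
        field_simp

end Pool.Agent.Helper55.ML
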