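import Pool.Agent.Helper55.ML.G1a
import Pool.Agent.Helper55.ML.T3
import Pool.Agent.Helper55.ML.M2
import Pool.Agent.Helper55.ML.Q8
import Pool.Agent.Helper55.ML.Q11

set_option autoImplicit false
open Finset Filter Topology

namespace Pool.Agent.Helper55.ML

/-- Markov's inequality for the random graph. -/
private theorem g1c_markov {c : ℝ} (hc : 0 < c) {f : ℕ → Finset (Sym2 ℕ) → ℝ}
    (hf0 : ∀ n G, 0 ≤ f n G) (hf : Van c f) {τ : ℝ} (hτ : 0 < τ) :
    Neg c (fun n G => τ ≤ f n G) := by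
  have h1 : Tendsto (fun n : ℕ => Ex n (c / n) (f n) * (1 / τ)) atTop (𝓝 0) := by
    have := hf.mul_const (1 / τ)
    rwa [zero_mul] at this
  refine Neg_of_le hc h1 ?_
  filter_upwards [cn_eventually hc] with n hn
  rw [← Ex_mul_right]
  refine Ex_mono hn.1.le (by linarith [hn.2]) fun G _ => ?_
  by_cases h : τ ≤ f n G
  · rw [ind_true h, mul_one_div, le_div_iff₀ hτ, one_mul]
    exact h
  · rw [ind_false h]
    exact mul_nonneg (hf0 n G) (by positivity)

/-- Deleting a few vertices deletes few edges. -/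
private theorem g1c_del_card {n : ℕ} {G : Finset (Sym2 ℕ)} (hG : G ⊆ En n) {Q : Finset ℕ} {D : ℕ}
    (hQ : Q ⊆ range n) (hD : ∀ v < n, (nb n G v).card ≤ D) :
    G.card ≤ (del Q G).card + Q.card * D := by
  classical
  have h1 : G ⊆ del Q G ∪ Q.biUnion (fun v => star v (nb n G v)) := by
    intro e he
    by_cases h : ∀ x ∈ e, x ∉ Q
    · exact Finset.mem_union_left _ (mem_del.2 ⟨he, h⟩)
    · push Not at h
      obtain ⟨x, hx, hxQ⟩ := h
      refine Finset.mem_union_right _ (Finset.mem_biUnion.2 ⟨x, hxQ, ?_⟩)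
      obtain ⟨u, rfl⟩ := Sym2.mem_iff_exists.1 hx
      exact mem_star.2 ⟨u, mem_nb.2 ⟨(mk_mem_En.1 (hG he)).2.1, he⟩, rfl⟩
  have h2 : (Q.biUnion (fun v => star v (nb n G v))).card ≤ Q.card * D := by
    refine Finset.card_biUnion_le_card_mul _ _ _ fun v hv => ?_
    exact le_trans Finset.card_image_le (hD v (Finset.mem_range.1 (hQ hv)))
  have h3 := Finset.card_le_card h1
  have h4 := Finset.card_union_le (del Q G) (Q.biUnion (fun v => star v (nb n G v)))
  omega

/-- The vertex set of a circuit lies in the core. -/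
private theorem g1c_core {d n : ℕ} {S C : Finset (Sym2 ℕ)} (hS : S ⊆ En n) (hC : C ⊆ S)
    (hdeg : ∀ v, (∃ e ∈ C, v ∈ e) → d + 1 ≤ (C.filter (fun e => v ∈ e)).card) :
    (C.biUnion fun e => e.toFinset) ⊆ core d n S := by
  classical
  refine subset_core ?_ ?_
  · intro x hx
    rw [Finset.mem_biUnion] at hx
    obtain ⟨e, he, hxe⟩ := hx
    rw [Sym2.mem_toFinset] at hxe
    exact Finset.mem_range.2 ((mem_En.1 (hS (hC he))).1 x hxe)
  · intro u hu
    rw [Finset.mem_biUnion] at hu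
    obtain ⟨e, he, hue⟩ := hu
    rw [Sym2.mem_toFinset] at hue
    refine le_trans (hdeg u ⟨e, he, hue⟩) ?_
    have h1 : C.filter (fun e => u ∈ e) ⊆
        (nb n S u ∩ C.biUnion fun e => e.toFinset).image (fun w => s(u, w)) := by
      intro f hf
      rw [Finset.mem_filter] at hf
      obtain ⟨w, rfl⟩ := Sym2.mem_iff_exists.1 hf.2
      refine Finset.mem_image.2 ⟨w, Finset.mem_inter.2 ⟨mem_nb.2 ⟨?_, hC hf.1⟩,
        Finset.mem_biUnion.2 ⟨_, hf.1, ?_⟩⟩, rfl⟩
      · exact (mk_mem_En.1 (hS (hC hf.1))).2.1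
      · rw [Sym2.mem_toFinset]; exact Sym2.mem_mk_right u w
    exact le_trans (Finset.card_le_card h1) Finset.card_image_le

/-- G1c (hint): let `β'` be the constant of `Neg_dense_small`, `τ` small (`τ = β'/2`), `β = β'/2`. Exclude:
`null_big`, `Neg_maxdeg`, `Neg_dense_small`, and (R0 and Markov) more than `τ n` edges `e` of `G` with
`R.Cl (G.erase e) e` and `¬ e.toFinset ⊆ R.Y δ n (G.erase e)`. For `Q` with at most `(log n)^4`
vertices at most `(log n)^6` edges meet `Q`, so `|del Q G| > r(G) ≥ r(del Q G)` and `del Q G` is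
dependent. `exists_circuit` gives a circuit `C ⊆ del Q G`; its vertex set `V` lies in
`core d n (del Q G)`; `|C| ≥ (d+1)|V|/2 ≥ 3|V|/2`, so `|V| > β' n`. All edges of `C` are redundant in
`G`; a vertex of `V` outside `R.Y δ n G` lies on at least `d+1` edges of `C`, all of them counted in
R0 (`Y_mono`), so there are at most `2 τ n/(d+1) ≤ τ n` such vertices. -/
theorem Rig.Gd_core {d t : ℕ} (R : Rig d t) {c δ : ℝ} (hS : Std R c δ) :
    ∃ β : ℝ, 0 < β ∧ Neg c (fun n G => R.Dep G ∧ ¬ ∀ Q : Finset ℕ, Q ⊆ range n →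
      Q.card ≤ (Nat.log 2 n) ^ 4 →
        β * n ≤ ((R.Y δ n G ∩ core d n (del Q G)).card : ℝ)) := by
  classical
  obtain ⟨b, hb, hN⟩ := Neg_dense_small hS.hc
  refine ⟨b / 2, by positivity, ?_⟩
  have hR0 := g1c_markov hS.hc (fun n G => by positivity) (R.R0 hS)
    (show (0 : ℝ) < b / 4 by positivity)
  have hnull := R.null_big hS
  have hmax := Neg_maxdeg hS.hc
  refine Neg_mono hS.hc (Neg_or hS.hc (Neg_or hS.hc hnull hmax) (Neg_or hS.hc hN hR0)) ?_
  filter_upwards [eventually_ge_atTop 1] with n hn G hG hbad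
  by_contra hcon
  push Not at hcon
  obtain ⟨⟨h1, h2⟩, h3, h4⟩ := hcon
  obtain ⟨hdep, hQ⟩ := hbad
  push Not at hQ
  obtain ⟨Q, hQn, hQc, hlt⟩ := hQ
  have h1' := h1 hdep
  set ℓ := Nat.log 2 n with hℓ
  -- the graph without Q is dependent
  have hcard := g1c_del_card hG hQn h2
  have hpow : Q.card * ℓ ^ 2 ≤ ℓ ^ 8 := by
    calc Q.card * ℓ ^ 2 ≤ ℓ ^ 4 * ℓ ^ 2 := Nat.mul_le_mul_right _ hQc
      _ = ℓ ^ 6 := by ring
      _ ≤ ℓ ^ 8 := by
        rcases Nat.eq_zero_or_pos ℓ with h | h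
        · rw [h]; norm_num
        · exact Nat.pow_le_pow_right h (by norm_num)
  have hr := R.r_mono (del_subset Q G)
  have hdepQ : R.Dep (del Q G) := by
    unfold Rig.Dep
    omega
  have hdelEn : del Q G ⊆ En n := (del_subset Q G).trans hG
  obtain ⟨C, hC, hCne, hCcl, hCdeg⟩ := R.exists_circuit
    (fun e he => (mem_En.1 (hdelEn he)).2) hdepQ
  have hcore := g1c_core hdelEn hC hCdeg
  set V := C.biUnion fun e => e.toFinset with hV
  have hVn : V ⊆ range n := hcore.trans (core_subset d n _)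
  have hVne : V.Nonempty := by
    obtain ⟨e, he⟩ := hCne
    have h2 : e.toFinset.card = 2 := Sym2.card_toFinset_of_not_isDiag e
      (mem_En.1 (hdelEn (hC he))).2
    have h3 : e.toFinset.Nonempty := by
      rw [← Finset.card_pos, h2]; norm_num
    obtain ⟨x, hx⟩ := h3
    exact ⟨x, Finset.mem_biUnion.2 ⟨e, he, hx⟩⟩
  -- the degree sum
  have hdegsum : (d + 1) * V.card ≤ 2 * C.card := by
    have h1 : (d + 1) * V.card ≤ ∑ v ∈ V, (C.filter (fun e => v ∈ e)).card := by
      rw [mul_comm, ← smul_eq_mul]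
      refine Finset.card_nsmul_le_sum _ _ _ ?_
      intro v hv
      rw [hV, Finset.mem_biUnion] at hv
      obtain ⟨e, he, hxe⟩ := hv
      exact hCdeg v ⟨e, he, Sym2.mem_toFinset.1 hxe⟩
    have h2 : ∑ v ∈ V, (C.filter (fun e => v ∈ e)).card =
        ∑ e ∈ C, (V.filter (fun v => v ∈ e)).card := by
      simp only [Finset.card_filter]
      exact Finset.sum_comm
    have h3 : ∀ e ∈ C, (V.filter (fun v => v ∈ e)).card ≤ 2 := by
      intro e he
      have h4 : e.toFinset.card = 2 := Sym2.card_toFinset_of_not_isDiag e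
        (mem_En.1 (hdelEn (hC he))).2
      rw [← h4]
      apply Finset.card_le_card
      intro v hv
      rw [Finset.mem_filter] at hv
      exact Sym2.mem_toFinset.2 hv.2
    calc (d + 1) * V.card ≤ ∑ v ∈ V, (C.filter (fun e => v ∈ e)).card := h1
      _ = ∑ e ∈ C, (V.filter (fun v => v ∈ e)).card := h2
      _ ≤ ∑ _e ∈ C, 2 := Finset.sum_le_sum h3
      _ = 2 * C.card := by rw [Finset.sum_const, smul_eq_mul, mul_comm]
  have hCG : C ⊆ G := hC.trans (del_subset Q G)
  have hins : C ⊆ ins V G := by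
    intro e he
    refine mem_ins.2 ⟨hCG he, fun x hx => ?_⟩
    exact Finset.mem_biUnion.2 ⟨e, he, Sym2.mem_toFinset.2 hx⟩
  have hbig : b * n < (V.card : ℝ) := by
    by_contra hle
    push Not at hle
    have h5 := h3 V hVn hVne hle
    have h6 := Finset.card_le_card hins
    have h7 : 3 * V.card ≤ (d + 1) * V.card := Nat.mul_le_mul_right _ (by have := hS.hd; omega)
    omega
  -- vertices outside Y
  have hn0 : (0 : ℝ) < n := by exact_mod_cast hn
  set F := G.filter (fun e => R.Cl (G.erase e) e ∧ ¬ e.toFinset ⊆ R.Y δ n (G.erase e)) with hF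
  have hFlt : (F.card : ℝ) < b / 4 * n := by
    rw [← div_lt_iff₀ hn0]
    exact h4
  have hsub : V \ R.Y δ n G ⊆ F.biUnion fun e => e.toFinset := by
    intro v hv
    rw [Finset.mem_sdiff, hV, Finset.mem_biUnion] at hv
    obtain ⟨⟨e, he, hve⟩, hvY⟩ := hv
    refine Finset.mem_biUnion.2 ⟨e, ?_, hve⟩
    rw [hF, Finset.mem_filter]
    refine ⟨hCG he, R.Cl_mono (Finset.erase_subset_erase e hCG) (hCcl e he), fun hsub => hvY ?_⟩
    exact R.Y_mono (Finset.erase_subset e G) (hsub hve)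
  have hFc : (F.biUnion fun e => e.toFinset).card ≤ F.card * 2 := by
    refine Finset.card_biUnion_le_card_mul _ _ _ fun e he => ?_
    rw [hF, Finset.mem_filter] at he
    rw [Sym2.card_toFinset_of_not_isDiag e (mem_En.1 (hG he.1)).2]
  have h8 : (V \ R.Y δ n G).card ≤ F.card * 2 := (Finset.card_le_card hsub).trans hFc
  have h9 : V.card ≤ (V ∩ R.Y δ n G).card + (V \ R.Y δ n G).card := by
    rw [Finset.card_inter_add_card_sdiff]
  have h10 : (V ∩ R.Y δ n G).card ≤ (R.Y δ n G ∩ core d n (del Q G)).card := by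
    apply Finset.card_le_card
    intro v hv
    rw [Finset.mem_inter] at hv ⊢
    exact ⟨hv.2, hcore hv.1⟩
  have h8' : ((V \ R.Y δ n G).card : ℝ) ≤ F.card * 2 := by exact_mod_cast h8
  have h9' : (V.card : ℝ) ≤ (V ∩ R.Y δ n G).card + (V \ R.Y δ n G).card := by exact_mod_cast h9
  have h10' : ((V ∩ R.Y δ n G).card : ℝ) ≤ (R.Y δ n G ∩ core d n (del Q G)).card := by
    exact_mod_cast h10
  linarith

end Pool.Agent.Helper55.ML
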