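import Pool.Agent.Helper55.ML.G0
import Pool.Agent.Helper55.ML.G1b
import Pool.Agent.Helper55.ML.G1c
import Pool.Agent.Helper55.ML.A1
import Pool.Agent.Helper55.ML.D2
import Pool.Agent.Helper55.ML.D1b

set_option autoImplicit false
open Finset Filter Topology

namespace Pool.Agent.Helper55.ML

/-- Markov's inequality for negligibility. -/
private theorem g1_markov {c : ℝ} (hc : 0 < c) {f : ℕ → Finset (Sym2 ℕ) → ℝ}
    (hf : Van c f) (h0 : ∀ n G, 0 ≤ f n G) {τ : ℝ} (hτ : 0 < τ) :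
    Neg c (fun n G => τ ≤ f n G) := by
  have h1 : Tendsto (fun n : ℕ => τ⁻¹ * Ex n (c / n) (f n)) atTop (𝓝 0) := by
    have := hf.const_mul τ⁻¹
    rwa [mul_zero] at this
  refine Neg_of_le hc h1 ?_
  filter_upwards [cn_eventually hc] with n hn
  unfold Pr
  rw [← Ex_mul_left]
  refine Ex_mono hn.1.le (by linarith [hn.2]) (fun G _ => ?_)
  by_cases h : τ ≤ f n G
  · rw [ind_true h, inv_mul_eq_div, le_div_iff₀ hτ, one_mul]
    exact h
  · rw [ind_false h]
    exact mul_nonneg (inv_nonneg.2 hτ.le) (h0 n G)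

/-- G1 (hint): see Part D of `/team-store/ML_proof.md`. `η0 = β/4` with `β` from `Gd_core`.
(1) `Y_{x-η} ⊆ Y_δ` is a clique whp (`Y_clq`), and `|Y_{x-η} ∪ Pt k| ≤ |Pt k| + |Y_δ \ Pt k|`
with `|Pt k| ≤ (x + ε/2) n` whp (`Pt_conc`, `goodX_iter`, choose `k`) and `|Y_δ \ Pt k| ≤ (ε/2) n` whp
(`Y_sub_Pt`, Markov). (2) `Gd_clique` gives for every `Q` a clique `C`, `|C| ≥ (x-η) n`; so
`C ⊆ R.Y δ n G` (`δ ≤ x-η`); `|Y_δ(G)| ≤ (x + β/4) n` whp by `hconc`, so all but `(η + β/4) n` elements of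
`Y_δ(G)` are in `C`; with `Gd_core`, `|C ∩ core| ≥ β n - (η + β/4) n ≥ (β/2) n ≥ d+2` for large `n`.
`C` is nonempty as `(x-η) n > 0`. -/
theorem Rig.Gd_neg {d t : ℕ} (R : Rig d t) {c δ : ℝ} (hS : Std R c δ) {x : ℝ} (hx : GoodX d c x)
    (hconc : ∀ η : ℝ, 0 < η → Neg c (fun n G => R.Dep G ∧ η ≤ |R.y δ n G - x|)) :
    ∃ η0 : ℝ, 0 < η0 ∧ ∀ η ε : ℝ, 0 < η → η ≤ η0 → 0 < ε → δ ≤ x - η →
      ∃ k : ℕ, 1 ≤ k ∧ Neg c (fun n G => R.Dep G ∧ ¬ R.Gd x η ε k n G) := by
  classical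
  have hc := hS.hc
  have hd := hS.hd
  have hδ := hS.hδ
  obtain ⟨β, hβ, hcore⟩ := R.Gd_core hS
  refine ⟨β / 4, by positivity, fun η ε hη hη0 hε hδx => ?_⟩
  -- choice of k
  have hiter := goodX_iter hd hc hx
  have hev : ∀ᶠ k : ℕ in atTop, |xt d c k - x| < ε / 4 := by
    have := (Metric.tendsto_nhds.1 hiter) (ε / 4) (by positivity)
    simpa [Real.dist_eq] using this
  obtain ⟨k, hk1, hkx⟩ : ∃ k : ℕ, 1 ≤ k ∧ |xt d c k - x| < ε / 4 := by
    obtain ⟨k, hk⟩ := (hev.and (eventually_ge_atTop 1)).exists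
    exact ⟨k, hk.2, hk.1⟩
  refine ⟨k, hk1, ?_⟩
  have n1 := R.Y_clq hc hδ
  have n2 := Pt_conc (show 1 ≤ d by omega) hc k (show (0 : ℝ) < ε / 4 by positivity)
  have n3 := g1_markov hc (R.Y_sub_Pt hS k)
    (fun n G => by positivity) (show (0 : ℝ) < ε / 4 by positivity)
  have n4 := R.Gd_clique hS hx hconc hη hδx
  have n5 := hconc (β / 4) (by positivity)
  have big := Neg_or hc n1 (Neg_or hc n2 (Neg_or hc n3 (Neg_or hc n4 (Neg_or hc n5 hcore))))
  refine Neg_mono hc big ?_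
  -- n large
  obtain ⟨N, hN⟩ := exists_nat_ge ((2 * ((d : ℝ) + 2)) / β)
  filter_upwards [eventually_ge_atTop N, eventually_ge_atTop 1] with n hn hn1 G hG hbad
  obtain ⟨hDep, hnot⟩ := hbad
  by_contra hcon
  simp only [not_or, not_and, not_not] at hcon
  obtain ⟨c1, c2, c3, c4, c5, c6⟩ := hcon
  have c1 : R.Clq G (R.Y δ n G) := c1
  have c2 : |((Pt d n k G).card : ℝ) / n - xt d c k| < ε / 4 := not_le.1 c2
  have c3 : ((R.Y δ n G \ Pt d n k G).card : ℝ) / n < ε / 4 := not_le.1 c3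
  have c4 := c4 hDep
  have c5 : |R.y δ n G - x| < β / 4 := not_le.1 (c5 hDep)
  have c6 := c6 hDep
  have hn0 : (0 : ℝ) < n := by exact_mod_cast hn1
  have hnβ : (d : ℝ) + 2 ≤ β / 2 * n := by
    have h1 : (2 * ((d : ℝ) + 2)) / β ≤ n := le_trans hN (by exact_mod_cast hn)
    rw [div_le_iff₀ hβ] at h1
    linarith
  have hsub : R.Y (x - η) n G ⊆ R.Y δ n G := by
    intro v hv
    rw [Rig.mem_Y] at hv ⊢
    obtain ⟨h1, C, h2, h3, h4, h5⟩ := hv
    refine ⟨h1, C, h2, h3, h4, le_trans ?_ h5⟩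
    exact mul_le_mul_of_nonneg_right hδx hn0.le
  apply hnot
  refine ⟨R.Clq_subset hsub c1, ?_, ?_⟩
  · -- size of the union
    have s1 : R.Y (x - η) n G ∪ Pt d n k G ⊆ Pt d n k G ∪ (R.Y δ n G \ Pt d n k G) := by
      intro v hv
      rw [Finset.mem_union, Finset.mem_sdiff]
      rcases Finset.mem_union.1 hv with h | h
      · by_cases hP : v ∈ Pt d n k G
        · exact Or.inl hP
        · exact Or.inr ⟨hsub h, hP⟩
      · exact Or.inl h
    have s2 : ((R.Y (x - η) n G ∪ Pt d n k G).card : ℝ)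
        ≤ ((Pt d n k G).card : ℝ) + ((R.Y δ n G \ Pt d n k G).card : ℝ) := by
      exact_mod_cast (Finset.card_le_card s1).trans (Finset.card_union_le _ _)
    have s3 : ((Pt d n k G).card : ℝ) / n < x + ε / 2 := by
      have h1 := (abs_lt.1 c2).2
      have h2 := (abs_lt.1 hkx).2
      linarith
    rw [div_lt_iff₀ hn0] at s3 c3
    nlinarith
  · intro Q hQ hQc
    obtain ⟨C, hC1, hC2, hC3⟩ := c4 Q hQ hQc
    have hxη : 0 < x - η := lt_of_lt_of_le hδ hδx
    have hCG : R.Clq G C := R.Clq_mono (del_subset Q G) hC2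
    have hCδ : δ * n ≤ (C.card : ℝ) :=
      le_trans (mul_le_mul_of_nonneg_right hδx hn0.le) hC3
    have hCY : C ⊆ R.Y δ n G := R.subset_Y hC1 hCG hCδ
    refine ⟨C, hC1, ?_, hC2, hC3, ?_⟩
    · rw [← Finset.card_pos]
      have : (0 : ℝ) < C.card := lt_of_lt_of_le (by positivity) hC3
      exact_mod_cast this
    · have d1 := c6 Q hQ hQc
      have d2 : ((R.Y δ n G).card : ℝ) < (x + β / 4) * n := by
        have h1 := (abs_lt.1 c5).2
        have h2 : R.y δ n G < x + β / 4 := by linarith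
        unfold Rig.y at h2
        rwa [div_lt_iff₀ hn0] at h2
      have d3 : ((R.Y δ n G \ C).card : ℝ) = (R.Y δ n G).card - C.card := by
        have := Finset.card_sdiff_add_card_eq_card hCY
        have h' : (((R.Y δ n G \ C).card + C.card : ℕ) : ℝ) = ((R.Y δ n G).card : ℕ) := by
          rw [this]
        push_cast at h'
        linarith
      have d4 : R.Y δ n G ∩ core d n (del Q G)
          ⊆ (C ∩ core d n (del Q G)) ∪ (R.Y δ n G \ C) := by
        intro v hv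
        rw [Finset.mem_inter] at hv
        rw [Finset.mem_union, Finset.mem_inter, Finset.mem_sdiff]
        by_cases hvC : v ∈ C
        · exact Or.inl ⟨hvC, hv.2⟩
        · exact Or.inr ⟨hv.1, hvC⟩
      have d5 : ((R.Y δ n G ∩ core d n (del Q G)).card : ℝ)
          ≤ ((C ∩ core d n (del Q G)).card : ℝ) + ((R.Y δ n G \ C).card : ℝ) := by
        exact_mod_cast (Finset.card_le_card d4).trans (Finset.card_union_le _ _)
      have d6 : (d : ℝ) + 2 ≤ ((C ∩ core d n (del Q G)).card : ℝ) := by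
        nlinarith
      exact_mod_cast d6

end Pool.Agent.Helper55.ML
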