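import Pool.Agent.Helper55.ML.P3
import Pool.Agent.Helper55.ML.P4

set_option autoImplicit false
open Finset Filter Topology

namespace Pool.Agent.Helper55.ML

theorem p5_step {α : Type*} [DecidableEq α] {E : Finset α} {e : α} (he : e ∈ E) (p : ℝ)
    (f : Finset α → ℝ) :
    p * (1 - p) * BE E p (fun S => f (insert e S) - f (S.erase e)) =
      BE E p (fun S => f S * ((if e ∈ S then 1 else 0) - p)) := by
  obtain ⟨E', he', rfl⟩ : ∃ E' : Finset α, e ∉ E' ∧ insert e E' = E :=
    ⟨E.erase e, Finset.notMem_erase e E, Finset.insert_erase he⟩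
  rw [BE_insert he', BE_insert he']
  have c1 : BE E' p (fun S => f (insert e (insert e S)) - f ((insert e S).erase e)) =
      BE E' p (fun S => f (insert e S)) - BE E' p f := by
    rw [← BE_sub]
    apply BE_congr
    intro S hS
    have heS : e ∉ S := fun h => he' (hS h)
    rw [Finset.insert_idem, Finset.erase_insert heS]
  have c2 : BE E' p (fun S => f (insert e S) - f (S.erase e)) =
      BE E' p (fun S => f (insert e S)) - BE E' p f := by
    rw [← BE_sub]
    apply BE_congr
    intro S hS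
    have heS : e ∉ S := fun h => he' (hS h)
    rw [Finset.erase_eq_of_notMem heS]
  have c3 : BE E' p (fun S => f (insert e S) * ((if e ∈ insert e S then 1 else 0) - p)) =
      BE E' p (fun S => f (insert e S)) * (1 - p) := by
    rw [← BE_mul_right]
    apply BE_congr
    intro S _
    rw [if_pos (Finset.mem_insert_self e S)]
  have c4 : BE E' p (fun S => f S * ((if e ∈ S then 1 else 0) - p)) =
      BE E' p f * (-p) := by
    rw [← BE_mul_right]
    apply BE_congr
    intro S hS
    rw [if_neg (fun h => he' (hS h))]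
    ring
  rw [c1, c2, c3, c4]
  ring

theorem p5_sum {α : Type*} [DecidableEq α] (E : Finset α) (p : ℝ) (f : Finset α → ℝ) :
    p * (1 - p) * ∑ e ∈ E, BE E p (fun S => f (insert e S) - f (S.erase e)) =
      BE E p (fun S => f S * ((S.card : ℝ) - p * E.card)) := by
  rw [Finset.mul_sum, Finset.sum_congr rfl (fun e he => p5_step he p f), ← BE_sum]
  apply BE_congr
  intro S hS
  rw [← Finset.mul_sum, Finset.sum_sub_distrib, Finset.sum_const, nsmul_eq_mul,
    Finset.sum_boole, Finset.filter_mem_eq_inter, Finset.inter_eq_right.2 hS, mul_comm p]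

/-- P5 (hint). The derivative equals `E[f(S)(|S| - p|E|)] / (p(1-p))` (for every `e`:
`E[f(insert e S) - f(erase e S)] = E[f(S)(1_{e in S} - p)]/(p(1-p))`), so by Cauchy-Schwarz it is at
most `sqrt(|E|p(1-p))/(p(1-p))`. -/
theorem BE_deriv_bound {α : Type*} [DecidableEq α] (E : Finset α) {p : ℝ} (h0 : 0 < p)
    (h1 : p < 1) (f : Finset α → ℝ) (hf : ∀ S ⊆ E, |f S| ≤ 1) :
    |∑ e ∈ E, BE E p (fun S => f (insert e S) - f (S.erase e))| ≤
      Real.sqrt (E.card / (p * (1 - p))) := by
  have hp : 0 < p * (1 - p) := mul_pos h0 (by linarith)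
  set D := ∑ e ∈ E, BE E p (fun S => f (insert e S) - f (S.erase e)) with hD
  have h2 : p * (1 - p) * D = BE E p (fun S => f S * ((S.card : ℝ) - p * E.card)) := p5_sum E p f
  have h3 := BE_cauchy E h0.le h1.le f (fun S => (S.card : ℝ) - p * E.card)
  rw [← h2, BE_card_sq] at h3
  have h4 : BE E p (fun S => f S ^ 2) ≤ 1 := by
    have h5 : BE E p (fun S => f S ^ 2) ≤ BE E p (fun _ => (1 : ℝ)) :=
      BE_mono h0.le h1.le (fun S hS => (sq_le_one_iff_abs_le_one _).2 (hf S hS))
    rwa [BE_const] at h5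
  have h6 : (p * (1 - p) * D) ^ 2 ≤ p * (1 - p) * E.card := by
    refine h3.trans ?_
    have h7 : 0 ≤ p * (1 - p) * (E.card : ℝ) := mul_nonneg hp.le (Nat.cast_nonneg _)
    calc BE E p (fun S => f S ^ 2) * (p * (1 - p) * (E.card : ℝ))
        ≤ 1 * (p * (1 - p) * (E.card : ℝ)) := mul_le_mul_of_nonneg_right h4 h7
      _ = p * (1 - p) * E.card := one_mul _
  apply Real.abs_le_sqrt
  rw [le_div_iff₀ hp]
  have h8 : p * (1 - p) * (D ^ 2 * (p * (1 - p))) ≤ p * (1 - p) * E.card := by
    calc p * (1 - p) * (D ^ 2 * (p * (1 - p))) = (p * (1 - p) * D) ^ 2 := by ring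
      _ ≤ _ := h6
  exact le_of_mul_le_mul_left h8 hp

/-- Mean value theorem with the previous bound. -/
theorem BE_lipschitz {α : Type*} [DecidableEq α] (E : Finset α) {a p q : ℝ} (ha : 0 < a)
    (hap : a ≤ p) (hpq : p ≤ q) (hq : q ≤ 1 / 2) (f : Finset α → ℝ) (hf : ∀ S ⊆ E, |f S| ≤ 1) :
    |BE E q f - BE E p f| ≤ (q - p) * Real.sqrt (2 * E.card / a) := by
  have hmv := Convex.norm_image_sub_le_of_norm_hasDerivWithin_le
    (f := fun x => BE E x f)
    (f' := fun x => ∑ e ∈ E, BE E x (fun S => f (insert e S) - f (S.erase e)))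
    (s := Set.Icc p q) (x := p) (y := q) (C := Real.sqrt (2 * E.card / a))
    (fun x _ => (BE_hasDerivAt E x f).hasDerivWithinAt)
    (fun x hx => by
      rw [Real.norm_eq_abs]
      have hx0 : 0 < x := lt_of_lt_of_le (lt_of_lt_of_le ha hap) hx.1
      have hx1 : x ≤ 1 / 2 := hx.2.trans hq
      refine (BE_deriv_bound E hx0 (by linarith) f hf).trans ?_
      apply Real.sqrt_le_sqrt
      have hax : a ≤ x := hap.trans hx.1
      have h3 : a / 2 ≤ x * (1 - x) := by nlinarith
      have h4 : 0 < a / 2 := by linarith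
      calc (E.card : ℝ) / (x * (1 - x)) ≤ E.card / (a / 2) :=
            div_le_div_of_nonneg_left (Nat.cast_nonneg _) h4 h3
        _ = 2 * E.card / a := by field_simp)
    (convex_Icc p q) ⟨le_refl _, hpq⟩ ⟨hpq, le_refl _⟩
  rw [Real.norm_eq_abs, Real.norm_eq_abs, abs_of_nonneg (sub_nonneg.2 hpq), mul_comm] at hmv
  exact hmv

end Pool.Agent.Helper55.ML
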