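import Pool.Agent.Helper55.ML.P2
import Pool.Agent.Helper55.ML.P5
import Pool.Agent.Helper55.ML.Q1

set_option autoImplicit false
open Finset Filter Topology

namespace Pool.Agent.Helper55.ML

/-- Sprinkling probability. -/
noncomputable def sN (n : ℕ) : ℝ := (n : ℝ) ^ (-(7 / 4) : ℝ)
/-- `c/n` plus sprinkling. -/
noncomputable def pp (c : ℝ) (n : ℕ) : ℝ := 1 - (1 - c / n) * (1 - sN n)
/-- `c/n` minus sprinkling. -/
noncomputable def pm (c : ℝ) (n : ℕ) : ℝ := 1 - (1 - c / n) / (1 - sN n)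

private theorem q9_tendsto (a : ℝ) (ha : 0 < a) :
    Tendsto (fun n : ℕ => (n : ℝ) ^ (-a)) atTop (𝓝 0) :=
  (tendsto_rpow_neg_atTop ha).comp tendsto_natCast_atTop_atTop

private theorem q9_nsN {n : ℕ} (hn : 1 ≤ n) : (n : ℝ) * sN n = (n : ℝ) ^ (-(3 / 4) : ℝ) := by
  have h0 : (0 : ℝ) < n := by exact_mod_cast hn
  unfold sN
  conv_lhs => rw [← Real.rpow_one (n : ℝ), Real.rpow_one (n : ℝ)]
  calc (n : ℝ) * (n : ℝ) ^ (-(7 / 4) : ℝ) = (n : ℝ) ^ (1 : ℝ) * (n : ℝ) ^ (-(7 / 4) : ℝ) := by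
        rw [Real.rpow_one]
    _ = (n : ℝ) ^ ((1 : ℝ) + (-(7 / 4) : ℝ)) := (Real.rpow_add h0 _ _).symm
    _ = (n : ℝ) ^ (-(3 / 4) : ℝ) := by norm_num

/-- Q9: elementary bounds. -/
theorem sprinkle_bounds {c : ℝ} (hc : 0 < c) : ∀ᶠ n : ℕ in atTop,
    0 < sN n ∧ sN n ≤ 1 / 2 ∧ c / (2 * n) ≤ pm c n ∧ pm c n ≤ c / n ∧ c / n ≤ pp c n ∧
      pp c n ≤ 1 / 2 ∧ c / n - pm c n ≤ 2 * sN n ∧ pp c n - c / n ≤ sN n := by
  have h1 := (q9_tendsto (3 / 4) (by norm_num)).eventually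
    (gt_mem_nhds (show (0 : ℝ) < min (c / 4) (1 / 4) by positivity))
  obtain ⟨N, hN⟩ := exists_nat_ge (4 * c)
  filter_upwards [h1, eventually_ge_atTop N, eventually_ge_atTop 1] with n h2 h3 h4
  have h0 : (0 : ℝ) < n := by exact_mod_cast h4
  have h1n : (1 : ℝ) ≤ n := by exact_mod_cast h4
  have h5 : 0 < sN n := Real.rpow_pos_of_pos h0 _
  have h6 : (n : ℝ) * sN n < min (c / 4) (1 / 4) := by
    rw [q9_nsN h4]
    exact h2
  have h7 : (n : ℝ) * sN n < c / 4 := h6.trans_le (min_le_left _ _)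
  have h8 : (n : ℝ) * sN n < 1 / 4 := h6.trans_le (min_le_right _ _)
  have h9 : sN n ≤ 1 / 4 := by nlinarith
  have h10 : c / n ≤ 1 / 4 := by
    have h11 : 4 * c ≤ n := hN.trans (by exact_mod_cast h3)
    rw [div_le_iff₀ h0]
    linarith
  have h12 : 0 < c / n := div_pos hc h0
  have h13 : sN n ≤ c / n / 4 := by
    rw [div_div, le_div_iff₀ (by positivity)]
    nlinarith
  have h14 : c / (2 * n) = c / n / 2 := by
    field_simp
  rw [h14]
  set x : ℝ := c / n with hx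
  set s : ℝ := sN n with hs
  have h15 : (0 : ℝ) < 1 - s := by linarith
  have h16 : pm c n = (x - s) / (1 - s) := by
    unfold pm
    rw [← hx, ← hs]
    field_simp
    ring
  have h17 : x - pm c n = s * (1 - x) / (1 - s) := by
    rw [h16]
    field_simp
    ring
  have h18 : 0 ≤ x - pm c n := by
    rw [h17]
    exact div_nonneg (mul_nonneg h5.le (by linarith)) h15.le
  have h19 : x - pm c n ≤ 2 * s := by
    rw [h17, div_le_iff₀ h15]
    nlinarith
  have h20 : pp c n = x + s - x * s := by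
    unfold pp
    rw [← hx, ← hs]
    ring
  refine ⟨h5, by linarith, by linarith, by linarith, ?_, ?_, h19, ?_⟩
  · rw [h20]
    nlinarith
  · rw [h20]
    nlinarith
  · rw [h20]
    nlinarith

/-- (hint) `BE_lipschitz` with `a = c/(2n)`, `|En n| ≤ n^2/2`: difference at most
`2 n^{-7/4} * C n^{3/2}`. -/
theorem sprinkle_tv {c : ℝ} (hc : 0 < c) : ∃ e : ℕ → ℝ, Tendsto e atTop (𝓝 0) ∧
    ∀ᶠ n : ℕ in atTop, ∀ f : Finset (Sym2 ℕ) → ℝ, (∀ G ⊆ En n, |f G| ≤ 1) →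
      |Ex n (pp c n) f - Ex n (c / n) f| ≤ e n ∧ |Ex n (pm c n) f - Ex n (c / n) f| ≤ e n := by
  refine ⟨fun n => 2 * Real.sqrt (2 / c) * (n : ℝ) ^ (-(1 / 4) : ℝ), ?_, ?_⟩
  · have h := (q9_tendsto (1 / 4) (by norm_num)).const_mul (2 * Real.sqrt (2 / c))
    rwa [mul_zero] at h
  · filter_upwards [sprinkle_bounds hc, eventually_ge_atTop 1] with n hn h4 f hf
    obtain ⟨b1, b2, b3, b4, b5, b6, b7, b8⟩ := hn
    have h0 : (0 : ℝ) < n := by exact_mod_cast h4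
    have ha : 0 < c / (2 * n) := by positivity
    have hE : 2 * ((En n).card : ℝ) / (c / (2 * n)) ≤ (2 / c) * (n : ℝ) ^ 3 := by
      rw [card_En, div_le_iff₀ ha]
      have e1 : 2 / c * (n : ℝ) ^ 3 * (c / (2 * n)) = (n : ℝ) ^ 2 := by
        field_simp
      rw [e1]
      nlinarith
    have hsq : Real.sqrt (2 * ((En n).card : ℝ) / (c / (2 * n))) ≤
        Real.sqrt (2 / c) * (n : ℝ) ^ (3 / 2 : ℝ) := by
      refine (Real.sqrt_le_sqrt hE).trans (le_of_eq ?_)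
      rw [Real.sqrt_mul (by positivity)]
      congr 1
      rw [Real.sqrt_eq_rpow, ← Real.rpow_natCast, ← Real.rpow_mul h0.le]
      norm_num
    have hmain : 2 * sN n * Real.sqrt (2 * ((En n).card : ℝ) / (c / (2 * n))) ≤
        2 * Real.sqrt (2 / c) * (n : ℝ) ^ (-(1 / 4) : ℝ) := by
      calc 2 * sN n * Real.sqrt (2 * ((En n).card : ℝ) / (c / (2 * n)))
          ≤ 2 * sN n * (Real.sqrt (2 / c) * (n : ℝ) ^ (3 / 2 : ℝ)) :=
            mul_le_mul_of_nonneg_left hsq (by positivity)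
        _ = 2 * Real.sqrt (2 / c) * ((n : ℝ) ^ (-(7 / 4) : ℝ) * (n : ℝ) ^ (3 / 2 : ℝ)) := by
            unfold sN
            ring
        _ = 2 * Real.sqrt (2 / c) * (n : ℝ) ^ (-(1 / 4) : ℝ) := by
            rw [← Real.rpow_add h0]
            norm_num
    have hsn : 0 ≤ Real.sqrt (2 * ((En n).card : ℝ) / (c / (2 * n))) := Real.sqrt_nonneg _
    constructor
    · have h := BE_lipschitz (En n) ha (b3.trans b4) b5 b6 f hf
      refine h.trans (le_trans (mul_le_mul_of_nonneg_right ?_ hsn) hmain)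
      linarith
    · have h := BE_lipschitz (En n) ha b3 b4 (b5.trans b6) f hf
      rw [abs_sub_comm]
      exact h.trans (le_trans (mul_le_mul_of_nonneg_right b7 hsn) hmain)

theorem sprinkle_pp (c : ℝ) (n : ℕ) (f : Finset (Sym2 ℕ) → ℝ) :
    Ex n (pp c n) f = Ex n (c / n) (fun G => Ex n (sN n) (fun H => f (G ∪ H))) :=
  BE_couple (En n) (c / n) (sN n) f

theorem sprinkle_pm {c : ℝ} {n : ℕ} (h : sN n ≤ 1 / 2) (f : Finset (Sym2 ℕ) → ℝ) :
    Ex n (c / n) f = Ex n (pm c n) (fun G => Ex n (sN n) (fun H => f (G ∪ H))) := by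
  have h1 := BE_couple (En n) (pm c n) (sN n) f
  have h2 : 1 - (1 - pm c n) * (1 - sN n) = c / n := by
    have h3 : 1 - sN n ≠ 0 := by
      have : 0 < 1 - sN n := by linarith
      exact this.ne'
    unfold pm
    rw [sub_sub_cancel, div_mul_cancel₀ _ h3]
    ring
  rw [h2] at h1
  exact h1

end Pool.Agent.Helper55.ML
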