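import Pool.Agent.Helper55.ML.S0
import Pool.Agent.Helper55.ML.P4
import Pool.Agent.Helper55.ML.Q9

set_option autoImplicit false
open Finset Filter Topology

namespace Pool.Agent.Helper55.ML

/-- Every element of `T ∩ (cl G \ G)` raises `|G ∪ T| - r(G ∪ T)` by one. -/
private theorem g1a_det {d t : ℕ} (R : Rig d t) {n : ℕ} {G T : Finset (Sym2 ℕ)} (hT : T ⊆ En n) :
    (T ∩ (R.cl n G \ G)).card + R.r (G ∪ T) ≤ (G ∪ T).card := by
  classical
  have h1 : R.r (G ∪ T) ≤ R.r G + (T \ R.cl n G).card := by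
    have h2 : G ∪ T ⊆ (G ∪ (T ∩ R.cl n G)) ∪ (T \ R.cl n G) := by
      intro e he
      rw [mem_union] at he
      rw [mem_union, mem_union, mem_inter, Finset.mem_sdiff]
      tauto
    have h3 := R.r_union_le (G ∪ (T ∩ R.cl n G)) (T \ R.cl n G)
    rw [R.r_union_of_Cl (T := T ∩ R.cl n G) fun f hf => (R.mem_cl.1 (mem_inter.1 hf).2).2] at h3
    exact (R.r_mono h2).trans h3
  have h4 : (T ∩ (R.cl n G \ G)).card + (T \ R.cl n G).card ≤ (T \ G).card := by
    rw [← card_union_of_disjoint]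
    · apply card_le_card
      intro e he
      rw [mem_union, mem_inter, Finset.mem_sdiff, Finset.mem_sdiff] at he
      rw [Finset.mem_sdiff]
      rcases he with ⟨h5, _, h6⟩ | ⟨h5, h6⟩
      · exact ⟨h5, h6⟩
      · exact ⟨h5, fun h7 => h6 (R.mem_cl.2 ⟨hT h5, R.Cl_of_mem h7⟩)⟩
    · rw [disjoint_left]
      intro e h5 h6
      exact (Finset.mem_sdiff.1 h6).2 (Finset.mem_sdiff.1 (mem_inter.1 h5).2).1
  have h5 := R.r_le_card G
  have h6 : (T \ G).card + G.card = (G ∪ T).card := by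
    rw [card_sdiff_add_card, union_comm]
  omega

/-- Chebyshev lower tail. -/
private theorem g1a_cheb {α : Type*} [DecidableEq α] {E X : Finset α} (hX : X ⊆ E) {s : ℝ}
    (h0 : 0 ≤ s) (h1 : s ≤ 1) {L : ℕ} {m : ℝ} (hm : 0 < m) (hmX : m ≤ s * X.card)
    (hL : 2 * (L : ℝ) ≤ m) : BE E s (fun T => ind ((T ∩ X).card ≤ L)) ≤ 4 / m := by
  rw [BE_inter hX s (fun S => ind (S.card ≤ L))]
  set μ : ℝ := s * X.card with hμ
  have hμ0 : 0 < μ := hm.trans_le hmX
  have h2 : BE X s (fun S => ind (S.card ≤ L)) ≤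
      BE X s (fun S => ((S.card : ℝ) - s * X.card) ^ 2 * (4 / μ ^ 2)) := by
    refine BE_mono h0 h1 fun S _ => ?_
    by_cases h : S.card ≤ L
    · rw [ind_true h, ← hμ, mul_div_assoc', le_div_iff₀ (by positivity), one_mul]
      have h3 : (S.card : ℝ) ≤ L := by exact_mod_cast h
      have h4 : μ / 2 ≤ μ - S.card := by linarith
      nlinarith [mul_le_mul h4 h4 (by positivity) (by linarith)]
    · rw [ind_false h]
      positivity
  refine h2.trans ?_
  rw [BE_mul_right, BE_card_sq]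
  have h3 : s * (1 - s) * (X.card : ℝ) ≤ μ := by
    rw [hμ]
    have : (0 : ℝ) ≤ s * s * X.card := by positivity
    nlinarith
  calc s * (1 - s) * (X.card : ℝ) * (4 / μ ^ 2) ≤ μ * (4 / μ ^ 2) :=
        mul_le_mul_of_nonneg_right h3 (by positivity)
    _ = 4 / μ := by field_simp
    _ ≤ 4 / m := div_le_div_of_nonneg_left (by norm_num) hm hmX

private theorem g1a_sN {n : ℕ} (hn : 0 < n) : sN n * (n : ℝ) ^ 2 = (n : ℝ) ^ ((1 : ℝ) / 4) := by
  have h0 : (0 : ℝ) < n := by exact_mod_cast hn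
  unfold sN
  rw [← Real.rpow_natCast, ← Real.rpow_add h0]
  norm_num

private theorem g1a_log {n : ℕ} (hn : 1 ≤ n) : (Nat.log 2 n : ℝ) ≤ 2 * Real.log n := by
  have h0 : (0 : ℝ) < n := by exact_mod_cast hn
  have h1 : ((2 : ℝ)) ^ (Nat.log 2 n) ≤ n := by
    exact_mod_cast Nat.pow_log_le_self 2 (by omega)
  have h2 : (Nat.log 2 n : ℝ) * Real.log 2 ≤ Real.log n := by
    rw [← Real.log_pow]
    exact Real.log_le_log (by positivity) h1
  have h3 : (1 : ℝ) / 2 < Real.log 2 := by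
    have := Real.log_two_gt_d9
    linarith
  have h4 : (0 : ℝ) ≤ Nat.log 2 n := Nat.cast_nonneg _
  nlinarith

/-- Powers of the logarithm are small. -/
private theorem g1a_polylog {κ : ℝ} (hκ : 0 < κ) : ∀ᶠ n : ℕ in atTop,
    2 * (((Nat.log 2 n) ^ 8 : ℕ) : ℝ) ≤ κ * (n : ℝ) ^ ((1 : ℝ) / 4) := by
  have hcast : Tendsto (fun n : ℕ => (n : ℝ)) atTop atTop := tendsto_natCast_atTop_atTop
  have h := (isLittleO_log_rpow_rpow_atTop (8 : ℝ)
    (show (0 : ℝ) < 1 / 4 by norm_num)).comp_tendsto hcast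
  have hc : (0 : ℝ) < κ / (2 * 2 ^ 8) := by positivity
  filter_upwards [h.bound hc, eventually_ge_atTop 1] with n hn h1
  have h1' : (1 : ℝ) ≤ n := by exact_mod_cast h1
  have hl : 0 ≤ Real.log (n : ℝ) := Real.log_nonneg h1'
  simp only [Function.comp_apply] at hn
  rw [Real.norm_of_nonneg (Real.rpow_nonneg hl _),
    Real.norm_of_nonneg (Real.rpow_nonneg (by linarith) _)] at hn
  have he : Real.log (n : ℝ) ^ (8 : ℝ) = Real.log (n : ℝ) ^ 8 := by
    rw [← Real.rpow_natCast]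
    norm_num
  rw [he] at hn
  push_cast
  have h2 : (Nat.log 2 n : ℝ) ^ 8 ≤ (2 * Real.log n) ^ 8 :=
    pow_le_pow_left₀ (Nat.cast_nonneg _) (g1a_log h1) 8
  calc 2 * (Nat.log 2 n : ℝ) ^ 8 ≤ 2 * (2 * Real.log n) ^ 8 := by linarith
    _ = 2 * 2 ^ 8 * Real.log n ^ 8 := by ring
    _ ≤ 2 * 2 ^ 8 * (κ / (2 * 2 ^ 8) * (n : ℝ) ^ ((1 : ℝ) / 4)) :=
        mul_le_mul_of_nonneg_left hn (by positivity)
    _ = κ * (n : ℝ) ^ ((1 : ℝ) / 4) := by field_simp

private theorem g1a_card_Kp (A : Finset ℕ) :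
    ((Kp A).card : ℝ) = (A.card : ℝ) * ((A.card : ℝ) - 1) / 2 := by
  have h1 : Kp A = A.offDiag.image (Function.uncurry Sym2.mk) := by
    ext e
    induction e using Sym2.ind with
    | _ a b =>
      rw [mk_mem_Kp, mem_image]
      constructor
      · rintro ⟨ha, hb, hab⟩
        exact ⟨(a, b), mem_offDiag.2 ⟨ha, hb, hab⟩, rfl⟩
      · rintro ⟨⟨x, y⟩, hxy, he⟩
        rw [mem_offDiag] at hxy
        obtain ⟨hx, hy, hne⟩ := hxy
        rcases Sym2.eq_iff.1 he with ⟨e1, e2⟩ | ⟨e1, e2⟩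
        · subst e1; subst e2
          exact ⟨hx, hy, hne⟩
        · subst e1; subst e2
          exact ⟨hy, hx, hne.symm⟩
  rw [h1, Sym2.card_image_offDiag, Nat.cast_choose_two]

/-- If `Y` is nonempty and `G` has few edges, many pairs of the closure are not in `G`. -/
private theorem g1a_X {d t : ℕ} (R : Rig d t) {δ : ℝ} {n : ℕ} {G : Finset (Sym2 ℕ)}
    (hδ : 0 < δ) (hn : 2 ≤ δ * n) (hY : (R.Y δ n G).Nonempty)
    (hG : ¬ (δ ^ 2 / 8 * (n : ℝ) ^ 2 ≤ (G.card : ℝ))) :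
    δ ^ 2 / 8 * (n : ℝ) ^ 2 ≤ ((R.cl n G \ G).card : ℝ) := by
  classical
  obtain ⟨v, hv⟩ := hY
  obtain ⟨_, C, hC, _, hq, hc⟩ := R.mem_Y.1 hv
  have h1 : Kp C ⊆ R.cl n G := by
    intro e he
    induction e using Sym2.ind with
    | _ a b =>
      rw [mk_mem_Kp] at he
      exact R.mem_cl.2 ⟨mk_mem_En.2 ⟨mem_range.1 (hC he.1), mem_range.1 (hC he.2.1), he.2.2⟩,
        hq a he.1 b he.2.1 he.2.2⟩
  have h2 : (Kp C).card ≤ (R.cl n G \ G).card + G.card := by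
    refine (card_le_card h1).trans ?_
    rw [card_sdiff_add_card]
    exact card_le_card subset_union_left
  have h3 : ((Kp C).card : ℝ) ≤ ((R.cl n G \ G).card : ℝ) + G.card := by exact_mod_cast h2
  rw [g1a_card_Kp] at h3
  push Not at hG
  have h4 : δ * n * (δ * n - 1) / 2 ≤ (C.card : ℝ) * ((C.card : ℝ) - 1) / 2 := by
    have := mul_le_mul hc (sub_le_sub_right hc 1) (by linarith) (Nat.cast_nonneg C.card)
    linarith
  nlinarith

/-- G1a (hint): `G = G₁ ∪ T`, `G₁` of density `pm c n`, `T` of density `sN n` (`sprinkle_pm`); `G₁`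
is dependent whp if `G` is (`P(Dep)` differs by `o(1)`, `sprinkle_tv`, and `G₁ ⊆ G`), then (`hS.hT` with
`sprinkle_tv`) there is a clique `C` of the closure of `G₁` with at least `δ n` vertices. Every element
of `T ∩ (R.cl n G₁ \ G₁)` raises `|G| - r(G)` by one: `r(G₁ ∪ T) ≤ |G₁| + |T \ (G₁ ∪ cl G₁)|`. For a fixed
`X` with `|X| ≥ δ²n²/4` we have `P(|T ∩ X| ≤ K) ≤ (1 + sN n * |X|)^K * (1 - sN n)^(|X| - K)` (union over
`B = T ∩ X`, `|B| ≤ K`, `BE_subset_disj`, `BE_inter`), or Chebyshev (`BE_card_sq`):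
`E|T ∩ X| = sN n * |X| ≥ const * n^{1/4}`. -/
theorem Rig.null_big {d t : ℕ} (R : Rig d t) {c δ : ℝ} (hS : Std R c δ) :
    Neg c (fun n G => R.Dep G ∧ G.card ≤ R.r G + (Nat.log 2 n) ^ 8) := by
  classical
  have hc := hS.hc
  have hδ := hS.hδ
  obtain ⟨e, he, htv⟩ := sprinkle_tv hc
  have hn1 : Tendsto (fun n : ℕ => 4 * c / δ ^ 2 * ((n : ℝ))⁻¹) atTop (𝓝 0) := by
    have h := (tendsto_inv_atTop_zero.comp
      (tendsto_natCast_atTop_atTop (R := ℝ))).const_mul (4 * c / δ ^ 2)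
    rw [mul_zero] at h
    exact h
  have hn4 : Tendsto (fun n : ℕ => 32 / δ ^ 2 * (n : ℝ) ^ (-(1 / 4) : ℝ)) atTop (𝓝 0) := by
    have h := ((tendsto_rpow_neg_atTop (show (0 : ℝ) < 1 / 4 by norm_num)).comp
      (tendsto_natCast_atTop_atTop (R := ℝ))).const_mul (32 / δ ^ 2)
    rw [mul_zero] at h
    exact h
  have hT : Tendsto (fun n : ℕ => Pr n (c / n)
    (fun G => R.Dep G ∧ ¬ (R.Y δ n G).Nonempty)) atTop (𝓝 0) := hS.hT
  have hlim := (((he.add (hT.add he)).add hn1).add hn4)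
  simp only [add_zero] at hlim
  refine Neg_of_le hc hlim ?_
  obtain ⟨N, hN⟩ := exists_nat_ge (2 / δ)
  filter_upwards [htv, sprinkle_bounds hc, eventually_ge_atTop N, eventually_ge_atTop 1,
    g1a_polylog (show (0 : ℝ) < δ ^ 2 / 8 by positivity), cn_eventually hc]
    with n htv hb hnN hn0 hlog hcn
  obtain ⟨b1, b2, b3, b4, b5, b6, b7, b8⟩ := hb
  have hnp : (0 : ℝ) < n := by exact_mod_cast hn0
  have hδn : 2 ≤ δ * n := by
    have h1 : (2 : ℝ) / δ ≤ n := hN.trans (by exact_mod_cast hnN)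
    rw [div_le_iff₀ hδ] at h1
    linarith
  have hp0 : 0 ≤ pm c n := le_trans (by positivity) b3
  have hp1 : pm c n ≤ 1 := by linarith [hcn.2]
  have hs1 : sN n ≤ 1 := by linarith
  set L := (Nat.log 2 n) ^ 8 with hL
  set m : ℝ := δ ^ 2 / 8 * (n : ℝ) ^ ((1 : ℝ) / 4) with hm
  have hm0 : 0 < m := by positivity
  -- pointwise bound of the inner expectation
  have key : ∀ G ⊆ En n, Ex n (sN n) (fun H => ind (R.Dep (G ∪ H) ∧
      (G ∪ H).card ≤ R.r (G ∪ H) + L)) ≤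
      (Ex n (sN n) (fun H => ind (R.Dep (G ∪ H))) - ind (R.Dep G)) +
        ind (R.Dep G ∧ ¬ (R.Y δ n G).Nonempty) +
        (G.card : ℝ) * (8 / (δ ^ 2 * (n : ℝ) ^ 2)) + 4 / m := by
    intro G _
    have a1 : 0 ≤ ind (R.Dep G ∧ ¬ (R.Y δ n G).Nonempty) := ind_nonneg _
    have a2 : 0 ≤ (G.card : ℝ) * (8 / (δ ^ 2 * (n : ℝ) ^ 2)) := by positivity
    have a3 : 0 ≤ 4 / m := by positivity
    have a4 : Ex n (sN n) (fun H => ind (R.Dep (G ∪ H) ∧ (G ∪ H).card ≤ R.r (G ∪ H) + L)) ≤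
        Ex n (sN n) (fun H => ind (R.Dep (G ∪ H))) :=
      Ex_mono b1.le hs1 fun H _ => ind_mono fun h => h.1
    by_cases hD : R.Dep G
    · have a5 : Ex n (sN n) (fun H => ind (R.Dep (G ∪ H))) = 1 := by
        rw [← Ex_const (n := n) (p := sN n) (1 : ℝ)]
        exact Ex_congr fun H _ => ind_true (R.Dep_mono subset_union_left hD)
      rw [ind_true hD]
      by_cases hY : (R.Y δ n G).Nonempty
      · by_cases hG : δ ^ 2 / 8 * (n : ℝ) ^ 2 ≤ (G.card : ℝ)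
        · have a6 : 1 ≤ (G.card : ℝ) * (8 / (δ ^ 2 * (n : ℝ) ^ 2)) := by
            rw [mul_div_assoc', le_div_iff₀ (by positivity)]
            linarith
          linarith
        · have a7 := g1a_X R hδ hδn hY hG
          have a8 : m ≤ sN n * ((R.cl n G \ G).card : ℝ) := by
            rw [hm, ← g1a_sN hn0]
            have := mul_le_mul_of_nonneg_left a7 b1.le
            linarith
          have hXE : R.cl n G \ G ⊆ En n := fun e he => (R.mem_cl.1 (Finset.mem_sdiff.1 he).1).1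
          have a9 := g1a_cheb hXE b1.le hs1 hm0 a8 hlog
          have a10 : Ex n (sN n) (fun H => ind (R.Dep (G ∪ H) ∧
              (G ∪ H).card ≤ R.r (G ∪ H) + L)) ≤
              BE (En n) (sN n) (fun T => ind ((T ∩ (R.cl n G \ G)).card ≤ L)) := by
            refine Ex_mono b1.le hs1 fun H hH => ind_mono fun h => ?_
            have := g1a_det R (G := G) hH
            omega
          linarith
      · rw [ind_true ⟨hD, hY⟩]
        linarith
    · rw [ind_false hD]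
      linarith
  -- outer expectation
  have h1 : Pr n (c / n) (fun G => R.Dep G ∧ G.card ≤ R.r G + L) =
      Ex n (pm c n) (fun G => Ex n (sN n) (fun H => ind (R.Dep (G ∪ H) ∧
        (G ∪ H).card ≤ R.r (G ∪ H) + L))) :=
    sprinkle_pm b2 (fun G => ind (R.Dep G ∧ G.card ≤ R.r G + L))
  have h2 : Ex n (c / n) (fun G => ind (R.Dep G)) =
      Ex n (pm c n) (fun G => Ex n (sN n) (fun H => ind (R.Dep (G ∪ H)))) :=
    sprinkle_pm b2 (fun G => ind (R.Dep G))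
  rw [h1]
  refine (Ex_mono hp0 hp1 key).trans ?_
  rw [Ex_add (f := fun G => (Ex n (sN n) (fun H => ind (R.Dep (G ∪ H))) - ind (R.Dep G)) +
        ind (R.Dep G ∧ ¬ (R.Y δ n G).Nonempty) +
        (G.card : ℝ) * (8 / (δ ^ 2 * (n : ℝ) ^ 2))) (g := fun _ => 4 / m),
    Ex_add (f := fun G => (Ex n (sN n) (fun H => ind (R.Dep (G ∪ H))) - ind (R.Dep G)) +
        ind (R.Dep G ∧ ¬ (R.Y δ n G).Nonempty))
        (g := fun G => (G.card : ℝ) * (8 / (δ ^ 2 * (n : ℝ) ^ 2))),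
    Ex_add (f := fun G => (Ex n (sN n) (fun H => ind (R.Dep (G ∪ H))) - ind (R.Dep G)))
        (g := fun G => ind (R.Dep G ∧ ¬ (R.Y δ n G).Nonempty)),
    Ex_sub (f := fun G => Ex n (sN n) (fun H => ind (R.Dep (G ∪ H))))
        (g := fun G => ind (R.Dep G)), ← h2, Ex_const]
  have hbd : ∀ B : Finset (Sym2 ℕ) → Prop, ∀ G ⊆ En n, |ind (B G)| ≤ 1 := fun B G _ => by
    rw [abs_of_nonneg (ind_nonneg _)]
    exact ind_le_one _
  have h3 := (htv (fun G => ind (R.Dep G)) (hbd _)).2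
  have h4 := (htv (fun G => ind (R.Dep G ∧ ¬ (R.Y δ n G).Nonempty)) (hbd _)).2
  rw [abs_sub_comm] at h3
  have h3' := le_of_abs_le h3
  have h4' := le_of_abs_le h4
  have h5 : Ex n (pm c n) (fun G => (G.card : ℝ) * (8 / (δ ^ 2 * (n : ℝ) ^ 2))) ≤
      4 * c / δ ^ 2 * ((n : ℝ))⁻¹ := by
    rw [Ex_mul_right]
    have h6 : Ex n (pm c n) (fun G => (G.card : ℝ)) = pm c n * (En n).card :=
      BE_card (En n) (pm c n)
    have h7 : pm c n * ((En n).card : ℝ) ≤ c / n * ((n : ℝ) ^ 2 / 2) := by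
      refine mul_le_mul b4 ?_ (Nat.cast_nonneg _) hcn.1.le
      rw [card_En]
      nlinarith
    rw [h6]
    calc pm c n * ((En n).card : ℝ) * (8 / (δ ^ 2 * (n : ℝ) ^ 2))
        ≤ c / n * ((n : ℝ) ^ 2 / 2) * (8 / (δ ^ 2 * (n : ℝ) ^ 2)) :=
          mul_le_mul_of_nonneg_right h7 (by positivity)
      _ = 4 * c / δ ^ 2 * ((n : ℝ))⁻¹ := by
          field_simp
          norm_num
  have h8 : 4 / m = 32 / δ ^ 2 * (n : ℝ) ^ (-(1 / 4) : ℝ) := by
    rw [hm, Real.rpow_neg hnp.le]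
    have : (n : ℝ) ^ ((1 : ℝ) / 4) ≠ 0 := (Real.rpow_pos_of_pos hnp _).ne'
    field_simp
    norm_num
  rw [h8]
  unfold Pr
  linarith

end Pool.Agent.Helper55.ML
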