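import Pool.Agent.Helper55.ML.Basic

set_option autoImplicit false
open Finset Filter Topology

namespace Pool.Agent.Helper55.ML

private theorem m1_star_inj (v : ℕ) (N : Finset ℕ) : (star v N).card = N.card := by
  unfold star
  refine Finset.card_image_of_injective _ (fun a b hab => ?_)
  have h : a = b ∨ v = b ∧ a = v := by simpa using hab
  rcases h with h | ⟨h1, h2⟩
  · exact h
  · exact h2.trans h1

/-- Version of `r_deg_le` where only the edges at `v` are assumed not to be loops. -/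
private theorem m1_deg {d t : ℕ} (R : Rig d t) {S : Finset (Sym2 ℕ)} {v : ℕ}
    (hS : ∀ e ∈ S, v ∈ e → ¬ e.IsDiag)
    (h : (S.filter (fun e => v ∈ e)).card ≤ d) :
    R.r S = R.r (del {v} S) + (S.filter (fun e => v ∈ e)).card := by
  classical
  obtain ⟨N, hN⟩ : ∃ N : Finset ℕ, N = (S.biUnion (fun e => e.toFinset)).filter
    (fun u => s(v, u) ∈ S) := ⟨_, rfl⟩
  have hmem : ∀ u, u ∈ N ↔ s(v, u) ∈ S := by
    intro u
    rw [hN, Finset.mem_filter, Finset.mem_biUnion]
    constructor
    · exact fun h => h.2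
    · intro h
      exact ⟨⟨s(v, u), h, by simp⟩, h⟩
  have hstar : star v N = S.filter (fun e => v ∈ e) := by
    ext e
    rw [mem_star, Finset.mem_filter]
    constructor
    · rintro ⟨u, hu, rfl⟩
      exact ⟨(hmem u).1 hu, by simp⟩
    · rintro ⟨he, hv⟩
      obtain ⟨u, rfl⟩ := Sym2.mem_iff_exists.1 hv
      exact ⟨u, (hmem u).2 he, rfl⟩
  have hv : v ∉ N := by
    intro hv
    refine hS _ ((hmem v).1 hv) (by simp) (by simp)
  have hdel : ∀ e ∈ del {v} S, v ∉ e := by
    intro e he hve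
    exact (mem_del.1 he).2 v hve (by simp)
  have hunion : del {v} S ∪ star v N = S := by
    rw [hstar]
    ext e
    rw [Finset.mem_union, mem_del, Finset.mem_filter]
    constructor
    · rintro (⟨h1, _⟩ | ⟨h1, _⟩) <;> exact h1
    · intro he
      by_cases hve : v ∈ e
      · exact Or.inr ⟨he, hve⟩
      · refine Or.inl ⟨he, fun x hx hxv => ?_⟩
        rw [Finset.mem_singleton] at hxv
        exact hve (hxv ▸ hx)
  have hcard : N.card = (S.filter (fun e => v ∈ e)).card := by
    rw [← hstar, m1_star_inj]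
  have key := R.zero_ext (del {v} S) v N hdel hv (by rw [hcard]; exact h)
  rw [hunion, hcard] at key
  exact key

/-- M1 (hint): a vertex of degree at most `d`. `zero_ext` with the set of other endpoints. All
sets are without loops `s(a,a)`. -/
theorem Rig.r_deg_le {d t : ℕ} (R : Rig d t) {S : Finset (Sym2 ℕ)} (hS : ∀ e ∈ S, ¬ e.IsDiag)
    {v : ℕ} (h : (S.filter (fun e => v ∈ e)).card ≤ d) :
    R.r S = R.r (del {v} S) + (S.filter (fun e => v ∈ e)).card :=
  m1_deg R (fun e he _ => hS e he) h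

/-- Every edge at a vertex of degree at most `d` is a coloop. -/
theorem Rig.coloop {d t : ℕ} (R : Rig d t) {S : Finset (Sym2 ℕ)} (hS : ∀ e ∈ S, ¬ e.IsDiag)
    {v : ℕ} (h : (S.filter (fun e => v ∈ e)).card ≤ d) {e : Sym2 ℕ} (he : e ∈ S) (hv : v ∈ e) :
    ¬ R.Cl (S.erase e) e := by
  intro hcl
  rw [R.Cl_def, Finset.insert_erase he] at hcl
  have h1 := R.r_deg_le hS h
  have h2 : (S.erase e).filter (fun e => v ∈ e) = (S.filter (fun e => v ∈ e)).erase e :=
    Finset.filter_erase (fun e => v ∈ e) e S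
  have h3 : e ∈ S.filter (fun e => v ∈ e) := Finset.mem_filter.2 ⟨he, hv⟩
  have h4 : ((S.erase e).filter (fun e => v ∈ e)).card + 1 =
      (S.filter (fun e => v ∈ e)).card := by
    rw [h2]
    exact Finset.card_erase_add_one h3
  have h5 := R.r_deg_le (S := S.erase e) (fun f hf => hS f (Finset.mem_of_mem_erase hf))
    (v := v) (by omega)
  have h6 : del {v} (S.erase e) = del {v} S := by
    ext f
    rw [mem_del, mem_del, Finset.mem_erase]
    constructor
    · rintro ⟨⟨_, h1⟩, h2⟩
      exact ⟨h1, h2⟩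
    · rintro ⟨h1, h7⟩
      refine ⟨⟨?_, h1⟩, h7⟩
      rintro rfl
      exact h7 v hv (by simp)
  rw [h6] at h5
  omega

/-- Deleting a vertex of degree at most `d` does not change the closure elsewhere. -/
theorem Rig.Cl_avoid {d t : ℕ} (R : Rig d t) {S : Finset (Sym2 ℕ)} (hS : ∀ e ∈ S, ¬ e.IsDiag)
    {v : ℕ} (h : (S.filter (fun e => v ∈ e)).card ≤ d) {f : Sym2 ℕ} (hv : v ∉ f)
    (hf : R.Cl S f) : R.Cl (del {v} S) f := by
  rw [R.Cl_def] at hf ⊢
  have h1 := R.r_deg_le hS h
  have h2 : (insert f S).filter (fun e => v ∈ e) = S.filter (fun e => v ∈ e) := by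
    rw [Finset.filter_insert, if_neg hv]
  have h3 := m1_deg R (S := insert f S) (v := v) (by
    intro e he hve
    rcases Finset.mem_insert.1 he with rfl | he
    · exact absurd hve hv
    · exact hS e he) (by rw [h2]; exact h)
  have h4 : del {v} (insert f S) = insert f (del {v} S) := by
    ext e
    rw [mem_del, Finset.mem_insert, Finset.mem_insert, mem_del]
    constructor
    · rintro ⟨h1 | h1, h2⟩
      · exact Or.inl h1
      · exact Or.inr ⟨h1, h2⟩
    · rintro (h1 | ⟨h1, h2⟩)
      · subst h1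
        refine ⟨Or.inl rfl, fun x hx hxv => ?_⟩
        rw [Finset.mem_singleton] at hxv
        exact hv (hxv ▸ hx)
      · exact ⟨Or.inr h1, h2⟩
  rw [h2, h4] at h3
  omega

/-- No pair at an isolated vertex is in the closure (`1 ≤ d`). -/
theorem Rig.not_Cl_isolated {d t : ℕ} (R : Rig d t) (hd : 1 ≤ d) {S : Finset (Sym2 ℕ)} {v u : ℕ}
    (hv : ∀ e ∈ S, v ∉ e) (hvu : v ≠ u) : ¬ R.Cl S s(v, u) := by
  intro hcl
  rw [R.Cl_def] at hcl
  have h1 := R.zero_ext S v {u} hv (by simpa using hvu) (by simpa using hd)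
  have h2 : S ∪ star v {u} = insert s(v, u) S := by
    ext e
    simp [star, or_comm]
  rw [h2, Finset.card_singleton] at h1
  omega

/-- An isolated vertex is not in `Y` (cliques there have at least two elements). -/
theorem Rig.not_mem_Y_isolated {d t : ℕ} (R : Rig d t) (hd : 1 ≤ d) {S : Finset (Sym2 ℕ)} {v n : ℕ}
    {δ : ℝ} (hδ : 2 ≤ δ * n) (hv : ∀ e ∈ S, v ∉ e) : v ∉ R.Y δ n S := by
  intro hY
  obtain ⟨_, C, _, hvC, hC, hcard⟩ := R.mem_Y.1 hY
  have h2 : (2 : ℝ) ≤ C.card := le_trans hδ hcard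
  have h3 : 1 < C.card := by
    have : (2 : ℕ) ≤ C.card := by exact_mod_cast h2
    omega
  obtain ⟨u, hu, huv⟩ := Finset.exists_mem_ne h3 v
  exact R.not_Cl_isolated hd hv (Ne.symm huv) (hC v hvC u hu (Ne.symm huv))

end Pool.Agent.Helper55.ML
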