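import Pool.Agent.Helper55.ML.G0
import Pool.Agent.Helper55.ML.M15
import Pool.Agent.Helper55.ML.M1

set_option autoImplicit false
open Finset Filter Topology

namespace Pool.Agent.Helper55.ML

/-- A deleted vertex is isolated. -/
private theorem g2_isolated {Q : Finset ℕ} {G : Finset (Sym2 ℕ)} {v : ℕ} (hv : v ∈ Q) :
    ∀ e ∈ del Q G, v ∉ e := by
  intro e he hve
  exact (mem_del.1 he).2 v hve hv

/-- G2 (hint): consequences of `Gd` for large `n`: for `|Q| ≤ (log n)^4` the set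
`Y(del Q G)` is a clique with at least `(x-η) n` elements, disjoint from `Q`, and so is
`Y ∪ Pt k`; `Y_clique`, `not_mem_Y_isolated`. -/
theorem Rig.Gd_Y {d t : ℕ} (R : Rig d t) (hd : 1 ≤ d) {x η ε : ℝ} {k : ℕ} (hk : 1 ≤ k)
    (hη : 0 < η) (hε : 0 < ε)
    (hx : 4 * (η + ε) ≤ x) : ∃ n0 : ℕ, ∀ n : ℕ, n0 ≤ n → ∀ G : Finset (Sym2 ℕ), G ⊆ En n →
      R.Gd x η ε k n G → ∀ Q : Finset ℕ, Q ⊆ range n → Q.card ≤ (Nat.log 2 n) ^ 4 →
        R.Clq (del Q G) (R.Y (x - η) n (del Q G)) ∧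
        (x - η) * n ≤ ((R.Y (x - η) n (del Q G)).card : ℝ) ∧
        (R.Y (x - η) n (del Q G)).Nonempty ∧
        R.Y (x - η) n (del Q G) ∪ Pt d n k (del Q G) ⊆ range n \ Q ∧
        ((R.Y (x - η) n (del Q G) ∪ Pt d n k (del Q G)).card : ℝ) ≤ (x + ε) * n ∧
        d + 2 ≤ (R.Y (x - η) n (del Q G)).card ∧
        d + 2 ≤ (R.Y (x - η) n (del Q G) ∩ core d n (del Q G)).card := by
  obtain ⟨N1, hN1⟩ := exists_nat_ge ((d : ℝ) / (2 * η + 3 * ε))
  obtain ⟨N2, hN2⟩ := exists_nat_ge ((2 : ℝ) / (3 * η + 4 * ε))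
  refine ⟨max N1 N2, fun n hn G hG hGd Q hQ hQc => ?_⟩
  have hn1 : (N1 : ℝ) ≤ n := by exact_mod_cast le_trans (le_max_left _ _) hn
  have hn2 : (N2 : ℝ) ≤ n := by exact_mod_cast le_trans (le_max_right _ _) hn
  have h1 : (d : ℝ) ≤ (2 * η + 3 * ε) * n := by
    have := le_trans hN1 hn1
    rw [div_le_iff₀ (by positivity)] at this
    linarith
  have h2 : (2 : ℝ) ≤ (3 * η + 4 * ε) * n := by
    have := le_trans hN2 hn2
    rw [div_le_iff₀ (by positivity)] at this
    linarith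
  have hn0 : (0 : ℝ) ≤ n := Nat.cast_nonneg n
  have h3 : (3 * η + 4 * ε) * n ≤ (x - η) * n := mul_le_mul_of_nonneg_right (by linarith) hn0
  have h4 : (2 * η + 3 * ε) * n ≤ (x - 2 * η - ε) * n :=
    mul_le_mul_of_nonneg_right (by linarith) hn0
  obtain ⟨hcl, hcard, hQ'⟩ := hGd
  obtain ⟨C, hCn, hCne, hC, hCc, hCd⟩ := hQ' Q hQ hQc
  have hdel : del Q G ⊆ G := by
    unfold del
    exact Finset.filter_subset _ _
  have hCY : C ⊆ R.Y (x - η) n (del Q G) := R.subset_Y hCn hC hCc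
  have hY1 : ((R.Y (x - η) n G).card : ℝ) ≤ (x + ε) * n := by
    refine le_trans ?_ hcard
    exact_mod_cast Finset.card_le_card Finset.subset_union_left
  have hcore : d + 2 ≤ (R.Y (x - η) n (del Q G) ∩ core d n (del Q G)).card :=
    le_trans hCd (Finset.card_le_card (Finset.inter_subset_inter_right hCY))
  have hYc : (x - η) * n ≤ ((R.Y (x - η) n (del Q G)).card : ℝ) := by
    refine le_trans hCc ?_
    exact_mod_cast Finset.card_le_card hCY
  refine ⟨R.Y_clique hdel (by linarith), hYc, hCne.mono hCY, ?_, ?_,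
    le_trans hcore (Finset.card_le_card Finset.inter_subset_left), hcore⟩
  · intro v hv
    rw [Finset.mem_sdiff]
    rcases Finset.mem_union.1 hv with hv | hv
    · refine ⟨R.Y_subset hv, fun hvQ => ?_⟩
      exact R.not_mem_Y_isolated hd (by linarith) (g2_isolated hvQ) hv
    · refine ⟨Pt_subset d n k _ hv, fun hvQ => ?_⟩
      obtain ⟨k', rfl⟩ : ∃ k', k = k' + 1 := ⟨k - 1, by omega⟩
      have h5 := (mem_Pt_succ.1 hv).2
      have h6 : nb n (del Q G) v = ∅ := by
        rw [Finset.eq_empty_iff_forall_notMem]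
        intro u hu
        rw [mem_nb] at hu
        exact g2_isolated hvQ _ hu.2 (by simp)
      rw [h6, Finset.empty_inter, Finset.card_empty] at h5
      omega
  · refine le_trans ?_ hcard
    exact_mod_cast Finset.card_le_card
      (Finset.union_subset_union (R.Y_mono hdel) (Pt_mono k hdel))

end Pool.Agent.Helper55.ML
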