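import Pool.Agent.Helper55.ML.Basic

set_option autoImplicit false
open Finset Filter Topology

namespace Pool.Agent.Helper55.ML

/-- H1: connectivity toolbox (cut form). -/
theorem Conn.singleton (G : Finset (Sym2 ℕ)) (v : ℕ) : Conn G {v} := by
  refine ⟨Finset.singleton_nonempty v, fun A hA hne hA' => ?_⟩
  exfalso
  rcases Finset.subset_singleton_iff.1 hA with h | h
  · exact hne.ne_empty h
  · exact hA' h

theorem Conn.union {G : Finset (Sym2 ℕ)} {A B : Finset ℕ} (hA : Conn G A) (hB : Conn G B)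
    (h : (A ∩ B).Nonempty ∨ ∃ a ∈ A, ∃ b ∈ B, s(a, b) ∈ G) : Conn G (A ∪ B) := by
  refine ⟨hA.1.mono Finset.subset_union_left, fun S hS hne hS' => ?_⟩
  by_cases h1 : (S ∩ A).Nonempty ∧ S ∩ A ≠ A
  · obtain ⟨a, ha, b, hb, hab⟩ := hA.2 (S ∩ A) Finset.inter_subset_right h1.1 h1.2
    rw [Finset.mem_inter] at ha
    rw [Finset.mem_sdiff, Finset.mem_inter] at hb
    exact ⟨a, ha.1, b, Finset.mem_sdiff.2 ⟨Finset.mem_union_left _ hb.1,
      fun hbS => hb.2 ⟨hbS, hb.1⟩⟩, hab⟩
  by_cases h2 : (S ∩ B).Nonempty ∧ S ∩ B ≠ B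
  · obtain ⟨a, ha, b, hb, hab⟩ := hB.2 (S ∩ B) Finset.inter_subset_right h2.1 h2.2
    rw [Finset.mem_inter] at ha
    rw [Finset.mem_sdiff, Finset.mem_inter] at hb
    exact ⟨a, ha.1, b, Finset.mem_sdiff.2 ⟨Finset.mem_union_right _ hb.1,
      fun hbS => hb.2 ⟨hbS, hb.1⟩⟩, hab⟩
  have h1' : S ∩ A = ∅ ∨ A ⊆ S := by
    rcases Finset.eq_empty_or_nonempty (S ∩ A) with h3 | h3
    · exact Or.inl h3
    · right
      by_contra h4
      exact h1 ⟨h3, fun h5 => h4 (h5 ▸ Finset.inter_subset_left)⟩
  have h2' : S ∩ B = ∅ ∨ B ⊆ S := by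
    rcases Finset.eq_empty_or_nonempty (S ∩ B) with h3 | h3
    · exact Or.inl h3
    · right
      by_contra h4
      exact h2 ⟨h3, fun h5 => h4 (h5 ▸ Finset.inter_subset_left)⟩
  rcases h1' with h3 | h3
  · rcases h2' with h4 | h4
    · exfalso
      obtain ⟨x, hx⟩ := hne
      rcases Finset.mem_union.1 (hS hx) with hxA | hxB
      · exact Finset.notMem_empty x (h3 ▸ Finset.mem_inter.2 ⟨hx, hxA⟩)
      · exact Finset.notMem_empty x (h4 ▸ Finset.mem_inter.2 ⟨hx, hxB⟩)
    · rcases h with ⟨x, hx⟩ | ⟨a, ha, b, hb, hab⟩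
      · exfalso
        rw [Finset.mem_inter] at hx
        exact Finset.notMem_empty x (h3 ▸ Finset.mem_inter.2 ⟨h4 hx.2, hx.1⟩)
      · refine ⟨b, h4 hb, a, Finset.mem_sdiff.2 ⟨Finset.mem_union_left _ ha, fun haS => ?_⟩, ?_⟩
        · exact Finset.notMem_empty a (h3 ▸ Finset.mem_inter.2 ⟨haS, ha⟩)
        · rwa [Sym2.eq_swap]
  · rcases h2' with h4 | h4
    · rcases h with ⟨x, hx⟩ | ⟨a, ha, b, hb, hab⟩
      · exfalso
        rw [Finset.mem_inter] at hx
        exact Finset.notMem_empty x (h4 ▸ Finset.mem_inter.2 ⟨h3 hx.1, hx.2⟩)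
      · refine ⟨a, h3 ha, b, Finset.mem_sdiff.2 ⟨Finset.mem_union_right _ hb, fun hbS => ?_⟩, hab⟩
        exact Finset.notMem_empty b (h4 ▸ Finset.mem_inter.2 ⟨hbS, hb⟩)
    · exact absurd (Finset.Subset.antisymm hS (Finset.union_subset h3 h4)) hS'

/-- A connected set with at least two elements has an edge at every vertex. -/
theorem Conn.exists_adj {G : Finset (Sym2 ℕ)} {W : Finset ℕ} (hW : Conn G W) {v : ℕ} (hv : v ∈ W)
    (h2 : 2 ≤ W.card) : ∃ u ∈ W, u ≠ v ∧ s(v, u) ∈ G := by
  have hne : ({v} : Finset ℕ) ≠ W := by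
    intro h
    rw [← h, Finset.card_singleton] at h2
    omega
  obtain ⟨a, ha, b, hb, hab⟩ := hW.2 {v} (Finset.singleton_subset_iff.2 hv)
    (Finset.singleton_nonempty v) hne
  rw [Finset.mem_singleton] at ha
  rw [Finset.mem_sdiff, Finset.mem_singleton] at hb
  subst ha
  exact ⟨b, hb.1, hb.2, hab⟩

/-- adding one adjacent vertex -/
private theorem h1_insert {G : Finset (Sym2 ℕ)} {A : Finset ℕ} (hA : Conn G A) {a b : ℕ}
    (ha : a ∈ A) (hab : s(a, b) ∈ G) : Conn G (insert b A) := by
  have h := hA.union (Conn.singleton G b) (Or.inr ⟨a, ha, b, Finset.mem_singleton_self b, hab⟩)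
  rwa [Finset.union_comm, ← Finset.insert_eq] at h

/-- Connected subsets of every size through a given vertex. -/
theorem Conn.exists_subset {G : Finset (Sym2 ℕ)} {W : Finset ℕ} (hW : Conn G W) {v : ℕ}
    (hv : v ∈ W) {k : ℕ} (h1 : 1 ≤ k) (h2 : k ≤ W.card) :
    ∃ W' ⊆ W, v ∈ W' ∧ Conn G W' ∧ W'.card = k := by
  induction k, h1 using Nat.le_induction with
  | base =>
    exact ⟨{v}, Finset.singleton_subset_iff.2 hv, Finset.mem_singleton_self v,
      Conn.singleton G v, Finset.card_singleton v⟩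
  | succ k hk ih =>
    obtain ⟨W', h3, h4, h5, h6⟩ := ih (by omega)
    have hne : W' ≠ W := fun h => by rw [h] at h6; omega
    obtain ⟨a, ha, b, hb, hab⟩ := hW.2 W' h3 h5.1 hne
    rw [Finset.mem_sdiff] at hb
    refine ⟨insert b W', Finset.insert_subset hb.1 h3, Finset.mem_insert_of_mem h4,
      h1_insert h5 ha hab, ?_⟩
    rw [Finset.card_insert_of_notMem hb.2, h6]

/-- Components: a maximal connected subset of `S` through `v` has no edges to the rest of `S`. -/
theorem exists_component {G : Finset (Sym2 ℕ)} {S : Finset ℕ} {v : ℕ} (hv : v ∈ S) :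
    ∃ K ⊆ S, v ∈ K ∧ Conn G K ∧ ∀ a ∈ K, ∀ b ∈ S \ K, s(a, b) ∉ G := by
  classical
  obtain ⟨K, hK, hmax⟩ := Finset.exists_max_image
    (S.powerset.filter (fun K => v ∈ K ∧ Conn G K)) Finset.card
    ⟨{v}, Finset.mem_filter.2 ⟨Finset.mem_powerset.2 (Finset.singleton_subset_iff.2 hv),
      Finset.mem_singleton_self v, Conn.singleton G v⟩⟩
  obtain ⟨h1, h2, h3⟩ := Finset.mem_filter.1 hK
  rw [Finset.mem_powerset] at h1
  refine ⟨K, h1, h2, h3, fun a ha b hb hab => ?_⟩
  rw [Finset.mem_sdiff] at hb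
  have h4 := hmax (insert b K) (Finset.mem_filter.2 ⟨Finset.mem_powerset.2
    (Finset.insert_subset hb.1 h1), Finset.mem_insert_of_mem h2, h1_insert h3 ha hab⟩)
  rw [Finset.card_insert_of_notMem hb.2] at h4
  omega

private theorem h1_exc_mono {G : Finset (Sym2 ℕ)} {W : Finset ℕ} (hW : Conn G W) (k : ℕ) :
    ∀ T : Finset ℕ, (W \ T).card = k → T ⊆ W → T.Nonempty → exc G T ≤ exc G W := by
  induction k with
  | zero =>
    intro T h hT _
    have h1 : W ⊆ T := by
      rw [Finset.card_eq_zero, Finset.sdiff_eq_empty_iff_subset] at h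
      exact h
    rw [Finset.Subset.antisymm hT h1]
  | succ k ih =>
    intro T h hT hne
    have hTW : T ≠ W := by
      intro h1
      rw [h1, Finset.sdiff_self, Finset.card_empty] at h
      omega
    obtain ⟨a, ha, b, hb, hab⟩ := hW.2 T hT hne hTW
    rw [Finset.mem_sdiff] at hb
    have h2 : (W \ insert b T).card = k := by
      have h3 : W \ insert b T = (W \ T).erase b := by
        ext x
        simp only [Finset.mem_sdiff, Finset.mem_insert, Finset.mem_erase]
        tauto
      rw [h3, Finset.card_erase_of_mem (Finset.mem_sdiff.2 hb), h]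
      rfl
    have h4 := ih (insert b T) h2 (Finset.insert_subset hb.1 hT) (Finset.insert_nonempty b T)
    have h5 : (ins T G).card + 1 ≤ (ins (insert b T) G).card := by
      have h6 : s(a, b) ∉ ins T G := by
        intro h7
        rw [mem_ins] at h7
        exact hb.2 (h7.2 b (Sym2.mem_mk_right a b))
      rw [← Finset.card_insert_of_notMem h6]
      refine Finset.card_le_card (Finset.insert_subset ?_ ?_)
      · rw [mem_ins]
        refine ⟨hab, fun x hx => ?_⟩
        rcases Sym2.mem_iff.1 hx with h8 | h8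
        · exact Finset.mem_insert_of_mem (h8 ▸ ha)
        · exact h8 ▸ Finset.mem_insert_self b T
      · exact ins_mono_left (Finset.subset_insert b T) G
    refine le_trans ?_ h4
    unfold exc
    rw [Finset.card_insert_of_notMem hb.2]
    push_cast
    omega

/-- `G ⊆ En n`: the excess of a connected set is at least `-1`. -/
theorem Conn.exc_ge {G : Finset (Sym2 ℕ)} (hG : ∀ e ∈ G, ¬ e.IsDiag) {W : Finset ℕ}
    (hW : Conn G W) : -1 ≤ exc G W := by
  obtain ⟨v, hv⟩ := hW.1
  have h := h1_exc_mono hW _ {v} rfl (Finset.singleton_subset_iff.2 hv)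
    (Finset.singleton_nonempty v)
  refine le_trans ?_ h
  unfold exc
  rw [Finset.card_singleton]
  omega

/-- (hint) `ins A G ∪ ins B G ⊆ ins (A ∪ B) G`, `ins A G ∩ ins B G = ins (A ∩ B) G`. -/
theorem exc_submod (G : Finset (Sym2 ℕ)) (A B : Finset ℕ) :
    exc G A + exc G B ≤ exc G (A ∪ B) + exc G (A ∩ B) := by
  have h1 : ins A G ∪ ins B G ⊆ ins (A ∪ B) G :=
    Finset.union_subset (ins_mono_left Finset.subset_union_left G)
      (ins_mono_left Finset.subset_union_right G)
  have h2 : ins A G ∩ ins B G = ins (A ∩ B) G := by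
    ext e
    rw [Finset.mem_inter, mem_ins, mem_ins, mem_ins]
    constructor
    · rintro ⟨⟨h3, h4⟩, -, h5⟩
      exact ⟨h3, fun x hx => Finset.mem_inter.2 ⟨h4 x hx, h5 x hx⟩⟩
    · rintro ⟨h3, h4⟩
      exact ⟨⟨h3, fun x hx => (Finset.mem_inter.1 (h4 x hx)).1⟩,
        h3, fun x hx => (Finset.mem_inter.1 (h4 x hx)).2⟩
  have h3 := Finset.card_union_add_card_inter (ins A G) (ins B G)
  have h4 := Finset.card_union_add_card_inter A B
  have h5 := Finset.card_le_card h1
  rw [h2] at h3
  unfold exc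
  omega

/-- (hint) add the vertices of `W \ T` one by one, each adjacent to the current set. -/
theorem Conn.exc_mono {G : Finset (Sym2 ℕ)} (hG : ∀ e ∈ G, ¬ e.IsDiag) {W T : Finset ℕ}
    (hW : Conn G W) (hT : T ⊆ W) (hne : T.Nonempty) : exc G T ≤ exc G W :=
  h1_exc_mono hW _ T rfl hT hne

private theorem h1_star_card (v : ℕ) (N : Finset ℕ) : (star v N).card = N.card := by
  unfold star
  refine Finset.card_image_of_injective _ fun a b h => ?_
  exact Sym2.congr_right.1 h

private theorem h1_not_mem_nb {n : ℕ} {G : Finset (Sym2 ℕ)} (hG : G ⊆ En n) (v : ℕ) :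
    v ∉ nb n G v := by
  intro h
  rw [mem_nb] at h
  have := (mk_mem_En.1 (hG h.2)).2.2
  exact this rfl

/-- Adding a vertex. -/
theorem exc_insert {n : ℕ} {G : Finset (Sym2 ℕ)} (hG : G ⊆ En n) {W : Finset ℕ} {v : ℕ} (hv : v ∉ W)
    (hW : W ⊆ range n) :
    exc G (insert v W) = exc G W + (nb n G v ∩ W).card - 1 := by
  have h1 : ins (insert v W) G = ins W G ∪ star v (nb n G v ∩ W) := by
    ext e
    rw [Finset.mem_union, mem_ins, mem_ins, mem_star]
    constructor
    · rintro ⟨h2, h3⟩
      induction e using Sym2.ind with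
      | _ a b =>
        have h4 := mk_mem_En.1 (hG h2)
        have ha := h3 a (Sym2.mem_mk_left a b)
        have hb := h3 b (Sym2.mem_mk_right a b)
        rw [Finset.mem_insert] at ha hb
        rcases ha with ha | ha
        · subst ha
          rcases hb with hb | hb
          · exact absurd hb.symm h4.2.2
          · right
            exact ⟨b, Finset.mem_inter.2 ⟨mem_nb.2 ⟨h4.2.1, h2⟩, hb⟩, rfl⟩
        · rcases hb with hb | hb
          · subst hb
            right
            refine ⟨a, Finset.mem_inter.2 ⟨mem_nb.2 ⟨h4.1, ?_⟩, ha⟩, Sym2.eq_swap⟩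
            rwa [Sym2.eq_swap]
          · left
            refine ⟨h2, fun x hx => ?_⟩
            rcases Sym2.mem_iff.1 hx with h5 | h5
            · exact h5 ▸ ha
            · exact h5 ▸ hb
    · rintro (⟨h2, h3⟩ | ⟨u, hu, rfl⟩)
      · exact ⟨h2, fun x hx => Finset.mem_insert_of_mem (h3 x hx)⟩
      · rw [Finset.mem_inter, mem_nb] at hu
        refine ⟨hu.1.2, fun x hx => ?_⟩
        rcases Sym2.mem_iff.1 hx with h5 | h5
        · exact h5 ▸ Finset.mem_insert_self v W
        · exact Finset.mem_insert_of_mem (h5 ▸ hu.2)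
  have h2 : Disjoint (ins W G) (star v (nb n G v ∩ W)) := by
    rw [Finset.disjoint_left]
    intro e h3 h4
    rw [mem_star] at h4
    obtain ⟨u, -, rfl⟩ := h4
    rw [mem_ins] at h3
    exact hv (h3.2 v (Sym2.mem_mk_left v u))
  unfold exc
  rw [h1, Finset.card_union_of_disjoint h2, h1_star_card, Finset.card_insert_of_notMem hv]
  push_cast
  ring

/-- Degree sum. -/
theorem sum_deg {n : ℕ} {G : Finset (Sym2 ℕ)} (hG : G ⊆ En n) {W : Finset ℕ} (hW : W ⊆ range n) :
    (∑ u ∈ W, ((nb n G u ∩ W).card : ℤ)) = 2 * (exc G W + W.card) := by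
  induction W using Finset.induction_on with
  | empty =>
    have h1 : ins ∅ G = ∅ := by
      rw [Finset.eq_empty_iff_forall_notMem]
      intro e he
      rw [mem_ins] at he
      induction e using Sym2.ind with
      | _ a b => exact Finset.notMem_empty a (he.2 a (Sym2.mem_mk_left a b))
    unfold exc
    rw [h1]
    simp
  | insert v W hv ih =>
    have hvn : v ∈ range n := hW (Finset.mem_insert_self v W)
    have hWn : W ⊆ range n := (Finset.subset_insert v W).trans hW
    have h1 : nb n G v ∩ insert v W = nb n G v ∩ W := by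
      ext x
      rw [Finset.mem_inter, Finset.mem_inter, Finset.mem_insert]
      constructor
      · rintro ⟨h2, h3 | h3⟩
        · exact absurd (h3 ▸ h2) (h1_not_mem_nb hG v)
        · exact ⟨h2, h3⟩
      · rintro ⟨h2, h3⟩
        exact ⟨h2, Or.inr h3⟩
    have h2 : ∀ u ∈ W, ((nb n G u ∩ insert v W).card : ℤ) =
        ((nb n G u ∩ W).card : ℤ) + if u ∈ nb n G v then 1 else 0 := by
      intro u hu
      by_cases h3 : u ∈ nb n G v
      · have h4 : v ∈ nb n G u := by
          rw [mem_nb] at h3 ⊢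
          refine ⟨Finset.mem_range.1 hvn, ?_⟩
          rw [Sym2.eq_swap]
          exact h3.2
        rw [Finset.inter_insert_of_mem h4, Finset.card_insert_of_notMem
          (fun h => hv (Finset.mem_inter.1 h).2), if_pos h3]
        push_cast
        ring
      · have h4 : v ∉ nb n G u := by
          intro h5
          apply h3
          rw [mem_nb] at h5 ⊢
          refine ⟨Finset.mem_range.1 (hWn hu), ?_⟩
          rw [Sym2.eq_swap]
          exact h5.2
        rw [Finset.inter_insert_of_notMem h4, if_neg h3, add_zero]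
    have h3 : (∑ u ∈ W, if u ∈ nb n G v then (1 : ℤ) else 0) = ((nb n G v ∩ W).card : ℤ) := by
      rw [Finset.sum_ite, Finset.sum_const_zero, add_zero, Finset.sum_const, nsmul_eq_mul, mul_one,
        Finset.filter_mem_eq_inter, Finset.inter_comm]
    rw [Finset.sum_insert hv, h1, Finset.sum_congr rfl h2, Finset.sum_add_distrib, ih hWn, h3,
      exc_insert hG hv hWn, Finset.card_insert_of_notMem hv]
    push_cast
    ring

/-- 2-core: a nonempty set of nonnegative excess contains a nonempty set with internal degrees at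
least two. -/
theorem exists_two_core {n : ℕ} {G : Finset (Sym2 ℕ)} (hG : G ⊆ En n) {W : Finset ℕ}
    (hW : W ⊆ range n) (hne : W.Nonempty) (h : 0 ≤ exc G W) :
    ∃ S ⊆ W, S.Nonempty ∧ ∀ u ∈ S, 2 ≤ (nb n G u ∩ S).card := by
  induction W using Finset.strongInduction with
  | H W ih =>
    by_cases hall : ∀ u ∈ W, 2 ≤ (nb n G u ∩ W).card
    · exact ⟨W, subset_rfl, hne, hall⟩
    · push Not at hall
      obtain ⟨u, hu, hdeg⟩ := hall
      have hu' : u ∉ W.erase u := Finset.notMem_erase u W
      have hW' : W.erase u ⊆ range n := (Finset.erase_subset u W).trans hW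
      have h1 := exc_insert hG hu' hW'
      rw [Finset.insert_erase hu] at h1
      have h2 : nb n G u ∩ W.erase u = nb n G u ∩ W := by
        ext x
        rw [Finset.mem_inter, Finset.mem_inter, Finset.mem_erase]
        constructor
        · rintro ⟨h3, -, h4⟩
          exact ⟨h3, h4⟩
        · rintro ⟨h3, h4⟩
          exact ⟨h3, fun h5 => h1_not_mem_nb hG u (h5 ▸ h3), h4⟩
      rw [h2] at h1
      have h3 : 0 ≤ exc G (W.erase u) := by omega
      have hne' : (W.erase u).Nonempty := by
        rw [Finset.nonempty_iff_ne_empty]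
        intro h4
        have h5 : nb n G u ∩ W = ∅ := by
          rw [← h2, h4, Finset.inter_empty]
        have h6 : ins ∅ G = ∅ := by
          rw [Finset.eq_empty_iff_forall_notMem]
          intro e he
          rw [mem_ins] at he
          induction e using Sym2.ind with
          | _ a b => exact Finset.notMem_empty a (he.2 a (Sym2.mem_mk_left a b))
        have h7 : exc G (∅ : Finset ℕ) = 0 := by
          unfold exc
          rw [h6]
          simp
        rw [h4, h5, h7, Finset.card_empty] at h1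
        rw [h1] at h
        norm_num at h
      obtain ⟨S, hS, hS2, hS3⟩ := ih (W.erase u) (Finset.erase_ssubset hu) hW' hne' h3
      exact ⟨S, hS.trans (Finset.erase_subset u W), hS2, hS3⟩

end Pool.Agent.Helper55.ML
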