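import Pool.Agent.Helper55.ML.H1

set_option autoImplicit false
open Finset Filter Topology

namespace Pool.Agent.Helper55.ML

/-- H2 (hint): a minimal (by cardinality) nonempty subset with all internal degrees at least two is
the vertex set of an induced cycle: connected, all internal degrees exactly 2. (If a vertex `u` of
the minimal set `S` has three neighbours in `S`: walk without backtracking inside `S` until a vertex
repeats: this gives a cycle whose vertex set must be all of `S`; the third edge at `u` is a chord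
and gives a shorter cycle.) -/
theorem exists_induced_cycle {n : ℕ} {G : Finset (Sym2 ℕ)} (hG : G ⊆ En n) {S : Finset ℕ}
    (hS : S ⊆ range n) (hne : S.Nonempty) (h : ∀ u ∈ S, 2 ≤ (nb n G u ∩ S).card) :
    ∃ T ⊆ S, Conn G T ∧ ∀ u ∈ T, (nb n G u ∩ T).card = 2 := by
  classical
  obtain ⟨T, hT, hmin⟩ := Finset.exists_min_image
    (S.powerset.filter (fun T => T.Nonempty ∧ ∀ u ∈ T, 2 ≤ (nb n G u ∩ T).card)) Finset.card
    ⟨S, Finset.mem_filter.2 ⟨Finset.mem_powerset_self S, hne, h⟩⟩
  rw [Finset.mem_filter, Finset.mem_powerset] at hT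
  obtain ⟨hTS, hTne, hTd⟩ := hT
  -- minimality
  have hmin' : ∀ A : Finset ℕ, A ⊆ T → A ≠ T → A.Nonempty →
      ∃ u ∈ A, (nb n G u ∩ A).card < 2 := by
    intro A hA hAT hAne
    by_contra hcon
    push Not at hcon
    have h1 := hmin A (Finset.mem_filter.2
      ⟨Finset.mem_powerset.2 (hA.trans hTS), hAne, hcon⟩)
    exact hAT (Finset.eq_of_subset_of_card_le hA h1)
  have hTn : T ⊆ range n := hTS.trans hS
  refine ⟨T, hTS, ⟨hTne, ?_⟩, ?_⟩
  · intro A hA hAne hAT
    by_contra hcon
    push Not at hcon
    obtain ⟨u, hu, hlt⟩ := hmin' A hA hAT hAne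
    have h1 : nb n G u ∩ T ⊆ nb n G u ∩ A := by
      intro w hw
      rw [Finset.mem_inter] at hw ⊢
      refine ⟨hw.1, ?_⟩
      by_contra hwA
      exact hcon u hu w (Finset.mem_sdiff.2 ⟨hw.2, hwA⟩) (mem_nb.1 hw.1).2
    have h2 := Finset.card_le_card h1
    have h3 := hTd u (hA hu)
    omega
  · have hself : ∀ v, v ∉ nb n G v := by
      intro v hv
      have h1 := hG (mem_nb.1 hv).2
      exact (mk_mem_En.1 h1).2.2 rfl
    have herase : ∀ v, (nb n G v ∩ T.erase v) = nb n G v ∩ T := by
      intro v
      ext w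
      rw [Finset.mem_inter, Finset.mem_inter, Finset.mem_erase]
      constructor
      · rintro ⟨h1, h2⟩
        exact ⟨h1, h2.2⟩
      · rintro ⟨h1, h2⟩
        exact ⟨h1, fun h3 => hself v (h3 ▸ h1), h2⟩
    have hene : ∀ v ∈ T, (T.erase v).Nonempty := by
      intro v hv
      have h1 : 0 < (nb n G v ∩ T.erase v).card := by
        rw [herase v]
        have := hTd v hv
        omega
      obtain ⟨w, hw⟩ := Finset.card_pos.1 h1
      exact ⟨w, (Finset.mem_inter.1 hw).2⟩
    have hesub : ∀ v ∈ T, T.erase v ≠ T := by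
      intro v hv h1
      have h2 : v ∈ T.erase v := h1.symm ▸ hv
      exact Finset.notMem_erase v T h2
    by_contra hcon
    push Not at hcon
    obtain ⟨u, hu, hu2⟩ := hcon
    have hu3 : 3 ≤ (nb n G u ∩ T).card := by
      have := hTd u hu
      omega
    by_cases hall : ∀ v ∈ T, 3 ≤ (nb n G v ∩ T).card
    · obtain ⟨w, hw, hlt⟩ := hmin' (T.erase u) (Finset.erase_subset u T) (hesub u hu) (hene u hu)
      have h1 := hall w (Finset.mem_of_mem_erase hw)
      have h2 : (nb n G w ∩ T).erase u ⊆ nb n G w ∩ T.erase u := by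
        intro x hx
        rw [Finset.mem_erase, Finset.mem_inter] at hx
        rw [Finset.mem_inter, Finset.mem_erase]
        exact ⟨hx.2.1, hx.1, hx.2.2⟩
      have h3 := Finset.card_le_card h2
      have h4 := Finset.pred_card_le_card_erase (s := nb n G w ∩ T) (a := u)
      omega
    · push Not at hall
      obtain ⟨v, hv, hv3⟩ := hall
      have hv2 : (nb n G v ∩ T).card = 2 := by
        have := hTd v hv
        omega
      -- excess of `T` is at least one
      have hsum := sum_deg hG hTn
      have hlt : ∑ x ∈ T, (2 : ℤ) < ∑ x ∈ T, ((nb n G x ∩ T).card : ℤ) := by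
        refine Finset.sum_lt_sum (fun x hx => ?_) ⟨u, hu, ?_⟩
        · exact_mod_cast hTd x hx
        · have : (2 : ℤ) < 3 := by norm_num
          refine this.trans_le ?_
          exact_mod_cast hu3
      rw [hsum, Finset.sum_const, nsmul_eq_mul] at hlt
      have hexc : 1 ≤ exc G T := by linarith
      have hins := exc_insert hG (W := T.erase v) (v := v) (Finset.notMem_erase v T)
        ((Finset.erase_subset v T).trans hTn)
      rw [Finset.insert_erase hv, herase v, hv2] at hins
      have hexc' : 0 ≤ exc G (T.erase v) := by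
        push_cast at hins
        linarith
      obtain ⟨S', hS', hne', hdeg'⟩ := exists_two_core hG ((Finset.erase_subset v T).trans hTn)
        (hene v hv) hexc'
      have hS'T : S' ⊆ T := hS'.trans (Finset.erase_subset v T)
      have hS'ne : S' ≠ T := by
        intro h1
        exact Finset.notMem_erase v T (hS' (h1.symm ▸ hv))
      obtain ⟨w, hw, hlt'⟩ := hmin' S' hS'T hS'ne hne'
      have := hdeg' w hw
      omega

/-- A connected subset of a set with internal degrees at most 2: all but two of its vertices have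
internal degree 2. -/
theorem few_ends {n : ℕ} {G : Finset (Sym2 ℕ)} (hG : G ⊆ En n) {S W : Finset ℕ}
    (hS : S ⊆ range n) (hWS : W ⊆ S) (hW : Conn G W) (h : ∀ u ∈ S, (nb n G u ∩ S).card ≤ 2) :
    (W.filter (fun u => (nb n G u ∩ W).card ≤ 1)).card ≤ 2 := by
  have hWn : W ⊆ range n := hWS.trans hS
  have hdiag : ∀ e ∈ G, ¬ e.IsDiag := fun e he => (mem_En.1 (hG he)).2
  have hexc := hW.exc_ge hdiag
  have hsum := sum_deg hG hWn
  have hdeg : ∀ u ∈ W, (nb n G u ∩ W).card ≤ 2 := fun u hu =>
    (Finset.card_le_card (Finset.inter_subset_inter_left hWS)).trans (h u (hWS hu))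
  have hle : ∑ u ∈ W, ((nb n G u ∩ W).card : ℤ) ≤
      ∑ u ∈ W, ((2 : ℤ) - if (nb n G u ∩ W).card ≤ 1 then 1 else 0) := by
    refine Finset.sum_le_sum (fun u hu => ?_)
    have h1 := hdeg u hu
    split_ifs with h2
    · have : ((nb n G u ∩ W).card : ℤ) ≤ 1 := by exact_mod_cast h2
      linarith
    · have : ((nb n G u ∩ W).card : ℤ) ≤ 2 := by exact_mod_cast h1
      linarith
  rw [hsum, Finset.sum_sub_distrib, Finset.sum_const, nsmul_eq_mul, Finset.sum_boole] at hle
  have h3 : ((W.filter (fun u => (nb n G u ∩ W).card ≤ 1)).card : ℤ) ≤ 2 := by linarith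
  exact_mod_cast h3

end Pool.Agent.Helper55.ML
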