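import Pool.Agent.Helper55.ML.H1

set_option autoImplicit false
open Finset Filter Topology

namespace Pool.Agent.Helper55.ML

private theorem h3_aux {d n k : ℕ} {G : Finset (Sym2 ℕ)} (hG : G ⊆ En n) {W : Finset ℕ}
    (hno : ∀ S : Finset ℕ, S ⊆ range n \ W → S.Nonempty → S.card ≤ k + 1 → Conn G (W ∪ S) →
      exc G (W ∪ S) ≤ exc G W) (j : ℕ) :
    ∀ W' : Finset ℕ, W ⊆ W' → W' ⊆ range n → (W' \ W).card + j ≤ k → Conn G W' →
      exc G W' = exc G W → ∀ z ∈ core d n G, z ∉ W' → (∃ w ∈ W', s(w, z) ∈ G) →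
      z ∈ Pt d n j (del W' G) := by
  classical
  induction j with
  | zero =>
    intro W' _ _ _ _ _ z hz _ _
    exact core_subset d n G hz
  | succ j ih =>
    intro W' hWW' hW'n hcard hconn hexc z hz hzW' hadj
    have hzn : z ∈ range n := core_subset d n G hz
    obtain ⟨w, hwW', hwz⟩ := hadj
    have hconn2 : Conn G (insert z W') := by
      rw [Finset.insert_eq, Finset.union_comm]
      exact hconn.union (Conn.singleton G z) (Or.inr ⟨w, hwW', z, Finset.mem_singleton_self z, hwz⟩)
    have hWS : W ∪ (insert z W' \ W) = insert z W' :=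
      Finset.union_sdiff_of_subset (hWW'.trans (Finset.subset_insert z W'))
    have hzW : z ∉ W := fun h => hzW' (hWW' h)
    have hS1 : insert z W' \ W = insert z (W' \ W) := Finset.insert_sdiff_of_notMem W' hzW
    have hScard : (insert z W' \ W).card = (W' \ W).card + 1 := by
      rw [hS1, Finset.card_insert_of_notMem]
      intro h
      exact hzW' (Finset.mem_sdiff.1 h).1
    have hins : insert z W' ⊆ range n := by
      intro x hx
      rcases Finset.mem_insert.1 hx with rfl | hx
      · exact hzn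
      · exact hW'n hx
    have hle : exc G (insert z W') ≤ exc G W := by
      have := hno (insert z W' \ W) (Finset.sdiff_subset_sdiff hins subset_rfl)
        ⟨z, Finset.mem_sdiff.2 ⟨Finset.mem_insert_self z W', hzW⟩⟩ (by omega)
        (by rw [hWS]; exact hconn2)
      rwa [hWS] at this
    have hexc2 := exc_insert hG hzW' hW'n
    have hge : 1 ≤ (nb n G z ∩ W').card := by
      refine Finset.card_pos.2 ⟨w, Finset.mem_inter.2 ⟨mem_nb.2 ⟨?_, ?_⟩, hwW'⟩⟩
      · exact Finset.mem_range.1 (hW'n hwW')
      · rw [Sym2.eq_swap]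
        exact hwz
    have hone : (nb n G z ∩ W').card = 1 := by
      have h1 : ((nb n G z ∩ W').card : ℤ) ≤ 1 := by
        rw [hexc] at hexc2
        linarith
      have h2 : (nb n G z ∩ W').card ≤ 1 := by exact_mod_cast h1
      omega
    have hexc3 : exc G (insert z W') = exc G W := by
      rw [hexc2, hone, hexc]
      norm_num
    rw [mem_Pt_succ]
    refine ⟨Finset.mem_range.1 hzn, ?_⟩
    have hdel : del {z} (del W' G) = del (insert z W') G := by
      rw [del_del, ← Finset.insert_eq]
    rw [hdel]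
    have hsub : (nb n G z ∩ core d n G) \ (nb n G z ∩ W') ⊆
        nb n (del W' G) z ∩ Pt d n j (del (insert z W') G) := by
      intro y hy
      rw [Finset.mem_sdiff, Finset.mem_inter, Finset.mem_inter] at hy
      obtain ⟨⟨hy1, hy2⟩, hy3⟩ := hy
      have hyW' : y ∉ W' := fun h => hy3 ⟨hy1, h⟩
      obtain ⟨hyn, hyG⟩ := mem_nb.1 hy1
      have hyz : z ≠ y := (mk_mem_En.1 (hG hyG)).2.2
      rw [Finset.mem_inter, mem_nb, mem_del]
      refine ⟨⟨hyn, hyG, ?_⟩, ?_⟩
      · intro x hx
        rcases Sym2.mem_iff.1 hx with rfl | rfl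
        · exact hzW'
        · exact hyW'
      · refine ih (insert z W') (hWW'.trans (Finset.subset_insert z W')) hins (by omega) hconn2
          hexc3 y hy2 ?_ ⟨z, Finset.mem_insert_self z W', hyG⟩
        intro h
        rcases Finset.mem_insert.1 h with h | h
        · exact hyz h.symm
        · exact hyW' h
    have h1 := Finset.card_le_card hsub
    have h2 := Finset.le_card_sdiff (nb n G z ∩ W') (nb n G z ∩ core d n G)
    have h3 := core_deg hz
    omega

/-- H3 (ear lemma; hint). `W` connected without ears of size at most `k+1`: a core vertex `z ∉ W`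
adjacent to `W` is in `Pt k (del W G)`. Prove by induction on `j`: if `W ⊆ W'`, `|W' \ W| + j ≤ k`,
`Conn G W'`, `exc G W' = exc G W`, `z ∉ W'` a core vertex adjacent to `W'`, then
`z ∈ Pt j (del W' G)`: `z` has exactly one neighbour in `W'` (otherwise `(W' \ W) ∪ {z}` is an
ear), so at least `d` core neighbours `y` outside `W' ∪ {z}`; apply the induction hypothesis to
`W' ∪ {z}` and `y`; `del (W' ∪ {z}) G = del {z} (del W' G)`. -/
theorem mem_Pt_of_no_ear {d n k : ℕ} {G : Finset (Sym2 ℕ)} (hG : G ⊆ En n) {W : Finset ℕ}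
    (hWn : W ⊆ range n) (hW : Conn G W)
    (hno : ∀ S : Finset ℕ, S ⊆ range n \ W → S.Nonempty → S.card ≤ k + 1 → Conn G (W ∪ S) →
      exc G (W ∪ S) ≤ exc G W)
    {z : ℕ} (hz : z ∈ core d n G) (hzW : z ∉ W) (hadj : ∃ w ∈ W, s(w, z) ∈ G) :
    z ∈ Pt d n k (del W G) :=
  h3_aux hG hno k W subset_rfl hWn (by simp) hW rfl z hz hzW hadj

end Pool.Agent.Helper55.ML
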