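import Pool.Agent.Helper55.ML.H1

set_option autoImplicit false
open Finset Filter Topology

namespace Pool.Agent.Helper55.ML

/-- J0 (ear closure; hint). Take `W ⊇ W0` of maximal size among the connected sets with
`|W| ≤ L^4` and `|W| ≤ |W0| + (k+1) (exc W - exc W0)`. By `hdense` and `exc W0 ≥ -1` in fact
`|W| ≤ (4/3)(L^3 + k + 1)`, so adding an ear (at most `k+1` vertices, excess grows by at least one)
stays below `L^4`: contradiction to maximality. -/
theorem ear_closure {n k L : ℕ} {G : Finset (Sym2 ℕ)} (hG : G ⊆ En n) (hL : 4 * (k + 2) ≤ L)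
    (hdense : ∀ W : Finset ℕ, W ⊆ range n → Conn G W → W.card ≤ L ^ 4 → 1 ≤ exc G W →
      4 * ((k : ℤ) + 1) * exc G W < (W.card : ℤ))
    {W0 : Finset ℕ} (hW0 : W0 ⊆ range n) (hc : Conn G W0) (h0 : W0.card ≤ L ^ 3) :
    ∃ W : Finset ℕ, W0 ⊆ W ∧ W ⊆ range n ∧ Conn G W ∧ W.card ≤ L ^ 4 ∧
      (W.card : ℤ) ≤ W0.card + ((k : ℤ) + 1) * (exc G W - exc G W0) ∧
      ∀ S : Finset ℕ, S ⊆ range n \ W → S.Nonempty → S.card ≤ k + 1 → Conn G (W ∪ S) →
        exc G (W ∪ S) ≤ exc G W := by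
  classical
  have hdiag : ∀ e ∈ G, ¬ e.IsDiag := fun e he => (mem_En.1 (hG he)).2
  have hexc0 := hc.exc_ge hdiag
  have hL8 : 8 ≤ L := by omega
  have hL34 : 8 * L ^ 3 ≤ L ^ 4 := by
    rw [pow_succ L 3, mul_comm (L ^ 3) L]
    exact Nat.mul_le_mul_right _ hL8
  have hL13 : L ≤ L ^ 3 := by
    calc L = L ^ 1 := (pow_one L).symm
      _ ≤ L ^ 3 := Nat.pow_le_pow_right (by omega) (by omega)
  obtain ⟨W, hW, hmax⟩ := Finset.exists_max_image
    ((range n).powerset.filter (fun W => W0 ⊆ W ∧ Conn G W ∧ W.card ≤ L ^ 4 ∧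
      (W.card : ℤ) ≤ W0.card + ((k : ℤ) + 1) * (exc G W - exc G W0))) Finset.card
    ⟨W0, mem_filter.2 ⟨mem_powerset.2 hW0, subset_rfl, hc, by omega, by simp⟩⟩
  obtain ⟨h1, h2, h3, h4, h5⟩ := mem_filter.1 hW
  rw [mem_powerset] at h1
  refine ⟨W, h2, h1, h3, h4, h5, fun S hS hne hcard hconn => ?_⟩
  by_contra hcon
  push Not at hcon
  have hdisj : Disjoint W S := by
    rw [disjoint_left]
    intro x hx hxS
    exact (Finset.mem_sdiff.1 (hS hxS)).2 hx
  have hWS : (W ∪ S).card = W.card + S.card := card_union_of_disjoint hdisj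
  have hSpos : 0 < S.card := hne.card_pos
  -- the size of `W`
  have hk0 : (0 : ℤ) ≤ (k : ℤ) + 1 := by positivity
  have hsize : 3 * W.card ≤ 4 * (L ^ 3 + (k + 1)) := by
    have h6 : (W.card : ℤ) ≤ (L : ℤ) ^ 3 + ((k : ℤ) + 1) * (exc G W + 1) := by
      have h7 : ((k : ℤ) + 1) * (exc G W - exc G W0) ≤ ((k : ℤ) + 1) * (exc G W + 1) :=
        mul_le_mul_of_nonneg_left (by linarith) hk0
      have h8 : (W0.card : ℤ) ≤ (L : ℤ) ^ 3 := by exact_mod_cast h0
      linarith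
    have h9 : 3 * (W.card : ℤ) ≤ 4 * ((L : ℤ) ^ 3 + ((k : ℤ) + 1)) := by
      rcases le_or_gt 1 (exc G W) with h7 | h7
      · have h8 := hdense W h1 h3 h4 h7
        nlinarith
      · have h8 : ((k : ℤ) + 1) * (exc G W + 1) ≤ ((k : ℤ) + 1) * 1 :=
          mul_le_mul_of_nonneg_left (by linarith) hk0
        have h10 : (0 : ℤ) ≤ (W.card : ℤ) := by positivity
        linarith
    exact_mod_cast h9
  have hmem : W ∪ S ∈ (range n).powerset.filter (fun W => W0 ⊆ W ∧ Conn G W ∧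
      W.card ≤ L ^ 4 ∧ (W.card : ℤ) ≤ W0.card + ((k : ℤ) + 1) * (exc G W - exc G W0)) := by
    refine mem_filter.2 ⟨mem_powerset.2 (union_subset h1 (hS.trans sdiff_subset)),
      h2.trans subset_union_left, hconn, ?_, ?_⟩
    · rw [hWS]
      omega
    · rw [hWS]
      have h6 : ((k : ℤ) + 1) * (exc G W + 1 - exc G W0) ≤
          ((k : ℤ) + 1) * (exc G (W ∪ S) - exc G W0) :=
        mul_le_mul_of_nonneg_left (by linarith) hk0
      have h7 : (S.card : ℤ) ≤ (k : ℤ) + 1 := by exact_mod_cast hcard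
      push_cast
      linarith
  have h6 := hmax _ hmem
  rw [hWS] at h6
  omega

end Pool.Agent.Helper55.ML
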