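import Pool.Agent.Helper55.ML.E0
import Pool.Agent.Helper55.ML.G2
import Pool.Agent.Helper55.ML.H3

set_option autoImplicit false
open Finset Filter Topology

namespace Pool.Agent.Helper55.ML

/-- J2 (hint): a pre-structure `(W0,Z0)` and a superset `W` without ears give a `Struct`. For
`u ∈ W0 \ Z0`: `R.Y (del W G) ⊆ R.Y (del W0 G)`; `u` has at least `d+1` core neighbours (`core_deg`), each
is in `W` or, by `mem_Pt_of_no_ear` (H3), in `Pt k (del W G)`. The size conditions are `Gd_Y`. -/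
theorem Rig.pre_struct {d t : ℕ} (R : Rig d t) (hd : 1 ≤ d) {x η ε : ℝ} {k : ℕ} (hk : 1 ≤ k)
    (hη : 0 < η) (hε : 0 < ε) (hx : 4 * (η + ε) ≤ x) :
    ∃ n0 : ℕ, ∀ n : ℕ, n0 ≤ n → ∀ G : Finset (Sym2 ℕ), G ⊆ En n →
      R.Gd x η ε k n G → ∀ W0 Z0 W : Finset ℕ, R.Pre x η n G W0 Z0 → W0 ⊆ W → W ⊆ range n →
        Conn G W → W.card ≤ (Nat.log 2 n) ^ 4 →
        (∀ S : Finset ℕ, S ⊆ range n \ W → S.Nonempty → S.card ≤ k + 1 → Conn G (W ∪ S) →
          exc G (W ∪ S) ≤ exc G W) →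
        Struct d n x η ε (fun H => R.Y (x - η) n H) (fun H => R.Y (x - η) n H ∪ Pt d n k H) G W
          (Z0 ∪ (W \ W0)) := by
  obtain ⟨n0, h0⟩ := R.Gd_Y hd hk hη hε hx
  refine ⟨n0, fun n hn G hG hGd W0 Z0 W hPre hW0 hWn hW hWc hno => ?_⟩
  obtain ⟨-, hY1, -, hY2, hY3, -, -⟩ := h0 n hn G hG hGd W hWn hWc
  obtain ⟨-, hZ0, -, hPre'⟩ := hPre
  refine ⟨hWn, Finset.union_subset (hZ0.trans hW0) Finset.sdiff_subset, hW, hWc,
    Finset.subset_union_left, hY2, hY1, hY3, fun u hu => ?_⟩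
  rw [Finset.mem_sdiff, Finset.mem_union, not_or, Finset.mem_sdiff, not_and, not_not] at hu
  obtain ⟨huW, huZ, huW0⟩ := hu
  obtain ⟨hucore, hunb⟩ := hPre' u (Finset.mem_sdiff.2 ⟨huW0 huW, huZ⟩)
  constructor
  · refine le_trans (Nat.add_le_add_right (Finset.card_le_card ?_) 1) hunb
    exact Finset.inter_subset_inter_left (R.Y_mono (del_anti hW0 G))
  · refine (core_deg hucore).trans (le_trans (Finset.card_le_card ?_) (Finset.card_union_le _ _))
    intro z hz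
    obtain ⟨hz1, hz2⟩ := Finset.mem_inter.1 hz
    rw [Finset.mem_union, Finset.mem_inter, Finset.mem_inter]
    by_cases hzW : z ∈ W
    · exact Or.inl ⟨hz1, hzW⟩
    · refine Or.inr ⟨hz1, Finset.mem_union_right _ ?_⟩
      exact mem_Pt_of_no_ear hG hWn hW hno hz2 hzW ⟨u, huW, (mem_nb.1 hz1).2⟩

end Pool.Agent.Helper55.ML
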