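import Pool.Agent.Helper55.ML.E6
import Pool.Agent.Helper55.ML.E7
import Pool.Agent.Helper55.ML.J0
import Pool.Agent.Helper55.ML.J2

set_option autoImplicit false
open Finset Filter Topology

namespace Pool.Agent.Helper55.ML

private lemma j1_log (m : ℕ) : ∀ᶠ n : ℕ in atTop, m ≤ Nat.log 2 n := by
  filter_upwards [eventually_ge_atTop (2 ^ m)] with n hn
  exact Nat.le_log_of_pow_le (by norm_num) hn

/-- J1 (K1; hint). Given a pre-structure `(W0,Z0)`, `|W0| ≤ (log n)^3`,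
`|Z0| ≤ C0 (exc G W0 + 2)`, let `W` be the ear closure (`ear_closure`, `L = log n`,
`no_dense_conn` with `θ = 1/(4(k+1))`) and `Z = Z0 ∪ (W \ W0)`; `(W,Z)` is a `Struct` (`pre_struct`) and
`|Z| ≤ C0 (exc W0 + 2) + (k+1)(exc W - exc W0) ≤ (C0+k+1)(exc W + 2)` (`exc_ge`). `no_structures` with
`C0+k+1` gives `exc W ≤ 0`, `|W| ≤ C3 log n`, so the same for `W0`. `η0` = minimum of the one of
`no_structures` and `x/8`. -/
theorem Rig.K1_neg {d t : ℕ} (R : Rig d t) (hd : 2 ≤ d) {c x : ℝ} (hc : 0 < c)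
    (hx : GoodX d c x) : ∃ η0 : ℝ, 0 < η0 ∧ ∀ η ε : ℝ, 0 < η → η ≤ η0 → 0 < ε → ε ≤ η0 →
      ∀ k : ℕ, 1 ≤ k → ∀ C0 : ℕ, ∃ C3 : ℕ,
        Neg c (fun n G => R.Gd x η ε k n G ∧ ¬ R.K1 x η C0 C3 n G) := by
  obtain ⟨η1, hη1, hns⟩ := no_structures hd hc hx
  have hx0 : 0 < x := hx.1
  refine ⟨min η1 (x / 8), lt_min hη1 (by linarith), ?_⟩
  intro η ε hη hηle hε hεle k hk C0
  have h1 : η ≤ η1 := hηle.trans (min_le_left _ _)
  have h2 : ε ≤ η1 := hεle.trans (min_le_left _ _)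
  have h3 : 4 * (η + ε) ≤ x := by
    have h4 : η ≤ x / 8 := hηle.trans (min_le_right _ _)
    have h5 : ε ≤ x / 8 := hεle.trans (min_le_right _ _)
    linarith
  obtain ⟨C3, hC3⟩ := hns (C0 + k + 1)
  refine ⟨C3, ?_⟩
  have hN1 := hC3 η ε hη h1 hε h2 (fun n H => R.Y (x - η) n H)
    (fun n H => R.Y (x - η) n H ∪ Pt d n k H)
  have hθ : (0 : ℝ) < 1 / (4 * ((k : ℝ) + 1)) := by positivity
  have hN2 := no_dense_conn hc hθ
  obtain ⟨n0, hn0⟩ := R.pre_struct (d := d) (x := x) (η := η) (ε := ε) (k := k) (by omega) hk hη hε h3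
  refine Neg_or_mono hc hN1 hN2 ?_
  filter_upwards [eventually_ge_atTop n0, j1_log (4 * (k + 2))] with n hn hL G hG hB
  obtain ⟨hGd, hK1⟩ := hB
  by_cases hd2 : ∃ W : Finset ℕ, W ⊆ range n ∧ Conn G W ∧ W.card ≤ (Nat.log 2 n) ^ 4 ∧
      1 ≤ exc G W ∧ 1 / (4 * ((k : ℝ) + 1)) * (W.card : ℝ) ≤ (exc G W : ℝ)
  · exact Or.inr hd2
  left
  have hdense : ∀ W : Finset ℕ, W ⊆ range n → Conn G W → W.card ≤ (Nat.log 2 n) ^ 4 →
      1 ≤ exc G W → 4 * ((k : ℤ) + 1) * exc G W < (W.card : ℤ) := by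
    intro W hW hWc hWs hWe
    by_contra hcon
    push Not at hcon
    refine hd2 ⟨W, hW, hWc, hWs, hWe, ?_⟩
    have hcon' : (W.card : ℝ) ≤ 4 * ((k : ℝ) + 1) * (exc G W : ℝ) := by exact_mod_cast hcon
    rw [one_div, inv_mul_le_iff₀ (by positivity)]
    exact hcon'
  unfold Rig.K1 at hK1
  push Not at hK1
  obtain ⟨W0, Z0, hPre, hW0s, hZ0, hbad⟩ := hK1
  obtain ⟨W, hWW, hWn, hWc, hWs, hWcard, hno⟩ := ear_closure hG hL hdense hPre.1 hPre.2.2.1 hW0s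
  have hS := hn0 n hn G hG hGd W0 Z0 W hPre hWW hWn hWc hWs hno
  have hdiag : ∀ e ∈ G, ¬ e.IsDiag := fun e he => (mem_En.1 (hG he)).2
  have hex0 := Conn.exc_ge hdiag hPre.2.2.1
  have hexm := Conn.exc_mono hdiag hWc hWW hPre.2.2.1.1
  refine ⟨W, Z0 ∪ (W \ W0), hS, ?_, ?_⟩
  · have hc1 : (Z0 ∪ (W \ W0)).card ≤ Z0.card + (W \ W0).card := Finset.card_union_le _ _
    have hc2 : (W \ W0).card + W0.card = W.card := Finset.card_sdiff_add_card_eq_card hWW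
    have hc3 : ((Z0 ∪ (W \ W0)).card : ℤ) ≤ Z0.card + (W.card - W0.card) := by
      have : (((W \ W0).card : ℕ) : ℤ) + W0.card = W.card := by exact_mod_cast hc2
      have h' : ((Z0 ∪ (W \ W0)).card : ℤ) ≤ Z0.card + (W \ W0).card := by exact_mod_cast hc1
      linarith
    have hC0 : (0 : ℤ) ≤ (C0 : ℤ) := Nat.cast_nonneg _
    have hk0 : (0 : ℤ) ≤ (k : ℤ) + 1 := by positivity
    have e1 : (C0 : ℤ) * (exc G W0 + 2) ≤ (C0 : ℤ) * (exc G W + 2) :=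
      mul_le_mul_of_nonneg_left (by linarith) hC0
    have e2 : ((k : ℤ) + 1) * (exc G W - exc G W0) ≤ ((k : ℤ) + 1) * (exc G W + 2) :=
      mul_le_mul_of_nonneg_left (by linarith) hk0
    calc ((Z0 ∪ (W \ W0)).card : ℤ) ≤ Z0.card + (W.card - W0.card) := hc3
      _ ≤ (C0 : ℤ) * (exc G W + 2) + ((k : ℤ) + 1) * (exc G W + 2) := by linarith
      _ = ((C0 + k + 1 : ℕ) : ℤ) * (exc G W + 2) := by push_cast; ring
  · by_cases he : exc G W0 ≤ 0
    · right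
      have := hbad he
      exact lt_of_lt_of_le this (Finset.card_le_card hWW)
    · left
      omega

end Pool.Agent.Helper55.ML
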