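import Pool.Agent.Helper55.ML.J1

set_option autoImplicit false
open Finset Filter Topology

namespace Pool.Agent.Helper55.ML

private theorem j3_log (m : ℕ) : ∀ᶠ n : ℕ in atTop, m ≤ Nat.log 2 n := by
  filter_upwards [eventually_ge_atTop (2 ^ m)] with n hn
  exact Nat.le_log_of_pow_le (by norm_num) hn

open Classical in
/-- Outside the bad events the unicyclic pre-structures are structures. -/
private theorem j3_sub {d t : ℕ} (R : Rig d t) {x η ε : ℝ} {k C0 C3 n : ℕ}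
    {G : Finset (Sym2 ℕ)} (hG : G ⊆ En n) (hL : 4 * (k + 2) ≤ Nat.log 2 n)
    (hpre : ∀ W0 Z0 W : Finset ℕ, R.Pre x η n G W0 Z0 → W0 ⊆ W → W ⊆ range n →
        Conn G W → W.card ≤ (Nat.log 2 n) ^ 4 →
        (∀ S : Finset ℕ, S ⊆ range n \ W → S.Nonempty → S.card ≤ k + 1 → Conn G (W ∪ S) →
          exc G (W ∪ S) ≤ exc G W) →
        Struct d n x η ε (fun H => R.Y (x - η) n H) (fun H => R.Y (x - η) n H ∪ Pt d n k H) G W
          (Z0 ∪ (W \ W0)))
    (hB1 : ¬ ∃ W : Finset ℕ, W ⊆ range n ∧ Conn G W ∧ W.card ≤ (Nat.log 2 n) ^ 4 ∧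
      1 ≤ exc G W ∧ (1 / (4 * ((k : ℝ) + 1))) * (W.card : ℝ) ≤ (exc G W : ℝ))
    (hB2 : ¬ ∃ W Z : Finset ℕ, Struct d n x η ε (fun H => R.Y (x - η) n H)
      (fun H => R.Y (x - η) n H ∪ Pt d n k H) G W Z ∧
      (Z.card : ℤ) ≤ ((C0 + k + 1 : ℕ) : ℤ) * (exc G W + 2) ∧
        (1 ≤ exc G W ∨ C3 * Nat.log 2 n < W.card)) :
    R.pairs x η C0 n G ⊆ ((range n).powerset ×ˢ (range n).powerset).filter
          (fun q => Struct d n x η ε (fun H => R.Y (x - η) n H)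
            (fun H => R.Y (x - η) n H ∪ Pt d n k H) G q.1 q.2 ∧ exc G q.1 = 0 ∧
            q.2.card ≤ C0) := by
  intro q hq
  rw [Rig.pairs, Finset.mem_filter] at hq
  obtain ⟨hq0, hPre, hexc, hZ, hW3⟩ := hq
  rw [Finset.mem_filter]
  refine ⟨hq0, ?_, hexc, hZ⟩
  obtain ⟨W, Z⟩ := q
  simp only at hq0 hPre hexc hZ hW3 ⊢
  have hdense : ∀ W : Finset ℕ, W ⊆ range n → Conn G W → W.card ≤ (Nat.log 2 n) ^ 4 →
      1 ≤ exc G W → 4 * ((k : ℤ) + 1) * exc G W < (W.card : ℤ) := by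
    intro V hV hVc hV4 hV1
    by_contra hcon
    apply hB1
    refine ⟨V, hV, hVc, hV4, hV1, ?_⟩
    push Not at hcon
    have h1 : ((V.card : ℤ) : ℝ) ≤ ((4 * ((k : ℤ) + 1) * exc G V : ℤ) : ℝ) := by
      exact_mod_cast hcon
    push_cast at h1
    rw [one_div_mul_eq_div, div_le_iff₀ (by positivity)]
    linarith
  obtain ⟨W', hWW', hW'n, hW'c, hW'4, hW'card, hnoear⟩ :=
    ear_closure hG hL hdense hPre.1 hPre.2.2.1 hW3
  have hS := hpre W Z W' hPre hWW' hW'n hW'c hW'4 hnoear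
  have hge : -1 ≤ exc G W' := hW'c.exc_ge (fun e he => (mem_En.mp (hG he)).2)
  rw [hexc] at hW'card
  have hsd : ((W' \ W).card : ℤ) = (W'.card : ℤ) - (W.card : ℤ) := by
    rw [Finset.card_sdiff_of_subset hWW', Nat.cast_sub (Finset.card_le_card hWW')]
  have hle : ((Z ∪ (W' \ W)).card : ℤ) ≤ (Z.card : ℤ) + ((W' \ W).card : ℤ) := by
    exact_mod_cast Finset.card_union_le Z (W' \ W)
  have hZ' : (Z.card : ℤ) ≤ (C0 : ℤ) := by exact_mod_cast hZ
  have hexcle : exc G W' ≤ 0 := by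
    by_contra hcon
    push Not at hcon
    apply hB2
    refine ⟨W', Z ∪ (W' \ W), hS, ?_, Or.inl hcon⟩
    push_cast
    have h1 : (0 : ℤ) ≤ (C0 : ℤ) * (exc G W' + 1) := by
      apply mul_nonneg
      · exact_mod_cast Nat.zero_le C0
      · linarith
    have h2 : (0 : ℤ) ≤ (k : ℤ) := by exact_mod_cast Nat.zero_le k
    nlinarith
  have hcard : W'.card ≤ W.card := by
    have h2 : (0 : ℤ) ≤ (k : ℤ) + 1 := by positivity
    have h3 : ((k : ℤ) + 1) * (exc G W' - 0) ≤ 0 := by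
      rw [sub_zero]
      exact mul_nonpos_of_nonneg_of_nonpos h2 hexcle
    have h4 : (W'.card : ℤ) ≤ (W.card : ℤ) := by linarith
    exact_mod_cast h4
  have heq : W = W' := Finset.eq_of_subset_of_card_le hWW' hcard
  rw [← heq] at hS
  simpa using hS

/-- J3 (hint): outside the bad events of `K1_neg` and `no_dense_conn` every unicyclic
pre-structure `(W,Z)` of `R.pairs` is its own ear closure: the closure `W'` (`ear_closure`) is a
`Struct` with `|Z'| ≤ (C0+k+1)(exc W' + 2)`, so `exc W' ≤ 0` by `no_structures` and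
`|W'| ≤ |W| + (k+1)(exc W' - 0) ≤ |W|`. So `(W,Z)` is a `Struct` (`pre_struct`); `few_structures` and
Markov. -/
theorem Rig.pairs_tight {d t : ℕ} (R : Rig d t) (hd : 2 ≤ d) {c x : ℝ} (hc : 0 < c)
    (hx : GoodX d c x) : ∃ η0 : ℝ, 0 < η0 ∧ ∀ η ε : ℝ, 0 < η → η ≤ η0 → 0 < ε → ε ≤ η0 →
      ∀ k : ℕ, 1 ≤ k → ∀ C0 : ℕ, ∀ ε' : ℝ, 0 < ε' → ∃ s : ℕ, ∀ᶠ n : ℕ in atTop,
        Pr n (c / n) (fun G => R.Gd x η ε k n G ∧ s < (R.pairs x η C0 n G).card) ≤ ε' := by
  classical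
  obtain ⟨η1, hη1, h1⟩ := no_structures hd hc hx
  obtain ⟨η2, hη2, h2⟩ := few_structures hd hc hx
  have hx0 : 0 < x := hx.1
  refine ⟨min (min η1 η2) (x / 8), by positivity, ?_⟩
  intro η ε hη hη0 hε hε0 k hk C0 ε' hε'
  have hηa : η ≤ η1 := hη0.trans ((min_le_left _ _).trans (min_le_left _ _))
  have hηb : η ≤ η2 := hη0.trans ((min_le_left _ _).trans (min_le_right _ _))
  have hηc : η ≤ x / 8 := hη0.trans (min_le_right _ _)
  have hεa : ε ≤ η1 := hε0.trans ((min_le_left _ _).trans (min_le_left _ _))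
  have hεb : ε ≤ η2 := hε0.trans ((min_le_left _ _).trans (min_le_right _ _))
  have hεc : ε ≤ x / 8 := hε0.trans (min_le_right _ _)
  obtain ⟨C3, hC3⟩ := h1 (C0 + k + 1)
  obtain ⟨K, hK⟩ := h2 C0
  have hN2 := hC3 η ε hη hηa hε hεa (fun n H => R.Y (x - η) n H)
    (fun n H => R.Y (x - η) n H ∪ Pt d n k H)
  have hF := hK η ε hη hηb hε hεb (fun n H => R.Y (x - η) n H)
    (fun n H => R.Y (x - η) n H ∪ Pt d n k H)
  have hθ : (0 : ℝ) < 1 / (4 * ((k : ℝ) + 1)) := by positivity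
  have hN1 := no_dense_conn hc hθ
  obtain ⟨n0, hn0⟩ := R.pre_struct (le_trans (by norm_num) hd) hk hη hε
    (show 4 * (η + ε) ≤ x by linarith)
  have hN := Neg_or hc hN1 hN2
  rw [Neg_iff hc] at hN
  have hN' := hN (ε' / 2) (by positivity)
  obtain ⟨s, hs⟩ := exists_nat_gt (max 1 (K / (ε' / 2)))
  have hs1 : (1 : ℝ) < s := lt_of_le_of_lt (le_max_left _ _) hs
  have hsK : K / (ε' / 2) < s := lt_of_le_of_lt (le_max_right _ _) hs
  refine ⟨s, ?_⟩
  filter_upwards [hN', hF, eventually_ge_atTop n0, j3_log (4 * (k + 2)), cn_eventually hc] with n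
    hNn hFn hn hLn hcn
  obtain ⟨hp0, hp1⟩ := hcn
  have hp1' : c / (n : ℝ) ≤ 1 := by linarith
  set few : Finset (Sym2 ℕ) → ℕ := fun G =>
    (((range n).powerset ×ˢ (range n).powerset).filter
      (fun q => Struct d n x η ε (fun H => R.Y (x - η) n H)
        (fun H => R.Y (x - η) n H ∪ Pt d n k H) G q.1 q.2 ∧ exc G q.1 = 0 ∧
        q.2.card ≤ C0)).card with hfew
  have hmark : Pr n (c / n) (fun G => s < few G) ≤ ε' / 2 := by
    have hstep : Pr n (c / n) (fun G => s < few G) ≤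
        Ex n (c / n) (fun G => (s : ℝ)⁻¹ * (few G : ℝ)) := by
      apply Ex_mono hp0.le hp1'
      intro G _
      by_cases h : s < few G
      · rw [ind_true h, inv_mul_eq_div, le_div_iff₀ (by linarith), one_mul]
        exact_mod_cast h.le
      · rw [ind_false h]
        positivity
    rw [Ex_mul_left] at hstep
    have hFn' : Ex n (c / n) (fun G => (few G : ℝ)) ≤ K := by
      have h3 := hFn
      convert h3 using 7
    have hs0 : (0 : ℝ) < s := by linarith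
    calc Pr n (c / n) (fun G => s < few G)
        ≤ (s : ℝ)⁻¹ * Ex n (c / n) (fun G => (few G : ℝ)) := hstep
      _ ≤ (s : ℝ)⁻¹ * K := mul_le_mul_of_nonneg_left hFn' (by positivity)
      _ ≤ ε' / 2 := by
        rw [inv_mul_le_iff₀ hs0]
        rw [div_lt_iff₀ (by positivity)] at hsK
        linarith
  have hall : Pr n (c / n) (fun G => R.Gd x η ε k n G ∧ s < (R.pairs x η C0 n G).card) ≤
      Pr n (c / n) (fun G => ((∃ W : Finset ℕ, W ⊆ range n ∧ Conn G W ∧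
        W.card ≤ (Nat.log 2 n) ^ 4 ∧ 1 ≤ exc G W ∧
        (1 / (4 * ((k : ℝ) + 1))) * (W.card : ℝ) ≤ (exc G W : ℝ)) ∨
        (∃ W Z : Finset ℕ, Struct d n x η ε (fun H => R.Y (x - η) n H)
          (fun H => R.Y (x - η) n H ∪ Pt d n k H) G W Z ∧
          (Z.card : ℤ) ≤ ((C0 + k + 1 : ℕ) : ℤ) * (exc G W + 2) ∧
          (1 ≤ exc G W ∨ C3 * Nat.log 2 n < W.card))) ∨ s < few G) := by
    apply Pr_mono hp0.le hp1'
    intro G hG hGd
    by_contra hcon
    push Not at hcon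
    obtain ⟨⟨hB1, hB2⟩, hB3⟩ := hcon
    have hsub := j3_sub (C3 := C3) R hG hLn (hn0 n hn G hG hGd.1)
      (C0 := C0) (by push Not; exact hB1) (by push Not; exact hB2)
    have hc1 := Finset.card_le_card hsub
    have h4 := hGd.2
    have h5 : (R.pairs x η C0 n G).card ≤ few G := by
      refine hc1.trans (le_of_eq ?_)
      rw [hfew]
    omega
  have h6 := Pr_or_le (n := n) hp0.le hp1'
    (A := fun G => ((∃ W : Finset ℕ, W ⊆ range n ∧ Conn G W ∧
        W.card ≤ (Nat.log 2 n) ^ 4 ∧ 1 ≤ exc G W ∧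
        (1 / (4 * ((k : ℝ) + 1))) * (W.card : ℝ) ≤ (exc G W : ℝ)) ∨
        (∃ W Z : Finset ℕ, Struct d n x η ε (fun H => R.Y (x - η) n H)
          (fun H => R.Y (x - η) n H ∪ Pt d n k H) G W Z ∧
          (Z.card : ℤ) ≤ ((C0 + k + 1 : ℕ) : ℤ) * (exc G W + 2) ∧
          (1 ≤ exc G W ∨ C3 * Nat.log 2 n < W.card)))) (B := fun G => s < few G)
  linarith

end Pool.Agent.Helper55.ML
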