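import Pool.Agent.Helper55.ML.G0
import Pool.Agent.Helper55.ML.H1

set_option autoImplicit false
open Finset Filter Topology

namespace Pool.Agent.Helper55.ML

/-- Weak cycle: weak, connected, all internal degrees equal to 2. -/
def WCyc (d n : ℕ) (G : Finset (Sym2 ℕ)) (T : Finset ℕ) : Prop :=
  Weak d n G T ∧ Conn G T ∧ ∀ u ∈ T, (nb n G u ∩ T).card = 2

open Classical in
/-- The union of all weak cycles. -/
noncomputable def Lam0 (d n : ℕ) (G : Finset (Sym2 ℕ)) : Finset ℕ :=
  (range n).filter (fun v => ∃ T : Finset ℕ, v ∈ T ∧ WCyc d n G T)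

theorem mem_Lam0 {d n v : ℕ} {G : Finset (Sym2 ℕ)} :
    v ∈ Lam0 d n G ↔ v < n ∧ ∃ T : Finset ℕ, v ∈ T ∧ WCyc d n G T := by
  classical
  unfold Lam0
  rw [Finset.mem_filter, Finset.mem_range]

/-- Flower of `z` with exceptional vertex `b`: a connected unicyclic set `F` of core vertices; all
vertices except `b`, `z` have core degree less than `d` plus the internal degree, and `z` (if
different from `b`) has core degree at most `d` plus the internal degree. -/
def Flower (d n : ℕ) (G : Finset (Sym2 ℕ)) (F : Finset ℕ) (z b : ℕ) : Prop :=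
  z ∈ F ∧ F ⊆ core d n G ∧ Conn G F ∧ exc G F = 0 ∧
    (∀ u ∈ F, u ≠ b → u ≠ z →
      (nb n G u ∩ core d n G).card + 1 ≤ (nb n G u ∩ F).card + d) ∧
    (z ≠ b → (nb n G z ∩ core d n G).card ≤ (nb n G z ∩ F).card + d)

/-- The core vertices lost by deleting `Lam0`. -/
noncomputable def Uset (d n : ℕ) (G : Finset (Sym2 ℕ)) : Finset ℕ :=
  core d n G \ core d n (del (Lam0 d n G) G)

end Pool.Agent.Helper55.ML
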