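import Pool.Agent.Helper55.ML.M13

set_option autoImplicit false
open Finset Filter Topology

namespace Pool.Agent.Helper55.ML

/-- elimination order of the vertices outside the core -/
theorem m14_order (d n : ℕ) (H : Finset (Sym2 ℕ)) (k : ℕ) : ∀ B : Finset ℕ, core d n H ⊆ B →
    B ⊆ range n → (B \ core d n H).card = k →
    ∃ ρ : ℕ → ℕ, (∀ v ∈ B, v ∉ core d n H → ρ v < k) ∧ (∀ v ∈ core d n H, ρ v = k) ∧
      (∀ v ∈ B, ∀ w ∈ B, v ∉ core d n H → w ∉ core d n H → ρ v = ρ w → v = w) ∧
      ∀ v ∈ B, v ∉ core d n H → ((nb n H v ∩ B).filter (fun w => ρ v < ρ w)).card ≤ d := by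
  classical
  induction k with
  | zero =>
    intro B hB hBn hk
    have h0 : ∀ v ∈ B, v ∈ core d n H := by
      intro v hv
      by_contra hc
      have h1 : v ∈ B \ core d n H := mem_sdiff.2 ⟨hv, hc⟩
      rw [card_eq_zero.1 hk] at h1
      exact absurd h1 (notMem_empty v)
    exact ⟨fun _ => 0, fun v hv hc => absurd (h0 v hv) hc, fun _ _ => rfl,
      fun v hv w _ hc _ _ => absurd (h0 v hv) hc, fun v hv hc => absurd (h0 v hv) hc⟩
  | succ k ih =>
    intro B hB hBn hk
    -- a vertex of small degree
    obtain ⟨x, hxB, hxc, hxd⟩ : ∃ x ∈ B, x ∉ core d n H ∧ (nb n H x ∩ B).card ≤ d := by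
      by_contra hcon
      push Not at hcon
      have hsub : B ⊆ core d n H := by
        refine subset_core hBn fun v hv => ?_
        by_cases hc : v ∈ core d n H
        · exact le_trans (core_deg hc) (card_le_card (inter_subset_inter_left hB))
        · exact hcon v hv hc
      have h1 : B \ core d n H = ∅ := sdiff_eq_empty_iff_subset.2 hsub
      rw [h1, card_empty] at hk
      omega
    have hcB : core d n H ⊆ B.erase x := by
      intro v hv
      refine mem_erase.2 ⟨?_, hB hv⟩
      rintro rfl
      exact hxc hv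
    have hcard : (B.erase x \ core d n H).card = k := by
      have h1 : B.erase x \ core d n H = (B \ core d n H).erase x := by
        ext v
        rw [Finset.mem_sdiff, Finset.mem_erase, Finset.mem_erase, Finset.mem_sdiff]
        tauto
      rw [h1, card_erase_of_mem (mem_sdiff.2 ⟨hxB, hxc⟩), hk]
      rfl
    obtain ⟨ρ, h1, h2, h3, h4⟩ := ih (B.erase x) hcB ((erase_subset _ _).trans hBn) hcard
    refine ⟨fun v => if v = x then 0 else ρ v + 1, ?_, ?_, ?_, ?_⟩
    · intro v hv hc
      by_cases hvx : v = x
      · simp [hvx]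
      · simp only [if_neg hvx]
        have := h1 v (mem_erase.2 ⟨hvx, hv⟩) hc
        omega
    · intro v hv
      have hvx : v ≠ x := by
        rintro rfl
        exact hxc hv
      simp only [if_neg hvx]
      rw [h2 v hv]
    · intro v hv w hw hcv hcw he
      by_cases hvx : v = x
      · by_cases hwx : w = x
        · rw [hvx, hwx]
        · simp only [if_pos hvx, if_neg hwx] at he
          omega
      · by_cases hwx : w = x
        · simp only [if_pos hwx, if_neg hvx] at he
          omega
        · simp only [if_neg hvx, if_neg hwx] at he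
          exact h3 v (mem_erase.2 ⟨hvx, hv⟩) w (mem_erase.2 ⟨hwx, hw⟩) hcv hcw (by omega)
    · intro v hv hc
      by_cases hvx : v = x
      · subst hvx
        exact le_trans (card_le_card (filter_subset _ _)) hxd
      · refine le_trans (card_le_card ?_) (h4 v (mem_erase.2 ⟨hvx, hv⟩) hc)
        intro w hw
        simp only [mem_filter, mem_inter, if_neg hvx] at hw
        obtain ⟨⟨hw1, hw2⟩, hw3⟩ := hw
        have hwx : w ≠ x := by
          rintro rfl
          simp at hw3
        simp only [if_neg hwx] at hw3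
        rw [mem_filter, mem_inter, mem_erase]
        exact ⟨⟨hw1, hwx, hw2⟩, by omega⟩

/-- the closure of the remaining graph -/
theorem Rig.m14_transfer {d t : ℕ} (R : Rig d t) {n : ℕ} {H : Finset (Sym2 ℕ)} (hH : H ⊆ En n)
    {m : ℕ} {ρ : ℕ → ℕ} (h1 : ∀ v < n, v ∉ core d n H → ρ v < m)
    (h2 : ∀ v ∈ core d n H, ρ v = m)
    (h3 : ∀ v < n, ∀ w < n, v ∉ core d n H → w ∉ core d n H → ρ v = ρ w → v = w)
    (h4 : ∀ v < n, v ∉ core d n H → ((nb n H v).filter (fun w => ρ v < ρ w)).card ≤ d) (k : ℕ) :
    k ≤ m → ∀ f : Sym2 ℕ, (∀ x ∈ f, x < n ∧ k ≤ ρ x) → R.Cl H f →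
      R.Cl (ins ((range n).filter fun w => k ≤ ρ w) H) f := by
  classical
  induction k with
  | zero =>
    intro _ f _ hf
    have h5 : ins ((range n).filter fun w => 0 ≤ ρ w) H = H := by
      ext e
      rw [mem_ins]
      constructor
      · exact fun h => h.1
      · intro h
        refine ⟨h, fun x hx => ?_⟩
        rw [mem_filter, mem_range]
        exact ⟨(mem_En.1 (hH h)).1 x hx, Nat.zero_le _⟩
    rw [h5]
    exact hf
  | succ k ih =>
    intro hk f hfk hf
    have h5 := ih (by omega) f (fun x hx => ⟨(hfk x hx).1, by have := (hfk x hx).2; omega⟩) hf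
    by_cases hex : ∃ v, v < n ∧ v ∉ core d n H ∧ ρ v = k
    · obtain ⟨v, hvn, hvc, hvk⟩ := hex
      have hdiag : ∀ e ∈ ins ((range n).filter fun w => k ≤ ρ w) H, ¬ e.IsDiag := fun e he =>
        (mem_En.1 (hH (ins_subset _ _ he))).2
      have hdeg : ((ins ((range n).filter fun w => k ≤ ρ w) H).filter
          (fun e => v ∈ e)).card ≤ d := by
        refine le_trans (card_le_card (t := ((nb n H v).filter (fun w => ρ v < ρ w)).image
          fun w => s(v, w)) ?_) (le_trans card_image_le (h4 v hvn hvc))
        intro e he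
        rw [mem_filter, mem_ins] at he
        obtain ⟨⟨he1, he2⟩, he3⟩ := he
        obtain ⟨w, rfl⟩ := he3
        rw [mem_image]
        refine ⟨w, ?_, rfl⟩
        have hw := he2 w (Sym2.mem_mk_right v w)
        rw [mem_filter, mem_range] at hw
        rw [mem_filter, mem_nb]
        refine ⟨⟨hw.1, he1⟩, ?_⟩
        have hne : v ≠ w := (mk_mem_En.1 (hH he1)).2.2
        by_cases hwc : w ∈ core d n H
        · rw [h2 w hwc]
          exact h1 v hvn hvc
        · have h6 : ρ v ≠ ρ w := fun h => hne (h3 v hvn w hw.1 hvc hwc h)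
          have h7 := hw.2
          omega
      have hvf : v ∉ f := by
        intro h
        have := (hfk v h).2
        omega
      have h6 := R.Cl_avoid hdiag hdeg hvf h5
      have h7 : del {v} (ins ((range n).filter fun w => k ≤ ρ w) H) ⊆
          ins ((range n).filter fun w => k + 1 ≤ ρ w) H := by
        intro e he
        rw [mem_del, mem_ins] at he
        obtain ⟨⟨he1, he2⟩, he3⟩ := he
        rw [mem_ins]
        refine ⟨he1, fun x hx => ?_⟩
        have hx1 := he2 x hx
        have hx2 := he3 x hx
        rw [mem_filter, mem_range] at hx1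
        rw [mem_singleton] at hx2
        rw [mem_filter, mem_range]
        refine ⟨hx1.1, ?_⟩
        by_cases hxc : x ∈ core d n H
        · rw [h2 x hxc]
          exact hk
        · have h8 : ρ x ≠ k := fun h => hx2 (h3 x hx1.1 v hvn hxc hvc (by rw [h, hvk]))
          have h9 := hx1.2
          omega
      exact R.Cl_mono h7 h6
    · push Not at hex
      refine R.Cl_mono ?_ h5
      intro e he
      rw [mem_ins] at he ⊢
      refine ⟨he.1, fun x hx => ?_⟩
      have hx1 := he.2 x hx
      rw [mem_filter, mem_range] at hx1 ⊢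
      refine ⟨hx1.1, ?_⟩
      by_cases hxc : x ∈ core d n H
      · rw [h2 x hxc]
        exact hk
      · have h8 := hex x hx1.1 hxc
        have h9 := hx1.2
        omega

/-- a vertex of the clique outside the core has exactly `d` later neighbours, all in the clique -/
theorem Rig.m14_later {d t : ℕ} (R : Rig d t) (hd : 1 ≤ d) {n : ℕ} {H : Finset (Sym2 ℕ)}
    (hH : H ⊆ En n)
    {m : ℕ} {ρ : ℕ → ℕ} (h1 : ∀ v < n, v ∉ core d n H → ρ v < m)
    (h2 : ∀ v ∈ core d n H, ρ v = m)
    (h3 : ∀ v < n, ∀ w < n, v ∉ core d n H → w ∉ core d n H → ρ v = ρ w → v = w)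
    (h4 : ∀ v < n, v ∉ core d n H → ((nb n H v).filter (fun w => ρ v < ρ w)).card ≤ d)
    {R0 : Finset ℕ} (hR : R0 ⊆ range n) (hclq : R.Clq H R0)
    (hcore : d ≤ (R0 ∩ core d n H).card)
    (hmax : ∀ x < n, x ∉ R0 → ¬ R.Clq H (insert x R0)) {z : ℕ} (hz : z ∈ R0)
    (hzc : z ∉ core d n H) :
    ((nb n H z).filter (fun w => ρ z < ρ w)) ⊆ R0 ∧
      d ≤ ((nb n H z).filter (fun w => ρ z < ρ w)).card := by
  classical
  have hzn : z < n := mem_range.1 (hR hz)
  set B : Finset ℕ := (range n).filter fun w => ρ z ≤ ρ w with hB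
  set S : Finset (Sym2 ℕ) := ins B H with hS
  have htr : ∀ f : Sym2 ℕ, (∀ x ∈ f, x ∈ B) → R.Cl H f → R.Cl S f := by
    intro f hf hc
    refine R.m14_transfer hH h1 h2 h3 h4 (ρ z) (h1 z hzn hzc).le f ?_ hc
    intro x hx
    have := hf x hx
    rw [hB, mem_filter, mem_range] at this
    exact this
  have hSH : S ⊆ H := ins_subset _ _
  have hdiag : ∀ e ∈ S, ¬ e.IsDiag := fun e he => (mem_En.1 (hH (hSH he))).2
  have hzB : z ∈ B := by
    rw [hB, mem_filter, mem_range]
    exact ⟨hzn, le_rfl⟩
  -- degree of `z` in `S`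
  have hfil : (S.filter (fun e => z ∈ e)) =
      ((nb n H z).filter (fun w => ρ z < ρ w)).image fun w => s(z, w) := by
    ext e
    rw [mem_filter, mem_image, hS, mem_ins]
    constructor
    · rintro ⟨⟨he1, he2⟩, w, rfl⟩
      refine ⟨w, ?_, rfl⟩
      have hw := he2 w (Sym2.mem_mk_right z w)
      rw [hB, mem_filter, mem_range] at hw
      rw [mem_filter, mem_nb]
      refine ⟨⟨hw.1, he1⟩, ?_⟩
      have hne : z ≠ w := (mk_mem_En.1 (hH he1)).2.2
      by_cases hwc : w ∈ core d n H
      · rw [h2 w hwc]
        exact h1 z hzn hzc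
      · have h6 : ρ z ≠ ρ w := fun h => hne (h3 z hzn w hw.1 hzc hwc h)
        have h7 := hw.2
        omega
    · rintro ⟨w, hw, rfl⟩
      rw [mem_filter, mem_nb] at hw
      refine ⟨⟨hw.1.2, ?_⟩, Sym2.mem_mk_left z w⟩
      intro x hx
      rcases Sym2.mem_iff.1 hx with rfl | rfl
      · exact hzB
      · rw [hB, mem_filter, mem_range]
        exact ⟨hw.1.1, hw.2.le⟩
  have hfc : (S.filter (fun e => z ∈ e)).card ≤ ((nb n H z).filter (fun w => ρ z < ρ w)).card := by
    rw [hfil]
    exact card_image_le
  have hDd := h4 z hzn hzc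
  have hdeg : (S.filter (fun e => z ∈ e)).card ≤ d := hfc.trans hDd
  set C : Finset ℕ := (R0 ∩ B).erase z with hC
  have hCR : C ⊆ R0 := (erase_subset _ _).trans inter_subset_left
  have hCB : C ⊆ B := (erase_subset _ _).trans inter_subset_right
  have hzC : z ∉ C := by
    rw [hC]
    exact notMem_erase z _
  have hdC : d ≤ C.card := by
    refine hcore.trans (card_le_card ?_)
    intro x hx
    rw [mem_inter] at hx
    rw [hC, mem_erase, mem_inter]
    refine ⟨?_, hx.1, ?_⟩
    · rintro rfl
      exact hzc hx.2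
    · rw [hB, mem_filter]
      refine ⟨hR hx.1, ?_⟩
      rw [h2 x hx.2]
      exact (h1 z hzn hzc).le
  have hClqS : R.Clq S C := by
    intro a ha b hb hab
    refine htr _ ?_ (hclq a (hCR ha) b (hCR hb) hab)
    intro x hx
    rcases Sym2.mem_iff.1 hx with rfl | rfl
    · exact hCB ha
    · exact hCB hb
  set H' : Finset (Sym2 ℕ) := del {z} S with hH'
  have hH'S : H' ⊆ S := del_subset _ _
  have hzH' : ∀ e ∈ H', z ∉ e := by
    intro e he hze
    rw [hH', mem_del] at he
    exact he.2 z hze (mem_singleton_self z)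
  have hClqH' : R.Clq H' C := by
    intro a ha b hb hab
    refine R.Cl_avoid hdiag hdeg ?_ (hClqS a ha b hb hab)
    intro hx
    rcases Sym2.mem_iff.1 hx with rfl | rfl
    · exact hzC ha
    · exact hzC hb
  have hstar : ∀ f ∈ star z C, R.Cl S f := by
    intro f hf
    obtain ⟨y, hy, rfl⟩ := mem_star.1 hf
    refine htr _ ?_ (hclq z hz y (hCR hy) ?_)
    · intro x hx
      rcases Sym2.mem_iff.1 hx with rfl | rfl
      · exact hzB
      · exact hCB hy
    · rintro rfl
      exact hzC hy
  have e1 := R.r_deg_le hdiag hdeg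
  rw [← hH'] at e1
  have e2 := R.r_star hzH' hzC hClqH' hdC
  have e3 := R.r_union_of_Cl hstar
  have e4 : R.r (H' ∪ star z C) ≤ R.r (S ∪ star z C) :=
    R.r_mono (union_subset_union_left hH'S)
  refine ⟨?_, by omega⟩
  intro q hq
  by_contra hqR
  rw [mem_filter, mem_nb] at hq
  obtain ⟨⟨hqn, hqH⟩, hqρ⟩ := hq
  have hzq : z ≠ q := (mk_mem_En.1 (hH hqH)).2.2
  have hqB : q ∈ B := by
    rw [hB, mem_filter, mem_range]
    exact ⟨hqn, hqρ.le⟩
  have hqS : s(z, q) ∈ S := by
    rw [hS, mem_ins]
    refine ⟨hqH, fun x hx => ?_⟩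
    rcases Sym2.mem_iff.1 hx with rfl | rfl
    · exact hzB
    · exact hqB
  have hcl : R.Cl (H' ∪ star z C) s(z, q) := by
    by_contra hn
    rw [R.not_Cl_iff] at hn
    have e5 : R.r (insert s(z, q) (H' ∪ star z C)) ≤ R.r (S ∪ star z C) := by
      refine R.r_mono (insert_subset (mem_union_left _ hqS) ?_)
      exact union_subset_union_left hH'S
    omega
  have hdiag' : ∀ e ∈ H', ¬ e.IsDiag := fun e he => hdiag e (hH'S he)
  have hqC : q ∉ C := fun h => hqR (hCR h)
  have hcln := R.clone hd hdiag' hzH' hzC hqC hzq hClqH' hdC hcl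
  refine hmax q hqn hqR (R.Clq_insert hclq hCR hdC ?_)
  intro y hy _
  exact R.Cl_mono (hH'S.trans hSH) (hcln y hy)

/-- M14 (hint): see B12 of `/team-store/ML_proof.md`. Let `H = del W G`. Peel the vertices outside
the core of `H` one after the other (each has at most `d` neighbours among the remaining ones). If
`z` outside the core of `H` lies in the maximal clique `R0` of the closure, then in the remaining
graph `z` has exactly `d` neighbours, all in `R0`: `Cl_avoid` shows that the remaining part of `R0`
stays a clique, it has at least `d` elements besides `z` (those in the core of `H`, `hcore`);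
`r_deg_le`; if a neighbour `q` of `z` is not in `R0` then `zq` is not in the closure
of `(graph without z) ∪ star z (R0 \ {z})` by `clone` and maximality, so the rank of the graph is
at least `r(without z) + d + 1`. The vertices reached from `z` through later neighbours, together
with the cores of `H` and `G`, have internal degree at least `d+1` in `G` (`z` itself has the extra
neighbour `u`), so they lie in `core d n G`. -/
theorem Rig.core_rest {d t : ℕ} (R : Rig d t) (hd : 1 ≤ d) {n : ℕ} {G : Finset (Sym2 ℕ)}
    (hG : G ⊆ En n) {W R0 : Finset ℕ} {u z : ℕ} (hu : u ∈ core d n G) (huW : u ∈ W)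
    (hR : R0 ⊆ range n) (hclq : R.Clq (del W G) R0) (hcard : d + 2 ≤ R0.card)
    (hcore : d ≤ (R0 ∩ core d n (del W G)).card)
    (hmax : ∀ x < n, x ∉ R0 → ¬ R.Clq (del W G) (insert x R0)) (hz : z ∈ R0)
    (huz : s(u, z) ∈ G) : z ∈ core d n G := by
  classical
  have _ := hcard
  set H : Finset (Sym2 ℕ) := del W G with hHdef
  have hHG : H ⊆ G := del_subset _ _
  have hH : H ⊆ En n := hHG.trans hG
  obtain ⟨ρ, h1, h2, h3, h4⟩ := m14_order d n H _ (range n) (core_subset d n H)
    (Finset.Subset.refl _) rfl
  set m : ℕ := (range n \ core d n H).card with hm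
  have h1' : ∀ v < n, v ∉ core d n H → ρ v < m := fun v hv => h1 v (mem_range.2 hv)
  have h3' : ∀ v < n, ∀ w < n, v ∉ core d n H → w ∉ core d n H → ρ v = ρ w → v = w :=
    fun v hv w hw => h3 v (mem_range.2 hv) w (mem_range.2 hw)
  have h4' : ∀ v < n, v ∉ core d n H →
      ((nb n H v).filter (fun w => ρ v < ρ w)).card ≤ d := by
    intro v hv hc
    have h5 := h4 v (mem_range.2 hv) hc
    rwa [inter_eq_left.2 (nb_subset n H v)] at h5
  -- the relation
  let rel : ℕ → ℕ → Prop := fun a b => a ∉ core d n H ∧
    b ∈ (nb n H a).filter (fun w => ρ a < ρ w)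
  have hT : ∀ v, Relation.ReflTransGen rel z v → v ∈ R0 := by
    intro v hv
    induction hv with
    | refl => exact hz
    | tail _ hbc ih =>
      exact (R.m14_later hd hH h1' h2 h3' h4' hR hclq hcore hmax ih hbc.1).1 hbc.2
  set A : Finset ℕ := core d n G ∪ (range n).filter (fun v => Relation.ReflTransGen rel z v)
    with hA
  have hcc : core d n H ⊆ core d n G := core_mono hHG
  have hAsub : A ⊆ range n := union_subset (core_subset d n G) (filter_subset _ _)
  have hAcore : A ⊆ core d n G := by
    refine subset_core hAsub fun v hv => ?_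
    by_cases hvG : v ∈ core d n G
    · exact (core_deg hvG).trans (card_le_card (inter_subset_inter_left subset_union_left))
    · have hv2 : v < n ∧ Relation.ReflTransGen rel z v := by
        rw [hA, mem_union, mem_filter, mem_range] at hv
        rcases hv with hv | hv
        · exact absurd hv hvG
        · exact hv
      have hvH : v ∉ core d n H := fun h => hvG (hcc h)
      have hD := R.m14_later hd hH h1' h2 h3' h4' hR hclq hcore hmax (hT v hv2.2) hvH
      -- one more neighbour
      obtain ⟨x, hxG, hxA, hxD⟩ : ∃ x, x ∈ nb n G v ∧ x ∈ A ∧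
          x ∉ (nb n H v).filter (fun w => ρ v < ρ w) := by
        rcases Relation.ReflTransGen.cases_tail hv2.2 with hvz | ⟨c, hc1, hc2⟩
        · refine ⟨u, ?_, ?_, ?_⟩
          · rw [mem_nb]
            refine ⟨mem_range.1 (core_subset d n G hu), ?_⟩
            rw [hvz, Sym2.eq_swap]
            exact huz
          · rw [hA]
            exact mem_union_left _ hu
          · intro hx
            rw [mem_filter, mem_nb, hHdef, mem_del] at hx
            exact hx.1.2.2 u (Sym2.mem_mk_right v u) huW
        · have hcn : c < n := mem_range.1 (hR (hT c hc1))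
          have hc3 := hc2.2
          rw [mem_filter, mem_nb] at hc3
          refine ⟨c, ?_, ?_, ?_⟩
          · rw [mem_nb]
            refine ⟨hcn, ?_⟩
            rw [Sym2.eq_swap]
            exact hHG hc3.1.2
          · rw [hA, mem_union, mem_filter, mem_range]
            exact Or.inr ⟨hcn, hc1⟩
          · intro hx
            rw [mem_filter] at hx
            have h5 := hx.2
            have h6 := hc3.2
            omega
      have hins : insert x ((nb n H v).filter (fun w => ρ v < ρ w)) ⊆ nb n G v ∩ A := by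
        intro y hy
        rcases mem_insert.1 hy with rfl | hy
        · exact mem_inter.2 ⟨hxG, hxA⟩
        · rw [mem_inter]
          refine ⟨nb_mono hHG v (mem_filter.1 hy).1, ?_⟩
          rw [hA, mem_union, mem_filter, mem_range]
          right
          refine ⟨(mem_nb.1 (mem_filter.1 hy).1).1, hv2.2.tail ⟨hvH, hy⟩⟩
      have h7 := card_le_card hins
      rw [card_insert_of_notMem hxD] at h7
      have h8 := hD.2
      omega
  refine hAcore ?_
  rw [hA, mem_union, mem_filter]
  exact Or.inr ⟨hR hz, Relation.ReflTransGen.refl⟩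

end Pool.Agent.Helper55.ML
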