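import Pool.Agent.Helper55.ML.G2
import Pool.Agent.Helper55.ML.M14
import Pool.Agent.Helper55.ML.H2

set_option autoImplicit false
open Finset Filter Topology

namespace Pool.Agent.Helper55.ML

/-- L1 (hint): by `core_rest` (with `R0 = R.Y (x-η) n (del W G)`, `Gd_Y`, `Y_max`), `nb u ∩ Y(del W G) ⊆ core \ W` for `u ∈ W ∩ core`. So a vertex `u`
of core degree at most `(internal degree) + d - 1` satisfies the condition of a pre-structure. -/
theorem Rig.pre_of_deg {d t : ℕ} (R : Rig d t) (hd : 1 ≤ d) {x η ε : ℝ} {k : ℕ} (hk : 1 ≤ k)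
    (hη : 0 < η) (hε : 0 < ε)
    (hx : 4 * (η + ε) ≤ x) : ∃ n0 : ℕ, ∀ n : ℕ, n0 ≤ n → ∀ G : Finset (Sym2 ℕ), G ⊆ En n →
      R.Gd x η ε k n G → ∀ W : Finset ℕ, W ⊆ core d n G → W.card ≤ (Nat.log 2 n) ^ 3 →
        ∀ u ∈ W, (nb n G u ∩ core d n G).card + 1 ≤ (nb n G u ∩ W).card + d →
          (nb n G u ∩ R.Y (x - η) n (del W G)).card + 1 ≤ d := by
  obtain ⟨n0, hn0⟩ := R.Gd_Y hd hk hη hε hx
  refine ⟨n0, fun n hn G hG hGd W hW hcard u hu hdeg => ?_⟩
  have hcard4 : W.card ≤ (Nat.log 2 n) ^ 4 := by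
    refine le_trans hcard ?_
    rcases Nat.eq_zero_or_pos (Nat.log 2 n) with h | h
    · rw [h]; norm_num
    · exact Nat.pow_le_pow_right h (by norm_num)
  obtain ⟨h1, _, h3, h4, _, h6, h7⟩ := hn0 n hn G hG hGd W (hW.trans (core_subset d n G)) hcard4
  set Y := R.Y (x - η) n (del W G) with hY
  have hmax : ∀ y < n, y ∉ Y → ¬ R.Clq (del W G) (insert y Y) :=
    fun y hy hyY => R.Y_max h3 hy hyY
  have hsub : nb n G u ∩ Y ⊆ (nb n G u ∩ core d n G) \ (nb n G u ∩ W) := by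
    intro z hz
    rw [Finset.mem_inter] at hz
    rw [Finset.mem_sdiff, Finset.mem_inter, Finset.mem_inter]
    have h7' : d ≤ (Y ∩ core d n (del W G)).card := le_trans (Nat.le_add_right d 2) h7
    have hzc : z ∈ core d n G :=
      R.core_rest hd hG (hW hu) hu (R.Y_subset) h1 h6 h7' hmax hz.2 (mem_nb.1 hz.1).2
    refine ⟨⟨hz.1, hzc⟩, fun h => ?_⟩
    exact (Finset.mem_sdiff.1 (h4 (Finset.mem_union_left _ hz.2))).2 h.2
  have hsub2 : nb n G u ∩ W ⊆ nb n G u ∩ core d n G := Finset.inter_subset_inter_left hW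
  have h5 := Finset.card_le_card hsub
  rw [Finset.card_sdiff_of_subset hsub2] at h5
  have h8 := Finset.card_le_card hsub2
  omega

/-- (hint) Weak sets contain small weak induced cycles: `exists_induced_cycle`; a long cycle contains
a connected subset of `C3 log n + 1` vertices, all but three of which satisfy the condition
(`few_ends`), contradicting `K1` with `C0 ≥ 3`. -/
theorem Rig.weak_cycle {d t : ℕ} (R : Rig d t) (hd : 1 ≤ d) {x η ε : ℝ} {k C0 C3 : ℕ} (hk : 1 ≤ k)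
    (hη : 0 < η) (hε : 0 < ε) (hC0 : 8 ≤ C0)
    (hx : 4 * (η + ε) ≤ x) : ∃ n0 : ℕ, ∀ n : ℕ, n0 ≤ n → ∀ G : Finset (Sym2 ℕ), G ⊆ En n →
      R.Gd x η ε k n G → R.K1 x η C0 C3 n G → ∀ S : Finset ℕ, Weak d n G S →
        ∃ T ⊆ S, Weak d n G T ∧ Conn G T ∧ (∀ u ∈ T, (nb n G u ∩ T).card = 2) ∧
          T.card ≤ C3 * Nat.log 2 n := by
  obtain ⟨n1, hn1⟩ := R.pre_of_deg hd hk hη hε hx
  refine ⟨max n1 (2 ^ (C3 + 1)), fun n hn G hG hGd hK1 S hS => ?_⟩
  have hp := hn1 n (le_trans (le_max_left _ _) hn) G hG hGd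
  have hn3 : 2 ^ (C3 + 1) ≤ n := le_trans (le_max_right _ _) hn
  have hl1 : C3 + 1 ≤ Nat.log 2 n := Nat.le_log_of_pow_le (by norm_num) hn3
  have hsize : C3 * Nat.log 2 n + 1 ≤ (Nat.log 2 n) ^ 3 := by
    set l := Nat.log 2 n
    have h1 : C3 * l + 1 ≤ (C3 + 1) * l := by nlinarith
    have h2 : (C3 + 1) * l ≤ l * l := Nat.mul_le_mul_right l hl1
    have h3 : l * l ≤ l ^ 3 := by
      have : l ^ 3 = l * l * l := by ring
      rw [this]
      exact Nat.le_mul_of_pos_right _ (by omega)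
    omega
  obtain ⟨hSc, hSne, hS2, b, hb⟩ := hS
  have hSr : S ⊆ range n := hSc.trans (core_subset d n G)
  obtain ⟨T, hTS, hTc, hT2⟩ := exists_induced_cycle hG hSr hSne hS2
  refine ⟨T, hTS, ⟨hTS.trans hSc, hTc.1, fun u hu => (hT2 u hu).ge, b,
    fun u hu hub => hb u (hTS hu) hub⟩, hTc, hT2, ?_⟩
  by_contra hcon
  push Not at hcon
  obtain ⟨v, hv⟩ := hTc.1
  obtain ⟨W, hWT, hvW, hWc, hWcard⟩ := Conn.exists_subset hTc hv
    (k := C3 * Nat.log 2 n + 1) (by omega) (by omega)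
  have hTr : T ⊆ range n := hTS.trans hSr
  have hends := few_ends hG hTr hWT hWc (fun u hu => (hT2 u hu).le)
  have hWcore : W ⊆ core d n G := hWT.trans (hTS.trans hSc)
  have hWcard3 : W.card ≤ (Nat.log 2 n) ^ 3 := by omega
  set Z : Finset ℕ := (({b} : Finset ℕ) ∩ W) ∪ W.filter (fun u => (nb n G u ∩ W).card ≤ 1)
    with hZ
  have hZW : Z ⊆ W := Finset.union_subset Finset.inter_subset_right (Finset.filter_subset _ _)
  have hZcard : Z.card ≤ 3 := by
    have h1 : Z.card ≤ (({b} : Finset ℕ) ∩ W).card +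
      (W.filter (fun u => (nb n G u ∩ W).card ≤ 1)).card := Finset.card_union_le _ _
    have h2 : (({b} : Finset ℕ) ∩ W).card ≤ 1 :=
      le_trans (Finset.card_le_card Finset.inter_subset_left) (by simp)
    omega
  have hpre : R.Pre x η n G W Z := by
    refine ⟨hWcore.trans (core_subset d n G), hZW, hWc, fun u hu => ?_⟩
    rw [Finset.mem_sdiff] at hu
    have hu1 : u ≠ b := fun h => hu.2 (by
      rw [hZ, Finset.mem_union]
      exact Or.inl (Finset.mem_inter.2 ⟨by simp [h], hu.1⟩))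
    have hu2 : ¬ (nb n G u ∩ W).card ≤ 1 := fun h => hu.2 (by
      rw [hZ, Finset.mem_union]
      exact Or.inr (Finset.mem_filter.2 ⟨hu.1, h⟩))
    refine ⟨hWcore hu.1, hp W hWcore hWcard3 u hu.1 ?_⟩
    rw [hb u (hTS (hWT hu.1)) hu1]
    omega
  have hexc := Conn.exc_ge (fun e he => (mem_En.1 (hG he)).2) hWc
  have hZ2 : (Z.card : ℤ) ≤ C0 * (exc G W + 2) := by
    have h3 : (8 : ℤ) ≤ (C0 : ℤ) := by exact_mod_cast hC0
    have h4 : (Z.card : ℤ) ≤ 3 := by exact_mod_cast hZcard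
    nlinarith
  have := (hK1 W Z hpre hWcard3 hZ2).2
  omega

end Pool.Agent.Helper55.ML
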