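import Pool.Agent.Helper55.ML.L2c

set_option autoImplicit false
open Finset Filter Topology

namespace Pool.Agent.Helper55.ML

/-- L2 (LA): `Λ = Lam0`. -/
theorem Rig.exists_Lam {d t : ℕ} (R : Rig d t) (hd : 2 ≤ d) {x η ε : ℝ} {k C0 C3 : ℕ} (hk : 1 ≤ k)
    (hη : 0 < η) (hε : 0 < ε) (hC0 : 8 ≤ C0) (hx : 4 * (η + ε) ≤ x) :
    ∃ n0 : ℕ, ∀ n : ℕ, n0 ≤ n → ∀ G : Finset (Sym2 ℕ), G ⊆ En n →
      R.Gd x η ε k n G → R.K1 x η C0 C3 n G → (R.pairs x η C0 n G).card ≤ Nat.log 2 n →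
        ∃ Lam : Finset ℕ, Lam ⊆ range n ∧ Lam.card ≤ (ins Lam G).card ∧
          Lam.card ≤ C0 * (R.pairs x η C0 n G).card ∧ ∀ S, ¬ Weak d n (del Lam G) S := by
  obtain ⟨n1, h1⟩ := R.Uset_card hd hk hη hε hC0 hx (C3 := C3)
  obtain ⟨n2, h2⟩ := R.no_weak_del hd hk hη hε hC0 hx (C3 := C3)
  refine ⟨max n1 n2, fun n hn G hG hGd hK hp => ⟨Lam0 d n G, ?_,
    Lam0_edges hG, ?_, h2 n (le_trans (le_max_right _ _) hn) G hG hGd hK hp⟩⟩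
  · intro v hv
    exact Finset.mem_range.2 (mem_Lam0.1 hv).1
  exact le_trans (Finset.card_le_card Lam0_sub_Uset)
    (h1 n (le_trans (le_max_left _ _) hn) G hG hGd hK)

end Pool.Agent.Helper55.ML
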