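import Pool.Agent.Helper55.ML.L0
import Pool.Agent.Helper55.ML.L1

set_option autoImplicit false
open Finset Filter Topology

namespace Pool.Agent.Helper55.ML

private theorem l2a_not_diag {n : ℕ} {G : Finset (Sym2 ℕ)} (hG : G ⊆ En n) :
    ∀ e ∈ G, ¬ e.IsDiag := fun _ he => (mem_En.1 (hG he)).2

private theorem l2a_exc_empty {n : ℕ} {G : Finset (Sym2 ℕ)} (hG : G ⊆ En n) : exc G ∅ = 0 := by
  unfold exc
  have h : ins ∅ G = ∅ := by
    rw [Finset.eq_empty_iff_forall_notMem]
    intro e he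
    rw [mem_ins] at he
    obtain ⟨h1, h2⟩ := he
    induction e with
    | _ a b => exact absurd (h2 a (Sym2.mem_mk_left a b)) (Finset.notMem_empty a)
  rw [h]; simp

private theorem l2a_nb_symm {n : ℕ} {G : Finset (Sym2 ℕ)} (hG : G ⊆ En n) {u v : ℕ}
    (h : u ∈ nb n G v) : v ∈ nb n G u := by
  rw [mem_nb] at h ⊢
  have h2 := mk_mem_En.1 (hG h.2)
  exact ⟨h2.1, by rw [Sym2.eq_swap]; exact h.2⟩

/-- Pre-structures from degrees. -/
private theorem l2a_pre {d t : ℕ} (R : Rig d t) {x η : ℝ} {n : ℕ} {G : Finset (Sym2 ℕ)}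
    (hp : ∀ W : Finset ℕ, W ⊆ core d n G → W.card ≤ (Nat.log 2 n) ^ 3 →
        ∀ u ∈ W, (nb n G u ∩ core d n G).card + 1 ≤ (nb n G u ∩ W).card + d →
          (nb n G u ∩ R.Y (x - η) n (del W G)).card + 1 ≤ d)
    {W Z : Finset ℕ} (hW : W ⊆ core d n G) (hZ : Z ⊆ W) (hc : Conn G W)
    (hcard : W.card ≤ (Nat.log 2 n) ^ 3)
    (h : ∀ u ∈ W \ Z, (nb n G u ∩ core d n G).card + 1 ≤ (nb n G u ∩ W).card + d) :
    R.Pre x η n G W Z := by
  refine ⟨hW.trans (core_subset d n G), hZ, hc, fun u hu => ⟨hW (Finset.mem_sdiff.1 hu).1, ?_⟩⟩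
  exact hp W hW hcard u (Finset.mem_sdiff.1 hu).1 (h u hu)

/-- A weak cycle is a flower of each of its vertices, and it is small. -/
private theorem l2a_wcyc {d n : ℕ} {G : Finset (Sym2 ℕ)} (hG : G ⊆ En n)
    {m : ℕ} (hw : ∀ S : Finset ℕ, Weak d n G S →
        ∃ T ⊆ S, Weak d n G T ∧ Conn G T ∧ (∀ u ∈ T, (nb n G u ∩ T).card = 2) ∧
          T.card ≤ m)
    {T : Finset ℕ} (hT : WCyc d n G T) {z : ℕ} (hz : z ∈ T) :
    ∃ b, Flower d n G T z b ∧ T.card ≤ m := by
  obtain ⟨hweak, hconn, hdeg⟩ := hT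
  obtain ⟨hTc, hTne, _, b, hb⟩ := id hweak
  have hTr : T ⊆ range n := hTc.trans (core_subset d n G)
  have hexc : exc G T = 0 := by
    have h := sum_deg hG hTr
    have h2 : (∑ u ∈ T, ((nb n G u ∩ T).card : ℤ)) = ∑ u ∈ T, (2 : ℤ) :=
      Finset.sum_congr rfl (fun u hu => by rw [hdeg u hu]; rfl)
    rw [h2, Finset.sum_const, nsmul_eq_mul] at h
    linarith
  refine ⟨b, ⟨hz, hTc, hconn, hexc, ?_, ?_⟩, ?_⟩
  · intro u hu hub _
    rw [hb u hu hub, hdeg u hu]; omega
  · intro hzb
    rw [hb z hz hzb, hdeg z hz]; omega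
  · obtain ⟨T', hT'T, hT'w, hT'c, hT'd, hT'card⟩ := hw T hweak
    by_cases heq : T' = T
    · rw [← heq]; exact hT'card
    · exfalso
      obtain ⟨a, ha, b', hb', hab⟩ := hconn.2 T' hT'T hT'c.1 heq
      rw [Finset.mem_sdiff] at hb'
      have h1 : insert b' (nb n G a ∩ T') ⊆ nb n G a ∩ T := by
        intro y hy
        rcases Finset.mem_insert.1 hy with rfl | hy
        · rw [Finset.mem_inter, mem_nb]
          exact ⟨⟨Finset.mem_range.1 (hTr hb'.1), hab⟩, hb'.1⟩
        · rw [Finset.mem_inter] at hy ⊢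
          exact ⟨hy.1, hT'T hy.2⟩
      have h2 := Finset.card_le_card h1
      rw [Finset.card_insert_of_notMem (fun h => hb'.2 (Finset.mem_inter.1 h).2), hT'd a ha,
        hdeg a (hT'T ha)] at h2
      omega

private theorem l2a_nb_mono_right {n u : ℕ} {G : Finset (Sym2 ℕ)} {A B : Finset ℕ} (h : A ⊆ B) :
    (nb n G u ∩ A).card ≤ (nb n G u ∩ B).card :=
  Finset.card_le_card (Finset.inter_subset_inter_left h)

private theorem l2a_nb_insert {n u w : ℕ} {G : Finset (Sym2 ℕ)} {A B : Finset ℕ} (h : A ⊆ B)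
    (hw : w ∈ nb n G u) (hwB : w ∈ B) (hwA : w ∉ A) :
    (nb n G u ∩ A).card + 1 ≤ (nb n G u ∩ B).card := by
  rw [← Finset.card_insert_of_notMem (fun h => hwA (Finset.mem_inter.1 h).2)]
  refine Finset.card_le_card ?_
  intro y hy
  rcases Finset.mem_insert.1 hy with rfl | hy
  · exact Finset.mem_inter.2 ⟨hw, hwB⟩
  · rw [Finset.mem_inter] at hy ⊢
    exact ⟨hy.1, h hy.2⟩

/-- Degree condition in a bigger set containing an outer neighbour of `z`. -/
private theorem l2a_cond {d n : ℕ} {G : Finset (Sym2 ℕ)} {F W : Finset ℕ} {z b w : ℕ}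
    (hF : Flower d n G F z b) (hFW : F ⊆ W) (hw : w ∈ nb n G z) (hwW : w ∈ W) (hwF : w ∉ F)
    {u : ℕ} (hu : u ∈ F) (hub : u ≠ b) :
    (nb n G u ∩ core d n G).card + 1 ≤ (nb n G u ∩ W).card + d := by
  by_cases huz : u = z
  · subst huz
    have h1 := hF.2.2.2.2.2 hub
    have h2 := l2a_nb_insert hFW hw hwW hwF
    omega
  · have h1 := hF.2.2.2.2.1 u hu hub huz
    have h2 : (nb n G u ∩ F).card ≤ (nb n G u ∩ W).card := l2a_nb_mono_right hFW
    omega

/-- L2a (flowers; hint, details in `/team-store/ML_hints.md`). Call `U' ⊆ Uset` good if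
`Lam0 ⊆ U'` and every `z ∈ U'` has a flower `F ⊆ U'` with `|F| ≤ C3 log n`. `Lam0` is good (weak cycles).
Let `U'` be good of maximal size; if `U' ≠ Uset` there is `w ∈ core G \ U'` with at most `d` neighbours
in `core G \ U'` (otherwise `core G \ U' ⊆ core (del Lam0 G)`), so `w ∈ Uset` has a neighbour in `U'`.
Two neighbours `z ≠ z'` in `U'`: `W = F_z ∪ F_z' ∪ {w}` is connected, `exc W ≥ 1`, and a
pre-structure with exceptional set contained in `{b_z, b_z', w}` (`pre_of_deg`): contradiction to K1.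
Exactly one neighbour `z`: `w` has core degree `d+1` and `F_z ∪ {w}` is a flower of `w`, of size at most
`C3 log n` by K1 (exceptional set `{b_z, w}`): contradiction to maximality. -/
theorem Rig.flowers {d t : ℕ} (R : Rig d t) (hd : 2 ≤ d) {x η ε : ℝ} {k C0 C3 : ℕ} (hk : 1 ≤ k)
    (hη : 0 < η) (hε : 0 < ε) (hC0 : 8 ≤ C0) (hx : 4 * (η + ε) ≤ x) :
    ∃ n0 : ℕ, ∀ n : ℕ, n0 ≤ n → ∀ G : Finset (Sym2 ℕ), G ⊆ En n →
      R.Gd x η ε k n G → R.K1 x η C0 C3 n G →
        ∀ z ∈ Uset d n G, ∃ (F : Finset ℕ) (b : ℕ), F ⊆ Uset d n G ∧ Flower d n G F z b ∧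
          F.card ≤ C3 * Nat.log 2 n := by
  obtain ⟨n1, hn1⟩ := R.pre_of_deg (by omega : 1 ≤ d) hk hη hε hx
  obtain ⟨n2, hn2⟩ := R.weak_cycle (C0 := C0) (C3 := C3) (by omega : 1 ≤ d) hk hη hε hC0 hx
  refine ⟨max (max n1 n2) (2 ^ (2 * C3 + 1)), fun n hn G hG hGd hK1 => ?_⟩
  have hn1' : n1 ≤ n := le_trans (le_trans (le_max_left _ _) (le_max_left _ _)) hn
  have hn2' : n2 ≤ n := le_trans (le_trans (le_max_right _ _) (le_max_left _ _)) hn
  have hn3 : 2 ^ (2 * C3 + 1) ≤ n := le_trans (le_max_right _ _) hn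
  have hp := hn1 n hn1' G hG hGd
  have hw := hn2 n hn2' G hG hGd hK1
  set l := Nat.log 2 n with hl
  have hl1 : 2 * C3 + 1 ≤ l := Nat.le_log_of_pow_le (by norm_num) hn3
  have hsize : 2 * (C3 * l) + 1 ≤ l ^ 3 := by
    have h1 : 2 * (C3 * l) + 1 ≤ (2 * C3 + 1) * l := by nlinarith
    have h2 : (2 * C3 + 1) * l ≤ l * l := Nat.mul_le_mul_right l hl1
    have h3 : l * l ≤ l ^ 3 := by
      have : l ^ 3 = l * l * l := by ring
      rw [this]
      exact Nat.le_mul_of_pos_right _ (by omega)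
    omega
  -- basic facts on `Lam0` and `Uset`
  have hUcore : Uset d n G ⊆ core d n G := Finset.sdiff_subset
  have hLamU : Lam0 d n G ⊆ Uset d n G := by
    intro v hv
    obtain ⟨hvn, T, hvT, hT⟩ := mem_Lam0.1 hv
    unfold Uset
    rw [Finset.mem_sdiff]
    refine ⟨hT.1.1 hvT, fun hvc => ?_⟩
    have h1 := core_deg hvc
    have h2 : (nb n (del (Lam0 d n G) G) v ∩ core d n (del (Lam0 d n G) G)).Nonempty := by
      rw [← Finset.card_pos]; omega
    obtain ⟨u, hu⟩ := h2
    have h3 := (mem_nb.1 (Finset.mem_inter.1 hu).1).2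
    exact (mem_del.1 h3).2 v (Sym2.mem_mk_left v u) hv
  -- good sets
  let Good : Finset ℕ → Prop := fun U' => Lam0 d n G ⊆ U' ∧ U' ⊆ Uset d n G ∧
    ∀ z ∈ U', ∃ (F : Finset ℕ) (b : ℕ), F ⊆ U' ∧ Flower d n G F z b ∧ F.card ≤ C3 * l
  have hgood0 : Good (Lam0 d n G) := by
    refine ⟨subset_rfl, hLamU, fun z hz => ?_⟩
    obtain ⟨_, T, hzT, hT⟩ := mem_Lam0.1 hz
    obtain ⟨b, hb, hcard⟩ := l2a_wcyc hG hw hT hzT
    refine ⟨T, b, fun y hy => ?_, hb, hcard⟩
    exact mem_Lam0.2 ⟨Finset.mem_range.1 (core_subset d n G (hT.1.1 hy)), T, hy, hT⟩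
  -- maximal good set
  classical
  obtain ⟨U', hU', hmax⟩ := Finset.exists_max_image
    ((Uset d n G).powerset.filter Good) Finset.card
    ⟨Lam0 d n G, Finset.mem_filter.2 ⟨Finset.mem_powerset.2 hLamU, hgood0⟩⟩
  obtain ⟨hU'L, hU'U, hU'F⟩ := (Finset.mem_filter.1 hU').2
  by_cases heq : U' = Uset d n G
  · intro z hz
    rw [← heq] at hz
    obtain ⟨F, b, h1, h2, h3⟩ := hU'F z hz
    exact ⟨F, b, h1.trans hU'U, h2, h3⟩
  exfalso
  obtain ⟨w0, hw0, hw0'⟩ : ∃ w0 ∈ Uset d n G, w0 ∉ U' := by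
    by_contra hcon
    push Not at hcon
    exact heq (Finset.Subset.antisymm hU'U hcon)
  set H := del (Lam0 d n G) G with hH
  set V' := core d n G \ U' with hV'
  have hcoreH : core d n H ⊆ V' := by
    intro v hv
    rw [hV', Finset.mem_sdiff]
    refine ⟨core_mono (del_subset _ _) hv, fun hvU => ?_⟩
    have := hU'U hvU
    unfold Uset at this
    exact (Finset.mem_sdiff.1 this).2 hv
  have hV'range : V' ⊆ range n := Finset.sdiff_subset.trans (core_subset d n G)
  have hnbH : ∀ v ∈ V', nb n H v ∩ V' = nb n G v ∩ V' := by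
    intro v hv
    ext y
    rw [Finset.mem_inter, Finset.mem_inter, mem_nb, mem_nb, hH, mem_del]
    constructor
    · rintro ⟨⟨h1, h2, _⟩, h3⟩
      exact ⟨⟨h1, h2⟩, h3⟩
    · rintro ⟨⟨h1, h2⟩, h3⟩
      refine ⟨⟨h1, h2, fun a ha haL => ?_⟩, h3⟩
      rw [hV', Finset.mem_sdiff] at hv h3
      rcases Sym2.mem_iff.1 ha with rfl | rfl
      · exact hv.2 (hU'L haL)
      · exact h3.2 (hU'L haL)
  obtain ⟨w, hwV, hwdeg⟩ : ∃ w ∈ V', (nb n G w ∩ V').card ≤ d := by
    by_contra hcon
    push Not at hcon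
    have hsub : V' ⊆ core d n H := by
      refine subset_core hV'range (fun u hu => ?_)
      rw [hnbH u hu]
      exact hcon u hu
    have hw0V : w0 ∈ V' := by
      rw [hV', Finset.mem_sdiff]
      exact ⟨hUcore hw0, hw0'⟩
    have := hsub hw0V
    unfold Uset at hw0
    exact (Finset.mem_sdiff.1 hw0).2 this
  have hwcore : w ∈ core d n G := (Finset.mem_sdiff.1 hwV).1
  have hwU' : w ∉ U' := (Finset.mem_sdiff.1 hwV).2
  have hwn : w < n := Finset.mem_range.1 (core_subset d n G hwcore)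
  have hwU : w ∈ Uset d n G := by
    unfold Uset
    rw [Finset.mem_sdiff]
    refine ⟨hwcore, fun hwH => ?_⟩
    have h1 : d + 1 ≤ (nb n H w ∩ core d n H).card := core_deg hwH
    have h2 : nb n H w ∩ core d n H ⊆ nb n G w ∩ V' := by
      rw [← hnbH w hwV]
      exact Finset.inter_subset_inter_left hcoreH
    have := Finset.card_le_card h2
    omega
  have hsplit : (nb n G w ∩ core d n G).card = (nb n G w ∩ V').card + (nb n G w ∩ U').card := by
    rw [← Finset.card_union_of_disjoint]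
    · congr 1
      ext y
      simp only [Finset.mem_inter, Finset.mem_union, hV', Finset.mem_sdiff]
      constructor
      · rintro ⟨h1, h2⟩
        by_cases hy : y ∈ U'
        · exact Or.inr ⟨h1, hy⟩
        · exact Or.inl ⟨h1, h2, hy⟩
      · rintro (⟨h1, h2, _⟩ | ⟨h1, h2⟩)
        · exact ⟨h1, h2⟩
        · exact ⟨h1, hUcore (hU'U h2)⟩
    · rw [Finset.disjoint_left]
      intro y hy hy'
      rw [Finset.mem_inter, hV', Finset.mem_sdiff] at hy
      exact hy.2.2 (Finset.mem_inter.1 hy').2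
  have hdegw := core_deg hwcore
  have hpos : 1 ≤ (nb n G w ∩ U').card := by omega
  -- main case distinction
  by_cases htwo : 2 ≤ (nb n G w ∩ U').card
  · -- two neighbours
    obtain ⟨z, hz, z', hz', hzz'⟩ := Finset.one_lt_card.1 (by omega : 1 < (nb n G w ∩ U').card)
    rw [Finset.mem_inter] at hz hz'
    obtain ⟨F, b, hFU, hF, hFcard⟩ := hU'F z hz.2
    obtain ⟨F', b', hF'U, hF', hF'card⟩ := hU'F z' hz'.2
    have hwF : w ∉ F := fun h => hwU' (hFU h)
    have hwF' : w ∉ F' := fun h => hwU' (hF'U h)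
    have hwA : w ∉ F ∪ F' := fun h => by
      rcases Finset.mem_union.1 h with h | h
      · exact hwF h
      · exact hwF' h
    have hFr : F ⊆ range n := hF.2.1.trans (core_subset d n G)
    have hF'r : F' ⊆ range n := hF'.2.1.trans (core_subset d n G)
    have hexcA : 0 ≤ exc G (F ∪ F') := by
      have h1 := exc_submod G F F'
      rw [hF.2.2.2.1, hF'.2.2.2.1] at h1
      have h2 : exc G (F ∩ F') ≤ 0 := by
        rcases Finset.eq_empty_or_nonempty (F ∩ F') with h | h
        · rw [h, l2a_exc_empty hG]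
        · have := Conn.exc_mono (l2a_not_diag hG) hF.2.2.1 Finset.inter_subset_left h
          rw [hF.2.2.2.1] at this
          exact this
      linarith
    have hAr : F ∪ F' ⊆ range n := Finset.union_subset hFr hF'r
    have hexcW : 1 ≤ exc G (insert w (F ∪ F')) := by
      rw [exc_insert hG hwA hAr]
      have : 2 ≤ (nb n G w ∩ (F ∪ F')).card := by
        have h1 : ({z, z'} : Finset ℕ) ⊆ nb n G w ∩ (F ∪ F') := by
          intro y hy
          rw [Finset.mem_insert, Finset.mem_singleton] at hy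
          rcases hy with rfl | rfl
          · exact Finset.mem_inter.2 ⟨hz.1, Finset.mem_union_left _ hF.1⟩
          · exact Finset.mem_inter.2 ⟨hz'.1, Finset.mem_union_right _ hF'.1⟩
        have h2 := Finset.card_le_card h1
        rwa [Finset.card_pair hzz'] at h2
      have h3 : (2 : ℤ) ≤ ((nb n G w ∩ (F ∪ F')).card : ℤ) := by exact_mod_cast this
      linarith
    have hWeq : insert w (F ∪ F') = (F ∪ {w}) ∪ F' := by
      ext y; simp only [Finset.mem_insert, Finset.mem_union, Finset.mem_singleton]; tauto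
    have hz_sym := l2a_nb_symm hG hz.1
    have hz'_sym := l2a_nb_symm hG hz'.1
    have hconn : Conn G (insert w (F ∪ F')) := by
      rw [hWeq]
      refine Conn.union (Conn.union hF.2.2.1 (Conn.singleton G w) (Or.inr ?_)) hF'.2.2.1
        (Or.inr ?_)
      · exact ⟨z, hF.1, w, Finset.mem_singleton_self w, (mem_nb.1 hz_sym).2⟩
      · exact ⟨w, Finset.mem_union_right _ (Finset.mem_singleton_self w), z', hF'.1,
          (mem_nb.1 hz'.1).2⟩
    have hWcore : insert w (F ∪ F') ⊆ core d n G := by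
      intro y hy
      rcases Finset.mem_insert.1 hy with rfl | hy
      · exact hwcore
      · rcases Finset.mem_union.1 hy with hy | hy
        · exact hF.2.1 hy
        · exact hF'.2.1 hy
    have hWcard : (insert w (F ∪ F')).card ≤ l ^ 3 := by
      rw [Finset.card_insert_of_notMem hwA]
      have := Finset.card_union_le F F'
      omega
    have hZsub : ({b, b', w} : Finset ℕ) ∩ insert w (F ∪ F') ⊆ insert w (F ∪ F') :=
      Finset.inter_subset_right
    have hpre : R.Pre x η n G (insert w (F ∪ F')) (({b, b', w} : Finset ℕ) ∩ insert w (F ∪ F')) := by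
      refine l2a_pre R hp hWcore hZsub hconn hWcard (fun u hu => ?_)
      rw [Finset.mem_sdiff] at hu
      obtain ⟨huW, huZ⟩ := hu
      have hu1 : u ≠ b := fun h => huZ (Finset.mem_inter.2 ⟨by simp [h], huW⟩)
      have hu2 : u ≠ b' := fun h => huZ (Finset.mem_inter.2 ⟨by simp [h], huW⟩)
      have hu3 : u ≠ w := fun h => huZ (Finset.mem_inter.2 ⟨by simp [h], huW⟩)
      have hFW : F ⊆ insert w (F ∪ F') :=
        fun y hy => Finset.mem_insert_of_mem (Finset.mem_union_left _ hy)
      have hF'W : F' ⊆ insert w (F ∪ F') :=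
        fun y hy => Finset.mem_insert_of_mem (Finset.mem_union_right _ hy)
      rcases Finset.mem_insert.1 huW with h | h
      · exact absurd h hu3
      · rcases Finset.mem_union.1 h with h | h
        · exact l2a_cond hF hFW hz_sym (Finset.mem_insert_self w _) hwF h hu1
        · exact l2a_cond hF' hF'W hz'_sym (Finset.mem_insert_self w _) hwF' h hu2
    have hZcard : ((({b, b', w} : Finset ℕ) ∩ insert w (F ∪ F')).card : ℤ) ≤
        C0 * (exc G (insert w (F ∪ F')) + 2) := by
      have h1 : (({b, b', w} : Finset ℕ) ∩ insert w (F ∪ F')).card ≤ 3 :=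
        le_trans (Finset.card_le_card Finset.inter_subset_left) Finset.card_le_three
      have h2 : ((({b, b', w} : Finset ℕ) ∩ insert w (F ∪ F')).card : ℤ) ≤ 3 := by
        exact_mod_cast h1
      have h3 : (8 : ℤ) ≤ (C0 : ℤ) := by exact_mod_cast hC0
      nlinarith
    have hfin := hK1 _ _ hpre hWcard hZcard
    linarith [hfin.1]
  · -- exactly one neighbour
    have hone : (nb n G w ∩ U').card = 1 := by omega
    obtain ⟨z, hz⟩ := Finset.card_eq_one.1 hone
    have hzmem : z ∈ nb n G w ∩ U' := by rw [hz]; exact Finset.mem_singleton_self z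
    rw [Finset.mem_inter] at hzmem
    obtain ⟨F, b, hFU, hF, hFcard⟩ := hU'F z hzmem.2
    have hwF : w ∉ F := fun h => hwU' (hFU h)
    have hFr : F ⊆ range n := hF.2.1.trans (core_subset d n G)
    have hz_sym := l2a_nb_symm hG hzmem.1
    have hnbF : nb n G w ∩ F = {z} := by
      apply Finset.Subset.antisymm
      · rw [← hz]; exact Finset.inter_subset_inter_left hFU
      · rw [Finset.singleton_subset_iff, Finset.mem_inter]
        exact ⟨hzmem.1, hF.1⟩
    have hexc : exc G (insert w F) = 0 := by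
      rw [exc_insert hG hwF hFr, hF.2.2.2.1, hnbF]; simp
    have hWeq : insert w F = F ∪ {w} := by
      ext y; simp only [Finset.mem_insert, Finset.mem_union, Finset.mem_singleton]; tauto
    have hconn : Conn G (insert w F) := by
      rw [hWeq]
      exact Conn.union hF.2.2.1 (Conn.singleton G w)
        (Or.inr ⟨z, hF.1, w, Finset.mem_singleton_self w, (mem_nb.1 hz_sym).2⟩)
    have hWcore : insert w F ⊆ core d n G := by
      intro y hy
      rcases Finset.mem_insert.1 hy with rfl | hy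
      · exact hwcore
      · exact hF.2.1 hy
    have hFW : F ⊆ insert w F := Finset.subset_insert w F
    have hcond : ∀ u ∈ F, u ≠ b →
        (nb n G u ∩ core d n G).card + 1 ≤ (nb n G u ∩ insert w F).card + d :=
      fun u hu hub => l2a_cond hF hFW hz_sym (Finset.mem_insert_self w _) hwF hu hub
    have hWcard : (insert w F).card ≤ l ^ 3 := by
      rw [Finset.card_insert_of_notMem hwF]; omega
    have hpre : R.Pre x η n G (insert w F) (({b, w} : Finset ℕ) ∩ insert w F) := by
      refine l2a_pre R hp hWcore Finset.inter_subset_right hconn hWcard (fun u hu => ?_)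
      rw [Finset.mem_sdiff] at hu
      obtain ⟨huW, huZ⟩ := hu
      have hu1 : u ≠ b := fun h => huZ (Finset.mem_inter.2 ⟨by simp [h], huW⟩)
      have hu3 : u ≠ w := fun h => huZ (Finset.mem_inter.2 ⟨by simp [h], huW⟩)
      rcases Finset.mem_insert.1 huW with h | h
      · exact absurd h hu3
      · exact hcond u h hu1
    have hZcard : ((({b, w} : Finset ℕ) ∩ insert w F).card : ℤ) ≤
        C0 * (exc G (insert w F) + 2) := by
      have h1 : (({b, w} : Finset ℕ) ∩ insert w F).card ≤ 2 :=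
        le_trans (Finset.card_le_card Finset.inter_subset_left) Finset.card_le_two
      have h2 : ((({b, w} : Finset ℕ) ∩ insert w F).card : ℤ) ≤ 2 := by exact_mod_cast h1
      have h3 : (8 : ℤ) ≤ (C0 : ℤ) := by exact_mod_cast hC0
      rw [hexc]; linarith
    have hfin := hK1 _ _ hpre hWcard hZcard
    have hflower : Flower d n G (insert w F) w b := by
      refine ⟨Finset.mem_insert_self w F, hWcore, hconn, hexc, ?_, ?_⟩
      · intro u hu hub huw
        rcases Finset.mem_insert.1 hu with h | h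
        · exact absurd h huw
        · exact hcond u h hub
      · intro _
        have h1 : 1 ≤ (nb n G w ∩ insert w F).card := by
          rw [Nat.one_le_iff_ne_zero, Finset.card_ne_zero]
          exact ⟨z, Finset.mem_inter.2 ⟨hzmem.1, Finset.mem_insert_of_mem hF.1⟩⟩
        omega
    have hgood : Good (insert w U') := by
      refine ⟨hU'L.trans (Finset.subset_insert w U'), ?_, ?_⟩
      · intro y hy
        rcases Finset.mem_insert.1 hy with rfl | hy
        · exact hwU
        · exact hU'U hy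
      · intro y hy
        rcases Finset.mem_insert.1 hy with rfl | hy
        · exact ⟨insert y F, b, Finset.insert_subset_insert y hFU, hflower, hfin.2⟩
        · obtain ⟨F1, b1, h1, h2, h3⟩ := hU'F y hy
          exact ⟨F1, b1, h1.trans (Finset.subset_insert w U'), h2, h3⟩
    have hle := hmax (insert w U') (Finset.mem_filter.2 ⟨Finset.mem_powerset.2 hgood.2.1, hgood⟩)
    rw [Finset.card_insert_of_notMem hwU'] at hle
    omega

end Pool.Agent.Helper55.ML
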