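import Pool.Agent.Helper55.ML.L2a

set_option autoImplicit false
open Finset Filter Topology

namespace Pool.Agent.Helper55.ML

/-- L2b (hint): `Lam0 ⊆ core`, and `Lam0` is disjoint from the core of `del Lam0 G`. -/
theorem Lam0_sub_Uset {d n : ℕ} {G : Finset (Sym2 ℕ)} : Lam0 d n G ⊆ Uset d n G := by
  intro v hv
  obtain ⟨hvn, T, hvT, hT⟩ := mem_Lam0.1 hv
  unfold Uset
  rw [Finset.mem_sdiff]
  refine ⟨hT.1.1 hvT, fun hvc => ?_⟩
  have h1 := core_deg hvc
  have h2 : (nb n (del (Lam0 d n G) G) v ∩ core d n (del (Lam0 d n G) G)).Nonempty := by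
    rw [← Finset.card_pos]; omega
  obtain ⟨u, hu⟩ := h2
  have h3 := (mem_nb.1 (Finset.mem_inter.1 hu).1).2
  exact (mem_del.1 h3).2 v (Sym2.mem_mk_left v u) hv

/-- (hint) every vertex of `Lam0` has at least two neighbours in `Lam0`: degree sum. -/
theorem Lam0_edges {d n : ℕ} {G : Finset (Sym2 ℕ)} (hG : G ⊆ En n) :
    (Lam0 d n G).card ≤ (ins (Lam0 d n G) G).card := by
  have hr : Lam0 d n G ⊆ range n := by
    intro v hv
    exact Finset.mem_range.2 (mem_Lam0.1 hv).1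
  have hdeg := sum_deg hG hr
  have htwo : ∀ u ∈ Lam0 d n G, 2 ≤ (nb n G u ∩ Lam0 d n G).card := by
    intro u hu
    obtain ⟨_, T, huT, hT⟩ := mem_Lam0.1 hu
    rw [← hT.2.2 u huT]
    refine Finset.card_le_card (Finset.inter_subset_inter_left fun y hy => ?_)
    exact mem_Lam0.2 ⟨Finset.mem_range.1 (core_subset d n G (hT.1.1 hy)), T, hy, hT⟩
  have h1 : ∑ u ∈ Lam0 d n G, (2 : ℤ) ≤
      ∑ u ∈ Lam0 d n G, ((nb n G u ∩ Lam0 d n G).card : ℤ) :=
    Finset.sum_le_sum (fun i hi => by exact_mod_cast htwo i hi)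
  rw [hdeg, Finset.sum_const, nsmul_eq_mul] at h1
  unfold exc at h1
  have h2 : ((Lam0 d n G).card : ℤ) ≤ ((ins (Lam0 d n G) G).card : ℤ) := by linarith
  exact_mod_cast h2

/-- (hint) every `z ∈ Uset` with flower `F` and exceptional `b` gives the element
`(F, {z,b} ∩ F)` of `R.pairs` (`pre_of_deg`), and `z` is in its second component; second components have
at most `C0` elements. -/
theorem Rig.Uset_card {d t : ℕ} (R : Rig d t) (hd : 2 ≤ d) {x η ε : ℝ} {k C0 C3 : ℕ} (hk : 1 ≤ k)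
    (hη : 0 < η) (hε : 0 < ε) (hC0 : 8 ≤ C0) (hx : 4 * (η + ε) ≤ x) :
    ∃ n0 : ℕ, ∀ n : ℕ, n0 ≤ n → ∀ G : Finset (Sym2 ℕ), G ⊆ En n →
      R.Gd x η ε k n G → R.K1 x η C0 C3 n G →
        (Uset d n G).card ≤ C0 * (R.pairs x η C0 n G).card := by
  classical
  obtain ⟨n1, hn1⟩ := R.pre_of_deg (by omega : 1 ≤ d) hk hη hε hx
  obtain ⟨n2, hn2⟩ := R.flowers (C0 := C0) (C3 := C3) hd hk hη hε hC0 hx
  refine ⟨max (max n1 n2) (2 ^ (C3 + 1)), fun n hn G hG hGd hK1 => ?_⟩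
  have hn1' : n1 ≤ n := le_trans (le_trans (le_max_left _ _) (le_max_left _ _)) hn
  have hn2' : n2 ≤ n := le_trans (le_trans (le_max_right _ _) (le_max_left _ _)) hn
  have hn3 : 2 ^ (C3 + 1) ≤ n := le_trans (le_max_right _ _) hn
  have hp := hn1 n hn1' G hG hGd
  have hf := hn2 n hn2' G hG hGd hK1
  have hl1 : C3 + 1 ≤ Nat.log 2 n := Nat.le_log_of_pow_le (by norm_num) hn3
  have hsize : C3 * Nat.log 2 n + 1 ≤ (Nat.log 2 n) ^ 3 := by
    set l := Nat.log 2 n
    have h1 : C3 * l + 1 ≤ (C3 + 1) * l := by nlinarith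
    have h2 : (C3 + 1) * l ≤ l * l := Nat.mul_le_mul_right l hl1
    have h3 : l * l ≤ l ^ 3 := by
      have : l ^ 3 = l * l * l := by ring
      rw [this]
      exact Nat.le_mul_of_pos_right _ (by omega)
    omega
  have hcover : Uset d n G ⊆ (R.pairs x η C0 n G).biUnion (fun q => q.2) := by
    intro z hz
    obtain ⟨F, b, hFU, hF, hFcard⟩ := hf z hz
    obtain ⟨hzF, hFc, hFconn, hFexc, hFdeg, _⟩ := hF
    have hFr : F ⊆ range n := hFc.trans (core_subset d n G)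
    have hF3 : F.card ≤ (Nat.log 2 n) ^ 3 := by omega
    rw [Finset.mem_biUnion]
    refine ⟨(F, ({z, b} : Finset ℕ) ∩ F), ?_, Finset.mem_inter.2 ⟨by simp, hzF⟩⟩
    unfold Rig.pairs
    rw [Finset.mem_filter, Finset.mem_product, Finset.mem_powerset, Finset.mem_powerset]
    refine ⟨⟨hFr, Finset.inter_subset_right.trans hFr⟩, ?_, hFexc, ?_, hF3⟩
    · refine ⟨hFr, Finset.inter_subset_right, hFconn, fun u hu => ?_⟩
      rw [Finset.mem_sdiff] at hu
      have hu1 : u ≠ z := fun h => hu.2 (Finset.mem_inter.2 ⟨by simp [h], hu.1⟩)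
      have hu2 : u ≠ b := fun h => hu.2 (Finset.mem_inter.2 ⟨by simp [h], hu.1⟩)
      exact ⟨hFc hu.1, hp F hFc hF3 u hu.1 (hFdeg u hu.1 hu2 hu1)⟩
    · have h1 : (({z, b} : Finset ℕ) ∩ F).card ≤ 2 :=
        le_trans (Finset.card_le_card Finset.inter_subset_left) Finset.card_le_two
      exact le_trans h1 (by omega)
  refine le_trans (Finset.card_le_card hcover) ?_
  rw [mul_comm]
  refine Finset.card_biUnion_le_card_mul _ _ _ (fun q hq => ?_)
  unfold Rig.pairs at hq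
  rw [Finset.mem_filter] at hq
  exact hq.2.2.2.1

end Pool.Agent.Helper55.ML
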