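import Pool.Agent.Helper55.ML.L2b

set_option autoImplicit false
open Finset Filter Topology

namespace Pool.Agent.Helper55.ML

theorem l2c_conn_mono {G H : Finset (Sym2 ℕ)} {W : Finset ℕ} (h : H ⊆ G) (hW : Conn H W) :
    Conn G W := by
  refine ⟨hW.1, fun A hA hne hne' => ?_⟩
  obtain ⟨a, ha, b, hb, hab⟩ := hW.2 A hA hne hne'
  exact ⟨a, ha, b, hb, h hab⟩

theorem l2c_nb_del {n u : ℕ} {G : Finset (Sym2 ℕ)} {L A : Finset ℕ} (hu : u ∉ L)
    (hA : ∀ v ∈ A, v ∉ L) : nb n (del L G) u ∩ A = nb n G u ∩ A := by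
  ext v
  rw [mem_inter, mem_inter, mem_nb, mem_nb, mem_del]
  constructor
  · rintro ⟨⟨h1, h2, _⟩, h4⟩
    exact ⟨⟨h1, h2⟩, h4⟩
  · rintro ⟨⟨h1, h2⟩, h4⟩
    refine ⟨⟨h1, h2, fun x hx => ?_⟩, h4⟩
    rcases Sym2.mem_iff.1 hx with h | h
    · rw [h]; exact hu
    · rw [h]; exact hA v h4

theorem l2c_double {n : ℕ} {G : Finset (Sym2 ℕ)} {A B : Finset ℕ} (hA : A ⊆ range n)
    (hB : B ⊆ range n) :
    ∑ u ∈ A, (nb n G u ∩ B).card = ∑ v ∈ B, (nb n G v ∩ A).card := by
  classical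
  have h := Finset.sum_card_bipartiteAbove_eq_sum_card_bipartiteBelow
    (s := A) (t := B) (fun u v : ℕ => s(u, v) ∈ G)
  have h1 : ∀ u, nb n G u ∩ B = B.bipartiteAbove (fun u v : ℕ => s(u, v) ∈ G) u := by
    intro u
    ext v
    rw [Finset.mem_bipartiteAbove, mem_inter, mem_nb]
    constructor
    · rintro ⟨⟨_, h2⟩, h3⟩; exact ⟨h3, h2⟩
    · rintro ⟨h3, h2⟩; exact ⟨⟨Finset.mem_range.1 (hB h3), h2⟩, h3⟩
  have h2 : ∀ v, nb n G v ∩ A = A.bipartiteBelow (fun u v : ℕ => s(u, v) ∈ G) v := by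
    intro v
    ext u
    rw [Finset.mem_bipartiteBelow, mem_inter, mem_nb, Sym2.eq_swap]
    constructor
    · rintro ⟨⟨_, h2⟩, h3⟩; exact ⟨h3, h2⟩
    · rintro ⟨h3, h2⟩; exact ⟨⟨Finset.mem_range.1 (hA h3), h2⟩, h3⟩
  simp only [h1, h2]
  exact h

theorem l2c_exc_union {n : ℕ} {G : Finset (Sym2 ℕ)} (hG : G ⊆ En n) {A B : Finset ℕ}
    (hA : A ⊆ range n) (hB : B ⊆ range n) (hAB : Disjoint A B) :
    exc G (A ∪ B) = exc G A + exc G B + ((∑ u ∈ A, (nb n G u ∩ B).card : ℕ) : ℤ) := by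
  have h1 := sum_deg hG (union_subset hA hB)
  have h2 := sum_deg hG hA
  have h3 := sum_deg hG hB
  have h4 : ∀ u, ((nb n G u ∩ (A ∪ B)).card : ℤ) =
      ((nb n G u ∩ A).card : ℤ) + ((nb n G u ∩ B).card : ℤ) := by
    intro u
    rw [inter_union_distrib_left, card_union_of_disjoint
      (hAB.mono inter_subset_right inter_subset_right)]
    push_cast
    rfl
  rw [sum_union hAB] at h1
  simp only [h4, sum_add_distrib] at h1
  have h5 := l2c_double (G := G) hA hB
  have h6 : (∑ u ∈ A, ((nb n G u ∩ B).card : ℤ)) = ((∑ u ∈ A, (nb n G u ∩ B).card : ℕ) : ℤ) := by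
    push_cast
    rfl
  have h7 : (∑ v ∈ B, ((nb n G v ∩ A).card : ℤ)) = ((∑ u ∈ A, (nb n G u ∩ B).card : ℕ) : ℤ) := by
    rw [h5]
    push_cast
    rfl
  rw [h6, h7, h2, h3, card_union_of_disjoint hAB] at h1
  push_cast at h1 ⊢
  linarith

theorem l2c_exc_empty (G : Finset (Sym2 ℕ)) : exc G ∅ = 0 := by
  have h : ins ∅ G = ∅ := by
    rw [Finset.eq_empty_iff_forall_notMem]
    intro e he
    rw [mem_ins] at he
    induction e with
    | _ a b => exact absurd (he.2 a (Sym2.mem_mk_left a b)) (Finset.notMem_empty a)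
  unfold exc
  rw [h]
  simp

/-- L2c (hint, details in `/team-store/ML_hints.md`). Let `H = del Lam0 G`, `S` weak in `H`. By
`exists_induced_cycle` there is `T ⊆ S` connected with all internal degrees 2, weak in `H`,
`T ⊆ core H`. If `|T| ≤ C3 log n` let `S' = T`, otherwise let `S' ⊆ T` be connected with
`C3 log n + 1` elements. `m` = number of edges of `G` between `S'` and `U = Uset`,
`W = S' ∪ ⋃ F_z` over the `z ∈ U` adjacent to `S'`. `exc W ≥ exc S' + m` (the union of the flowers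
has `exc ≥ 0` by `exc_submod`, `exc_mono`), `W` is a pre-structure with at most `3 + m` exceptional
vertices (`b` of `S`, at most two ends of `S'` (`few_ends`), the `b_z`), `|W| ≤ |S'| + |U| ≤ (log n)^3`. K1 gives
`|W| ≤ C3 log n`, so `S' = T`, and `m ≤ exc W ≤ 0`; so `T` is not adjacent to `U`, hence weak in `G`, so
`T ⊆ Lam0`: contradiction to `T ⊆ core H`. -/
theorem Rig.no_weak_del {d t : ℕ} (R : Rig d t) (hd : 2 ≤ d) {x η ε : ℝ} {k C0 C3 : ℕ}
    (hk : 1 ≤ k) (hη : 0 < η) (hε : 0 < ε) (hC0 : 8 ≤ C0) (hx : 4 * (η + ε) ≤ x) :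
    ∃ n0 : ℕ, ∀ n : ℕ, n0 ≤ n → ∀ G : Finset (Sym2 ℕ), G ⊆ En n →
      R.Gd x η ε k n G → R.K1 x η C0 C3 n G → (R.pairs x η C0 n G).card ≤ Nat.log 2 n →
        ∀ S, ¬ Weak d n (del (Lam0 d n G) G) S := by
  obtain ⟨n1, h1⟩ := R.flowers hd hk hη hε hC0 hx (C3 := C3)
  obtain ⟨n2, h2⟩ := R.Uset_card hd hk hη hε hC0 hx (C3 := C3)
  obtain ⟨n3, h3⟩ := R.pre_of_deg (by omega : 1 ≤ d) hk hη hε hx
  refine ⟨max (max n1 n2) (max n3 (2 ^ (C3 + C0 + 1))), ?_⟩
  intro n hn G hG hGd hK hp S hS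
  have hn1 : n1 ≤ n := le_trans (le_trans (le_max_left _ _) (le_max_left _ _)) hn
  have hn2 : n2 ≤ n := le_trans (le_trans (le_max_right _ _) (le_max_left _ _)) hn
  have hn3 : n3 ≤ n := le_trans (le_trans (le_max_left _ _) (le_max_right _ _)) hn
  have hn4 : 2 ^ (C3 + C0 + 1) ≤ n := le_trans (le_trans (le_max_right _ _) (le_max_right _ _)) hn
  have hℓ : C3 + C0 + 1 ≤ Nat.log 2 n := Nat.le_log_of_pow_le (by norm_num) hn4
  have hFl := h1 n hn1 G hG hGd hK
  have hUc := h2 n hn2 G hG hGd hK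
  have hpre := h3 n hn3 G hG hGd
  obtain ⟨ℓ, hℓdef⟩ : ∃ ℓ, ℓ = Nat.log 2 n := ⟨_, rfl⟩
  rw [← hℓdef] at hp hℓ
  simp only [← hℓdef] at hFl hpre
  set H := del (Lam0 d n G) G with hHdef
  have hHG : H ⊆ G := del_subset _ _
  have hnd : ∀ e ∈ G, ¬ e.IsDiag := fun e he => (mem_En.1 (hG he)).2
  have hcore : core d n H ⊆ core d n G := core_mono hHG
  -- the core of `H` avoids `Lam0`
  have hcL : ∀ u ∈ core d n H, u ∉ Lam0 d n G := by
    intro u hu huL
    have h := core_deg hu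
    have h0 : nb n H u ∩ core d n H = ∅ := by
      rw [Finset.eq_empty_iff_forall_notMem]
      intro v hv
      rw [mem_inter, mem_nb, mem_del] at hv
      exact hv.1.2.2 u (Sym2.mem_mk_left u v) huL
    rw [h0] at h
    simp at h
  have hU : ∀ u, u ∈ Uset d n G ↔ u ∈ core d n G ∧ u ∉ core d n H := by
    intro u
    unfold Uset
    rw [Finset.mem_sdiff]
  have hUcore : Uset d n G ⊆ core d n G := fun u hu => ((hU u).1 hu).1
  obtain ⟨hS1, hS2, hS3, b, hS4⟩ := hS
  have hSr : S ⊆ range n := hS1.trans (core_subset d n H)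
  obtain ⟨T, hTS, hTc, hTd⟩ := exists_induced_cycle (hHG.trans hG) hSr hS2 hS3
  have hTH : T ⊆ core d n H := hTS.trans hS1
  have hTr : T ⊆ range n := hTS.trans hSr
  have hTc' : Conn G T := l2c_conn_mono hHG hTc
  have hTL : ∀ u ∈ T, u ∉ Lam0 d n G := fun u hu => hcL u (hTH hu)
  have hTd' : ∀ u ∈ T, (nb n G u ∩ T).card = 2 := by
    intro u hu
    rw [← l2c_nb_del (hTL u hu) hTL]
    exact hTd u hu
  have hTU : ∀ u ∈ T, u ∉ Uset d n G := fun u hu h => ((hU u).1 h).2 (hTH hu)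
  -- core degree in `G`
  have hcd : ∀ u ∈ T, u ≠ b → (nb n G u ∩ core d n G).card =
      d + 1 + (nb n G u ∩ Uset d n G).card := by
    intro u hu hub
    have h5 := hS4 u (hTS hu) hub
    rw [l2c_nb_del (hTL u hu) hcL] at h5
    have h6 : nb n G u ∩ core d n G =
        (nb n G u ∩ core d n H) ∪ (nb n G u ∩ Uset d n G) := by
      rw [← inter_union_distrib_left]
      congr 1
      ext v
      rw [mem_union, hU]
      constructor
      · intro hv
        by_cases hv' : v ∈ core d n H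
        · exact Or.inl hv'
        · exact Or.inr ⟨hv, hv'⟩
      · rintro (hv | hv)
        · exact hcore hv
        · exact hv.1
    rw [h6, card_union_of_disjoint, h5]
    rw [Finset.disjoint_left]
    intro v hv hv'
    exact ((hU v).1 (mem_inter.1 hv').2).2 (mem_inter.1 hv).2
  have hexT : exc G T = 0 := by
    have h := sum_deg hG hTr
    rw [sum_congr rfl (fun u hu => by rw [hTd' u hu])] at h
    rw [sum_const, nsmul_eq_mul] at h
    push_cast at h
    linarith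
  -- the piece `S'`
  obtain ⟨S', hS'T, hS'c, hS'card, hS'eq⟩ : ∃ S' ⊆ T, Conn G S' ∧ S'.card ≤ C3 * ℓ + 1 ∧
      (S'.card ≤ C3 * ℓ → S' = T) := by
    by_cases hc : T.card ≤ C3 * ℓ
    · exact ⟨T, subset_rfl, hTc', by omega, fun _ => rfl⟩
    · obtain ⟨v, hv⟩ := hTc'.1
      obtain ⟨W', hW'T, _, hW'c, hW'card⟩ := hTc'.exists_subset hv (k := C3 * ℓ + 1) (by omega)
        (by omega)
      exact ⟨W', hW'T, hW'c, by omega, fun h => by omega⟩
  have hS'r : S' ⊆ range n := hS'T.trans hTr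
  -- the flowers
  choose! Fl bb hFlo using hFl
  classical
  set ZU : Finset ℕ := (Uset d n G).filter (fun z => ∃ s ∈ S', s(s, z) ∈ G) with hZU
  have hZU1 : ∀ z ∈ ZU, z ∈ Uset d n G ∧ ∃ s ∈ S', s(s, z) ∈ G := fun z hz => mem_filter.1 hz
  have hind : ∀ Q ⊆ ZU, 0 ≤ exc G (Q.biUnion Fl) ∧ Conn G (S' ∪ Q.biUnion Fl) := by
    intro Q
    induction Q using Finset.induction_on with
    | empty =>
      intro _
      rw [biUnion_empty, union_empty]
      exact ⟨(l2c_exc_empty G).ge, hS'c⟩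
    | insert z Q hzQ ih =>
      intro hQ
      obtain ⟨ih1, ih2⟩ := ih ((subset_insert z Q).trans hQ)
      have hz := hZU1 z (hQ (mem_insert_self z Q))
      obtain ⟨_, hfl, _⟩ := hFlo z hz.1
      obtain ⟨f1, _, f3, f4, _, _⟩ := hfl
      rw [biUnion_insert]
      constructor
      · have h7 := exc_submod G (Fl z) (Q.biUnion Fl)
        have h8 : exc G (Fl z ∩ Q.biUnion Fl) ≤ 0 := by
          rcases (Fl z ∩ Q.biUnion Fl).eq_empty_or_nonempty with he | hne
          · rw [he, l2c_exc_empty]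
          · rw [← f4]
            exact Conn.exc_mono hnd f3 inter_subset_left hne
        linarith
      · obtain ⟨s, hs, hsz⟩ := hz.2
        have h9 := Conn.union ih2 f3 (Or.inr ⟨s, mem_union_left _ hs, z, f1, hsz⟩)
        rw [union_assoc, union_comm (Q.biUnion Fl)] at h9
        exact h9
  obtain ⟨hF0, hWc⟩ := hind ZU subset_rfl
  set F : Finset ℕ := ZU.biUnion Fl with hF
  have hFU : F ⊆ Uset d n G := by
    intro v hv
    obtain ⟨z, hz, hvz⟩ := mem_biUnion.1 hv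
    exact (hFlo z (hZU1 z hz).1).1 hvz
  have hFr : F ⊆ range n := (hFU.trans hUcore).trans (core_subset d n G)
  have hdis : Disjoint S' F := by
    rw [Finset.disjoint_left]
    intro v hv hv'
    exact hTU v (hS'T hv) (hFU hv')
  have hZF : ∀ z ∈ ZU, z ∈ F := by
    intro z hz
    exact mem_biUnion.2 ⟨z, hz, (hFlo z (hZU1 z hz).1).2.1.1⟩
  have hnbU : ∀ u ∈ S', nb n G u ∩ F = nb n G u ∩ Uset d n G := by
    intro u hu
    ext v
    rw [mem_inter, mem_inter]
    constructor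
    · rintro ⟨h4, h5⟩; exact ⟨h4, hFU h5⟩
    · rintro ⟨h4, h5⟩
      exact ⟨h4, hZF v (mem_filter.2 ⟨h5, u, hu, (mem_nb.1 h4).2⟩)⟩
  have hexc := l2c_exc_union hG hS'r hFr hdis
  obtain ⟨m, hm⟩ : ∃ m : ℕ, m = ∑ u ∈ S', (nb n G u ∩ F).card := ⟨_, rfl⟩
  rw [← hm] at hexc
  -- `|ZU| ≤ m`
  have hZm : ZU.card ≤ m := by
    have h5 := l2c_double (G := G) hS'r hFr
    rw [h5] at hm
    rw [hm]
    calc ZU.card = ∑ z ∈ ZU, 1 := by simp
      _ ≤ ∑ z ∈ ZU, (nb n G z ∩ S').card := by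
          refine sum_le_sum fun z hz => ?_
          obtain ⟨s, hs, hsz⟩ := (hZU1 z hz).2
          refine Finset.card_pos.2 ⟨s, mem_inter.2 ⟨mem_nb.2 ⟨Finset.mem_range.1 (hS'r hs), ?_⟩, hs⟩⟩
          rw [Sym2.eq_swap]
          exact hsz
      _ ≤ ∑ z ∈ F, (nb n G z ∩ S').card :=
          sum_le_sum_of_subset (fun z hz => hZF z hz)
  obtain ⟨W, hW⟩ : ∃ W : Finset ℕ, W = S' ∪ F := ⟨_, rfl⟩
  rw [← hW] at hexc hWc
  have hWcore : W ⊆ core d n G := by
    intro v hv
    rw [hW] at hv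
    rcases mem_union.1 hv with hv | hv
    · exact hcore (hTH (hS'T hv))
    · exact hUcore (hFU hv)
  have hWr : W ⊆ range n := hWcore.trans (core_subset d n G)
  have hWcard : W.card ≤ ℓ ^ 3 := by
    have h5 : W.card ≤ S'.card + F.card := by rw [hW]; exact card_union_le _ _
    have h6 : F.card ≤ C0 * ℓ := by
      refine (card_le_card hFU).trans (hUc.trans ?_)
      exact Nat.mul_le_mul_left _ hp
    have h7 : W.card ≤ (C3 + C0 + 1) * ℓ := by
      have : 1 ≤ ℓ := by omega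
      calc W.card ≤ (C3 * ℓ + 1) + C0 * ℓ := by omega
        _ ≤ (C3 + C0 + 1) * ℓ := by ring_nf; omega
    have h8 : (C3 + C0 + 1) * ℓ ≤ ℓ * ℓ := Nat.mul_le_mul_right _ hℓ
    have h9 : ℓ * ℓ ≤ ℓ ^ 3 := by
      calc ℓ * ℓ = ℓ * ℓ * 1 := by ring
        _ ≤ ℓ * ℓ * ℓ := Nat.mul_le_mul_left _ (by omega)
        _ = ℓ ^ 3 := by ring
    omega
  obtain ⟨ends', hends⟩ : ∃ E : Finset ℕ, E = S'.filter (fun u => (nb n G u ∩ S').card ≤ 1) :=
    ⟨_, rfl⟩
  have hends2 : ends'.card ≤ 2 := by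
    rw [hends]
    exact few_ends hG hTr hS'T hS'c (fun u hu => (hTd' u hu).le)
  obtain ⟨Z, hZ⟩ : ∃ Z : Finset ℕ, Z = (insert b (ends' ∪ ZU.image bb)) ∩ W := ⟨_, rfl⟩
  have hZcard : Z.card ≤ 3 + m := by
    calc Z.card ≤ (insert b (ends' ∪ ZU.image bb)).card := by
          rw [hZ]
          exact card_le_card inter_subset_left
      _ ≤ (ends' ∪ ZU.image bb).card + 1 := card_insert_le _ _
      _ ≤ ends'.card + (ZU.image bb).card + 1 := Nat.add_le_add_right (card_union_le _ _) 1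
      _ ≤ 2 + m + 1 := by
          have := card_image_le (s := ZU) (f := bb)
          omega
      _ = 3 + m := by ring
  have hnotZ : ∀ u ∈ W, u ∉ Z → u ≠ b ∧ u ∉ ends' ∧ ∀ z ∈ ZU, u ≠ bb z := by
    intro u hu huZ
    rw [hZ, mem_inter, not_and] at huZ
    have h5 : u ∉ insert b (ends' ∪ ZU.image bb) := fun h => huZ h hu
    rw [mem_insert, not_or, mem_union, not_or] at h5
    refine ⟨h5.1, h5.2.1, fun z hz he => h5.2.2 ?_⟩
    rw [he]
    exact mem_image_of_mem bb hz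
  have hPre : R.Pre x η n G W Z := by
    refine ⟨hWr, by rw [hZ]; exact inter_subset_right, hWc, ?_⟩
    intro u hu
    rw [Finset.mem_sdiff] at hu
    obtain ⟨huW, huZ⟩ := hu
    obtain ⟨hub, hue, hubb⟩ := hnotZ u huW huZ
    refine ⟨hWcore huW, hpre W hWcore hWcard u huW ?_⟩
    have huW' := huW
    rw [hW] at huW'
    rcases mem_union.1 huW' with huS | huF
    · have h5 := hcd u (hS'T huS) hub
      have h6 : 2 ≤ (nb n G u ∩ S').card := by
        by_contra hcon
        refine hue ?_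
        rw [hends]
        exact mem_filter.2 ⟨huS, by omega⟩
      have h7 : (nb n G u ∩ W).card = (nb n G u ∩ S').card + (nb n G u ∩ F).card := by
        rw [hW, inter_union_distrib_left, card_union_of_disjoint
          (hdis.mono inter_subset_right inter_subset_right)]
      rw [hnbU u huS] at h7
      omega
    · obtain ⟨z, hz, huz⟩ := mem_biUnion.1 huF
      obtain ⟨_, hfl, _⟩ := hFlo z (hZU1 z hz).1
      obtain ⟨f1, _, _, _, f5, f6⟩ := hfl
      have hsub : Fl z ⊆ W := by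
        intro v hv
        rw [hW]
        exact mem_union_right _ (mem_biUnion.2 ⟨z, hz, hv⟩)
      by_cases huz' : u = z
      · subst huz'
        have h8 := f6 (hubb u hz)
        obtain ⟨s, hs, hsz⟩ := (hZU1 u hz).2
        have h9 : (nb n G u ∩ Fl u).card + 1 ≤ (nb n G u ∩ W).card := by
          have hsn : s ∉ nb n G u ∩ Fl u := by
            intro h
            exact hTU s (hS'T hs) ((hFlo u (hZU1 u hz).1).1 (mem_inter.1 h).2)
          rw [← card_insert_of_notMem hsn]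
          refine card_le_card ?_
          intro v hv
          rcases mem_insert.1 hv with rfl | hv
          · refine mem_inter.2 ⟨mem_nb.2 ⟨Finset.mem_range.1 (hS'r hs), ?_⟩, ?_⟩
            · rw [Sym2.eq_swap]
              exact hsz
            · rw [hW]
              exact mem_union_left _ hs
          · exact mem_inter.2 ⟨(mem_inter.1 hv).1, hsub (mem_inter.1 hv).2⟩
        omega
      · have h8 := f5 u huz (hubb z hz) huz'
        have h9 : (nb n G u ∩ Fl z).card ≤ (nb n G u ∩ W).card :=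
          card_le_card (inter_subset_inter_left hsub)
        omega
  have hge : -1 ≤ exc G S' := hS'c.exc_ge hnd
  have hCe : (Z.card : ℤ) ≤ C0 * (exc G W + 2) := by
    have h5 : (Z.card : ℤ) ≤ 3 + (m : ℤ) := by exact_mod_cast hZcard
    have h6 : (m : ℤ) + 1 ≤ exc G W + 2 := by linarith
    have h7 : (8 : ℤ) ≤ (C0 : ℤ) := by exact_mod_cast hC0
    have h8 : (0 : ℤ) ≤ (m : ℤ) := Int.natCast_nonneg m
    have h9 : (8 : ℤ) * ((m : ℤ) + 1) ≤ (C0 : ℤ) * (exc G W + 2) :=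
      mul_le_mul h7 h6 (by linarith) (by linarith)
    linarith
  have hK1 := hK W Z hPre (by rw [← hℓdef]; exact hWcard) hCe
  rw [← hℓdef] at hK1
  have hS'T' : S' = T := by
    refine hS'eq ?_
    refine le_trans (card_le_card ?_) hK1.2
    rw [hW]
    exact subset_union_left
  have hm0 : m = 0 := by
    have h5 : exc G S' = 0 := by rw [hS'T', hexT]
    have h6 : (m : ℤ) ≤ 0 := by linarith [hK1.1]
    have h7 : (0 : ℤ) ≤ (m : ℤ) := Int.natCast_nonneg m
    have h8 : (m : ℤ) = 0 := le_antisymm h6 h7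
    exact Int.natCast_eq_zero.1 h8
  have hno : ∀ u ∈ T, (nb n G u ∩ Uset d n G).card = 0 := by
    intro u hu
    rw [← hS'T'] at hu
    rw [← hnbU u hu]
    rw [hm] at hm0
    exact (Finset.sum_eq_zero_iff.1 hm0) u hu
  -- `T` is a weak cycle of `G`
  obtain ⟨v, hv⟩ := hTc'.1
  refine hTL v hv ?_
  rw [mem_Lam0]
  refine ⟨Finset.mem_range.1 (hTr hv), T, hv, ⟨hTH.trans hcore, ⟨v, hv⟩, fun u hu => (hTd' u hu).ge,
    b, fun u hu hub => ?_⟩, hTc', hTd'⟩
  rw [hcd u hu hub, hno u hu]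

end Pool.Agent.Helper55.ML
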