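import Pool.Agent.Helper55.ML.Q1
import Pool.Agent.Helper55.ML.Q5
import Pool.Agent.Helper55.ML.P4

set_option autoImplicit false
open Finset Filter Topology

namespace Pool.Agent.Helper55.ML

private theorem l3_union {ι : Type*} (n : ℕ) {p : ℝ} (h0 : 0 ≤ p) (h1 : p ≤ 1) (I : Finset ι)
    (P : ι → Finset (Sym2 ℕ) → Prop) :
    Pr n p (fun G => ∃ i ∈ I, P i G) ≤ ∑ i ∈ I, Pr n p (P i) := by
  unfold Pr
  rw [← Ex_sum]
  refine Ex_mono h0 h1 fun G _ => ?_
  by_cases h : ∃ i ∈ I, P i G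
  · obtain ⟨i, hi, hP⟩ := h
    rw [ind_true ⟨i, hi, hP⟩]
    calc (1 : ℝ) = ind (P i G) := (ind_true hP).symm
      _ ≤ ∑ i ∈ I, ind (P i G) :=
        Finset.single_le_sum (f := fun i => ind (P i G)) (fun _ _ => ind_nonneg _) hi
  · rw [ind_false h]
    exact Finset.sum_nonneg fun _ _ => ind_nonneg _

private theorem l3_large {α : Type*} [DecidableEq α] (E : Finset α) {p : ℝ} (h0 : 0 ≤ p)
    (h1 : p ≤ 1) (q : ℕ) :
    BE E p (fun T => ind (q ≤ T.card)) ≤ 2 ^ E.card * p ^ q := by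
  have h2 : BE E p (fun T => ind (q ≤ T.card)) ≤
      BE E p (fun T => ∑ A ∈ E.powersetCard q, ind (A ⊆ T)) := by
    refine BE_mono h0 h1 fun T hT => ?_
    by_cases h : q ≤ T.card
    · rw [ind_true h]
      obtain ⟨A, hA, hAc⟩ := Finset.exists_subset_card_eq h
      have hm : A ∈ E.powersetCard q := Finset.mem_powersetCard.2 ⟨hA.trans hT, hAc⟩
      calc (1 : ℝ) = ind (A ⊆ T) := (ind_true hA).symm
        _ ≤ ∑ A ∈ E.powersetCard q, ind (A ⊆ T) :=
          Finset.single_le_sum (f := fun A => ind (A ⊆ T)) (fun _ _ => ind_nonneg _) hm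
    · rw [ind_false h]
      exact Finset.sum_nonneg fun _ _ => ind_nonneg _
  refine h2.trans ?_
  rw [BE_sum]
  have h3 : ∀ A ∈ E.powersetCard q, BE E p (fun T => ind (A ⊆ T)) = p ^ q := by
    intro A hA
    obtain ⟨h4, h5⟩ := Finset.mem_powersetCard.1 hA
    rw [BE_subset h4, h5]
  rw [Finset.sum_congr rfl h3, Finset.sum_const, Finset.card_powersetCard, nsmul_eq_mul]
  refine mul_le_mul_of_nonneg_right ?_ (pow_nonneg h0 q)
  have : E.card.choose q ≤ 2 ^ E.card := Nat.choose_le_two_pow _ _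
  exact_mod_cast this

private theorem l3_card_ins (n : ℕ) (A : Finset ℕ) : (ins A (En n)).card ≤ A.card ^ 2 := by
  have hsub : ins A (En n) ⊆ (A ×ˢ A).image (fun q => s(q.1, q.2)) := by
    intro e he
    rw [mem_ins] at he
    obtain ⟨_, h2⟩ := he
    induction e using Sym2.ind with
    | _ a b =>
      rw [Finset.mem_image]
      exact ⟨(a, b), Finset.mem_product.2 ⟨h2 a (Sym2.mem_mk_left a b),
        h2 b (Sym2.mem_mk_right a b)⟩, rfl⟩
  refine (Finset.card_le_card hsub).trans (Finset.card_image_le.trans ?_)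
  rw [Finset.card_product, sq]

private theorem l3_one (n : ℕ) {p : ℝ} (h0 : 0 ≤ p) (h1 : p ≤ 1) (A : Finset ℕ)
    (B : Finset (Sym2 ℕ) → Prop) :
    (1 - p) ^ (A.card * n) * Pr n p (fun G => A.card ≤ (ins A G).card ∧ B (del A G)) ≤
      2 ^ (A.card ^ 2) * p ^ A.card * Pr n p B := by
  have hE1 : ∀ G ⊆ En n, del A G = G ∩ del A (En n) := by
    intro G hG
    ext e
    rw [mem_inter, mem_del, mem_del]
    exact ⟨fun h => ⟨h.1, hG h.1, h.2⟩, fun h => ⟨h.1, h.2.2⟩⟩
  have hE2 : ∀ G ⊆ En n, ins A G = G ∩ ins A (En n) := by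
    intro G hG
    ext e
    rw [mem_inter, mem_ins, mem_ins]
    exact ⟨fun h => ⟨h.1, hG h.1, h.2⟩, fun h => ⟨h.1, h.2.2⟩⟩
  have hd : Disjoint (del A (En n)) (ins A (En n)) := by
    rw [Finset.disjoint_left]
    intro e he1 he2
    rw [mem_del] at he1
    rw [mem_ins] at he2
    induction e using Sym2.ind with
    | _ a b => exact he1.2 a (Sym2.mem_mk_left a b) (he2.2 a (Sym2.mem_mk_left a b))
  have e1 : Pr n p (fun G => A.card ≤ (ins A G).card ∧ B (del A G)) =
      Ex n p (fun G => ind (B (G ∩ del A (En n))) *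
        ind (A.card ≤ (G ∩ ins A (En n)).card)) := by
    refine Ex_congr fun G hG => ?_
    change ind (A.card ≤ (ins A G).card ∧ B (del A G)) = _
    rw [hE1 G hG, hE2 G hG, ind_and, mul_comm]
  have e2 := Ex_indep n p (del_subset A (En n)) (ins_subset A (En n)) hd
    (fun S T => ind (B S) * ind (A.card ≤ T.card))
  have e3 : Ex n p (fun G => BE (ins A (En n)) p (fun T => ind (B (G ∩ del A (En n))) *
      ind (A.card ≤ T.card))) =
      Ex n p (fun G => ind (B (del A G))) *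
        BE (ins A (En n)) p (fun T => ind (A.card ≤ T.card)) := by
    rw [← Ex_mul_right]
    refine Ex_congr fun G hG => ?_
    rw [BE_mul_left, hE1 G hG]
  rw [e1, e2, e3]
  have h2 := l3_large (ins A (En n)) h0 h1 A.card
  have h3 := Ex_del_le n h0 h1 A (fun G => ind (B G)) (fun _ _ => ind_nonneg _)
  have h4 : BE (ins A (En n)) p (fun T => ind (A.card ≤ T.card)) ≤
      2 ^ (A.card ^ 2) * p ^ A.card := by
    refine h2.trans (mul_le_mul_of_nonneg_right ?_ (pow_nonneg h0 _))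
    exact pow_le_pow_right₀ (by norm_num) (l3_card_ins n A)
  have h5 : 0 ≤ BE (ins A (En n)) p (fun T => ind (A.card ≤ T.card)) :=
    BE_nonneg h0 h1 fun _ _ => ind_nonneg _
  have h6 : 0 ≤ Ex n p (fun G => ind (B G)) := Ex_nonneg h0 h1 fun _ _ => ind_nonneg _
  calc (1 - p) ^ (A.card * n) * (Ex n p (fun G => ind (B (del A G))) *
        BE (ins A (En n)) p (fun T => ind (A.card ≤ T.card))) =
      ((1 - p) ^ (A.card * n) * Ex n p (fun G => ind (B (del A G)))) *
        BE (ins A (En n)) p (fun T => ind (A.card ≤ T.card)) := by ring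
    _ ≤ Ex n p (fun G => ind (B G)) * (2 ^ (A.card ^ 2) * p ^ A.card) :=
        mul_le_mul h3 h4 h5 h6
    _ = 2 ^ (A.card ^ 2) * p ^ A.card * Pr n p B := by
        unfold Pr
        ring

/-- L3 (transfer principle; hint). `ins Λ G` and `del Λ G` are independent; for `|Λ| = q ≤ s`:
`P(|ins Λ G| ≥ q) ≤ C(q^2,q) (c/n)^q`, at most `n^q` sets, and
`P(B (del Λ G)) ≤ C_q P(B G)` (`Ex_del_le`). -/
theorem transfer {c : ℝ} (hc : 0 < c) {A B : ℕ → Finset (Sym2 ℕ) → Prop} (hB : Neg c B)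
    (Lam : ℕ → Finset (Sym2 ℕ) → Finset ℕ) (hL : ∀ n G, Lam n G ⊆ range n)
    (hL2 : ∀ n G, (Lam n G).card ≤ (ins (Lam n G) G).card)
    (hL3 : ∀ ε : ℝ, 0 < ε → ∃ s : ℕ, ∀ᶠ n : ℕ in atTop,
      Pr n (c / n) (fun G => A n G ∧ s < (Lam n G).card) ≤ ε) :
    Neg c (fun n G => A n G ∧ B n (del (Lam n G) G)) := by
  rw [Neg_iff hc]
  intro ε hε
  obtain ⟨s, hs⟩ := hL3 (ε / 2) (by positivity)
  choose a ha hn using fun q : ℕ => one_sub_pow_lower hc q
  set K : ℝ := ∑ q ∈ range (s + 1), 2 ^ (q ^ 2) * c ^ q / a q with hK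
  have hK0 : 0 ≤ K := Finset.sum_nonneg fun q _ =>
    div_nonneg (mul_nonneg (by positivity) (pow_nonneg hc.le _)) (ha q).le
  have hB' := (Neg_iff hc).1 hB (ε / (2 * (K + 1))) (by positivity)
  have hn' : ∀ᶠ n : ℕ in atTop, ∀ q ∈ range (s + 1), a q ≤ (1 - c / (n : ℝ)) ^ (q * n) :=
    (Filter.eventually_all_finset _).2 fun q _ => hn q
  filter_upwards [hs, hB', hn', cn_eventually hc, eventually_gt_atTop 0] with n h1 h2 h3 h4 h5
  have hnpos : (0 : ℝ) < n := by exact_mod_cast h5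
  have p0 : 0 ≤ c / (n : ℝ) := h4.1.le
  have p1 : c / (n : ℝ) ≤ 1 := by linarith [h4.2]
  have hPB : 0 ≤ Pr n (c / n) (B n) := Pr_nonneg p0 p1
  have h6 : Pr n (c / n) (fun G => A n G ∧ B n (del (Lam n G) G)) ≤
      Pr n (c / n) (fun G => (A n G ∧ s < (Lam n G).card) ∨
        (∃ q ∈ range (s + 1), ∃ L ∈ (range n).powersetCard q,
          L.card ≤ (ins L G).card ∧ B n (del L G))) := by
    refine Pr_mono p0 p1 fun G _ hG => ?_
    rcases lt_or_ge s (Lam n G).card with h | h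
    · exact Or.inl ⟨hG.1, h⟩
    · refine Or.inr ⟨(Lam n G).card, Finset.mem_range.2 (by omega), Lam n G,
        Finset.mem_powersetCard.2 ⟨hL n G, rfl⟩, hL2 n G, hG.2⟩
  have h7 : ∀ q ∈ range (s + 1), Pr n (c / n) (fun G => ∃ L ∈ (range n).powersetCard q,
      L.card ≤ (ins L G).card ∧ B n (del L G)) ≤
      2 ^ (q ^ 2) * c ^ q / a q * Pr n (c / n) (B n) := by
    intro q hq
    refine (l3_union n p0 p1 _ _).trans ?_
    have h8 : ∀ L ∈ (range n).powersetCard q,
        Pr n (c / n) (fun G => L.card ≤ (ins L G).card ∧ B n (del L G)) ≤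
        2 ^ (q ^ 2) * (c / n) ^ q * Pr n (c / n) (B n) / a q := by
      intro L hL'
      have hLc : L.card = q := (Finset.mem_powersetCard.1 hL').2
      have h9 := l3_one n p0 p1 L (B n)
      rw [hLc] at h9
      rw [hLc, le_div_iff₀ (ha q)]
      have h10 : 0 ≤ Pr n (c / n) (fun G => q ≤ (ins L G).card ∧ B n (del L G)) :=
        Pr_nonneg p0 p1
      calc Pr n (c / n) (fun G => q ≤ (ins L G).card ∧ B n (del L G)) * a q ≤
          Pr n (c / n) (fun G => q ≤ (ins L G).card ∧ B n (del L G)) *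
            (1 - c / (n : ℝ)) ^ (q * n) := mul_le_mul_of_nonneg_left (h3 q hq) h10
        _ ≤ _ := by rw [mul_comm]; exact h9
    refine (Finset.sum_le_sum h8).trans ?_
    rw [Finset.sum_const, Finset.card_powersetCard, Finset.card_range, nsmul_eq_mul]
    have h11 : ((n.choose q : ℕ) : ℝ) ≤ (n : ℝ) ^ q := by
      exact_mod_cast Nat.choose_le_pow n q
    have h12 : 0 ≤ 2 ^ (q ^ 2) * (c / (n : ℝ)) ^ q * Pr n (c / n) (B n) / a q :=
      div_nonneg (mul_nonneg (mul_nonneg (by positivity) (pow_nonneg p0 _)) hPB) (ha q).le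
    refine (mul_le_mul_of_nonneg_right h11 h12).trans (le_of_eq ?_)
    rw [div_pow]
    have : (n : ℝ) ^ q ≠ 0 := (pow_pos hnpos q).ne'
    field_simp
  calc Pr n (c / n) (fun G => A n G ∧ B n (del (Lam n G) G)) ≤ _ := h6
    _ ≤ _ + _ := Pr_or_le p0 p1
    _ ≤ ε / 2 + ∑ q ∈ range (s + 1), 2 ^ (q ^ 2) * c ^ q / a q * Pr n (c / n) (B n) :=
        add_le_add h1 ((l3_union n p0 p1 _ _).trans (Finset.sum_le_sum h7))
    _ = ε / 2 + K * Pr n (c / n) (B n) := by rw [hK, Finset.sum_mul]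
    _ ≤ ε / 2 + K * (ε / (2 * (K + 1))) := by gcongr
    _ ≤ ε / 2 + ε / 2 := by
        have : K * (ε / (2 * (K + 1))) = ε / 2 * (K / (K + 1)) := by field_simp
        rw [this]
        have h13 : K / (K + 1) ≤ 1 := by
          rw [div_le_one (by positivity)]; linarith
        have h14 : ε / 2 * (K / (K + 1)) ≤ ε / 2 * 1 := mul_le_mul_of_nonneg_left h13 (by positivity)
        linarith
    _ = ε := by ring

end Pool.Agent.Helper55.ML
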