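import Pool.Agent.Helper55.ML.L1

set_option autoImplicit false
open Finset Filter Topology

namespace Pool.Agent.Helper55.ML

/-- L4 (Step 1; hint). `A = core d n G`, `L = A \ Y(G)` where `Y = R.Y (x-η) n`; a component `K` of
`L`: every `u ∈ K` has at most `d-1` neighbours in `Y(G)` (`mem_Y_of_join`), so at least two in `K`;
connected subsets of `K` are pre-structures with `Z = ∅` (`Y (del W G) ⊆ Y G`), so by `K1`
`|K| ≤ C3 log n`, `exc ≤ 0`, all internal degrees are 2 and `K` is weak. -/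
theorem Rig.core_sub_Y {d t : ℕ} (R : Rig d t) (hd : 2 ≤ d) {x η ε : ℝ} {k C0 C3 : ℕ} (hk : 1 ≤ k)
    (hη : 0 < η) (hε : 0 < ε) (hC0 : 8 ≤ C0) (hx : 4 * (η + ε) ≤ x) :
    ∃ n0 : ℕ, ∀ n : ℕ, n0 ≤ n → ∀ G : Finset (Sym2 ℕ), G ⊆ En n →
      R.Gd x η ε k n G → R.K1 x η C0 C3 n G → (∀ S, ¬ Weak d n G S) →
        core d n G ⊆ R.Y (x - η) n G := by
  refine ⟨2 ^ (C3 + 1), fun n hn3 G hG hGd hK1 hnoweak => ?_⟩
  have hl1 : C3 + 1 ≤ Nat.log 2 n := Nat.le_log_of_pow_le (by norm_num) hn3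
  have hsize : C3 * Nat.log 2 n + 1 ≤ (Nat.log 2 n) ^ 3 := by
    set l := Nat.log 2 n
    have h1 : C3 * l + 1 ≤ (C3 + 1) * l := by nlinarith
    have h2 : (C3 + 1) * l ≤ l * l := Nat.mul_le_mul_right l hl1
    have h3 : l * l ≤ l ^ 3 := by
      have : l ^ 3 = l * l * l := by ring
      rw [this]
      exact Nat.le_mul_of_pos_right _ (by omega)
    omega
  set Y := R.Y (x - η) n G with hY
  by_contra hcon
  obtain ⟨u0, hu0, hu0Y⟩ := Finset.not_subset.1 hcon
  have hu0L : u0 ∈ core d n G \ Y := Finset.mem_sdiff.2 ⟨hu0, hu0Y⟩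
  obtain ⟨K, hKL, hu0K, hKc, hKno⟩ := exists_component (G := G) hu0L
  have hKcore : K ⊆ core d n G := fun y hy => (Finset.mem_sdiff.1 (hKL hy)).1
  have hKr : K ⊆ range n := hKcore.trans (core_subset d n G)
  -- few neighbours in `Y`
  have hfew : ∀ u ∈ K, (nb n G u ∩ Y).card + 1 ≤ d := by
    intro u hu
    by_contra hc
    have hdle : d ≤ (nb n G u ∩ Y).card := by omega
    have hne : Y.Nonempty := by
      have : (nb n G u ∩ Y).Nonempty := by
        rw [← Finset.card_pos]; omega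
      exact this.mono Finset.inter_subset_right
    have hmem := R.mem_Y_of_join (H := G) hGd.1 hne (Finset.mem_range.1 (hKr hu))
      (N := nb n G u ∩ Y) Finset.inter_subset_right hdle
      (fun z hz _ => R.Cl_of_mem (mem_nb.1 (Finset.mem_inter.1 hz).1).2)
    exact (Finset.mem_sdiff.1 (hKL hu)).2 hmem
  -- the neighbours in the core
  have hsplit : ∀ u ∈ K, nb n G u ∩ core d n G ⊆ (nb n G u ∩ Y) ∪ (nb n G u ∩ K) := by
    intro u hu z hz
    rw [Finset.mem_inter] at hz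
    by_cases hzY : z ∈ Y
    · exact Finset.mem_union_left _ (Finset.mem_inter.2 ⟨hz.1, hzY⟩)
    · refine Finset.mem_union_right _ (Finset.mem_inter.2 ⟨hz.1, ?_⟩)
      by_contra hzK
      exact hKno u hu z (Finset.mem_sdiff.2 ⟨Finset.mem_sdiff.2 ⟨hz.2, hzY⟩, hzK⟩)
        (mem_nb.1 hz.1).2
  have hsum : ∀ u ∈ K, (nb n G u ∩ core d n G).card ≤
      (nb n G u ∩ Y).card + (nb n G u ∩ K).card := fun u hu =>
    le_trans (Finset.card_le_card (hsplit u hu)) (Finset.card_union_le _ _)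
  have htwo : ∀ u ∈ K, 2 ≤ (nb n G u ∩ K).card := by
    intro u hu
    have h1 := hfew u hu
    have h2 := hsum u hu
    have h3 := core_deg (hKcore hu)
    omega
  -- connected subsets are pre-structures
  have hpre : ∀ W : Finset ℕ, W ⊆ K → Conn G W → R.Pre x η n G W ∅ := by
    intro W hWK hWc
    refine ⟨hWK.trans hKr, Finset.empty_subset _, hWc, fun u hu => ?_⟩
    have huW := (Finset.mem_sdiff.1 hu).1
    refine ⟨hKcore (hWK huW), ?_⟩
    have h1 := hfew u (hWK huW)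
    have h2 : (nb n G u ∩ R.Y (x - η) n (del W G)).card ≤ (nb n G u ∩ Y).card :=
      Finset.card_le_card (Finset.inter_subset_inter_left (R.Y_mono (del_subset W G)))
    omega
  have hZ : ∀ W : Finset ℕ, Conn G W → (((∅ : Finset ℕ).card : ℕ) : ℤ) ≤ C0 * (exc G W + 2) := by
    intro W hWc
    have hexc := Conn.exc_ge (fun e he => (mem_En.1 (hG he)).2) hWc
    have h3 : (8 : ℤ) ≤ (C0 : ℤ) := by exact_mod_cast hC0
    simp only [Finset.card_empty, Nat.cast_zero]
    nlinarith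
  have hKcard : K.card ≤ C3 * Nat.log 2 n := by
    by_contra hc
    push Not at hc
    obtain ⟨W, hWK, _, hWc, hWcard⟩ := Conn.exists_subset hKc hu0K
      (k := C3 * Nat.log 2 n + 1) (by omega) (by omega)
    have := (hK1 W ∅ (hpre W hWK hWc) (by omega) (hZ W hWc)).2
    omega
  have hexcK := (hK1 K ∅ (hpre K subset_rfl hKc) (by omega) (hZ K hKc)).1
  have hdeg := sum_deg hG hKr
  have hall : ∀ u ∈ K, (nb n G u ∩ K).card = 2 := by
    intro u hu
    by_contra hne
    have h1 : ∑ u ∈ K, (2 : ℤ) < ∑ u ∈ K, ((nb n G u ∩ K).card : ℤ) := by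
      refine Finset.sum_lt_sum (fun i hi => by exact_mod_cast htwo i hi) ⟨u, hu, ?_⟩
      have := htwo u hu
      have h2 : 2 < (nb n G u ∩ K).card := by omega
      exact_mod_cast h2
    rw [hdeg, Finset.sum_const, nsmul_eq_mul] at h1
    linarith
  refine hnoweak K ⟨hKcore, hKc.1, htwo, u0, fun u hu _ => ?_⟩
  have h1 := hfew u hu
  have h2 := hsum u hu
  have h3 := core_deg (hKcore hu)
  have h4 := hall u hu
  omega

end Pool.Agent.Helper55.ML
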