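import Pool.Agent.Helper55.ML.M1
import Pool.Agent.Helper55.ML.M3

set_option autoImplicit false
open Finset Filter Topology

namespace Pool.Agent.Helper55.ML

theorem Rig.m5_perm {d t : ℕ} (R : Rig d t) (σ : Equiv.Perm ℕ) {S : Finset (Sym2 ℕ)}
    {e : Sym2 ℕ} (h : R.Cl S e) : R.Cl (S.image (Sym2.map σ)) (Sym2.map σ e) := by
  rw [Rig.Cl_def] at h ⊢
  rw [← Finset.image_insert, R.r_perm, R.r_perm, h]

theorem m5_map_fix {σ : Equiv.Perm ℕ} {e : Sym2 ℕ} (h : ∀ x ∈ e, σ x = x) :
    Sym2.map σ e = e := by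
  induction e using Sym2.ind with
  | _ a b =>
    rw [Sym2.map_mk, h a (Sym2.mem_mk_left a b), h b (Sym2.mem_mk_right a b)]

theorem Rig.m5_avoid {d t : ℕ} (R : Rig d t) {S : Finset (Sym2 ℕ)}
    (hS : ∀ e ∈ S, ¬ e.IsDiag) {J : Finset ℕ} (hJ : J.card ≤ d) (A : Finset ℕ) :
    (∀ e ∈ S, ∀ a ∈ A, a ∉ e) → Disjoint A J → ∀ f : Sym2 ℕ, (∀ a ∈ A, a ∉ f) →
      R.Cl (S ∪ Kb A J) f → R.Cl S f := by
  classical
  induction A using Finset.induction_on with
  | empty =>
    intro _ _ f _ h
    have : S ∪ Kb ∅ J = S := by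
      ext e
      simp [mem_Kb]
    rwa [this] at h
  | insert a A ha ih =>
    intro hA hAJ f hf h
    have haJ : a ∉ J := Finset.disjoint_left.1 hAJ (Finset.mem_insert_self a A)
    have hAJ' : Disjoint A J := Finset.disjoint_of_subset_left (Finset.subset_insert a A) hAJ
    have hdiag : ∀ e ∈ S ∪ Kb (insert a A) J, ¬ e.IsDiag := by
      intro e he
      rcases Finset.mem_union.1 he with he | he
      · exact hS e he
      · obtain ⟨x, hx, y, hy, rfl⟩ := mem_Kb.1 he
        rw [Sym2.mk_isDiag_iff]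
        rintro rfl
        exact Finset.disjoint_left.1 hAJ hx hy
    have hdel : del {a} (S ∪ Kb (insert a A) J) = S ∪ Kb A J := by
      ext e
      rw [mem_del, Finset.mem_union, Finset.mem_union]
      constructor
      · rintro ⟨he | he, h2⟩
        · exact Or.inl he
        · right
          obtain ⟨x, hx, y, hy, rfl⟩ := mem_Kb.1 he
          rcases Finset.mem_insert.1 hx with rfl | hx
          · exact absurd (Finset.mem_singleton_self x) (h2 x (Sym2.mem_mk_left x y))
          · exact mem_Kb.2 ⟨x, hx, y, hy, rfl⟩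
      · rintro (he | he)
        · refine ⟨Or.inl he, fun x hx hxa => ?_⟩
          rw [Finset.mem_singleton.1 hxa] at hx
          exact hA e he a (Finset.mem_insert_self a A) hx
        · obtain ⟨x, hx, y, hy, rfl⟩ := mem_Kb.1 he
          refine ⟨Or.inr (mem_Kb.2 ⟨x, Finset.mem_insert_of_mem hx, y, hy, rfl⟩),
            fun z hz hza => ?_⟩
          rw [Finset.mem_singleton.1 hza] at hz
          rcases Sym2.mem_iff.1 hz with hz | hz
          · exact ha (hz ▸ hx)
          · exact haJ (hz ▸ hy)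
    have hdeg : ((S ∪ Kb (insert a A) J).filter (fun e => a ∈ e)).card ≤ d := by
      refine le_trans (Finset.card_le_card (t := J.image (fun u => s(a, u))) ?_)
        (le_trans Finset.card_image_le hJ)
      intro e he
      rw [Finset.mem_filter, Finset.mem_union] at he
      rcases he with ⟨he | he, hae⟩
      · exact absurd hae (hA e he a (Finset.mem_insert_self a A))
      · obtain ⟨x, hx, y, hy, rfl⟩ := mem_Kb.1 he
        rcases Sym2.mem_iff.1 hae with h1 | h1
        · subst h1
          exact Finset.mem_image.2 ⟨y, hy, rfl⟩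
        · exact absurd (h1 ▸ hy) haJ
    have h2 := R.Cl_avoid hdiag hdeg (hf a (Finset.mem_insert_self a A)) h
    rw [hdel] at h2
    exact ih (fun e he b hb => hA e he b (Finset.mem_insert_of_mem hb)) hAJ' f
      (fun b hb => hf b (Finset.mem_insert_of_mem hb)) h2

/-- (hint) adding new vertices joined to a clique does not change the closure elsewhere. -/
theorem Rig.Cl_Kb_avoid {d t : ℕ} (R : Rig d t) {S : Finset (Sym2 ℕ)}
    (hS : ∀ e ∈ S, ¬ e.IsDiag) {A C : Finset ℕ}
    (hA : ∀ e ∈ S, ∀ a ∈ A, a ∉ e) (hAC : Disjoint A C) (hC : R.Clq S C) (hdC : d ≤ C.card)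
    {f : Sym2 ℕ} (hf : ∀ a ∈ A, a ∉ f) (h : R.Cl (S ∪ Kb A C) f) : R.Cl S f := by
  classical
  obtain ⟨J, hJC, hJd⟩ := Finset.exists_subset_card_eq hdC
  refine R.m5_avoid hS hJd.le A hA (Finset.disjoint_of_subset_right hJC hAC) f hf ?_
  refine R.Cl_trans (T := Kb A C) ?_ ?_
  · intro g hg
    obtain ⟨a, ha, b, hb, rfl⟩ := mem_Kb.1 hg
    have h1 := R.Cl_star (v := a) hC hJC hJd.ge (Finset.disjoint_left.1 hAC ha) hb
    refine R.Cl_mono ?_ h1
    refine Finset.union_subset_union_right ?_
    intro e he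
    obtain ⟨u, hu, rfl⟩ := mem_star.1 he
    exact mem_Kb.2 ⟨a, ha, u, hu, rfl⟩
  · refine R.Cl_mono ?_ h
    exact Finset.union_subset_union_left Finset.subset_union_left

/-- M5 (clone lemma). (hint) `v` does not occur in `S`, `C` is a clique of the closure of `S`, `v`
is joined to all of `C`; if then `vq` is in the closure, `q` is joined to all of `C` in the closure
of `S`. Proof: take `d` new vertices `v_1..v_d` (clones of `v`, transpositions and `r_perm`), all
joined to `C`; `q` is joined in the closure of `S ∪ Kb {v_i} C` to `v_1..v_d`, which together with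
`C` form a clique (`Clq_Kb`), so `qy` is in that closure (`Clq_insert`); that closure is the closure
of `S ∪` (`d` edges at each `v_i`), and `Cl_avoid` removes the `v_i`. -/
theorem Rig.clone {d t : ℕ} (R : Rig d t) (hd : 1 ≤ d) {S : Finset (Sym2 ℕ)}
    (hS : ∀ e ∈ S, ¬ e.IsDiag) {C : Finset ℕ}
    {v q : ℕ} (hv : ∀ e ∈ S, v ∉ e) (hvC : v ∉ C) (hqC : q ∉ C) (hvq : v ≠ q) (hC : R.Clq S C)
    (hdC : d ≤ C.card) (h : R.Cl (S ∪ star v C) s(v, q)) : ∀ y ∈ C, R.Cl S s(q, y) := by
  classical
  intro y hy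
  -- the new vertices
  set B : Finset ℕ := (S.biUnion fun e => e.toFinset) ∪ C ∪ {v, q} with hB
  obtain ⟨A, hAcard, hAB⟩ : ∃ A : Finset ℕ, A.card = d ∧ Disjoint A B := by
    refine ⟨Finset.Ico (B.sup id + 1) (B.sup id + 1 + d), by simp, ?_⟩
    rw [Finset.disjoint_left]
    intro a ha hb
    have h1 : a ≤ B.sup id := Finset.le_sup (f := id) hb
    have h2 := (Finset.mem_Ico.1 ha).1
    omega
  have hAS : ∀ e ∈ S, ∀ a ∈ A, a ∉ e := by
    intro e he a ha hae
    refine Finset.disjoint_left.1 hAB ha ?_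
    rw [hB, Finset.mem_union, Finset.mem_union, Finset.mem_biUnion]
    exact Or.inl (Or.inl ⟨e, he, Sym2.mem_toFinset.2 hae⟩)
  have hAC : Disjoint A C := by
    rw [Finset.disjoint_left]
    intro a ha hc
    refine Finset.disjoint_left.1 hAB ha ?_
    rw [hB, Finset.mem_union, Finset.mem_union]
    exact Or.inl (Or.inr hc)
  have hvq' : ∀ a ∈ A, a ≠ v ∧ a ≠ q := by
    intro a ha
    constructor
    · rintro rfl
      refine Finset.disjoint_left.1 hAB ha ?_
      rw [hB]
      simp
    · rintro rfl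
      refine Finset.disjoint_left.1 hAB ha ?_
      rw [hB]
      simp
  -- the clones
  have hcl : ∀ a ∈ A, R.Cl (S ∪ Kb A C) s(a, q) := by
    intro a ha
    have h1 := R.m5_perm (Equiv.swap v a) h
    have h2 : Sym2.map (Equiv.swap v a) s(v, q) = s(a, q) := by
      rw [Sym2.map_mk, Equiv.swap_apply_left,
        Equiv.swap_apply_of_ne_of_ne hvq.symm (hvq' a ha).2.symm]
    rw [h2] at h1
    refine R.Cl_mono ?_ h1
    intro e he
    obtain ⟨f, hf, rfl⟩ := Finset.mem_image.1 he
    rcases Finset.mem_union.1 hf with hf1 | hf1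
    · rw [m5_map_fix]
      · exact Finset.mem_union_left _ hf1
      · intro x hx
        apply Equiv.swap_apply_of_ne_of_ne
        · intro h3
          exact hv f hf1 (h3 ▸ hx)
        · intro h3
          exact hAS f hf1 a ha (h3 ▸ hx)
    · obtain ⟨u, hu, rfl⟩ := mem_star.1 hf1
      refine Finset.mem_union_right _ (mem_Kb.2 ⟨a, ha, u, hu, ?_⟩)
      rw [Sym2.map_mk, Equiv.swap_apply_left, Equiv.swap_apply_of_ne_of_ne]
      · rintro rfl
        exact hvC hu
      · rintro rfl
        exact Finset.disjoint_left.1 hAC ha hu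
  have hK := R.Clq_Kb hC hAC hdC
  have hK2 : R.Clq (S ∪ Kb A C) (insert q (A ∪ C)) := by
    refine R.Clq_insert hK Finset.subset_union_left hAcard.ge ?_
    intro u hu _
    rw [Sym2.eq_swap]
    exact hcl u hu
  have h3 : R.Cl (S ∪ Kb A C) s(q, y) := by
    refine hK2 q (Finset.mem_insert_self _ _) y ?_ ?_
    · exact Finset.mem_insert_of_mem (Finset.mem_union_right _ hy)
    · rintro rfl
      exact hqC hy
  refine R.Cl_Kb_avoid hS hAS hAC hC hdC ?_ h3
  intro a ha hmem
  rcases Sym2.mem_iff.1 hmem with h4 | h4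
  · exact (hvq' a ha).2 h4
  · exact Finset.disjoint_left.1 hAC ha (h4 ▸ hy)

end Pool.Agent.Helper55.ML
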