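import Pool.Agent.Helper55.ML.M2
import Pool.Agent.Helper55.ML.M5

set_option autoImplicit false
open Finset Filter Topology

namespace Pool.Agent.Helper55.ML

theorem m13_core {d n : ℕ} {G : Finset (Sym2 ℕ)} (hG : G ⊆ En n) {C : Finset (Sym2 ℕ)}
    (hC : ∀ f ∈ C, f ∈ G ∨ ∀ x ∈ f, x ∈ core d n G)
    (hdeg : ∀ v, (∃ f ∈ C, v ∈ f) → d + 1 ≤ (C.filter (fun f => v ∈ f)).card) :
    ∀ f ∈ C, ∀ x ∈ f, x ∈ core d n G := by
  classical
  set V : Finset ℕ := C.biUnion fun f => f.toFinset with hV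
  have hmV : ∀ x, x ∈ V ↔ ∃ f ∈ C, x ∈ f := by
    intro x
    rw [hV, Finset.mem_biUnion]
    simp only [Sym2.mem_toFinset]
  have hVn : core d n G ∪ V ⊆ range n := by
    intro x hx
    rcases Finset.mem_union.1 hx with hx | hx
    · exact core_subset d n G hx
    · obtain ⟨f, hf, hxf⟩ := (hmV x).1 hx
      rcases hC f hf with h | h
      · exact Finset.mem_range.2 ((mem_En.1 (hG h)).1 x hxf)
      · exact core_subset d n G (h x hxf)
  have hsub : core d n G ∪ V ⊆ core d n G := by
    refine subset_core hVn fun u hu => ?_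
    by_cases huc : u ∈ core d n G
    · exact (core_deg huc).trans (Finset.card_le_card
        (Finset.inter_subset_inter_left Finset.subset_union_left))
    · have huV : u ∈ V := by
        rcases Finset.mem_union.1 hu with h | h
        · exact absurd h huc
        · exact h
      refine (hdeg u ((hmV u).1 huV)).trans ?_
      refine (Finset.card_le_card (t := (nb n G u ∩ (core d n G ∪ V)).image
        (fun w => s(u, w))) ?_).trans Finset.card_image_le
      intro f hf
      rw [Finset.mem_filter] at hf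
      obtain ⟨hfC, huf⟩ := hf
      have hfG : f ∈ G := by
        rcases hC f hfC with h | h
        · exact h
        · exact absurd (h u huf) huc
      obtain ⟨w, rfl⟩ := Sym2.mem_iff_exists.1 huf
      refine Finset.mem_image.2 ⟨w, ?_, rfl⟩
      rw [Finset.mem_inter, mem_nb]
      exact ⟨⟨(mem_En.1 (hG hfG)).1 w (Sym2.mem_mk_right u w), hfG⟩,
        Finset.mem_union_right _ ((hmV w).2 ⟨_, hfC, Sym2.mem_mk_right u w⟩)⟩
  intro f hf x hx
  exact hsub (Finset.mem_union_right _ ((hmV x).2 ⟨f, hf, hx⟩))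

/-- M13 (hint): circuits live in the core. For `a, b` in the core, a circuit through `s(a,b)` in
`G ∪ {s(a,b)}` has degrees at least `d+1`, so together with the core it has internal degrees at
least `d+1` in `G`. -/
theorem Rig.Cl_core {d t : ℕ} (R : Rig d t) {n : ℕ} {G : Finset (Sym2 ℕ)} (hG : G ⊆ En n)
    {a b : ℕ} (ha : a ∈ core d n G) (hb : b ∈ core d n G) (hab : a ≠ b)
    (h : R.Cl G s(a, b)) : R.Cl (ins (core d n G) G) s(a, b) := by
  classical
  have hab' : ∀ x ∈ s(a, b), x ∈ core d n G := by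
    intro x hx
    rcases Sym2.mem_iff.1 hx with rfl | rfl
    · exact ha
    · exact hb
  by_cases hmem : s(a, b) ∈ G
  · exact R.Cl_of_mem (mem_ins.2 ⟨hmem, hab'⟩)
  · obtain ⟨C, hCG, heC, hcl, hdeg⟩ := R.exists_circuit_through
      (fun e he => (mem_En.1 (hG he)).2) (by rwa [Sym2.mk_isDiag_iff]) hmem h
    have hcore := m13_core (C := C) hG (by
      intro f hf
      rcases Finset.mem_insert.1 (hCG hf) with rfl | h1
      · exact Or.inr hab'
      · exact Or.inl h1) hdeg
    refine R.Cl_mono ?_ (hcl _ heC)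
    intro f hf
    rw [Finset.mem_erase] at hf
    rw [mem_ins]
    refine ⟨?_, hcore f hf.2⟩
    rcases Finset.mem_insert.1 (hCG hf.2) with h1 | h1
    · exact absurd h1 hf.1
    · exact h1

theorem Rig.Cl_core_del {d t : ℕ} (R : Rig d t) {n : ℕ} {G : Finset (Sym2 ℕ)} (hG : G ⊆ En n)
    {v a b : ℕ} (ha : a ∈ core d n G) (hb : b ∈ core d n G) (hav : a ≠ v) (hbv : b ≠ v)
    (hab : a ≠ b) (h : R.Cl (del {v} G) s(a, b)) :
    R.Cl (ins ((core d n G).erase v) G) s(a, b) := by
  classical
  have hab' : ∀ x ∈ s(a, b), x ∈ core d n G ∧ x ≠ v := by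
    intro x hx
    rcases Sym2.mem_iff.1 hx with rfl | rfl
    · exact ⟨ha, hav⟩
    · exact ⟨hb, hbv⟩
  by_cases hmem : s(a, b) ∈ del {v} G
  · refine R.Cl_of_mem (mem_ins.2 ⟨(mem_del.1 hmem).1, fun x hx => ?_⟩)
    exact Finset.mem_erase.2 ⟨(hab' x hx).2, (hab' x hx).1⟩
  · obtain ⟨C, hCG, heC, hcl, hdeg⟩ := R.exists_circuit_through
      (fun e he => (mem_En.1 (hG (mem_del.1 he).1)).2) (by rwa [Sym2.mk_isDiag_iff]) hmem h
    have hcore := m13_core (C := C) hG (by
      intro f hf
      rcases Finset.mem_insert.1 (hCG hf) with rfl | h1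
      · exact Or.inr fun x hx => (hab' x hx).1
      · exact Or.inl (mem_del.1 h1).1) hdeg
    refine R.Cl_mono ?_ (hcl _ heC)
    intro f hf
    rw [Finset.mem_erase] at hf
    rw [mem_ins]
    have hfd : f ∈ del {v} G := by
      rcases Finset.mem_insert.1 (hCG hf.2) with h1 | h1
      · exact absurd h1 hf.1
      · exact h1
    refine ⟨(mem_del.1 hfd).1, fun x hx => Finset.mem_erase.2 ⟨?_, hcore f hf.2 x hx⟩⟩
    rintro rfl
    exact (mem_del.1 hfd).2 x hx (Finset.mem_singleton_self x)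

/-- A dependent graph has a nonempty core. -/
theorem Rig.core_nonempty {d t : ℕ} (R : Rig d t) {n : ℕ} {G : Finset (Sym2 ℕ)} (hG : G ⊆ En n)
    (h : R.Dep G) : (core d n G).Nonempty := by
  classical
  obtain ⟨C, hCG, hne, _, hdeg⟩ := R.exists_circuit (fun e he => (mem_En.1 (hG he)).2) h
  have hcore := m13_core (d := d) (C := C) hG (fun f hf => Or.inl (hCG hf)) hdeg
  obtain ⟨f, hf⟩ := hne
  induction f using Sym2.ind with
  | _ a b => exact ⟨a, hcore _ hf a (Sym2.mem_mk_left a b)⟩

end Pool.Agent.Helper55.ML
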