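import Pool.Agent.Helper55.ML.M3
import Pool.Agent.Helper55.ML.M5

set_option autoImplicit false
open Finset Filter Topology

namespace Pool.Agent.Helper55.ML

/-- M8 (separation over a clique). (hint) join all vertices of `L` completely to `Y0`: then every
edge inside `Y0 ∪ L` is in the closure of `Kp Y0 ∪ Kb L Y0` (`Clq_Kb`), so
`Cl (Kp Y0 ∪ ins (Y0 ∪ K) S ∪ Kb L Y0) f`; then `Cl_Kb_avoid`. -/
theorem Rig.separation {d t : ℕ} (R : Rig d t) {S : Finset (Sym2 ℕ)}
    (hS : ∀ e ∈ S, ¬ e.IsDiag) {Y0 K L : Finset ℕ} (hYK : Disjoint Y0 K) (hYL : Disjoint Y0 L)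
    (hKL : Disjoint K L) (hd : d ≤ Y0.card)
    (h : ∀ e ∈ S, e.toFinset ⊆ Y0 ∪ K ∨ e.toFinset ⊆ Y0 ∪ L) {f : Sym2 ℕ}
    (hf : f.toFinset ⊆ Y0 ∪ K) (hcl : R.Cl (Kp Y0 ∪ S) f) :
    R.Cl (Kp Y0 ∪ ins (Y0 ∪ K) S) f := by
  have hoff : ∀ a ∈ L, a ∉ Y0 ∪ K := by
    intro a ha hm
    rcases Finset.mem_union.1 hm with h1 | h1
    · exact Finset.disjoint_left.1 hYL h1 ha
    · exact Finset.disjoint_left.1 hKL h1 ha
  have hC : R.Clq (Kp Y0 ∪ ins (Y0 ∪ K) S) Y0 := by
    intro a ha b hb hab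
    exact R.Cl_of_mem (Finset.mem_union_left _ (mk_mem_Kp.2 ⟨ha, hb, hab⟩))
  refine R.Cl_Kb_avoid (A := L) (C := Y0) ?_ ?_ hYL.symm hC hd ?_ ?_
  · intro e he
    rcases Finset.mem_union.1 he with h1 | h1
    · exact (mem_Kp.1 h1).2
    · exact hS e (ins_subset _ _ h1)
  · intro e he a ha hae
    rcases Finset.mem_union.1 he with h1 | h1
    · exact Finset.disjoint_left.1 hYL ((mem_Kp.1 h1).1 a hae) ha
    · exact hoff a ha ((mem_ins.1 h1).2 a hae)
  · intro a ha haf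
    exact hoff a ha (hf (Sym2.mem_toFinset.2 haf))
  · refine R.Cl_trans' (T := Kp Y0 ∪ S) ?_ hcl
    intro g hg
    rcases Finset.mem_union.1 hg with h1 | h1
    · exact R.Cl_of_mem (Finset.mem_union_left _ (Finset.mem_union_left _ h1))
    · rcases h g h1 with h2 | h2
      · refine R.Cl_of_mem (Finset.mem_union_left _ (Finset.mem_union_right _ (mem_ins.2
          ⟨h1, fun x hx => h2 (Sym2.mem_toFinset.2 hx)⟩)))
      · have h3 := R.Clq_Kb hC hYL.symm hd
        induction g using Sym2.ind with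
        | _ a b =>
          refine h3 a ?_ b ?_ ?_
          · rw [Finset.union_comm]
            exact h2 (Sym2.mem_toFinset.2 (Sym2.mem_mk_left a b))
          · rw [Finset.union_comm]
            exact h2 (Sym2.mem_toFinset.2 (Sym2.mem_mk_right a b))
          · intro hab
            exact hS _ h1 (Sym2.mk_isDiag_iff.2 hab)

end Pool.Agent.Helper55.ML
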