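import Pool.Agent.Helper55.ML.L4
import Pool.Agent.Helper55.ML.M8
import Pool.Agent.Helper55.ML.M13

set_option autoImplicit false
open Finset Filter Topology

namespace Pool.Agent.Helper55.ML

theorem l5_comm {G : Finset (Sym2 ℕ)} {a b : ℕ} : s(a, b) ∈ G ↔ s(b, a) ∈ G := by
  rw [Sym2.eq_swap]

/-- every component of the lost part is adjacent to `v` -/
theorem l5_comp {d t : ℕ} (R : Rig d t) {n : ℕ} {a : ℝ} {G : Finset (Sym2 ℕ)} {v z : ℕ}
    {K : Finset ℕ} (hG : G ⊆ En n) (hclqG : R.Clq G (R.Y a n G)) (hAY : core d n G ⊆ R.Y a n G)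
    (hclq : R.Clq (del {v} G) (R.Y a n (del {v} G))) (hne : (R.Y a n (del {v} G)).Nonempty)
    (hvY : v ∉ R.Y a n (del {v} G))
    (hd2 : d + 2 ≤ (R.Y a n (del {v} G) ∩ core d n (del {v} G)).card)
    (hK : K ⊆ (core d n G).erase v \ R.Y a n (del {v} G)) (hz : z ∈ K)
    (hKL : ∀ x ∈ K, ∀ y ∈ ((core d n G).erase v \ R.Y a n (del {v} G)) \ K, s(x, y) ∉ G)
    (hKv : ∀ x ∈ K, s(x, v) ∉ G) : False := by
  classical
  have hdiag : ∀ e ∈ G, ¬ e.IsDiag := fun e he => (mem_En.1 (hG he)).2
  have hzL := hK hz
  rw [Finset.mem_sdiff, Finset.mem_erase] at hzL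
  obtain ⟨⟨hzv, hzA⟩, hzY⟩ := hzL
  have hzn : z < n := Finset.mem_range.1 (core_subset d n G hzA)
  have hcoresub : core d n (del {v} G) ⊆ core d n G := core_mono (del_subset _ _)
  -- the pair `z y` is in the closure of `del {v} G`
  have key : ∀ y ∈ R.Y a n (del {v} G) ∩ core d n (del {v} G), R.Cl (del {v} G) s(z, y) := by
    intro y hy
    rw [Finset.mem_inter] at hy
    have hyA : y ∈ core d n G := hcoresub hy.2
    have hzy : z ≠ y := by
      rintro rfl
      exact hzY hy.1
    have h1 : R.Cl G s(z, y) := hclqG z (hAY hzA) y (hAY hyA) hzy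
    have h2 : R.Cl (ins (core d n G) G) s(z, y) := R.Cl_core hG hzA hyA hzy h1
    have h3 : R.Cl (Kp (R.Y a n (del {v} G)) ∪ ins (core d n G) G) s(z, y) :=
      R.Cl_mono Finset.subset_union_right h2
    have hYK : Disjoint (R.Y a n (del {v} G)) K := by
      rw [Finset.disjoint_left]
      intro x hx hxK
      exact (Finset.mem_sdiff.1 (hK hxK)).2 hx
    have h4 := R.separation (S := ins (core d n G) G) (Y0 := R.Y a n (del {v} G)) (K := K)
      (L := core d n G \ (R.Y a n (del {v} G) ∪ K))
      (fun e he => hdiag e (ins_subset _ _ he)) hYK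
      (by
        rw [Finset.disjoint_left]
        intro x hx hx2
        exact (Finset.mem_sdiff.1 hx2).2 (Finset.mem_union_left _ hx))
      (by
        rw [Finset.disjoint_left]
        intro x hx hx2
        exact (Finset.mem_sdiff.1 hx2).2 (Finset.mem_union_right _ hx))
      (by
        have := Finset.card_le_card (Finset.inter_subset_left (s₁ := R.Y a n (del {v} G))
          (s₂ := core d n (del {v} G)))
        omega)
      (by
        intro e he
        induction e using Sym2.ind with
        | _ p q =>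
          rw [mem_ins] at he
          obtain ⟨heG, heA⟩ := he
          have hpA : p ∈ core d n G := heA p (Sym2.mem_mk_left p q)
          have hqA : q ∈ core d n G := heA q (Sym2.mem_mk_right p q)
          -- an edge with an end in `K` has the other end in `Y ∪ K`
          have aux : ∀ x y : ℕ, x ∈ K → y ∈ core d n G → s(x, y) ∈ G →
              y ∈ R.Y a n (del {v} G) ∪ K := by
            intro x y hx hy hxy
            by_contra hcon
            rw [Finset.mem_union, not_or] at hcon
            by_cases hyv : y = v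
            · rw [hyv] at hxy
              exact hKv x hx hxy
            · refine hKL x hx y ?_ hxy
              rw [Finset.mem_sdiff, Finset.mem_sdiff, Finset.mem_erase]
              exact ⟨⟨⟨hyv, hy⟩, hcon.1⟩, hcon.2⟩
          by_cases hpK : p ∈ K
          · left
            intro x hx
            rw [Sym2.mem_toFinset, Sym2.mem_iff] at hx
            rcases hx with rfl | rfl
            · exact Finset.mem_union_right _ hpK
            · exact aux p x hpK hqA heG
          · by_cases hqK : q ∈ K
            · left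
              intro x hx
              rw [Sym2.mem_toFinset, Sym2.mem_iff] at hx
              rcases hx with rfl | rfl
              · exact aux q x hqK hpA (l5_comm.1 heG)
              · exact Finset.mem_union_right _ hqK
            · right
              intro x hx
              rw [Sym2.mem_toFinset, Sym2.mem_iff] at hx
              have hxA : x ∈ core d n G := by
                rcases hx with rfl | rfl
                · exact hpA
                · exact hqA
              have hxK : x ∉ K := by
                rcases hx with rfl | rfl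
                · exact hpK
                · exact hqK
              by_cases hxY : x ∈ R.Y a n (del {v} G)
              · exact Finset.mem_union_left _ hxY
              · apply Finset.mem_union_right
                rw [Finset.mem_sdiff, Finset.mem_union, not_or]
                exact ⟨hxA, hxY, hxK⟩)
      (f := s(z, y))
      (by
        intro x hx
        rw [Sym2.mem_toFinset, Sym2.mem_iff] at hx
        rcases hx with rfl | rfl
        · exact Finset.mem_union_right _ hz
        · exact Finset.mem_union_left _ hy.1)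
      h3
    refine R.Cl_trans' ?_ h4
    intro f hf
    rw [Finset.mem_union] at hf
    rcases hf with hf | hf
    · induction f using Sym2.ind with
      | _ p q =>
        rw [mk_mem_Kp] at hf
        exact hclq p hf.1 q hf.2.1 hf.2.2
    · rw [mem_ins] at hf
      apply R.Cl_of_mem
      rw [mem_del]
      refine ⟨ins_subset _ _ hf.1, fun x hx hxv => ?_⟩
      rw [Finset.mem_singleton] at hxv
      have h5 := hf.2 x hx
      rw [hxv, Finset.mem_union] at h5
      rcases h5 with h5 | h5
      · exact hvY h5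
      · have h6 := hK h5
        rw [Finset.mem_sdiff, Finset.mem_erase] at h6
        exact h6.1.1 rfl
  exact hzY (R.mem_Y_of_join hclq hne hzn (N := R.Y a n (del {v} G) ∩ core d n (del {v} G))
    Finset.inter_subset_left (by omega) (fun u hu _ => key u hu))

/-- if every component of `L` is adjacent to `v` then `L ∪ {v}` is connected -/
theorem l5_conn {G : Finset (Sym2 ℕ)} {L : Finset ℕ} {v : ℕ}
    (h : ∀ K ⊆ L, K.Nonempty → Conn G K → (∀ a ∈ K, ∀ b ∈ L \ K, s(a, b) ∉ G) →
      ∃ a ∈ K, s(a, v) ∈ G) : Conn G (insert v L) := by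
  classical
  obtain ⟨K', hK', hvK', hc', hno'⟩ := exists_component (G := G) (Finset.mem_insert_self v L)
  by_cases heq : K' = insert v L
  · rw [← heq]
    exact hc'
  · exfalso
    have hex : ∃ z ∈ insert v L, z ∉ K' := by
      by_contra hcon
      push Not at hcon
      exact heq (Finset.Subset.antisymm hK' hcon)
    obtain ⟨z, hz, hzK'⟩ := hex
    have hzL : z ∈ L := by
      rcases Finset.mem_insert.1 hz with h1 | h1
      · exact absurd (h1 ▸ hvK') hzK'
      · exact h1
    obtain ⟨K, hK, hzK, hc, hno⟩ := exists_component (G := G) hzL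
    obtain ⟨a, haK, hav⟩ := h K hK ⟨z, hzK⟩ hc hno
    by_cases hint : (K ∩ K').Nonempty
    · have hne : K ∩ K' ≠ K := by
        intro h1
        have h2 : z ∈ K ∩ K' := by rw [h1]; exact hzK
        exact hzK' (Finset.mem_inter.1 h2).2
      obtain ⟨p, hp, q, hq, hpq⟩ := hc.2 (K ∩ K') Finset.inter_subset_left hint hne
      rw [Finset.mem_sdiff, Finset.mem_inter, not_and] at hq
      refine hno' p (Finset.mem_inter.1 hp).2 q ?_ hpq
      rw [Finset.mem_sdiff]
      exact ⟨Finset.mem_insert_of_mem (hK hq.1), hq.2 hq.1⟩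
    · have haK' : a ∉ K' := fun h1 => hint ⟨a, Finset.mem_inter.2 ⟨haK, h1⟩⟩
      refine hno' v hvK' a ?_ (l5_comm.1 hav)
      rw [Finset.mem_sdiff]
      exact ⟨Finset.mem_insert_of_mem (hK haK), haK'⟩

/-- the counting part: `W` is a small connected set of core vertices of excess at most zero, all
vertices except `v` have few neighbours outside: then there is a weak set -/
theorem l5_weak {d n : ℕ} {G : Finset (Sym2 ℕ)} (hG : G ⊆ En n) {L : Finset ℕ} {v : ℕ}
    (hv : v ∈ core d n G) (hvL : v ∉ L) (hL : L ⊆ core d n G) (hLne : L.Nonempty)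
    (hconn : Conn G (insert v L)) (hexc : exc G (insert v L) ≤ 0)
    (hdeg : ∀ u ∈ L, (nb n G u ∩ core d n G).card + 1 ≤ (nb n G u ∩ insert v L).card + d) :
    ∃ S, Weak d n G S := by
  classical
  have hWsub : insert v L ⊆ core d n G := Finset.insert_subset hv hL
  have hWn : insert v L ⊆ range n := hWsub.trans (core_subset d n G)
  have hsum := sum_deg hG hWn
  rw [Finset.sum_insert hvL, Finset.card_insert_of_notMem hvL] at hsum
  push_cast at hsum
  -- internal degrees
  have hd2 : ∀ u ∈ L, 2 ≤ (nb n G u ∩ insert v L).card := by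
    intro u hu
    have h1 := hdeg u hu
    have h2 := core_deg (hL hu)
    omega
  have hv1 : 1 ≤ (nb n G v ∩ insert v L).card := by
    obtain ⟨u, hu, huv, huG⟩ := hconn.exists_adj (Finset.mem_insert_self v L) (by
      rw [Finset.card_insert_of_notMem hvL]
      have := hLne.card_pos
      omega)
    apply Finset.card_pos.2
    refine ⟨u, Finset.mem_inter.2 ⟨?_, hu⟩⟩
    rw [mem_nb]
    exact ⟨Finset.mem_range.1 (hWn hu), huG⟩
  -- vertices of internal degree two have core degree `d + 1`
  have hcd : ∀ u ∈ L, (nb n G u ∩ insert v L).card = 2 →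
      (nb n G u ∩ core d n G).card = d + 1 := by
    intro u hu h
    have h1 := hdeg u hu
    have h2 := core_deg (hL hu)
    omega
  have hsum2 : (∑ u ∈ L, (((nb n G u ∩ insert v L).card : ℤ) - 2)) =
      2 * exc G (insert v L) + 2 - (nb n G v ∩ insert v L).card := by
    rw [Finset.sum_sub_distrib, Finset.sum_const, nsmul_eq_mul]
    linarith
  have hnn : ∀ u ∈ L, (0 : ℤ) ≤ ((nb n G u ∩ insert v L).card : ℤ) - 2 := by
    intro u hu
    have := hd2 u hu
    have h2 : (2 : ℤ) ≤ ((nb n G u ∩ insert v L).card : ℤ) := by exact_mod_cast this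
    linarith
  by_cases hcase : 2 ≤ (nb n G v ∩ insert v L).card
  · -- all internal degrees are two
    have hz : (∑ u ∈ L, (((nb n G u ∩ insert v L).card : ℤ) - 2)) = 0 := by
      have h1 : (2 : ℤ) ≤ ((nb n G v ∩ insert v L).card : ℤ) := by exact_mod_cast hcase
      have h2 := Finset.sum_nonneg hnn
      linarith
    rw [Finset.sum_eq_zero_iff_of_nonneg hnn] at hz
    refine ⟨insert v L, hWsub, ⟨v, Finset.mem_insert_self v L⟩, ?_, v, ?_⟩
    · intro u hu
      rcases Finset.mem_insert.1 hu with rfl | hu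
      · exact hcase
      · exact hd2 u hu
    · intro u hu huv
      have huL : u ∈ L := (Finset.mem_insert.1 hu).resolve_left huv
      apply hcd u huL
      have := hz u huL
      omega
  · -- `v` has internal degree one
    have hv1' : (nb n G v ∩ insert v L).card = 1 := by omega
    rw [hv1'] at hsum2
    have hnn2 := Finset.sum_nonneg hnn
    have hexc0 : exc G (insert v L) = 0 := by
      rw [hsum2] at hnn2
      push_cast at hnn2
      omega
    have hs1 : (∑ u ∈ L, (((nb n G u ∩ insert v L).card : ℤ) - 2)) = 1 := by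
      rw [hsum2, hexc0]
      norm_num
    -- the exceptional vertex
    have hex : ∃ u0 ∈ L, ∀ u ∈ L, u ≠ u0 → (nb n G u ∩ insert v L).card = 2 := by
      have h1 : ∃ u0 ∈ L, (0 : ℤ) < ((nb n G u0 ∩ insert v L).card : ℤ) - 2 := by
        by_contra hcon
        push Not at hcon
        have h2 : (∑ u ∈ L, (((nb n G u ∩ insert v L).card : ℤ) - 2)) ≤ 0 :=
          Finset.sum_nonpos hcon
        linarith
      obtain ⟨u0, hu0, hpos⟩ := h1
      refine ⟨u0, hu0, fun u hu hne => ?_⟩
      have h3 := Finset.add_sum_erase L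
        (fun u => ((nb n G u ∩ insert v L).card : ℤ) - 2) hu0
      have h4 : ((nb n G u ∩ insert v L).card : ℤ) - 2 ≤
          ∑ x ∈ L.erase u0, (((nb n G x ∩ insert v L).card : ℤ) - 2) :=
        Finset.single_le_sum (f := fun x => ((nb n G x ∩ insert v L).card : ℤ) - 2)
          (fun x hx => hnn x (Finset.mem_of_mem_erase hx)) (Finset.mem_erase.2 ⟨hne, hu⟩)
      have h5 := hnn u hu
      have h6 : (((nb n G u0 ∩ insert v L).card : ℤ) - 2) +
          ∑ x ∈ L.erase u0, (((nb n G x ∩ insert v L).card : ℤ) - 2) = 1 := by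
        rw [← hs1]
        exact h3
      omega
    obtain ⟨u0, hu0, hu1⟩ := hex
    obtain ⟨S, hS, hSne, hSd⟩ := exists_two_core hG hWn ⟨v, Finset.mem_insert_self v L⟩
      (by rw [hexc0])
    have hvS : v ∉ S := by
      intro h
      have h1 := hSd v h
      have h2 : (nb n G v ∩ S).card ≤ (nb n G v ∩ insert v L).card :=
        Finset.card_le_card (Finset.inter_subset_inter_left hS)
      omega
    refine ⟨S, hS.trans hWsub, hSne, hSd, u0, ?_⟩
    intro u hu hne
    have huL : u ∈ L := by
      rcases Finset.mem_insert.1 (hS hu) with h | h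
      · exact absurd (h ▸ hu) hvS
      · exact h
    exact hcd u huL (hu1 u huL hne)

/-- L5 (Step 2; hint). `A = core d n G ⊆ Y(G)`, `v ∈ A`, `Y_v = Y(del {v} G)`,
`L = A \ (Y_v ∪ {v})`, suppose nonempty. (1) `L ∪ {v}` is connected: let `K` be a component of `L`
not adjacent to `v`; by `separation` (`Y0 = Y_v`, `K`, `L' = A \ (Y_v ∪ K)`, `S = ins A G`,
`f = s(z,y)`, `z ∈ K`, `y ∈ A ∩ Y_v`; `Cl (ins A G) f` by `Cl_core`) `f` is in the closure of
`del {v} G`; there are at least `d` such `y` (last part of `Gd_Y` for `Q = {v}`), so `z ∈ Y_v`.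
(2) connected subsets through `v` are pre-structures with `Z = {v}`, so `|L ∪ {v}| ≤ C3 log n` and
`exc ≤ 0`; every `u ∈ L` has internal degree at least `max(2, deg_A u - d + 1)`; degree sum: either all
`u ∈ L` have internal degree 2 and `v` at least 2: weak with `b = v`; or `v` has internal degree 1, one
`u₀` has 3, the others 2: the 2-core (`exists_two_core`) is weak with `b = u₀`. -/
theorem Rig.core_erase_sub_Y {d t : ℕ} (R : Rig d t) (hd : 2 ≤ d) {x η ε : ℝ} {k C0 C3 : ℕ}
    (hk : 1 ≤ k) (hη : 0 < η) (hε : 0 < ε) (hC0 : 8 ≤ C0) (hx : 4 * (η + ε) ≤ x) :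
    ∃ n0 : ℕ, ∀ n : ℕ, n0 ≤ n → ∀ G : Finset (Sym2 ℕ), G ⊆ En n →
      R.Gd x η ε k n G → R.K1 x η C0 C3 n G → (∀ S, ¬ Weak d n G S) →
        ∀ v ∈ core d n G, (core d n G).erase v ⊆ R.Y (x - η) n (del {v} G) := by
  classical
  obtain ⟨n1, h1⟩ := R.core_sub_Y (C3 := C3) hd hk hη hε hC0 hx
  obtain ⟨n2, h2⟩ := R.Gd_Y (by omega) hk hη hε hx
  refine ⟨max (max n1 n2) (2 ^ (C3 + 2)), fun n hn G hG hGd hK hW v hv => ?_⟩
  have hn1 : n1 ≤ n := (le_max_left n1 n2).trans ((le_max_left _ _).trans hn)
  have hn2 : n2 ≤ n := (le_max_right n1 n2).trans ((le_max_left _ _).trans hn)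
  have hn3 : 2 ^ (C3 + 2) ≤ n := (le_max_right _ _).trans hn
  have hn0 : n ≠ 0 := by
    have : 0 < 2 ^ (C3 + 2) := by positivity
    omega
  have hlog : C3 + 2 ≤ Nat.log 2 n := (Nat.le_log_iff_pow_le (by norm_num) hn0).2 hn3
  -- `C3 log n + 1 ≤ (log n)^3`
  have hlog3 : C3 * Nat.log 2 n + 1 ≤ (Nat.log 2 n) ^ 3 := by
    have h3 : 1 ≤ Nat.log 2 n := by omega
    calc C3 * Nat.log 2 n + 1 ≤ C3 * Nat.log 2 n + Nat.log 2 n := by omega
      _ = (C3 + 1) * Nat.log 2 n := by ring
      _ ≤ Nat.log 2 n * Nat.log 2 n := Nat.mul_le_mul_right _ (by omega)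
      _ ≤ Nat.log 2 n * Nat.log 2 n * Nat.log 2 n := Nat.le_mul_of_pos_right _ h3
      _ = (Nat.log 2 n) ^ 3 := by ring
  have hvn : v < n := Finset.mem_range.1 (core_subset d n G hv)
  have hQ : ({v} : Finset ℕ).card ≤ (Nat.log 2 n) ^ 4 := by
    rw [Finset.card_singleton]
    exact Nat.one_le_pow _ _ (by omega)
  obtain ⟨hclq, _, hne, hsub, _, hcard, hcore⟩ := h2 n hn2 G hG hGd {v}
    (Finset.singleton_subset_iff.2 (Finset.mem_range.2 hvn)) hQ
  have hAY := h1 n hn1 G hG hGd hK hW
  have hvY : v ∉ R.Y (x - η) n (del {v} G) := by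
    intro h
    have h3 := hsub (Finset.mem_union_left _ h)
    rw [Finset.mem_sdiff] at h3
    exact h3.2 (Finset.mem_singleton_self v)
  by_contra hcon
  -- the lost part
  obtain ⟨L, hL⟩ : ∃ L, L = (core d n G).erase v \ R.Y (x - η) n (del {v} G) := ⟨_, rfl⟩
  have hLne : L.Nonempty := by
    rw [Finset.not_subset] at hcon
    obtain ⟨u, hu, huY⟩ := hcon
    exact ⟨u, by rw [hL, Finset.mem_sdiff]; exact ⟨hu, huY⟩⟩
  have hLA : L ⊆ core d n G := by
    rw [hL]
    exact Finset.sdiff_subset.trans (Finset.erase_subset _ _)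
  have hvL : v ∉ L := by
    rw [hL, Finset.mem_sdiff, Finset.mem_erase]
    exact fun h => h.1.1 rfl
  have hLY : ∀ u ∈ L, u ∉ R.Y (x - η) n (del {v} G) := by
    intro u hu
    rw [hL, Finset.mem_sdiff] at hu
    exact hu.2
  have hconn : Conn G (insert v L) := by
    apply l5_conn
    intro K hKL hKne _ hno
    by_contra hadj
    push Not at hadj
    obtain ⟨z, hz⟩ := hKne
    rw [hL] at hKL hno
    exact l5_comp R hG hGd.1 hAY hclq hne hvY hcore hKL hz hno hadj
  -- few neighbours in `Y_v`
  have hfew : ∀ u ∈ L, (nb n G u ∩ R.Y (x - η) n (del {v} G)).card + 1 ≤ d := by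
    intro u hu
    by_contra hc
    have hun : u < n := Finset.mem_range.1 (core_subset d n G (hLA hu))
    have huv : u ≠ v := fun h => hvL (h ▸ hu)
    refine hLY u hu (R.mem_Y_of_join hclq hne hun
      (N := nb n G u ∩ R.Y (x - η) n (del {v} G)) Finset.inter_subset_right (by omega) ?_)
    intro w hw _
    rw [Finset.mem_inter, mem_nb] at hw
    apply R.Cl_of_mem
    rw [mem_del]
    refine ⟨hw.1.2, fun y hy hyv => ?_⟩
    rw [Finset.mem_singleton] at hyv
    rw [Sym2.mem_iff] at hy
    rcases hy with rfl | rfl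
    · exact huv hyv
    · exact hvY (hyv ▸ hw.2)
  -- connected subsets of `insert v L` containing `v` are pre-structures
  have hpre : ∀ W ⊆ insert v L, v ∈ W → Conn G W → R.Pre x η n G W {v} := by
    intro W hWs hvW hWc
    refine ⟨hWs.trans ((Finset.insert_subset hv hLA).trans (core_subset d n G)),
      Finset.singleton_subset_iff.2 hvW, hWc, ?_⟩
    intro u hu
    rw [Finset.mem_sdiff, Finset.mem_singleton] at hu
    have huL : u ∈ L := (Finset.mem_insert.1 (hWs hu.1)).resolve_left hu.2
    refine ⟨hLA huL, le_trans (Nat.add_le_add_right (Finset.card_le_card ?_) 1) (hfew u huL)⟩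
    exact Finset.inter_subset_inter_left
      (R.Y_mono (del_anti (Finset.singleton_subset_iff.2 hvW) G))
  have hdiag : ∀ e ∈ G, ¬ e.IsDiag := fun e he => (mem_En.1 (hG he)).2
  have hK1 : ∀ W ⊆ insert v L, v ∈ W → Conn G W → W.card ≤ (Nat.log 2 n) ^ 3 →
      exc G W ≤ 0 ∧ W.card ≤ C3 * Nat.log 2 n := by
    intro W hWs hvW hWc hcW
    apply hK W {v} (hpre W hWs hvW hWc) hcW
    have h3 := hWc.exc_ge hdiag
    rw [Finset.card_singleton]
    have h4 : (1 : ℤ) ≤ exc G W + 2 := by linarith
    have h5 : (1 : ℤ) ≤ (C0 : ℤ) := by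
      have : 1 ≤ C0 := by omega
      exact_mod_cast this
    push_cast
    nlinarith
  have hsmall : (insert v L).card ≤ C3 * Nat.log 2 n := by
    by_contra hbig
    push Not at hbig
    obtain ⟨W', hW's, hvW', hW'c, hW'card⟩ := hconn.exists_subset (Finset.mem_insert_self v L)
      (k := C3 * Nat.log 2 n + 1) (by omega) (by omega)
    have h3 := (hK1 W' hW's hvW' hW'c (by omega)).2
    omega
  have hexc := (hK1 (insert v L) (Finset.Subset.refl _) (Finset.mem_insert_self v L) hconn
    (by omega)).1
  have hdegs : ∀ u ∈ L, (nb n G u ∩ core d n G).card + 1 ≤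
      (nb n G u ∩ insert v L).card + d := by
    intro u hu
    have h3 : nb n G u ∩ core d n G ⊆ (nb n G u ∩ insert v L) ∪
        (nb n G u ∩ R.Y (x - η) n (del {v} G)) := by
      intro w hw
      rw [Finset.mem_inter] at hw
      rw [Finset.mem_union, Finset.mem_inter, Finset.mem_inter, Finset.mem_insert]
      by_cases hwY : w ∈ R.Y (x - η) n (del {v} G)
      · exact Or.inr ⟨hw.1, hwY⟩
      · left
        refine ⟨hw.1, ?_⟩
        by_cases hwv : w = v
        · exact Or.inl hwv
        · right
          rw [hL, Finset.mem_sdiff, Finset.mem_erase]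
          exact ⟨⟨hwv, hw.2⟩, hwY⟩
    have h4 := (Finset.card_le_card h3).trans (Finset.card_union_le _ _)
    have h5 := hfew u hu
    omega
  obtain ⟨S, hS⟩ := l5_weak hG hv hvL hLA hLne hconn hexc hdegs
  exact hW S hS

end Pool.Agent.Helper55.ML
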