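import Pool.Agent.Helper55.ML.L5

set_option autoImplicit false
open Finset Filter Topology

namespace Pool.Agent.Helper55.ML

/-- L6 (FS; hint): `A = core d n G`; `core_nonempty`, `core_deg`, `core_erase_sub_Y`, `Gd_Y`
(clique), `Cl_core_del`. -/
theorem Rig.GR_of_good {d t : ℕ} (R : Rig d t) (hd : 2 ≤ d) {x η ε : ℝ} {k C0 C3 : ℕ}
    (hk : 1 ≤ k) (hη : 0 < η) (hε : 0 < ε) (hC0 : 8 ≤ C0) (hx : 4 * (η + ε) ≤ x) :
    ∃ n0 : ℕ, ∀ n : ℕ, n0 ≤ n → ∀ G : Finset (Sym2 ℕ), G ⊆ En n → R.Dep G →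
      R.Gd x η ε k n G → R.K1 x η C0 C3 n G → (∀ S, ¬ Weak d n G S) → R.GR n G := by
  obtain ⟨n1, h1⟩ := R.core_erase_sub_Y (C3 := C3) hd hk hη hε hC0 hx
  obtain ⟨n2, h2⟩ := R.Gd_Y (by omega) hk hη hε hx
  refine ⟨max (max n1 n2) 2, fun n hn G hG hDep hGd hK hW => ?_⟩
  have hn1 : n1 ≤ n := (le_max_left n1 n2).trans ((le_max_left _ _).trans hn)
  have hn2 : n2 ≤ n := (le_max_right n1 n2).trans ((le_max_left _ _).trans hn)
  have hn3 : 2 ≤ n := (le_max_right _ _).trans hn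
  have hcore : core d n G ⊆ range n := core_subset d n G
  refine ⟨core d n G, hcore, R.core_nonempty hG hDep, fun v hv => core_deg hv,
    fun v hv => ?_⟩
  have hv1 := h1 n hn1 G hG hGd hK hW v hv
  have hlog : 1 ≤ Nat.log 2 n := Nat.log_pos (by norm_num) hn3
  have hQ : ({v} : Finset ℕ).card ≤ (Nat.log 2 n) ^ 4 := by
    rw [Finset.card_singleton]
    exact Nat.one_le_pow _ _ hlog
  have hclq := (h2 n hn2 G hG hGd {v} (Finset.singleton_subset_iff.2 (hcore hv)) hQ).1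
  intro a ha b hb hab
  exact R.Cl_core_del hG (Finset.mem_of_mem_erase ha) (Finset.mem_of_mem_erase hb)
    (Finset.ne_of_mem_erase ha) (Finset.ne_of_mem_erase hb) hab
    (hclq a (hv1 ha) b (hv1 hb) hab)

/-- The property `GR` passes from `del Lam G` to `G`. -/
theorem Rig.GR_of_del {d t : ℕ} (R : Rig d t) {n : ℕ} {G : Finset (Sym2 ℕ)} {Lam : Finset ℕ}
    (h : R.GR n (del Lam G)) : R.GR n G := by
  obtain ⟨A, hA, hne, hdeg, hclq⟩ := h
  refine ⟨A, hA, hne, fun v hv => ?_, fun v hv => ?_⟩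
  · refine (hdeg v hv).trans (Finset.card_le_card ?_)
    exact Finset.inter_subset_inter_right (nb_mono (del_subset Lam G) v)
  · exact R.Clq_mono (ins_mono (del_subset Lam G)) (hclq v hv)

end Pool.Agent.Helper55.ML
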