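import Pool.Agent.Helper55.ML.M3

set_option autoImplicit false
open Finset Filter Topology

namespace Pool.Agent.Helper55.ML

/-- neighbours in a set of pairs -/
private theorem m6_sum_deg (n : ℕ) (F : Finset (Sym2 ℕ)) (hF : F ⊆ En n) :
    F.card ≤ ∑ v ∈ range n, (nb n F v).card := by
  have h1 : F ⊆ ((range n).sigma (fun v => nb n F v)).image (fun q => s(q.1, q.2)) := by
    intro e he
    induction e using Sym2.ind with
    | _ a b =>
      have h2 := mk_mem_En.1 (hF he)
      rw [Finset.mem_image]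
      refine ⟨⟨a, b⟩, ?_, rfl⟩
      rw [Finset.mem_sigma]
      refine ⟨Finset.mem_range.2 h2.1, ?_⟩
      unfold nb
      rw [Finset.mem_filter]
      exact ⟨Finset.mem_range.2 h2.2.1, he⟩
  calc F.card ≤ _ := Finset.card_le_card h1
    _ ≤ ((range n).sigma (fun v => nb n F v)).card := Finset.card_image_le
    _ = _ := Finset.card_sigma _ _

/-- many vertices of large degree -/
private theorem m6_heavy (n : ℕ) (hn : 0 < n) (F : Finset (Sym2 ℕ)) (hF : F ⊆ En n) {ε : ℝ}
    (hε : 0 < ε) (h : ε * (n : ℝ) ^ 2 ≤ (F.card : ℝ)) :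
    ε / 2 * n ≤ (((range n).filter (fun v => ε / 2 * n ≤ ((nb n F v).card : ℝ))).card : ℝ) := by
  have h1 : (F.card : ℝ) ≤ ∑ v ∈ range n, ((nb n F v).card : ℝ) := by
    exact_mod_cast m6_sum_deg n F hF
  have h2 : ∑ v ∈ range n, ((nb n F v).card : ℝ) ≤
      (((range n).filter (fun v => ε / 2 * n ≤ ((nb n F v).card : ℝ))).card : ℝ) * n
        + n * (ε / 2 * n) := by
    have hε' : 0 ≤ ε / 2 * n := by positivity
    have h3 : ∀ v ∈ range n, ((nb n F v).card : ℝ) ≤
        (if ε / 2 * n ≤ ((nb n F v).card : ℝ) then (n : ℝ) else 0) +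
          (if ε / 2 * n ≤ ((nb n F v).card : ℝ) then (0 : ℝ) else ε / 2 * n) := by
      intro v _
      split_ifs with h4
      · have : (nb n F v).card ≤ n := by
          calc (nb n F v).card ≤ (range n).card := Finset.card_le_card (Finset.filter_subset _ _)
            _ = n := Finset.card_range n
        simpa using this
      · push Not at h4
        linarith
    have h5 := Finset.sum_le_sum h3
    rw [Finset.sum_add_distrib] at h5
    have h6 : ∑ v ∈ range n, (if ε / 2 * n ≤ ((nb n F v).card : ℝ) then (n : ℝ) else 0) =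
        (((range n).filter (fun v => ε / 2 * n ≤ ((nb n F v).card : ℝ))).card : ℝ) * n := by
      rw [← Finset.sum_filter, Finset.sum_const, nsmul_eq_mul]
    have h7 : ∑ v ∈ range n, (if ε / 2 * n ≤ ((nb n F v).card : ℝ) then (0 : ℝ) else
        ε / 2 * n) ≤ n * (ε / 2 * n) := by
      calc _ ≤ ∑ v ∈ range n, (ε / 2 * n : ℝ) := by
            refine Finset.sum_le_sum (fun v _ => ?_)
            split_ifs
            · exact hε'
            · exact le_rfl
        _ = _ := by rw [Finset.sum_const, nsmul_eq_mul, Finset.card_range]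
    linarith
  have hn' : (0 : ℝ) < n := by exact_mod_cast hn
  nlinarith

/-- Common neighbourhoods: many heavy vertices give a set of `t` vertices with many common
neighbours. -/
private theorem m6_common (n t : ℕ) (ht : 1 ≤ t) (H : Finset ℕ) (N : ℕ → Finset ℕ)
    (hN : ∀ v, N v ⊆ range n) {ε : ℝ} (hε : 0 < ε) (hn : (4 * t : ℝ) ≤ ε * n)
    (hH : ε / 2 * n ≤ (H.card : ℝ)) (hd : ∀ v ∈ H, ε / 2 * n ≤ ((N v).card : ℝ)) :
    ∃ A : Finset ℕ, A ⊆ range n ∧ A.card = t ∧
      ε / 2 * (ε / 4) ^ t * n ≤ ((H.filter (fun v => A ⊆ N v)).card : ℝ) := by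
  classical
  by_contra hcon
  push Not at hcon
  have ht' : (1 : ℝ) ≤ t := by exact_mod_cast ht
  have hn0 : (0 : ℝ) < n := by
    by_contra h
    push Not at h
    have h0 : (n : ℝ) = 0 := le_antisymm h (Nat.cast_nonneg n)
    rw [h0] at hn
    linarith
  have hfac : (0 : ℝ) < (t.factorial : ℝ) := by exact_mod_cast Nat.factorial_pos t
  -- lower bound of the double count
  have h1 : ∀ v ∈ H, (ε / 4 * n) ^ t / (t.factorial : ℝ) ≤
      (((powersetCard t (N v)).card : ℕ) : ℝ) := by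
    intro v hv
    rw [Finset.card_powersetCard]
    refine le_trans ?_ (Nat.pow_le_choose t (N v).card)
    have h2 : ε / 4 * n ≤ ((((N v).card + 1 - t : ℕ)) : ℝ) := by
      have h3 := hd v hv
      have h4 : ((N v).card : ℝ) + 1 ≤ (((N v).card + 1 - t : ℕ) : ℝ) + t := by
        have : (N v).card + 1 ≤ ((N v).card + 1 - t) + t := by omega
        exact_mod_cast this
      linarith
    have h5 : (0 : ℝ) ≤ ε / 4 * n := by positivity
    gcongr
  have h2 : ε / 2 * n * ((ε / 4 * n) ^ t / (t.factorial : ℝ)) ≤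
      ∑ v ∈ H, (((powersetCard t (N v)).card : ℕ) : ℝ) := by
    have h5 : (0 : ℝ) ≤ (ε / 4 * n) ^ t / (t.factorial : ℝ) := by positivity
    calc _ ≤ (H.card : ℝ) * ((ε / 4 * n) ^ t / (t.factorial : ℝ)) :=
          mul_le_mul_of_nonneg_right hH h5
      _ = ∑ v ∈ H, (ε / 4 * n) ^ t / (t.factorial : ℝ) := by
          rw [Finset.sum_const, nsmul_eq_mul]
      _ ≤ _ := Finset.sum_le_sum h1
  have h3 : ∑ v ∈ H, (powersetCard t (N v)).card =
      ∑ A ∈ powersetCard t (range n), (H.filter (fun v => A ⊆ N v)).card := by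
    have h4 : ∀ v ∈ H, (powersetCard t (N v)).card =
        ((powersetCard t (range n)).filter (fun A => A ⊆ N v)).card := by
      intro v _
      congr 1
      ext A
      rw [Finset.mem_filter, Finset.mem_powersetCard, Finset.mem_powersetCard]
      constructor
      · rintro ⟨h5, h6⟩
        exact ⟨⟨h5.trans (hN v), h6⟩, h5⟩
      · rintro ⟨⟨_, h6⟩, h5⟩
        exact ⟨h5, h6⟩
    rw [Finset.sum_congr rfl h4]
    simp only [Finset.card_filter]
    rw [Finset.sum_comm]
  have h3' : ∑ v ∈ H, (((powersetCard t (N v)).card : ℕ) : ℝ) =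
      ∑ A ∈ powersetCard t (range n), (((H.filter (fun v => A ⊆ N v)).card : ℕ) : ℝ) := by
    exact_mod_cast h3
  have hne : (powersetCard t (range n)).Nonempty := by
    by_contra hemp
    rw [Finset.not_nonempty_iff_eq_empty] at hemp
    rw [h3', hemp, Finset.sum_empty] at h2
    have : 0 < ε / 2 * n * ((ε / 4 * n) ^ t / (t.factorial : ℝ)) := by positivity
    linarith
  have h4 : ∑ A ∈ powersetCard t (range n), (((H.filter (fun v => A ⊆ N v)).card : ℕ) : ℝ) <
      ∑ A ∈ powersetCard t (range n), ε / 2 * (ε / 4) ^ t * n := by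
    refine Finset.sum_lt_sum_of_nonempty hne (fun A hA => ?_)
    rw [Finset.mem_powersetCard] at hA
    exact hcon A hA.1 hA.2
  rw [Finset.sum_const, Finset.card_powersetCard, Finset.card_range, nsmul_eq_mul] at h4
  have h5 : ((n.choose t : ℕ) : ℝ) ≤ (n : ℝ) ^ t / (t.factorial : ℝ) := Nat.choose_le_pow_div t n
  have h6 : ((n.choose t : ℕ) : ℝ) * (ε / 2 * (ε / 4) ^ t * n) ≤
      (n : ℝ) ^ t / (t.factorial : ℝ) * (ε / 2 * (ε / 4) ^ t * n) :=
    mul_le_mul_of_nonneg_right h5 (by positivity)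
  have h7 : (n : ℝ) ^ t / (t.factorial : ℝ) * (ε / 2 * (ε / 4) ^ t * n) =
      ε / 2 * n * ((ε / 4 * n) ^ t / (t.factorial : ℝ)) := by
    rw [mul_pow]
    ring
  rw [h3'] at h2
  linarith

/-- The complete bipartite closure with a set of common neighbours is a clique. -/
private theorem m6_clique {d t : ℕ} (R : Rig d t) (ht : 2 ≤ t) {S : Finset (Sym2 ℕ)}
    {A U : Finset ℕ} (hA : A.card = t) (hU : t ≤ U.card) (hAU : Disjoint A U)
    (h : ∀ a ∈ A, ∀ b ∈ U, R.Cl S s(a, b)) : R.Clq S (A ∪ U) := by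
  classical
  intro a ha b hb hab
  have h1 : (({a, b} : Finset ℕ) ∩ U).card ≤ t := by
    calc _ ≤ ({a, b} : Finset ℕ).card := Finset.card_le_card Finset.inter_subset_left
      _ ≤ 2 := Finset.card_le_two
      _ ≤ t := ht
  obtain ⟨B, hB1, hB2, hB3⟩ := Finset.exists_subsuperset_card_eq
    (Finset.inter_subset_right : ({a, b} : Finset ℕ) ∩ U ⊆ U) h1 hU
  have key : ∀ x, x ∈ A ∪ U → x ∈ ({a, b} : Finset ℕ) → x ∈ A ∪ B := by
    intro x hx hx'
    rcases Finset.mem_union.1 hx with hx | hx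
    · exact Finset.mem_union_left _ hx
    · exact Finset.mem_union_right _ (hB1 (Finset.mem_inter.2 ⟨hx', hx⟩))
  exact R.bip S A B (hAU.mono_right hB2) hA hB3
    (fun x hx y hy => h x hx y (hB2 hy)) a (key a ha (by simp)) b (key b hb (by simp)) hab

open Classical in
/-- M6 (hint): dense closure contains a big clique. Let `F` be the graph on `range n` of the pairs
in `(R.cl n S) \ Kp Y0`, at least `ε n^2` edges. Count pairs (ordered `t`-tuple, common
neighbour): `∑_v deg(v)^t ≥ n (2 ε n)^t` (power mean); tuples with a repetition contribute at most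
`t^2 n^t`; so some injective `t`-tuple `u` has at least `(2ε)^t n - t^2` common neighbours `U`;
`U ∪ {u_i}` is a clique of the closure by `R.bip` (with `A = {u_i}`, `B ⊆ U`, `|B| = t`, `B`
containing two given vertices, `t ≥ 2`). -/
theorem Rig.dense_clique {d t : ℕ} (R : Rig d t) (ht : 2 ≤ t) {ε : ℝ} (hε : 0 < ε) :
    ∃ δ : ℝ, 0 < δ ∧ ∃ n0 : ℕ, ∀ n : ℕ, n0 ≤ n → ∀ (S : Finset (Sym2 ℕ)) (Y0 : Finset ℕ),
      ε * (n : ℝ) ^ 2 ≤ ((R.cl n S \ Kp Y0).card : ℝ) →
        ∃ C : Finset ℕ, C ⊆ range n ∧ R.Clq S C ∧ δ * n ≤ (C.card : ℝ) ∧ ¬ C ⊆ Y0 := by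
  have hδ : 0 < ε / 2 * (ε / 4) ^ t := by positivity
  obtain ⟨n1, hn1⟩ := exists_nat_ge ((4 * t : ℝ) / ε)
  obtain ⟨n2, hn2⟩ := exists_nat_ge ((t : ℝ) / (ε / 2 * (ε / 4) ^ t))
  refine ⟨ε / 2 * (ε / 4) ^ t, hδ, max (max n1 n2) 1, ?_⟩
  intro n hn S Y0 hcard
  have hn1' : n1 ≤ n := le_trans (le_max_left _ _) (le_trans (le_max_left _ _) hn)
  have hn2' : n2 ≤ n := le_trans (le_max_right _ _) (le_trans (le_max_left _ _) hn)
  have hn3 : 0 < n := lt_of_lt_of_le one_pos (le_trans (le_max_right _ _) hn)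
  have h1 : (4 * t : ℝ) ≤ ε * n := by
    have h2 : (4 * t : ℝ) / ε ≤ n := hn1.trans (by exact_mod_cast hn1')
    rw [div_le_iff₀ hε] at h2
    linarith
  have h2 : (t : ℝ) ≤ ε / 2 * (ε / 4) ^ t * n := by
    have h3 : (t : ℝ) / (ε / 2 * (ε / 4) ^ t) ≤ n := hn2.trans (by exact_mod_cast hn2')
    rw [div_le_iff₀ hδ] at h3
    linarith
  have hF : R.cl n S \ Kp Y0 ⊆ En n := by
    intro e he
    exact (R.mem_cl.1 (Finset.mem_sdiff.1 he).1).1
  have h3 := m6_heavy n hn3 _ hF hε hcard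
  obtain ⟨A, hA1, hA2, hA3⟩ := m6_common n t (by omega)
    ((range n).filter (fun v => ε / 2 * n ≤ ((nb n (R.cl n S \ Kp Y0) v).card : ℝ)))
    (fun v => nb n (R.cl n S \ Kp Y0) v) (fun v => Finset.filter_subset _ _) hε h1 h3
    (fun v hv => (Finset.mem_filter.1 hv).2)
  set H := (range n).filter (fun v => ε / 2 * n ≤ ((nb n (R.cl n S \ Kp Y0) v).card : ℝ)) with hH
  set U := H.filter (fun v => A ⊆ nb n (R.cl n S \ Kp Y0) v) with hU
  have hUn : U ⊆ range n := (Finset.filter_subset _ _).trans (Finset.filter_subset _ _)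
  have hAU : ∀ a ∈ A, ∀ b ∈ U, s(a, b) ∈ R.cl n S \ Kp Y0 := by
    intro a ha b hb
    have h4 := (Finset.mem_filter.1 hb).2 ha
    unfold nb at h4
    have h5 := (Finset.mem_filter.1 h4).2
    rwa [Sym2.eq_swap] at h5
  have hdis : Disjoint A U := by
    rw [Finset.disjoint_left]
    intro a ha hau
    have h4 := mk_mem_En.1 (hF (hAU a ha a hau))
    exact h4.2.2 rfl
  have hUt : t ≤ U.card := by
    have : (t : ℝ) ≤ (U.card : ℝ) := h2.trans hA3
    exact_mod_cast this
  refine ⟨A ∪ U, Finset.union_subset hA1 hUn, ?_, ?_, ?_⟩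
  · exact m6_clique R ht hA2 hUt hdis
      (fun a ha b hb => (R.mem_cl.1 (Finset.mem_sdiff.1 (hAU a ha b hb)).1).2)
  · refine hA3.trans ?_
    exact_mod_cast Finset.card_le_card Finset.subset_union_right
  · intro hsub
    obtain ⟨a, ha⟩ := Finset.card_pos.1 (show 0 < A.card by omega)
    obtain ⟨b, hb⟩ := Finset.card_pos.1 (show 0 < U.card by omega)
    have h4 := hAU a ha b hb
    refine (Finset.mem_sdiff.1 h4).2 ?_
    rw [mk_mem_Kp]
    exact ⟨hsub (Finset.mem_union_left _ ha), hsub (Finset.mem_union_right _ hb),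
      (mk_mem_En.1 (hF h4)).2.2⟩

end Pool.Agent.Helper55.ML
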