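import Pool.Agent.Helper55.ML.X1

set_option autoImplicit false
open Finset Filter Topology

namespace Pool.Agent.Helper55.ML

theorem x2_phi_continuous (k : ℕ) : Continuous (phi k) := by
  unfold phi
  fun_prop

theorem x2_hp_continuous (k : ℕ) : Continuous (hp k) := by
  unfold hp
  refine continuous_const.sub (continuous_finset_sum _ (fun i _ => x2_phi_continuous i))

theorem x2_Dfun_continuous (d : ℕ) (c : ℝ) : Continuous (Dfun d c) := by
  unfold Dfun
  have h1 : Continuous (fun u : ℝ => hp d (c * u)) :=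
    (x2_hp_continuous d).comp (continuous_const.mul continuous_id)
  have h2 : Continuous (fun u : ℝ => phi (d - 1) (c * u)) :=
    (x2_phi_continuous (d - 1)).comp (continuous_const.mul continuous_id)
  fun_prop

theorem x2_Dfun_fixed {d : ℕ} (hd : 2 ≤ d) {c u : ℝ} (hu : hp d (c * u) = u) :
    Dfun d c u = c * u ^ 2 / 2 - d * hp (d + 1) (c * u) := by
  have h1 := phi_mul d (by omega) (c * u)
  have h2 := hp_succ d (c * u)
  unfold Dfun
  rw [hu] at h2 ⊢
  rw [h2]
  linear_combination h1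

/-- The concentration argument for a closed set without GoodX points. -/
theorem x2_aux {d t : ℕ} (R : Rig d t) {c δ : ℝ} (hS : Std R c δ) {K : Set ℝ} (hK : IsClosed K)
    (hKx : ∀ u ∈ K, δ ≤ u → ¬ GoodX d c u) : Neg c (fun n G => R.Dep G ∧ R.y δ n G ∈ K) := by
  set K' : Set ℝ := K ∩ Set.Icc δ 1 with hK'
  have hcomp : IsCompact K' := isCompact_Icc.inter_left hK
  have hcont : Continuous (fun u : ℝ => max |u - hp d (c * u)| (-(Dfun d c u))) := by
    have h1 : Continuous (fun u : ℝ => hp d (c * u)) :=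
      (x2_hp_continuous d).comp (continuous_const.mul continuous_id)
    exact ((continuous_id.sub h1).abs).max (x2_Dfun_continuous d c).neg
  have hpos : ∀ u ∈ K', 0 < max |u - hp d (c * u)| (-(Dfun d c u)) := by
    rintro u ⟨huK, huδ, hu1⟩
    by_contra hcon
    rw [not_lt, max_le_iff] at hcon
    have h1 : hp d (c * u) = u := by
      have := abs_eq_zero.1 (le_antisymm hcon.1 (abs_nonneg _))
      linarith
    have h2 := x2_Dfun_fixed hS.hd h1
    refine hKx u huK huδ ⟨lt_of_lt_of_le hS.hδ huδ, hu1, h1, ?_⟩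
    linarith [hcon.2]
  obtain ⟨τ, hτ, hτK⟩ : ∃ τ : ℝ, 0 < τ ∧
      ∀ u ∈ K', τ ≤ max |u - hp d (c * u)| (-(Dfun d c u)) := by
    rcases K'.eq_empty_or_nonempty with h | h
    · exact ⟨1, one_pos, fun u hu => by rw [h] at hu; exact absurd hu (Set.notMem_empty u)⟩
    · obtain ⟨u0, hu0, hmin⟩ := hcomp.exists_isMinOn h hcont.continuousOn
      exact ⟨_, hpos u0 hu0, fun u hu => hmin hu⟩
  refine Neg_or_mono hS.hc hS.hT (Neg_or hS.hc (R.C2n hS hτ) (R.XA hS hτ)) ?_
  filter_upwards [eventually_gt_atTop 0] with n hn G _ hG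
  by_cases hY : (R.Y δ n G).Nonempty
  · right
    have h1 : δ ≤ R.y δ n G := by
      unfold Rig.y
      rw [le_div_iff₀ (by exact_mod_cast hn)]
      exact R.Y_card hY
    rcases le_max_iff.1 (hτK _ ⟨hG.2, h1, R.y_le_one⟩) with h | h
    · exact Or.inl h
    · exact Or.inr (by linarith)
  · exact Or.inl ⟨hG.1, hY⟩

/-- XB (hint): at a fixed point `u = hp d (c u)`: `D(u) = c u^2/2 - d hp (d+1) (c u)`. The set of
`u ∈ [δ,1]` with `|u - h(u)| ≤ τ` and `D(u) ≥ -τ` shrinks (compactness) to the set of GoodX points in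
`[δ,1]` as `τ → 0`, which has at most one element. `Dep` implies `y ≥ δ` whp. -/
theorem Rig.XB {d t : ℕ} (R : Rig d t) {c δ : ℝ} (hS : Std R c δ) :
    Neg c (fun n G => R.Dep G) ∨ ∃ x : ℝ, GoodX d c x ∧ δ ≤ x ∧
      ∀ η : ℝ, 0 < η → Neg c (fun n G => R.Dep G ∧ η ≤ |R.y δ n G - x|) := by
  by_cases h : ∃ x : ℝ, GoodX d c x ∧ δ ≤ x
  · obtain ⟨x, hx, hδx⟩ := h
    refine Or.inr ⟨x, hx, hδx, fun η hη => ?_⟩
    have hcl : IsClosed {u : ℝ | η ≤ |u - x|} :=
      isClosed_le continuous_const ((continuous_id.sub continuous_const).abs)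
    refine x2_aux R hS hcl (fun u hu _ hg => ?_)
    have hux : u = x := goodX_unique hS.hd hS.hc hg hx
    rw [hux, Set.mem_setOf_eq, sub_self, abs_zero] at hu
    linarith
  · left
    have h1 := x2_aux R hS isClosed_univ (fun u _ hδu hg => h ⟨u, hg, hδu⟩)
    exact Neg_mono hS.hc h1 (Eventually.of_forall (fun n G _ hG => ⟨hG, Set.mem_univ _⟩))

end Pool.Agent.Helper55.ML
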