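import Pool.Agent.Helper55.ML.L2
import Pool.Agent.Helper55.ML.L3
import Pool.Agent.Helper55.ML.L6
import Pool.Agent.Helper55.ML.J1
import Pool.Agent.Helper55.ML.G1
import Pool.Agent.Helper55.ML.X2
import Pool.Agent.Helper55.ML.J3

set_option autoImplicit false
open Finset Filter Topology

namespace Pool.Agent.Helper55.ML

/-- Elementary: a clique of the closure gives many pairs in the closure. -/
theorem Rig.cl_card_ge {d t : ℕ} (R : Rig d t) {n : ℕ} {S : Finset (Sym2 ℕ)} {C : Finset ℕ}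
    (hC : C ⊆ range n) (h : R.Clq S C) : C.card * (C.card - 1) / 2 ≤ (R.cl n S).card := by
  have hsub : Kp C ⊆ R.cl n S := by
    intro e he
    induction e with
    | h a b =>
      rw [mk_mem_Kp] at he
      rw [R.mem_cl, mk_mem_En]
      exact ⟨⟨Finset.mem_range.1 (hC he.1), Finset.mem_range.1 (hC he.2.1), he.2.2⟩,
        h a he.1 b he.2.1 he.2.2⟩
  have hcard : C.card * (C.card - 1) / 2 ≤ (Kp C).card := by
    have h1 : (Kp C).card = C.card.choose 2 := by
      unfold Kp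
      have h2 := Finset.card_sym2 C
      have h3 : (C.sym2.filter (fun e => e.IsDiag)).card = C.card := by
        have h4 : C.sym2.filter (fun e => e.IsDiag) = C.image (fun a => s(a, a)) := by
          ext e
          rw [Finset.mem_filter, Finset.mem_image]
          constructor
          · rintro ⟨h5, h6⟩
            induction e with
            | h a b =>
              rw [Sym2.mk_isDiag_iff] at h6
              subst h6
              rw [Finset.mk_mem_sym2_iff] at h5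
              exact ⟨a, h5.1, rfl⟩
          · rintro ⟨a, ha, rfl⟩
            exact ⟨Finset.mk_mem_sym2_iff.2 ⟨ha, ha⟩, Sym2.mk_isDiag_iff.2 rfl⟩
        rw [h4, Finset.card_image_of_injective]
        intro a b hab
        simpa using hab
      have h5 := Finset.card_filter_add_card_filter_not (s := C.sym2) (fun e : Sym2 ℕ => e.IsDiag)
      have h6 : (C.card + 1).choose 2 = C.card + C.card.choose 2 := by
        rw [Nat.choose_succ_succ' C.card 1, Nat.choose_one_right]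
      rw [h3, h2, h6] at h5
      omega
    rw [h1, Nat.choose_two_right]
  exact le_trans hcard (Finset.card_le_card hsub)

/-- (III) for `d ≥ 2`. -/
theorem main_random {d t : ℕ} (R : Rig d t) (hd : 2 ≤ d) (ht : 2 ≤ t) {c : ℝ} (hc : 0 < c) :
    Neg c (fun n G => R.Dep G ∧ ¬ R.GR n G) := by
  classical
  obtain ⟨δ0, hδ0, hstd⟩ := R.exists_std hd ht hc
  rcases R.XB (hstd δ0 hδ0 le_rfl) with h0 | ⟨x, hx, _, _⟩
  · exact Neg_mono hc h0 (Eventually.of_forall (fun n G _ h => h.1))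
  obtain ⟨η1, hη1, hK1⟩ := R.K1_neg hd hc hx
  obtain ⟨η2, hη2, hP⟩ := R.pairs_tight hd hc hx
  have hx0 : 0 < x := hx.1
  set δ : ℝ := min δ0 (x / 2) with hδdef
  have hδ : 0 < δ := lt_min hδ0 (by linarith)
  have hS : Std R c δ := hstd δ hδ (min_le_left _ _)
  rcases R.XB hS with h0 | ⟨x', hx', _, hconc⟩
  · exact Neg_mono hc h0 (Eventually.of_forall (fun n G _ h => h.1))
  have hxx : x' = x := goodX_unique hd hc hx' hx
  subst hxx
  obtain ⟨η3, hη3, hGd0⟩ := R.Gd_neg hS hx hconc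
  set η : ℝ := min (min η1 η2) (min η3 (x' / 8)) with hηdef
  have hη : 0 < η := lt_min (lt_min hη1 hη2) (lt_min hη3 (by linarith))
  have hηx : η ≤ x' / 8 := le_trans (min_le_right _ _) (min_le_right _ _)
  have hη3' : η ≤ η3 := le_trans (min_le_right _ _) (min_le_left _ _)
  have hη1' : η ≤ η1 := le_trans (min_le_left _ _) (min_le_left _ _)
  have hη2' : η ≤ η2 := le_trans (min_le_left _ _) (min_le_right _ _)
  have h4 : 4 * (η + η) ≤ x' := by linarith
  have hδx : δ ≤ x' - η := by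
    have : δ ≤ x' / 2 := min_le_right _ _
    linarith
  obtain ⟨k, hk, hG⟩ := hGd0 η η hη hη3' hη hδx
  obtain ⟨C3, hK⟩ := hK1 η η hη hη1' hη hη1' k hk 8
  have hPt := hP η η hη hη2' hη hη2' k hk 8
  set ε2 : ℝ := (x' - η) ^ 2 / 8 with hε2def
  have hε2 : 0 < ε2 := by
    have : 0 < x' - η := by linarith
    positivity
  have hT0 := R.T0 hc hε2
  -- the bad event for the transferred graph
  set Bad : ℕ → Finset (Sym2 ℕ) → Prop := fun n G =>
    (R.Dep G ∧ ¬ R.Gd x' η η k n G) ∨ ((R.Gd x' η η k n G ∧ ¬ R.K1 x' η 8 C3 n G) ∨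
      (¬ R.Dep G ∧ ε2 * (n : ℝ) ^ 2 ≤ ((R.cl n G).card : ℝ))) with hBad
  have hBadN : Neg c Bad := Neg_or hc hG (Neg_or hc hK hT0)
  obtain ⟨n1, hLam⟩ := R.exists_Lam hd (x := x') (η := η) (ε := η) (k := k) (C0 := 8) (C3 := C3)
    hk hη hη le_rfl h4
  set A : ℕ → Finset (Sym2 ℕ) → Prop := fun n G => n1 ≤ n ∧ G ⊆ En n ∧ R.Gd x' η η k n G ∧
    R.K1 x' η 8 C3 n G ∧ (R.pairs x' η 8 n G).card ≤ Nat.log 2 n with hA
  have hchoice : ∀ n G, ∃ Lam : Finset ℕ, Lam ⊆ range n ∧ Lam.card ≤ (ins Lam G).card ∧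
      (A n G → Lam.card ≤ 8 * (R.pairs x' η 8 n G).card ∧ ∀ S, ¬ Weak d n (del Lam G) S) := by
    intro n G
    by_cases h : A n G
    · obtain ⟨h1, h2, h3, h4', h5⟩ := h
      obtain ⟨Lam, a1, a2, a3, a4⟩ := hLam n h1 G h2 h3 h4' h5
      exact ⟨Lam, a1, a2, fun _ => ⟨a3, a4⟩⟩
    · exact ⟨∅, Finset.empty_subset _, by simp, fun h' => absurd h' h⟩
  choose Lam hL1 hL2 hL3 using hchoice
  have htr : Neg c (fun n G => A n G ∧ Bad n (del (Lam n G) G)) := by
    refine transfer hc hBadN Lam hL1 hL2 (fun ε hε => ?_)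
    obtain ⟨s, hs⟩ := hPt ε hε
    refine ⟨8 * s, ?_⟩
    filter_upwards [hs, cn_eventually hc] with n h1 h2
    refine le_trans (Pr_mono h2.1.le (by linarith [h2.2]) ?_) h1
    rintro G _ ⟨hAG, hlt⟩
    refine ⟨hAG.2.2.1, ?_⟩
    have := (hL3 n G hAG).1
    omega
  have hpairs : Neg c (fun n G => R.Gd x' η η k n G ∧
      Nat.log 2 n < (R.pairs x' η 8 n G).card) := by
    rw [Neg_iff hc]
    intro ε hε
    obtain ⟨s, hs⟩ := hPt ε hε
    have hlog : ∀ᶠ n : ℕ in atTop, s ≤ Nat.log 2 n := by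
      filter_upwards [eventually_ge_atTop (2 ^ s)] with n hn
      exact Nat.le_log_of_pow_le (by norm_num) hn
    filter_upwards [hs, hlog, cn_eventually hc] with n h1 h2 h3
    refine le_trans (Pr_mono h3.1.le (by linarith [h3.2]) ?_) h1
    rintro G _ ⟨a1, a2⟩
    exact ⟨a1, lt_of_le_of_lt h2 a2⟩
  obtain ⟨n2, hGR⟩ := R.GR_of_good hd (x := x') (η := η) (ε := η) (k := k) (C0 := 8) (C3 := C3)
    hk hη hη le_rfl h4
  have hlog4 : ∀ᶠ n : ℕ in atTop, 8 * Nat.log 2 n ≤ (Nat.log 2 n) ^ 4 := by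
    filter_upwards [eventually_ge_atTop (2 ^ 2)] with n hn
    have h2 : 2 ≤ Nat.log 2 n := Nat.le_log_of_pow_le (by norm_num) hn
    have h3 : 2 ^ 3 ≤ (Nat.log 2 n) ^ 3 := Nat.pow_le_pow_left h2 3
    calc 8 * Nat.log 2 n = Nat.log 2 n * 2 ^ 3 := by ring
      _ ≤ Nat.log 2 n * (Nat.log 2 n) ^ 3 := Nat.mul_le_mul_left _ h3
      _ = (Nat.log 2 n) ^ 4 := by ring
  have hbig : ∀ᶠ n : ℕ in atTop, 4 ≤ (x' - η) * (n : ℝ) := by
    have h0 : 0 < x' - η := by linarith
    obtain ⟨N, hN⟩ := exists_nat_ge (4 / (x' - η))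
    filter_upwards [eventually_ge_atTop N] with n hn
    have h1 : 4 / (x' - η) ≤ (n : ℝ) := le_trans hN (by exact_mod_cast hn)
    rw [div_le_iff₀ h0] at h1
    linarith
  refine Neg_mono hc (Neg_or hc hBadN (Neg_or hc hpairs htr)) ?_
  filter_upwards [eventually_ge_atTop n1, eventually_ge_atTop n2, hlog4, hbig]
    with n hn1 hn2 hl4 hb G hGn hdep
  by_contra hcon
  obtain ⟨c1, c23⟩ := not_or.1 hcon
  obtain ⟨c2, c3⟩ := not_or.1 c23
  simp only [hBad, not_or] at c1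
  have hGd : R.Gd x' η η k n G := by
    by_contra h
    exact c1.1 ⟨hdep.1, h⟩
  have hK1' : R.K1 x' η 8 C3 n G := by
    by_contra h
    exact c1.2.1 ⟨hGd, h⟩
  have hpr : (R.pairs x' η 8 n G).card ≤ Nat.log 2 n := by
    by_contra h
    exact c2 ⟨hGd, not_le.1 h⟩
  have hAG : A n G := ⟨hn1, hGn, hGd, hK1', hpr⟩
  have hB : ¬ Bad n (del (Lam n G) G) := fun h => c3 ⟨hAG, h⟩
  simp only [hBad, not_or] at hB
  obtain ⟨hLc, hLw⟩ := hL3 n G hAG
  set H := del (Lam n G) G with hH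
  have hHn : H ⊆ En n := (del_subset _ _).trans hGn
  have hdepH : R.Dep H := by
    by_contra hnd
    refine hB.2.2 ⟨hnd, ?_⟩
    obtain ⟨C, q1, _, q2, q3, _⟩ := hGd.2.2 (Lam n G) (hL1 n G) (by omega)
    have h5 := R.cl_card_ge q1 q2
    have h6 : ((C.card * (C.card - 1) / 2 : ℕ) : ℝ) ≤ ((R.cl n H).card : ℝ) := by
      exact_mod_cast h5
    refine le_trans ?_ h6
    have h7 : (4 : ℝ) ≤ (C.card : ℝ) := le_trans hb q3
    have h8 : (4 : ℕ) ≤ C.card := by exact_mod_cast h7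
    have h9 : C.card * C.card ≤ 8 * (C.card * (C.card - 1) / 2) := by
      have : C.card * (C.card - 1) / 2 * 2 + 1 ≥ C.card * (C.card - 1) := by omega
      obtain ⟨m, hm⟩ : ∃ m, C.card = m + 4 := ⟨C.card - 4, by omega⟩
      rw [hm] at this ⊢
      simp only [show m + 4 - 1 = m + 3 from by omega] at this ⊢
      nlinarith
    have h10 : ((C.card : ℝ) * C.card) ≤ 8 * ((C.card * (C.card - 1) / 2 : ℕ) : ℝ) := by
      exact_mod_cast h9
    have h11 : ((x' - η) * n) ^ 2 ≤ (C.card : ℝ) ^ 2 := by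
      apply pow_le_pow_left₀ (by linarith) q3
    rw [hε2def]
    nlinarith
  have hGdH : R.Gd x' η η k n H := by
    by_contra h
    exact hB.1 ⟨hdepH, h⟩
  have hK1H : R.K1 x' η 8 C3 n H := by
    by_contra h
    exact hB.2.1 ⟨hGdH, h⟩
  exact hdep.2 (R.GR_of_del (hGR n hn2 H hHn hdepH hGdH hK1H hLw))

end Pool.Agent.Helper55.ML
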