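import Pool.Agent.Helper55.ML.Basic

set_option autoImplicit false
open Finset Filter Topology

namespace Pool.Agent.Helper55.ML

theorem P1_insert {α : Type*} [DecidableEq α] {E : Finset α} {e : α} (he : e ∉ E) (p : ℝ)
    (f : Finset α → ℝ) :
    BE (insert e E) p f = p * BE E p (fun S => f (insert e S)) + (1 - p) * BE E p f := by
  unfold BE
  rw [Finset.sum_powerset_insert he, add_comm, Finset.mul_sum, Finset.mul_sum]
  congr 1
  · refine Finset.sum_congr rfl (fun S hS => ?_)
    have hS' := Finset.mem_powerset.1 hS
    have heS : e ∉ S := fun h => he (hS' h)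
    have h1 : insert e E \ insert e S = E \ S := by
      ext x
      simp only [Finset.mem_sdiff, Finset.mem_insert, not_or]
      constructor
      · rintro ⟨h | h, h2, h3⟩
        · exact absurd h h2
        · exact ⟨h, h3⟩
      · rintro ⟨h, h3⟩
        exact ⟨Or.inr h, fun h4 => he (h4 ▸ h), h3⟩
    rw [h1, Finset.card_insert_of_notMem heS, pow_succ]
    ring
  · refine Finset.sum_congr rfl (fun S hS => ?_)
    have hS' := Finset.mem_powerset.1 hS
    have heS : e ∉ S := fun h => he (hS' h)
    have h1 : insert e E \ S = insert e (E \ S) := by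
      rw [Finset.insert_sdiff_of_notMem _ heS]
    have h2 : e ∉ E \ S := fun h => he (Finset.mem_sdiff.1 h).1
    rw [h1, Finset.card_insert_of_notMem h2, pow_succ]
    ring

/-- P1 (hint). `BE` over a disjoint union is the iterated expectation (split the powerset of
`E ∪ F`), hence the one element version, the marginal version (a function of `S ∩ E` only) and
the image version. -/
theorem BE_union {α : Type*} [DecidableEq α] {E F : Finset α} (h : Disjoint E F) (p : ℝ)
    (f : Finset α → ℝ) :
    BE (E ∪ F) p f = BE E p (fun S => BE F p (fun T => f (S ∪ T))) := by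
  induction F using Finset.induction_on generalizing f with
  | empty =>
    rw [Finset.union_empty]
    refine BE_congr (fun S _ => ?_)
    unfold BE
    simp
  | insert e F he ih =>
    have hE : e ∉ E := fun h' => (Finset.disjoint_left.1 h h') (Finset.mem_insert_self e F)
    have hEF : e ∉ E ∪ F := by
      rw [Finset.mem_union]; tauto
    have hd : Disjoint E F := Finset.disjoint_of_subset_right (Finset.subset_insert e F) h
    rw [Finset.union_insert, P1_insert hEF, ih hd, ih hd]
    have h1 : ∀ S : Finset α, BE (insert e F) p (fun T => f (S ∪ T)) =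
        p * BE F p (fun T => f (insert e (S ∪ T))) + (1 - p) * BE F p (fun T => f (S ∪ T)) := by
      intro S
      rw [P1_insert he]
      simp only [Finset.union_insert]
    simp only [h1]
    rw [BE_add (f := fun S => p * BE F p (fun T => f (insert e (S ∪ T))))
      (g := fun S => (1 - p) * BE F p (fun T => f (S ∪ T))), BE_mul_left, BE_mul_left]

theorem BE_insert {α : Type*} [DecidableEq α] {E : Finset α} {e : α} (he : e ∉ E) (p : ℝ)
    (f : Finset α → ℝ) :
    BE (insert e E) p f = p * BE E p (fun S => f (insert e S)) + (1 - p) * BE E p f :=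
  P1_insert he p f

theorem BE_inter {α : Type*} [DecidableEq α] {E F : Finset α} (h : E ⊆ F) (p : ℝ)
    (f : Finset α → ℝ) : BE F p (fun S => f (S ∩ E)) = BE E p f := by
  conv_lhs => rw [← Finset.union_sdiff_of_subset h]
  rw [BE_union Finset.disjoint_sdiff]
  refine BE_congr (fun S hS => ?_)
  have h1 : BE (F \ E) p (fun T => f ((S ∪ T) ∩ E)) = BE (F \ E) p (fun _ => f S) := by
    refine BE_congr (fun T hT => ?_)
    congr 1
    ext x
    simp only [Finset.mem_inter, Finset.mem_union]
    constructor
    · rintro ⟨h2 | h2, h3⟩
      · exact h2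
      · exact absurd h3 (Finset.mem_sdiff.1 (hT h2)).2
    · intro h2
      exact ⟨Or.inl h2, hS h2⟩
  rw [h1, BE_const]

theorem BE_image {α β : Type*} [DecidableEq α] [DecidableEq β] {σ : α → β}
    (hσ : Function.Injective σ) (E : Finset α) (p : ℝ) (f : Finset β → ℝ) :
    BE (E.image σ) p f = BE E p (fun S => f (S.image σ)) := by
  induction E using Finset.induction_on generalizing f with
  | empty =>
    rw [Finset.image_empty]
    unfold BE
    simp
  | insert e E he ih =>
    have h1 : σ e ∉ E.image σ := by
      rw [Finset.mem_image]
      rintro ⟨x, hx, hxe⟩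
      exact he (hσ hxe ▸ hx)
    rw [Finset.image_insert, P1_insert h1, P1_insert he, ih, ih]
    simp only [Finset.image_insert]

/-- The expectation of an expectation over a disjoint set can be exchanged. -/
theorem BE_comm {α β : Type*} [DecidableEq α] [DecidableEq β] (E : Finset α) (F : Finset β)
    (p q : ℝ) (f : Finset α → Finset β → ℝ) :
    BE E p (fun S => BE F q (fun T => f S T)) = BE F q (fun T => BE E p (fun S => f S T)) := by
  unfold BE
  simp only [Finset.mul_sum]
  rw [Finset.sum_comm]
  refine Finset.sum_congr rfl (fun T _ => Finset.sum_congr rfl (fun S _ => ?_))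
  ring

end Pool.Agent.Helper55.ML
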