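import Pool.Agent.Helper55.ML.P1

set_option autoImplicit false
open Finset Filter Topology

namespace Pool.Agent.Helper55.ML

private theorem p2_empty {α : Type*} [DecidableEq α] (p : ℝ) (f : Finset α → ℝ) :
    BE ∅ p f = f ∅ := by
  unfold BE
  simp

/-- P2 (hint). Union of a `p`-random and an independent `q`-random subset is a
`1-(1-p)(1-q)`-random subset: induction on `E` with `BE_insert`. -/
theorem BE_couple {α : Type*} [DecidableEq α] (E : Finset α) (p q : ℝ) (f : Finset α → ℝ) :
    BE E (1 - (1 - p) * (1 - q)) f = BE E p (fun S => BE E q (fun T => f (S ∪ T))) := by
  induction E using Finset.induction_on generalizing f with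
  | empty => rw [p2_empty, p2_empty, p2_empty, Finset.empty_union]
  | insert e E he ih =>
    rw [BE_insert he, BE_insert he, ih f, ih (fun S => f (insert e S))]
    have h1 : (fun S : Finset α => BE (insert e E) q (fun T => f (insert e S ∪ T))) =
        fun S => BE E q (fun T => f (insert e (S ∪ T))) := by
      funext S
      rw [BE_insert he]
      have h2 : (fun T : Finset α => f (insert e S ∪ insert e T)) =
          fun T => f (insert e (S ∪ T)) := by
        funext T
        rw [Finset.insert_union, Finset.union_insert, Finset.insert_idem]
      have h3 : (fun T : Finset α => f (insert e S ∪ T)) = fun T => f (insert e (S ∪ T)) := by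
        funext T
        rw [Finset.insert_union]
      rw [h2, h3]
      ring
    have h4 : (fun S : Finset α => BE (insert e E) q (fun T => f (S ∪ T))) =
        fun S => q * BE E q (fun T => f (insert e (S ∪ T))) +
          (1 - q) * BE E q (fun T => f (S ∪ T)) := by
      funext S
      rw [BE_insert he]
      have h2 : (fun T : Finset α => f (S ∪ insert e T)) = fun T => f (insert e (S ∪ T)) := by
        funext T
        rw [Finset.union_insert]
      rw [h2]
    rw [h1, h4, BE_add, BE_mul_left, BE_mul_left]
    ring

end Pool.Agent.Helper55.ML
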