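import Pool.Agent.Helper55.ML.P1

set_option autoImplicit false
open Finset Filter Topology

namespace Pool.Agent.Helper55.ML

/-- P3 (hint). Russo's formula: induction on `E` with `BE_insert` (or differentiate the defining
sum). For `e ∈ E`. -/
theorem BE_hasDerivAt {α : Type*} [DecidableEq α] (E : Finset α) (p : ℝ) (f : Finset α → ℝ) :
    HasDerivAt (fun q => BE E q f)
      (∑ e ∈ E, BE E p (fun S => f (insert e S) - f (S.erase e))) p := by
  induction E using Finset.induction_on generalizing f with
  | empty =>
    have h : (fun q : ℝ => BE (∅ : Finset α) q f) = fun _ => f ∅ := by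
      funext q
      simp [BE]
    rw [h]
    simpa using hasDerivAt_const p (f ∅)
  | insert a E ha ih =>
    have h : (fun q : ℝ => BE (insert a E) q f) =
        fun q => q * BE E q (fun S => f (insert a S)) + (1 - q) * BE E q f := by
      funext q
      exact BE_insert ha q f
    rw [h]
    have h1 := (hasDerivAt_id p).mul (ih (fun S => f (insert a S)))
    have h2 := ((hasDerivAt_const p (1 : ℝ)).sub (hasDerivAt_id p)).mul (ih f)
    have h3 := h1.add h2
    refine h3.congr_deriv ?_
    rw [Finset.sum_insert ha]
    have e1 : BE (insert a E) p (fun S => f (insert a S) - f (S.erase a)) =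
        BE E p (fun S => f (insert a S)) - BE E p f := by
      rw [BE_insert ha]
      have c1 : BE E p (fun S => f (insert a (insert a S)) - f ((insert a S).erase a)) =
          BE E p (fun S => f (insert a S) - f S) := by
        apply BE_congr
        intro S hS
        have haS : a ∉ S := fun h => ha (hS h)
        rw [Finset.insert_idem, Finset.erase_insert haS]
      have c2 : BE E p (fun S => f (insert a S) - f (S.erase a)) =
          BE E p (fun S => f (insert a S) - f S) := by
        apply BE_congr
        intro S hS
        have haS : a ∉ S := fun h => ha (hS h)
        rw [Finset.erase_eq_of_notMem haS]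
      rw [c1, c2, BE_sub]
      ring
    have e2 : ∀ e ∈ E, BE (insert a E) p (fun S => f (insert e S) - f (S.erase e)) =
        p * BE E p (fun S => f (insert a (insert e S)) - f (insert a (S.erase e))) +
        (1 - p) * BE E p (fun S => f (insert e S) - f (S.erase e)) := by
      intro e he
      have hae : a ≠ e := fun h => ha (h ▸ he)
      rw [BE_insert ha]
      have c1 : BE E p (fun S => f (insert e (insert a S)) - f ((insert a S).erase e)) =
          BE E p (fun S => f (insert a (insert e S)) - f (insert a (S.erase e))) := by
        apply BE_congr
        intro S _
        rw [Finset.insert_comm, Finset.erase_insert_of_ne hae]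
      rw [c1]
    rw [e1, Finset.sum_congr rfl e2, Finset.sum_add_distrib, ← Finset.mul_sum, ← Finset.mul_sum]
    simp only [id, Pi.sub_apply]
    ring

end Pool.Agent.Helper55.ML
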