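import Pool.Agent.Helper55.ML.P5
import Pool.Agent.Helper55.ML.Q1
import Pool.Agent.Helper55.ML.Q2

set_option autoImplicit false
open Finset Filter Topology

namespace Pool.Agent.Helper55.ML

/-- Q6a (hint): `BE_deriv_bound`: the sum over all pairs of the expectations of
`Φ (insert e G) - Φ (G.erase e)` is at most `sqrt(|En n| / (p(1-p)))` in absolute value; all terms are
equal (`Ex_edge_eq`), so each is at most `1/sqrt(|En n| p (1-p))`, `p = c/n`. -/
theorem edge_bound {c : ℝ} (hc : 0 < c) : ∃ C : ℝ, 0 < C ∧ ∀ᶠ n : ℕ in atTop,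
    ∀ Φ : Finset (Sym2 ℕ) → ℝ, (∀ G, 0 ≤ Φ G) → (∀ G, Φ G ≤ 1) → SymR n Φ →
      |Ex n (c / n) (fun G => Φ (insert s(0, 1) G) - Φ (G.erase s(0, 1)))| ≤
        C / Real.sqrt n := by
  refine ⟨Real.sqrt (8 / c), Real.sqrt_pos.2 (by positivity), ?_⟩
  filter_upwards [cn_eventually hc, eventually_ge_atTop 2] with n hp hn2 Φ hΦ0 hΦ1 hsym
  have hn : (2 : ℝ) ≤ n := by exact_mod_cast hn2
  have hn0 : (0 : ℝ) < n := by linarith
  obtain ⟨g, hg⟩ : ∃ g : Sym2 ℕ → Finset (Sym2 ℕ) → ℝ,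
      g = fun e G => Φ (insert e G) - Φ (G.erase e) := ⟨_, rfl⟩
  have hgs : ∀ σ : Equiv.Perm ℕ, (∀ i, σ i < n ↔ i < n) →
      ∀ e G, g (Sym2.map σ e) (G.image (Sym2.map σ)) = g e G := by
    intro σ hσ e G
    have hinj : Function.Injective (Sym2.map σ) := Sym2.map.injective σ.injective
    rw [hg]
    simp only
    rw [← Finset.image_insert, ← Finset.image_erase hinj, hsym σ hσ, hsym σ hσ]
  have hterm : ∀ e ∈ En n, Ex n (c / n) (g e) = Ex n (c / n) (g s(0, 1)) :=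
    fun e he => Ex_edge_eq n (c / n) g hgs he
  have hb := BE_deriv_bound (En n) hp.1 (by linarith [hp.2]) Φ
    (fun S _ => abs_le.2 ⟨by linarith [hΦ0 S], hΦ1 S⟩)
  have hsum : ∑ e ∈ En n, BE (En n) (c / n) (fun S => Φ (insert e S) - Φ (S.erase e)) =
      ((En n).card : ℝ) * Ex n (c / n) (g s(0, 1)) := by
    have h1 : ∑ e ∈ En n, BE (En n) (c / n) (fun S => Φ (insert e S) - Φ (S.erase e)) =
        ∑ e ∈ En n, Ex n (c / n) (g s(0, 1)) := by
      refine Finset.sum_congr rfl fun e he => ?_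
      rw [← hterm e he, hg]
      rfl
    rw [h1, Finset.sum_const, nsmul_eq_mul]
  rw [hsum] at hb
  have hx : Ex n (c / n) (fun G => Φ (insert s(0, 1) G) - Φ (G.erase s(0, 1))) =
      Ex n (c / n) (g s(0, 1)) := by rw [hg]
  rw [hx]
  generalize Ex n (c / n) (g s(0, 1)) = x at hb ⊢
  have hm : (n : ℝ) ^ 2 / 4 ≤ ((En n).card : ℝ) := by
    rw [card_En]
    nlinarith
  have hm0 : 0 < ((En n).card : ℝ) := lt_of_lt_of_le (by positivity) hm
  generalize ((En n).card : ℝ) = m at hb hm hm0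
  obtain ⟨q, hq⟩ : ∃ q : ℝ, q = c / n * (1 - c / n) := ⟨_, rfl⟩
  have hq1 : c / (2 * n) ≤ q := by
    have h1 : c / (2 * n) = c / n * (1 / 2) := by field_simp
    rw [hq, h1]
    exact mul_le_mul_of_nonneg_left (by linarith [hp.2]) hp.1.le
  have hq0 : 0 < q := lt_of_lt_of_le (by positivity) hq1
  rw [← hq] at hb
  have hmq : c * n / 8 ≤ m * q := by
    calc c * n / 8 = (n : ℝ) ^ 2 / 4 * (c / (2 * n)) := by field_simp; norm_num
      _ ≤ m * q := mul_le_mul hm hq1 (by positivity) hm0.le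
  have hsq : (m * x) ^ 2 ≤ m / q := by
    have h1 := (sq_le_sq₀ (abs_nonneg _) (Real.sqrt_nonneg _)).2 hb
    rwa [sq_abs, Real.sq_sqrt (by positivity)] at h1
  have hx2 : x ^ 2 ≤ 8 / c / n := by
    have h1 : x ^ 2 * (m * q) ≤ 1 := by
      rw [le_div_iff₀ hq0] at hsq
      have h2 : m * (x ^ 2 * (m * q)) ≤ m * 1 := by
        calc m * (x ^ 2 * (m * q)) = (m * x) ^ 2 * q := by ring
          _ ≤ m := hsq
          _ = m * 1 := by ring
      exact le_of_mul_le_mul_left h2 hm0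
    have h3 : x ^ 2 * (c * n / 8) ≤ 1 := le_trans (mul_le_mul_of_nonneg_left hmq (sq_nonneg x)) h1
    rw [div_div, le_div_iff₀ (by positivity)]
    linarith
  rw [← Real.sqrt_div (by positivity), ← Real.sqrt_sq_eq_abs]
  exact Real.sqrt_le_sqrt hx2

end Pool.Agent.Helper55.ML
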