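import Pool.Agent.Helper55.ML.P4
import Pool.Agent.Helper55.ML.Q1
import Pool.Agent.Helper55.ML.Q2
import Pool.Agent.Helper55.ML.Q4

set_option autoImplicit false
open Finset Filter Topology

namespace Pool.Agent.Helper55.ML

private theorem q7_pE {c : ℝ} {n : ℕ} (hn : 0 < n) :
    c / n * ((En n).card : ℝ) = c * (n - 1) / 2 := by
  have hn' : (n : ℝ) ≠ 0 := by positivity
  rw [card_En]
  field_simp

/-- Q7: `E|G| ≤ c n / 2`; by Chebyshev `|G| < c n` whp. -/
theorem Ex_card_le {c : ℝ} (hc : 0 < c) {n : ℕ} (hn : 0 < n) :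
    Ex n (c / n) (fun G => (G.card : ℝ)) ≤ c * n / 2 := by
  unfold Ex
  rw [BE_card, q7_pE hn]
  nlinarith

private theorem q7_var {c : ℝ} (hc : 0 < c) {n : ℕ} (hn : 0 < n) (h0 : 0 ≤ c / (n : ℝ))
    (h1 : c / (n : ℝ) ≤ 1) :
    Ex n (c / n) (fun G => ((G.card : ℝ) - c / n * (En n).card) ^ 2) ≤ c * n / 2 := by
  unfold Ex
  rw [BE_card_sq]
  have h2 : c / (n : ℝ) * (1 - c / n) * (En n).card ≤ c / (n : ℝ) * (En n).card := by
    have : 0 ≤ c / (n : ℝ) * (c / n) * (En n).card := by positivity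
    nlinarith
  refine h2.trans ?_
  rw [q7_pE hn]
  nlinarith

theorem Neg_card {c : ℝ} (hc : 0 < c) : Neg c (fun n G => c * n ≤ (G.card : ℝ)) := by
  have hlim : Tendsto (fun n : ℕ => 2 / c * ((n : ℝ))⁻¹) atTop (𝓝 0) := by
    have := tendsto_inv_atTop_nhds_zero_nat (𝕜 := ℝ)
    have h2 := this.const_mul (2 / c)
    rwa [mul_zero] at h2
  refine Neg_of_le hc hlim ?_
  filter_upwards [cn_eventually hc, eventually_gt_atTop 0] with n hn hn0
  have hnpos : (0 : ℝ) < n := by exact_mod_cast hn0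
  have h1 : Pr n (c / n) (fun G => c * n ≤ (G.card : ℝ)) ≤
      Ex n (c / n) (fun G => ((G.card : ℝ) - c / n * (En n).card) ^ 2 * ((c * n / 2) ^ 2)⁻¹) := by
    refine Ex_mono hn.1.le (by linarith [hn.2]) (fun G _ => ?_)
    by_cases hG : c * n ≤ (G.card : ℝ)
    · rw [ind_true hG, ← div_eq_mul_inv, one_le_div (by positivity), q7_pE hn0]
      have h3 : c * n / 2 ≤ (G.card : ℝ) - c * (n - 1) / 2 := by nlinarith
      exact pow_le_pow_left₀ (by positivity) h3 2
    · rw [ind_false hG]; positivity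
  rw [Ex_mul_right] at h1
  refine h1.trans ?_
  have h2 := q7_var hc hn0 hn.1.le (by linarith [hn.2])
  calc Ex n (c / n) (fun G => ((G.card : ℝ) - c / n * (En n).card) ^ 2) * ((c * n / 2) ^ 2)⁻¹
      ≤ (c * n / 2) * ((c * n / 2) ^ 2)⁻¹ :=
        mul_le_mul_of_nonneg_right h2 (by positivity)
    _ = 2 / c * (n : ℝ)⁻¹ := by field_simp

/-- (hint) `Ex_mecke_insert` and `Ex_edge_eq`: `p |En n| P(insert s(0,1) G ∈ B) =
E[|G| 1_B(G)] ≤ sqrt(E|G|^2 P(B))`, `E|G|^2 ≤ C n^2`, `p|En n|` is of order `n`. -/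
theorem Neg_insert {c : ℝ} (hc : 0 < c) {B : ℕ → Finset (Sym2 ℕ) → Prop} (hB : Neg c B)
    (hs : ∀ n, SymP n (B n)) : Neg c (fun n G => B n (insert s(0, 1) G)) := by
  have hlim : Tendsto (fun n : ℕ => Real.sqrt ((8 / c * ((n : ℝ))⁻¹ + 4) * Pr n (c / n) (B n)))
      atTop (𝓝 0) := by
    have h1 := ((tendsto_inv_atTop_nhds_zero_nat (𝕜 := ℝ)).const_mul (8 / c)).add_const 4
    have h2 := h1.mul hB
    have h3 := (Real.continuous_sqrt.tendsto _).comp h2
    rw [mul_zero, Real.sqrt_zero] at h3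
    exact h3
  refine Neg_of_le hc hlim ?_
  filter_upwards [cn_eventually hc, eventually_ge_atTop 2] with n hn hn2
  have hn0 : 0 < n := by omega
  have hnpos : (0 : ℝ) < n := by exact_mod_cast hn0
  have hn2' : (2 : ℝ) ≤ n := by exact_mod_cast hn2
  set p : ℝ := c / n with hp
  set Q := Pr n p (fun G => B n (insert s(0, 1) G)) with hQ
  -- Mecke
  have h1 := Ex_mecke_insert n p (fun _ G => ind (B n G))
  have h2 : p * ∑ e ∈ En n, Ex n p (fun G => ind (B n (insert e G))) =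
      p * (En n).card * Q := by
    have h3 : ∀ e ∈ En n, Ex n p (fun G => ind (B n (insert e G))) = Q := by
      intro e he
      refine Ex_edge_eq n p (fun e G => ind (B n (insert e G))) ?_ he
      intro σ hσ e G
      have h4 := hs n σ hσ (insert e G)
      rw [Finset.image_insert] at h4
      exact ind_congr h4
    rw [Finset.sum_congr rfl h3, Finset.sum_const, nsmul_eq_mul]
    ring
  have h5 : (fun G : Finset (Sym2 ℕ) => ∑ e ∈ G, ind (B n G)) =
      fun G => (G.card : ℝ) * ind (B n G) := by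
    funext G
    rw [Finset.sum_const, nsmul_eq_mul]
  rw [h2, h5] at h1
  have h6 := BE_cauchy (En n) hn.1.le (by linarith [hn.2] : p ≤ 1)
    (fun G => (G.card : ℝ)) (fun G => ind (B n G))
  have h7 : BE (En n) p (fun G => ind (B n G) ^ 2) = Pr n p (B n) := by
    unfold Pr Ex
    congr 1
    funext G
    rw [sq, ind_sq]
  have hcard2 : BE (En n) p (fun G => (G.card : ℝ) ^ 2) ≤ c * n / 2 + (c * n / 2) ^ 2 := by
    have h8 : (fun G : Finset (Sym2 ℕ) => (G.card : ℝ) ^ 2) = fun G =>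
        ((G.card : ℝ) - p * (En n).card) ^ 2 +
          ((2 * (p * (En n).card)) * (G.card : ℝ) - (p * (En n).card) ^ 2) := by
      funext G; ring
    rw [h8, BE_add, BE_sub, BE_mul_left, BE_const, BE_card]
    have h9 := q7_var hc hn0 hn.1.le (by linarith [hn.2])
    unfold Ex at h9
    have h10 : p * (En n).card ≤ c * n / 2 := by
      rw [hp, q7_pE hn0]; nlinarith
    have h11 : 0 ≤ p * (En n).card := mul_nonneg hn.1.le (Nat.cast_nonneg _)
    nlinarith
  have hP0 : 0 ≤ Pr n p (B n) := Pr_nonneg hn.1.le (by linarith [hn.2])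
  have h12 : (p * (En n).card * Q) ^ 2 ≤ (c * n / 2 + (c * n / 2) ^ 2) * Pr n p (B n) := by
    rw [← h1]
    refine h6.trans ?_
    rw [h7]
    exact mul_le_mul_of_nonneg_right hcard2 hP0
  have hQ0 : 0 ≤ Q := Pr_nonneg hn.1.le (by linarith [hn.2])
  apply Real.le_sqrt_of_sq_le
  have h13 : c * n / 4 ≤ p * (En n).card := by
    rw [hp, q7_pE hn0]; nlinarith
  have h14 : (c * n / 4 * Q) ^ 2 ≤ (p * (En n).card * Q) ^ 2 :=
    pow_le_pow_left₀ (by positivity) (mul_le_mul_of_nonneg_right h13 hQ0) 2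
  have h15 := h14.trans h12
  have h16 : (c * n / 4 * Q) ^ 2 = (c * n / 4) ^ 2 * Q ^ 2 := by ring
  rw [h16] at h15
  have h17 : (c * n / 2 + (c * n / 2) ^ 2) * Pr n p (B n) =
      (c * n / 4) ^ 2 * ((8 / c * (n : ℝ)⁻¹ + 4) * Pr n p (B n)) := by
    field_simp
    ring
  rw [h17] at h15
  exact le_of_mul_le_mul_left h15 (by positivity)

end Pool.Agent.Helper55.ML
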