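import Pool.Agent.Helper55.ML.M1
import Pool.Agent.Helper55.ML.Q7
import Pool.Agent.Helper55.ML.Q9

set_option autoImplicit false
open Finset Filter Topology

namespace Pool.Agent.Helper55.ML

private theorem t0_sN_tendsto : Tendsto (fun n : ℕ => sN n * (n : ℝ) ^ 2) atTop atTop := by
  have h1 : Tendsto (fun n : ℕ => (n : ℝ) ^ ((1 / 4 : ℝ))) atTop atTop :=
    (tendsto_rpow_atTop (by norm_num)).comp tendsto_natCast_atTop_atTop
  refine h1.congr' ?_
  filter_upwards [eventually_ge_atTop 1] with n hn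
  have h0 : (0 : ℝ) < n := by exact_mod_cast hn
  unfold sN
  rw [← Real.rpow_natCast, ← Real.rpow_add h0]
  norm_num

private theorem t0_pow {ε : ℝ} (hε : 0 < ε) : ∀ᶠ n : ℕ in atTop, ∀ m : ℕ,
    ε * (n : ℝ) ^ 2 / 2 ≤ m → (1 - sN n) ^ m ≤ 1 / 2 := by
  have h1 : Tendsto (fun n : ℕ => ε / 2 * (sN n * (n : ℝ) ^ 2)) atTop atTop :=
    t0_sN_tendsto.const_mul_atTop (by positivity)
  filter_upwards [h1.eventually_ge_atTop 1, sprinkle_bounds (show (0 : ℝ) < 1 by norm_num)]
    with n h2 h3 m hm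
  obtain ⟨h4, h5, _⟩ := h3
  have h6 : (1 - sN n) ^ m ≤ Real.exp (-(sN n)) ^ m :=
    pow_le_pow_left₀ (by linarith) (Real.one_sub_le_exp_neg _) m
  refine h6.trans ?_
  rw [← Real.exp_nat_mul]
  have h7 : (m : ℝ) * -(sN n) ≤ -1 := by
    have h8 : ε * (n : ℝ) ^ 2 / 2 * sN n ≤ m * sN n := mul_le_mul_of_nonneg_right hm h4.le
    have h9 : ε / 2 * (sN n * (n : ℝ) ^ 2) = ε * (n : ℝ) ^ 2 / 2 * sN n := by ring
    linarith
  refine (Real.exp_le_exp.2 h7).trans ?_
  rw [Real.exp_neg, one_div]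
  apply inv_anti₀ (by norm_num)
  have := Real.add_one_le_exp (1 : ℝ)
  linarith

private theorem t0_dep {d t : ℕ} (R : Rig d t) {G H : Finset (Sym2 ℕ)} {e : Sym2 ℕ}
    (hcl : R.Cl G e) (he : e ∉ G) (heH : e ∈ H) : R.Dep (G ∪ H) := by
  have h1 : R.Dep (insert e G) := by
    unfold Rig.Dep
    rw [Rig.Cl_def] at hcl
    rw [hcl, Finset.card_insert_of_notMem he]
    have := R.r_le_card G
    omega
  refine R.Dep_mono ?_ h1
  exact Finset.insert_subset (Finset.mem_union_right _ heH) Finset.subset_union_left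

/-- T0 (hint): an independent graph has few pairs in its closure. On that event the sprinkled set
(probability `sN n`) contains an element of `cl(G) \ G` with probability tending to one
(`|G| ≤ c n` whp), and then `G ∪ H` is dependent; but
`P(G ∪ H dependent) - P(G dependent) → 0` (`sprinkle_pp`, `sprinkle_tv`). -/
theorem Rig.T0 {d t : ℕ} (R : Rig d t) {c : ℝ} (hc : 0 < c) {ε : ℝ} (hε : 0 < ε) :
    Neg c (fun n G => ¬ R.Dep G ∧ ε * (n : ℝ) ^ 2 ≤ ((R.cl n G).card : ℝ)) := by
  classical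
  obtain ⟨e, he, hev⟩ := sprinkle_tv hc
  have hA : Neg c (fun n G => (¬ R.Dep G ∧ ε * (n : ℝ) ^ 2 ≤ ((R.cl n G).card : ℝ)) ∧
      (G.card : ℝ) < c * n) := by
    have h2e : Tendsto (fun n => 2 * e n) atTop (𝓝 0) := by
      have := he.const_mul 2
      rwa [mul_zero] at this
    refine Neg_of_le hc h2e ?_
    have hlarge : ∀ᶠ n : ℕ in atTop, c * n ≤ ε * (n : ℝ) ^ 2 / 2 := by
      obtain ⟨N, hN⟩ := exists_nat_ge (2 * c / ε)
      filter_upwards [eventually_ge_atTop N] with n hn
      have h1 : 2 * c / ε ≤ n := hN.trans (by exact_mod_cast hn)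
      rw [div_le_iff₀ hε] at h1
      have h0 : (0 : ℝ) ≤ n := Nat.cast_nonneg n
      nlinarith
    filter_upwards [hev, t0_pow hε, cn_eventually hc, sprinkle_bounds hc, hlarge]
      with n h1 h2 h3 h4 h5
    obtain ⟨s0, s1, _⟩ := h4
    have hp1 : c / (n : ℝ) ≤ 1 := by linarith [h3.2]
    obtain ⟨f, hf⟩ : ∃ f : Finset (Sym2 ℕ) → ℝ, f = fun G => ind (R.Dep G) := ⟨_, rfl⟩
    have hf0 : ∀ G, 0 ≤ f G := fun G => by rw [hf]; exact ind_nonneg _
    have hf1 : ∀ G, f G ≤ 1 := fun G => by rw [hf]; exact ind_le_one _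
    have key : ∀ G ⊆ En n, f G + ind ((¬ R.Dep G ∧ ε * (n : ℝ) ^ 2 ≤ ((R.cl n G).card : ℝ)) ∧
        (G.card : ℝ) < c * n) * (1 / 2) ≤ Ex n (sN n) (fun H => f (G ∪ H)) := by
      intro G hG
      by_cases hB : (¬ R.Dep G ∧ ε * (n : ℝ) ^ 2 ≤ ((R.cl n G).card : ℝ)) ∧ (G.card : ℝ) < c * n
      · obtain ⟨⟨hB1, hB2⟩, hB3⟩ := hB
        rw [ind_true ⟨⟨hB1, hB2⟩, hB3⟩]
        have hfG : f G = 0 := by rw [hf]; exact ind_false hB1
        rw [hfG]
        obtain ⟨F, hF⟩ : ∃ F, F = R.cl n G \ G := ⟨_, rfl⟩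
        have hFE : F ⊆ En n := by
          intro x hx
          rw [hF, Finset.mem_sdiff, R.mem_cl] at hx
          exact hx.1.1
        have hFc : ε * (n : ℝ) ^ 2 / 2 ≤ (F.card : ℝ) := by
          have h6 : (R.cl n G).card ≤ F.card + G.card := by
            have := Finset.card_le_card_sdiff_add_card (s := R.cl n G) (t := G)
            rw [hF]
            exact this
          have h7 : ((R.cl n G).card : ℝ) ≤ F.card + G.card := by exact_mod_cast h6
          linarith
        have h8 := BE_subset_disj (Finset.empty_subset (En n)) hFE (Finset.disjoint_empty_left F)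
          (sN n)
        rw [Finset.card_empty, pow_zero, one_mul] at h8
        have h9 : Ex n (sN n) (fun H => 1 - ind (∅ ⊆ H ∧ Disjoint H F)) ≤
            Ex n (sN n) (fun H => f (G ∪ H)) := by
          refine Ex_mono s0.le (by linarith) fun H _ => ?_
          by_cases hd : Disjoint H F
          · rw [ind_true ⟨Finset.empty_subset H, hd⟩]
            have := hf0 (G ∪ H)
            linarith
          · rw [Finset.not_disjoint_iff] at hd
            obtain ⟨x, hxH, hxF⟩ := hd
            rw [hF, Finset.mem_sdiff, R.mem_cl] at hxF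
            have h10 : f (G ∪ H) = 1 := by
              rw [hf]
              exact ind_true (t0_dep R hxF.1.2 hxF.2 hxH)
            rw [h10]
            have := ind_nonneg (∅ ⊆ H ∧ Disjoint H F)
            linarith
        rw [Ex_sub (f := fun _ => (1 : ℝ)) (g := fun H => ind (∅ ⊆ H ∧ Disjoint H F)),
          Ex_const] at h9
        have h11 : Ex n (sN n) (fun H => ind (∅ ⊆ H ∧ Disjoint H F)) = (1 - sN n) ^ F.card := h8
        rw [h11] at h9
        have h12 := h2 F.card hFc
        linarith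
      · rw [ind_false hB, zero_mul, add_zero]
        have h6 : Ex n (sN n) (fun _ => f G) ≤ Ex n (sN n) (fun H => f (G ∪ H)) := by
          refine Ex_mono s0.le (by linarith) fun H _ => ?_
          rw [hf]
          exact ind_mono fun h => R.Dep_mono Finset.subset_union_left h
        rwa [Ex_const] at h6
    have h13 := Ex_mono h3.1.le hp1 key
    rw [← sprinkle_pp, Ex_add, Ex_mul_right] at h13
    have h14 := (h1 f (fun G _ => abs_le.2 ⟨by linarith [hf0 G], hf1 G⟩)).1
    have h15 := (abs_le.1 h14).2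
    unfold Pr
    linarith
  refine Neg_or_mono hc hA (Neg_card hc) ?_
  filter_upwards with n G _ hG
  by_cases h : c * n ≤ (G.card : ℝ)
  · exact Or.inr h
  · exact Or.inl ⟨hG, not_le.1 h⟩

end Pool.Agent.Helper55.ML
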