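import Pool.Agent.Helper55.ML.T0
import Pool.Agent.Helper55.ML.M2
import Pool.Agent.Helper55.ML.M6
import Pool.Agent.Helper55.ML.Q4
import Pool.Agent.Helper55.ML.Q11
import Pool.Agent.Helper55.ML.S0

set_option autoImplicit false
open Finset Filter Topology

namespace Pool.Agent.Helper55.ML

/-- If `e` is in the closure of `G.erase e` then the closures agree. -/
theorem Rig.t1_cl_erase {d t : ℕ} (R : Rig d t) {n : ℕ} {G : Finset (Sym2 ℕ)} {e : Sym2 ℕ}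
    (h : R.Cl (G.erase e) e) : R.cl n (G.erase e) = R.cl n G := by
  refine Finset.Subset.antisymm (R.cl_mono (Finset.erase_subset e G)) ?_
  intro f hf
  rw [Rig.mem_cl] at hf ⊢
  refine ⟨hf.1, R.Cl_trans' (T := G) ?_ hf.2⟩
  intro g hg
  by_cases hge : g = e
  · rw [hge]; exact h
  · exact R.Cl_of_mem (Finset.mem_erase.2 ⟨hge, hg⟩)

open Classical in
/-- Many redundant edges in a dependent graph without dense small sets. -/
theorem Rig.t1_many {d t : ℕ} (R : Rig d t) (hd : 2 ≤ d) {n : ℕ} {β : ℝ} {G : Finset (Sym2 ℕ)}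
    (hG : G ⊆ En n) (hdep : R.Dep G)
    (hnD : ¬ ∃ S : Finset ℕ, S ⊆ range n ∧ S.Nonempty ∧ (S.card : ℝ) ≤ β * n ∧
      3 * S.card ≤ 2 * (ins S G).card) :
    β * n ≤ ((G.filter (fun e => R.Cl (G.erase e) e)).card : ℝ) := by
  obtain ⟨C, hCG, V, hVn, hVne, hCV, hCcl, hcard⟩ := R.exists_circuit_vertices hG hdep
  have h1 : C ⊆ ins V G := by
    intro e he
    rw [mem_ins]
    exact ⟨hCG he, hCV e he⟩
  have h2 : 3 * V.card ≤ 2 * (ins V G).card := by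
    have h3 : 3 * V.card ≤ (d + 1) * V.card := Nat.mul_le_mul_right _ (by omega)
    have h4 := Finset.card_le_card h1
    omega
  have h5 : β * n < (V.card : ℝ) := by
    by_contra h
    exact hnD ⟨V, hVn, hVne, not_lt.1 h, h2⟩
  have h6 : V.card ≤ C.card := by
    have h3 : 3 * V.card ≤ (d + 1) * V.card := Nat.mul_le_mul_right _ (by omega)
    omega
  have h7 : C ⊆ G.filter (fun e => R.Cl (G.erase e) e) := by
    intro e he
    rw [Finset.mem_filter]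
    exact ⟨hCG he, R.Cl_mono (Finset.erase_subset_erase e hCG) (hCcl e he)⟩
  have h8 := Finset.card_le_card h7
  have h9 : (V.card : ℝ) ≤ ((G.filter (fun e => R.Cl (G.erase e) e)).card : ℝ) := by
    exact_mod_cast h6.trans h8
  linarith

open Classical in
/-- The main counting inequality at a fixed `n`. -/
theorem Rig.t1_ineq {d t : ℕ} (R : Rig d t) (hd : 2 ≤ d) {n : ℕ} {p β ε ε' : ℝ} (hp0 : 0 ≤ p)
    (hp1 : p ≤ 1 / 2) (hβ : 0 ≤ β) (hε : 0 ≤ ε) (hε' : 0 ≤ ε') :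
    β * n * (Pr n p (fun G => R.Dep G ∧ ((R.cl n G).card : ℝ) ≤ ε * (n : ℝ) ^ 2) -
        Pr n p (fun G => ∃ S : Finset ℕ, S ⊆ range n ∧ S.Nonempty ∧ (S.card : ℝ) ≤ β * n ∧
          3 * S.card ≤ 2 * (ins S G).card)) ≤
      2 * p * (n : ℝ) ^ 2 *
        (ε * Pr n p (fun G => R.Dep G ∧ ((R.cl n G).card : ℝ) ≤ ε * (n : ℝ) ^ 2) + ε' +
          ε * Pr n p (fun G => ¬ R.Dep G ∧ ε' * (n : ℝ) ^ 2 ≤ ((R.cl n G).card : ℝ))) := by
  set g : Sym2 ℕ → Finset (Sym2 ℕ) → ℝ := fun e H =>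
    ind (R.Cl H e ∧ ((R.cl n H).card : ℝ) ≤ ε * (n : ℝ) ^ 2) with hg
  have hp1' : p ≤ 1 := by linarith
  have hβn : 0 ≤ β * (n : ℝ) := by positivity
  -- lower bound
  have hlow : β * n * (Pr n p (fun G => R.Dep G ∧ ((R.cl n G).card : ℝ) ≤ ε * (n : ℝ) ^ 2) -
        Pr n p (fun G => ∃ S : Finset ℕ, S ⊆ range n ∧ S.Nonempty ∧ (S.card : ℝ) ≤ β * n ∧
          3 * S.card ≤ 2 * (ins S G).card)) ≤ Ex n p (fun G => ∑ e ∈ G, g e (G.erase e)) := by
    unfold Pr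
    rw [← Ex_sub, ← Ex_mul_left]
    refine Ex_mono hp0 hp1' fun G hG => ?_
    have hnn : 0 ≤ ∑ e ∈ G, g e (G.erase e) := Finset.sum_nonneg fun e _ => ind_nonneg _
    by_cases hA : R.Dep G ∧ ((R.cl n G).card : ℝ) ≤ ε * (n : ℝ) ^ 2
    · by_cases hD : ∃ S : Finset ℕ, S ⊆ range n ∧ S.Nonempty ∧ (S.card : ℝ) ≤ β * n ∧
          3 * S.card ≤ 2 * (ins S G).card
      · rw [ind_true hA, ind_true hD, sub_self, mul_zero]
        exact hnn
      · rw [ind_true hA, ind_false hD, sub_zero, mul_one]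
        refine (R.t1_many hd hG hA.1 hD).trans ?_
        rw [Finset.card_filter, Nat.cast_sum]
        refine Finset.sum_le_sum fun e he => ?_
        split_ifs with h
        · rw [hg]
          simp only
          rw [ind_true ⟨h, by rw [R.t1_cl_erase h]; exact hA.2⟩]
          simp
        · simp only [Nat.cast_zero]
          exact ind_nonneg _
    · rw [ind_false hA]
      refine le_trans ?_ hnn
      have := ind_nonneg (∃ S : Finset ℕ, S ⊆ range n ∧ S.Nonempty ∧ (S.card : ℝ) ≤ β * n ∧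
          3 * S.card ≤ 2 * (ins S G).card)
      nlinarith
  -- Mecke
  have hmecke := Ex_mecke n p g
  have hup : ∀ e ∈ En n, Ex n p (fun G => g e (G.erase e)) ≤ 2 * Ex n p (fun G => g e G) := by
    intro e he
    have h1 := Ex_erase n p he (g e)
    have h2 : Ex n p (fun G => ind (e ∉ G) * g e G) ≤ Ex n p (fun G => g e G) := by
      refine Ex_mono hp0 hp1' fun G _ => ?_
      have h3 := ind_le_one (e ∉ G)
      have h4 : 0 ≤ g e G := ind_nonneg _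
      nlinarith
    have h5 : 0 ≤ Ex n p (fun G => g e (G.erase e)) :=
      Ex_nonneg hp0 hp1' fun G _ => ind_nonneg _
    nlinarith
  have hsum : ∑ e ∈ En n, Ex n p (fun G => g e (G.erase e)) ≤
      2 * Ex n p (fun G => ((R.cl n G).card : ℝ) *
        ind (((R.cl n G).card : ℝ) ≤ ε * (n : ℝ) ^ 2)) := by
    refine (Finset.sum_le_sum hup).trans ?_
    rw [← Finset.mul_sum, ← Ex_sum]
    refine mul_le_mul_of_nonneg_left (le_of_eq ?_) (by norm_num)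
    refine Ex_congr fun G _ => ?_
    have h1 : ∀ e ∈ En n, g e G = (if e ∈ R.cl n G then 1 else 0) *
        ind (((R.cl n G).card : ℝ) ≤ ε * (n : ℝ) ^ 2) := by
      intro e he
      rw [hg]
      simp only
      rw [ind_and]
      congr 1
      by_cases h : R.Cl G e
      · rw [ind_true h, if_pos (R.mem_cl.2 ⟨he, h⟩)]
      · rw [ind_false h, if_neg (fun h' => h (R.mem_cl.1 h').2)]
    rw [Finset.sum_congr rfl h1, ← Finset.sum_mul, Finset.sum_ite_mem, Finset.sum_const,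
      nsmul_eq_mul, mul_one]
    congr 3
    apply Finset.inter_eq_right.2
    intro e he
    exact (R.mem_cl.1 he).1
  have hsplit : Ex n p (fun G => ((R.cl n G).card : ℝ) *
        ind (((R.cl n G).card : ℝ) ≤ ε * (n : ℝ) ^ 2)) ≤
      (n : ℝ) ^ 2 * (ε * Pr n p (fun G => R.Dep G ∧ ((R.cl n G).card : ℝ) ≤ ε * (n : ℝ) ^ 2) + ε' +
          ε * Pr n p (fun G => ¬ R.Dep G ∧ ε' * (n : ℝ) ^ 2 ≤ ((R.cl n G).card : ℝ))) := by
    have h1 : (n : ℝ) ^ 2 * (ε * Pr n p (fun G => R.Dep G ∧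
          ((R.cl n G).card : ℝ) ≤ ε * (n : ℝ) ^ 2) + ε' +
          ε * Pr n p (fun G => ¬ R.Dep G ∧ ε' * (n : ℝ) ^ 2 ≤ ((R.cl n G).card : ℝ))) =
        Ex n p (fun G => (n : ℝ) ^ 2 * (ε * ind (R.Dep G ∧
          ((R.cl n G).card : ℝ) ≤ ε * (n : ℝ) ^ 2) + ε' +
          ε * ind (¬ R.Dep G ∧ ε' * (n : ℝ) ^ 2 ≤ ((R.cl n G).card : ℝ)))) := by
      unfold Pr
      rw [Ex_mul_left, Ex_add, Ex_add, Ex_mul_left, Ex_mul_left, Ex_const]
    rw [h1]
    refine Ex_mono hp0 hp1' fun G _ => ?_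
    have hn2 : 0 ≤ (n : ℝ) ^ 2 := by positivity
    have i1 := ind_nonneg (R.Dep G ∧ ((R.cl n G).card : ℝ) ≤ ε * (n : ℝ) ^ 2)
    have i2 := ind_nonneg (¬ R.Dep G ∧ ε' * (n : ℝ) ^ 2 ≤ ((R.cl n G).card : ℝ))
    by_cases hc : ((R.cl n G).card : ℝ) ≤ ε * (n : ℝ) ^ 2
    · rw [ind_true hc, mul_one]
      by_cases hdep : R.Dep G
      · rw [ind_true ⟨hdep, hc⟩]
        have : 0 ≤ (n : ℝ) ^ 2 * (ε' + ε *
          ind (¬ R.Dep G ∧ ε' * (n : ℝ) ^ 2 ≤ ((R.cl n G).card : ℝ))) := by positivity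
        nlinarith
      · by_cases hc' : ε' * (n : ℝ) ^ 2 ≤ ((R.cl n G).card : ℝ)
        · rw [ind_true (P := ¬ R.Dep G ∧ ε' * (n : ℝ) ^ 2 ≤ ((R.cl n G).card : ℝ)) ⟨hdep, hc'⟩]
          have : 0 ≤ (n : ℝ) ^ 2 * (ε' + ε *
            ind (R.Dep G ∧ ((R.cl n G).card : ℝ) ≤ ε * (n : ℝ) ^ 2)) := by positivity
          nlinarith
        · have : 0 ≤ (n : ℝ) ^ 2 * (ε * ind (R.Dep G ∧ ((R.cl n G).card : ℝ) ≤ ε * (n : ℝ) ^ 2) +
            ε * ind (¬ R.Dep G ∧ ε' * (n : ℝ) ^ 2 ≤ ((R.cl n G).card : ℝ))) := by positivity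
          have := not_le.1 hc'
          nlinarith
    · rw [ind_false hc, mul_zero]
      positivity
  calc _ ≤ Ex n p (fun G => ∑ e ∈ G, g e (G.erase e)) := hlow
    _ = p * ∑ e ∈ En n, Ex n p (fun G => g e (G.erase e)) := hmecke
    _ ≤ p * (2 * ((n : ℝ) ^ 2 * (ε * Pr n p (fun G => R.Dep G ∧
          ((R.cl n G).card : ℝ) ≤ ε * (n : ℝ) ^ 2) + ε' +
          ε * Pr n p (fun G => ¬ R.Dep G ∧ ε' * (n : ℝ) ^ 2 ≤ ((R.cl n G).card : ℝ))))) := by
        refine mul_le_mul_of_nonneg_left (hsum.trans ?_) hp0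
        exact mul_le_mul_of_nonneg_left hsplit (by norm_num)
    _ = _ := by ring

/-- T1 (hint): let `a` be the probability. A dependent `G` contains a circuit with at least `β n`
vertices (`exists_circuit_vertices`, `Neg_dense_small`), so at least `β n` edges `e ∈ G` with
`Cl (G.erase e) e`. So `β n (a - o(1)) ≤ E[#{e ∈ G : Cl (G.erase e) e, |cl G| ≤ ε n^2}]
= p ∑_e P(Cl (G.erase e) e, |cl (G.erase e)| ≤ ε n^2)` (`Ex_mecke`; if `Cl (G.erase e) e` then the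
closures of `G` and `G.erase e` are equal) `≤ p/(1-p) E[|cl G| 1_{|cl G| ≤ ε n^2}]` (`Ex_erase`)
`≤ p/(1-p) (ε n^2 a + ε' n^2 + n^2 P(G independent, |cl G| ≥ ε' n^2))`. Choose `ε < β/(4c)`, let
`ε'` tend to zero, use T0. -/
theorem Rig.T1 {d t : ℕ} (R : Rig d t) (hd : 2 ≤ d) {c : ℝ} (hc : 0 < c) : ∃ ε : ℝ, 0 < ε ∧
    Neg c (fun n G => R.Dep G ∧ ((R.cl n G).card : ℝ) ≤ ε * (n : ℝ) ^ 2) := by
  obtain ⟨β, hβ, hD⟩ := Neg_dense_small hc
  refine ⟨β / (4 * c), by positivity, ?_⟩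
  set ε : ℝ := β / (4 * c) with hε
  have hε0 : 0 < ε := by positivity
  have hcε : c * ε = β / 4 := by
    rw [hε]; field_simp
  rw [Neg_iff hc]
  intro η hη
  set ε' : ℝ := β * η / (16 * c) with hε'
  have hε'0 : 0 < ε' := by positivity
  have hcε' : c * ε' = β * η / 16 := by
    rw [hε']; field_simp
  have hT0 := R.T0 hc hε'0
  rw [Neg_iff hc] at hD hT0
  filter_upwards [hD (η / 8) (by positivity), hT0 (η / 8) (by positivity), cn_eventually hc,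
    eventually_gt_atTop 0] with n h1 h2 h3 h4
  have h5 := R.t1_ineq hd (n := n) h3.1.le h3.2 hβ.le hε0.le hε'0.le
  set a := Pr n (c / n) (fun G => R.Dep G ∧ ((R.cl n G).card : ℝ) ≤ ε * (n : ℝ) ^ 2) with ha
  have ha0 : 0 ≤ a := Pr_nonneg h3.1.le (by linarith [h3.2])
  have hn : (0 : ℝ) < n := by exact_mod_cast h4
  have h6 : 2 * (c / n) * (n : ℝ) ^ 2 = n * (2 * c) := by field_simp
  rw [h6] at h5
  set δ₁ := Pr n (c / n) (fun G => ∃ S : Finset ℕ, S ⊆ range n ∧ S.Nonempty ∧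
    (S.card : ℝ) ≤ β * n ∧ 3 * S.card ≤ 2 * (ins S G).card) with hδ₁
  set δ₂ := Pr n (c / n) (fun G => ¬ R.Dep G ∧ ε' * (n : ℝ) ^ 2 ≤ ((R.cl n G).card : ℝ)) with hδ₂
  have h7 : n * (β * (a - δ₁)) ≤ n * (2 * c * (ε * a + ε' + ε * δ₂)) := by
    calc n * (β * (a - δ₁)) = β * n * (a - δ₁) := by ring
      _ ≤ n * (2 * c) * (ε * a + ε' + ε * δ₂) := h5
      _ = _ := by ring
  have h8 := le_of_mul_le_mul_left h7 hn
  have h9 : 2 * c * (ε * a + ε' + ε * δ₂) = β / 2 * a + β * η / 8 + β / 2 * δ₂ := by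
    calc 2 * c * (ε * a + ε' + ε * δ₂) = 2 * (c * ε) * a + 2 * (c * ε') + 2 * (c * ε) * δ₂ := by ring
      _ = _ := by rw [hcε, hcε']; ring
  rw [h9] at h8
  have h10 : β * (a / 2) ≤ β * (η / 8 + η / 8 + η / 16) := by nlinarith
  have h11 := le_of_mul_le_mul_left h10 hβ
  linarith

/-- With `dense_clique` (`Y0 = ∅`). -/
theorem Rig.exists_std {d t : ℕ} (R : Rig d t) (hd : 2 ≤ d) (ht : 2 ≤ t) {c : ℝ} (hc : 0 < c) :
    ∃ δ0 : ℝ, 0 < δ0 ∧ ∀ δ : ℝ, 0 < δ → δ ≤ δ0 → Std R c δ := by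
  obtain ⟨ε, hε, hT⟩ := R.T1 hd hc
  obtain ⟨δ0, hδ0, n0, hn0⟩ := R.dense_clique ht hε
  refine ⟨δ0, hδ0, fun δ hδ hδδ0 => ⟨hd, ht, hc, hδ, ?_⟩⟩
  refine Neg_mono hc hT ?_
  filter_upwards [eventually_ge_atTop n0] with n hn G hG h
  refine ⟨h.1, ?_⟩
  by_contra hcon
  have hcon := not_le.1 hcon
  obtain ⟨C, hCn, hCq, hCc, hCne⟩ := hn0 n hn G ∅ (by
    have : Kp (∅ : Finset ℕ) = ∅ := by
      ext e
      induction e using Sym2.ind with
      | _ a b => simp [mk_mem_Kp]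
    rw [this, Finset.sdiff_empty]
    exact hcon.le)
  apply h.2
  have h1 : C ⊆ R.Y δ n G := by
    refine R.subset_Y hCn hCq (le_trans ?_ hCc)
    exact mul_le_mul_of_nonneg_right hδδ0 (Nat.cast_nonneg n)
  have h2 : C.Nonempty := by
    rw [Finset.nonempty_iff_ne_empty]
    rintro rfl
    exact hCne (Finset.Subset.refl _)
  exact h2.mono h1

end Pool.Agent.Helper55.ML
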