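import Pool.Agent.Helper55.ML.F3
import Pool.Agent.Helper55.ML.F4
import Pool.Agent.Helper55.ML.F7
import Pool.Agent.Helper55.ML.A1

set_option autoImplicit false
open Finset Filter Topology

namespace Pool.Agent.Helper55.ML

private theorem xa_clamp (a b : ℝ) :
    |min 1 (max 0 a) - min 1 (max 0 b)| ≤ |a - b| := by
  have h1 : |min 1 (max 0 a) - min 1 (max 0 b)| ≤ |max 0 a - max 0 b| := by
    have := abs_inf_sub_inf_le_abs (max 0 a) (max 0 b) 1
    simpa [inf_comm] using this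
  have h2 : |max 0 a - max 0 b| ≤ |a - b| := by
    have := abs_sup_sub_sup_le_abs a b 0
    simpa [sup_comm] using this
  exact h1.trans h2

private theorem xa_D_lip (d : ℕ) {c : ℝ} (hc : 0 < c) {a b : ℝ} (ha : 0 ≤ a) (hb : 0 ≤ b) :
    |Dfun d c a - Dfun d c b| ≤ (4 * c ^ 2 + d) * |a - b| := by
  have ca : 0 ≤ c * a := by positivity
  have cb : 0 ≤ c * b := by positivity
  have e : |c * a - c * b| = c * |a - b| := by
    rw [← mul_sub, abs_mul, abs_of_pos hc]
  have h1 := hp_lip d ca cb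
  have h2 := phi_lip (d - 1) ca cb
  rw [e] at h1 h2
  have a0 := hp_nonneg d ca
  have a1 := hp_le_one d ca
  have b0 := hp_nonneg d cb
  have b1 := hp_le_one d cb
  have p0 := phi_nonneg (d - 1) ca
  have p1 := phi_le_one (d - 1) ca
  unfold Dfun
  set Ha := hp d (c * a)
  set Hb := hp d (c * b)
  set Pa := phi (d - 1) (c * a)
  set Pb := phi (d - 1) (c * b)
  have hx : 0 ≤ |a - b| := abs_nonneg _
  have t1 : |Ha ^ 2 - Hb ^ 2| ≤ 2 * (c * |a - b|) := by
    have : Ha ^ 2 - Hb ^ 2 = (Ha + Hb) * (Ha - Hb) := by ring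
    rw [this, abs_mul, abs_of_nonneg (by linarith : 0 ≤ Ha + Hb)]
    exact mul_le_mul (by linarith) h1 (abs_nonneg _) (by norm_num)
  have t2 : |Ha * Pa - Hb * Pb| ≤ 3 * (c * |a - b|) := by
    have : Ha * Pa - Hb * Pb = (Ha - Hb) * Pa + Hb * (Pa - Pb) := by ring
    rw [this]
    refine (abs_add_le _ _).trans ?_
    rw [abs_mul, abs_mul, abs_of_nonneg p0, abs_of_nonneg b0]
    have u1 : |Ha - Hb| * Pa ≤ c * |a - b| * 1 :=
      mul_le_mul h1 p1 p0 (by positivity)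
    have u2 : Hb * |Pa - Pb| ≤ 1 * (2 * (c * |a - b|)) :=
      mul_le_mul b1 h2 (abs_nonneg _) (by norm_num)
    linarith
  have t3 : c / 2 * (Ha ^ 2 + 2 * Ha * Pa) - d * a - (c / 2 * (Hb ^ 2 + 2 * Hb * Pb) - d * b) =
      c / 2 * ((Ha ^ 2 - Hb ^ 2) + 2 * (Ha * Pa - Hb * Pb)) - d * (a - b) := by ring
  rw [t3]
  refine (abs_sub _ _).trans ?_
  have t4 : |c / 2 * ((Ha ^ 2 - Hb ^ 2) + 2 * (Ha * Pa - Hb * Pb))| ≤ 4 * c ^ 2 * |a - b| := by
    rw [abs_mul, abs_of_pos (by positivity : 0 < c / 2)]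
    have : |(Ha ^ 2 - Hb ^ 2) + 2 * (Ha * Pa - Hb * Pb)| ≤ 8 * (c * |a - b|) := by
      refine (abs_add_le _ _).trans ?_
      rw [abs_mul, abs_of_pos (by norm_num : (0:ℝ) < 2)]
      linarith
    calc c / 2 * |(Ha ^ 2 - Hb ^ 2) + 2 * (Ha * Pa - Hb * Pb)| ≤ c / 2 * (8 * (c * |a - b|)) :=
          mul_le_mul_of_nonneg_left this (by positivity)
      _ = 4 * c ^ 2 * |a - b| := by ring
  have t5 : |(d : ℝ) * (a - b)| = d * |a - b| := by
    rw [abs_mul, abs_of_nonneg (Nat.cast_nonneg d)]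
  rw [t5]
  linarith

/-- XA (hint): `ψ(u) = min 1 (max 0 (-(2/τ) D(u) - 1))` for `u` clamped to `[0,1]` is Lipschitz, `1` where
`D ≤ -τ`, `0` where `D ≥ -τ/2`. C3 and III give `E[D(y) ψ(y)] ≥ -o(1)`, and
`D(y) ψ(y) ≤ -(τ/2) ψ(y)`. -/
theorem Rig.XA {d t : ℕ} (R : Rig d t) {c δ : ℝ} (hS : Std R c δ) {τ : ℝ} (hτ : 0 < τ) :
    Neg c (fun n G => Dfun d c (R.y δ n G) ≤ -τ) := by
  have hc := hS.hc
  set ψ : ℝ → ℝ := fun u => min 1 (max 0 (-(2 / τ) * Dfun d c (min 1 (max 0 u)) - 1)) with hψ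
  have ψ0 : ∀ a, 0 ≤ ψ a := fun a => le_min (by norm_num) (le_max_left _ _)
  have ψ1 : ∀ a, ψ a ≤ 1 := fun a => min_le_left _ _
  have hL : ∀ a b, |ψ a - ψ b| ≤ (2 / τ * (4 * c ^ 2 + d)) * |a - b| := by
    intro a b
    refine (xa_clamp _ _).trans ?_
    have e : -(2 / τ) * Dfun d c (min 1 (max 0 a)) - 1 - (-(2 / τ) * Dfun d c (min 1 (max 0 b)) - 1) =
        -(2 / τ) * (Dfun d c (min 1 (max 0 a)) - Dfun d c (min 1 (max 0 b))) := by ring
    rw [e, abs_mul, abs_neg, abs_of_pos (by positivity : 0 < 2 / τ)]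
    have h1 := xa_D_lip d hc (le_min (by norm_num : (0:ℝ) ≤ 1) (le_max_left 0 a))
      (le_min (by norm_num : (0:ℝ) ≤ 1) (le_max_left 0 b))
    have h2 := xa_clamp a b
    calc 2 / τ * |Dfun d c (min 1 (max 0 a)) - Dfun d c (min 1 (max 0 b))| ≤
        2 / τ * ((4 * c ^ 2 + d) * |min 1 (max 0 a) - min 1 (max 0 b)|) :=
          mul_le_mul_of_nonneg_left h1 (by positivity)
      _ ≤ 2 / τ * ((4 * c ^ 2 + d) * |a - b|) := by
          gcongr
      _ = _ := by ring
  rw [Neg_iff hc]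
  intro ε hε
  have h3 := R.C3 hS hL ψ1 ψ0 (ε := ε * τ / 8) (by positivity)
  have h4 := (Neg_iff hc).1 (R.III hS (ε := ε * τ / 8) (by positivity)) (ε * τ / (4 * (d + 1)))
    (by positivity)
  filter_upwards [h3, h4, cn_eventually hc, eventually_gt_atTop 0] with n h3 h4 h5 h6
  have hn : (0 : ℝ) < n := by exact_mod_cast h6
  set B : Finset (Sym2 ℕ) → Prop := fun G =>
    ((ins (R.Y δ n G) G).card : ℝ) ≤ d * ((R.Y δ n G).card : ℝ) - ε * τ / 8 * n with hB
  have key : Ex n (c / n) (fun G => τ / 2 * ind (Dfun d c (R.y δ n G) ≤ -τ) +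
      c / 2 * (hp d (c * R.y δ n G) ^ 2 +
        2 * hp d (c * R.y δ n G) * phi (d - 1) (c * R.y δ n G)) * ψ (R.y δ n G)) ≤
      Ex n (c / n) (fun G => ((ins (R.Y δ n G) G).card : ℝ) / n * ψ (R.y δ n G) +
        (ε * τ / 8 + d * ind (B G))) := by
    refine Ex_mono h5.1.le (by linarith [h5.2]) ?_
    intro G hG
    have y0 : 0 ≤ R.y δ n G := R.y_nonneg
    have y1 : R.y δ n G ≤ 1 := R.y_le_one
    have yY : ((R.Y δ n G).card : ℝ) = R.y δ n G * n := by
      unfold Rig.y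
      field_simp
    have hcl : min 1 (max 0 (R.y δ n G)) = R.y δ n G := by
      rw [max_eq_right y0, min_eq_right y1]
    have hψy : ψ (R.y δ n G) = min 1 (max 0 (-(2 / τ) * Dfun d c (R.y δ n G) - 1)) := by
      simp only [hψ, hcl]
    have hMain : c / 2 * (hp d (c * R.y δ n G) ^ 2 +
        2 * hp d (c * R.y δ n G) * phi (d - 1) (c * R.y δ n G)) =
        Dfun d c (R.y δ n G) + d * R.y δ n G := by
      unfold Dfun; ring
    rw [hMain]
    have p0 := ψ0 (R.y δ n G)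
    have p1 := ψ1 (R.y δ n G)
    have hind : ind (Dfun d c (R.y δ n G) ≤ -τ) ≤ ψ (R.y δ n G) := by
      by_cases hD : Dfun d c (R.y δ n G) ≤ -τ
      · rw [ind_true hD, hψy]
        have : 1 ≤ -(2 / τ) * Dfun d c (R.y δ n G) - 1 := by
          have h1 : 2 / τ * τ ≤ 2 / τ * (-Dfun d c (R.y δ n G)) :=
            mul_le_mul_of_nonneg_left (by linarith) (by positivity)
          have h2 : 2 / τ * τ = 2 := by field_simp
          linarith
        rw [max_eq_right (by linarith), min_eq_left this]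
      · rw [ind_false hD]; exact p0
    have hDψ : Dfun d c (R.y δ n G) * ψ (R.y δ n G) ≤ -(τ / 2) * ψ (R.y δ n G) := by
      rcases le_or_gt (Dfun d c (R.y δ n G)) (-(τ / 2)) with h | h
      · exact mul_le_mul_of_nonneg_right h p0
      · have : -(2 / τ) * Dfun d c (R.y δ n G) - 1 ≤ 0 := by
          have h1 : 2 / τ * (-(τ / 2)) ≤ 2 / τ * Dfun d c (R.y δ n G) :=
            mul_le_mul_of_nonneg_left h.le (by positivity)
          have h2 : 2 / τ * (-(τ / 2)) = -1 := by field_simp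
          linarith
        have hz : ψ (R.y δ n G) = 0 := by
          rw [hψy, max_eq_left this, min_eq_right (by norm_num)]
        rw [hz]; simp
    have hi0 := ind_nonneg (B G)
    have hd0 : (0 : ℝ) ≤ d := Nat.cast_nonneg d
    have hlow : d * R.y δ n G * ψ (R.y δ n G) ≤
        ((ins (R.Y δ n G) G).card : ℝ) / n * ψ (R.y δ n G) + (ε * τ / 8 + d * ind (B G)) := by
      have q0 : 0 ≤ ((ins (R.Y δ n G) G).card : ℝ) / n * ψ (R.y δ n G) := by positivity
      have e0 : 0 < ε * τ / 8 := by positivity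
      by_cases hb : B G
      · rw [ind_true hb]
        have : d * R.y δ n G * ψ (R.y δ n G) ≤ d * 1 * 1 := by
          gcongr
        linarith
      · rw [ind_false hb]
        have hb' : d * ((R.Y δ n G).card : ℝ) - ε * τ / 8 * n < ((ins (R.Y δ n G) G).card : ℝ) :=
          not_le.1 hb
        rw [yY] at hb'
        have h1 : d * R.y δ n G - ε * τ / 8 ≤ ((ins (R.Y δ n G) G).card : ℝ) / n := by
          rw [le_div_iff₀ hn]
          nlinarith
        have h2 := mul_le_mul_of_nonneg_right h1 p0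
        have h3 : ε * τ / 8 * ψ (R.y δ n G) ≤ ε * τ / 8 * 1 := mul_le_mul_of_nonneg_left p1 e0.le
        nlinarith
    have h7 : τ / 2 * ind (Dfun d c (R.y δ n G) ≤ -τ) ≤ τ / 2 * ψ (R.y δ n G) :=
      mul_le_mul_of_nonneg_left hind (by positivity)
    calc τ / 2 * ind (Dfun d c (R.y δ n G) ≤ -τ) +
        (Dfun d c (R.y δ n G) + d * R.y δ n G) * ψ (R.y δ n G) ≤
        d * R.y δ n G * ψ (R.y δ n G) := by nlinarith
      _ ≤ _ := hlow
  rw [Ex_add, Ex_add, Ex_add, Ex_const, Ex_mul_left, Ex_mul_left] at key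
  have hPr : Pr n (c / n) (fun G => Dfun d c (R.y δ n G) ≤ -τ) =
      Ex n (c / n) (fun G => ind (Dfun d c (R.y δ n G) ≤ -τ)) := rfl
  have hPB : Ex n (c / n) (fun G => ind (B G)) ≤ ε * τ / (4 * (d + 1)) := h4
  rw [hPr]
  have hd0 : (0 : ℝ) ≤ d := Nat.cast_nonneg d
  have h8 : d * Ex n (c / n) (fun G => ind (B G)) ≤ ε * τ / 4 := by
    calc d * Ex n (c / n) (fun G => ind (B G)) ≤ d * (ε * τ / (4 * (d + 1))) :=
          mul_le_mul_of_nonneg_left hPB hd0
      _ = ε * τ / 4 * (d / (d + 1)) := by field_simp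
      _ ≤ ε * τ / 4 * 1 := by
          refine mul_le_mul_of_nonneg_left ?_ (by positivity)
          rw [div_le_one (by positivity)]
          linarith
      _ = ε * τ / 4 := by ring
  have h9 : τ / 2 * Ex n (c / n) (fun G => ind (Dfun d c (R.y δ n G) ≤ -τ)) ≤ τ / 2 * ε := by
    have h3' := h3
    linarith
  exact le_of_mul_le_mul_left h9 (by positivity)

end Pool.Agent.Helper55.ML
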